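import Pool.Agent.MP_735563_an.H2.Spec2

set_option autoImplicit false

/-! Short loops at complete points are absolute. -/

namespace Pool.Agent.MP_735563_an.H2

namespace AB

section geo

variable {V : Type} {d : V → V → ℕ} {δ : ℕ}

/-- a point almost between is near a point between -/
theorem mid (h : Met d δ) {x y a : V} {r : ℕ} (ha : d x a + d a y ≤ d x y + r) :
    ∃ m, Btw d x m y ∧ d m a ≤ 2 * r + 2 * δ ∧ d x m ≤ d x a ∧ d m y ≤ d a y := by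
  obtain ⟨m, h1, h2⟩ := h.geo x y (min (d x a) (d x y)) (min_le_right _ _)
  have h3 := h.near (r' := r) ha h2 (by omega) (by omega)
  have := h.tri x a y
  refine ⟨m, h2, by omega, by omega, ?_⟩
  unfold Btw at h2
  omega

/-- balls are quasi convex -/
theorem ball_qc (h : Met d δ) {x a b m : V} {r : ℕ} (ha : d x a ≤ r) (hb : d x b ≤ r)
    (hm : Btw d a m b) : d x m ≤ r + 2 * δ := by
  unfold Btw at hm
  have := h.four x m a b
  have := h.symm m a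
  omega

end geo

variable {p : ℕ} {𝔇 : ℕ → Lev p}

/-- completeness on a ball, in terms of the coset metric -/
theorem comp_of_dj {i i' r : ℕ} {s : St p} (hs : ValZ 𝔇 i s) {x m : Gam p}
    (hx : ∀ u, len u ≤ r → Comp 𝔇 i' s (x * u)) (hm : dj 𝔇 i s x m ≤ r) : Comp 𝔇 i' s m := by
  obtain ⟨u, h1, h2⟩ := exists_dj (𝔇 := 𝔇) i s x m
  rw [← Comp_stab (hs.stab h2), inv_mul_cancel_right]
  exact hx u (h1.trans_le hm)

theorem mem_K_of_cjs {j : ℕ} (hj : 1 ≤ j) {s : St p} {x l : Gam p} {c : Fin 3}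
    (hx : s x (j, some c) ≠ 0) (hl : l ∈ cjs x ((𝔇 j).L c (s x (j, some c)))) : l ∈ K 𝔇 j s := by
  simpa [mul_assoc] using mem_K hj le_rfl hx (mem_cjs.1 hl)

end AB

open AB in
theorem ab (h0 : GrStmt) (h1 : CPStmt) : ABStmt := by
  intro p 𝔇 j hj hok hgeo hsc hmon s s' hs hs' hle x w hx hw
  have hθ := hok.2.1.θ
  have hδ := hok.scale.1
  have vs := hs.mono (Nat.sub_le j 1)
  have vs' := hs'.mono (Nat.sub_le j 1)
  have S := hsc s hs
  have S' := hsc s' hs'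
  have M := S.met
  have M' := S'.met
  have ST := hgeo.2.2.2 s s' vs vs' hle
  have anti := dj_anti (𝔇 := 𝔇) (le_refl (j - 1)) hle
  obtain ⟨h, hh, hmin⟩ := exists_qd (K 𝔇 j s) (dj 𝔇 (j - 1) s) x (x * w)
  obtain ⟨y, hy⟩ : ∃ y, y = h * (x * w) := ⟨_, rfl⟩
  rw [← hy] at hmin
  have hm : ∀ l ∈ K 𝔇 j s, dj 𝔇 (j - 1) s x y ≤ dj 𝔇 (j - 1) s x (l * y) := fun l hl => by
    rw [hmin, hy, ← mul_assoc]
    exact qd_le _ _ _ (mul_mem hl hh)
  have hxy : dj 𝔇 (j - 1) s x y ≤ len w := by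
    have := hm _ (inv_mem hh)
    rw [hy, inv_mul_cancel_left, ← hy] at this
    exact this.trans (dj_le_len _ _ _ _)
  have hA : ∀ m, dj 𝔇 (j - 1) s x m ≤ len w + (𝔇 j).δ → Comp 𝔇 j s m :=
    fun m hm => comp_of_dj vs hx hm
  have hA' : ∀ m u, dj 𝔇 (j - 1) s x m + len u ≤ len w + (𝔇 j).δ →
      Comp 𝔇 (j - 1) s (m * u) := fun m u hm => by
    refine (hA _ ?_).down (Nat.sub_le j 1)
    have := M.tri x m (m * u)
    have := dj_le_len (𝔇 := 𝔇) (j - 1) s m u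
    omega
  obtain ⟨e1, lift⟩ := ST x y (fun m hm u hu => hA' m u (by unfold Btw at hm; omega))
  by_cases hK : y * x⁻¹ ∈ K 𝔇 (j - 1) s'
  · have h2 := S.le ((S.zero x y).1 (e1.symm.trans ((S'.zero x y).2 hK)))
    simpa [hy, mul_assoc] using mul_mem (inv_mem hh) h2
  exfalso
  obtain ⟨T, hT, μ, hμ, hμ', hgr⟩ := h0 _ _ _ _ _ _ _ _ _ _ S' x (y * x⁻¹) (by
    simpa [hy, mul_assoc] using mul_mem (K_mono le_rfl hle hh) hw) hK
  rw [inv_mul_cancel_right] at hgr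
  obtain ⟨a, ha⟩ := exists_prj (dj 𝔇 (j - 1) s') (S'.ne T hT) x
  obtain ⟨b, hb⟩ := exists_prj (dj 𝔇 (j - 1) s') (S'.ne T hT) y
  have g1 := hgr a b ha hb
  have g2 := S'.disp T hT μ hμ hμ' b hb.1
  have g3 := S'.big
  have g4 := M'.tri b a (μ * b)
  have g5 := M'.symm b a
  have g6 := (M'.bridge (S'.qc T hT) ha hb).resolve_left (by omega)
  obtain ⟨ma', a1, a2, a3, -⟩ := mid M' (x := x) (y := y) (a := a)
    (r := 4 * (𝔇 j).κ + 18 * (𝔇 (j - 1)).δ + 2) (by have := M'.tri a b y; omega)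
  obtain ⟨mb', b1, b2, -, b3⟩ := mid M' (x := x) (y := y) (a := b)
    (r := 4 * (𝔇 j).κ + 18 * (𝔇 (j - 1)).δ + 2) (by have := M'.tri x a b; omega)
  obtain ⟨ma, a4, a5⟩ := lift ma' a1
  obtain ⟨mb, b4, b5⟩ := lift mb' b1
  rw [← S'.zero] at a5 b5
  unfold Btw at a4 b4
  have a6 : dj 𝔇 (j - 1) s x ma ≤ dj 𝔇 (j - 1) s' x a := by
    have := anti ma y
    have := M'.tri ma' ma y
    have := M'.symm ma' ma
    unfold Btw at a1
    omega
  have b6 : dj 𝔇 (j - 1) s mb y ≤ dj 𝔇 (j - 1) s' b y := by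
    have := anti x mb
    have := M'.tri x mb mb'
    unfold Btw at b1
    omega
  obtain ⟨ua, a7, a8⟩ := exists_dj (𝔇 := 𝔇) (j - 1) s' ma a
  obtain ⟨ub, b7, b8⟩ := exists_dj (𝔇 := 𝔇) (j - 1) s' mb b
  have a9 := dj_le_len (𝔇 := 𝔇) (j - 1) s ma ua
  have b9 := dj_le_len (𝔇 := 𝔇) (j - 1) s mb ub
  have a10 := M'.tri ma ma' a
  have b10 := M'.tri mb mb' b
  generalize ma * ua = c at a8 a9
  generalize mb * ub = c2 at b8 b9
  have a11 := M.tri x ma c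
  have b11 := M.tri x mb c2
  have hc : c ∈ T.1 := by
    simpa using S'.pres T hT _ ((S'.sub T hT).1 a8) a ha.1
  obtain ⟨x0, c0, hx0, rfl⟩ := (mem_fam 𝔇).1 hT
  obtain ⟨c1, -, -, c3, c4, -⟩ := ((h1 p 𝔇 j hj hok hgeo s' hs' c0).1 x0 hx0).2.1 c hc
  have c5 : s' c (j, some c0) = s c (j, some c0) :=
    (hmon s s' hs hs' hle c (hA c (by omega))).2 _ (by rw [rk_some]; omega)
      (by rw [rk_some]; omega)
  have c6 : s c (j, some c0) ≠ 0 := c5 ▸ c1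
  obtain ⟨c7, c8, -⟩ := (h1 p 𝔇 j hj hok hgeo s hs c0).1 c c6
  have hF : (cp 𝔇 j s c0 c, cgp 𝔇 j s c0 c) ∈ fam 𝔇 j s := (mem_fam 𝔇).2 ⟨c, c0, c6, rfl⟩
  have hB : ∀ e ∈ cp 𝔇 j s c0 c, ∀ m u, dj 𝔇 (j - 1) s m e + len u ≤ (𝔇 j).θ →
      Comp 𝔇 (j - 1) s (m * u) := fun e he m u hm => by
    refine comp_of_dj vs (c8 e he).2.2.1 ?_
    have := M.tri e m (m * u)
    have := M.symm e m
    have := dj_le_len (𝔇 := 𝔇) (j - 1) s m u
    omega
  have hμ2 : μ ∈ cjs c ((𝔇 j).L c0 (s' c (j, some c0))) ⊔ K 𝔇 (j - 1) s' := by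
    rw [sup_comm]
    exact (show cgp 𝔇 j s' c0 x0 ≤ cgp 𝔇 j s' c0 c from c4.ge) hμ
  obtain ⟨k1, hk1, l, hl, rfl⟩ :=
    exists_mul_of_mem_sup (fun l hl => hs'.stab (mem_K_of_cjs hj c1 hl)) hμ2
  have l1 := hs'.stab (mem_K_of_cjs hj c1 hl)
  rw [c5] at hl
  have l2 := mem_K_of_cjs hj c6 hl
  obtain ⟨k2, hk2, b0, hb0, rfl⟩ : b ∈ cp 𝔇 j s' c0 c := c3 ▸ hb.1
  rw [c5] at hb0
  have hb1 : b0 ∈ cp 𝔇 j s c0 c := subset_Sat _ _ hb0
  have hb2 : l * b0 ∈ cp 𝔇 j s c0 c :=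
    S.pres _ hF l (Subgroup.mem_sup_right hl) b0 hb1
  have e2 := (ST c (l * b0) (fun m hm u hu => by
    obtain ⟨e, he, h2⟩ := S.qc _ hF c c7 _ hb2 m hm
    exact hB e he m u (by omega))).1
  have e3 := (ST c2 b0 (fun m hm u hu => by
    obtain ⟨q, h2 | h2, h3⟩ := M.slim hm c
    · have h4 := ball_qc M (x := x) (r := len w + 8 * (𝔇 j).κ + 38 * (𝔇 (j - 1)).δ + 4)
        (by omega) (by omega) h2
      have := M.tri x q m
      have := M.symm q m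
      exact hA' m u (by omega)
    · obtain ⟨e, he, h4⟩ := S.qc _ hF c c7 _ hb1 q h2
      have := M.tri m q e
      exact hB e he m u (by omega))).1
  have z1 : dj 𝔇 (j - 1) s' c a = 0 := (S'.zero _ _).2 (by simpa using inv_mem a8)
  have z2 : dj 𝔇 (j - 1) s' (k1 * l * (k2 * b0)) (l * b0) = 0 := (S'.zero _ _).2 (by
    simpa [mul_assoc] using inv_mem (mul_mem hk1 (conj_mem_K l1 hk2)))
  have z3 : dj 𝔇 (j - 1) s' c2 b0 = 0 := (S'.zero _ _).2 (by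
    simpa [mul_assoc] using inv_mem (mul_mem b8 hk2))
  have t1 := M'.tri c a (l * b0)
  have t2 := M'.tri a (k1 * l * (k2 * b0)) (l * b0)
  have t3 := M.tri x c (l * y)
  have t4 := M.tri c (l * b0) (l * y)
  have t5 := S.inv l l2 b0 y
  have t6 := M.tri b0 c2 y
  have t7 := M.tri c2 mb y
  have t8 := M.symm b0 c2
  have t9 := M.symm c2 mb
  have t10 := hm l l2
  omega

end Pool.Agent.MP_735563_an.H2
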