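import Pool.Agent.MP_735563_an.H2.Spec2

set_option autoImplicit false

/-! Amalgam of two towers over a common tower. -/

namespace Pool.Agent.MP_735563_an.H2

namespace BGlue

variable {p : ℕ} {𝔇 : ℕ → Lev p} {N j : ℕ} {s B : St p}

theorem val_eq (hs : Good 𝔇 N s) {b u : Gam p} (h : b * u⁻¹ ∈ Kall 𝔇 s) : s b = s u := by
  have := apply_of_stab (hs.stab h) u
  rwa [inv_mul_cancel_right] at this

theorem suppB (hB : Good 𝔇 j B) (tB : Tow 𝔇 j B) {x : Gam p} {κ : Kind} (hx : B x κ ≠ 0) :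
    x ∈ Dm 0 B := tB.supp hB.2.1.sup hB.2.1 hx

theorem inj (h3 : InjBStmt) (hT : Th 𝔇 N) (hj : j ≤ N) (hs : Good 𝔇 N s) (hB : Good 𝔇 j B)
    (hl : Le B s) (tB : Tow 𝔇 j B) (sB : ∃ F k, Shape 𝔇 j B F k)
    (hK : ∀ b ∈ Nb 100 (Dm 0 B), ∀ k ∈ Kall 𝔇 s, k * b ∈ Nb 100 (Dm 0 B) → k ∈ K 𝔇 j s) :
    ∀ b ∈ Nb 100 (Dm 0 B), ∀ k ∈ Kall 𝔇 s, k * b ∈ Nb 100 (Dm 0 B) → k ∈ Kall 𝔇 B := by
  intro b hb k hk hkb
  obtain ⟨F, n, sB⟩ := sB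
  exact K_le_Kall j B (h3 p 𝔇 N j hT hj B s F n (hB.mono hj) tB sB (hs.1.1.mono hj) hl b hb k
    (hK b hb k hk hkb) hkb)

theorem sep (h2 : LUStmt) (hT : Th 𝔇 N) (hj : j ≤ N) (hs : Good 𝔇 N s) (hB : Good 𝔇 j B)
    (hl : Le B s) (ts : Tow 𝔇 j s) (tB : Tow 𝔇 j B)
    (hI : ∀ b ∈ Nb 100 (Dm 0 B), ∀ k ∈ Kall 𝔇 s, k * b ∈ Nb 100 (Dm 0 B) → k ∈ Kall 𝔇 B)
    {b : Gam p} (hb : b ∈ Nb 20 (Dm 0 B)) (hA : CaseA 𝔇 j s B b) {u : Gam p} (hu : len u ≤ 30)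
    {κ : Kind} (hκ : rk κ ≤ 2 * j + 2) (hx : s (b * u) κ ≠ 0) : B (b * u) κ ≠ 0 := by
  obtain ⟨h, hh, h1⟩ := h2 p 𝔇 N j hT hj B s s (Kall 𝔇 s) hB.1.1 (hs.1.1.mono hj)
    (hs.1.1.mono hj) hl (Le.refl s) tB ts (fun h hh => hs.stab hh) b 30
    (fun v hv => hA v (by omega)) u hu κ (hs.2.1 _ κ hx).1 hκ hx
  have h4 : b * u ∈ Nb 100 (Dm 0 B) := by
    have := mul_mem_Nb hb hu
    rw [Nb_Nb] at this
    exact Nb_mono (by omega) subset_rfl this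
  have h5 := hI _ h4 h hh (subset_Nb _ _ (suppB hB tB h1))
  rwa [apply_of_stab (hB.stab h5)] at h1

theorem geo (h4 : TowStmt) (hT : Th 𝔇 N) (hj : j ≤ N) (hs : Good 𝔇 N s) (ts : Tow 𝔇 j s)
    (sh : ∃ F k, Shape 𝔇 j s F k) {x : Gam p} (hx : x ∈ Dm 0 s) :
    ∀ u ∈ Dm 0 s, ∀ q, Btw d0 x q u → ∀ i a, q * gen i a ∈ Nb 20 (Dm 0 s) := by
  intro u hu q hq i a
  obtain ⟨F, n, sh⟩ := sh
  obtain ⟨c, hc, h1⟩ := ((h4 p 𝔇 N j hT hj s hs ts).2 F n sh).1 x hx u hu q hq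
  refine ⟨c, hc, (q⁻¹ * c)⁻¹ * gen i a, ?_, by simp [mul_assoc]⟩
  have h2 := len_mul_le (q⁻¹ * c)⁻¹ (gen i a)
  have h3 := len_gen_le i a
  rw [len_inv] at h2
  have h5 : len (q⁻¹ * c) ≤ 17 := h1
  omega

theorem panel {b g : Gam p} (hg : len g ≤ 1) (hb : b * g ∈ Nb 20 (Dm 0 s))
    (h : ∀ u, len u ≤ 30 → s (b * u) (1, none) ≠ 0 → B (b * u) (1, none) ≠ 0) :
    b * g ∈ Nb 20 (Dm 0 B) := by
  obtain ⟨y, hy, v, hv, e⟩ := hb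
  have e1 : y = b * (g * v⁻¹) := by rw [← mul_assoc, e, mul_inv_cancel_right]
  have h1 := len_mul_le g v⁻¹
  rw [len_inv] at h1
  refine ⟨y, ?_, v, hv, e⟩
  rw [e1] at hy ⊢
  exact h _ (by omega) hy

theorem tow_of (hT : Th 𝔇 N) (hj : j ≤ N) (hs : Good 𝔇 N s)
    (A : ∀ q κ, s q κ ≠ 0 → ∃ h ∈ Kall 𝔇 s, ∃ t, Good 𝔇 N t ∧ Le t s ∧ Tow 𝔇 j t ∧
      t (h * q) κ ≠ 0) : Tow 𝔇 j s := by
  intro i h1 h2
  have hinv : ∀ k ∈ Kall 𝔇 s, ∀ y ∈ Dm i s ∪ Cen i s, k * y ∈ Dm i s ∪ Cen i s :=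
    fun k hk y hy => hy.imp (Dm_stab (hs.stab hk)).2 (Cen_stab (hs.stab hk)).2
  refine ⟨subset_antisymm (fun q hq => ?_) ?_, fun x hx c hc => ?_, fun x c hx => ?_⟩
  · obtain ⟨h, hh, t, -, lt, tt, h3⟩ := A q _ hq
    have h4 : h * q ∈ Dm (i - 1) t := h3
    rw [(tt i h1 h2).1] at h4
    have h5 := Nb_inv hinv _ _ (inv_mem hh) _
      (Nb_mono le_rfl (Set.union_subset_union (Dm_mono lt) (Cen_mono lt)) h4)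
    rwa [inv_mul_cancel_left] at h5
  · rintro _ ⟨y, hy, u, hu, rfl⟩
    obtain ⟨h, hh, t, lt, tt, h3⟩ : ∃ h ∈ Kall 𝔇 s, ∃ t, Le t s ∧ Tow 𝔇 j t ∧
        h * y ∈ Dm i t ∪ Cen i t := by
      rcases hy with hy | ⟨c, hy⟩
      · obtain ⟨h, hh, t, -, lt, tt, h3⟩ := A y _ hy
        exact ⟨h, hh, t, lt, tt, Or.inl h3⟩
      · obtain ⟨h, hh, t, -, lt, tt, h3⟩ := A y _ hy
        exact ⟨h, hh, t, lt, tt, Or.inr ⟨c, h3⟩⟩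
    have h4 := mul_mem_Nb h3 hu
    rw [← (tt i h1 h2).1, mul_assoc] at h4
    exact (Dm_stab (hs.stab hh)).1 (Dm_mono lt h4)
  · obtain ⟨h, hh, t, gt, lt, tt, h3⟩ := A x _ hx
    have h4 := ((hT.2.1 i (h2.trans hj)).2.1 t s (gt.1.1.mono (h2.trans hj))
      (hs.1.1.mono (h2.trans hj)) lt _ ((tt.mono h2).comp h3)).1
    exact ((Comp_stab (hs.stab hh)).1 h4).lab h1 hc
  · obtain ⟨h, hh, t, -, lt, tt, h3⟩ := A x _ hx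
    obtain ⟨e, he, h4⟩ := (tt i h1 h2).2.2 _ c h3
    rw [← lt _ _ h3, apply_of_stab (hs.stab hh)] at he
    rw [mul_assoc] at h4
    exact ⟨e, he, (Dm_stab (hs.stab hh)).1 (Dm_mono lt h4)⟩

end BGlue

open BGlue in
theorem bglue (h0 : PatchStmt) (h1 : GlueStmt) (h2 : LUStmt) (h3 : InjBStmt) (h4 : TowStmt) :
    BGlueStmt := by
  intro p 𝔇 N j hT hj s₁ s₂ B g1 g2 gB l1 l2 t1 t2 tB sh1 sh2 shB u1 u2 hK1 hK2 hA hS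
  have I1 := inj h3 hT hj g1 gB l1 tB shB hK1
  have I2 := inj h3 hT hj g2 gB l2 tB shB hK2
  have S1 := @sep p 𝔇 N j s₁ B h2 hT hj g1 gB l1 t1 tB I1
  have S2 := @sep p 𝔇 N j s₂ B h2 hT hj g2 gB l2 t2 tB I2
  have D1 : ∀ {x κ}, s₁ x κ ≠ 0 → x ∈ Dm 0 s₁ := fun hx => t1.supp u1 g1.2.1 hx
  have D2 : ∀ {x κ}, s₂ x κ ≠ 0 → x ∈ Dm 0 s₂ := fun hx => t2.supp u2 g2.2.1 hx
  have n0 : len (1 : Gam p) ≤ 30 := by rw [len_one]; omega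
  have nb : Nb 20 (Dm 0 B) ⊆ Nb 100 (Dm 0 B) := Nb_mono (by omega) subset_rfl
  obtain ⟨x₀, hx₀⟩ : (Dm 0 B).Nonempty := by
    obtain ⟨F, k, ⟨x, hx⟩, h5, -⟩ := shB
    exact ⟨x, tB.Dm_anti (Nat.zero_le j) (h5 (subset_Nb _ _ (subset_Sat _ _ hx)))⟩
  have i1 : ∀ k ∈ Kall 𝔇 s₁, ∀ u ∈ Dm 0 s₁, k * u ∈ Dm 0 s₁ :=
    fun k hk u hu => (Dm_stab (g1.stab hk)).2 hu
  have i2 : ∀ k ∈ Kall 𝔇 s₂, ∀ u ∈ Dm 0 s₂, k * u ∈ Dm 0 s₂ :=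
    fun k hk u hu => (Dm_stab (g2.stab hk)).2 hu
  have r1 : rk ((1, none) : Kind) ≤ 2 * j + 2 := by rw [rk_none]; omega
  obtain ⟨P1, P2, P3⟩ := h0 p (Kall 𝔇 s₁) (Kall 𝔇 s₂) (Kall 𝔇 B) (Dm 0 s₁) (Dm 0 s₂)
    (Nb 20 (Dm 0 s₁)) (Nb 20 (Dm 0 s₂)) (Nb 20 (Dm 0 B)) x₀ (Kall_mono l1) (Kall_mono l2)
    (Dm_mono l1 hx₀) (Dm_mono l2 hx₀) (subset_Nb _ _ hx₀) (subset_Nb _ _) (subset_Nb _ _)
    (Nb_mono le_rfl (Dm_mono l1)) (Nb_mono le_rfl (Dm_mono l2)) i1 i2 (Nb_inv i1 20) (Nb_inv i2 20)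
    (geo h4 hT hj g1 t1 sh1 (Dm_mono l1 hx₀)) (geo h4 hT hj g2 t2 sh2 (Dm_mono l2 hx₀))
    (fun b hb k hk hkb => I1 b (nb hb) k hk (nb hkb))
    (fun b hb k hk hkb => I2 b (nb hb) k hk (nb hkb))
    (fun b hb i a1 a2 a => (hA b hb).elim
      (fun c => panel (len_gen_le i a) (a1 a) fun u hu hx => S1 hb c hu r1 hx)
      fun c => panel (len_gen_le i a) (a2 a) fun u hu hx => S2 hb c hu r1 hx)
  obtain ⟨s, gs, m1, m2, hK, hq, hW, ho⟩ := h1 p 𝔇 N s₁ s₂ B g1 g2 (gB.mono hj) l1 l2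
    (fun h hh u κ a b => P1 h hh u (D1 a) (D1 b)) (fun h hh u κ a b => P2 h hh u (D2 a) (D2 b))
    (fun h hh u κ a b => by
      obtain ⟨c, hc, c1, c2⟩ := P3 h hh u (D1 a) (D2 b)
      rw [← val_eq g1 c1] at a
      rw [← val_eq g2 c2] at b
      have hκ : rk κ ≤ 2 * j + 2 := not_lt.1 fun e => (hS c hc κ e).elim a b
      refine ⟨c, ?_, c1, c2⟩
      rcases hA c hc with e | e
      · simpa using S1 hc e n0 hκ (by simpa using a)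
      · simpa using S2 hc e n0 hκ (by simpa using b))
    (fun k hk b κ a c => I2 b (subset_Nb _ _ (suppB gB tB a)) k hk
      (subset_Nb _ _ (suppB gB tB c)))
  refine ⟨s, gs, m1, m2, hK, hq, hW, ho, tow_of hT hj gs fun q κ hx => ?_,
    fun q hq1 κ a b => ?_, fun q hq2 κ a b => ?_⟩
  · obtain ⟨h, hh, e | e⟩ := hq q κ hx
    · exact ⟨h, hh, s₁, g1, m1, t1, e⟩
    · exact ⟨h, hh, s₂, g2, m2, t2, e⟩
  · obtain ⟨h, hh, e | e⟩ := hq q κ b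
    · rw [apply_of_stab (g1.stab (P1 h (hK ▸ hh) q hq1 (D1 e)))] at e
      exact absurd a e
    · obtain ⟨c, -, c1, c2⟩ := P3 h (hK ▸ hh) q hq1 (D2 e)
      refine ⟨c, ?_, by rwa [val_eq g2 c2]⟩
      by_contra hc
      exact l1.ne hc (by rw [val_eq g1 c1, a])
  · obtain ⟨h, hh, e | e⟩ := hq q κ b
    · obtain ⟨c, hc, c1, c2⟩ := P3 h⁻¹ (inv_mem (hK ▸ hh)) (h * q) (D1 e)
        (by rwa [inv_mul_cancel_left])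
      rw [inv_mul_cancel_left] at c2
      rw [← val_eq g1 c1] at e
      refine ⟨c, hc, c2, e, fun hκ hA' => ?_⟩
      have h5 : B c κ ≠ 0 := by simpa using S1 hc hA' n0 hκ (by simpa using e)
      exact l2.ne h5 (by rw [val_eq g2 c2, a])
    · rw [apply_of_stab (g2.stab (P2 h (hK ▸ hh) q hq2 (D2 e)))] at e
      exact absurd a e

end Pool.Agent.MP_735563_an.H2
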