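import Pool.Agent.MP_735563_an.H2.Spec2

set_option autoImplicit false

/-! Row Ball: exploring, growing and recentring balls. -/

namespace Pool.Agent.MP_735563_an.H2

namespace Ball

variable {p : ℕ} {𝔇 : ℕ → Lev p}

theorem shape {N k : ℕ} {s : St p} {g : Gam p} (hs : Good 𝔇 N s)
    (h1 : Nb k (Sat (Kall 𝔇 s) {g}) ⊆ Dm N s) (h2 : Dm N s ⊆ Nb (k + 1) (Sat (Kall 𝔇 s) {g})) :
    Shape 𝔇 N s {g} k :=
  ⟨Set.singleton_nonempty g, h1, h2, Or.inl ⟨g, rfl, (Kall_eq hs.2.1).le⟩⟩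

theorem sat_sub {H : Subgroup (Gam p)} {S P : Set (Gam p)} {r : ℕ} (h : S ⊆ Nb r (Sat H P)) :
    Sat H S ⊆ Nb r (Sat H P) :=
  Sat_subset h (Nb_inv (fun _ hk _ hy => mul_mem_Sat hk hy) r)

theorem ball_comp {N r : ℕ} {o : St p} (h : ∀ u, len u ≤ r → Comp 𝔇 N o u) :
    ∀ x ∈ Nb r ({1} : Set (Gam p)), Comp 𝔇 N o x := by
  rintro _ ⟨_, rfl, u, hu, rfl⟩
  rw [one_mul]; exact h u hu

theorem step [NeZero p] {N r : ℕ} (hT : Th 𝔇 N) (hG : GLFp 𝔇 N) {s : St p} (hs : Good 𝔇 N s)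
    (ht : Tow 𝔇 N s) (h1 : Nb r (Sat (Kall 𝔇 s) {1}) ⊆ Dm N s)
    (h2 : Dm N s ⊆ Nb (r + 1) (Sat (Kall 𝔇 s) {1})) :
    Reach 𝔇 N s (IsBall 𝔇 N (r + 1)) (fun o => ∀ u, len u ≤ r + 1 → Comp 𝔇 N o u) := by
  refine (hG N le_rfl hT s {1} r (Nb (r + 1) {1}) hs ht hs.2.1.sup (shape hs h1 h2)
    (Nb_finite _ (Set.finite_singleton _)) (Nb_mono le_rfl (subset_Sat _ _))).mono ?_
    fun o _ _ ho => ball_comp ho
  rintro s' hs' hl ⟨a, -, -, b, -⟩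
  refine ⟨hs', a, ?_⟩
  rw [b]
  refine subset_antisymm (sat_sub (Set.union_subset
    (h2.trans (Nb_mono le_rfl (Sat_mono (Kall_mono hl) subset_rfl)))
    (Nb_mono le_rfl (subset_Sat _ _)))) ?_
  rw [← Sat_Nb]
  exact Sat_mono le_rfl Set.subset_union_right

theorem iter [NeZero p] {N r r' : ℕ} (hT : Th 𝔇 N) (hG : GLFp 𝔇 N) {s : St p}
    (hs : IsBall 𝔇 N r s) (hr : r ≤ r') :
    Reach 𝔇 N s (IsBall 𝔇 N r') (fun o => ∀ u, len u ≤ r' → Comp 𝔇 N o u) := by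
  induction hr with
  | refl => exact Reach.refl hs.1 hs
  | step _ ih =>
    refine (ih.mono (fun _ _ _ h => h) fun o _ _ ho u hu => ho u (hu.trans (Nat.le_succ _))).bind
      fun s' _ _ h => step hT hG h.1 h.2.1 h.2.2.ge (h.2.2.le.trans (Nb_mono (Nat.le_succ _)
        subset_rfl))

theorem recentre [NeZero p] {N r : ℕ} (hT : Th 𝔇 N) (hG : GLFp 𝔇 N) {s : St p}
    (hs : IsBall 𝔇 N r s) {g : Gam p} (hg : len g ≤ 1) :
    Reach 𝔇 N (tr g s) (IsBall 𝔇 N (r + 1)) (fun o => ∀ u, len u ≤ r + 1 → Comp 𝔇 N o u) := by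
  have hD : Dm N (tr g s) = Nb r (Sat (Kall 𝔇 (tr g s)) {g}) := by
    rw [Dm_tr, hs.2.2, ← Nb_lm, ← Sat_lm, lm_singleton, mul_one, Kall_tr]
  have hgood := hs.1.tr g
  refine ((hG N le_rfl hT (tr g s) {g} r (Nb r {1}) hgood (hs.2.1.tr g) hgood.2.1.sup
    (shape hgood hD.ge (hD.le.trans (Nb_mono (Nat.le_succ _) subset_rfl)))
    (Nb_finite _ (Set.finite_singleton _)) ?_).mono (fun _ _ _ h => h)
    fun o _ _ ho => ball_comp fun u hu => ho u (hu.trans (Nat.le_succ _))).bind ?_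
  · rintro _ ⟨_, rfl, u, hu, rfl⟩
    refine ⟨g, subset_Sat _ _ rfl, g⁻¹ * u, ?_, by simp⟩
    have := len_mul_le g⁻¹ u
    rw [len_inv] at this; omega
  · rintro s' hs' hl ⟨a, -, -, b, -⟩
    refine step hT hG hs' a ?_ ?_
    · rw [b, ← Sat_Nb]
      exact Sat_mono le_rfl Set.subset_union_right
    · rw [b]
      refine sat_sub (Set.union_subset ?_ (Nb_mono (Nat.le_succ _) (subset_Sat _ _)))
      rw [hD]
      rintro _ ⟨_, ⟨h, hh, y, hy, rfl⟩, u, hu, rfl⟩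
      rw [Set.mem_singleton_iff.1 hy]
      refine ⟨h * 1, ⟨h, Kall_mono hl hh, 1, rfl, rfl⟩, g * u, ?_, by simp [mul_assoc]⟩
      have := len_mul_le g u
      omega

theorem zero [NeZero p] (h : EpsStmt) (hG : GLFp 𝔇 0) : BALLp 𝔇 0 := by
  intro hT r
  refine ((h p 𝔇 0 0 hT le_rfl (fun _ _ => 0) 1 (good_empty 0) fun h => h rfl).mono
    (Q' := fun s => IsBall 𝔇 0 0 s ∧ Inc s) ?_
    fun o _ _ ho => ho 1 (by rw [len_one]; omega)).bind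
    fun s _ _ hs => (iter hT hG hs.1 (Nat.zero_le r)).inc hs.2
  rintro s hs - ⟨a, b, c⟩
  have hD : Dm 0 s = Sat (Kall 𝔇 s) {1} := by
    rw [b, a]
    exact Set.union_eq_right.2 fun _ h => absurd rfl h
  refine ⟨⟨hs, tow_zero s, by rw [Nb_zero, hD]⟩, 1, 0, ?_, c _ _ (by simp)⟩
  rw [hD]; exact subset_Sat _ _ rfl

theorem up (h : EpsStmt) {i : ℕ} (hF : F3p 𝔇 (i + 1)) : UPp 𝔇 i := by
  intro hT s hs
  have hL : ∀ x κ, 2 * i + 2 < rk κ → s x κ = 0 := fun x κ hk => by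
    by_contra h0
    have := (hs.1.2.1 x κ h0).2
    omega
  have hm : ∀ x, x ∉ Dm (i + 1) s := fun x hx => hx (hL x _ (by rw [rk_none]; omega))
  refine ((h p 𝔇 (i + 1) (i + 1) hT le_rfl s 1 (hs.1.mono (Nat.le_succ _)) (hm 1)).mono
    (fun _ _ _ h => h) fun o _ _ ho => ho.1).bind ?_
  rintro s1 hs1 - ⟨a, b, c⟩
  have hD : Dm (i + 1) s1 = Sat (Kall 𝔇 s1) {1} := by
    rw [b, a]
    exact Set.union_eq_right.2 fun x h => absurd h (hm x)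
  have hfr : Fr (2 * i + 2) s s1 := fun x κ _ hk => (c x κ (by
    rintro rfl
    rw [rk_none] at hk; omega)).symm
  have hC : ∀ x c', s1 x (i + 1, some c') = 0 := fun x c' => by
    rw [c x _ (by simp)]
    exact hL x _ (by rw [rk_some]; omega)
  have hP : Pre 𝔇 (i + 1) (i + 1) s1 {1} 0 := by
    refine ⟨hs1, hfr.tow (fun j h1 h2 => (hT.ok h1 (by omega)).1) le_rfl hs.2.1, ?_,
      fun x c' hx => absurd (hC x c') hx,
      shape hs1 (by rw [Nb_zero, hD]) (by rw [hD]; exact subset_Nb _ _), hs1.2.1.sup,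
      fun k' hk => by omega⟩
    have hCe : Cen (i + 1) s1 = ∅ := Set.eq_empty_of_forall_notMem fun x ⟨c', hx⟩ => hx (hC x c')
    show Dm i s1 = _
    rw [hCe, Set.union_empty, hD, ← hfr.Dm_eq le_rfl, hs.2.2, a]
  refine (hF (i + 1) le_rfl hT s1 {1} 0 1 hP (by rw [hD]; exact subset_Sat _ _ rfl)).mono ?_
    fun _ _ _ h => h
  rintro s2 hs2 hl ⟨hP2, d, -, e⟩
  rw [hD, Sat_Sat (Kall_mono hl)] at d
  refine ⟨hs2, fun j h1 h2 => ?_, by rw [Nb_zero, d]⟩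
  rcases Nat.eq_or_lt_of_le h2 with rfl | h3
  · refine ⟨hP2.2.2.1, fun x hx c' hc => ?_, hP2.2.2.2.1⟩
    rw [d] at hx
    obtain ⟨k, hk, _, rfl, rfl⟩ := hx
    rw [apply_of_stab (hs2.stab hk)]
    exact e c' ((cenA_stab (hs2.stab hk)).1 hc)
  · exact hP2.2.1 j h1 (by omega)

theorem succ [NeZero p] {i : ℕ} (hB : BALLp 𝔇 i) (hU : UPp 𝔇 i) (hG : GLFp 𝔇 (i + 1)) :
    BALLp 𝔇 (i + 1) := by
  intro hT r
  have h1 : ∀ o : St p, (∀ u, len u ≤ r → Comp 𝔇 (i + 1) o u) → Comp 𝔇 (i + 1) o 1 :=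
    fun o ho => ho 1 (by rw [len_one]; omega)
  refine (((hB (hT.mono (Nat.le_succ _)) (𝔇 (i + 1)).θ).lift (Nat.le_succ _)).mono
    (fun _ _ _ h => h) fun o _ _ ho u hu => ?_).bind fun s _ _ hs => ?_
  · have := (h1 o ho).2.1 u hu
    rwa [one_mul] at this
  · exact (((hU hT s hs.1).inc hs.2).mono (fun _ _ _ h => h) fun o _ _ ho => h1 o ho).bind
      fun s' _ _ hs' => (iter hT hG hs'.1 (Nat.zero_le r)).inc hs'.2

end Ball

theorem grow : GrowStmt := fun _ _ _ _ hT hG _ _ hs =>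
  ⟨fun _ hr => Ball.iter hT hG hs hr, fun _ hg => Ball.recentre hT hG hs hg⟩

theorem ballS (h : EpsStmt) : BallStmt := fun _ _ _ =>
  ⟨Ball.zero h, fun _ => ⟨Ball.up h, Ball.succ⟩⟩

end Pool.Agent.MP_735563_an.H2
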