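import Pool.Agent.MP_735563_an.H2.Spec2

set_option autoImplicit false

/-! Monotonicity of completeness and components of folded centres. -/

namespace Pool.Agent.MP_735563_an.H2

namespace CP

variable {p : ℕ} {𝔇 : ℕ → Lev p} {j : ℕ}

theorem one_mem_core {c : Fin 3} {z : ℕ} (hM : ModelAt 𝔇 j c z) : (1 : Gam p) ∈ core 𝔇 j c z := by
  show (𝔇 j).τ c z 1 (j, some c) ≠ 0
  rw [hM.root]; exact hM.ne

theorem core_ball {c : Fin 3} {z : ℕ} (hM : ModelAt 𝔇 j c z) {e u : Gam p}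
    (he : e ∈ core 𝔇 j c z) (hu : len u ≤ (𝔇 j).θ) :
    Comp 𝔇 (j - 1) ((𝔇 j).τ c z) (e * u) :=
  hM.tow.comp (by rw [hM.dm]; exact mul_mem_Nb he hu)

theorem val_model {c : Fin 3} {z : ℕ} (hM : ModelAt 𝔇 j c z) : ValZ 𝔇 (j - 1) ((𝔇 j).τ c z) :=
  hM.good.1.1.mono (Nat.sub_le j 1)

/-- what a state containing a translate of a model knows at the points of the core -/
theorem fact (hj : 1 ≤ j) (hO : OK 𝔇 j) (hG : GEOp 𝔇 (j - 1)) {s : St p} (hs : ValZ 𝔇 (j - 1) s)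
    {c : Fin 3} {z : ℕ} (hM : ModelAt 𝔇 j c z) {x : Gam p} (hl : Le (tr x ((𝔇 j).τ c z)) s)
    {e : Gam p} (he : e ∈ core 𝔇 j c z) :
    s (x * e) (j, some c) = (𝔇 j).τ c z e (j, some c) ∧
    (∀ u, len u ≤ (𝔇 j).θ → Comp 𝔇 (j - 1) s (x * e * u)) ∧ cenA 𝔇 j s c (x * e) ∧
    nbA 𝔇 j s c (x * e) = nbA 𝔇 j ((𝔇 j).τ c z) c e := by
  have hv := (val_model hM).tr x
  have hb : ∀ u, len u ≤ (𝔇 j).θ → Comp 𝔇 (j - 1) (tr x ((𝔇 j).τ c z)) (x * e * u) := by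
    intro u hu
    rw [mul_assoc]
    exact Comp_tr.2 (core_ball hM he hu)
  have hrc : RC 𝔇 j (tr x ((𝔇 j).τ c z)) (x * e) := rc_of_ball hO.2.1 hb
  refine ⟨?_, fun u hu => (hG.2.1 _ _ hv hs hl _ (hb u hu)).1, ?_, ?_⟩
  · have := hl (x * e) (j, some c) (by rw [tr_apply]; exact he)
    rwa [tr_apply] at this
  · exact (hrc.cen_iff hj hO.1 hG hv hs hl c).1 (cenA_tr.2 (hM.cen e he).1)
  · rw [← hrc.nb_eq hj hO.1 hG hv hs hl c, nbA_tr]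

theorem model (hj : 1 ≤ j) (hO : OK 𝔇 j) {s : St p} (hs : ValZ 𝔇 j s) {c : Fin 3} {x : Gam p}
    (hx : s x (j, some c) ≠ 0) : ModelAt 𝔇 j c (s x (j, some c)) ∧
      Le (tr x ((𝔇 j).τ c (s x (j, some c)))) s :=
  ⟨hO.2.2.at' c _ (hs j hj le_rfl x c hx).1, (hs j hj le_rfl x c hx).2.1⟩

theorem cen_of_lab (hj : 1 ≤ j) (hO : OK 𝔇 j) (hG : GEOp 𝔇 (j - 1)) {s : St p} (hs : ValZ 𝔇 j s)
    {c : Fin 3} {x : Gam p} (hx : s x (j, some c) ≠ 0) : cenA 𝔇 j s c x := by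
  obtain ⟨hM, hl⟩ := model hj hO hs hx
  have := (fact hj hO hG (hs.mono (Nat.sub_le j 1)) hM hl (one_mem_core hM)).2.2.1
  rwa [mul_one] at this

theorem Sat_lm_of_mem {H : Subgroup (Gam p)} {k : Gam p} (hk : k ∈ H) (S : Set (Gam p)) :
    Sat H (lm k S) = Sat H S := by
  ext y
  simp only [mem_Sat_iff, mem_lm]
  constructor
  · rintro ⟨h, hh, h1⟩
    exact ⟨k⁻¹ * h, mul_mem (inv_mem hk) hh, by rwa [mul_assoc]⟩
  · rintro ⟨h, hh, h1⟩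
    exact ⟨k * h, mul_mem hk hh, by simpa [mul_assoc] using h1⟩

theorem sup_cjs_le {H A : Subgroup (Gam p)} {k : Gam p} (hk : k ∈ H) : H ⊔ cjs k A ≤ H ⊔ A := by
  refine sup_le le_sup_left fun u hu => ?_
  rw [mem_cjs] at hu
  have h1 : k ∈ H ⊔ A := Subgroup.mem_sup_left hk
  have := mul_mem (mul_mem h1 (Subgroup.mem_sup_right hu)) (inv_mem h1)
  simpa [mul_assoc] using this

theorem sup_cjs {H A : Subgroup (Gam p)} {k : Gam p} (hk : k ∈ H) : H ⊔ cjs k A = H ⊔ A := by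
  refine le_antisymm (sup_cjs_le hk) ?_
  have := sup_cjs_le (A := cjs k A) (inv_mem hk)
  rwa [← cjs_mul, inv_mul_cancel, cjs_one] at this

theorem core_hom {c : Fin 3} {z : ℕ} (hM : ModelAt 𝔇 j c z) {e : Gam p}
    (he : e ∈ core 𝔇 j c z) :
    core 𝔇 j c z = lm e (core 𝔇 j c ((𝔇 j).τ c z e (j, some c))) := by
  ext y
  have h := hM.hom e he
  show (𝔇 j).τ c z y (j, some c) ≠ 0 ↔
    tr e ((𝔇 j).τ c ((𝔇 j).τ c z e (j, some c))) y (j, some c) ≠ 0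
  rw [h]

theorem grp_hom (hj : 1 ≤ j) (hO : OK 𝔇 j) {c : Fin 3} {z : ℕ} (hM : ModelAt 𝔇 j c z) {e : Gam p}
    (he : e ∈ core 𝔇 j c z) :
    (𝔇 j).L c z = cjs e ((𝔇 j).L c ((𝔇 j).τ c z e (j, some c))) := by
  have hM' := (model hj hO hM.good.1.1 he).1
  rw [← hM'.grp, ← K_tr, hM.hom e he, hM.grp]

theorem mem_cp {s : St p} {c : Fin 3} {x y : Gam p} : y ∈ cp 𝔇 j s c x ↔
    ∃ k ∈ K 𝔇 (j - 1) s, ∃ e ∈ core 𝔇 j c (s x (j, some c)), y = k * (x * e) := by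
  constructor
  · rintro ⟨k, hk, y, hy, rfl⟩
    exact ⟨k, hk, x⁻¹ * y, hy, by simp⟩
  · rintro ⟨k, hk, e, he, rfl⟩
    exact ⟨k, hk, x * e, mul_mem_lm.2 he, rfl⟩

theorem self_mem (hj : 1 ≤ j) (hO : OK 𝔇 j) {s : St p} (hs : ValZ 𝔇 j s) {c : Fin 3} {x : Gam p}
    (hx : s x (j, some c) ≠ 0) : x ∈ cp 𝔇 j s c x :=
  mem_cp.2 ⟨1, one_mem _, 1, one_mem_core (model hj hO hs hx).1, by simp⟩

theorem pt (hj : 1 ≤ j) (hO : OK 𝔇 j) (hG : GEOp 𝔇 (j - 1)) {s : St p} (hs : ValZ 𝔇 j s)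
    {c : Fin 3} {x : Gam p} (hx : s x (j, some c) ≠ 0) {y : Gam p} (hy : y ∈ cp 𝔇 j s c x) :
    s y (j, some c) ≠ 0 ∧ cenA 𝔇 j s c y ∧
      (∀ u, len u ≤ (𝔇 j).θ → Comp 𝔇 (j - 1) s (y * u)) ∧ cp 𝔇 j s c y = cp 𝔇 j s c x ∧
      cgp 𝔇 j s c y = cgp 𝔇 j s c x ∧ ∀ b, Adj 𝔇 j s c y b → b ∈ cp 𝔇 j s c x := by
  obtain ⟨hM, hl⟩ := model hj hO hs hx
  have hs' := hs.mono (Nat.sub_le j 1)
  obtain ⟨k, hk, e, he, rfl⟩ := mem_cp.1 hy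
  have hst := hs'.stab hk
  obtain ⟨h1, h2, h3, h4⟩ := fact hj hO hG hs' hM hl he
  have h5 : s (k * (x * e)) (j, some c) =
      (𝔇 j).τ c (s x (j, some c)) e (j, some c) := by rw [apply_of_stab hst, h1]
  refine ⟨by rw [h5]; exact he, (cenA_stab hst).2 h3, fun u hu => ?_, ?_, ?_, ?_⟩
  · rw [mul_assoc]
    exact (Comp_stab hst).2 (h2 u hu)
  · unfold cp
    rw [h5, lm_mul, Sat_lm_of_mem hk, lm_mul, ← core_hom hM he]
  · unfold cgp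
    rw [h5, cjs_mul, sup_cjs hk, cjs_mul, ← grp_hom hj hO hM he]
  · rintro b ⟨-, w, hw, h6⟩
    rw [nbA_stab hst, h4] at hw
    exact mem_cp.2 ⟨_, mul_mem h6 hk, e * w, (hM.cen e he).2 w hw, by simp [mul_assoc]⟩

theorem path_in (hj : 1 ≤ j) (hO : OK 𝔇 j) (hG : GEOp 𝔇 (j - 1)) {s : St p} (hs : ValZ 𝔇 j s)
    {c : Fin 3} {x : Gam p} (hx : s x (j, some c) ≠ 0) {ξ : ℕ → Gam p} {n : ℕ}
    (h : RPath 𝔇 j s c ξ n) (h0 : ξ 0 ∈ cp 𝔇 j s c x) : ∀ t ≤ n, ξ t ∈ cp 𝔇 j s c x := by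
  intro t
  induction t with
  | zero => intro _; exact h0
  | succ t ih =>
    intro ht
    exact (pt hj hO hG hs hx (ih (by omega))).2.2.2.2.2 _ (h.2 t ht)

theorem join {s : St p} (hs : ValZ 𝔇 (j - 1) s) {c : Fin 3} {x y : ℕ → Gam p} {n n' : ℕ}
    (h : RPath 𝔇 j s c x n) (h' : RPath 𝔇 j s c y n') (he : y 0 * (x n)⁻¹ ∈ K 𝔇 (j - 1) s) :
    ∃ γ m, RPath 𝔇 j s c γ m ∧ γ 0 = x 0 ∧ γ m * (y n')⁻¹ ∈ K 𝔇 (j - 1) s := by
  refine ⟨_, _, h.append hs h' he, by simp, ?_⟩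
  by_cases h0 : n' = 0
  · subst h0
    simpa using inv_mem he
  · have h1 : ¬ n + n' ≤ n := by omega
    simp [h1]

theorem conn (hj : 1 ≤ j) (hO : OK 𝔇 j) (hG : GEOp 𝔇 (j - 1)) {s : St p} (hs : ValZ 𝔇 j s)
    {c : Fin 3} {x : Gam p} (hx : s x (j, some c) ≠ 0) {a : Gam p} (ha : a ∈ cp 𝔇 j s c x) :
    ∃ ξ n, RPath 𝔇 j s c ξ n ∧ ξ 0 = x ∧ ξ n * a⁻¹ ∈ K 𝔇 (j - 1) s := by
  obtain ⟨hM, hl⟩ := model hj hO hs hx
  have hs' := hs.mono (Nat.sub_le j 1)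
  obtain ⟨k, hk, e, he, rfl⟩ := mem_cp.1 ha
  obtain ⟨ξ, n, h1, h2, h3⟩ := hM.conn e he
  refine ⟨_, n, (h1.tr x).mono hj hO.1 hG ((val_model hM).tr x) hs' hl, by simp [h2], ?_⟩
  have h4 : x * (ξ n * e⁻¹) * x⁻¹ ∈ K 𝔇 (j - 1) s := by
    apply K_mono le_rfl hl
    rw [K_tr, mem_cjs]
    simpa [mul_assoc] using h3
  simpa [mul_assoc] using mul_mem h4 (inv_mem hk)

end CP

open CP in
theorem mon : MonStmt := by
  intro p 𝔇 j hj hO hG s s' hs hs' hl x hx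
  have hv := hs.mono (Nat.sub_le j 1)
  have hv' := hs'.mono (Nat.sub_le j 1)
  have hrc := hx.rc hj hO.2.1
  have hcen := fun c => hrc.cen_iff hj hO.1 hG hv hv' hl c
  have hlow := (hG.2.1 s s' hv hv' hl x (hx.down (Nat.sub_le j 1))).2
  refine ⟨?_, fun κ h1 h2 => ?_⟩
  · obtain ⟨i, rfl⟩ : ∃ i, j = i + 1 := ⟨j - 1, by omega⟩
    exact ⟨hl.ne hx.1, fun u hu => (hG.2.1 s s' hv hv' hl _ (hx.2.1 u hu)).1,
      fun c hc => hl.ne (hx.2.2 c ((hcen c).2 hc))⟩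
  · by_cases h3 : rk κ ≤ 2 * (j - 1) + 2
    · exact hlow κ h1 h3
    · obtain ⟨i, _ | c⟩ := κ
      · rw [rk_none] at h2 h3
        obtain rfl : i = j + 1 := by omega
        exact hl x _ hx.mark
      · rw [rk_some] at h2 h3
        obtain rfl : i = j := by omega
        by_cases h4 : s' x (i, some c) = 0
        · by_contra h5
          exact hl.ne (fun h6 => h5 (h4.trans h6.symm)) h4
        · exact hl x _ (hx.lab hj ((hcen c).2 (cen_of_lab hj hO hG hs' h4)))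

open CP in
theorem cpS : CPStmt := by
  intro p 𝔇 j hj hO hG s hs c
  have hs' := hs.mono (Nat.sub_le j 1)
  refine ⟨fun x hx => ⟨self_mem hj hO hs hx, fun y hy => pt hj hO hG hs hx hy, fun t => ?_,
    fun a ha b hb => ?_⟩, fun ξ n h hn => ?_⟩
  · induction t with
    | zero => rintro y rfl; exact self_mem hj hO hs hx
    | succ t ih =>
      rintro y (hy | ⟨a, ha, h1, w, hw, rfl⟩)
      · exact ih hy
      · exact (pt hj hO hG hs hx (ih ha)).2.2.2.2.2 _ ⟨h1, w, hw, by simp⟩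
  · obtain ⟨ξ, n, h1, h2, h3⟩ := conn hj hO hG hs hx ha
    obtain ⟨η, m, k1, k2, k3⟩ := conn hj hO hG hs hx hb
    have h0 : RPath 𝔇 j s c (fun _ => a) 0 :=
      ⟨fun _ _ => rc_of_ball hO.2.1 (pt hj hO hG hs hx ha).2.2.1, fun t ht => by omega⟩
    obtain ⟨γ, r, g1, g2, g3⟩ := join hs' h0 (h1.rev hO.1 hs') (by simpa using h3)
    obtain ⟨γ', r', f1, f2, f3⟩ := join hs' g1 k1 (by
      simpa [h2, k2] using inv_mem g3)
    obtain ⟨σ, q, -, e1, e2, e3⟩ := exists_short f1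
    have e4 : σ 0 = a := e2.trans (f2.trans g2)
    refine ⟨σ, q, e1, e4, ?_, path_in hj hO hG hs hx e1.1 (e4 ▸ ha)⟩
    simpa [mul_assoc] using mul_mem (mul_mem e3 f3) k3
  · have := path_in hj hO hG hs hn (h.rev hO.1 hs') (by simpa using self_mem hj hO hs hn) n le_rfl
    simpa using (pt hj hO hG hs hn this).1

end Pool.Agent.MP_735563_an.H2
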