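import Pool.Agent.MP_735563_an.H2.SC

set_option autoImplicit false

/-! Descent of quasi convexity and the gate lemma. -/

namespace Pool.Agent.MP_735563_an.H2

namespace Desc

variable {G : Type} [Group G] {d : G → G → ℕ} {K G' : Subgroup G} {𝒯 : Set (Set G × Subgroup G)}
  {δ κ Δ g D : ℕ}

/-- minimal pairs -/
def Mn (d : G → G → ℕ) (G' : Subgroup G) (x y : G) : Prop := ∀ h ∈ G', d x y ≤ d x (h * y)

theorem inv' (S : SC d K G' 𝒯 δ κ Δ g D) {h : G} (hh : h ∈ G') (x y : G) :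
    d (h⁻¹ * x) y = d x (h * y) := by
  rw [← S.inv h hh, mul_inv_cancel_left]

theorem Mn.refl (S : SC d K G' 𝒯 δ κ Δ g D) (x : G) : Mn d G' x x := fun _ _ => by
  rw [S.met.refl]; omega

theorem Mn.symm (S : SC d K G' 𝒯 δ κ Δ g D) {x y : G} (h : Mn d G' x y) : Mn d G' y x := by
  intro a ha
  have := h a⁻¹ (G'.inv_mem ha)
  rwa [S.met.symm x y, S.met.symm x, inv' S ha] at this

theorem Mn.inv (S : SC d K G' 𝒯 δ κ Δ g D) {x y a : G} (ha : a ∈ G') (h : Mn d G' x y) :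
    Mn d G' (a * x) (a * y) := by
  intro b hb
  have := h (a⁻¹ * b * a) (G'.mul_mem (G'.mul_mem (G'.inv_mem ha) hb) ha)
  rw [← S.inv a ha x (a⁻¹ * b * a * y)] at this
  rw [S.inv a ha]
  simpa [mul_assoc] using this

theorem Mn.sub (S : SC d K G' 𝒯 δ κ Δ g D) {x y m : G} (h : Mn d G' x y) (hm : Btw d x m y) :
    Mn d G' x m ∧ Mn d G' m y := by
  unfold Btw at hm
  refine ⟨fun a ha => ?_, fun a ha => ?_⟩
  · have := h a ha
    have := S.met.tri x (a * m) (a * y)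
    rw [S.inv a ha] at this
    omega
  · have := h a ha
    have := S.met.tri x m (a * y)
    omega

theorem Mn.prj {Z : Set G} (hZ : ∀ h ∈ G', ∀ z ∈ Z, h * z ∈ Z) {y c : G} (h : Prj d Z y c) :
    Mn d G' y c := fun a ha => h.2 _ (hZ a ha c h.1)

theorem exists_mn (H : Subgroup G) (d : G → G → ℕ) (x y : G) :
    ∃ h ∈ H, ∀ a ∈ H, d x (h * y) ≤ d x (a * (h * y)) := by
  obtain ⟨h, hh, e⟩ := exists_qd H d x y
  refine ⟨h, hh, fun a ha => ?_⟩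
  rw [e, ← mul_assoc]
  exact qd_le d x y (H.mul_mem ha hh)

theorem btw_inv (S : SC d K G' 𝒯 δ κ Δ g D) {a x y q : G} (ha : a ∈ G')
    (h : Btw d (a * x) q (a * y)) : Btw d x (a⁻¹ * q) y := by
  unfold Btw at *
  rw [S.inv a ha] at h
  rw [inv' S ha, S.met.symm x, inv' S ha, S.met.symm q]
  exact h

theorem gap_symm (S : SC d K G' 𝒯 δ κ Δ g D) {u : ℕ} {x y : G}
    (h : Gap d 𝒯 u (fun _ => True) x y) : Gap d 𝒯 u (fun _ => True) y x := by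
  obtain ⟨T, hT, -, h1, h2, h3⟩ := h
  refine ⟨T, hT, trivial, h2, h1, fun ν hν => ?_⟩
  have := h3 ν⁻¹ (T.2.inv_mem hν)
  rwa [S.met.symm x y, S.met.symm x, inv' S ((S.sub T hT).2 hν)] at this

theorem gap_inv (S : SC d K G' 𝒯 δ κ Δ g D) {u : ℕ} {a x y : G} (ha : a ∈ G')
    (h : Gap d 𝒯 u (fun _ => True) x y) : Gap d 𝒯 u (fun _ => True) (a * x) (a * y) := by
  obtain ⟨T, hT, -, ⟨c, hc, h1⟩, ⟨c', hc', h2⟩, h3⟩ := h
  refine ⟨cj a T, S.conj a ha T hT, trivial, ⟨a * c, ⟨c, hc, rfl⟩, by rwa [S.inv a ha]⟩,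
    ⟨a * c', ⟨c', hc', rfl⟩, by rwa [S.inv a ha]⟩, fun ν hν => ?_⟩
  have := h3 _ (mem_cjs.1 hν)
  rw [← S.inv a ha x (a⁻¹ * ν * a * y)] at this
  rw [S.inv a ha]
  simpa [mul_assoc] using this

theorem gap_near (S : SC d K G' 𝒯 δ κ Δ g D) {u : ℕ} {x y : G}
    (h : Gap d 𝒯 u (fun _ => True) x y) :
    ∃ T ∈ 𝒯, ∀ q, Btw d x q y → ∃ c ∈ T.1, d q c ≤ 8 * δ + 100 * u + κ := by
  obtain ⟨T, hT, -, ⟨c, hc, h1⟩, ⟨c', hc', h2⟩, -⟩ := h
  refine ⟨T, hT, fun q hq => ?_⟩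
  obtain ⟨q', h3 | h3 | h3, h4⟩ := S.met.slim4 hq c c'
  · refine ⟨c, hc, ?_⟩
    unfold Btw at h3; have := S.met.tri q q' c; omega
  · obtain ⟨e, he, h5⟩ := S.qc T hT c hc c' hc' q' h3
    exact ⟨e, he, by have := S.met.tri q q' e; omega⟩
  · refine ⟨c', hc', ?_⟩
    unfold Btw at h3
    have := S.met.tri q q' c'; have := S.met.symm q' c'; have := S.met.symm y c'; omega

/-- a gap from a point near a core to a point near `P` -/
theorem gap_to (S : SC d K G' 𝒯 δ κ Δ g D) {P : Set G} {k u : ℕ}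
    (hP : ∀ h ∈ G', ∀ p ∈ P, h * p ∈ P) (hT : ∀ T ∈ 𝒯, ∃ c ∈ T.1, ∃ p ∈ P, d c p ≤ k + 1)
    {T : Set G × Subgroup G} (h : T ∈ 𝒯) {z c : G} (hc : c ∈ T.1) (hz : d z c ≤ 100 * u) :
    ∃ e, Gap d 𝒯 u (fun _ => True) z e ∧ ∃ p ∈ P, d e p ≤ k + 1 := by
  obtain ⟨e, he, p, hp, h1⟩ := hT T h
  obtain ⟨ν, hν, h2⟩ := exists_mn T.2 d z e
  have hν' := (S.sub T h).2 hν
  exact ⟨ν * e, ⟨T, h, trivial, ⟨c, hc, hz⟩, ⟨ν * e, S.pres T h ν hν e he, by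
    rw [S.met.refl]; omega⟩, h2⟩, ν * p, hP ν hν' p hp, by rwa [S.inv ν hν']⟩

omit [Group G] in
theorem almost (h : Met d δ) {x y a : G} {r : ℕ} (ha : d x a + d a y ≤ d x y + r) :
    ∃ m, Btw d x m y ∧ d m a ≤ 2 * r + 2 * δ := by
  obtain ⟨m, h1, h2⟩ := h.geo x y (min (d x a) (d x y)) (min_le_right _ _)
  have := h.near (r' := r) ha h2 (by omega) (by omega)
  exact ⟨m, h2, by omega⟩

/-- the closed polygon over a reduced pair -/
theorem closed (hp : PolyStmt) (hr : RedMinStmt) (S : SC d K G' 𝒯 δ κ Δ g D)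
    {Side : G → G → Prop} (ok : SideOK d G' 𝒯 (δ + κ + 1) Side fun _ => True) {v w h : G}
    (red : Red d 𝒯 (1000 * (δ + κ + Δ + 1)) v w) (hh : h ∈ G') (x : ℕ → G) (h0 : x 0 = w)
    (h1 : x 1 = w) (h12 : x 12 = h * v) (h13 : x 13 = h * v)
    (hs : ∀ k, 1 ≤ k → k ≤ 11 → Triv d 𝒯 (δ + κ + 1) Side (fun _ => True) (x k) (x (k + 1)) ∨
      (k % 2 = 1 ∧ Gap d 𝒯 (δ + κ + 1) (fun _ => True) (x k) (x (k + 1))) ∨
      (k % 2 = 0 ∧ Side (x k) (x (k + 1)))) :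
    ∃ y : ℕ → G, (∀ k ≤ 10, Triv d 𝒯 (δ + κ + 1) Side (fun _ => True) (y k) (y (k + 1)) ∨
      Gap d 𝒯 (δ + κ + 1) (fun _ => True) (y k) (y (k + 1)) ∨ Side (y k) (y (k + 1))) ∧
      ∀ m, Btw d v m w → ∃ k ≤ 10, ∃ q, Btw d (y k) q (y (k + 1)) ∧ d m q ≤ 40 * δ := by
  have M := S.met
  obtain ⟨x', h', hK, -, -, -, a1, a2, a3⟩ := hp G d K G' 𝒯 δ κ Δ g D S Side _ v v w w ok
    (by rw [M.refl, M.refl]; omega) (hr G d K G' 𝒯 δ κ Δ g D S v w red) red x h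
    ⟨hh, h0, h13, by rw [h1]; exact M.btw_left _ _, by rw [h12]; exact M.btw_left _ _, hs⟩
  refine ⟨fun k => x' (k + 1), fun k hk => ?_, fun m hm => ?_⟩
  · exact (a3 (k + 1) (by omega) (by omega)).imp_right (Or.imp (·.2) (·.2))
  · have z : d v (h' * v) = 0 := (S.zero _ _).2 (by simpa using hK)
    have b : Btw d (x' (0 + 1)) m (x' (10 + 1 + 1)) := by
      unfold Btw at *
      show d (x' 1) m + d m (x' 12) = d (x' 1) (x' 12)
      rw [M.refl] at a1 a2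
      have := M.tri (x' 1) m (x' 12)
      have := M.tri (x' 1) w m
      have := M.tri m v (x' 12)
      have := M.tri v (h' * v) (x' 12)
      have := M.tri w (x' 1) v
      have := M.tri (x' 1) (x' 12) v
      have := M.tri (x' 12) (h' * v) v
      have := M.symm v (h' * v)
      have := M.symm v m
      have := M.symm m w
      have := M.symm v w
      omega
    obtain ⟨k, hk, q, q1, q2⟩ := M.polygon (fun k => x' (k + 1)) 10 m b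
    exact ⟨k, hk, q, q1, by omega⟩

/-! ### descent -/

/-- sides near `P` -/
def S1 (d : G → G → ℕ) (G' : Subgroup G) (P : Set G) (l : ℕ) (a b : G) : Prop :=
  Mn d G' a b ∧ ∀ q, Btw d a q b → ∃ p ∈ P, d q p ≤ l

theorem S1.ok (S : SC d K G' 𝒯 δ κ Δ g D) {P : Set G} (hP : ∀ h ∈ G', ∀ p ∈ P, h * p ∈ P)
    (l u : ℕ) : SideOK d G' 𝒯 u (S1 d G' P l) fun _ => True where
  inv a ha x y h := ⟨h.1.inv S ha, fun q hq => by
    obtain ⟨p, hp, e⟩ := h.2 _ (btw_inv S ha hq)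
    exact ⟨a * p, hP a ha p hp, by rwa [inv' S ha] at e⟩⟩
  sub x y m h hm := ⟨⟨(h.1.sub S hm).1, fun q hq => h.2 q (S.met.btw_trans_left hm hq).1⟩,
    ⟨(h.1.sub S hm).2, fun q hq => h.2 q (S.met.btw_trans_right hm hq).1⟩⟩
  min _ _ h := h.1
  tinv _ _ _ _ _ := trivial
  touch _ _ _ _ _ _ _ := trivial

theorem S1.symm (S : SC d K G' 𝒯 δ κ Δ g D) {P : Set G} {l : ℕ} {a b : G} (h : S1 d G' P l a b) :
    S1 d G' P l b a := ⟨h.1.symm S, fun q hq => h.2 q (S.met.btw_symm hq)⟩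

theorem S1.self (S : SC d K G' 𝒯 δ κ Δ g D) {P : Set G} {l : ℕ} {a p : G} (hp : p ∈ P)
    (h : d a p ≤ l) : S1 d G' P l a a :=
  ⟨Mn.refl S a, fun q hq => ⟨p, hp, by
    unfold Btw at hq
    have := S.met.refl a; have := S.met.tri q a p; omega⟩⟩

theorem S1.to (S : SC d K G' 𝒯 δ κ Δ g D) {P : Set G} (hP : ∀ h ∈ G', ∀ p ∈ P, h * p ∈ P)
    {l : ℕ} {a p : G} (hp : p ∈ P) (h : d a p ≤ l) : ∃ p' ∈ P, S1 d G' P l a p' := by
  have _ := S.met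
  obtain ⟨p', h1⟩ := exists_prj d ⟨p, hp⟩ a
  refine ⟨p', h1.1, Mn.prj hP h1, fun q hq => ⟨p', h1.1, ?_⟩⟩
  have := h1.2 p hp
  unfold Btw at hq; omega

theorem triv_inv (S : SC d K G' 𝒯 δ κ Δ g D) {u : ℕ} {Side : G → G → Prop}
    (ok : SideOK d G' 𝒯 u Side fun _ => True) {a x y : G} (ha : a ∈ G')
    (h : Triv d 𝒯 u Side (fun _ => True) x y) :
    Triv d 𝒯 u Side (fun _ => True) (a * x) (a * y) := by
  refine ⟨by rw [S.inv a ha]; exact h.1, h.2.imp (ok.inv a ha x x) ?_⟩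
  rintro ⟨T, hT, -, c, hc, h1⟩
  exact ⟨cj a T, S.conj a ha T hT, trivial, a * c, ⟨c, hc, rfl⟩, by rwa [S.inv a ha]⟩

theorem half1 (S : SC d K G' 𝒯 δ κ Δ g D) {P Ds : Set G} {k u : ℕ}
    (hP : ∀ h ∈ G', ∀ p ∈ P, h * p ∈ P) (hT : ∀ T ∈ 𝒯, ∃ c ∈ T.1, ∃ p ∈ P, d c p ≤ k + 1)
    (hD : ∀ y ∈ Ds, ∃ p ∈ P, d y p ≤ k + 1) {z c : G} (hc : c ∈ Ds ∪ ⋃ T ∈ 𝒯, T.1)
    (hz : d z c ≤ 100 * u) :
    Triv d 𝒯 u (S1 d G' P (k + 1 + 100 * u)) (fun _ => True) z z ∧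
      ∃ e, (e = z ∨ Gap d 𝒯 u (fun _ => True) z e) ∧
        ∃ p ∈ P, S1 d G' P (k + 1 + 100 * u) e p := by
  rcases hc with hc | hc
  · obtain ⟨p, hp, h1⟩ := hD c hc
    have h2 : d z p ≤ k + 1 + 100 * u := by have := S.met.tri z c p; omega
    exact ⟨⟨S.met.refl z, Or.inl (S1.self S hp h2)⟩, z, Or.inl rfl, S1.to S hP hp h2⟩
  · obtain ⟨T, h, hc⟩ := Set.mem_iUnion₂.1 hc
    obtain ⟨e, h1, p, hp, h2⟩ := gap_to S hP hT h hc hz
    exact ⟨⟨S.met.refl z, Or.inr ⟨T, h, trivial, c, hc, hz⟩⟩, e, Or.inr h1,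
      S1.to S hP hp (by omega)⟩

omit [Group G] in
theorem last_near (h : Met d δ) (N : G → Prop) {x m : G} (hx : N x) :
    ∃ x₁, Btw d x x₁ m ∧ N x₁ ∧ ∀ p, Btw d x₁ p m → N p → d x₁ p = 0 := by
  obtain ⟨x₁, ⟨h1, h2⟩, h3⟩ := exists_prj d (C := {z | Btw d x z m ∧ N z})
    ⟨x, h.btw_left x m, hx⟩ m
  refine ⟨x₁, h1, h2, fun p hp hN => ?_⟩
  have := h3 p ⟨(h.btw_trans_right h1 hp).1, hN⟩
  unfold Btw at hp
  have := h.symm m x₁; have := h.symm m p; omega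

/-! ### gate -/

/-- sides whose points that are not deep are close to each other -/
def S2 (d : G → G → ℕ) (G' : Subgroup G) (P : Set G) (k u L : ℕ) (a b : G) : Prop :=
  Mn d G' a b ∧ ∀ q q', Btw d a q b → Btw d a q' b → (∃ p ∈ P, d q p + 1000 * u ≤ k) ∨
    (∃ p ∈ P, d q' p + 1000 * u ≤ k) ∨ d q q' ≤ L

theorem S2.ok (S : SC d K G' 𝒯 δ κ Δ g D) {P : Set G} (hP : ∀ h ∈ G', ∀ p ∈ P, h * p ∈ P)
    (k u L : ℕ) : SideOK d G' 𝒯 u (S2 d G' P k u L) fun _ => True where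
  inv a ha x y h := ⟨h.1.inv S ha, fun q q' hq hq' => by
    rcases h.2 _ _ (btw_inv S ha hq) (btw_inv S ha hq') with ⟨p, hp, e⟩ | ⟨p, hp, e⟩ | e
    · exact Or.inl ⟨a * p, hP a ha p hp, by rwa [inv' S ha] at e⟩
    · exact Or.inr (Or.inl ⟨a * p, hP a ha p hp, by rwa [inv' S ha] at e⟩)
    · exact Or.inr (Or.inr (by rwa [S.inv _ (G'.inv_mem ha)] at e))⟩
  sub x y m h hm := ⟨⟨(h.1.sub S hm).1, fun q q' hq hq' =>
      h.2 q q' (S.met.btw_trans_left hm hq).1 (S.met.btw_trans_left hm hq').1⟩,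
    ⟨(h.1.sub S hm).2, fun q q' hq hq' =>
      h.2 q q' (S.met.btw_trans_right hm hq).1 (S.met.btw_trans_right hm hq').1⟩⟩
  min _ _ h := h.1
  tinv _ _ _ _ _ := trivial
  touch _ _ _ _ _ _ _ := trivial

theorem S2.symm (S : SC d K G' 𝒯 δ κ Δ g D) {P : Set G} {k u L : ℕ} {a b : G}
    (h : S2 d G' P k u L a b) : S2 d G' P k u L b a :=
  ⟨h.1.symm S, fun q q' hq hq' => h.2 q q' (S.met.btw_symm hq) (S.met.btw_symm hq')⟩

theorem S2.short (S : SC d K G' 𝒯 δ κ Δ g D) {P : Set G} {k u L : ℕ} {a b : G}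
    (h : Mn d G' a b) (hL : 2 * d a b ≤ L) : S2 d G' P k u L a b :=
  ⟨h, fun q q' hq hq' => Or.inr (Or.inr (by
    unfold Btw at hq hq'
    have := S.met.tri q a q'; have := S.met.symm q a; omega))⟩

theorem S2.triv (S : SC d K G' 𝒯 δ κ Δ g D) (P : Set G) (k u L : ℕ) (a : G) :
    Triv d 𝒯 u (S2 d G' P k u L) (fun _ => True) a a :=
  ⟨S.met.refl a, Or.inl (S2.short S (Mn.refl S a) (by rw [S.met.refl]; omega))⟩

theorem half2 (S : SC d K G' 𝒯 δ κ Δ g D) {P : Set G} {k u r : ℕ}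
    (hP : ∀ h ∈ G', ∀ p ∈ P, h * p ∈ P) (hT : ∀ T ∈ 𝒯, ∃ c ∈ T.1, ∃ p ∈ P, d c p ≤ k + 1)
    {y : G} (hy : ∃ z, d y z ≤ r ∧ ((∃ p ∈ P, d z p ≤ k + 1) ∨ ∃ T ∈ 𝒯, z ∈ T.1)) :
    ∃ c, S2 d G' P k u (2 * r + 2000 * u) y c ∧ ∃ e, (e = c ∨ Gap d 𝒯 u (fun _ => True) c e) ∧
      ∃ p ∈ P, S2 d G' P k u (2 * r + 2000 * u) e p := by
  obtain ⟨z, h1, h2⟩ := hy
  obtain ⟨c, hc⟩ := exists_prj d (C := {z | (∃ p ∈ P, d z p ≤ k + 1) ∨ ∃ T ∈ 𝒯, z ∈ T.1})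
    ⟨z, h2⟩ y
  have m : Mn d G' y c := Mn.prj (by
    rintro a ha b (⟨p, hp, e⟩ | ⟨T, hT, e⟩)
    · exact Or.inl ⟨a * p, hP a ha p hp, by rwa [S.inv a ha]⟩
    · exact Or.inr ⟨cj a T, S.conj a ha T hT, b, e, rfl⟩) hc
  have l := hc.2 z h2
  have key : ∀ e, (∃ p ∈ P, d e p ≤ k + 1) → ∃ p ∈ P, S2 d G' P k u (2 * r + 2000 * u) e p := by
    rintro e ⟨p, hp, e1⟩
    obtain ⟨p', h3⟩ := exists_prj d ⟨p, hp⟩ e
    have := h3.2 p hp
    refine ⟨p', h3.1, Mn.prj hP h3, fun q q' hq hq' => ?_⟩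
    by_cases c1 : d q p' + 1000 * u ≤ k
    · exact Or.inl ⟨p', h3.1, c1⟩
    by_cases c2 : d q' p' + 1000 * u ≤ k
    · exact Or.inr (Or.inl ⟨p', h3.1, c2⟩)
    refine Or.inr (Or.inr ?_)
    unfold Btw at hq hq'
    have := S.met.tri q e q'; have := S.met.symm q e; omega
  refine ⟨c, S2.short S m (by omega), ?_⟩
  rcases hc.1 with h3 | ⟨T, h, h3⟩
  · exact ⟨c, Or.inl rfl, key c h3⟩
  · obtain ⟨e, h4, h5⟩ := gap_to S (u := u) hP hT h h3 (z := c) (by rw [S.met.refl]; omega)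
    exact ⟨e, Or.inr h4, key e h5⟩

theorem ar {x y z k δ u : ℕ} (h : x ≤ y + z) (h1 : y ≤ 40 * δ) (h2 : z + 1000 * u ≤ k)
    (hu : δ ≤ u) : x + 900 * u ≤ k := by omega

end Desc

open Desc in
theorem desc (hp : PolyStmt) (hr : RedMinStmt) : DescStmt := by
  intro G _ d K G' 𝒯 δ κ Δ g D S P Ds k hP hQ hT hD1 hD2 x hx y hy m hm
  have M := S.met
  let N : G → Prop := fun z => ∃ c ∈ Ds ∪ ⋃ T ∈ 𝒯, T.1, d z c ≤ 100 * (δ + κ + 1)
  obtain ⟨x₁, a1, a2, a3⟩ := last_near M N (x := x) (m := m) ⟨x, hx, by rw [M.refl]; omega⟩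
  obtain ⟨y₁, b1, b2, b3⟩ := last_near M N (x := y) (m := m) ⟨y, hy, by rw [M.refl]; omega⟩
  have hm1 : Btw d x₁ m y₁ := by
    unfold Btw at *
    have := M.tri x₁ m y₁; have := M.tri x x₁ y; have := M.tri x₁ y₁ y
    have := M.symm y y₁; have := M.symm y₁ m; have := M.symm y m
    omega
  have red : Red d 𝒯 (1000 * (δ + κ + Δ + 1)) x₁ y₁ := by
    intro T h a b ha hb
    by_contra c
    have br := (M.bridge (S.qc T h) ha hb).resolve_left (by omega)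
    have al : d x₁ a + d a y₁ ≤ d x₁ y₁ + (4 * κ + 18 * δ + 2) := by
      have := M.tri a b y₁; omega
    have nr : ∀ p, Btw d x₁ p y₁ → d x₁ p = d x₁ a + 1 → N p := fun p h1 h2 =>
      ⟨a, Or.inr (Set.mem_iUnion₂.2 ⟨T, h, ha.1⟩), by
        have := M.near (r' := 1) al h1 (by omega) (by omega); omega⟩
    by_cases c1 : d x₁ a + 1 ≤ d x₁ m
    · obtain ⟨p, p1, p2⟩ := M.geo x₁ m _ c1
      have := a3 p p2 (nr p (M.btw_trans_left hm1 p2).1 p1)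
      omega
    · have e := hm1
      unfold Btw at e
      obtain ⟨p, p1, p2⟩ := M.geo m y₁ (d x₁ a + 1 - d x₁ m) (by omega)
      obtain ⟨p3, p4⟩ := M.btw_trans_right hm1 p2
      have := b3 p (M.btw_symm p2) (nr p p3 (by unfold Btw at p4; omega))
      unfold Btw at p2
      have := M.symm y₁ p
      omega
  have ok := S1.ok S hP (k + 1 + 100 * (δ + κ + 1)) (δ + κ + 1)
  obtain ⟨c1, c2, c3⟩ := a2
  obtain ⟨t1, e1, g1, p1, hp1, s1⟩ := half1 S hP hT hD2 c2 c3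
  obtain ⟨c1', c2', c3'⟩ := b2
  obtain ⟨t2, e2, g2, p2, hp2, s2⟩ := half1 S hP hT hD2 c2' c3'
  obtain ⟨h, hh, mn⟩ := exists_mn G' d p2 p1
  have hp1' := hP h hh p1 hp1
  have s3 : S1 d G' P (k + 1 + 100 * (δ + κ + 1)) p2 (h * p1) := ⟨mn, fun q hq => by
    rcases hQ p2 hp2 _ hp1' mn with z | z
    · refine ⟨p2, hp2, ?_⟩
      unfold Btw at hq
      have := M.symm q p2; omega
    · obtain ⟨p, h1, h2⟩ := z q hq
      exact ⟨p, h1, by omega⟩⟩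
  have tp : ∀ p ∈ P, Triv d 𝒯 (δ + κ + 1) (S1 d G' P (k + 1 + 100 * (δ + κ + 1)))
      (fun _ => True) p p := fun p h =>
    ⟨M.refl p, Or.inl (S1.self S h (by rw [M.refl]; omega))⟩
  have t1' := triv_inv S ok hh t1
  obtain ⟨z, z1, z2⟩ := closed hp hr S ok red hh
    (fun i => [y₁, y₁, e2, p2, p2, h * p1, h * p1, h * e1].getD i (h * x₁)) rfl rfl rfl rfl (by
      intro i i1 i2
      interval_cases i
      · rcases g2 with rfl | g2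
        · exact Or.inl t2
        · exact Or.inr (Or.inl ⟨rfl, g2⟩)
      · exact Or.inr (Or.inr ⟨rfl, s2⟩)
      · exact Or.inl (tp _ hp2)
      · exact Or.inr (Or.inr ⟨rfl, s3⟩)
      · exact Or.inl (tp _ hp1')
      · exact Or.inr (Or.inr ⟨rfl, ok.inv h hh _ _ (s1.symm S)⟩)
      · rcases g1 with rfl | g1
        · exact Or.inl t1'
        · exact Or.inr (Or.inl ⟨rfl, gap_inv S hh (gap_symm S g1)⟩)
      all_goals exact Or.inl t1')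
  obtain ⟨i, hi, q, q1, q2⟩ := z2 m hm1
  have fin : ∀ c ∈ Ds ∪ ⋃ T ∈ 𝒯, T.1, d q c ≤ 200 * (δ + κ + 1) →
      ∃ c ∈ Ds ∪ ⋃ T ∈ 𝒯, T.1, d m c ≤ 500 * (δ + κ + 1) := fun c h1 h2 =>
    ⟨c, h1, by have := M.tri m q c; omega⟩
  have toP : ∀ p ∈ P, d q p ≤ k + 1 + 100 * (δ + κ + 1) →
      ∃ c ∈ Ds ∪ ⋃ T ∈ 𝒯, T.1, d m c ≤ 500 * (δ + κ + 1) := fun p h1 h2 => by
    obtain ⟨c, h3, h4⟩ := M.geo q p (d q p - k) (by omega)
    unfold Btw at h4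
    exact fin c (Or.inl (hD1 c ⟨p, h1, by omega⟩)) (by omega)
  rcases z1 i hi with ⟨w1, w2⟩ | w | w
  · unfold Btw at q1
    have q0 : d q (z i) = 0 := by have := M.symm q (z i); omega
    rcases w2 with w2 | ⟨T, h1, -, c, h2, h3⟩
    · obtain ⟨p, h1, h2⟩ := w2.2 _ (M.btw_left _ _)
      exact toP p h1 (by have := M.tri q (z i) p; omega)
    · exact fin c (Or.inr (Set.mem_iUnion₂.2 ⟨T, h1, h2⟩)) (by have := M.tri q (z i) c; omega)
  · obtain ⟨T, h1, h2⟩ := gap_near S w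
    obtain ⟨c, h3, h4⟩ := h2 q q1
    exact fin c (Or.inr (Set.mem_iUnion₂.2 ⟨T, h1, h3⟩)) (by omega)
  · obtain ⟨p, h1, h2⟩ := w.2 q q1
    exact toP p h1 h2

open Desc in
theorem gate (hp : PolyStmt) (hr : RedMinStmt) : GateStmt := by
  intro G _ d K G' 𝒯 δ κ Δ g D S P k r y₁ y₂ hP hQ hT hy1 hy2 ov big
  have M := S.met
  have red : Red d 𝒯 (1000 * (δ + κ + Δ + 1)) y₁ y₂ := by
    intro T h a b ha hb
    rcases M.bridge (S.qc T h) ha hb with br | br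
    · omega
    obtain ⟨m, m1, m2⟩ := almost M (x := y₁) (y := y₂) (a := a) (r := 4 * κ + 18 * δ + 2)
      (by have := M.tri a b y₂; omega)
    obtain ⟨m', m1', m2'⟩ := almost M (x := y₁) (y := y₂) (a := b) (r := 4 * κ + 18 * δ + 2)
      (by have := M.tri y₁ a b; omega)
    have := ov T h m m' m1 m1' a ha.1 b hb.1 (by omega) (by omega)
    have := M.tri a m b; have := M.tri m m' b; have := M.symm a m
    omega
  have ok := S2.ok S hP k (δ + κ + 1) (2 * r + 2000 * (δ + κ + 1))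
  obtain ⟨c1, u1, e1, g1, p1, hp1, s1⟩ := half2 S (u := δ + κ + 1) hP hT hy1
  obtain ⟨c2, u2, e2, g2, p2, hp2, s2⟩ := half2 S (u := δ + κ + 1) hP hT hy2
  obtain ⟨h, hh, mn⟩ := exists_mn G' d p2 p1
  have hp1' := hP h hh p1 hp1
  have s3 : S2 d G' P k (δ + κ + 1) (2 * r + 2000 * (δ + κ + 1)) p2 (h * p1) := by
    rcases hQ p2 hp2 _ hp1' mn with z | z
    · exact S2.short S mn (by omega)
    · exact ⟨mn, fun q _ hq _ => Or.inl (z q hq)⟩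
  have tp := S2.triv S P k (δ + κ + 1) (2 * r + 2000 * (δ + κ + 1))
  obtain ⟨z, z1, z2⟩ := closed hp hr S ok red hh
    (fun i => [y₂, y₂, y₂, c2, e2, p2, p2, h * p1, h * p1, h * e1, h * c1].getD i (h * y₁))
    rfl rfl rfl rfl (by
      intro i i1 i2
      interval_cases i
      · exact Or.inl (tp _)
      · exact Or.inr (Or.inr ⟨rfl, u2⟩)
      · rcases g2 with rfl | g2
        · exact Or.inl (tp _)
        · exact Or.inr (Or.inl ⟨rfl, g2⟩)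
      · exact Or.inr (Or.inr ⟨rfl, s2⟩)
      · exact Or.inl (tp _)
      · exact Or.inr (Or.inr ⟨rfl, s3⟩)
      · exact Or.inl (tp _)
      · exact Or.inr (Or.inr ⟨rfl, ok.inv h hh _ _ (s1.symm S)⟩)
      · rcases g1 with rfl | g1
        · exact Or.inl (tp _)
        · exact Or.inr (Or.inl ⟨rfl, gap_inv S hh (gap_symm S g1)⟩)
      · exact Or.inr (Or.inr ⟨rfl, ok.inv h hh _ _ (u1.symm S)⟩)
      · exact Or.inl (tp _))
  have smp : ∀ i : Fin 12, ∃ m, d y₁ m = (2 * r + Δ + 3000 * (δ + κ + 1)) * i ∧ Btw d y₁ m y₂ ∧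
      ∃ j : Fin 11, ∃ q, Btw d (z j) q (z (j + 1)) ∧ d m q ≤ 40 * δ := by
    intro i
    have hi : (2 * r + Δ + 3000 * (δ + κ + 1)) * i ≤ (2 * r + Δ + 3000 * (δ + κ + 1)) * 11 :=
      Nat.mul_le_mul_left _ (by omega)
    obtain ⟨m, m1, m2⟩ := M.geo y₁ y₂ ((2 * r + Δ + 3000 * (δ + κ + 1)) * i) (by omega)
    obtain ⟨j, hj, q, q1, q2⟩ := z2 m m2
    exact ⟨m, m1, m2, ⟨j, by omega⟩, q, q1, q2⟩
  choose m m1 m2 j q q1 q2 using smp
  obtain ⟨a, b, hab, e⟩ : ∃ a b : Fin 12, (a : ℕ) < b ∧ j a = j b := by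
    obtain ⟨a, b, h1, h2⟩ := Fintype.exists_ne_map_eq_of_card_lt j (by simp)
    rcases lt_or_gt_of_ne h1 with l | l
    · exact ⟨a, b, l, h2⟩
    · exact ⟨b, a, l, h2.symm⟩
  have far : 2 * r + Δ + 3000 * (δ + κ + 1) ≤ d (m a) (m b) := by
    have h1 : (2 * r + Δ + 3000 * (δ + κ + 1)) * ((a : ℕ) + 1) ≤
        (2 * r + Δ + 3000 * (δ + κ + 1)) * b := Nat.mul_le_mul_left _ hab
    rw [Nat.mul_succ, ← m1 a, ← m1 b] at h1
    exact Nat.le_of_add_le_add_left (h1.trans (M.tri y₁ (m a) (m b)))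
  have qa := q1 a
  have qb := q1 b
  rw [← e] at qb
  have ra := q2 a
  have rb := q2 b
  have t1 := M.tri (m a) (q a) (m b)
  have t2 := M.tri (q a) (q b) (m b)
  have t3 := M.symm (q b) (m b)
  rcases z1 (j a) (by omega) with ⟨w1, -⟩ | w | w
  · unfold Btw at qa qb
    have := M.tri (q a) (z (j a)) (q b); have := M.symm (q a) (z (j a))
    omega
  · obtain ⟨T, h1, h2⟩ := gap_near S w
    obtain ⟨c, h3, h4⟩ := h2 _ qa
    obtain ⟨c', h3', h4'⟩ := h2 _ qb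
    have := ov T h1 _ _ (m2 a) (m2 b) c h3 c' h3' (by have := M.tri (m a) (q a) c; omega)
      (by have := M.tri (m b) (q b) c'; omega)
    omega
  · rcases w.2 _ _ qa qb with ⟨p, h1, h2⟩ | ⟨p, h1, h2⟩ | h1
    · exact ⟨m a, m2 a, p, h1, ar (M.tri (m a) (q a) p) ra h2 (by omega)⟩
    · exact ⟨m b, m2 b, p, h1, ar (M.tri (m b) (q b) p) rb h2 (by omega)⟩
    · omega

end Pool.Agent.MP_735563_an.H2
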