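import Pool.Agent.MP_735563_an.H2.Spec2

set_option autoImplicit false

/-! Row Dich: near the old region the component of an unfolded centre stays near the centre. -/

namespace Pool.Agent.MP_735563_an.H2

namespace Dich

theorem ar1 {δ κ Δ l ρ θ D : ℕ} (h : 10 ^ 6 * (δ + κ + Δ + l + ρ + 1) ≤ θ) (hD : 301 * θ < D) :
    100 * (3 * θ + Δ + 1000 * (δ + κ + 1)) ≤ D := by
  have h1 : 100 * Δ + 100000 * (δ + κ + 1) ≤ 10 ^ 6 * (δ + κ + Δ + l + ρ + 1) := by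
    nlinarith [Nat.zero_le δ, Nat.zero_le κ, Nat.zero_le Δ, Nat.zero_le l, Nat.zero_le ρ]
  nlinarith

theorem ar2 {δ κ a b c : ℕ} (h1 : a ≤ b + c) (h2 : b ≤ κ) (h3 : c ≤ 500 * (δ + κ + 1)) :
    a ≤ 1000 * (δ + κ + 1) := by omega

theorem ar3 {δ κ Δ a b c e f : ℕ} (h1 : a ≤ b + c) (h2 : c ≤ e + f) (h3 : b ≤ κ) (h4 : e ≤ Δ)
    (h5 : f ≤ κ) : a ≤ Δ + 10 * (δ + κ + 1) := by omega

theorem ar4 {δ κ k a b c : ℕ} (h1 : a ≤ b + c) (h2 : b ≤ κ) (h3 : c + 900 * (δ + κ + 1) ≤ k) :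
    a ≤ k - 1 ∧ k - 1 + 1 ≤ k := by omega

variable {p : ℕ} {𝔇 : ℕ → Lev p} {i : ℕ} {s : St p} {c : Fin 3}

/-- all points of a rule path starting at a centre are centres -/
theorem cen_path (hR : RuleOK 𝔇 i) (hs : ValZ 𝔇 (i - 1) s) {ξ : ℕ → Gam p} {n : ℕ}
    (h : RPath 𝔇 i s c ξ n) (h0 : cenA 𝔇 i s c (ξ 0)) : ∀ t ≤ n, cenA 𝔇 i s c (ξ t) := by
  intro t ht
  rcases t with _ | t
  · exact h0
  · exact (hR.sym s hs c _ _ (h.1 t (by omega)) (h.1 (t + 1) ht) (h.2 t (by omega))).1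

/-- an unlabelled shortest path has a short overlap with a labelled shortest path -/
theorem overlap (hR : RuleOK 𝔇 i) (hs : ValZ 𝔇 (i - 1) s) {ξ η : ℕ → Gam p} {n n' : ℕ}
    {c' : Fin 3} (hξ : Short 𝔇 i s c ξ n) (hη : Short 𝔇 i s c' η n')
    (h0 : ∀ t ≤ n, s (ξ t) (i, some c) = 0) (h1 : ∀ t ≤ n', s (η t) (i, some c') ≠ 0)
    {t t' : ℕ} (htt : t ≤ t') (ht : t' ≤ n)
    (ha : dj 𝔇 (i - 1) s (ξ t) (η 0) ≤ 1000 * ((𝔇 (i - 1)).δ + (𝔇 i).κ + 1))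
    (hb : dj 𝔇 (i - 1) s (ξ t') (η n') ≤ 1000 * ((𝔇 (i - 1)).δ + (𝔇 i).κ + 1)) :
    dj 𝔇 (i - 1) s (ξ t) (ξ t') ≤ (𝔇 i).Δ := by
  by_contra hc
  have e : t + (t' - t) = t' := Nat.add_sub_cancel' htt
  obtain ⟨rfl, a, ha', b, hb', hk⟩ := hR.ov s hs c c' (fun r => ξ (t + r)) (t' - t) η n'
    (hξ.sub hs (by rw [e]; exact ht)) hη ha (by rw [e]; exact hb)
    (by rw [e]; exact Nat.lt_of_not_le hc)
  have h2 : η b = (η b * (ξ (t + a))⁻¹) * ξ (t + a) := by simp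
  have h3 := h1 b hb'
  rw [h2, apply_of_stab (hs.stab hk)] at h3
  exact h3 (h0 _ ((Nat.add_le_add_left ha' t).trans (by rw [e]; exact ht)))

end Dich

theorem dich (h1 : GateStmt) (h2 : CPStmt) (h3 : SQCStmt) : DichStmt := by
  intro p 𝔇 N i hT hi hN s F k x c hCur y hy q hq hyq
  obtain ⟨hG, hTow, hE, hSh, -, hlab, hx, hcx, hx0, hDm, -⟩ := hCur
  have hsi : ValZ 𝔇 i s := hG.1.1.mono hN
  have hs1 : ValZ 𝔇 (i - 1) s := hsi.mono (Nat.sub_le i 1)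
  have hOK : OK 𝔇 i := hT.ok hi hN
  have hR := hOK.1
  have hC := hOK.2.1
  have hGE : GEOp 𝔇 (i - 1) := hT.2.1 (i - 1) ((Nat.sub_le i 1).trans hN)
  have hSC := hT.2.2 i hi hN s hsi
  have hM := hSC.met
  have hCP := h2 p 𝔇 i hi hOK hGE s hsi
  obtain ⟨hSQ, htouch, hCen, -⟩ := h3 p 𝔇 N i hT hi hN s F k hG hE hSh
  have hrc : ∀ z ∈ Tn 𝔇 i s c x (𝔇 i).n, RC 𝔇 i s z := fun z hz =>
    rc_of_seed hC hTow hDm.ge (subset_Sat _ _ (Or.inr hz))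
  obtain ⟨ξ, n, -, hξ, hξ0, hξn, -⟩ := Tn_short hs1 hrc hy
  have hun : ∀ t ≤ n, s (ξ t) (i, some c) = 0 := by
    intro t ht
    by_contra hne
    have := (hCP c).2 (fun r => ξ (0 + r)) t (hξ.1.sub (by simpa using ht)) (by simpa using hne)
    exact this (by simpa [hξ0] using hx0)
  have hcen := Dich.cen_path hR hs1 hξ.1 (by rw [hξ0]; exact hcx)
  have hnear : ∀ m, Btw (dj 𝔇 (i - 1) s) x m y →
      ∃ t ≤ n, dj 𝔇 (i - 1) s m (ξ t) ≤ (𝔇 i).κ := by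
    intro m hm
    have h6 : ξ n = (ξ n * y⁻¹) * y := by simp
    refine (hR.qg s hs1 c ξ n hξ).2 m ?_
    unfold Btw at hm ⊢
    rw [hξ0, h6, dj_mul_right hξn, dj_mul_right hξn, hm]
  have hP : ∀ h ∈ K 𝔇 (i - 1) s, ∀ z ∈ Sat (Kall 𝔇 s) F, h * z ∈ Sat (Kall 𝔇 s) F :=
    fun h hh z hz => mul_mem_Sat (K_le_Kall _ s hh) hz
  have hreg : ∀ z ∈ Dm i s ∪ Cen i s,
      (∃ e ∈ Sat (Kall 𝔇 s) F, dj 𝔇 (i - 1) s z e ≤ k + 1) ∨ ∃ T ∈ fam 𝔇 i s, z ∈ T.1 := by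
    rintro z (hz | hz)
    · exact Or.inl ((mem_Nb_iff_dj hP).1 (hSh.2.2.1 hz))
    · rw [← hCen] at hz
      obtain ⟨T, hT', hz'⟩ := Set.mem_iUnion₂.1 hz
      exact Or.inr ⟨T, hT', hz'⟩
  by_contra hcon
  obtain ⟨m, hm, e, he, hme⟩ := h1 _ _ _ _ _ _ _ _ _ _ hSC (Sat (Kall 𝔇 s) F) k (3 * (𝔇 i).θ) x y
    (fun h hh z hz => mul_mem_Sat (K_le_Kall _ s hh) hz) hSQ htouch
    ⟨x, by rw [hM.refl]; exact Nat.zero_le _, hreg x (Or.inl hx)⟩ ⟨q, hyq, hreg q hq⟩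
    (by
      rintro T ⟨x', c', hx', rfl⟩ m m' hm hm' a ha a' ha' hma hma'
      obtain ⟨-, hcp, -, hjoin⟩ := (hCP c').1 x' hx'
      have key : ∀ t t', t ≤ t' → t' ≤ n → ∀ b ∈ cp 𝔇 i s c' x', ∀ b' ∈ cp 𝔇 i s c' x',
          dj 𝔇 (i - 1) s (ξ t) b ≤ 1000 * ((𝔇 (i - 1)).δ + (𝔇 i).κ + 1) →
          dj 𝔇 (i - 1) s (ξ t') b' ≤ 1000 * ((𝔇 (i - 1)).δ + (𝔇 i).κ + 1) →
          dj 𝔇 (i - 1) s (ξ t) (ξ t') ≤ (𝔇 i).Δ := by
        intro t t' htt ht b hb b' hb' h4 h5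
        obtain ⟨η, n', hη, hη0, hηn, hηc⟩ := hjoin b hb b' hb'
        have h6 : η n' = (η n' * b'⁻¹) * b' := by simp
        exact Dich.overlap hR hs1 hξ hη hun (fun r hr => (hcp _ (hηc r hr)).1) htt ht
          (by rw [hη0]; exact h4) (by rw [h6, dj_mul_right hηn]; exact h5)
      obtain ⟨t, ht, h4⟩ := hnear m hm
      obtain ⟨t', ht', h5⟩ := hnear m' hm'
      have h6 := Dich.ar2 (hM.tri (ξ t) m a) (by rw [hM.symm]; exact h4) hma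
      have h7 := Dich.ar2 (hM.tri (ξ t') m' a') (by rw [hM.symm]; exact h5) hma'
      have h8 : dj 𝔇 (i - 1) s (ξ t) (ξ t') ≤ (𝔇 i).Δ := by
        rcases le_total t t' with h | h
        · exact key t t' h ht' a ha a' ha' h6 h7
        · rw [hM.symm]; exact key t' t h ht a' ha' a ha h7 h6
      exact Dich.ar3 (hM.tri m (ξ t) m') (hM.tri (ξ t) (ξ t') m') h4 h8
        (by rw [hM.symm]; exact h5))
    (Dich.ar1 hC.θ (Nat.lt_of_not_le hcon))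
  obtain ⟨t, ht, h4⟩ := hnear m hm
  obtain ⟨h5, h6⟩ := Dich.ar4 (hM.tri (ξ t) m e) (by rw [hM.symm]; exact h4) hme
  exact hlab (k - 1) h6 (ξ t) ((mem_Nb_iff_dj hP).2 ⟨e, he, h5⟩) c (hcen t ht) (hun t ht)

end Pool.Agent.MP_735563_an.H2
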