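import Pool.Agent.MP_735563_an.H2.Spec2

set_option autoImplicit false

/-! Row FG: gluing one model along the view of an unfolded centre. -/

namespace Pool.Agent.MP_735563_an.H2

namespace FG

variable {p : ℕ} {𝔇 : ℕ → Lev p}

theorem qc_tr {j : ℕ} {s : St p} {P : Set (Gam p)} {κ : ℕ} (h : QC (dj 𝔇 j s) P κ) (g : Gam p) :
    QC (dj 𝔇 j (tr g s)) (lm g P) κ := by
  intro a ha b hb m hm
  have e : ∀ y y', dj 𝔇 j (tr g s) y y' = dj 𝔇 j s (g⁻¹ * y) (g⁻¹ * y') := fun y y' => by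
    rw [← dj_tr j g s, mul_inv_cancel_left, mul_inv_cancel_left]
  obtain ⟨c, hc, h1⟩ := h _ ha _ hb (g⁻¹ * m) (by unfold Btw at hm ⊢; rwa [e, e, e] at hm)
  exact ⟨g * c, mul_mem_lm.2 hc, by rwa [e, inv_mul_cancel_left]⟩

theorem shape_tr {j : ℕ} {s : St p} {F : Set (Gam p)} {k : ℕ} (h : Shape 𝔇 j s F k)
    (g : Gam p) : Shape 𝔇 j (tr g s) (lm g F) k := by
  obtain ⟨⟨y, hy⟩, h1, h2, h3⟩ := h
  refine ⟨⟨g * y, mul_mem_lm.2 hy⟩, ?_, ?_, ?_⟩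
  · rw [Kall_tr, Sat_lm, Nb_lm, Dm_tr]
    exact fun _ hq => h1 hq
  · rw [Kall_tr, Sat_lm, Nb_lm, Dm_tr]
    exact fun _ hq => h2 hq
  · rcases h3 with ⟨x₀, rfl, h4⟩ | ⟨κ, h4, h5, h6⟩
    · refine Or.inl ⟨g * x₀, lm_singleton g x₀, ?_⟩
      rw [Kall_tr, K_tr]
      exact fun u hu => mem_cjs.2 (h4 (mem_cjs.1 hu))
    · refine Or.inr ⟨κ, h4, ?_, ?_⟩
      · rw [Kall_tr, Sat_lm]
        exact qc_tr h5 g
      · rw [Kall_tr, Sat_lm, Nb_lm]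
        intro y hy
        rw [← mul_inv_cancel_left g y]
        exact Comp_tr.2 (h6 _ hy)

theorem shape_of {j θ κ : ℕ} {s : St p} {F : Set (Gam p)} (hF : F.Nonempty) (hT : Tow 𝔇 j s)
    (hD : Dm j s = Nb θ (Sat (Kall 𝔇 s) F)) (hκ : κ + 200 * ((𝔇 j).δ + 1) ≤ θ)
    (hQ : QC (dj 𝔇 j s) (Sat (Kall 𝔇 s) F) κ) : Shape 𝔇 j s F θ :=
  ⟨hF, hD.ge, hD.le.trans (Nb_mono (Nat.le_succ _) subset_rfl),
    Or.inr ⟨κ, hκ, hQ, fun _ hy => hT.comp (hD.ge (Nb_mono hκ subset_rfl hy))⟩⟩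

theorem sup_down {i : ℕ} {s : St p} (hi : 1 ≤ i) (h : Sup i s)
    (ha : Dm i s ∪ Cen i s ⊆ Dm (i - 1) s) : Sup (i - 1) s := by
  intro y κ hk hy
  apply ha
  by_cases h1 : 2 * i + 2 < rk κ
  · exact Or.inl (h y κ h1 hy)
  · obtain ⟨j, _ | c⟩ := κ
    · rw [rk_none] at hk h1
      obtain rfl : j = i + 1 := by omega
      exact Or.inl hy
    · rw [rk_some] at hk h1
      obtain rfl : j = i := by omega
      exact Or.inr ⟨c, hy⟩

variable {i : ℕ} {c : Fin 3} {z : ℕ}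

theorem one_mem_core (hM : ModelAt 𝔇 i c z) : (1 : Gam p) ∈ core 𝔇 i c z := by
  show (𝔇 i).τ c z 1 (i, some c) ≠ 0
  rw [hM.root]
  exact hM.ne

theorem Tn_core (hM : ModelAt 𝔇 i c z) (t : ℕ) :
    Tn 𝔇 i ((𝔇 i).τ c z) c 1 t ⊆ core 𝔇 i c z := by
  induction t with
  | zero =>
    rintro y rfl
    exact one_mem_core hM
  | succ t ih =>
    rintro y (hy | ⟨a, ha, -, w, hw, rfl⟩)
    · exact ih hy
    · exact (hM.cen a (ih ha)).2 w hw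

theorem shape_model (hC : ConstA 𝔇 i) (hM : ModelAt 𝔇 i c z) :
    Shape 𝔇 (i - 1) ((𝔇 i).τ c z) (core 𝔇 i c z) (𝔇 i).θ := by
  have e : Sat (Kall 𝔇 ((𝔇 i).τ c z)) (core 𝔇 i c z) = core 𝔇 i c z :=
    Sat_eq_self fun k hk y hy => by
      show (𝔇 i).τ c z (k * y) (i, some c) ≠ 0
      rw [apply_of_stab (hM.good.stab hk)]
      exact hy
  refine shape_of (κ := (𝔇 i).κ) ⟨1, one_mem_core hM⟩ hM.tow (by rw [e, hM.dm]) ?_
    (by rw [e]; exact hM.qc)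
  have := hC.θ
  generalize (𝔇 (i - 1)).δ = a at this ⊢
  norm_num at this
  omega

/-- the high labels of a translated model -/
theorem high (hM : ModelAt 𝔇 i c z) {x y : Gam p} {κ : Kind}
    (h : tr x ((𝔇 i).τ c z) y κ ≠ 0) (hk : 2 * i < rk κ) :
    κ = (i, some c) ∧ y ∈ lm x (core 𝔇 i c z) := by
  rcases hM.low _ κ h with h1 | rfl
  · omega
  · exact ⟨rfl, h⟩

/-- elements that move the neighbourhood of the view into itself have low level -/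
theorem low (h3 : IRStmt) (h4 : TowStmt) {N : ℕ} (hT : Th 𝔇 N) (hi : 1 ≤ i) (hN : i ≤ N)
    {σ t : St p} (hσ : IsV 𝔇 i c σ) {x : Gam p} (ht : Good 𝔇 N t) (hl : Le (tr x σ) t) :
    ∀ b ∈ Nb 100 (Dm 0 (tr x σ)), ∀ k ∈ Kall 𝔇 t, k * b ∈ Nb 100 (Dm 0 (tr x σ)) →
      k ∈ K 𝔇 (i - 1) t := by
  have hO := hT.ok hi hN
  have hsub : Nb 100 (Dm 0 σ) ⊆
      Sat (Kall 𝔇 σ) (Nb ((𝔇 i).n * (𝔇 i).l + (𝔇 i).θ + (𝔇 (i - 1)).δ + 100) {1}) := by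
    have h1 := (h4 p 𝔇 (i - 1) (i - 1) (hT.mono (by omega)) le_rfl σ hσ.1 hσ.2.1).1
    rw [hσ.2.2.2] at h1
    refine (Nb_mono le_rfl h1).trans ?_
    rw [Sat_Nb, ← Nb_Nb, ← Nb_Nb, ← Nb_Nb, ← Sat_Nb _ ((𝔇 i).n * (𝔇 i).l)]
    exact Nb_mono le_rfl (Nb_mono le_rfl (Nb_mono le_rfl
      (Sat_mono le_rfl (Tn_sub_Nb hO.1 1 _))))
  have key : ∀ b ∈ Nb 100 (Dm 0 (tr x σ)), dj 𝔇 (i - 1) t x b ≤
      (𝔇 i).n * (𝔇 i).l + (𝔇 i).θ + (𝔇 (i - 1)).δ + 100 := by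
    intro b hb
    rw [Dm_tr, Nb_lm] at hb
    obtain ⟨h, hh, _, ⟨_, rfl, u, hu, rfl⟩, e⟩ := hsub hb
    refine le_trans (dj_le (w := u) (K_mono le_rfl hl ?_)) hu
    rw [K_tr, mem_cjs, ← Kall_eq hσ.1.2.1]
    have e1 : b = x * (h * (1 * u)) := by rw [← e, mul_inv_cancel_left]
    rw [e1]
    simpa [mul_assoc] using inv_mem hh
  intro b hb k hk hkb
  have hM := (hT.2.1 (i - 1) (by omega)).1 t (ht.1.1.mono (by omega))
  refine h3 p 𝔇 N i hT hi hN t ht.1.1 b k (by rwa [← Kall_eq ht.2.1]) ?_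
  have a1 := key b hb
  have a2 := key _ hkb
  have a3 := hM.tri b x (k * b)
  rw [hM.symm b x] at a3
  have a4 := hO.2.1.θ
  have a5 := hO.2.1.g
  generalize (𝔇 i).n * (𝔇 i).l = a at a1 a2 a5
  generalize (𝔇 (i - 1)).δ = d at a1 a2 a4
  norm_num at a4 a5
  omega

end FG

open FG in
theorem fgS (h1 : FGaStmt) (h2 : BGlueStmt) (h3 : IRStmt) (h4 : TowStmt) (h5 : VUStmt)
    (h6 : RSUpStmt) : FGStmt := by
  intro p 𝔇 N i hT hi hN s F k x c σ z hC hσ hl hz hστ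
  have hA := h1 p 𝔇 N i hT hi hN s F k x c σ z hC hσ hl hz hστ
  have hO := hT.ok hi hN
  have hM := hO.2.2.at' c z hz
  have hG := hT.2.1 (i - 1) (by omega)
  obtain ⟨gs, ts, cs, shs, us, labs, hx, -, -, hD, hQ⟩ := hC
  obtain ⟨shσ, rcσ, -⟩ := h5 p 𝔇 i hi (hT.mono (by omega)) hO.1 hO.2.1 c σ hσ
  have gm : Good 𝔇 i (tr x ((𝔇 i).τ c z)) := hM.good.tr x
  have lm' : Le (tr x σ) (tr x ((𝔇 i).τ c z)) := hστ.tr x
  have hDm : Dm (i - 1) (tr x ((𝔇 i).τ c z)) = Nb (𝔇 i).θ (lm x (core 𝔇 i c z)) := by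
    rw [Dm_tr, hM.dm, Nb_lm]
  have hP : Dm i s ∪ Cen i s ⊆
      Sat (Kall 𝔇 s) (Dm i s ∪ Cen i s ∪ Tn 𝔇 i s c x (𝔇 i).n) :=
    Set.subset_union_left.trans (subset_Sat _ _)
  have e2 : 2 * (i - 1) + 2 = 2 * i := by omega
  have hTC : Tn 𝔇 i s c x (𝔇 i).n ⊆ lm x (core 𝔇 i c z) := by
    have e1 : Tn 𝔇 i (tr x σ) c x (𝔇 i).n = lm x (Tn 𝔇 i σ c 1 (𝔇 i).n) := by
      rw [← Tn_tr, mul_one]
    rw [Tn_stable hi hO.1 hG (hσ.1.1.1.tr x) (gs.1.1.mono (by omega)) hl (t := (𝔇 i).n)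
      (fun y hy => by
        rw [e1] at hy
        rw [← mul_inv_cancel_left x y]
        exact RC_tr.2 (rcσ _ hy)) _ (Nat.le_succ _), e1,
      ← Tn_stable hi hO.1 hG hσ.1.1.1 (hM.good.1.1.mono (by omega)) hστ rcσ _ (Nat.le_succ _)]
    exact fun _ hy => Tn_core hM _ hy
  obtain ⟨s', g', l1, l2, hK, hq, hW, ho, t', E1, E2⟩ := h2 p 𝔇 N (i - 1) hT (by omega) s
    (tr x ((𝔇 i).τ c z)) (tr x σ) gs (gm.mono hN) (hσ.1.tr x) hl lm' ts (hM.tow.tr x)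
    (hσ.2.1.tr x)
    ⟨_, _, shape_of ⟨x, Or.inl (Or.inl hx)⟩ ts hD (by
      have := hO.2.1.θ
      generalize (𝔇 (i - 1)).δ = a at this ⊢
      norm_num at this
      omega) hQ⟩
    ⟨_, _, shape_tr (shape_model hO.2.1 hM) x⟩ ⟨_, _, shape_tr shσ x⟩
    (sup_down hi us (hP.trans ((subset_Nb _ _).trans hD.ge)))
    (fun y κ hk hy => hDm.ge (subset_Nb _ _ (high hM hy (by omega)).2))
    (low h3 h4 hT hi hN hσ gs hl) (low h3 h4 hT hi hN hσ (gm.mono hN) lm')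
    (fun b hb => (hA b hb).imp And.left And.left)
    (fun b hb κ hk => by
      by_contra hc
      rw [not_or] at hc
      obtain ⟨rfl, h7⟩ := high hM hc.2 (by omega)
      rcases hA b hb with h8 | h8
      · exact h8.2 ⟨c, hc.1⟩
      · exact hc.1 (h8.2.2 h7))
  have st : ∀ {h}, h ∈ Kall 𝔇 s' → tr h s' = s' := fun hh => g'.stab hh
  have hs : ∀ q κ, 2 * i + 1 < rk κ → s' q κ ≠ 0 → ∃ h ∈ Kall 𝔇 s', s (h * q) κ ≠ 0 := by
    intro q κ hk hy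
    obtain ⟨h, hh, e | e⟩ := hq q κ hy
    · exact ⟨h, hh, e⟩
    · obtain ⟨rfl, -⟩ := high hM e (by omega)
      rw [rk_some] at hk
      omega
  have hUp : Up 𝔇 i s s' := by
    refine ⟨?_, fun y κ hk => hs y κ (by omega)⟩
    rw [hK, Kall_eq gm.2.1]
    exact sup_le_sup_left (K_mono le_rfl l2) _
  have iD : ∀ j, ∀ h ∈ Kall 𝔇 s', ∀ y ∈ Dm j s', h * y ∈ Dm j s' :=
    fun j h hh y hy => (Dm_stab (st hh)).2 hy
  have hDi : Dm i s' = Sat (Kall 𝔇 s') (Dm i s) :=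
    subset_antisymm (fun y hy => mem_Sat_iff.2 (hs y _ (by rw [rk_none]; omega) hy))
      (Sat_subset (Dm_mono l1) (iD i))
  have iP : ∀ h ∈ Kall 𝔇 s', ∀ y ∈ Dm i s' ∪ Cen i s', h * y ∈ Dm i s' ∪ Cen i s' :=
    fun h hh y hy => hy.imp (Dm_stab (st hh)).2 (Cen_stab (st hh)).2
  have hCc : lm x (core 𝔇 i c z) ⊆ Dm i s' ∪ Cen i s' := fun y hy => Or.inr ⟨c, l2.ne hy⟩
  refine ⟨s', g', l1, l2, ⟨g', t', ?_, ?_, ?_, ?_, ?_⟩, hDi, hUp, ?_, ?_, ho⟩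
  · refine subset_antisymm (fun q hq' => ?_) ?_
    · obtain ⟨h, hh, e⟩ := hq q _ hq'
      have h7 : h * q ∈ Nb (𝔇 i).θ (Dm i s' ∪ Cen i s') := by
        rcases e with e | e
        · refine Nb_mono le_rfl (Sat_subset ?_ fun a ha => iP a (Kall_mono l1 ha)) (hD.le e)
          exact Set.union_subset (Set.union_subset_union (Dm_mono l1) (Cen_mono l1))
            (hTC.trans hCc)
        · exact Nb_mono le_rfl hCc (hDm.le e)
      have h8 := Nb_inv iP _ _ (inv_mem hh) _ h7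
      rwa [inv_mul_cancel_left] at h8
    · rintro _ ⟨y, hy, u, hu, rfl⟩
      obtain ⟨h, hh, e⟩ : ∃ h ∈ Kall 𝔇 s', h * y ∈ Dm i s ∪ Cen i s ∨
          h * y ∈ lm x (core 𝔇 i c z) := by
        rcases hy with hy | ⟨c', hy⟩
        · obtain ⟨h, hh, e⟩ := hs y _ (by rw [rk_none]; omega) hy
          exact ⟨h, hh, Or.inl (Or.inl e)⟩
        · obtain ⟨h, hh, e | e⟩ := hq y _ hy
          · exact ⟨h, hh, Or.inl (Or.inr ⟨c', e⟩)⟩
          · exact ⟨h, hh, Or.inr (high hM e (by rw [rk_some]; omega)).2⟩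
      refine (Dm_stab (st hh)).1 ?_
      rw [← mul_assoc]
      rcases e with e | e
      · exact Dm_mono l1 (hD.ge (mul_mem_Nb (hP e) hu))
      · exact Dm_mono l2 (hDm.ge (mul_mem_Nb e hu))
  · intro q c' hq'
    obtain ⟨h, hh, e | e⟩ := hq q _ hq'
    · obtain ⟨a, ha, h7⟩ := cs _ c' e
      rw [← l1 _ _ e, apply_of_stab (st hh)] at ha
      rw [mul_assoc] at h7
      exact ⟨a, ha, (Dm_stab (st hh)).1 (Dm_mono l1 h7)⟩
    · obtain ⟨h7, h8⟩ := high hM e (by rw [rk_some]; omega)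
      obtain rfl : c' = c := by simpa using h7
      have h9 : s' q (i, some c') = (𝔇 i).τ c' z (x⁻¹ * (h * q)) (i, some c') := by
        rw [← apply_of_stab (st hh) q, l2 _ _ e]
        rfl
      refine ⟨(x⁻¹ * (h * q))⁻¹, ?_, ?_⟩
      · have h10 := congrFun (congrFun (hM.hom _ h8) 1) (i, some c')
        rw [hM.root, ← h9] at h10
        simp only [tr, mul_one] at h10
        show (𝔇 i).τ c' _ _ (i, some c') ≠ 0
        rw [h10]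
        exact hM.ne
      · have h10 := iD i _ (inv_mem hh) x (Dm_mono l1 hx)
        simpa [mul_assoc] using h10
  · refine ⟨shs.1, ?_, ?_, h6 p 𝔇 N i hT hN s s' F k gs g' l1 hUp.1 shs.2.2.2⟩
    · rw [hDi, ← Sat_Nb]
      exact Sat_mono le_rfl ((Nb_mono le_rfl (subset_Sat _ _)).trans shs.2.1)
    · rw [hDi, ← Sat_Sat (Kall_mono l1) F, ← Sat_Nb]
      exact Sat_mono le_rfl shs.2.2.1
  · intro y κ hk hy
    obtain ⟨h, hh, e⟩ := hs y κ (by omega) hy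
    exact (Dm_stab (st hh)).1 (Dm_mono l1 (us _ κ hk e))
  · intro k' hk' y hy c' hc
    rw [← Sat_Nb] at hy
    obtain ⟨h, hh, y, hy, rfl⟩ := hy
    have h7 : y ∈ Nb k' (Sat (Kall 𝔇 s) F) := Nb_mono le_rfl (subset_Sat _ _) hy
    have h8 : RC 𝔇 i s y := rc_of_seed hO.2.1 ts hD.ge
      (hP (Or.inl (shs.2.1 (Nb_mono (by omega) subset_rfl h7))))
    rw [apply_of_stab (st hh)]
    exact l1.ne (labs k' hk' y h7 c' ((h8.cen_iff hi hO.1 hG (gs.1.1.mono (by omega))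
      (g'.1.1.mono (by omega)) l1 c').2 ((cenA_stab (st hh)).1 hc)))
  · rintro ⟨q, c', hq0, hq1⟩
    rcases hM.hole with ⟨-, h7⟩ | ⟨q', c'', h7, h8, h9⟩
    · refine ⟨q, c', Dm_mono l1 hq0, ?_⟩
      by_contra h8
      obtain ⟨b, h9, h10⟩ := E1 q hq0 _ hq1 h8
      exact h10 ((h7 σ hσ hστ _ c').trans h9)
    · have h10 : x * q' ∈ Dm 0 (tr x ((𝔇 i).τ c z)) := mul_mem_lm.2 h7
      refine ⟨x * q', c'', Dm_mono l2 h10, ?_⟩
      by_contra h11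
      obtain ⟨b, hb, h12, h13, h14⟩ := E2 _ h10 _ (by rw [tr_apply]; exact h8) h11
      rcases hA b hb with ⟨a1, a2⟩ | ⟨-, a1, -⟩
      · by_cases hi2 : 2 ≤ i
        · exact h14 (by rw [rk_some]; omega) a1
        · obtain rfl : i = 1 := by omega
          exact a2 ⟨c'', h13⟩
      · obtain ⟨w, a2, a3⟩ := exists_dj (𝔇 := 𝔇) (i - 1) (tr x ((𝔇 i).τ c z)) x b
        rw [Kall_eq gm.2.1] at h12
        have a4 := mul_mem (K_mono (Nat.sub_le i 1) (Le.refl _) a3) h12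
        rw [K_tr, hM.grp, mem_cjs] at a4
        have a5 := h9 _ a4
        have a6 : x⁻¹ * (x * w * b⁻¹ * (b * (x * q')⁻¹)) * x * q' = w := by simp [mul_assoc]
        rw [a6] at a5
        omega
  · rw [← W_tr hσ.1 x, ← W_tr hM.good x, hW]

end Pool.Agent.MP_735563_an.H2
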