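import Pool.Agent.MP_735563_an.H2.Spec2

set_option autoImplicit false

/-! Row Fam: canonical states over a ball, relabelling of the top marks, uniqueness of views. -/

namespace Pool.Agent.MP_735563_an.H2

namespace Fam

variable {p : ℕ} {𝔇 : ℕ → Lev p}

theorem shape_ball {N r : ℕ} {s : St p} (h : IsBall 𝔇 N r s) : Shape 𝔇 N s {1} r := by
  obtain ⟨hg, -, hd⟩ := h
  refine ⟨Set.singleton_nonempty _, hd ▸ subset_rfl, ?_, Or.inl ⟨1, rfl, (Kall_eq hg.2.1).le⟩⟩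
  rw [hd]
  exact Nb_mono (Nat.le_succ r) subset_rfl

theorem view_rc {i : ℕ} (hC : ConstA 𝔇 i) {c : Fin 3} {σ : St p} (h : IsV 𝔇 i c σ) :
    ∀ y ∈ Tn 𝔇 i σ c 1 (𝔇 i).n, RC 𝔇 i σ y := fun _ hy =>
  rc_of_seed hC h.2.1 (P := Sat (Kall 𝔇 σ) (Tn 𝔇 i σ c 1 (𝔇 i).n)) (h.2.2.2 ▸ subset_rfl)
    (subset_Sat _ _ hy)

theorem view_shape {i : ℕ} (hT : Th 𝔇 (i - 1)) (hR : RuleOK 𝔇 i) (hC : ConstA 𝔇 i) {c : Fin 3}
    {σ : St p} (h : IsV 𝔇 i c σ) : Shape 𝔇 (i - 1) σ (Tn 𝔇 i σ c 1 (𝔇 i).n) (𝔇 i).θ := by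
  have hrc := view_rc hC h
  obtain ⟨hg, ht, -, hd⟩ := h
  have hθ := hC.θ
  refine ⟨⟨1, mem_Tn_self 1 _⟩, hd ▸ subset_rfl, ?_,
    Or.inr ⟨(𝔇 i).κ + 4 * (𝔇 (i - 1)).δ, by omega, ?_, fun y hy => ht.comp ?_⟩⟩
  · rw [hd]
    exact Nb_mono (Nat.le_succ _) subset_rfl
  · rw [Kall_eq hg.2.1]
    exact Tn_qc hR (hT.2.1 _ le_rfl).1 hg.1.1 hrc
  · rw [hd]
    exact Nb_mono (by omega) subset_rfl hy

end Fam

theorem famS (h : UniqStmt) : FamStmt := by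
  intro p 𝔇 N hT hB r
  obtain ⟨ℱ, h1, h2, h3, h4⟩ := hB hT r
  have hle : ∀ o : St p, Le (fun _ _ => 0) o := fun _ _ _ h0 => absurd rfl h0
  refine ⟨ℱ, fun s => ⟨fun hs => (h1 s hs).2.2.1.1, fun hs => ?_⟩, fun s hs => (h1 s hs).2.2.1.2,
    h2, by rw [h3, W_empty], fun o ho hc => h4 o ho (hle o) hc⟩
  obtain ⟨s', hs', hl⟩ := h4 s hs.1.1 (hle s) fun u hu => hs.2.1.comp (by
    rw [hs.2.2]
    exact ⟨1, subset_Sat _ _ rfl, u, hu, (one_mul u).symm⟩)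
  have hb := (h1 s' hs').2.2.1.1
  have he : s' = s := h p 𝔇 N hT s' s s {1} r {1} r (Nb r {1}) hb.1 hs.1 hb.2.1 hs.2.1
    (Fam.shape_ball hb) (Fam.shape_ball hs) hs.1.1.1 hl (Le.refl s)
    ⟨1, subset_Nb _ _ rfl⟩ (by rw [Sat_Nb, hb.2.2]) (by rw [Sat_Nb, hs.2.2])
  exact he ▸ hs'

theorem relab : RelabStmt := by
  intro p 𝔇 N r hT s s' hs h1 h2 h3 h4
  obtain ⟨⟨⟨hv, hm⟩, hL, F, hF⟩, ht, hd⟩ := hs
  have hg : Good 𝔇 N s := ⟨⟨hv, hm⟩, hL, F, hF⟩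
  have hne : ∀ x κ, s' x κ ≠ 0 ↔ s x κ ≠ 0 := by
    intro x κ
    by_cases hκ : κ = (N + 1, none)
    · subst hκ; exact not_congr (h2 x)
    · rw [h1 x κ hκ]
  have hf : ∀ x i c, s' x (i, some c) = s x (i, some c) := fun x i c => h1 x _ (by simp)
  have hK : Kall 𝔇 s' = Kall 𝔇 s := by simp only [Kall, hf]
  have hDm : ∀ j, Dm j s' = Dm j s := fun j => Set.ext fun x => hne x _
  have hCen : ∀ j, Cen j s' = Cen j s := fun j => by simp only [Cen, hf]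
  have hFr : Fr (2 * N + 1) s s' := by
    intro x κ _ hκ
    refine (h1 x κ ?_).symm
    rintro rfl
    rw [rk_none] at hκ
    omega
  have hst : ∀ k ∈ Kall 𝔇 s, tr k s' = s' := by
    intro k hk
    funext y κ
    by_cases hκ : κ = (N + 1, none)
    · subst hκ
      exact h4 k⁻¹ (inv_mem hk) y
    · show s' (k⁻¹ * y) κ = s' y κ
      rw [h1 _ κ hκ, h1 _ κ hκ, apply_of_stab (hg.stab (inv_mem hk))]
  have hF' : IsTr 𝔇 s' F := by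
    refine ⟨fun a ha => (hne _ _).2 (hF.1 a ha), ?_, fun x κ hx => ?_⟩
    · rw [hK]; exact hF.2.1
    · rw [hK]; exact hF.2.2 x κ ((hne _ _).1 hx)
  refine ⟨⟨⟨⟨fun i hi hiN x c hx => ?_, fun i hi hiN x => ?_⟩,
    fun x κ hx => hL x κ ((hne _ _).1 hx), F, hF'⟩, fun i hi hiN => ?_, ?_⟩, hK, ?_⟩
  · rw [hf] at hx ⊢
    obtain ⟨a, b, -⟩ := hv i hi hiN x c hx
    refine ⟨a, fun y κ hy => ?_, fun l hl => hst _ (K_le_Kall N s (mem_K hi hiN hx hl))⟩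
    rw [h1 y κ, b y κ hy]
    rintro rfl
    rcases ((hT.ok hi hiN).2.2.at' c _ a).low _ _ hy with h5 | h5
    · rw [rk_none] at h5; omega
    · simp at h5
  · by_cases hi' : i = N + 1
    · subst hi'; exact h3 x
    · rw [h1 x _ (by simp [hi'])]; exact hm i hi hiN x
  · obtain ⟨a, b, c⟩ := ht i hi hiN
    refine ⟨?_, fun x hx c' hc => ?_, fun x c' hx => ?_⟩
    · unfold ExA at *
      rw [hDm, hDm, hCen, a]
    · rw [hf]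
      rw [hDm] at hx
      exact b x hx c' ((hFr.cen_iff hi (by omega) (hT.ok hi hiN).1 c' x).2 hc)
    · rw [hf] at hx ⊢
      rw [hDm]
      exact c x c' hx
  · rw [hDm, hK, hd]
  · rw [W_eq (fun k hk => hst k (hK ▸ hk)) hF', W_eq (fun _ hk => hg.stab hk) hF]
    refine Finset.prod_congr rfl fun a _ => ?_
    obtain ⟨x, i, _ | c⟩ := a
    · rfl
    · simp only [hf]

theorem vu (h : UniqStmt) : VUStmt := by
  intro p 𝔇 i hi hT hR hC c σ hσ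
  refine ⟨Fam.view_shape hT hR hC hσ, Fam.view_rc hC hσ, fun σ' o hσ' ho hl hl' => ?_⟩
  have hG := hT.2.1 _ le_rfl
  have e := Tn_stable hi hR hG hσ.1.1.1 ho hl (Fam.view_rc hC hσ) _ (Nat.le_succ _)
  have e' := Tn_stable hi hR hG hσ'.1.1.1 ho hl' (Fam.view_rc hC hσ') _ (Nat.le_succ _)
  refine h p 𝔇 (i - 1) hT σ σ' o _ _ _ _ (Nb (𝔇 i).θ (Tn 𝔇 i o c 1 (𝔇 i).n)) hσ.1 hσ'.1 hσ.2.1
    hσ'.2.1 (Fam.view_shape hT hR hC hσ) (Fam.view_shape hT hR hC hσ') ho hl hl'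
    ⟨1, subset_Nb _ _ (mem_Tn_self 1 _)⟩ ?_ ?_
  · rw [Sat_Nb, e, hσ.2.2.2]
  · rw [Sat_Nb, e', hσ'.2.2.2]

end Pool.Agent.MP_735563_an.H2
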