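import Pool.Agent.MP_735563_an.H2.Spec2

set_option autoImplicit false

/-! Row Fold: folding the component of a centre. -/

namespace Pool.Agent.MP_735563_an.H2

namespace Fold

variable {p : ℕ} {𝔇 : ℕ → Lev p}

theorem cball (h2 : CPStmt) {i : ℕ} (hi : 1 ≤ i) (hO : OK 𝔇 i) (hG : GEOp 𝔇 (i - 1)) {o : St p}
    (ho : ValZ 𝔇 i o) {c : Fin 3} {x : Gam p} (hx : o x (i, some c) ≠ 0) (t : ℕ) :
    cenA 𝔇 i o c x ∧ Tn 𝔇 i o c x t ⊆ Cen i o ∧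
      ∀ y ∈ Nb (𝔇 i).θ (Tn 𝔇 i o c x t), Comp 𝔇 (i - 1) o y := by
  obtain ⟨a1, a2, a3, -⟩ := (h2 p 𝔇 i hi hO hG o ho c).1 x hx
  refine ⟨(a2 x a1).2.1, fun y hy => ⟨c, (a2 y (a3 t hy)).1⟩, ?_⟩
  rintro _ ⟨y, hy, u, hu, rfl⟩
  exact (a2 y (a3 t hy)).2.2.1 u hu

theorem view {i : ℕ} (hX : VXp 𝔇 i) (hT : Th 𝔇 (i - 1)) (hO : OK 𝔇 i) {o : St p}
    (ho : Val 𝔇 (i - 1) o) {c : Fin 3} {x : Gam p} (hc : cenA 𝔇 i o c x)
    (h : ∀ y ∈ Nb (𝔇 i).θ (Tn 𝔇 i o c x (𝔇 i).n), Comp 𝔇 (i - 1) o y) :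
    ∃ σ, IsV 𝔇 i c σ ∧ Le σ (tr x⁻¹ o) := by
  refine hX hT hO.1 hO.2.1 (tr x⁻¹ o) c (ho.tr _) ?_ fun y hy => ?_
  · rw [← inv_mul_cancel x]
    exact cenA_tr.2 hc
  · rw [← inv_mul_cancel x, Tn_tr, Nb_lm, mem_lm, inv_inv] at hy
    rw [← inv_mul_cancel_left x y]
    exact Comp_tr.2 (h _ hy)

theorem inv_Dm {N : ℕ} {s : St p} (hs : Good 𝔇 N s) (i : ℕ) :
    ∀ k ∈ Kall 𝔇 s, ∀ y ∈ Dm i s, k * y ∈ Dm i s :=
  fun _ hk _ hy => (Dm_stab (hs.stab hk)).2 hy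

theorem inv_P {N : ℕ} {s : St p} (hs : Good 𝔇 N s) (i : ℕ) :
    ∀ k ∈ Kall 𝔇 s, ∀ y ∈ Dm i s ∪ Cen i s, k * y ∈ Dm i s ∪ Cen i s :=
  fun _ hk _ hy => hy.imp (Dm_stab (hs.stab hk)).2 (Cen_stab (hs.stab hk)).2

/-- the family of the models over the view -/
theorem glue (h1 : FGStmt) (h2 : CPStmt) (h5 : VUStmt) {N i : ℕ} (hi : 1 ≤ i) (hX : VXp 𝔇 i)
    (hN : i ≤ N) (hT : Th 𝔇 N) {s : St p} {F : Set (Gam p)} {k : ℕ} {x : Gam p} {c : Fin 3}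
    (hC : Cur 𝔇 N i s F k x c) :
    Reach 𝔇 N s (fun s' => Pre 𝔇 N i s' F k ∧ Dm i s' = Sat (Kall 𝔇 s') (Dm i s) ∧
      Up 𝔇 i s s' ∧ s' x (i, some c) ≠ 0) (fun o => Comp 𝔇 i o x) := by
  classical
  have hO := hT.ok hi hN
  have hG := hT.2.1 (i - 1) (by omega)
  have hT' := hT.mono (N' := i - 1) (by omega)
  have hC' := hC
  obtain ⟨hs, hTow, -, -, -, -, hx, hc, -, hD, -⟩ := hC'
  obtain ⟨σ, hσ, hl⟩ := view hX hT' hO (hs.1.mono (by omega)) hc fun y hy =>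
    hTow.comp (hD ▸ Nb_mono le_rfl (Set.subset_union_right.trans (subset_Sat _ _)) hy)
  have key := fun z (hz : z ∈ ((𝔇 i).Z c).filter fun z => Le σ ((𝔇 i).τ c z)) =>
    h1 p 𝔇 N i hT hi hN s F k x c σ z hC hσ (le_tr_iff.2 hl) (Finset.mem_filter.1 hz).1
      (Finset.mem_filter.1 hz).2
  choose! f hf using key
  have hM := fun z (hz : z ∈ ((𝔇 i).Z c).filter fun z => Le σ ((𝔇 i).τ c z)) =>
    hO.2.2.at' c z (Finset.mem_filter.1 hz).1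
  have hv : ∀ z ∈ ((𝔇 i).Z c).filter fun z => Le σ ((𝔇 i).τ c z), f z x (i, some c) = z := by
    intro z hz
    have e : tr x ((𝔇 i).τ c z) x (i, some c) = z := by
      simp only [tr, inv_mul_cancel]
      exact (hM z hz).root
    rw [(hf z hz).2.2.1 x _ (by rw [e]; exact (hM z hz).ne), e]
  refine ⟨(((𝔇 i).Z c).filter fun z => Le σ ((𝔇 i).τ c z)).image f, ?_, ?_, ?_,
    fun o ho hso hxo => ?_⟩
  · refine Finset.forall_mem_image.2 fun z hz => ?_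
    obtain ⟨a1, a2, -, a4, a5, a6, a7, -⟩ := hf z hz
    exact ⟨a1, a2, ⟨a4, a5, a6, by rw [hv z hz]; exact (hM z hz).ne⟩, a7⟩
  · refine Finset.forall_mem_image.2 fun z hz => Finset.forall_mem_image.2 fun z' hz' hne => ?_
    refine ⟨x, (i, some c), ?_⟩
    rw [hv z hz, hv z' hz']
    exact ⟨(hM z hz).ne, (hM z' hz').ne, fun e => hne (by rw [e])⟩
  · rw [Finset.sum_image fun z hz z' hz' e => by rw [← hv z hz, e, hv z' hz']]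
    have w1 : W 𝔇 σ ≠ 0 := (W_pos hT'.1 hσ.1).ne'
    have w2 : ((𝔇 i).M c : ℚ) ≠ 0 := Nat.cast_ne_zero.2 (hO.2.2.M_pos c).ne'
    rw [Finset.sum_congr rfl (g := fun _ => W 𝔇 s * (1 / (𝔇 i).M c) / W 𝔇 σ) fun z hz => by
      rw [eq_div_iff w1, (hf z hz).2.2.2.2.2.2.2.1, (hM z hz).wt], Finset.sum_const,
      nsmul_eq_mul, hO.2.2.marg c σ hσ]
    field_simp
  · have hr : RC 𝔇 i s x := rc_of_seed hO.2.1 hTow hD.ge (subset_Sat _ _ (Or.inl (Or.inl hx)))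
    have hz := hxo.lab hi
      ((hr.cen_iff hi hO.1 hG (hs.1.1.mono (by omega)) (ho.1.mono (by omega)) hso c).1 hc)
    obtain ⟨b1, b2, -⟩ := ho.1 i hi hN x c hz
    have hm := hO.2.2.at' c _ b1
    obtain ⟨b3, -, b4⟩ := cball h2 hi hO hG hm.good.1.1 (c := c) (x := 1)
      (by rw [hm.root]; exact hz) (𝔇 i).n
    obtain ⟨σ', b5, b6⟩ := view hX hT' hO (hm.good.1.mono (by omega)) b3 b4
    rw [inv_one, tr_one] at b6
    have e := (h5 p 𝔇 i hi hT' hO.1 hO.2.1 c σ hσ).2.2 σ' (tr x⁻¹ o) b5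
      ((ho.1.mono (by omega)).tr _) (hl.trans (hso.tr _)) (b6.trans (le_tr_iff.1 b2))
    have b7 : o x (i, some c) ∈ ((𝔇 i).Z c).filter fun z => Le σ ((𝔇 i).τ c z) :=
      Finset.mem_filter.2 ⟨b1, e ▸ b6⟩
    exact ⟨_, Finset.mem_image_of_mem f b7, (hf _ b7).2.2.2.2.2.2.2.2 o ho hso b2⟩

end Fold

open Fold in
theorem fold (h1 : FGStmt) (h2 : CPStmt) (h3 : SQCStmt) (h4 : RSUpStmt) (h5 : VUStmt) :
    FoldStmt := by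
  intro p _ 𝔇 i hi hV hX N hN hT s F k x c hP hx
  obtain ⟨hs, hTow, hA, hC, hS, hSup, hL⟩ := id hP
  by_cases h0 : cenA 𝔇 i s c x → s x (i, some c) ≠ 0
  · exact Reach.refl hs ⟨hP, (Sat_eq_self (inv_Dm hs i)).symm, Up.refl i s, h0⟩
  obtain ⟨hc, -⟩ := Classical.not_imp.1 h0
  have hO := hT.ok hi hN
  have hG := hT.2.1 (i - 1) (by omega)
  have loc : ∀ s', ValZ 𝔇 N s' → Le s s' → ∀ y ∈ Dm i s, ∀ c',
      cenA 𝔇 i s c' y ↔ cenA 𝔇 i s' c' y := fun s' hs' hl y hy c' =>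
    (rc_of_seed hO.2.1 hTow hA.ge (Or.inl hy)).cen_iff hi hO.1 hG (hs.1.1.mono (by omega))
      (hs'.mono (by omega)) hl c'
  refine ((hV N (by omega) hT hO.1 hO.2.1 s (Dm i s ∪ Cen i s) x c (𝔇 i).n hs hTow
    (hSup.down hi hA) (Or.inl hx) (inv_P hs i) (h3 p 𝔇 N i hT hi hN s F k hs hC hS).2.2.2
    hA).mono (fun _ _ _ h => h) fun o ho hl hxo => (cball h2 hi hO hG (ho.1.mono hN)
      (hxo.lab hi ((loc o ho.1 hl x hx c).1 hc)) _).2.2).bind ?_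
  rintro t ht hl ⟨a1, -, a3, a4, a5⟩
  have hD := a3.Dm_eq hl ht (j := i) (by omega)
  have hE := a3.Cen_eq hl ht (j := i) (by omega)
  have hK := Kall_mono (𝔇 := 𝔇) hl
  have hU : Up 𝔇 i s t := a3.mono (by omega)
  have e : Sat (Kall 𝔇 t) (Dm i s ∪ Cen i s ∪ Tn 𝔇 i t c x (𝔇 i).n) =
      Sat (Kall 𝔇 t) (Dm i t ∪ Cen i t ∪ Tn 𝔇 i t c x (𝔇 i).n) := by
    simp only [Sat_union, hD, hE, Sat_Sat le_rfl]
  rw [e] at a4 a5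
  have e' : ∀ r, Nb r (Sat (Kall 𝔇 t) F) = Sat (Kall 𝔇 t) (Nb r (Sat (Kall 𝔇 s) F)) := fun r => by
    rw [Sat_Nb, Sat_Sat hK]
  have b1 : ExC 𝔇 i t := fun y c' hy => by
    obtain ⟨g, hg, hy'⟩ := a3.2 y _ (by rw [rk_some]; omega) hy
    obtain ⟨u, hu, hu'⟩ := hC _ c' hy'
    rw [← hl _ _ hy', apply_of_stab (ht.stab hg)] at hu
    rw [mul_assoc] at hu'
    exact ⟨u, hu, (Dm_stab (ht.stab hg)).1 (Dm_mono hl hu')⟩
  have b2 : Shape 𝔇 i t F k := by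
    refine ⟨hS.1, ?_, ?_, h4 p 𝔇 N i hT hN s t F k hs ht hl hU.1 hS.2.2.2⟩
    · rw [e', hD]
      exact Sat_mono le_rfl hS.2.1
    · rw [e', hD]
      exact Sat_mono le_rfl hS.2.2.1
  have b3 : Sup i t := fun y κ hκ hy => by
    obtain ⟨g, hg, hy'⟩ := hU.2 y κ hκ hy
    exact (Dm_stab (ht.stab hg)).1 (Dm_mono hl (hSup _ κ hκ hy'))
  have b4 : ∀ k', k' + 1 ≤ k → ∀ y ∈ Nb k' (Sat (Kall 𝔇 t) F), ∀ c', cenA 𝔇 i t c' y →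
      t y (i, some c') ≠ 0 := fun k' hk y hy c' hc' => by
    rw [e'] at hy
    obtain ⟨g, hg, y, hy, rfl⟩ := hy
    rw [apply_of_stab (ht.stab hg)]
    exact hl.ne (hL k' hk y hy c' ((loc t ht.1.1 hl y
      (hS.2.1 (Nb_mono (by omega) le_rfl hy)) c').2 ((cenA_stab (ht.stab hg)).1 hc')))
  by_cases h6 : t x (i, some c) = 0
  · refine (glue h1 h2 h5 hi hX hN hT ⟨ht, a1, b1, b2, b3, b4, Dm_mono hl hx,
      (loc t ht.1.1 hl x hx c).1 hc, h6, a4, a5⟩).mono ?_ fun _ _ _ h => h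
    rintro t' - hl' ⟨c1, c2, c3, c4⟩
    exact ⟨c1, by rw [c2, hD, Sat_Sat (Kall_mono hl')], hU.trans c3 hl', fun _ => c4⟩
  · refine Reach.refl ht ⟨⟨ht, a1, ?_, b1, b2, b3, b4⟩, hD, hU, fun _ => h6⟩
    rw [Set.union_eq_left.2 ((cball h2 hi hO hG (ht.1.1.mono hN) h6 _).2.1.trans
      Set.subset_union_right), Sat_eq_self (inv_P ht i)] at a4
    exact a4

end Pool.Agent.MP_735563_an.H2
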