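import Pool.Agent.MP_735563_an.H2.Spec2

set_option autoImplicit false

/-! Row GB: growth by a finite set and growth of the seed of a thick region. -/

namespace Pool.Agent.MP_735563_an.H2

namespace GB

variable {p : ℕ} {𝔇 : ℕ → Lev p}

theorem dm_inv {N i : ℕ} {s : St p} (h : Good 𝔇 N s) :
    ∀ k ∈ Kall 𝔇 s, ∀ y ∈ Dm i s, k * y ∈ Dm i s :=
  fun _ hk _ hy => (Dm_stab (h.stab hk)).2 hy

theorem sat_inv (H : Subgroup (Gam p)) (S : Set (Gam p)) :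
    ∀ k ∈ H, ∀ y ∈ Sat H S, k * y ∈ Sat H S := fun _ hk _ hy => mul_mem_Sat hk hy

theorem sup_up {N i : ℕ} {s s' : St p} (hs : Sup i s) (hg : Good 𝔇 N s') (hl : Le s s')
    (hu : Up 𝔇 i s s') : Sup i s' := by
  intro y κ hk hy
  obtain ⟨k, hk1, h1⟩ := hu.2 y κ hk hy
  exact (Dm_stab (hg.stab hk1)).1 (Dm_mono hl (hs _ κ hk h1))

theorem sat_step {H H' : Subgroup (Gam p)} (hH : H ≤ H') (A B : Set (Gam p)) :
    Sat H' (Sat H A ∪ B) = Sat H' (A ∪ B) := by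
  rw [Sat_union, Sat_Sat hH, ← Sat_union]

theorem shape_up (h1 : RSUpStmt) {N i : ℕ} (hN : i ≤ N) (hT : Th 𝔇 N) {s s' : St p}
    {F Y : Set (Gam p)} {k : ℕ} (hg : Good 𝔇 N s) (hg' : Good 𝔇 N s') (hl : Le s s')
    (hu : Up 𝔇 i s s') (hS : Shape 𝔇 i s F k) (hY : Y ⊆ Nb (k + 1) (Sat (Kall 𝔇 s) F))
    (hD : Dm i s' = Sat (Kall 𝔇 s') (Dm i s ∪ Y)) : Shape 𝔇 i s' F k := by
  obtain ⟨a, b, c, d⟩ := hS
  refine ⟨a, ?_, ?_, h1 p 𝔇 N i hT hN s s' F k hg hg' hl hu.1 d⟩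
  · rw [← Sat_Nb]
    exact Sat_subset (((Nb_mono le_rfl (subset_Sat _ _)).trans b).trans (Dm_mono hl)) (dm_inv hg')
  · rw [hD]
    refine Sat_subset ?_ (Nb_inv (sat_inv _ _) _)
    exact (Set.union_subset c hY).trans (Nb_mono le_rfl (Sat_mono (Kall_mono hl) subset_rfl))

theorem glf (h1 : RSUpStmt) {i : ℕ} (hGL : GLp 𝔇 i) : GLFp 𝔇 i := by
  intro N hN hT s F k X hg hw hs hS hX
  induction X, hX using Set.Finite.induction_on with
  | empty =>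
    intro _
    refine Reach.refl hg ⟨hw, hs, hS, ?_, Up.refl i s⟩
    rw [Set.union_empty, Sat_eq_self (dm_inv hg)]
  | @insert x X _ _ ih =>
    intro hsub
    have hx : x ∈ Nb (k + 1) (Sat (Kall 𝔇 s) F) := hsub (Set.mem_insert x X)
    have h2 := (ih ((Set.subset_insert x X).trans hsub)).mono (fun _ _ _ h => h)
      (O' := fun o => ∀ y ∈ insert x X, Comp 𝔇 i o y)
      (fun o _ _ ho y hy => ho y (Set.mem_insert_of_mem x hy))
    refine h2.bind fun s' hg' hl ⟨hw', hs', hS', hD', hu'⟩ => ?_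
    have hx' : x ∈ Nb (k + 1) (Sat (Kall 𝔇 s') F) :=
      Nb_mono le_rfl (Sat_mono (Kall_mono hl) subset_rfl) hx
    refine (hGL N hN hT s' F k x hg' hw' hs' hS' hx').mono ?_
      (fun o _ _ ho => ho x (Set.mem_insert x X))
    rintro s'' hg'' hl' ⟨hw'', hD'', hu''⟩
    refine ⟨hw'', sup_up hs' hg'' hl' hu'',
      shape_up h1 hN hT hg' hg'' hl' hu'' hS' (Set.singleton_subset_iff.2 hx') hD'', ?_,
      hu'.trans hu'' hl'⟩
    rw [hD'', hD', sat_step (Kall_mono hl'), Set.union_assoc, Set.union_singleton]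

theorem qc_up (h2 : QCTStmt) {N i : ℕ} (hN : i ≤ N) (hT : Th 𝔇 N) {s s' : St p}
    {P : Set (Gam p)} {θ κ : ℕ} (hg : Good 𝔇 N s) (hw : Tow 𝔇 i s)
    (hP : ∀ k ∈ Kall 𝔇 s, ∀ y ∈ P, k * y ∈ P) (hq : QC (dj 𝔇 i s) P κ) (hD : Dm i s = Nb θ P)
    (hθ : κ + 200 * ((𝔇 i).δ + 1) ≤ θ) (hg' : Good 𝔇 N s') (hl : Le s s') (hu : Up 𝔇 i s s') :
    QC (dj 𝔇 i s') (Sat (Kall 𝔇 s') P) κ := by
  rw [Sat_Kall_eq hg' hl hu.1 hP]
  refine (h2 p 𝔇 i (hT.2.1 i hN).2.2.2 s s' P κ (hg.1.1.mono hN) (hg'.1.1.mono hN) hl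
    (fun k hk => hP k (K_le_Kall i s hk)) hq fun y hy => hw.comp ?_).1
  rw [hD]
  exact Nb_mono hθ subset_rfl hy

theorem gbp [NeZero p] (h2 : QCTStmt) {i : ℕ} (hF : GLFp 𝔇 i) : GBp 𝔇 i := by
  intro N hN hT s P X θ l κ hg hw hs hne hP hq hD hX hXP hθ
  have stage : ∀ t ≤ l, Reach 𝔇 N s (fun s' => Tow 𝔇 i s' ∧ Sup i s' ∧ Up 𝔇 i s s' ∧
      Dm i s' = Sat (Kall 𝔇 s') (Nb θ P ∪ Nb (θ - l + t) X))
      (fun o => ∀ y ∈ Nb θ X, Comp 𝔇 i o y) := by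
    intro t
    induction t with
    | zero =>
      intro _
      refine Reach.refl hg ⟨hw, hs, Up.refl i s, ?_⟩
      have h3 : Nb (θ - l + 0) X ⊆ Nb θ P := by
        refine (Nb_mono le_rfl hXP).trans ?_
        rw [Nb_Nb]
        exact Nb_mono (by omega) subset_rfl
      rw [Set.union_eq_left.2 h3, Sat_eq_self (Nb_inv hP θ), hD]
    | succ t ih =>
      intro ht
      refine (ih (by omega)).bind fun s' hg' hl ⟨hw', hs', hu', hD'⟩ => ?_
      have hE : Nb (θ - l + t) (Sat (Kall 𝔇 s') (Nb (l - t) P ∪ X)) = Dm i s' := by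
        rw [hD', ← Sat_Nb, Nb_union, Nb_Nb, show l - t + (θ - l + t) = θ by omega]
      have hq' := qc_up h2 hN hT hg hw hP hq hD (by omega) hg' hl hu'
      have hM : Met (dj 𝔇 i s') (𝔇 i).δ := (hT.2.1 i hN).1 s' (hg'.1.1.mono hN)
      have hq2 : QC (dj 𝔇 i s') (Sat (Kall 𝔇 s') (Nb (l - t) P ∪ X)) (κ + l + 8 * (𝔇 i).δ) := by
        refine hM.sandwich hq'
          (Sat_mono le_rfl ((subset_Nb _ P).trans Set.subset_union_left)) fun x hx => ?_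
        refine (mem_Nb_iff_dj fun k hk => sat_inv _ _ k (K_le_Kall i s' hk)).1 ?_
        rw [← Sat_Nb]
        exact Sat_mono le_rfl (Set.union_subset (Nb_mono (by omega) subset_rfl) hXP) hx
      have hS : Shape 𝔇 i s' (Nb (l - t) P ∪ X) (θ - l + t) := by
        refine ⟨hne.mono ((subset_Nb _ P).trans Set.subset_union_left), hE.subset, ?_,
          Or.inr ⟨κ + l + 8 * (𝔇 i).δ, by omega, hq2, fun y hy => hw'.comp ?_⟩⟩
        · rw [← hE]
          exact Nb_mono (by omega) subset_rfl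
        · rw [← hE]
          exact Nb_mono (by omega) subset_rfl hy
      refine (hF N hN hT s' _ _ (Nb (θ - l + t + 1) X) hg' hw' hs' hS (Nb_finite _ hX)
        (Nb_mono le_rfl (Set.subset_union_right.trans (subset_Sat _ _)))).mono ?_
        (fun o _ _ ho y hy => ho y (Nb_mono (by omega) subset_rfl hy))
      rintro s'' _ hl' ⟨hw'', hs'', -, hD'', hu''⟩
      refine ⟨hw'', hs'', hu'.trans hu'' hl', ?_⟩
      rw [hD'', hD', sat_step (Kall_mono hl'), Set.union_assoc,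
        Set.union_eq_right.2 (Nb_mono (Nat.le_succ _) subset_rfl)]
      rfl
  refine (stage l le_rfl).mono ?_ fun _ _ _ ho => ho
  rintro s' hg' hl ⟨hw', hs', hu', hD'⟩
  refine ⟨hw', hs', hu', ?_, qc_up h2 hN hT hg hw hP hq hD (by omega) hg' hl hu'⟩
  rw [hD', ← Sat_Nb, Nb_union, show θ - l + l = θ by omega]

end GB

theorem gb (h1 : RSUpStmt) (h2 : QCTStmt) : GBStmt :=
  fun _ _ _ _ => ⟨GB.glf h1, GB.gbp h2⟩

end Pool.Agent.MP_735563_an.H2
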