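import Pool.Agent.MP_735563_an.H2.Spec2

set_option autoImplicit false

/-! Row GL: adding one mark, folding three components, growth by one point. -/

namespace Pool.Agent.MP_735563_an.H2

namespace GLa

variable {p : ℕ} {𝔇 : ℕ → Lev p}

open Classical in
/-- the state `s` with the value `v` of the mark of level `i + 1` added on the orbit of `x` -/
noncomputable def add (𝔇 : ℕ → Lev p) (i : ℕ) (s : St p) (x : Gam p) (v : ℕ) : St p :=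
  fun y κ => if κ = (i + 1, none) ∧ y * x⁻¹ ∈ Kall 𝔇 s then v else s y κ

theorem add_ne {i : ℕ} {s : St p} {x : Gam p} {v : ℕ} (y : Gam p) {κ : Kind}
    (h : κ ≠ (i + 1, none)) : add 𝔇 i s x v y κ = s y κ := by
  simp [add, h]

theorem add_fold {i : ℕ} {s : St p} {x : Gam p} {v : ℕ} (y : Gam p) (j : ℕ) (c : Fin 3) :
    add 𝔇 i s x v y (j, some c) = s y (j, some c) := add_ne y (by simp)

theorem add_orb {i : ℕ} {s : St p} {x : Gam p} {v : ℕ} {y : Gam p}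
    (h : y * x⁻¹ ∈ Kall 𝔇 s) : add 𝔇 i s x v y (i + 1, none) = v := by
  simp [add, h]

theorem add_out {i : ℕ} {s : St p} {x : Gam p} {v : ℕ} {y : Gam p} (κ : Kind)
    (h : y * x⁻¹ ∉ Kall 𝔇 s) : add 𝔇 i s x v y κ = s y κ := by
  simp [add, h]

theorem add_self {i : ℕ} {s : St p} {x : Gam p} {v : ℕ} : add 𝔇 i s x v x (i + 1, none) = v :=
  add_orb (by simp)

theorem Kall_add {i : ℕ} {s : St p} {x : Gam p} {v : ℕ} : Kall 𝔇 (add 𝔇 i s x v) = Kall 𝔇 s := by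
  unfold Kall
  simp only [add_fold]

theorem orb_zero {N i : ℕ} {s : St p} {x y : Gam p} (hs : Good 𝔇 N s) (hx : x ∉ Dm i s)
    (h : y * x⁻¹ ∈ Kall 𝔇 s) : s y (i + 1, none) = 0 := by
  have := apply_of_stab (hs.stab h) x
  rw [inv_mul_cancel_right] at this
  rw [this]
  by_contra h0
  exact hx h0

theorem le_add {N i : ℕ} {s : St p} {x : Gam p} {v : ℕ} (hs : Good 𝔇 N s) (hx : x ∉ Dm i s) :
    Le s (add 𝔇 i s x v) := by
  intro y κ hy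
  by_cases h1 : κ = (i + 1, none)
  · by_cases h2 : y * x⁻¹ ∈ Kall 𝔇 s
    · subst h1
      exact absurd (orb_zero hs hx h2) hy
    · exact add_out κ h2
  · exact add_ne y h1

theorem stab_add {N i : ℕ} {s : St p} {x : Gam p} {v : ℕ} (hs : Good 𝔇 N s) {k : Gam p}
    (hk : k ∈ Kall 𝔇 s) : tr k (add 𝔇 i s x v) = add 𝔇 i s x v := by
  funext y κ
  have h1 : s (k⁻¹ * y) = s y := apply_of_stab (hs.stab (inv_mem hk)) y
  have h2 : k⁻¹ * y * x⁻¹ ∈ Kall 𝔇 s ↔ y * x⁻¹ ∈ Kall 𝔇 s := by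
    rw [mul_assoc]
    exact Subgroup.mul_mem_cancel_left _ (inv_mem hk)
  show add 𝔇 i s x v (k⁻¹ * y) κ = add 𝔇 i s x v y κ
  by_cases h3 : κ = (i + 1, none)
  · by_cases h4 : y * x⁻¹ ∈ Kall 𝔇 s
    · rw [h3, add_orb h4, add_orb (h2.2 h4)]
    · rw [add_out κ h4, add_out κ (fun h => h4 (h2.1 h)), h1]
  · rw [add_ne _ h3, add_ne _ h3, h1]

theorem isTr_add {N i : ℕ} {s : St p} {x : Gam p} {v : ℕ} (hs : Good 𝔇 N s) (hx : x ∉ Dm i s)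
    (hv : v ≠ 0) {F : Finset (Gam p × Kind)} (hF : IsTr 𝔇 s F) (hn : (x, ((i + 1, none) : Kind)) ∉ F) :
    IsTr 𝔇 (add 𝔇 i s x v) (F.cons (x, (i + 1, none)) hn) := by
  refine ⟨fun a ha => ?_, fun a ha b hb h1 h2 => ?_, fun y κ hy => ?_⟩
  · rcases Finset.mem_cons.1 ha with rfl | ha
    · rw [add_self]; exact hv
    · exact (le_add hs hx).ne (hF.1 a ha)
  · rw [Kall_add] at h2
    rcases Finset.mem_cons.1 ha with rfl | ha
    · rcases Finset.mem_cons.1 hb with rfl | hb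
      · rfl
      · have h3 := hF.1 b hb
        rw [← h1] at h3
        exact absurd (orb_zero hs hx h2) h3
    · rcases Finset.mem_cons.1 hb with rfl | hb
      · have h3 := hF.1 a ha
        rw [h1] at h3
        exact absurd (orb_zero hs hx (by simpa using inv_mem h2)) h3
      · exact hF.2.1 a ha b hb h1 h2
  · rw [Kall_add]
    by_cases h1 : κ = (i + 1, none) ∧ y * x⁻¹ ∈ Kall 𝔇 s
    · exact ⟨_, Finset.mem_cons_self _ _, h1.1.symm, by simpa using inv_mem h1.2⟩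
    · have h2 : add 𝔇 i s x v y κ = s y κ := by simp only [add, h1, if_false]
      rw [h2] at hy
      obtain ⟨a, ha, h3⟩ := hF.2.2 y κ hy
      exact ⟨a, Finset.mem_cons_of_mem ha, h3⟩

theorem not_mem_tr {i : ℕ} {s : St p} {x : Gam p} (hx : x ∉ Dm i s)
    {F : Finset (Gam p × Kind)} (hF : IsTr 𝔇 s F) : (x, ((i + 1, none) : Kind)) ∉ F :=
  fun h => hx (hF.1 _ h)

theorem good_add {N i : ℕ} (hi : i ≤ N) {s : St p} {x : Gam p} {v : ℕ} (hs : Good 𝔇 N s)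
    (hx : x ∉ Dm i s) (hv : v ≠ 0) (hv' : v ≤ (𝔇 (i + 1)).nE) : Good 𝔇 N (add 𝔇 i s x v) := by
  refine ⟨⟨fun j h1 h2 y c hy => ?_, fun j h1 h2 y => ?_⟩, fun y κ hy => ?_, ?_⟩
  · rw [add_fold] at hy ⊢
    obtain ⟨a, b, -⟩ := hs.1.1 j h1 h2 y c hy
    exact ⟨a, b.trans (le_add hs hx), fun l hl =>
      stab_add hs (K_le_Kall j s (mem_K h1 le_rfl hy hl))⟩
  · by_cases h3 : ((j, none) : Kind) = (i + 1, none) ∧ y * x⁻¹ ∈ Kall 𝔇 s
    · obtain rfl : j = i + 1 := (Prod.mk.inj h3.1).1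
      rw [add_orb h3.2]; exact hv'
    · have h4 : add 𝔇 i s x v y (j, none) = s y (j, none) := by simp only [add, h3, if_false]
      rw [h4]; exact hs.1.2 j h1 h2 y
  · by_cases h3 : κ = (i + 1, none)
    · rw [h3, rk_none]; omega
    · rw [add_ne y h3] at hy
      exact hs.2.1 y κ hy
  · obtain ⟨F, hF⟩ := hs.2.2
    exact ⟨_, isTr_add hs hx hv hF (not_mem_tr hx hF)⟩

theorem W_add {N i : ℕ} {s : St p} {x : Gam p} {v : ℕ} (hs : Good 𝔇 N s)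
    (hx : x ∉ Dm i s) (hv : v ≠ 0) :
    W 𝔇 (add 𝔇 i s x v) = 1 / (𝔇 (i + 1)).nE * W 𝔇 s := by
  obtain ⟨F, hF⟩ := hs.2.2
  rw [W_eq (fun k hk => stab_add hs (by rwa [Kall_add] at hk))
    (isTr_add hs hx hv hF (not_mem_tr hx hF)), W_eq (fun _ hk => hs.stab hk) hF, Finset.prod_cons]
  congr 1
  exact Finset.prod_congr rfl fun a ha => by rw [le_add hs hx _ _ (hF.1 a ha)]

theorem Dm_add {N i : ℕ} {s : St p} {x : Gam p} {v : ℕ} (hs : Good 𝔇 N s)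
    (hx : x ∉ Dm i s) (hv : v ≠ 0) :
    Dm i (add 𝔇 i s x v) = Dm i s ∪ Sat (Kall 𝔇 s) {x} := by
  ext y
  constructor
  · intro hy
    by_cases h : y * x⁻¹ ∈ Kall 𝔇 s
    · exact Or.inr ⟨_, h, x, rfl, by simp⟩
    · left
      have h1 : add 𝔇 i s x v y (i + 1, none) ≠ 0 := hy
      rwa [add_out _ h] at h1
  · rintro (hy | ⟨k, hk, _, rfl, rfl⟩)
    · exact Dm_mono (le_add hs hx) hy
    · show add 𝔇 i s _ v _ (i + 1, none) ≠ 0
      rw [add_orb (by simpa using hk)]; exact hv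

theorem add_le {N i : ℕ} {s o : St p} {x : Gam p} (hs : Good 𝔇 N s) (ho : Val 𝔇 N o)
    (hl : Le s o) : Le (add 𝔇 i s x (o x (i + 1, none))) o := by
  intro y κ hy
  by_cases h1 : κ = (i + 1, none) ∧ y * x⁻¹ ∈ Kall 𝔇 s
  · obtain ⟨rfl, h2⟩ := h1
    rw [add_orb h2]
    rw [Kall_eq hs.2.1] at h2
    have := apply_of_stab (ho.1.stab (K_mono le_rfl hl h2)) x
    rw [inv_mul_cancel_right] at this
    rw [this]
  · have h2 : add 𝔇 i s x (o x (i + 1, none)) y κ = s y κ := by simp only [add, h1, if_false]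
    rw [h2] at hy ⊢
    exact hl y κ hy

end GLa

open GLa in
theorem eps : EpsStmt := by
  classical
  intro p 𝔇 N i hT hi s x hs hx
  have hpos : 0 < (𝔇 (i + 1)).nE := hT.1.nE_pos (by omega) (by omega)
  refine ⟨(Finset.Icc 1 (𝔇 (i + 1)).nE).image (add 𝔇 i s x), ?_, ?_, ?_, fun o ho hl hO => ?_⟩
  · simp only [Finset.mem_image, Finset.mem_Icc]
    rintro _ ⟨v, ⟨h1, h2⟩, rfl⟩
    refine ⟨good_add hi hs hx (by omega) h2, le_add hs hx,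
      ⟨Kall_add, Dm_add hs hx (by omega), fun y κ h => add_ne y h⟩, ?_⟩
    rintro ⟨q, c, h3, h4⟩
    exact ⟨q, c, Dm_mono (le_add hs hx) h3, by rw [add_fold]; exact h4⟩
  · simp only [Finset.mem_image, Finset.mem_Icc]
    rintro _ ⟨v, ⟨h1, -⟩, rfl⟩ _ ⟨w, ⟨h2, -⟩, rfl⟩ hne
    refine ⟨x, (i + 1, none), ?_, ?_, ?_⟩
    · rw [add_self]; omega
    · rw [add_self]; omega
    · rw [add_self, add_self]
      rintro rfl
      exact hne rfl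
  · rw [Finset.sum_image]
    · rw [Finset.sum_congr rfl (g := fun _ => 1 / ((𝔇 (i + 1)).nE : ℚ) * W 𝔇 s)
        fun v hv => W_add hs hx (by have := (Finset.mem_Icc.1 hv).1; omega)]
      have h0 : ((𝔇 (i + 1)).nE : ℚ) ≠ 0 := by exact_mod_cast hpos.ne'
      simp only [Finset.sum_const, Nat.card_Icc, Nat.add_sub_cancel, nsmul_eq_mul]
      field_simp
    · intro v _ w _ h
      have := congrFun (congrFun h x) (i + 1, none)
      rwa [add_self, add_self] at this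
  · refine ⟨_, Finset.mem_image_of_mem _ (Finset.mem_Icc.2 ⟨?_, ?_⟩), add_le hs ho hl⟩
    · exact Nat.pos_of_ne_zero hO
    · exact ho.2 (i + 1) (by omega) (by omega) x

namespace GLa

variable {p : ℕ} {𝔇 : ℕ → Lev p}

/-- one more colour -/
theorem fold_step {i N : ℕ} (hi : 1 ≤ i) (hF : FOLDp 𝔇 i) (hN : i ≤ N) (hT : Th 𝔇 N)
    {s : St p} {F : Set (Gam p)} {k : ℕ} {x : Gam p} (hx : x ∈ Dm i s) (D : Set (Fin 3))
    (c : Fin 3)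
    (h : Reach 𝔇 N s (fun s' => Pre 𝔇 N i s' F k ∧ Dm i s' = Sat (Kall 𝔇 s') (Dm i s) ∧
      Up 𝔇 i s s' ∧ ∀ c' ∈ D, cenA 𝔇 i s' c' x → s' x (i, some c') ≠ 0)
      (fun o => Comp 𝔇 i o x)) :
    Reach 𝔇 N s (fun s' => Pre 𝔇 N i s' F k ∧ Dm i s' = Sat (Kall 𝔇 s') (Dm i s) ∧
      Up 𝔇 i s s' ∧ ∀ c' ∈ insert c D, cenA 𝔇 i s' c' x → s' x (i, some c') ≠ 0)
      (fun o => Comp 𝔇 i o x) := by
  have hO := hT.ok hi hN
  refine h.bind fun s₁ g₁ l₁ ⟨hP, hD, hU, hC⟩ => ?_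
  have hx₁ : x ∈ Dm i s₁ := Dm_mono l₁ hx
  refine (hF N hN hT s₁ F k x c hP hx₁).mono ?_ fun _ _ _ h => h
  rintro s₂ g₂ l₂ ⟨hP₂, hD₂, hU₂, hC₂⟩
  refine ⟨hP₂, ?_, hU.trans hU₂ l₂, ?_⟩
  · rw [hD₂, hD, Sat_Sat (Kall_mono l₂)]
  · rintro c' (rfl | hc') hcen
    · exact hC₂ hcen
    · have hrc : RC 𝔇 i s₁ x :=
        rc_of_seed hO.2.1 hP.2.1 (P := Dm i s₁ ∪ Cen i s₁) hP.2.2.1.symm.subset (Or.inl hx₁)
      exact l₂.ne (hC c' hc' ((hrc.cen_iff hi hO.1 (hT.2.1 _ (by omega))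
        (g₁.1.1.mono (by omega)) (g₂.1.1.mono (by omega)) l₂ c').2 hcen))

theorem Dm_inv {N i : ℕ} {s : St p} (hs : Good 𝔇 N s) :
    ∀ k ∈ Kall 𝔇 s, ∀ y ∈ Dm i s, k * y ∈ Dm i s :=
  fun _ hk _ hy => (Dm_stab (hs.stab hk)).2 hy

theorem Cen_inv {N i : ℕ} {s : St p} (hs : Good 𝔇 N s) :
    ∀ k ∈ Kall 𝔇 s, ∀ y ∈ Cen i s, k * y ∈ Cen i s :=
  fun _ hk _ hy => (Cen_stab (hs.stab hk)).2 hy

/-- adding a mark when it is missing -/
theorem eps' (h1 : EpsStmt) {N i : ℕ} (hT : Th 𝔇 N) (hi : i ≤ N) {s : St p} (x : Gam p)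
    (hs : Good 𝔇 N s) :
    Reach 𝔇 N s (fun s' => Kall 𝔇 s' = Kall 𝔇 s ∧ Dm i s' = Sat (Kall 𝔇 s) (Dm i s ∪ {x}) ∧
      Up 𝔇 i s s' ∧ ∀ y κ, κ ≠ (i + 1, none) → s' y κ = s y κ) (fun o => Comp 𝔇 i o x) := by
  by_cases hx : x ∈ Dm i s
  · refine Reach.refl hs ⟨rfl, ?_, Up.refl i s, fun _ _ _ => rfl⟩
    rw [Set.union_eq_self_of_subset_right (Set.singleton_subset_iff.2 hx),
      Sat_eq_self (Dm_inv hs)]
  · refine (h1 p 𝔇 N i hT hi s x hs hx).mono ?_ fun o _ _ h => h.mark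
    rintro s' - - ⟨a, b, c⟩
    refine ⟨a, by rw [b, Sat_union, Sat_eq_self (Dm_inv hs)],
      ⟨a.le.trans le_sup_left, fun y κ hk hy => ⟨1, one_mem _, ?_⟩⟩, c⟩
    rw [one_mul, ← c y κ]
    · exact hy
    · rintro rfl
      rw [rk_none] at hk
      omega

/-- points of the saturated top region of a tower are complete in an extension -/
theorem comp_of_sat {N i : ℕ} (hT : Th 𝔇 N) (hi : i ≤ N) {s s' : St p} (hs : Good 𝔇 N s)
    (hs' : Good 𝔇 N s') (hl : Le s s') (ht : Tow 𝔇 i s) {y : Gam p}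
    (hy : y ∈ Sat (Kall 𝔇 s') (Dm i s)) : Comp 𝔇 i s' y := by
  obtain ⟨k, hk, y, hy, rfl⟩ := hy
  exact (Comp_stab (hs'.stab hk)).2 ((hT.2.1 i hi).2.1 s s' (hs.1.1.mono hi) (hs'.1.1.mono hi) hl y
    (ht.comp hy)).1

theorem sup_of_up {N i : ℕ} {s s' : St p} (hs' : Good 𝔇 N s') (hl : Le s s') (hU : Up 𝔇 i s s')
    (h : Sup i s) : Sup i s' := by
  intro y κ hk hy
  obtain ⟨k, hk1, h1⟩ := hU.2 y κ hk hy
  exact (Dm_stab (hs'.stab hk1)).1 (Dm_mono hl (h _ κ hk h1))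

theorem exC_of_up {N i : ℕ} (hi : 1 ≤ i) {s s' : St p} (hs' : Good 𝔇 N s') (hl : Le s s')
    (hU : Up 𝔇 (i - 1) s s') (h : ExC 𝔇 i s) : ExC 𝔇 i s' := by
  intro y c hy
  obtain ⟨k, hk, h1⟩ := hU.2 y _ (by rw [rk_some]; omega) hy
  obtain ⟨e, he, h2⟩ := h _ c h1
  refine ⟨e, ?_, (Dm_stab (hs'.stab hk)).1 (by rw [← mul_assoc]; exact Dm_mono hl h2)⟩
  rwa [← hl _ _ h1, apply_of_stab (hs'.stab hk)] at he

theorem shape_up (h3 : RSUpStmt) {N i : ℕ} (hT : Th 𝔇 N) (hi : i ≤ N) {s s' : St p}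
    {F : Set (Gam p)} {k : ℕ} {x : Gam p} (hs : Good 𝔇 N s) (hs' : Good 𝔇 N s') (hl : Le s s')
    (hU : Up 𝔇 i s s') (h : Shape 𝔇 i s F k) (hx : x ∈ Nb (k + 1) (Sat (Kall 𝔇 s) F))
    (hD : Dm i s' = Sat (Kall 𝔇 s') (Dm i s ∪ {x})) : Shape 𝔇 i s' F k := by
  refine ⟨h.1, ?_, ?_, h3 p 𝔇 N i hT hi s s' F k hs hs' hl hU.1 h.2.2.2⟩
  · rw [← Sat_Nb]
    exact Sat_subset ((Nb_mono le_rfl (subset_Sat _ _)).trans (h.2.1.trans (Dm_mono hl)))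
      (Dm_inv hs')
  · rw [hD]
    refine Sat_subset ?_ (Nb_inv (fun _ hk _ hy => mul_mem_Sat hk hy) _)
    refine Set.Subset.trans ?_ (Nb_mono le_rfl (Sat_mono (Kall_mono hl) subset_rfl))
    exact Set.union_subset h.2.2.1 (Set.singleton_subset_iff.2 hx)

theorem const_le {a b c d e t : ℕ} (h : 10 ^ 6 * (a + b + c + d + e + 1) ≤ t) :
    500 * (a + b + 1) + 2 * 1 + 300 * (a + 1) ≤ t := by
  have h1 : a + b + 1 ≤ a + b + c + d + e + 1 := by omega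
  have h2 : 1000 * (a + b + 1) ≤ 10 ^ 6 * (a + b + c + d + e + 1) :=
    Nat.mul_le_mul (by norm_num) h1
  have h3 : 1000 * (a + b + 1) ≤ t := h2.trans h
  clear h h2
  linarith [Nat.zero_le a, Nat.zero_le b]

theorem gl_succ (h1 : EpsStmt) (h2 : SQCStmt) (h3 : RSUpStmt) {i : ℕ} (hi : 1 ≤ i)
    (hB : GBp 𝔇 (i - 1)) (hF : F3p 𝔇 i) : GLp 𝔇 i := by
  intro N hN hT s F k x hs ht hS hsh hx
  have hO := hT.ok hi hN
  obtain ⟨hA, -, hC⟩ := ht i hi le_rfl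
  have hne : (Dm i s ∪ Cen i s).Nonempty := by
    obtain ⟨y, hy⟩ := hsh.1
    exact ⟨y, Or.inl (hsh.2.1 (subset_Nb _ _ (subset_Sat _ _ hy)))⟩
  have hinv : ∀ g ∈ Kall 𝔇 s, ∀ y ∈ Dm i s ∪ Cen i s, g * y ∈ Dm i s ∪ Cen i s := by
    rintro g hg y (hy | hy)
    · exact Or.inl (Dm_inv hs g hg y hy)
    · exact Or.inr (Cen_inv hs g hg y hy)
  have hx1 : ({x} : Set (Gam p)) ⊆ Nb 1 (Dm i s ∪ Cen i s) := by
    rw [← Nb_Nb] at hx
    exact Set.singleton_subset_iff.2 (Nb_mono le_rfl (hsh.2.1.trans Set.subset_union_left) hx)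
  have hθ : 500 * ((𝔇 (i - 1)).δ + (𝔇 i).κ + 1) + 2 * 1 + 300 * ((𝔇 (i - 1)).δ + 1) ≤
      (𝔇 i).θ := by
    exact const_le hO.2.1.θ
  have hG := hB N (by omega) hT s (Dm i s ∪ Cen i s) {x} (𝔇 i).θ 1 _ hs (ht.mono (by omega))
    (hS.down hi hA) hne hinv (h2 p 𝔇 N i hT hi hN s F k hs hC hsh).2.2.2 hA
    (Set.finite_singleton x) hx1 hθ
  refine (hG.mono (O' := fun o => Comp 𝔇 i o x) (fun _ _ _ h => h) ?_).bind ?_
  · rintro o - - ho _ ⟨_, rfl, u, hu, rfl⟩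
    exact ho.ball hi hu
  rintro s₁ g₁ l₁ ⟨t₁, -, u₁, d₁, -⟩
  have e₁ := u₁.Dm_eq l₁ g₁ (show i - 1 < i by omega)
  have c₁ := u₁.Cen_eq l₁ g₁ (show i - 1 < i by omega)
  refine (eps' h1 hT hN x g₁).bind ?_
  rintro s₂ g₂ l₂ ⟨k₂, d₂, u₂, f₂⟩
  have fr : Fr (2 * i + 1) s₁ s₂ := by
    intro y κ _ hk
    refine (f₂ y κ ?_).symm
    rintro rfl
    rw [rk_none] at hk
    omega
  have l₀₂ : Le s s₂ := l₁.trans l₂
  have u₀₂ : Up 𝔇 i s s₂ := (u₁.mono (by omega)).trans u₂ l₂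
  have d₀₂ : Dm i s₂ = Sat (Kall 𝔇 s₂) (Dm i s ∪ {x}) := by
    rw [d₂, e₁, k₂, Sat_union, Sat_Sat le_rfl, ← Sat_union]
  have hx₂ : x ∈ Dm i s₂ := by
    rw [d₀₂]; exact subset_Sat _ _ (Or.inr rfl)
  have hP : Pre 𝔇 N i s₂ F k := by
    refine ⟨g₂, fr.tow (fun j a b => (hT.ok a (by omega)).1) (by omega) t₁, ?_, ?_,
      shape_up h3 hT hN hs g₂ l₀₂ u₀₂ hsh hx d₀₂, sup_of_up g₂ l₀₂ u₀₂ hS, ?_⟩
    · unfold ExA
      rw [← fr.Dm_eq (show 2 * (i - 1) + 2 ≤ 2 * i + 1 by omega), ← fr.Cen_eq hi le_rfl, d₁,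
        d₀₂, c₁, k₂, ← Sat_union, Set.union_right_comm]
    · intro y c hy
      rw [← fr.fold_eq hi le_rfl] at hy ⊢
      obtain ⟨e, he, h4⟩ := exC_of_up hi g₁ l₁ u₁ hC y c hy
      exact ⟨e, he, Dm_mono l₂ h4⟩
    · intro k' hk' y hy c hc
      rw [← Sat_Nb] at hy
      refine (comp_of_sat hT hN hs g₂ l₀₂ ht (Sat_mono le_rfl ?_ hy)).lab hi hc
      exact (Nb_mono (by omega) (subset_Sat _ _)).trans hsh.2.1
  refine (hF N hN hT s₂ F k x hP hx₂).mono ?_ fun _ _ _ h => h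
  rintro s₃ g₃ l₃ ⟨hP₃, d₃, u₃, f₃⟩
  have d₀₃ : Dm i s₃ = Sat (Kall 𝔇 s₃) (Dm i s ∪ {x}) := by
    rw [d₃, d₀₂, Sat_Sat (Kall_mono l₃)]
  refine ⟨fun j a b => ?_, d₀₃, u₀₂.trans u₃ l₃⟩
  rcases Nat.eq_or_lt_of_le b with rfl | b'
  · refine ⟨hP₃.2.2.1, fun y hy c hc => ?_, hP₃.2.2.2.1⟩
    rw [d₀₃, Sat_union] at hy
    rcases hy with hy | ⟨g, hg, _, rfl, rfl⟩
    · exact (comp_of_sat hT hN hs g₃ (l₀₂.trans l₃) ht hy).lab hi hc
    · rw [apply_of_stab (g₃.stab hg)]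
      exact f₃ c ((cenA_stab (g₃.stab hg)).1 hc)
  · exact hP₃.2.1 j a (by omega)

end GLa

open GLa in
theorem f3 : F3Stmt := by
  intro p 𝔇 i hi hF N hN hT s F k x hP hx
  have h0 : Reach 𝔇 N s (fun s' => Pre 𝔇 N i s' F k ∧ Dm i s' = Sat (Kall 𝔇 s') (Dm i s) ∧
      Up 𝔇 i s s' ∧ ∀ c' ∈ (∅ : Set (Fin 3)), cenA 𝔇 i s' c' x → s' x (i, some c') ≠ 0)
      (fun o => Comp 𝔇 i o x) :=
    Reach.refl hP.1 ⟨hP, (Sat_eq_self (Dm_inv hP.1)).symm, Up.refl i s, fun _ h => h.elim⟩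
  refine (fold_step hi hF hN hT hx _ 2 (fold_step hi hF hN hT hx _ 1
    (fold_step hi hF hN hT hx _ 0 h0))).mono ?_ fun _ _ _ h => h
  rintro s' - - ⟨a, b, c, d⟩
  refine ⟨a, b, c, fun c' => d c' ?_⟩
  fin_cases c' <;> simp

open GLa in
theorem gl (h1 : EpsStmt) (h2 : SQCStmt) (h3 : RSUpStmt) : GLStmt := by
  intro p _ 𝔇
  refine ⟨fun N hN hT s F k x hs _ _ _ _ => ?_, fun i hi hB hF => gl_succ h1 h2 h3 hi hB hF⟩
  refine (eps' h1 hT hN x hs).mono ?_ fun _ _ _ h => h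
  rintro s' - - ⟨a, b, c, -⟩
  exact ⟨tow_zero s', by rw [b, a], c⟩

end Pool.Agent.MP_735563_an.H2
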