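import Pool.Agent.MP_735563_an.H2.Spec2

set_option autoImplicit false

/-! The amalgam of two states over a common part. -/

namespace Pool.Agent.MP_735563_an.H2

namespace Glue

variable {p : ℕ} {𝔇 : ℕ → Lev p} {N : ℕ} {s t : St p}

/-- equivalent points of a good state carry the same labels -/
theorem app_eq (h : Good 𝔇 N s) {a b : Gam p} (hk : b * a⁻¹ ∈ Kall 𝔇 s) : s b = s a := by
  simpa using apply_of_stab (h.stab hk) a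

/-- a fold of an extension that comes from a translated fold -/
theorem valAt (h : Good 𝔇 N t) (hl : Le t s) (hs : ∀ k ∈ Kall 𝔇 s, tr k s = s) {i : ℕ}
    (h1 : 1 ≤ i) (h2 : i ≤ N) {x g : Gam p} {c : Fin 3} (hg : g ∈ Kall 𝔇 s)
    (hx : s x (i, some c) ≠ 0) (e : t (g * x) (i, some c) = s x (i, some c)) :
    s x (i, some c) ∈ (𝔇 i).Z c ∧ Le (tr x ((𝔇 i).τ c (s x (i, some c)))) s ∧
      ∀ l ∈ (𝔇 i).L c (s x (i, some c)), tr (x * l * x⁻¹) s = s := by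
  obtain ⟨h3, h4, -⟩ := h.1.1 i h1 h2 (g * x) c (e ▸ hx)
  rw [e] at h3 h4
  refine ⟨h3, ?_, fun l hl => hs _ (K_le_Kall i s (mem_K h1 le_rfl hx hl))⟩
  have h5 := h4.trans hl
  rwa [tr_mul, le_tr_iff, stab_inv (hs g hg)] at h5

/-- the weight of the common part -/
theorem prod_common {B : St p} (h : Good 𝔇 N t) (hB : Good 𝔇 N B) (hl : Le B t)
    {F F' : Finset (Gam p × Kind)} (hF : IsTr 𝔇 t F) (hs : F' ⊆ F)
    (h1 : ∀ a ∈ F, a ∈ F' ↔ ∃ b, B b a.2 ≠ 0 ∧ b * a.1⁻¹ ∈ Kall 𝔇 t)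
    (h2 : ∀ k ∈ Kall 𝔇 t, ∀ b κ, B b κ ≠ 0 → B (k * b) κ ≠ 0 → k ∈ Kall 𝔇 B) :
    W 𝔇 B = ∏ a ∈ F', wt 𝔇 a.2 (t a.1 a.2) := by
  obtain ⟨E, hE⟩ := hB.2.2
  rw [W_eq (fun _ hk => hB.stab hk) hE]
  choose φ e1 e2 e3 using fun (b : Gam p × Kind) (hb : b ∈ E) =>
    hF.2.2 b.1 b.2 (hl.ne (hE.1 b hb))
  refine Finset.prod_bij φ (fun b hb => (h1 _ (e1 b hb)).2 ⟨b.1, by rw [e2]; exact hE.1 b hb,
    by simpa using inv_mem (e3 b hb)⟩) (fun b hb b' hb' e => ?_) (fun a ha => ?_) fun b hb => ?_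
  · have e4 : b.2 = b'.2 := by rw [← e2 b hb, e, e2]
    have e5 := mul_mem (inv_mem (e3 b' hb')) (e3 b hb)
    rw [e] at e5
    have e6 : b'.1 * b.1⁻¹ ∈ Kall 𝔇 t := by simpa [mul_assoc] using e5
    exact hE.2.1 b hb b' hb' e4 (h2 _ e6 b.1 b.2 (hE.1 b hb) (by simpa [e4] using hE.1 b' hb'))
  · obtain ⟨b, hb, hk⟩ := (h1 a (hs ha)).1 ha
    obtain ⟨b', hb', e4, e5⟩ := hE.2.2 b a.2 hb
    refine ⟨b', hb', (hF.2.1 a (hs ha) _ (e1 b' hb') (by rw [e2, e4]) ?_).symm⟩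
    simpa [mul_assoc] using mul_mem (e3 b' hb') (mul_mem (Kall_mono hl e5) hk)
  · rw [e2, app_eq h (e3 b hb), hl b.1 b.2 (hE.1 b hb)]

end Glue

open Glue in
theorem glue : GlueStmt := by
  intro p 𝔇 N s₁ s₂ B g₁ g₂ gB l₁ l₂ a₁ a₂ a₃ a₄
  classical
  obtain ⟨H, hH⟩ : ∃ H, H = Kall 𝔇 s₁ ⊔ Kall 𝔇 s₂ := ⟨_, rfl⟩
  rw [← hH] at a₁ a₂ a₃ ⊢
  have k₁ : Kall 𝔇 s₁ ≤ H := hH ▸ le_sup_left
  have k₂ : Kall 𝔇 s₂ ≤ H := hH ▸ le_sup_right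
  let R : Gam p → Kind → ℕ → Prop := fun q κ v =>
    v ≠ 0 ∧ ∃ h ∈ H, s₁ (h * q) κ = v ∨ s₂ (h * q) κ = v
  have mix : ∀ h ∈ H, ∀ h' ∈ H, ∀ q κ, s₁ (h * q) κ ≠ 0 → s₂ (h' * q) κ ≠ 0 →
      s₁ (h * q) κ = s₂ (h' * q) κ := fun h hh h' hh' q κ e e' => by
    obtain ⟨b, b1, b2, b3⟩ := a₃ _ (mul_mem hh' (inv_mem hh)) _ κ e (by simpa [mul_assoc] using e')
    rw [← app_eq g₁ b2, l₁ b κ b1, ← l₂ b κ b1, app_eq g₂ b3]
    simp [mul_assoc]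
  have same : ∀ t : St p, Good 𝔇 N t →
      (∀ h ∈ H, ∀ u κ, t u κ ≠ 0 → t (h * u) κ ≠ 0 → h ∈ Kall 𝔇 t) →
      ∀ h ∈ H, ∀ h' ∈ H, ∀ q κ, t (h * q) κ ≠ 0 → t (h' * q) κ ≠ 0 →
      t (h * q) κ = t (h' * q) κ := fun t g a h hh h' hh' q κ e e' => by
    have := a _ (mul_mem hh' (inv_mem hh)) _ κ e (by simpa [mul_assoc] using e')
    rw [app_eq g (a := h * q) (b := h' * q) (by simpa [mul_assoc] using this)]
  have uniq : ∀ q κ v v', R q κ v → R q κ v' → v = v' := by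
    rintro q κ v v' ⟨h0, h, hh, rfl | rfl⟩ ⟨h0', h', hh', rfl | rfl⟩
    · exact same s₁ g₁ a₁ h hh h' hh' q κ h0 h0'
    · exact mix h hh h' hh' q κ h0 h0'
    · exact (mix h' hh' h hh q κ h0' h0).symm
    · exact same s₂ g₂ a₂ h hh h' hh' q κ h0 h0'
  obtain ⟨s, sa, sb⟩ : ∃ s : St p, (∀ q κ, s q κ ≠ 0 → R q κ (s q κ)) ∧
      ∀ q κ v, R q κ v → s q κ = v := by
    refine ⟨fun q κ => if h : ∃ v, R q κ v then h.choose else 0, fun q κ h0 => ?_,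
      fun q κ v hv => ?_⟩
    · by_cases h : ∃ v, R q κ v
      · simpa only [dif_pos h] using h.choose_spec
      · exact absurd (dif_neg h) h0
    · have h : ∃ v, R q κ v := ⟨v, hv⟩
      exact (dif_pos h).trans (uniq q κ _ _ h.choose_spec hv)
  have mv : ∀ k ∈ H, ∀ q κ, s q κ ≠ 0 → s (k * q) κ = s q κ := fun k hk q κ h0 => by
    obtain ⟨-, h, hh, e⟩ := sa q κ h0
    exact sb _ _ _ ⟨h0, h * k⁻¹, mul_mem hh (inv_mem hk), by simpa [mul_assoc] using e⟩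
  have stab : ∀ k ∈ H, tr k s = s := fun k hk => Le.antisymm
    (fun x κ h0 => by simpa [tr] using mv k hk _ κ h0) fun x κ h0 => mv _ (inv_mem hk) x κ h0
  have m₁ : Le s₁ s := fun x κ h0 => sb _ _ _ ⟨h0, 1, one_mem _, Or.inl (by rw [one_mul])⟩
  have m₂ : Le s₂ s := fun x κ h0 => sb _ _ _ ⟨h0, 1, one_mem _, Or.inr (by rw [one_mul])⟩
  have hK : Kall 𝔇 s = H := by
    refine le_antisymm ((Subgroup.closure_le _).2 ?_) (hH ▸ sup_le (Kall_mono m₁) (Kall_mono m₂))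
    rintro u ⟨i, c, x, h1, h0, hu⟩
    obtain ⟨-, h, hh, e⟩ := sa _ _ h0
    have : h * x * (x⁻¹ * u * x) * (h * x)⁻¹ ∈ H := by
      rcases e with e | e
      · exact k₁ (K_le_Kall i _ (mem_K h1 le_rfl (e ▸ h0) (e ▸ hu)))
      · exact k₂ (K_le_Kall i _ (mem_K h1 le_rfl (e ▸ h0) (e ▸ hu)))
    simpa [mul_assoc] using mul_mem (mul_mem (inv_mem hh) this) hh
  have stab' : ∀ k ∈ Kall 𝔇 s, tr k s = s := hK ▸ stab
  obtain ⟨F₁, t₁⟩ := g₁.2.2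
  obtain ⟨F₂, t₂⟩ := g₂.2.2
  have tF : IsTr 𝔇 s (F₁ ∪ F₂.filter fun a => ¬ ∃ h ∈ H, s₁ (h * a.1) a.2 ≠ 0) := by
    refine ⟨fun a ha => ?_, fun a ha b hb e hk => ?_, fun x κ h0 => ?_⟩
    · rcases Finset.mem_union.1 ha with ha | ha
      · exact m₁.ne (t₁.1 a ha)
      · exact m₂.ne (t₂.1 a (Finset.mem_filter.1 ha).1)
    · rw [hK] at hk
      simp only [Finset.mem_union, Finset.mem_filter] at ha hb
      rcases ha with ha | ha <;> rcases hb with hb | hb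
      · exact t₁.2.1 a ha b hb e (a₁ _ hk a.1 a.2 (t₁.1 a ha) (by simpa [e] using t₁.1 b hb))
      · exact absurd ⟨_, inv_mem hk, by simpa [← e, mul_assoc] using t₁.1 a ha⟩ hb.2
      · exact absurd ⟨_, hk, by simpa [e] using t₁.1 b hb⟩ ha.2
      · exact t₂.2.1 a ha.1 b hb.1 e
          (a₂ _ hk a.1 a.2 (t₂.1 a ha.1) (by simpa [e] using t₂.1 b hb.1))
    · rw [hK]
      by_cases h1 : ∃ h ∈ H, s₁ (h * x) κ ≠ 0
      · obtain ⟨h, hh, e⟩ := h1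
        obtain ⟨a, ha, e1, e2⟩ := t₁.2.2 _ κ e
        exact ⟨a, Finset.mem_union_left _ ha, e1,
          by simpa [mul_assoc] using mul_mem (k₁ e2) hh⟩
      · obtain ⟨-, h, hh, e | e⟩ := sa x κ h0
        · exact absurd ⟨h, hh, e ▸ h0⟩ h1
        obtain ⟨a, ha, e1, e2⟩ := t₂.2.2 _ κ (e ▸ h0)
        have e3 : a.1 * x⁻¹ ∈ H := by simpa [mul_assoc] using mul_mem (k₂ e2) hh
        refine ⟨a, Finset.mem_union_right _ (Finset.mem_filter.2 ⟨ha, ?_⟩), e1, e3⟩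
        rintro ⟨h', hh', e4⟩
        exact h1 ⟨_, mul_mem hh' e3, by simpa [mul_assoc, e1] using e4⟩
  refine ⟨s, ⟨⟨fun i h1 h2 x c h0 => ?_, fun i h1 h2 x => ?_⟩, fun x κ h0 => ?_, _, tF⟩, m₁, m₂,
    hK, fun q κ h0 => ?_, ?_, fun o ho o₁ o₂ q κ h0 => ?_⟩
  · obtain ⟨-, h, hh, e | e⟩ := sa _ _ h0
    · exact valAt g₁ m₁ stab' h1 h2 (hK ▸ hh) h0 e
    · exact valAt g₂ m₂ stab' h1 h2 (hK ▸ hh) h0 e
  · by_cases h0 : s x (i, none) = 0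
    · exact h0 ▸ Nat.zero_le _
    obtain ⟨-, h, hh, e | e⟩ := sa _ _ h0
    · exact e ▸ g₁.1.2 i h1 h2 _
    · exact e ▸ g₂.1.2 i h1 h2 _
  · obtain ⟨-, h, hh, e | e⟩ := sa _ _ h0
    · exact g₁.2.1 _ κ (e ▸ h0)
    · exact g₂.2.1 _ κ (e ▸ h0)
  · obtain ⟨-, h, hh, e | e⟩ := sa _ _ h0
    · exact ⟨h, hK ▸ hh, Or.inl (e ▸ h0)⟩
    · exact ⟨h, hK ▸ hh, Or.inr (e ▸ h0)⟩
  · have hd : Disjoint F₁ (F₂.filter fun a => ¬ ∃ h ∈ H, s₁ (h * a.1) a.2 ≠ 0) :=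
      Finset.disjoint_left.2 fun a ha ha' =>
        (Finset.mem_filter.1 ha').2 ⟨1, one_mem _, by simpa using t₁.1 a ha⟩
    rw [W_eq stab' tF, Finset.prod_union hd,
      W_eq (fun _ hk => g₁.stab hk) t₁, W_eq (fun _ hk => g₂.stab hk) t₂,
      ← Finset.prod_filter_mul_prod_filter_not F₂ (fun a => ∃ h ∈ H, s₁ (h * a.1) a.2 ≠ 0),
      prod_common g₂ gB l₂ t₂ (Finset.filter_subset (fun a => ∃ h ∈ H, s₁ (h * a.1) a.2 ≠ 0) _)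
        (fun a ha => ?_) a₄,
      Finset.prod_congr rfl fun a ha => by rw [m₁ a.1 a.2 (t₁.1 a ha)],
      Finset.prod_congr (s₁ := F₂.filter _) rfl fun a ha => by
        rw [m₂ a.1 a.2 (t₂.1 a (Finset.mem_filter.1 ha).1)]]
    · ring
    · rw [Finset.mem_filter, and_iff_right ha]
      refine ⟨fun ⟨h, hh, e⟩ => ?_, fun ⟨b, hb, e⟩ => ⟨_, k₂ e, by simpa using l₁.ne hb⟩⟩
      obtain ⟨b, b1, -, b3⟩ := a₃ _ (inv_mem hh) _ _ e (by simpa using t₂.1 a ha)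
      exact ⟨b, b1, by simpa using b3⟩
  · obtain ⟨-, h, hh, e⟩ := sa _ _ h0
    have hk : H ≤ K 𝔇 N o := by
      rw [hH, Kall_eq g₁.2.1, Kall_eq g₂.2.1]
      exact sup_le (K_mono le_rfl o₁) (K_mono le_rfl o₂)
    rw [← apply_of_stab (ho.1.stab (hk hh)) q]
    rcases e with e | e
    · rw [o₁ _ κ (e ▸ h0), e]
    · rw [o₂ _ κ (e ▸ h0), e]

end Pool.Agent.MP_735563_an.H2
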