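import Pool.Agent.MP_735563_an.H2.SC

set_option autoImplicit false

/-! Row Gr: the Greendlinger lemma, by windmills written with projections only. -/

namespace Pool.Agent.MP_735563_an.H2

namespace Gr

variable {G : Type} [Group G]

/-- largest distance between projections of `y` and `y'` -/
noncomputable def D (d : G → G → ℕ) (T : Set G × Subgroup G) (y y' : G) : ℕ :=
  sSup {n | ∃ a b, Prj d T.1 y a ∧ Prj d T.1 y' b ∧ d a b = n}

theorem cj_one (T : Set G × Subgroup G) : cj 1 T = T := by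
  simp [cj, cjs_one]

theorem cj_mul (a b : G) (T : Set G × Subgroup G) : cj (a * b) T = cj a (cj b T) := by
  refine Prod.ext ?_ (cjs_mul a b T.2)
  simp only [cj, Set.image_image, mul_assoc]

theorem cj_inj {k : G} {T T' : Set G × Subgroup G} (h : cj k T = cj k T') : T = T' := by
  have := congrArg (cj k⁻¹) h
  rwa [← cj_mul, ← cj_mul, inv_mul_cancel, cj_one, cj_one] at this

theorem mem_cj {k c : G} {T : Set G × Subgroup G} (h : c ∈ T.1) : k * c ∈ (cj k T).1 :=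
  ⟨c, h, rfl⟩

theorem D_le {d : G → G → ℕ} {T : Set G × Subgroup G} {y y' : G} {R : ℕ}
    (h : ∀ a b, Prj d T.1 y a → Prj d T.1 y' b → d a b ≤ R) : D d T y y' ≤ R := by
  refine csSup_le' ?_
  rintro n ⟨a, b, ha, hb, rfl⟩
  exact h a b ha hb

/-- the subgroups of the windmill -/
def HH (d : G → G → ℕ) (K : Subgroup G) (𝒯 : Set (Set G × Subgroup G)) (x : G) (m : ℕ) :
    Subgroup G :=
  K ⊔ ⨆ T ∈ {T | T ∈ 𝒯 ∧ ∃ c ∈ T.1, d x c < m}, T.2

/-- absorbed cores -/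
def Ab (d : G → G → ℕ) (K : Subgroup G) (𝒯 : Set (Set G × Subgroup G)) (x : G) (m : ℕ)
    (T : Set G × Subgroup G) : Prop :=
  ∃ h ∈ HH d K 𝒯 x m, ∃ c ∈ T.1, d (h * x) c < m

/-- the next cores -/
def NN (d : G → G → ℕ) (K : Subgroup G) (𝒯 : Set (Set G × Subgroup G)) (x : G) (m : ℕ)
    (T : Set G × Subgroup G) : Prop :=
  T ∈ 𝒯 ∧ ¬Ab d K 𝒯 x m T ∧ ∃ h ∈ HH d K 𝒯 x m, ∃ c ∈ T.1, d (h * x) c ≤ m

/-- reduced words that do not start in `S` -/
inductive Wd (d : G → G → ℕ) (K : Subgroup G) (𝒯 : Set (Set G × Subgroup G)) (x : G) (m : ℕ) :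
    Option (Set G × Subgroup G) → G → Prop
  | nil (S : Option (Set G × Subgroup G)) (h : G) : h ∈ HH d K 𝒯 x m → Wd d K 𝒯 x m S h
  | cons (S : Option (Set G × Subgroup G)) (T : Set G × Subgroup G) (μ w : G) :
      NN d K 𝒯 x m T → S ≠ some T → μ ∈ T.2 → μ ∉ K → Wd d K 𝒯 x m (some T) w →
      Wd d K 𝒯 x m S (μ * w)

/-- `y` hangs at `x'` as seen from `T` -/
def Att (d : G → G → ℕ) (K : Subgroup G) (𝒯 : Set (Set G × Subgroup G)) (x : G) (v m : ℕ)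
    (T : Set G × Subgroup G) (t y x' : G) : Prop :=
  d y x' = 0 ∨ ∃ C ∈ 𝒯, ∃ c ∈ C.1, C ≠ T ∧ 1000 * v ≤ D d C y t ∧
    (∀ ν ∈ HH d K 𝒯 x m, d x' c ≤ d x' (ν * c)) ∧ D d T x' c ≤ 20 * v

/-- the gate property at level `m` -/
def Gate (d : G → G → ℕ) (K : Subgroup G) (𝒯 : Set (Set G × Subgroup G)) (x : G) (v m : ℕ) :
    Prop :=
  ∀ T ∈ 𝒯, ¬Ab d K 𝒯 x m T → ∀ t ∈ T.1, ∀ h₁ ∈ HH d K 𝒯 x m, ∀ h₂ ∈ HH d K 𝒯 x m, ∀ y₁ y₂,
    Att d K 𝒯 x v m T t y₁ (h₁ * x) → Att d K 𝒯 x v m T t y₂ (h₂ * x) → D d T y₁ y₂ ≤ 160 * v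

variable {d : G → G → ℕ} {K G' : Subgroup G} {𝒯 : Set (Set G × Subgroup G)} {δ κ Δ g E : ℕ}
  {x : G} {m : ℕ}

theorem HH_mono (d : G → G → ℕ) (K : Subgroup G) (𝒯 : Set (Set G × Subgroup G)) (x : G) :
    Monotone (HH d K 𝒯 x) := by
  intro a b hab
  refine sup_le_sup_left (biSup_mono ?_) K
  rintro T ⟨h1, c, hc, h2⟩
  exact ⟨h1, c, hc, by omega⟩

theorem K_le : K ≤ HH d K 𝒯 x m := le_sup_left

theorem T_le {T : Set G × Subgroup G} (hT : T ∈ 𝒯) {c : G} (hc : c ∈ T.1) (h : d x c < m) :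
    T.2 ≤ HH d K 𝒯 x m :=
  le_sup_of_le_right (le_iSup₂_of_le
    (f := fun (T : Set G × Subgroup G) (_ : T ∈ {T | T ∈ 𝒯 ∧ ∃ c ∈ T.1, d x c < m}) => T.2)
    T ⟨hT, c, hc, h⟩ le_rfl)

theorem HH_le (H : SC d K G' 𝒯 δ κ Δ g E) : HH d K 𝒯 x m ≤ G' :=
  sup_le H.le (iSup₂_le fun T hT => (H.sub T hT.1).2)

theorem K_conj (H : SC d K G' 𝒯 δ κ Δ g E) {h k : G} (hh : h ∈ G') (hk : k ∈ K) :
    h * k * h⁻¹ ∈ K := by
  have h1 : d 1 k = 0 := (H.zero 1 k).2 (by simpa using hk)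
  rw [← H.inv h hh, mul_one] at h1
  exact (H.zero _ _).1 h1

theorem cj_self (H : SC d K G' 𝒯 δ κ Δ g E) {T : Set G × Subgroup G} (hT : T ∈ 𝒯) {μ : G}
    (hμ : μ ∈ T.2) : cj μ T = T := by
  refine Prod.ext (Set.Subset.antisymm ?_ fun c hc => ?_) (cjs_of_mem hμ)
  · rintro _ ⟨c, hc, rfl⟩
    exact H.pres T hT μ hμ c hc
  · exact ⟨μ⁻¹ * c, H.pres T hT _ (T.2.inv_mem hμ) c hc, by simp⟩

theorem prj_cj (H : SC d K G' 𝒯 δ κ Δ g E) {h : G} (hh : h ∈ G') {T : Set G × Subgroup G}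
    {y a : G} (ha : Prj d T.1 y a) : Prj d (cj h T).1 (h * y) (h * a) := by
  refine ⟨mem_cj ha.1, ?_⟩
  rintro _ ⟨c, hc, rfl⟩
  rw [H.inv h hh, H.inv h hh]
  exact ha.2 c hc

theorem prj_self (H : SC d K G' 𝒯 δ κ Δ g E) {T : Set G × Subgroup G} (hT : T ∈ 𝒯) {μ : G}
    (hμ : μ ∈ T.2) {y a : G} (ha : Prj d T.1 y a) : Prj d T.1 (μ * y) (μ * a) := by
  have := prj_cj H ((H.sub T hT).2 hμ) ha
  rwa [cj_self H hT hμ] at this

theorem prj_near (H : SC d K G' 𝒯 δ κ Δ g E) {T : Set G × Subgroup G} (hT : T ∈ 𝒯) {y a a' : G}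
    (ha : Prj d T.1 y a) (ha' : Prj d T.1 y a') : d a a' ≤ 2 * (κ + 4 * δ) + 1 := by
  have h1 := H.met.prj1 (a := 0) (H.qc T hT) ha.1 (fun e he => by simpa using ha.2 e he) ha'.1
  have h2 := ha'.2 a ha.1
  omega

theorem le_D (H : SC d K G' 𝒯 δ κ Δ g E) {T : Set G × Subgroup G} (hT : T ∈ 𝒯) {y y' a b : G}
    (ha : Prj d T.1 y a) (hb : Prj d T.1 y' b) : d a b ≤ D d T y y' := by
  refine le_csSup ⟨d a b + 2 * (2 * (κ + 4 * δ) + 1), ?_⟩ ⟨a, b, ha, hb, rfl⟩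
  rintro n ⟨a', b', ha', hb', rfl⟩
  have := prj_near H hT ha' ha
  have := prj_near H hT hb hb'
  have := H.met.tri a' a b'
  have := H.met.tri a b b'
  omega

theorem D_symm (H : SC d K G' 𝒯 δ κ Δ g E) {T : Set G × Subgroup G} (hT : T ∈ 𝒯) (y y' : G) :
    D d T y y' = D d T y' y := by
  apply le_antisymm <;>
    exact D_le fun a b ha hb => by rw [H.met.symm]; exact le_D H hT hb ha

theorem D_tri (H : SC d K G' 𝒯 δ κ Δ g E) {T : Set G × Subgroup G} (hT : T ∈ 𝒯) (y z y' : G) :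
    D d T y y' ≤ D d T y z + D d T z y' := by
  obtain ⟨c, hc⟩ := exists_prj d (H.ne T hT) z
  refine D_le fun a b ha hb => ?_
  have := le_D H hT ha hc
  have := le_D H hT hc hb
  have := H.met.tri a c b
  omega

theorem D_cj_le (H : SC d K G' 𝒯 δ κ Δ g E) {h : G} (hh : h ∈ G') {T : Set G × Subgroup G}
    (hT : T ∈ 𝒯) (y y' : G) : D d T y y' ≤ D d (cj h T) (h * y) (h * y') :=
  D_le fun a b ha hb => by
    rw [← H.inv h hh]
    exact le_D H (H.conj h hh T hT) (prj_cj H hh ha) (prj_cj H hh hb)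

theorem D_cj (H : SC d K G' 𝒯 δ κ Δ g E) {h : G} (hh : h ∈ G') {T : Set G × Subgroup G}
    (hT : T ∈ 𝒯) (y y' : G) : D d (cj h T) (h * y) (h * y') = D d T y y' := by
  refine le_antisymm ?_ (D_cj_le H hh hT y y')
  have := D_cj_le H (G'.inv_mem hh) (H.conj h hh T hT) (h * y) (h * y')
  rwa [← cj_mul, inv_mul_cancel, cj_one, inv_mul_cancel_left, inv_mul_cancel_left] at this

theorem D_self (H : SC d K G' 𝒯 δ κ Δ g E) {T : Set G × Subgroup G} (hT : T ∈ 𝒯) {μ : G}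
    (hμ : μ ∈ T.2) (y y' : G) : D d T (μ * y) (μ * y') = D d T y y' := by
  have := D_cj H ((H.sub T hT).2 hμ) hT y y'
  rwa [cj_self H hT hμ] at this

theorem D_disp (H : SC d K G' 𝒯 δ κ Δ g E) {T : Set G × Subgroup G} (hT : T ∈ 𝒯) {μ : G}
    (hμ : μ ∈ T.2) (hK : μ ∉ K) (y : G) : g ≤ D d T y (μ * y) := by
  obtain ⟨a, ha⟩ := exists_prj d (H.ne T hT) y
  exact (H.disp T hT μ hμ hK a ha.1).trans (le_D H hT ha (prj_self H hT hμ ha))

/-- a point that is closer than the core has a close projection -/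
theorem D_closer (H : SC d K G' 𝒯 δ κ Δ g E) {T : Set G × Subgroup G} (hT : T ∈ 𝒯) {y c : G}
    (h : ∀ c' ∈ T.1, d y c ≤ d y c') : D d T y c ≤ 20 * (δ + κ + Δ + 1) :=
  D_le fun a b ha hb => by
    have := H.met.bridge (H.qc T hT) ha hb
    have := h a ha.1
    omega

theorem near_core (H : SC d K G' 𝒯 δ κ Δ g E) {T : Set G × Subgroup G} (hT : T ∈ 𝒯) {y y' a : G}
    (hy : y ∈ T.1) (hy' : y' ∈ T.1) (h : d y a + d a y' ≤ d y y' + (4 * κ + 18 * δ + 2)) :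
    ∃ c ∈ T.1, d a c ≤ 1000 * (δ + κ + 1) := by
  obtain ⟨q, hq1, hq2⟩ := H.met.geo y y' (min (d y a) (d y y')) (min_le_right _ _)
  have h1 := H.met.near (r' := 4 * κ + 18 * δ + 2) h hq2 (by omega) (by omega)
  obtain ⟨c, hc, h2⟩ := H.qc T hT y hy y' hy' q hq2
  refine ⟨c, hc, ?_⟩
  have := H.met.tri a q c
  have := H.met.symm a q
  omega

/-- a core has a small projection on another core -/
theorem D_core (H : SC d K G' 𝒯 δ κ Δ g E) {T T' : Set G × Subgroup G} (hT : T ∈ 𝒯)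
    (hT' : T' ∈ 𝒯) (hne : T ≠ T') {y y' : G} (hy : y ∈ T'.1) (hy' : y' ∈ T'.1) :
    D d T y y' ≤ 10 * (δ + κ + Δ + 1) :=
  D_le fun a b ha hb => by
    rcases H.met.bridge (H.qc T hT) ha hb with h | h
    · omega
    · obtain ⟨c, hc, h1⟩ := near_core H hT' (a := a) hy hy' (by
        have := H.met.tri a b y'; omega)
      obtain ⟨c', hc', h2⟩ := near_core H hT' (a := b) hy hy' (by
        have := H.met.tri y a b; omega)
      have := H.ov T hT T' hT' hne a ha.1 b hb.1 c hc c' hc' h1 h2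
      omega

/-- the inequality of Behrstock -/
theorem behr (H : SC d K G' 𝒯 δ κ Δ g E) {T T' : Set G × Subgroup G} (hT : T ∈ 𝒯)
    (hT' : T' ∈ 𝒯) (hne : T ≠ T') {e e' : G} (he : e ∈ T.1) (he' : e' ∈ T'.1) (y : G) :
    D d T y e' ≤ 30 * (δ + κ + Δ + 1) ∨ D d T' y e ≤ 30 * (δ + κ + Δ + 1) := by
  obtain ⟨a, ha⟩ := exists_prj d (H.ne T hT) y
  obtain ⟨a', ha'⟩ := exists_prj d (H.ne T' hT') y
  rcases le_total (d y a) (d y a') with h | h
  · right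
    have := D_closer H hT' (y := y) (c := a) fun c' hc' => h.trans (ha'.2 c' hc')
    have := D_core H hT' hT hne.symm ha.1 he
    have := D_tri H hT' y a e
    omega
  · left
    have := D_closer H hT (y := y) (c := a') fun c' hc' => h.trans (ha.2 c' hc')
    have := D_core H hT hT' hne ha'.1 he'
    have := D_tri H hT y a' e'
    omega

theorem D_min (H : SC d K G' 𝒯 δ κ Δ g E) {S : Set G × Subgroup G} (hS : S ∈ 𝒯) {μ y c : G}
    (hμ : μ ∈ S.2) (h : d y c ≤ d y (μ * c)) :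
    D d S y c ≤ D d S y (μ * c) + 20 * (δ + κ + Δ + 1) :=
  D_le fun a p ha hp => by
    have := H.met.bridge (H.qc S hS) ha hp
    have := le_D H hS ha (prj_self H hS hμ hp)
    have := H.inv μ ((H.sub S hS).2 hμ) p c
    have := H.met.tri y a (μ * c)
    have := H.met.tri a (μ * p) (μ * c)
    omega

theorem D_zero (H : SC d K G' 𝒯 δ κ Δ g E) {T : Set G × Subgroup G} (hT : T ∈ 𝒯) {y c : G}
    (h : d y c = 0) : D d T y c ≤ 20 * (δ + κ + Δ + 1) :=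
  D_closer H hT fun c' _ => by omega

theorem Ab_of_cj (H : SC d K G' 𝒯 δ κ Δ g E) {k : G} (hk : k ∈ HH d K 𝒯 x m)
    {T : Set G × Subgroup G} (h : Ab d K 𝒯 x m (cj k T)) : Ab d K 𝒯 x m T := by
  obtain ⟨h, hh, _, ⟨c, hc, rfl⟩, h1⟩ := h
  refine ⟨k⁻¹ * h, Subgroup.mul_mem _ (Subgroup.inv_mem _ hk) hh, c, hc, ?_⟩
  rw [← H.inv k (HH_le H hk)]
  simpa [mul_assoc] using h1

theorem Ab_mono {T : Set G × Subgroup G} (h : Ab d K 𝒯 x m T) : Ab d K 𝒯 x (m + 1) T := by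
  obtain ⟨h, hh, c, hc, h1⟩ := h
  exact ⟨h, HH_mono d K 𝒯 x (Nat.le_succ m) hh, c, hc, by omega⟩

theorem NN.ab {T : Set G × Subgroup G} (h : NN d K 𝒯 x m T) : Ab d K 𝒯 x (m + 1) T := by
  obtain ⟨-, -, h, hh, c, hc, h1⟩ := h
  exact ⟨h, HH_mono d K 𝒯 x (Nat.le_succ m) hh, c, hc, by omega⟩

theorem Ab_le (H : SC d K G' 𝒯 δ κ Δ g E) {T : Set G × Subgroup G} (hT : T ∈ 𝒯)
    (h : Ab d K 𝒯 x m T) : T.2 ≤ HH d K 𝒯 x m := by
  obtain ⟨h, hh, c, hc, h1⟩ := h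
  have hG := HH_le H hh
  have h2 : (cj h⁻¹ T).2 ≤ HH d K 𝒯 x m := by
    refine T_le (H.conj _ (G'.inv_mem hG) T hT) (mem_cj hc) ?_
    rw [← H.inv h hG]
    simpa using h1
  intro μ hμ
  have h3 : h⁻¹ * μ * h ∈ HH d K 𝒯 x m := h2 (mem_cjs.2 (by simpa [mul_assoc] using hμ))
  have := Subgroup.mul_mem _ (Subgroup.mul_mem _ hh h3) (Subgroup.inv_mem _ hh)
  simpa [mul_assoc] using this

theorem NN.cj (H : SC d K G' 𝒯 δ κ Δ g E) {k : G} (hk : k ∈ HH d K 𝒯 x m)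
    {T : Set G × Subgroup G} (h : NN d K 𝒯 x m T) : NN d K 𝒯 x m (cj k T) := by
  obtain ⟨h0, h1, h, hh, c, hc, h2⟩ := h
  refine ⟨H.conj k (HH_le H hk) T h0, fun h3 => h1 (Ab_of_cj H hk h3), k * h,
    Subgroup.mul_mem _ hk hh, k * c, mem_cj hc, ?_⟩
  rwa [mul_assoc, H.inv k (HH_le H hk)]

theorem Wd.weak {S : Option (Set G × Subgroup G)} {w : G} (h : Wd d K 𝒯 x m S w) :
    Wd d K 𝒯 x m none w := by
  cases h with
  | nil _ _ h => exact .nil _ _ h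
  | cons _ T μ w h1 _ h3 h4 h5 => exact .cons _ T μ w h1 (by simp) h3 h4 h5

theorem Wd.conj (H : SC d K G' 𝒯 δ κ Δ g E) {k : G} (hk : k ∈ HH d K 𝒯 x m)
    {S : Option (Set G × Subgroup G)} {w : G} (h : Wd d K 𝒯 x m S w) :
    Wd d K 𝒯 x m (S.map (cj k)) (k * w) := by
  induction h with
  | nil S h hh => exact .nil _ _ (Subgroup.mul_mem _ hk hh)
  | cons S T μ w h1 h2 h3 h4 _ ih =>
    have e : k * (μ * w) = (k * μ * k⁻¹) * (k * w) := by group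
    rw [e]
    refine .cons _ (cj k T) _ _ (h1.cj H hk) ?_ (mem_cjs.2 (by simpa [mul_assoc] using h3)) ?_ ih
    · cases S with
      | none => simp
      | some S =>
        intro h6
        exact h2 (congrArg some (cj_inj (Option.some.inj h6)))
    · intro h6
      have := K_conj H (G'.inv_mem (HH_le H hk)) h6
      exact h4 (by simpa [mul_assoc] using this)

theorem Wd.mul (H : SC d K G' 𝒯 δ κ Δ g E) {T : Set G × Subgroup G} (hT : NN d K 𝒯 x m T)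
    {μ w : G} (hμ : μ ∈ T.2) (h : Wd d K 𝒯 x m none w) : Wd d K 𝒯 x m none (μ * w) := by
  by_cases hK : μ ∈ K
  · exact h.conj H (K_le hK)
  cases h with
  | nil _ _ h => exact .cons _ T μ _ hT (by simp) hμ hK (.nil _ _ h)
  | cons _ T' μ' w h1 _ h3 h4 h5 =>
    by_cases hTT : T = T'
    · subst hTT
      rw [← mul_assoc]
      by_cases h6 : μ * μ' ∈ K
      · exact h5.weak.conj H (K_le h6)
      · exact .cons _ T _ w hT (by simp) (T.2.mul_mem hμ h3) h6 h5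
    · exact .cons _ T μ _ hT (by simp) hμ hK
        (.cons _ T' μ' w h1 (fun h6 => hTT (Option.some.inj h6)) h3 h4 h5)

theorem exists_wd (H : SC d K G' 𝒯 δ κ Δ g E) {h : G} (hh : h ∈ HH d K 𝒯 x (m + 1)) :
    Wd d K 𝒯 x m none h := by
  let P : Subgroup G :=
    { carrier := {a | (∀ w, Wd d K 𝒯 x m none w → Wd d K 𝒯 x m none (a * w)) ∧
        ∀ w, Wd d K 𝒯 x m none w → Wd d K 𝒯 x m none (a⁻¹ * w)}
      one_mem' := ⟨fun w hw => by simpa using hw, fun w hw => by simpa using hw⟩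
      mul_mem' := fun {a b} ha hb => ⟨fun w hw => by
          rw [mul_assoc]; exact ha.1 _ (hb.1 w hw), fun w hw => by
          rw [mul_inv_rev, mul_assoc]; exact hb.2 _ (ha.2 w hw)⟩
      inv_mem' := fun {a} ha => ⟨ha.2, fun w hw => by rw [inv_inv]; exact ha.1 w hw⟩ }
  have h1 : HH d K 𝒯 x m ≤ P := fun k hk =>
    ⟨fun w hw => hw.conj H hk, fun w hw => hw.conj H (Subgroup.inv_mem _ hk)⟩
  have h2 : HH d K 𝒯 x (m + 1) ≤ P := by
    refine sup_le (K_le.trans h1) (iSup₂_le ?_)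
    rintro T ⟨hT, c, hc, h3⟩
    by_cases h4 : Ab d K 𝒯 x m T
    · exact (Ab_le H hT h4).trans h1
    · have h5 : NN d K 𝒯 x m T :=
        ⟨hT, h4, 1, Subgroup.one_mem _, c, hc, by rw [one_mul]; omega⟩
      exact fun μ hμ => ⟨fun w hw => hw.mul H h5 hμ, fun w hw => hw.mul H h5 (T.2.inv_mem hμ)⟩
  simpa using (h2 hh).1 1 (.nil _ _ (Subgroup.one_mem _))

theorem Gate.plain (H : SC d K G' 𝒯 δ κ Δ g E) (hG : Gate d K 𝒯 x (δ + κ + Δ + 1) m)
    {T : Set G × Subgroup G} (hT : T ∈ 𝒯) (hA : ¬Ab d K 𝒯 x m T) {h : G}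
    (hh : h ∈ HH d K 𝒯 x m) : D d T x (h * x) ≤ 160 * (δ + κ + Δ + 1) := by
  obtain ⟨t, ht⟩ := H.ne T hT
  exact hG T hT hA t ht 1 (Subgroup.one_mem _) h hh x (h * x)
    (Or.inl (by rw [one_mul]; exact H.met.refl x)) (Or.inl (H.met.refl _))

theorem Gate.next (H : SC d K G' 𝒯 δ κ Δ g E) (hG : Gate d K 𝒯 x (δ + κ + Δ + 1) m)
    {T T' : Set G × Subgroup G} (hT : NN d K 𝒯 x m T) (hT' : NN d K 𝒯 x m T') (hne : T ≠ T')
    {e : G} (he : e ∈ T'.1) : D d T x e ≤ 190 * (δ + κ + Δ + 1) := by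
  obtain ⟨h0, -, h, hh, c, hc, h2⟩ := hT'
  have := hG.plain H hT.1 hT.2.1 hh
  have := D_closer H hT.1 (y := h * x) (c := c) fun c' hc' => by
    by_contra h3
    exact hT.2.1 ⟨h, hh, c', hc', by omega⟩
  have := D_core H hT.1 h0 hne hc he
  have := D_tri H hT.1 x (h * x) e
  have := D_tri H hT.1 (h * x) c e
  omega

theorem Gate.spin (H : SC d K G' 𝒯 δ κ Δ g E) (hG : Gate d K 𝒯 x (δ + κ + Δ + 1) m)
    {T T' : Set G × Subgroup G} (hT : NN d K 𝒯 x m T) (hT' : NN d K 𝒯 x m T') (hne : T ≠ T')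
    {μ z : G} (hμ : μ ∈ T.2) (hK : μ ∉ K) (h : D d T x z ≤ 220 * (δ + κ + Δ + 1)) :
    D d T' x (μ * z) ≤ 220 * (δ + κ + Δ + 1) := by
  obtain ⟨e, he⟩ := H.ne T hT.1
  obtain ⟨e', he'⟩ := H.ne T' hT'.1
  have := hG.next H hT hT' hne he'
  have := hG.next H hT' hT hne.symm he
  have := D_disp H hT.1 hμ hK x
  have := D_self H hT.1 hμ x z
  have := behr H hT.1 hT'.1 hne he he' (μ * z)
  have := D_tri H hT.1 x e' (μ * x)
  have := D_tri H hT.1 e' (μ * z) (μ * x)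
  have := D_symm H hT.1 e' (μ * z)
  have := D_symm H hT.1 (μ * x) (μ * z)
  have := D_tri H hT'.1 x e (μ * z)
  have := D_symm H hT'.1 e (μ * z)
  have := H.big
  omega

theorem Gate.word (H : SC d K G' 𝒯 δ κ Δ g E) (hG : Gate d K 𝒯 x (δ + κ + Δ + 1) m)
    {S : Option (Set G × Subgroup G)} {w : G} (h : Wd d K 𝒯 x m S w) :
    ∀ T, NN d K 𝒯 x m T → S = some T → D d T x (w * x) ≤ 220 * (δ + κ + Δ + 1) := by
  induction h with
  | nil S h hh =>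
    intro T hT _
    have := hG.plain H hT.1 hT.2.1 hh
    omega
  | cons S T' μ w h1 h2 h3 h4 _ ih =>
    intro T hT hS
    rw [mul_assoc]
    exact hG.spin H h1 hT (fun h6 => h2 (by rw [hS, h6])) h3 h4 (ih T' h1 rfl)

theorem Att.mono {v : ℕ} {T : Set G × Subgroup G} {t y x' : G}
    (h : Att d K 𝒯 x v (m + 1) T t y x') : Att d K 𝒯 x v m T t y x' := by
  rcases h with h | ⟨C, hC, c, hc, h1, h2, h3, h4⟩
  · exact Or.inl h
  · exact Or.inr ⟨C, hC, c, hc, h1, h2,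
      fun ν hν => h3 ν (HH_mono d K 𝒯 x (Nat.le_succ m) hν), h4⟩

theorem Att.cj (H : SC d K G' 𝒯 δ κ Δ g E) {v : ℕ} {T : Set G × Subgroup G} (hT : T ∈ 𝒯)
    {t y x' k : G} (hk : k ∈ HH d K 𝒯 x m) (h : Att d K 𝒯 x v m T t y x') :
    Att d K 𝒯 x v m (cj k T) (k * t) (k * y) (k * x') := by
  have hG := HH_le H hk
  rcases h with h | ⟨C, hC, c, hc, h1, h2, h3, h4⟩
  · exact Or.inl (by rwa [H.inv k hG])
  · refine Or.inr ⟨_, H.conj k hG C hC, k * c, mem_cj hc, fun h5 => h1 (cj_inj h5),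
      by rwa [D_cj H hG hC], fun ν hν => ?_, by rwa [D_cj H hG hT]⟩
    have e : ν * (k * c) = k * ((k⁻¹ * ν * k) * c) := by group
    rw [e, H.inv k hG, H.inv k hG]
    exact h3 _ (Subgroup.mul_mem _ (Subgroup.mul_mem _ (Subgroup.inv_mem _ hk) hν) hk)

theorem Att.near (H : SC d K G' 𝒯 δ κ Δ g E) {T : Set G × Subgroup G} (hT : T ∈ 𝒯)
    {t y x' : G} (ht : t ∈ T.1) (h : Att d K 𝒯 x (δ + κ + Δ + 1) m T t y x') :
    D d T y x' ≤ 50 * (δ + κ + Δ + 1) := by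
  rcases h with h | ⟨C, hC, c, hc, h1, h2, -, h4⟩
  · have := D_zero H hT h
    omega
  · have := behr H hC hT h1 hc ht y
    have := D_tri H hT y c x'
    have := D_symm H hT c x'
    omega

theorem Att.re (H : SC d K G' 𝒯 δ κ Δ g E) {T S : Set G × Subgroup G} (hS : S ∈ 𝒯)
    {t y x₁ x₂ μ : G} (h : Att d K 𝒯 x (δ + κ + Δ + 1) m T t y x₁) (hμ : μ ∈ S.2) (hK : μ ∉ K)
    (hH : μ ∈ HH d K 𝒯 x m) (h1 : D d S x₁ (μ * x₂) ≤ 440 * (δ + κ + Δ + 1))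
    (h2 : D d S x₂ t ≤ 30 * (δ + κ + Δ + 1)) : 1000 * (δ + κ + Δ + 1) ≤ D d S y t := by
  have := D_disp H hS hμ hK x₂
  have := H.big
  have := D_tri H hS x₂ x₁ (μ * x₂)
  have := D_tri H hS x₂ t x₁
  rcases h with h | ⟨C, hC, c, hc, -, h4, h5, -⟩
  · have := D_zero H hS h
    have := D_tri H hS t y x₁
    have := D_symm H hS t y
    omega
  · by_cases hCS : C = S
    · rwa [hCS] at h4
    obtain ⟨s, hs⟩ := H.ne S hS
    have := D_min H hS hμ (h5 μ hH)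
    have := D_tri H hS x₁ (μ * x₂) (μ * c)
    have := D_self H hS hμ x₂ c
    have := D_tri H hS x₂ t c
    have := D_tri H hS t c x₁
    have := D_symm H hS c x₁
    have := behr H hC hS hCS hc hs t
    have := behr H hC hS hCS hc hs y
    have := D_tri H hC y s t
    have := D_symm H hC s t
    have := D_tri H hS t y c
    have := D_symm H hS t y
    omega

theorem anchor (H : SC d K G' 𝒯 δ κ Δ g E) {T S : Set G × Subgroup G} (hT : T ∈ 𝒯)
    (hA : ¬Ab d K 𝒯 x (m + 1) T) (hS : NN d K 𝒯 x m S) {t y : G}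
    (h : 1000 * (δ + κ + Δ + 1) ≤ D d S y t) :
    ∃ k ∈ HH d K 𝒯 x m, Att d K 𝒯 x (δ + κ + Δ + 1) m T t y (k * x) := by
  have hne : S ≠ T := fun e => hA (e ▸ hS.ab)
  obtain ⟨h0, h1, k, hk, c, hc, h2⟩ := hS
  refine ⟨k, hk, Or.inr ⟨S, h0, c, hc, hne, h, fun ν hν => ?_, D_closer H hT fun c' hc' => ?_⟩⟩
  · by_contra h3
    refine h1 ⟨ν⁻¹ * k, Subgroup.mul_mem _ (Subgroup.inv_mem _ hν) hk, c, hc, ?_⟩
    rw [← H.inv ν (HH_le H hν)]
    have e : ν * (ν⁻¹ * k * x) = k * x := by group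
    rw [e]
    omega
  · by_contra h3
    exact hA ⟨k, HH_mono d K 𝒯 x (Nat.le_succ m) hk, c', hc', by omega⟩

theorem Gate.walk (H : SC d K G' 𝒯 δ κ Δ g E) (hG : Gate d K 𝒯 x (δ + κ + Δ + 1) m)
    {S : Option (Set G × Subgroup G)} {w : G} (h : Wd d K 𝒯 x m S w) :
    ∀ T ∈ 𝒯, ¬Ab d K 𝒯 x (m + 1) T → ∀ t ∈ T.1, ∀ y₁ y₂ x₁,
      (∀ T', NN d K 𝒯 x m T' → S ≠ some T' → D d T' x x₁ ≤ 220 * (δ + κ + Δ + 1)) →
      Att d K 𝒯 x (δ + κ + Δ + 1) (m + 1) T t y₁ x₁ →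
      Att d K 𝒯 x (δ + κ + Δ + 1) (m + 1) T t y₂ (w * x) →
      (∃ k ∈ HH d K 𝒯 x m, Att d K 𝒯 x (δ + κ + Δ + 1) m T t y₁ (k * x)) →
      D d T y₁ y₂ ≤ 160 * (δ + κ + Δ + 1) := by
  induction h with
  | nil S h hh =>
    rintro T hT hA t ht y₁ y₂ x₁ - - a2 ⟨k, hk, a3⟩
    exact hG T hT (fun h1 => hA (Ab_mono h1)) t ht k hk h hh y₁ y₂ a3 a2.mono
  | cons S T' μ w h1 h2 h3 h4 h5 ih =>
    rintro T hT hA t ht y₁ y₂ x₁ hL a1 a2 ⟨k, hk, a3⟩
    by_contra hc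
    have hne : T ≠ T' := fun e => hA (e ▸ h1.ab)
    have hH : μ ∈ HH d K 𝒯 x (m + 1) := Ab_le H h1.1 h1.ab h3
    have hH' := Subgroup.inv_mem _ hH
    have b1 := hL T' h1 h2
    have b2 := hG.word H h5 T' h1 rfl
    have b3 : D d T' x₁ (w * x) ≤ 440 * (δ + κ + Δ + 1) := by
      have := D_tri H h1.1 x₁ x (w * x)
      have := D_symm H h1.1 x₁ x
      omega
    obtain ⟨e, he⟩ := H.ne T' h1.1
    rcases behr H hT h1.1 hne ht he x₁ with c1 | c1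
    · rcases behr H hT h1.1 hne ht he (μ * w * x) with c2 | c2
      · have := a1.near H hT ht
        have := a2.near H hT ht
        have := D_tri H hT y₁ x₁ y₂
        have := D_tri H hT x₁ e y₂
        have := D_tri H hT e (μ * w * x) y₂
        have := D_symm H hT e (μ * w * x)
        have := D_symm H hT y₂ (μ * w * x)
        omega
      · have e1 : μ⁻¹ * (μ * w * x) = w * x := by group
        have d1 := a1.re H h1.1 (T'.2.inv_mem h3) (fun h6 => h4 (by simpa using K.inv_mem h6)) hH'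
          (by rwa [e1]) c2
        rw [← D_self H h1.1 (T'.2.inv_mem h3)] at d1
        have hG' := HH_le H hH'
        have hA' : ¬Ab d K 𝒯 x (m + 1) (cj μ⁻¹ T) := fun h6 => hA (Ab_of_cj H hH' h6)
        have hT' := H.conj _ hG' T hT
        have a2' := a2.cj H hT hH'
        rw [e1] at a2'
        have := ih _ hT' hA' _ (mem_cj ht) (μ⁻¹ * y₁) (μ⁻¹ * y₂) (μ⁻¹ * x₁)
          (fun T'' h6 h7 => hG.spin H h1 h6 (fun h8 => h7 (by rw [h8])) (T'.2.inv_mem h3)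
            (fun h6 => h4 (by simpa using K.inv_mem h6)) b1)
          (a1.cj H hT hH') a2' (anchor H hT' hA' h1 d1)
        rw [D_cj H hG' hT] at this
        exact hc this
    · have d1 := a2.re H h1.1 h3 h4 hH (x₂ := x₁) (by
        rw [mul_assoc, D_self H h1.1 h3, D_symm H h1.1]; exact b3) c1
      obtain ⟨k', hk', a4⟩ := anchor H hT hA h1 d1
      exact hc (hG T hT (fun h6 => hA (Ab_mono h6)) t ht k hk k' hk' y₁ y₂ a3 a4)

theorem HH_zero : HH d K 𝒯 x 0 ≤ K :=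
  sup_le le_rfl (iSup₂_le fun T hT => by
    obtain ⟨-, c, -, h⟩ := hT
    omega)

theorem gate_all (H : SC d K G' 𝒯 δ κ Δ g E) (x : G) (m : ℕ) :
    Gate d K 𝒯 x (δ + κ + Δ + 1) m := by
  induction m with
  | zero =>
    intro T hT _ t ht h₁ k1 h₂ k2 y₁ y₂ a1 a2
    have h0 : d (h₁ * x) (h₂ * x) = 0 := (H.zero _ _).2 (by
      simpa [mul_assoc] using K.mul_mem (HH_zero k2) (K.inv_mem (HH_zero k1)))
    have := D_zero H hT h0
    have := a1.near H hT ht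
    have := a2.near H hT ht
    have := D_tri H hT y₁ (h₁ * x) y₂
    have := D_tri H hT (h₁ * x) (h₂ * x) y₂
    have := D_symm H hT y₂ (h₂ * x)
    omega
  | succ m ih =>
    intro T hT hA t ht h₁ k1 h₂ k2 y₁ y₂ a1 a2
    have k3 := Subgroup.inv_mem _ k1
    have hG' := HH_le H k3
    have a1' := a1.cj H hT k3
    have a2' := a2.cj H hT k3
    rw [inv_mul_cancel_left] at a1'
    rw [← mul_assoc] at a2'
    have := ih.walk H (exists_wd H (Subgroup.mul_mem _ k3 k2)) _ (H.conj _ hG' T hT)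
      (fun h6 => hA (Ab_of_cj H k3 h6)) _ (mem_cj ht) _ _ x
      (fun T' h1 _ => by have := D_zero H h1.1 (H.met.refl x); omega) a1' a2'
      ⟨1, Subgroup.one_mem _, by rw [one_mul]; exact a1'.mono⟩
    rwa [D_cj H hG' hT] at this

theorem grp (H : SC d K G' 𝒯 δ κ Δ g E) (x : G) (m : ℕ) : ∀ h ∈ HH d K 𝒯 x m, h ∉ K →
    ∃ T ∈ 𝒯, ∃ μ ∈ T.2, μ ∉ K ∧ D d T x (μ * (h * x)) ≤ 220 * (δ + κ + Δ + 1) := by
  induction m with
  | zero => exact fun h hh hK => absurd (HH_zero hh) hK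
  | succ m ih =>
    intro h hh hK
    cases exists_wd H hh with
    | nil _ _ h1 => exact ih h h1 hK
    | cons _ T μ w h1 _ h3 h4 h5 =>
      refine ⟨T, h1.1, μ⁻¹, T.2.inv_mem h3, fun h6 => h4 (by simpa using K.inv_mem h6), ?_⟩
      have e1 : μ⁻¹ * (μ * w * x) = w * x := by group
      rw [e1]
      exact (gate_all H x m).word H h5 T h1 rfl

end Gr

open Gr in
theorem gr : GrStmt := by
  intro G _ d K G' 𝒯 δ κ Δ g E H x h hh hK
  have h1 : G' ≤ ⨆ m, HH d K 𝒯 x m := by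
    refine H.gen.trans (sup_le (le_iSup_of_le 0 K_le) (iSup₂_le fun T hT => ?_))
    obtain ⟨c, hc⟩ := H.ne T hT
    exact le_iSup_of_le (d x c + 1) (T_le hT hc (Nat.lt_succ_self _))
  obtain ⟨m, hm⟩ := (Subgroup.mem_iSup_of_directed (HH_mono d K 𝒯 x).directed_le).1 (h1 hh)
  obtain ⟨T, hT, μ, hμ, h2, h3⟩ := grp H x m h hm hK
  refine ⟨T, hT, μ, hμ, h2, fun a b ha hb => ?_⟩
  have := le_D H hT ha (prj_self H hT hμ hb)
  omega

end Pool.Agent.MP_735563_an.H2
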