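import Pool.Agent.MP_735563_an.H2.Spec2

set_option autoImplicit false

/-! Row InjB: a tower injects into every valid extension, up to its boundary. -/

namespace Pool.Agent.MP_735563_an.H2

namespace InjB

/-- a point almost between two points near a quasi convex set is near the set -/
theorem near_set {V : Type} {d : V → V → ℕ} {δ κ R r : ℕ} (h : Met d δ) {C : Set V}
    (hC : QC d C κ) {b b' m m' a : V} (hm : m ∈ C) (hm' : m' ∈ C) (h1 : d b m ≤ R)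
    (h2 : d b' m' ≤ R) (ha : d b a + d a b' ≤ d b b' + r) :
    ∃ z ∈ C, d a z ≤ 2 * r + 10 * δ + R + κ := by
  obtain ⟨x, hx1, hx2⟩ := h.geo b b' _ (min_le_right (d b a) (d b b'))
  have h3 := h.near (r' := r) ha hx2 (by omega) (by omega)
  have h4 := h.symm a x
  obtain ⟨q, hq | hq | hq, h5⟩ := h.slim4 hx2 m m'
  · refine ⟨m, hm, ?_⟩
    unfold Btw at hq
    have := h.tri a x m; have := h.tri x q m; omega
  · obtain ⟨z, hz, h6⟩ := hC m hm m' hm' q hq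
    exact ⟨z, hz, by have := h.tri a x z; have := h.tri x q z; omega⟩
  · refine ⟨m', hm', ?_⟩
    unfold Btw at hq
    have := h.tri a x m'; have := h.tri x q m'; have := h.symm q m'; have := h.symm b' m'
    omega

theorem arith {δ κ Δ l ρ θ n : ℕ} (h : 10 ^ 6 * (δ + κ + Δ + l + ρ + 1) ≤ θ) (h' : 1000 * θ ≤ n) :
    100 * (2 * θ + Δ + 1000 * (δ + κ + 1)) ≤ n := by
  linarith [Nat.zero_le δ, Nat.zero_le κ, Nat.zero_le Δ, Nat.zero_le l, Nat.zero_le ρ]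

variable {p : ℕ} {𝔇 : ℕ → Lev p} {N j : ℕ} {B s : St p}

theorem cj_cp {g : Gam p} (h : tr g s = s) (c : Fin 3) (x : Gam p) :
    cj g (cp 𝔇 j s c x, cgp 𝔇 j s c x) = (cp 𝔇 j s c (g * x), cgp 𝔇 j s c (g * x)) := by
  unfold cj cp cgp
  rw [apply_of_stab h, lm_mul, cjs_mul, image_mul_eq_lm, ← Sat_lm, cjs_K_of_stab h]
  congr 1
  conv_rhs => rw [← cjs_K_of_stab (j := j - 1) h]
  exact Subgroup.map_sup _ _ _

/-- the components of the folds of `B`, seen in `s` -/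
def TB (𝔇 : ℕ → Lev p) (j : ℕ) (B s : St p) : Set (Set (Gam p) × Subgroup (Gam p)) :=
  {T | ∃ y c, B y (j, some c) ≠ 0 ∧ T = (cp 𝔇 j s c y, cgp 𝔇 j s c y)}

theorem TB_sub (hl : Le B s) : TB 𝔇 j B s ⊆ fam 𝔇 j s :=
  fun _ ⟨y, c, h1, h2⟩ => ⟨y, c, hl.ne h1, h2⟩

theorem cjs_le (hj : 1 ≤ j) (hl : Le B s) {y : Gam p} {c : Fin 3} (hy : B y (j, some c) ≠ 0) :
    cjs y ((𝔇 j).L c (s y (j, some c))) ≤ K 𝔇 j B := fun u hu => by
  rw [mem_cjs, hl y _ hy] at hu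
  simpa [mul_assoc] using mem_K hj le_rfl hy hu

theorem dec (hs : ValZ 𝔇 j s) (hl : Le B s) {A : Subgroup (Gam p)} (hA : A ≤ K 𝔇 j B) {h : Gam p}
    (hh : h ∈ K 𝔇 (j - 1) s ⊔ A) : ∃ k ∈ K 𝔇 (j - 1) s, ∃ a ∈ A, h = k * a :=
  exists_mul_of_mem_sup (fun _ ha => hs.stab (K_mono le_rfl hl (hA ha))) (by rwa [sup_comm])

theorem scB (h2 : CPStmt) (hT : Th 𝔇 N) (hj : 1 ≤ j) (hN : j ≤ N) (hB : ValZ 𝔇 j B)
    (hs : ValZ 𝔇 j s) (hl : Le B s) :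
    SC (dj 𝔇 (j - 1) s) (K 𝔇 (j - 1) s) (K 𝔇 (j - 1) s ⊔ K 𝔇 j B) (TB 𝔇 j B s) (𝔇 (j - 1)).δ
      (𝔇 j).κ (𝔇 j).Δ (𝔇 j).g (𝔇 j).D := by
  have H := hT.2.2 j hj hN s hs
  have hle : K 𝔇 (j - 1) s ⊔ K 𝔇 j B ≤ K 𝔇 j s := sup_le H.le (K_mono le_rfl hl)
  refine ⟨H.met, H.zero, fun h hh => H.inv h (hle hh), le_sup_left, ?_, sup_le le_sup_left ?_, ?_,
    fun T h => H.ne T (TB_sub hl h), fun T h => H.pres T (TB_sub hl h),
    fun T h => H.qc T (TB_sub hl h), fun T h T' h' => H.ov T (TB_sub hl h) T' (TB_sub hl h'),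
    fun T h => H.disp T (TB_sub hl h), fun T h => H.diam T (TB_sub hl h), H.big⟩
  · rintro _ ⟨y, c, hy, rfl⟩
    exact ⟨le_sup_left, sup_le_sup_left (cjs_le hj hl hy) _⟩
  · rw [K, Subgroup.closure_le]
    rintro u ⟨i, c, x, h1, h3, h4, h5⟩
    rcases Nat.eq_or_lt_of_le h3 with rfl | h6
    · refine Subgroup.mem_sup_right (le_biSup (fun T : Set (Gam p) × Subgroup (Gam p) => T.2)
        (show (cp 𝔇 i s c x, cgp 𝔇 i s c x) ∈ TB 𝔇 i B s from ⟨x, c, h4, rfl⟩)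
        (Subgroup.mem_sup_right ?_))
      rw [mem_cjs, hl x _ h4]
      exact h5
    · exact Subgroup.mem_sup_left (K_mono le_rfl hl
        (Subgroup.subset_closure ⟨i, c, x, h1, by omega, h4, h5⟩))
  · rintro h hh _ ⟨y, c, hy, rfl⟩
    rw [cj_cp (hs.stab (hle hh))]
    obtain ⟨k, hk, a, ha, rfl⟩ := dec hs hl le_rfl hh
    have h1 : B (a * y) (j, some c) ≠ 0 := by rwa [apply_of_stab (hB.stab ha)]
    obtain ⟨h3, h4, -⟩ :=
      (h2 p 𝔇 j hj (hT.ok hj hN) (hT.2.1 _ (by omega)) s hs c).1 _ (hl.ne h1)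
    obtain ⟨-, -, -, h5, h6, -⟩ := h4 _ (mul_mem_Sat hk h3)
    exact ⟨a * y, c, h1, by rw [mul_assoc, h5, h6]⟩

/-- a long piece of a component of `s` near the region of `B` belongs to a fold of `B` -/
theorem mem_TB (h1 : GateStmt) (h2 : CPStmt) (h3 : SQCStmt) (h4 : TowStmt) (h5 : QCTStmt)
    (hT : Th 𝔇 N) (hj : 1 ≤ j) (hN : j ≤ N) {F : Set (Gam p)} {k : ℕ} (hB : Good 𝔇 N B)
    (hW : Tow 𝔇 j B) (hS : Shape 𝔇 j B F k) (hs : ValZ 𝔇 j s) (hl : Le B s) {b b' a a' : Gam p}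
    (hb : b ∈ Nb 100 (Dm 0 B)) (hb' : b' ∈ Nb 100 (Dm 0 B))
    {T : Set (Gam p) × Subgroup (Gam p)} (hF : T ∈ fam 𝔇 j s) (ha : a ∈ T.1) (ha' : a' ∈ T.1)
    (hab : dj 𝔇 (j - 1) s b a + dj 𝔇 (j - 1) s a a' + dj 𝔇 (j - 1) s a' b' ≤
      dj 𝔇 (j - 1) s b b' + (4 * (𝔇 j).κ + 18 * (𝔇 (j - 1)).δ + 2))
    (hg : 1000 * (𝔇 j).θ ≤ dj 𝔇 (j - 1) s a a') : T ∈ TB 𝔇 j B s := by
  by_contra hn
  have H := hT.2.2 j hj hN s hs
  have hM := H.met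
  have hO := hT.ok hj hN
  have hG := hT.2.1 (j - 1) (by omega)
  have hθ := hO.2.1.θ
  have hBj : ValZ 𝔇 j B := hB.1.1.mono hN
  have hB1 : ValZ 𝔇 (j - 1) B := hBj.mono (Nat.sub_le _ _)
  have hs1 : ValZ 𝔇 (j - 1) s := hs.mono (Nat.sub_le _ _)
  have hW1 : Tow 𝔇 (j - 1) B := hW.mono (Nat.sub_le _ _)
  have hCP := h2 p 𝔇 j hj hO hG s hs
  have hA : Dm (j - 1) B = Nb (𝔇 j).θ (Dm j B ∪ Cen j B) := (hW j hj le_rfl).1
  obtain ⟨q1, q2, -, q4⟩ := h3 p 𝔇 N j hT hj hN B F k hB (hW j hj le_rfl).2.2 hS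
  obtain ⟨t1, t2, t3⟩ := h5 p 𝔇 (j - 1) hG.2.2.2 B s (Dm j B ∪ Cen j B) _ hB1 hs1 hl
    (fun g hg y hy => hy.imp (Dm_stab (hB1.stab hg)).2 (Cen_stab (hB1.stab hg)).2) q4
    (fun y hy => hW1.comp (hA ▸ Nb_mono (by omega) subset_rfl hy))
  have hP : Sat (Kall 𝔇 B) F ⊆ Dm j B ∪ Cen j B := fun y hy => Or.inl (hS.2.1 (subset_Nb _ _ hy))
  have hnear : ∀ x ∈ Nb 100 (Dm 0 B), ∃ m ∈ Sat (K 𝔇 (j - 1) s) (Dm j B ∪ Cen j B),
      dj 𝔇 (j - 1) s x m ≤ (𝔇 j).θ + (𝔇 (j - 1)).δ + 100 := fun x hx => by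
    have h6 := Nb_mono le_rfl (h4 p 𝔇 N (j - 1) hT (by omega) B hB hW1).1 hx
    rw [hA, Nb_Nb, Nb_Nb] at h6
    obtain ⟨m, hm, u, hu, rfl⟩ := h6
    refine ⟨m, subset_Sat _ _ hm, ?_⟩
    have := dj_le_len (𝔇 := 𝔇) (j - 1) s m u
    have := hM.symm m (m * u)
    omega
  obtain ⟨m₀, hm₀, hd₀⟩ := hnear b hb
  obtain ⟨m₁, hm₁, hd₁⟩ := hnear b' hb'
  have hend : ∀ e, dj 𝔇 (j - 1) s b e + dj 𝔇 (j - 1) s e b' ≤
      dj 𝔇 (j - 1) s b b' + (4 * (𝔇 j).κ + 18 * (𝔇 (j - 1)).δ + 2) →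
      ∃ z, dj 𝔇 (j - 1) s e z ≤ 2 * (𝔇 j).θ ∧
        ((∃ q ∈ Sat (K 𝔇 (j - 1) s) (Sat (Kall 𝔇 B) F), dj 𝔇 (j - 1) s z q ≤ k + 1) ∨
          ∃ T ∈ TB 𝔇 j B s, z ∈ T.1) := fun e he => by
    obtain ⟨_, ⟨g, hg, z, hz, rfl⟩, h6⟩ := near_set hM t1 hm₀ hm₁ hd₀ hd₁ he
    rw [dj_mul_right hg] at h6
    refine ⟨z, by omega, hz.imp (fun hz => ?_) fun ⟨c, hz⟩ =>
      ⟨_, ⟨z, c, hz, rfl⟩, ((hCP c).1 z (hl.ne hz)).1⟩⟩
    obtain ⟨q, hq, u, hu, rfl⟩ := hS.2.2.1 hz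
    refine ⟨q, subset_Sat _ _ hq, ?_⟩
    have := dj_le_len (𝔇 := 𝔇) (j - 1) s q u
    have := hM.symm q (q * u)
    omega
  refine (h1 _ _ _ _ _ _ _ _ _ _ (scB h2 hT hj hN hBj hs hl)
    (Sat (K 𝔇 (j - 1) s) (Sat (Kall 𝔇 B) F)) k (2 * (𝔇 j).θ) a a' ?_ ?_ ?_
    (hend a (by have := hM.tri a a' b'; omega)) (hend a' (by have := hM.tri b a a'; omega)) ?_
    (arith hθ hg)).elim ?_
  rotate_right
  · rintro m ⟨hm, q, hq, hmq⟩
    obtain ⟨e, he, h6⟩ := H.qc T hF a ha a' ha' m hm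
    have h7 : e ∈ Nb k (Sat (K 𝔇 (j - 1) s) (Sat (Kall 𝔇 B) F)) :=
      (mem_Nb_iff_dj fun _ hg _ hy => mul_mem_Sat hg hy).2
        ⟨q, hq, by have := hM.tri e m q; have := hM.symm e m; omega⟩
    rw [← Sat_Nb, mem_Sat_iff] at h7
    obtain ⟨g, hg, h8⟩ := h7
    have h9 := hW.comp (hS.2.1 h8)
    obtain ⟨x, c, hx, rfl⟩ := (mem_fam 𝔇).1 hF
    obtain ⟨-, k1, -, k2, k3, -⟩ := ((hCP c).1 x hx).2.1 _ (mul_mem_Sat hg he)
    exact hn ⟨g * e, c, h9.lab hj (((h9.rc hj hO.2.1).cen_iff hj hO.1 hG hB1 hs1 hl c).2 k1),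
      by rw [k2, k3]⟩
  · rintro h hh _ ⟨g, hg, y, hy, rfl⟩
    obtain ⟨g', hg', l, hl', rfl⟩ := dec hs hl le_rfl hh
    exact ⟨g' * (l * g * l⁻¹), mul_mem hg' (conj_mem_K (hs.stab (K_mono le_rfl hl hl')) hg), l * y,
      mul_mem_Sat (K_le_Kall _ _ hl') hy, by simp [mul_assoc]⟩
  · rintro _ ⟨g, hg, x, hx, rfl⟩ _ ⟨g', hg', y, hy, rfl⟩ hmin
    rw [dj_mul_left hg, dj_mul_right hg']
    refine (q1 x hx y hy fun h hh => ?_).imp (fun h6 => by rwa [t2 x (hP hx) y (hP hy)])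
      fun h6 m hm => ?_
    · have h7 := hmin (h * g'⁻¹) (mul_mem (Subgroup.mem_sup_right hh)
        (Subgroup.mem_sup_left (inv_mem hg')))
      rw [dj_mul_left hg, dj_mul_right hg', dj_mul_left hg, mul_assoc, inv_mul_cancel_left,
        t2 x (hP hx) y (hP hy)] at h7
      exact h7.trans (dj_anti le_rfl hl _ _)
    · obtain ⟨m', h7, h8⟩ := t3 x (hP hx) y (hP hy) m (by
        unfold Btw at hm ⊢
        rwa [dj_mul_left hg, dj_mul_right hg', dj_mul_left hg, dj_mul_right hg'] at hm)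
      obtain ⟨q, hq, h9⟩ := h6 m' h7
      refine ⟨q, subset_Sat _ _ hq, ?_⟩
      have k1 := dj_mul_left h8 m' q
      rw [inv_mul_cancel_right] at k1
      rw [k1]
      exact (Nat.add_le_add_right (dj_anti le_rfl hl m' q) _).trans h9
  · rintro _ ⟨y, c, hy, rfl⟩
    obtain ⟨e, he, q, hq, h6⟩ := q2 _ ⟨y, c, hy, rfl⟩
    refine ⟨e, ?_, q, subset_Sat _ _ hq, (dj_anti le_rfl hl _ _).trans h6⟩
    show e ∈ Sat _ _
    rw [hl y _ hy]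
    exact Sat_mono (K_mono le_rfl hl) subset_rfl he
  · intro T' hT' m m' hm hm' e he e' he' k1 k2
    obtain ⟨c, hc, k3⟩ := H.qc T hF a ha a' ha' m hm
    obtain ⟨c', hc', k4⟩ := H.qc T hF a ha a' ha' m' hm'
    have k5 := H.ov T hF T' (TB_sub hl hT') (fun e => hn (e ▸ hT')) c hc c' hc' e he e' he'
      (by have := hM.tri c m e; have := hM.symm c m; omega)
      (by have := hM.tri c' m' e'; have := hM.symm c' m'; omega)
    have := hM.tri m c m'; have := hM.tri c c' m'; have := hM.symm c' m'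
    omega

end InjB

open InjB in
theorem injB (h0 : GrStmt) (h1 : GateStmt) (h2 : CPStmt) (h3 : SQCStmt) (h4 : TowStmt)
    (h5 : QCTStmt) : InjBStmt := by
  intro p 𝔇 N j hT
  induction j with
  | zero =>
    intro _ B s F k _ _ _ _ _ b _ h hh _
    rwa [K_zero] at hh ⊢
  | succ i ih =>
    intro hN B s F k hB hW hS hs hl b hb
    have ih' : ∀ h ∈ K 𝔇 (i + 1 - 1) s, h * b ∈ Nb 100 (Dm 0 B) → h ∈ K 𝔇 (i + 1) B :=
      fun h hh h6 => K_mono (Nat.le_succ i) (Le.refl B) (ih (by omega) B s _ _ hB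
        (hW.mono (Nat.le_succ i)) (((h4 p 𝔇 N _ hT hN B hB hW).2 F k hS).2 (by omega))
        (hs.mono (Nat.le_succ i)) hl b hb h hh h6)
    have hj : 1 ≤ i + 1 := by omega
    generalize i + 1 = j at *
    have H := hT.2.2 j hj hN s hs
    have hM := H.met
    have hO := hT.ok hj hN
    have hθ := hO.2.1.θ
    have hg := hO.scale.2.2.1
    have hBj : ValZ 𝔇 j B := hB.1.1.mono hN
    intro h
    induction hd : dj 𝔇 (j - 1) s b (h * b) using Nat.strong_induction_on generalizing h with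
    | _ n ihn =>
    intro hh hhb
    by_cases hK : h ∈ K 𝔇 (j - 1) s
    · exact ih' h hK hhb
    obtain ⟨T, hF, μ, hμ, hμK, hGr⟩ := h0 _ _ _ _ _ _ _ _ _ _ H b h hh hK
    obtain ⟨a, ha⟩ := exists_prj (dj 𝔇 (j - 1) s) (H.ne T hF) b
    obtain ⟨a', ha'⟩ := exists_prj (dj 𝔇 (j - 1) s) (H.ne T hF) (h * b)
    have k1 := hGr a a' ha ha'
    have k2 := H.disp T hF μ hμ hμK a' ha'.1
    have k3 := hM.tri a' a (μ * a')
    have k4 := hM.symm a' a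
    have k5 := (hM.bridge (H.qc T hF) ha ha').resolve_left (by omega)
    obtain ⟨y, c, hy, rfl⟩ := mem_TB h1 h2 h3 h4 h5 hT hj hN hB hW hS hs hl hb hhb hF ha.1 ha'.1
      (by omega) (by omega)
    obtain ⟨g, hg', l, hl', rfl⟩ := dec hs hl (cjs_le hj hl hy) hμ
    have k6 := cjs_le hj hl hy hl'
    have k7 := H.inv _ ((H.sub _ hF).2 hμ) a' (h * b)
    have k8 := hM.tri b a (g * l * (h * b))
    have k9 := hM.tri a (g * l * a') (g * l * (h * b))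
    have k10 := dj_mul_right hg' b (l * h * b)
    rw [show g * (l * h * b) = g * l * (h * b) by simp [mul_assoc]] at k10
    have := ihn _ (by omega) (l * h) rfl (mul_mem (K_mono le_rfl hl k6) hh) (by
      rw [mul_assoc]
      exact Nb_inv (H := K 𝔇 j B) (fun g hg y hy => (Dm_stab (hBj.stab hg)).2 hy) 100 l k6 _ hhb)
    simpa using mul_mem (inv_mem k6) this

end Pool.Agent.MP_735563_an.H2
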