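import Pool.Agent.MP_735563_an.H2.Spec1

set_option autoImplicit false

/-! Geometry of the syllable metric through normal forms. -/

namespace Pool.Agent.MP_735563_an.H2

namespace Len

variable {p : ℕ} {l l' : List (Fin 3 × ZMod p)}

/-- reduced words -/
def Red (l : List (Fin 3 × ZMod p)) : Prop :=
  (∀ q ∈ l, q.2 ≠ 0) ∧ l.IsChain fun q q' => q.1 ≠ q'.1

/-- the first indices differ -/
def Df (l l' : List (Fin 3 × ZMod p)) : Prop := ∀ q ∈ l.head?, ∀ q' ∈ l'.head?, q.1 ≠ q'.1

theorem red_cons {q : Fin 3 × ZMod p} :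
    Red (q :: l) ↔ q.2 ≠ 0 ∧ (∀ y ∈ l.head?, q.1 ≠ y.1) ∧ Red l := by
  simp only [Red, List.forall_mem_cons, List.isChain_cons]
  tauto

theorem uniq (h : Red l) (h' : Red l') (e : lprod l = lprod l') : l = l' := by
  classical
  let f : Fin 3 × ZMod p → Σ _ : Fin 3, Multiplicative (ZMod p) := fun q => ⟨q.1, .ofAdd q.2⟩
  let w : ∀ l, Red l → Monoid.CoprodI.Word fun _ : Fin 3 => Multiplicative (ZMod p) := fun l h =>
    ⟨l.map f, List.forall_mem_map.2 h.1, (List.isChain_map f).2 h.2⟩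
  have hw : ∀ l h, Monoid.CoprodI.Word.equiv.symm (w l h) = lprod l := fun l h => by
    change (List.map _ (l.map f)).prod = _
    rw [List.map_map]
    rfl
  have := Monoid.CoprodI.Word.equiv.symm.injective (((hw l h).trans e).trans (hw l' h').symm)
  exact List.map_injective_iff.2 (fun a b c => Prod.ext (congrArg Sigma.fst c)
    (by simpa [f] using eq_of_heq (Sigma.mk.inj c).2)) (congrArg Monoid.CoprodI.Word.toList this)

theorem shorten (h : ¬Red l) :
    ∃ l', l'.length < l.length ∧ lprod l' = lprod l ∧ ∀ q ∈ l', ∃ q' ∈ l, q.1 = q'.1 := by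
  induction l with
  | nil => exact (h ⟨by simp, by simp⟩).elim
  | cons q l ih =>
    by_cases a : Red l
    swap
    · obtain ⟨l', h1, h2, h3⟩ := ih a
      exact ⟨q :: l', by simpa using h1, by rw [lprod_cons, lprod_cons, h2],
        List.forall_mem_cons.2 ⟨⟨q, by simp, rfl⟩, fun y hy =>
          (h3 y hy).imp fun _ c => ⟨List.mem_cons_of_mem _ c.1, c.2⟩⟩⟩
    by_cases b : q.2 = 0
    · exact ⟨l, by simp, by rw [lprod_cons, b, gen_zero, one_mul],
        fun y hy => ⟨y, List.mem_cons_of_mem _ hy, rfl⟩⟩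
    obtain _ | ⟨y, l⟩ := l
    · exact (h (red_cons.2 ⟨b, by simp, a⟩)).elim
    have c : q.1 = y.1 := by_contra fun c => h (red_cons.2 ⟨b, by simpa using c, a⟩)
    exact ⟨(q.1, q.2 + y.2) :: l, by simp, by
      rw [lprod_cons, lprod_cons, lprod_cons, gen_add, ← c, mul_assoc],
      List.forall_mem_cons.2 ⟨⟨q, by simp, rfl⟩, fun z hz => ⟨z, by simp [hz], rfl⟩⟩⟩

theorem red_of_len (h : l.length ≤ len (lprod l)) : Red l := by_contra fun a => by
  obtain ⟨l', h1, h2, -⟩ := shorten a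
  have := len_le l'
  rw [h2] at this
  omega

theorem Red.len_eq (h : Red l) : len (lprod l) = l.length := by
  obtain ⟨l', h1, h2⟩ := exists_len (lprod l)
  rw [← h1, uniq (red_of_len (by rw [h2, h1])) h h2]

theorem nf (x : Gam p) : ∃ l, Red l ∧ lprod l = x :=
  let ⟨l, h1, h2⟩ := exists_len x
  ⟨l, red_of_len (by rw [h2, h1]), h2⟩

theorem btw_one {m : Gam p} (h : Red l) (b : Btw d0 1 m (lprod l)) : m = lprod (l.take (len m)) := by
  obtain ⟨k, k1, rfl⟩ := exists_len m
  obtain ⟨k', k2, k3⟩ := exists_len ((lprod k)⁻¹ * lprod l)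
  have e : lprod (k ++ k') = lprod l := by rw [lprod_append, k3, mul_inv_cancel_left]
  rw [Btw, d0_one, d0_one, d0] at b
  rw [← uniq (red_of_len (by rw [e, List.length_append]; omega)) h e, ← k1, List.take_left]

theorem ab_red {c : Fin 3} (h : Red l) (a : lprod l ∈ AB c) : ∀ q ∈ l, q.1 ≠ c := by
  have h1 : ∀ x ∈ AB (p := p) c, ∃ k, lprod k = x ∧ ∀ q ∈ k, q.1 ≠ c := fun x hx => by
    induction hx using Subgroup.closure_induction with
    | mem x hx =>
      obtain ⟨i, b, d, rfl⟩ := hx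
      exact ⟨[(i, b)], by simp [lprod], by simpa using d⟩
    | one => exact ⟨[], rfl, by simp⟩
    | mul x y _ _ hx hy =>
      obtain ⟨k, rfl, d⟩ := hx
      obtain ⟨k', rfl, d'⟩ := hy
      exact ⟨k ++ k', lprod_append _ _, List.forall_mem_append.2 ⟨d, d'⟩⟩
    | inv x _ hx =>
      obtain ⟨k, rfl, d⟩ := hx
      exact ⟨_, lprod_inv k, by simpa only [List.mem_reverse, List.forall_mem_map] using d⟩
  obtain ⟨k, k1, k2⟩ := h1 _ a
  induction hn : k.length using Nat.strong_induction_on generalizing k with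
  | _ n ih =>
    by_cases b : Red k
    · exact uniq b h k1 ▸ k2
    · obtain ⟨k', d1, d2, d3⟩ := shorten b
      exact ih _ (hn ▸ d1) k' (d2.trans k1)
        (fun q hq => (d3 q hq).elim fun q' e => e.2 ▸ k2 q' e.1) rfl

theorem mem_ab {c : Fin 3} (h : ∀ q ∈ l, q.1 ≠ c) : lprod l ∈ AB c :=
  list_prod_mem fun x hx => by
    obtain ⟨q, hq, rfl⟩ := List.mem_map.1 hx
    exact Subgroup.subset_closure ⟨_, _, h q hq, rfl⟩

theorem d_df (h : Red l) (h' : Red l') (e : Df l l') :
    d0 (lprod l) (lprod l') = l.length + l'.length := by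
  rw [d0, ← lprod_inv, ← lprod_append, Red.len_eq]
  · simp
  refine ⟨List.forall_mem_append.2 ⟨by
    simpa only [List.mem_reverse, List.forall_mem_map, neg_ne_zero] using h.1, h'.1⟩,
    List.IsChain.append
    (List.isChain_reverse.2 ((List.isChain_map _).2 (h.2.imp fun _ _ a => a.symm))) h'.2 ?_⟩
  rw [List.getLast?_reverse, List.head?_map]
  intro x hx y hy
  obtain ⟨q, a, rfl⟩ := Option.mem_map.1 hx
  exact e q a y hy

theorem d_le (x y : Gam p) : d0 x y ≤ len x + len y := (len_mul_le _ _).trans_eq (by rw [len_inv])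

theorem d_same {q q' : Fin 3 × ZMod p} (e : q.1 = q'.1) :
    d0 (lprod (q :: l)) (lprod (q' :: l')) = d0 (lprod l) (lprod ((q.1, -q.2 + q'.2) :: l')) := by
  rw [lprod_cons, lprod_cons, lprod_cons, gen_add, gen_neg, ← e, d0, d0, mul_inv_rev]
  simp only [mul_assoc]

theorem d_ndf (e : ¬Df l l') : d0 (lprod l) (lprod l') < l.length + l'.length := by
  obtain _ | ⟨q, l⟩ := l
  · exact (e (by simp [Df])).elim
  obtain _ | ⟨q', l'⟩ := l'
  · exact (e (by simp [Df])).elim
  rw [d_same (by simpa [Df] using e)]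
  have a := d_le (lprod l) (lprod ((q.1, -q.2 + q'.2) :: l'))
  have b := len_le l
  have c := len_le ((q.1, -q.2 + q'.2) :: l')
  simp only [List.length_cons] at c ⊢
  omega

theorem lower (h : Red l) (h' : Red l') : ∃ n, n ≤ l.length ∧ n ≤ l'.length ∧
    l.take n = l'.take n ∧ l.length + l'.length ≤ d0 (lprod l) (lprod l') + 2 * n + 1 := by
  induction l generalizing l' with
  | nil => exact ⟨0, le_rfl, Nat.zero_le _, rfl, by rw [d_df h h' (by simp [Df])]; omega⟩
  | cons q l ih =>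
    by_cases e : Df (q :: l) l'
    · exact ⟨0, Nat.zero_le _, Nat.zero_le _, rfl, by rw [d_df h h' e]; omega⟩
    obtain _ | ⟨q', l'⟩ := l'
    · exact (e (by simp [Df])).elim
    have a : q.1 = q'.1 := by simpa [Df] using e
    obtain ⟨-, b, c⟩ := red_cons.1 h
    obtain ⟨-, b', c'⟩ := red_cons.1 h'
    by_cases d : q.2 = q'.2
    · obtain rfl : q = q' := Prod.ext a d
      obtain ⟨n, n1, n2, n3, n4⟩ := ih c c'
      refine ⟨n + 1, by simpa, by simpa, by simpa, ?_⟩
      rw [lprod_cons, lprod_cons, d0_mul, List.length_cons, List.length_cons]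
      omega
    · refine ⟨0, Nat.zero_le _, Nat.zero_le _, rfl, ?_⟩
      rw [d_same a, d_df c (red_cons.2 ⟨fun z => d (neg_add_eq_zero.1 z), a ▸ b', c'⟩)
        fun x hx y hy => by
          obtain rfl : _ = y := Option.some.inj hy
          exact (b x hx).symm]
      simp only [List.length_cons]
      omega

theorem upper {n : ℕ} (a : n ≤ l.length) (b : n ≤ l'.length) (e : l.take n = l'.take n) :
    d0 (lprod l) (lprod l') + 2 * n ≤ l.length + l'.length := by
  have c := d_le (lprod (l.drop n)) (lprod (l'.drop n))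
  rw [← d0_mul (lprod (l.take n)), ← lprod_append, List.take_append_drop, e, ← lprod_append,
    List.take_append_drop] at c
  have d := len_le (l.drop n)
  have d' := len_le (l'.drop n)
  rw [List.length_drop] at d d'
  omega

theorem d_symm (x y : Gam p) : d0 x y = d0 y x := by rw [d0, d0, ← len_inv]; simp

theorem four (x y z : Gam p) :
    d0 x y + len z ≤ max (d0 x z + len y) (len x + d0 y z) + 2 * 2 := by
  obtain ⟨a, ha, rfl⟩ := nf x
  obtain ⟨b, hb, rfl⟩ := nf y
  obtain ⟨c, hc, rfl⟩ := nf z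
  obtain ⟨n, n1, -, n3, n4⟩ := lower ha hc
  obtain ⟨m, m1, -, m3, m4⟩ := lower hb hc
  have := upper (l := a) (l' := b) (n := min n m) (by omega) (by omega) (by
    have e := congrArg (List.take m) n3
    have e' := congrArg (List.take n) m3
    simp only [List.take_take] at e e'
    rw [e', min_comm, e])
  rw [ha.len_eq, hb.len_eq, hc.len_eq]
  omega

theorem d_right (x w : Gam p) : d0 x w = len (w⁻¹ * x) := d_symm x w

theorem cross {k : List (Fin 3 × ZMod p)} (h : Red l) (h' : Red l')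
    (a : d0 (lprod l) (lprod l') < l.length) (e : Df l k) : Df l' k := fun q hq y hy c => by
  have b : ¬Df l l' := fun b => by
    rw [d_df h h' b] at a
    omega
  exact b fun z hz w hw d => e z hz y hy (by rw [d, ← c, Option.mem_unique hw hq])

end Len

open Len

theorem lenS : LenStmt := by
  intro p
  refine ⟨⟨fun x => by simp [d0, len_one], d_symm, fun x y z => ?_, fun x y i hi => ?_,
    fun x y z w => ?_⟩, fun l a b => Red.len_eq ⟨a, b⟩, fun x m m' y a b c => ?_,
    fun c x m a b => ?_, fun x x' y y' m a b c => ?_, fun c i a b d =>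
      ab_red (l := [(i, a)]) ⟨by simpa, by simp⟩ (by simpa [lprod] using d) (i, a) (by simp)⟩
  · simpa [d0, mul_assoc] using len_mul_le (x⁻¹ * y) (y⁻¹ * z)
  · obtain ⟨a, b, h1, h2, h3⟩ := len_split (x⁻¹ * y) hi
    have e : y = x * a * b := by rw [mul_assoc, ← h1, mul_inv_cancel_left]
    refine ⟨x * a, by rw [d0_mul_right, h2], ?_⟩
    rw [Btw, d0_mul_right, d0, d0, h2, e, inv_mul_cancel_left, h3, ← e]
    exact Nat.add_sub_cancel' hi
  · have := four (w⁻¹ * x) (w⁻¹ * y) (w⁻¹ * z)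
    rwa [d0_mul, d0_mul, d0_mul, ← d_right, ← d_right, ← d_right] at this
  · obtain ⟨l, hl, e⟩ := nf (x⁻¹ * y)
    have k : ∀ m, Btw d0 x m y → x⁻¹ * m = lprod (l.take (d0 x m)) := fun m h =>
      btw_one hl (by rwa [e, Btw, d0_mul, d0_one, d0_one])
    exact mul_left_cancel ((k m a).trans (c ▸ (k m' b).symm))
  · obtain ⟨l, hl, rfl⟩ := nf x
    rw [btw_one hl b]
    exact mem_ab fun q hq => ab_red hl a q (List.mem_of_mem_take hq)
  · obtain ⟨l, hl, e⟩ := nf (m⁻¹ * x)
    obtain ⟨l', hl', e'⟩ := nf (m⁻¹ * x')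
    obtain ⟨k, hk, f⟩ := nf (m⁻¹ * y)
    obtain ⟨k', hk', f'⟩ := nf (m⁻¹ * y')
    rw [Btw, d_right, d0, ← d0_mul m⁻¹, ← e, ← f, hl.len_eq, hk.len_eq] at a
    rw [d_right x m, ← d0_mul m⁻¹, ← e, ← e', hl.len_eq] at b
    rw [d0.eq_1 m, ← d0_mul m⁻¹, ← f, ← f', hk.len_eq] at c
    rw [Btw, d_right, d0, ← d0_mul m⁻¹, ← e', ← f', hl'.len_eq, hk'.len_eq]
    have s : ∀ {a b : List (Fin 3 × ZMod p)}, Df a b → Df b a := fun h q hq y hy =>
      (h y hy q hq).symm
    exact (d_df hl' hk' (s (cross hk hk' c (s (cross hl hl' b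
      (by_contra fun n => (d_ndf n).ne' a)))))).symm

end Pool.Agent.MP_735563_an.H2
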