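import Pool.Agent.MP_735563_an.H2.Spec1

set_option autoImplicit false

/-! Gluing two coset spaces along a common part. -/

namespace Pool.Agent.MP_735563_an.H2

namespace Patch

variable {p : ℕ}

/-- the gluing relation -/
def Rel (K : Bool → Subgroup (Gam p)) (UB : Set (Gam p)) (x y : Bool × Gam p) : Prop :=
  (x.1 = y.1 ∧ y.2 * x.2⁻¹ ∈ K x.1) ∨ ∃ b ∈ UB, b * x.2⁻¹ ∈ K x.1 ∧ b * y.2⁻¹ ∈ K y.1

theorem rel_same {K : Bool → Subgroup (Gam p)} {UB : Set (Gam p)} {t : Bool} {u v : Gam p}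
    (h : Rel K UB (t, u) (t, v)) : v * u⁻¹ ∈ K t := by
  rcases h with h | ⟨b, -, h1, h2⟩
  · exact h.2
  · have := (K t).mul_mem ((K t).inv_mem h2) h1
    simpa [mul_assoc] using this

/-- the gluing relation as a setoid -/
def st (K : Bool → Subgroup (Gam p)) (UB : Set (Gam p))
    (hB : ∀ t t', ∀ b ∈ UB, ∀ k ∈ K t, k * b ∈ UB → k ∈ K t') : Setoid (Bool × Gam p) where
  r := Rel K UB
  iseqv := by
    refine ⟨fun x => Or.inl ⟨rfl, by simp⟩, ?_, ?_⟩
    · rintro ⟨t, u⟩ ⟨t', u'⟩ (⟨h, h1⟩ | ⟨b, hb, h1, h2⟩)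
      · obtain rfl : t = t' := h
        exact Or.inl ⟨rfl, by simpa using (K t).inv_mem h1⟩
      · exact Or.inr ⟨b, hb, h2, h1⟩
    · rintro ⟨t, u⟩ ⟨t', u'⟩ ⟨t'', u''⟩ (⟨h, h1⟩ | ⟨b, hb, h1, h2⟩) (⟨h', h3⟩ | ⟨b', hb', h3, h4⟩)
      · obtain rfl : t = t' := h
        obtain rfl : t = t'' := h'
        exact Or.inl ⟨rfl, by simpa [mul_assoc] using (K t).mul_mem h3 h1⟩
      · obtain rfl : t = t' := h
        exact Or.inr ⟨b', hb', by simpa [mul_assoc] using (K t).mul_mem h3 h1, h4⟩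
      · obtain rfl : t' = t'' := h'
        exact Or.inr ⟨b, hb, h1, by
          simpa [mul_assoc] using (K t').mul_mem h2 ((K t').inv_mem h3)⟩
      · have h5 : b' * b⁻¹ ∈ K t' := by
          simpa [mul_assoc] using (K t').mul_mem h3 ((K t').inv_mem h2)
        have h6 := hB t' t b hb _ h5 (by simpa using hb')
        exact Or.inr ⟨b', hb', by simpa [mul_assoc] using (K t).mul_mem h6 h1, h4⟩

theorem core (K : Bool → Subgroup (Gam p)) (S U : Bool → Set (Gam p)) (UB : Set (Gam p))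
    (x₀ : Gam p) (hx : ∀ t, x₀ ∈ S t) (hxB : x₀ ∈ UB)
    (hS : ∀ t, ∀ k ∈ K t, ∀ u ∈ S t, k * u ∈ S t) (hU : ∀ t, ∀ k ∈ K t, ∀ u ∈ U t, k * u ∈ U t)
    (hq : ∀ t, ∀ u ∈ S t, ∀ q, Btw d0 x₀ q u → ∀ i a, q * gen i a ∈ U t)
    (hB : ∀ t t', ∀ b ∈ UB, ∀ k ∈ K t, k * b ∈ UB → k ∈ K t')
    (hP : ∀ b ∈ UB, ∀ i, (∀ t a, b * gen i a ∈ U t) → ∀ a, b * gen i a ∈ UB)
    (H : Subgroup (Gam p)) (hH : ∀ L : Subgroup (Gam p), (∀ t, K t ≤ L) → H ≤ L)
    (h : Gam p) (hh : h ∈ H) (t t' : Bool) (u : Gam p) (hu : u ∈ S t) (hu' : h * u ∈ S t') :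
    Rel K UB (t, u) (t', h * u) := by
  classical
  let s := st K UB hB
  let Z := Quotient s
  let mk : Bool × Gam p → Z := Quotient.mk s
  have mk_eq : ∀ x y, mk x = mk y ↔ Rel K UB x y := fun x y => Quotient.eq
  let Good : Fin 3 → Bool × Gam p → Prop := fun i x => ∀ a, x.2 * gen i a ∈ U x.1
  have wd : ∀ i a x y, Good i x → Good i y → mk x = mk y →
      mk (x.1, x.2 * gen i a) = mk (y.1, y.2 * gen i a) := by
    rintro i a ⟨t, u⟩ ⟨t', u'⟩ gx gy hxy
    rw [mk_eq] at hxy ⊢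
    by_cases htt : t = t'
    · subst htt
      exact Or.inl ⟨rfl, by simpa [mul_assoc] using rel_same hxy⟩
    · obtain ⟨b, hb, h1, h2⟩ := hxy.resolve_left fun h => htt h.1
      have g1 : ∀ c, b * gen i c ∈ U t := fun c => by
        simpa [mul_assoc] using hU t _ h1 _ (gx c)
      have g2 : ∀ c, b * gen i c ∈ U t' := fun c => by
        simpa [mul_assoc] using hU t' _ h2 _ (gy c)
      refine Or.inr ⟨b * gen i a, hP b hb i (fun r c => ?_) a, by simpa [mul_assoc] using h1,
        by simpa [mul_assoc] using h2⟩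
      by_cases hr : r = t
      · exact hr ▸ g1 c
      · have : r = t' := by
          revert hr htt
          cases r <;> cases t <;> cases t' <;> simp
        exact this ▸ g2 c
  let f : Fin 3 → ZMod p → Z → Z := fun i a z =>
    if hz : ∃ x, Good i x ∧ mk x = z then mk (hz.choose.1, hz.choose.2 * gen i a) else z
  have f_good : ∀ i a x, Good i x → f i a (mk x) = mk (x.1, x.2 * gen i a) := by
    intro i a x gx
    have hz : ∃ y, Good i y ∧ mk y = mk x := ⟨x, gx, rfl⟩
    simp only [f, dif_pos hz]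
    exact wd i a _ _ hz.choose_spec.1 gx hz.choose_spec.2
  have f_bad : ∀ i a z, (¬ ∃ x, Good i x ∧ mk x = z) → f i a z = z := fun i a z hz => dif_neg hz
  have f_zero : ∀ i z, f i 0 z = z := by
    intro i z
    by_cases hz : ∃ x, Good i x ∧ mk x = z
    · obtain ⟨x, gx, rfl⟩ := hz
      rw [f_good i 0 x gx, gen_zero, mul_one]
    · exact f_bad i 0 z hz
  have f_add : ∀ i a b z, f i (a + b) z = f i b (f i a z) := by
    intro i a b z
    by_cases hz : ∃ x, Good i x ∧ mk x = z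
    · obtain ⟨x, gx, rfl⟩ := hz
      have g' : Good i (x.1, x.2 * gen i a) := fun c => by
        have := gx (a + c)
        rwa [gen_add, ← mul_assoc] at this
      rw [f_good i _ x gx, f_good i a x gx, f_good i b _ g', gen_add, mul_assoc]
    · rw [f_bad i _ z hz, f_bad i a z hz, f_bad i b z hz]
  let F : ∀ _ : Fin 3, Multiplicative (ZMod p) →* (Function.End Z)ᵐᵒᵖ := fun i =>
    { toFun := fun a => MulOpposite.op (f i (Multiplicative.toAdd a))
      map_one' := congrArg MulOpposite.op (funext (f_zero i))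
      map_mul' := fun a b => congrArg MulOpposite.op (funext (f_add i _ _)) }
  let φ : Gam p →* (Function.End Z)ᵐᵒᵖ := Monoid.CoprodI.lift F
  let act : Z → Gam p → Z := fun z g => (φ g).unop z
  have act_one : ∀ z, act z 1 = z := fun z => by
    simp only [act, map_one]
    rfl
  have act_mul : ∀ z g g', act z (g * g') = act (act z g) g' := fun z g g' => by
    simp only [act, map_mul]
    rfl
  have act_gen : ∀ z i a, act z (gen i a) = f i a z := fun z i a => by
    simp only [act, φ, gen, Monoid.CoprodI.lift_of]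
    rfl
  let z₀ : Z := mk (true, x₀)
  have hz₀ : ∀ r, mk (r, x₀) = z₀ := fun r =>
    (mk_eq _ _).2 (Or.inr ⟨x₀, hxB, by simp, by simp⟩)
  have key : ∀ r, ∀ v ∈ S r, ∀ n y, len y = n → Btw d0 x₀ (x₀ * y) v →
      act z₀ y = mk (r, x₀ * y) := by
    intro r v hv n
    induction n with
    | zero =>
      intro y hy _
      rw [len_eq_zero hy, act_one, mul_one, hz₀]
    | succ n ih =>
      intro y hy hb
      obtain ⟨y', i, a, rfl, hy'⟩ := len_succ hy
      have hb' : Btw d0 x₀ (x₀ * y') v := by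
        unfold Btw at hb ⊢
        rw [d0_mul_right] at hb ⊢
        have e1 := len_mul_le (gen i a) ((x₀ * (y' * gen i a))⁻¹ * v)
        have e2 := len_mul_le y' ((x₀ * y')⁻¹ * v)
        have e3 := len_gen_le i a
        have e4 : gen i a * ((x₀ * (y' * gen i a))⁻¹ * v) = (x₀ * y')⁻¹ * v := by group
        have e5 : y' * ((x₀ * y')⁻¹ * v) = x₀⁻¹ * v := by group
        rw [e4] at e1
        rw [e5] at e2
        unfold d0 at hb ⊢
        omega
      rw [act_mul, ih y' hy' hb', act_gen, f_good i a _ (hq r v hv _ hb' i), mul_assoc]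
  have key' : ∀ r, ∀ v ∈ S r, act z₀ (x₀⁻¹ * v) = mk (r, v) := by
    intro r v hv
    have := key r v hv _ (x₀⁻¹ * v) rfl (by simp [Btw, d0, len_one])
    simpa using this
  let L : Subgroup (Gam p) :=
    { carrier := {g | act z₀ (x₀⁻¹ * g * x₀) = z₀}
      one_mem' := by simp [act_one]
      mul_mem' := fun {a b} ha hb => by
        have e : x₀⁻¹ * (a * b) * x₀ = (x₀⁻¹ * a * x₀) * (x₀⁻¹ * b * x₀) := by group
        change act z₀ _ = z₀
        rw [e, act_mul, ha, hb]
      inv_mem' := fun {a} ha => by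
        have e : (x₀⁻¹ * a * x₀) * (x₀⁻¹ * a⁻¹ * x₀) = 1 := by group
        have := act_mul z₀ (x₀⁻¹ * a * x₀) (x₀⁻¹ * a⁻¹ * x₀)
        rw [e, act_one, ha] at this
        exact this.symm }
  have hL : act z₀ (x₀⁻¹ * h * x₀) = z₀ := by
    refine hH L (fun r k hk => ?_) hh
    change act z₀ _ = z₀
    rw [mul_assoc, key' r _ (hS r k hk _ (hx r)), ← hz₀ r, mk_eq]
    exact Or.inl ⟨rfl, by simpa using (K r).inv_mem hk⟩
  rw [← mk_eq, ← key' t u hu, ← key' t' _ hu']
  have e : x₀⁻¹ * (h * u) = (x₀⁻¹ * h * x₀) * (x₀⁻¹ * u) := by group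
  rw [e, act_mul z₀ (x₀⁻¹ * h * x₀), hL]

end Patch

theorem patch : PatchStmt := by
  intro p K₁ K₂ KB S₁ S₂ U₁ U₂ UB x₀ b1 b2 x1 x2 xB _ _ _ _ s1 s2 u1 u2 q1 q2 i1 i2 hP
  have c := Patch.core (fun t => cond t K₁ K₂) (fun t => cond t S₁ S₂) (fun t => cond t U₁ U₂) UB
    x₀ (fun t => by cases t <;> assumption) xB (fun t => by cases t <;> assumption)
    (fun t => by cases t <;> assumption) (fun t => by cases t <;> assumption)
    (fun t t' b hb k hk hkb => by
      have : k ∈ KB := by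
        cases t
        · exact i2 b hb k hk hkb
        · exact i1 b hb k hk hkb
      cases t'
      · exact b2 this
      · exact b1 this)
    (fun b hb i h => hP b hb i (h true) (h false)) (K₁ ⊔ K₂)
    fun L hL => sup_le (hL true) (hL false)
  refine ⟨fun h hh u hu hu' => ?_, fun h hh u hu hu' => ?_, fun h hh u hu hu' => ?_⟩
  · simpa using Patch.rel_same (c h hh true true u hu hu')
  · simpa using Patch.rel_same (c h hh false false u hu hu')
  · exact (c h hh true false u hu hu').resolve_left fun h => by simp at h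

end Pool.Agent.MP_735563_an.H2
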