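import Pool.Agent.MP_735563_an.H2.SC

set_option autoImplicit false

/-! Row Poly: a polygonal path can be closed up. -/

namespace Pool.Agent.MP_735563_an.H2

namespace Poly

section Gen

variable {V : Type} {d : V → V → ℕ} {δ : ℕ}

theorem chain (M : Met d δ) (x : ℕ → V) (s : ℕ → ℤ) (n : ℕ)
    (hs : ∀ k < n, s k + d (x k) (x (k + 1)) ≤ s (k + 1)) (a : ℕ) :
    ∀ b, a ≤ b → b ≤ n → s a + d (x a) (x b) ≤ s b := by
  intro b hab
  induction b, hab using Nat.le_induction with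
  | base => intro _; rw [M.refl]; simp
  | succ b hab ih =>
    intro hb
    have h1 := ih (by omega)
    have h2 := hs b (by omega)
    have h3 := M.tri (x a) (x b) (x (b + 1))
    omega

theorem chainR (M : Met d δ) (x : ℕ → V) (R a : ℕ) :
    ∀ b, a ≤ b → (∀ k, a ≤ k → k < b → d (x k) (x (k + 1)) ≤ R) →
      d (x a) (x b) ≤ (b - a) * R := by
  intro b hab
  induction b, hab using Nat.le_induction with
  | base => intro _; rw [M.refl]; simp
  | succ b hab ih =>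
    intro hb
    have h1 := ih (fun k h1 h2 => hb k h1 (by omega))
    have h2 := hb b hab (by omega)
    have h3 := M.tri (x a) (x b) (x (b + 1))
    rw [show b + 1 - a = (b - a) + 1 by omega, Nat.succ_mul]
    omega

theorem chain13 (M : Met d δ) (x : ℕ → V) (R a b : ℕ) (hab : a ≤ b) (hb : b ≤ 13)
    (h : ∀ k, a ≤ k → k < b → d (x k) (x (k + 1)) ≤ R) : d (x a) (x b) ≤ 13 * R :=
  (chainR M x R a b hab h).trans (Nat.mul_le_mul_right R (by omega))

theorem lip (M : Met d δ) {C : Set V} {κ : ℕ} (hC : QC d C κ) {y y' c c' : V}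
    (hc : Prj d C y c) (hc' : Prj d C y' c') : d c c' ≤ d y y' + 4 * κ + 18 * δ + 2 := by
  have := M.bridge hC hc hc'
  omega

/-- a segment whose ends have far projections passes near both projections -/
theorem cut (M : Met d δ) {C : Set V} {κ : ℕ} (hC : QC d C κ) {y y' c c' : V}
    (hc : Prj d C y c) (hc' : Prj d C y' c') (hf : 4 * κ + 18 * δ + 2 < d c c') :
    d y c + d c c' + d c' y' ≤ d y y' + 4 * κ + 18 * δ + 2 ∧
    (∃ m, Btw d y m y' ∧ d y m = d y c ∧ d m c ≤ 4 * κ + 20 * δ + 2) ∧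
    (∃ m, Btw d y m y' ∧ d m y' = d c' y' ∧ d m c' ≤ 4 * κ + 20 * δ + 2) := by
  have h0 : d y c + d c c' + d c' y' ≤ d y y' + 4 * κ + 18 * δ + 2 := by
    have := M.bridge hC hc hc'
    omega
  refine ⟨h0, ?_, ?_⟩
  · obtain ⟨m, h1, h2⟩ := M.geo y y' (d y c) (by omega)
    refine ⟨m, h2, h1, ?_⟩
    have := M.near (a := c) (r := 4 * κ + 18 * δ + 2) (r' := 0)
      (by have := M.tri c c' y'; omega) h2 (by omega) (by omega)
    omega
  · have s1 := M.symm y' y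
    have s2 := M.symm y' c'
    obtain ⟨m, h1, h2⟩ := M.geo y' y (d y' c') (by omega)
    refine ⟨m, M.btw_symm h2, by rw [M.symm m y', h1, s2], ?_⟩
    have := M.near (a := c') (r := 4 * κ + 18 * δ + 2) (r' := 0)
      (by have := M.tri c' c y; have := M.symm c' c; have := M.symm c y; omega) h2
      (by omega) (by omega)
    omega

/-- a point between two points near a quasi convex set is near the set -/
theorem nearC (M : Met d δ) {C : Set V} {κ r : ℕ} (hC : QC d C κ) {y y' c c' m : V}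
    (hc : c ∈ C) (hc' : c' ∈ C) (h1 : d y c ≤ r) (h2 : d y' c' ≤ r) (hm : Btw d y m y') :
    ∃ e ∈ C, d m e ≤ r + κ + 8 * δ := by
  obtain ⟨q, h3 | h3 | h3, h4⟩ := M.slim4 hm c c'
  · refine ⟨c, hc, ?_⟩
    unfold Btw at h3; have := M.tri m q c; omega
  · obtain ⟨e, he, h5⟩ := hC c hc c' hc' q h3
    exact ⟨e, he, by have := M.tri m q e; omega⟩
  · refine ⟨c', hc', ?_⟩
    unfold Btw at h3
    have := M.tri m q c'; have := M.symm q c'; have := M.symm c' y'; omega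

end Gen

section Grp

variable {G : Type} [Group G] {d : G → G → ℕ} {K G' : Subgroup G} {𝒯 : Set (Set G × Subgroup G)}
  {δ κ Δ g D : ℕ} {Side : G → G → Prop} {Touch : Set G × Subgroup G → Prop} {X₀ v w X₁ : G}

theorem prj_cj (S : SC d K G' 𝒯 δ κ Δ g D) {h : G} (hh : h ∈ G') (T : Set G × Subgroup G)
    {y c : G} (hc : Prj d T.1 y c) : Prj d (cj h T).1 (h * y) (h * c) := by
  refine ⟨⟨c, hc.1, rfl⟩, ?_⟩
  rintro _ ⟨e, he, rfl⟩
  rw [S.inv h hh, S.inv h hh]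
  exact hc.2 e he

theorem btw_inv (S : SC d K G' 𝒯 δ κ Δ g D) {h : G} (hh : h ∈ G') {x m y : G}
    (hm : Btw d x m y) : Btw d (h * x) (h * m) (h * y) := by
  unfold Btw at *
  rw [S.inv h hh, S.inv h hh, S.inv h hh]
  exact hm

theorem triv_inv (S : SC d K G' 𝒯 δ κ Δ g D) {u : ℕ} (O : SideOK d G' 𝒯 u Side Touch) {h : G}
    (hh : h ∈ G') {x y : G} (ht : Triv d 𝒯 u Side Touch x y) :
    Triv d 𝒯 u Side Touch (h * x) (h * y) := by
  obtain ⟨h1, h2⟩ := ht
  refine ⟨by rw [S.inv h hh]; exact h1, ?_⟩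
  rcases h2 with h2 | ⟨T, hT, h2, c, hc, h3⟩
  · exact Or.inl (O.inv h hh _ _ h2)
  · exact Or.inr ⟨cj h T, S.conj h hh T hT, O.tinv h hh T hT h2, h * c, ⟨c, hc, rfl⟩,
      by rw [S.inv h hh]; exact h3⟩

theorem gap_inv (S : SC d K G' 𝒯 δ κ Δ g D) {u : ℕ} (O : SideOK d G' 𝒯 u Side Touch) {h : G}
    (hh : h ∈ G') {x y : G} (ht : Gap d 𝒯 u Touch x y) : Gap d 𝒯 u Touch (h * x) (h * y) := by
  obtain ⟨T, hT, h1, ⟨c, hc, h2⟩, ⟨c', hc', h3⟩, h4⟩ := ht
  refine ⟨cj h T, S.conj h hh T hT, O.tinv h hh T hT h1, ⟨h * c, ⟨c, hc, rfl⟩, ?_⟩,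
    ⟨h * c', ⟨c', hc', rfl⟩, ?_⟩, fun ν hν => ?_⟩
  · rw [S.inv h hh]; exact h2
  · rw [S.inv h hh]; exact h3
  · have h5 := h4 _ (mem_cjs.1 hν)
    rw [show ν * (h * y) = h * (h⁻¹ * ν * h * y) by group, S.inv h hh, S.inv h hh]
    exact h5

/-- the analysis of an active slot -/
theorem act (S : SC d K G' 𝒯 δ κ Δ g D) (O : SideOK d G' 𝒯 (δ + κ + 1) Side Touch)
    (hX : d X₀ X₁ = d X₀ v + d v w + d w X₁) (hmin : ∀ h ∈ G', d X₀ X₁ ≤ d X₀ (h * X₁))
    {x : ℕ → G} {h : G} (P : IsPoly d G' 𝒯 (δ + κ + 1) Side Touch X₀ v w X₁ x h)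
    {T : Set G × Subgroup G} (hT : T ∈ 𝒯) {k : ℕ} (hk : k ≤ 12) {a b : G}
    (ha : Prj d T.1 (x k) a) (hb : Prj d T.1 (x (k + 1)) b)
    (hf : 1000 * (δ + κ + Δ + 1) < d a b) :
    (∀ ν ∈ T.2, d (x k) (x (k + 1)) ≤ d (x k) (ν * x (k + 1))) ∧
    (∃ p, Btw d (x k) p (x (k + 1)) ∧ d p a ≤ 100 * (δ + κ + 1) ∧ (k % 2 = 1 → p = x k)) ∧
    (∃ q, Btw d (x k) q (x (k + 1)) ∧ d q b ≤ 100 * (δ + κ + 1) ∧
      (k % 2 = 1 → q = x (k + 1))) ∧
    (1 ≤ k → k ≤ 11 → Touch T ∧ (k % 2 = 0 → Side (x k) (x (k + 1)))) := by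
  have M := S.met
  obtain ⟨hh, e0, e13, b0, b12, hmid⟩ := P
  obtain ⟨c0, ⟨p, p1, -, p3⟩, ⟨q, q1, -, q3⟩⟩ := cut M (S.qc T hT) ha hb (by omega)
  by_cases hk0 : k = 0
  · subst hk0
    refine ⟨fun ν hν => ?_, ⟨p, p1, by omega, by omega⟩, ⟨q, q1, by omega, by omega⟩, by omega⟩
    have hν' := (S.sub T hT).2 hν
    have h1 := hmin ν hν'
    have h2 := M.tri X₀ v (ν * X₁)
    have h3 := M.tri v w (ν * X₁)
    have h4 := M.tri w (ν * x 1) (ν * X₁)
    have h5 := S.inv ν hν' (x 1) X₁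
    unfold Btw at b0
    rw [e0]
    show d w (x 1) ≤ d w (ν * x 1)
    omega
  by_cases hk12 : k = 12
  · subst hk12
    refine ⟨fun ν hν => ?_, ⟨p, p1, by omega, by omega⟩, ⟨q, q1, by omega, by omega⟩, by omega⟩
    have hν' := (S.sub T hT).2 hν
    have h1 := hmin (h⁻¹ * ν * h) (G'.mul_mem (G'.mul_mem (G'.inv_mem hh) hν') hh)
    have h2 := S.inv h hh X₀ (h⁻¹ * ν * h * X₁)
    rw [show h * (h⁻¹ * ν * h * X₁) = ν * h * X₁ by group] at h2
    have h3 := M.tri (h * X₀) (x 12) (ν * h * X₁)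
    have h4 := M.tri (x 12) (ν * h * v) (ν * h * X₁)
    have h5 := S.inv (ν * h) (G'.mul_mem hν' hh) v X₁
    have h6 := M.tri v w X₁
    have h7 := S.inv h hh X₀ v
    unfold Btw at b12
    show d (x 12) (x 13) ≤ d (x 12) (ν * x 13)
    rw [e13, ← mul_assoc]
    omega
  rcases hmid k (by omega) (by omega) with ht | ⟨ho, hg⟩ | ⟨he, hs⟩
  · exfalso
    have h1 := ht.1
    omega
  · obtain ⟨T', hT', t1, ⟨c, hc, t2⟩, ⟨c', hc', t3⟩, t4⟩ := hg
    have hTT : T = T' := by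
      by_contra hne
      obtain ⟨e, he, e1⟩ := nearC M (S.qc T' hT') hc hc' t2 t3 p1
      obtain ⟨e', he', e2⟩ := nearC M (S.qc T' hT') hc hc' t2 t3 q1
      have h1 := S.ov T hT T' hT' hne a ha.1 b hb.1 e he e' he'
        (by have := M.tri a p e; have := M.symm a p; omega)
        (by have := M.tri b q e'; have := M.symm b q; omega)
      omega
    subst hTT
    refine ⟨t4, ⟨x k, M.btw_left _ _, ?_, fun _ => rfl⟩, ⟨x (k + 1), M.btw_right _ _, ?_,
      fun _ => rfl⟩, fun _ _ => ⟨t1, by omega⟩⟩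
    · exact (ha.2 c hc).trans t2
    · exact (hb.2 c' hc').trans t3
  · refine ⟨fun ν hν => O.min _ _ hs ν ((S.sub T hT).2 hν), ⟨p, p1, by omega, by omega⟩,
      ⟨q, q1, by omega, by omega⟩, fun _ _ => ⟨?_, fun _ => hs⟩⟩
    have h1 := (O.sub _ _ p hs p1).1
    have h2 := (O.sub _ _ p h1 (M.btw_right _ _)).2
    exact O.touch p h2 T hT a ha.1 (by omega)

/-- only the two end slots active: impossible -/
theorem ends (S : SC d K G' 𝒯 δ κ Δ g D)
    (hX : d X₀ X₁ = d X₀ v + d v w + d w X₁) (hmin : ∀ h ∈ G', d X₀ X₁ ≤ d X₀ (h * X₁))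
    {x : ℕ → G} {h : G} (P : IsPoly d G' 𝒯 (δ + κ + 1) Side Touch X₀ v w X₁ x h)
    {T : Set G × Subgroup G} (hT : T ∈ 𝒯) {a : ℕ → G} (ha : ∀ k, Prj d T.1 (x k) (a k))
    (h0 : 1000 * (δ + κ + Δ + 1) < d (a 0) (a 1))
    (h12 : 1000 * (δ + κ + Δ + 1) < d (a 12) (a 13))
    (hm : d (a 1) (a 12) ≤ 13 * (1000 * (δ + κ + Δ + 1))) :
    d (a 0) (a 13) ≤ 10 ^ 5 * (δ + κ + Δ + 1) := by
  have M := S.met
  obtain ⟨hh, e0, e13, b0, b12, -⟩ := P
  obtain ⟨c0, -, ⟨q, q1, q2, q3⟩⟩ := cut M (S.qc T hT) (ha 0) (ha 1) (by omega)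
  obtain ⟨c1, ⟨p, p1, p2, p3⟩, -⟩ := cut M (S.qc T hT) (ha 12) (ha 13) (by omega)
  rw [e0] at c0 q1
  rw [e13] at c1 p1
  have h1 := hmin h⁻¹ (G'.inv_mem hh)
  have h2 := S.inv h hh X₀ (h⁻¹ * X₁)
  rw [mul_inv_cancel_left] at h2
  have h3 := M.tri (h * X₀) p X₁
  have h4 := M.tri p q X₁
  have h5 := M.tri (h * X₀) (x 12) p
  have h6 := M.tri q (x 1) X₁
  have h7 := S.inv h hh X₀ v
  have h8 := M.tri p (a 12) q
  have h9 := M.tri (a 12) (a 1) q
  have h10 := M.symm (a 12) (a 1)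
  have h11 := M.symm (a 1) q
  have h12 := M.tri (a 0) (a 1) (a 13)
  have h13 := M.tri (a 1) (a 12) (a 13)
  unfold Btw at b0 b12 q1 p1
  omega

/-- the new polygon -/
def newP (x : ℕ → G) (i o j : ℕ) (p q ν : G) (k : ℕ) : G :=
  if k ≤ i then x k else if k ≤ o then p else if k ≤ j then ν * q else ν * x k

theorem newP_1 {x : ℕ → G} {i o j : ℕ} {p q ν : G} {k : ℕ} (h : k ≤ i) :
    newP x i o j p q ν k = x k := by
  unfold newP; rw [if_pos h]

theorem newP_2 {x : ℕ → G} {i o j : ℕ} {p q ν : G} {k : ℕ} (h : i < k) (h' : k ≤ o) :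
    newP x i o j p q ν k = p := by
  unfold newP; rw [if_neg (by omega), if_pos h']

theorem newP_3 {x : ℕ → G} {i o j : ℕ} {p q ν : G} {k : ℕ} (h0 : i ≤ o) (h : o < k) (h' : k ≤ j) :
    newP x i o j p q ν k = ν * q := by
  unfold newP; rw [if_neg (by omega), if_neg (by omega), if_pos h']

theorem newP_4 {x : ℕ → G} {i o j : ℕ} {p q ν : G} {k : ℕ} (h0 : i ≤ o) (h : o ≤ j) (h' : j < k) :
    newP x i o j p q ν k = ν * x k := by
  unfold newP; rw [if_neg (by omega), if_neg (by omega), if_neg (by omega)]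

theorem rebuild (S : SC d K G' 𝒯 δ κ Δ g D) {u : ℕ} (O : SideOK d G' 𝒯 u Side Touch)
    {x : ℕ → G} {h : G} (P : IsPoly d G' 𝒯 u Side Touch X₀ v w X₁ x h)
    {T : Set G × Subgroup G} (hT : T ∈ 𝒯) (ht : Touch T) {i o j : ℕ} (hij : i < j) (hj : j ≤ 12)
    (ho : o % 2 = 1) (hoi : o = i ∨ (o = i + 1 ∧ i % 2 = 0)) {p q a b ν : G}
    (hp : Btw d (x i) p (x (i + 1))) (hq : Btw d (x j) q (x (j + 1))) (ha : a ∈ T.1)
    (hb : b ∈ T.1) (hpa : d p a ≤ 100 * u) (hqb : d q b ≤ 100 * u)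
    (hpi : i % 2 = 1 → p = x i) (hqj : j % 2 = 1 → q = x (j + 1))
    (hsi : 1 ≤ i → i % 2 = 0 → Side (x i) (x (i + 1)))
    (hsj : j ≤ 11 → j % 2 = 0 → Side (x j) (x (j + 1)))
    (hν : ν ∈ T.2) (hm : ∀ ν' ∈ T.2, d p (ν * q) ≤ d p (ν' * q)) :
    IsPoly d G' 𝒯 u Side Touch X₀ v w X₁ (newP x i o j p q ν) (ν * h) := by
  have M := S.met
  obtain ⟨hh, e0, e13, b0, b12, hmid⟩ := P
  have hν' := (S.sub T hT).2 hν
  have hio : i ≤ o := by omega
  have hoj : o ≤ j := by omega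
  have hb' : d (ν * q) (ν * b) ≤ 100 * u := by rw [S.inv ν hν']; exact hqb
  have hνb := S.pres T hT ν hν b hb
  have xo : newP x i o j p q ν o = p := by
    rcases hoi with h1 | h1
    · rw [newP_1 (by omega), hpi (by omega), h1]
    · exact newP_2 (by omega) le_rfl
  have xo1 : newP x i o j p q ν (o + 1) = ν * q := by
    by_cases h1 : o = j
    · rw [newP_4 hio hoj (by omega), hqj (by omega), h1]
    · exact newP_3 hio (by omega) (by omega)
  have tr : Triv d 𝒯 u Side Touch (ν * q) (ν * q) :=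
    ⟨M.refl _, Or.inr ⟨T, hT, ht, ν * b, hνb, hb'⟩⟩
  refine ⟨G'.mul_mem hν' hh, by rw [newP_1 (by omega), e0], ?_, ?_, ?_, fun k k1 k11 => ?_⟩
  · rw [newP_4 hio hoj (by omega), e13, mul_assoc]
  · by_cases h1 : 1 ≤ i
    · rw [newP_1 h1]; exact b0
    · obtain rfl : i = 0 := by omega
      rw [newP_2 (by omega) (by omega)]
      rw [e0] at hp
      exact (M.btw_trans_left b0 hp).1
  · rw [mul_assoc, mul_assoc]
    by_cases h1 : j ≤ 11
    · rw [newP_4 hio hoj (by omega)]; exact btw_inv S hν' b12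
    · obtain rfl : j = 12 := by omega
      rw [newP_3 hio (by omega) (by omega)]
      rw [e13] at hq
      exact btw_inv S hν' (M.btw_trans_right b12 hq).1
  by_cases c1 : k < i
  · rw [newP_1 (by omega), newP_1 (by omega)]; exact hmid k k1 k11
  by_cases c2 : k < o
  · obtain rfl : k = i := by omega
    rw [newP_1 le_rfl, newP_2 (by omega) (by omega)]
    exact Or.inr (Or.inr ⟨by omega, (O.sub _ _ p (hsi k1 (by omega)) hp).1⟩)
  by_cases c3 : k = o
  · subst c3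
    rw [xo, xo1]
    refine Or.inr (Or.inl ⟨ho, T, hT, ht, ⟨a, ha, hpa⟩, ⟨ν * b, hνb, hb'⟩, fun ν' hν'' => ?_⟩)
    rw [← mul_assoc]
    exact hm _ (T.2.mul_mem hν'' hν)
  by_cases c4 : k < j
  · rw [newP_3 hio (by omega) (by omega), newP_3 hio (by omega) (by omega)]
    exact Or.inl tr
  by_cases c5 : k = j
  · subst c5
    rw [newP_3 hio (by omega) le_rfl, newP_4 hio hoj (by omega)]
    by_cases c6 : k % 2 = 1
    · rw [← hqj c6]; exact Or.inl tr
    · exact Or.inr (Or.inr ⟨by omega,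
        O.inv ν hν' _ _ (O.sub _ _ q (hsj k11 (by omega)) hq).2⟩)
  rw [newP_4 hio hoj (by omega), newP_4 hio hoj (by omega)]
  rcases hmid k k1 k11 with h1 | ⟨h1, h2⟩ | ⟨h1, h2⟩
  · exact Or.inl (triv_inv S O hν' h1)
  · exact Or.inr (Or.inl ⟨h1, gap_inv S O hν' h2⟩)
  · exact Or.inr (Or.inr ⟨h1, O.inv ν hν' _ _ h2⟩)

/-- the perimeter drops -/
theorem drop (S : SC d K G' 𝒯 δ κ Δ g D) {x : ℕ → G} {s : ℕ → ℤ}
    (hs : ∀ k < 13, s k + d (x k) (x (k + 1)) ≤ s (k + 1)) {i o j : ℕ} (hij : i < j) (hj : j ≤ 12)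
    (ho : o % 2 = 1) (hoi : o = i ∨ (o = i + 1 ∧ i % 2 = 0)) {p q ν : G}
    (hp : Btw d (x i) p (x (i + 1))) (hq : Btw d (x j) q (x (j + 1)))
    (hpi : i % 2 = 1 → p = x i) (hqj : j % 2 = 1 → q = x (j + 1))
    (hν : ν ∈ G') (hm : d p (ν * q) < d p q) :
    ∃ s' : ℕ → ℤ, s' 13 - s' 0 < s 13 - s 0 ∧ ∀ k < 13,
      s' k + d (newP x i o j p q ν k) (newP x i o j p q ν (k + 1)) ≤ s' (k + 1) := by
  have M := S.met
  have hio : i ≤ o := by omega
  have hoj : o ≤ j := by omega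
  have xo : newP x i o j p q ν o = p := by
    rcases hoi with h1 | h1
    · rw [newP_1 (by omega), hpi (by omega), h1]
    · exact newP_2 (by omega) le_rfl
  have xo1 : newP x i o j p q ν (o + 1) = ν * q := by
    by_cases h1 : o = j
    · rw [newP_4 hio hoj (by omega), hqj (by omega), h1]
    · exact newP_3 hio (by omega) (by omega)
  have key : s i + d (x i) p + d p (ν * q) + d q (x (j + 1)) ≤ s (j + 1) - 1 := by
    have h1 := hs i (by omega)
    have h2 := hs j (by omega)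
    have h3 := chain M x s 13 hs (i + 1) j (by omega) (by omega)
    have h4 := M.tri p (x (i + 1)) q
    have h5 := M.tri (x (i + 1)) (x j) q
    unfold Btw at hp hq
    omega
  refine ⟨fun k => if k ≤ i then s k else if k ≤ o then s i + d (x i) p else
    if k ≤ j then s i + d (x i) p + d p (ν * q) else s k - 1, ?_, fun k hk => ?_⟩
  · simp only
    rw [if_neg (by omega), if_neg (by omega), if_neg (by omega), if_pos (by omega)]
    omega
  simp only
  by_cases c1 : k < i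
  · rw [newP_1 (by omega), newP_1 (by omega), if_pos (by omega), if_pos (by omega)]
    exact hs k hk
  by_cases c2 : k < o
  · obtain rfl : k = i := by omega
    rw [newP_1 le_rfl, newP_2 (by omega) (by omega), if_pos le_rfl, if_neg (by omega),
      if_pos (by omega)]
  by_cases c3 : k = o
  · subst c3
    rw [xo, xo1]
    have e1 : (if k ≤ i then s k else if k ≤ k then s i + d (x i) p else
        if k ≤ j then s i + d (x i) p + d p (ν * q) else s k - 1) = s i + d (x i) p := by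
      by_cases h1 : k ≤ i
      · obtain rfl : k = i := by omega
        rw [if_pos le_rfl, hpi ho, M.refl]; simp
      · rw [if_neg h1, if_pos le_rfl]
    rw [e1, if_neg (by omega), if_neg (by omega)]
    by_cases h1 : k + 1 ≤ j
    · rw [if_pos h1]
    · obtain rfl : k = j := by omega
      rw [if_neg h1]
      omega
  by_cases c4 : k < j
  · rw [newP_3 hio (by omega) (by omega), newP_3 hio (by omega) (by omega), if_neg (by omega),
      if_neg (by omega), if_pos (by omega), if_neg (by omega), if_neg (by omega),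
      if_pos (by omega), M.refl]
    simp
  by_cases c5 : k = j
  · subst c5
    rw [newP_3 hio (by omega) le_rfl, newP_4 hio hoj (by omega), if_neg (by omega),
      if_neg (by omega), if_pos le_rfl, if_neg (by omega), if_neg (by omega), if_neg (by omega),
      S.inv ν hν]
    exact key
  rw [newP_4 hio hoj (by omega), newP_4 hio hoj (by omega), if_neg (by omega), if_neg (by omega),
    if_neg (by omega), if_neg (by omega), if_neg (by omega), if_neg (by omega), S.inv ν hν]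
  have := hs k hk
  omega

/-- one shortening step -/
theorem step (S : SC d K G' 𝒯 δ κ Δ g D) (O : SideOK d G' 𝒯 (δ + κ + 1) Side Touch)
    (hX : d X₀ X₁ = d X₀ v + d v w + d w X₁) (hmin : ∀ h ∈ G', d X₀ X₁ ≤ d X₀ (h * X₁))
    (hR : Red d 𝒯 (1000 * (δ + κ + Δ + 1)) v w)
    {x : ℕ → G} {h : G} (P : IsPoly d G' 𝒯 (δ + κ + 1) Side Touch X₀ v w X₁ x h)
    {T : Set G × Subgroup G} (hT : T ∈ 𝒯) {μ : G} (hμ : μ ∈ T.2) (hμK : μ ∉ K)
    (hG : ∀ a b, Prj d T.1 w a → Prj d T.1 (h * w) b → d a (μ * b) ≤ 10 ^ 5 * (δ + κ + Δ + 1))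
    {s : ℕ → ℤ} (hs : ∀ k < 13, s k + d (x k) (x (k + 1)) ≤ s (k + 1)) :
    ∃ x' h', IsPoly d G' 𝒯 (δ + κ + 1) Side Touch X₀ v w X₁ x' h' ∧
      ∃ s' : ℕ → ℤ, s' 13 - s' 0 < s 13 - s 0 ∧
        ∀ k < 13, s' k + d (x' k) (x' (k + 1)) ≤ s' (k + 1) := by
  classical
  have M := S.met
  have hbig := S.big
  have hh := P.1
  have hμ' := (S.sub T hT).2 hμ
  choose π hπ using exists_prj d (S.ne T hT)
  obtain ⟨a, ha⟩ : ∃ a : ℕ → G, ∀ k, Prj d T.1 (x k) (a k) := ⟨fun k => π (x k), fun k => hπ _⟩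
  have g1 : d (a 0) (μ * a 13) ≤ 10 ^ 5 * (δ + κ + Δ + 1) + 1000 * (δ + κ + Δ + 1) := by
    have h1 := hG (a 0) (π (h * w)) (by rw [← P.2.1]; exact ha 0) (hπ _)
    have h2 := prj_cj S (G'.inv_mem hh) T (ha 13)
    rw [P.2.2.1, inv_mul_cancel_left] at h2
    have h3 := prj_cj S (G'.inv_mem hh) T (hπ (h * w))
    rw [inv_mul_cancel_left] at h3
    have h4 := hR _ (S.conj _ (G'.inv_mem hh) T hT) _ _ h2 h3
    rw [S.inv _ (G'.inv_mem hh)] at h4
    have h5 := M.tri (a 0) (μ * π (h * w)) (μ * a 13)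
    rw [S.inv μ hμ', M.symm (π (h * w))] at h5
    omega
  have hd : ∀ k, g ≤ d (a k) (μ * a k) := fun k => S.disp T hT μ hμ hμK _ (ha k).1
  have hex : ∃ k, k ≤ 12 ∧ 1000 * (δ + κ + Δ + 1) < d (a k) (a (k + 1)) := by
    by_contra hne
    have h1 := chain13 M a (1000 * (δ + κ + Δ + 1)) 0 13 (by omega) le_rfl (fun k _ hk => by
      by_contra hc
      exact hne ⟨k, by omega, by omega⟩)
    have h2 := hd 13
    have h3 := M.tri (a 13) (a 0) (μ * a 13)
    have h4 := M.symm (a 13) (a 0)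
    omega
  obtain ⟨i, ⟨hi, hi1⟩, hi2⟩ : ∃ i, (i ≤ 12 ∧ 1000 * (δ + κ + Δ + 1) < d (a i) (a (i + 1))) ∧
      ∀ k < i, ¬ (k ≤ 12 ∧ 1000 * (δ + κ + Δ + 1) < d (a k) (a (k + 1))) :=
    ⟨Nat.find hex, Nat.find_spec hex, fun k hk => Nat.find_min hex hk⟩
  obtain ⟨j, hij, hj, hj1, hj2⟩ : ∃ j, i ≤ j ∧ j ≤ 12 ∧
      1000 * (δ + κ + Δ + 1) < d (a j) (a (j + 1)) ∧
      ∀ k, j < k → k ≤ 12 → ¬ 1000 * (δ + κ + Δ + 1) < d (a k) (a (k + 1)) :=
    ⟨Nat.findGreatest (fun k => 1000 * (δ + κ + Δ + 1) < d (a k) (a (k + 1))) 12,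
      Nat.le_findGreatest hi hi1, Nat.findGreatest_le _,
      Nat.findGreatest_spec (P := fun k => 1000 * (δ + κ + Δ + 1) < d (a k) (a (k + 1))) hi hi1,
      fun k h1 h2 => Nat.findGreatest_is_greatest
        (P := fun k => 1000 * (δ + κ + Δ + 1) < d (a k) (a (k + 1))) h1 h2⟩
  have l1 := chain13 M a (1000 * (δ + κ + Δ + 1)) 0 i (by omega) (by omega) (fun k _ hk => by
    have := hi2 k hk
    omega)
  have l2 := chain13 M a (1000 * (δ + κ + Δ + 1)) (j + 1) 13 (by omega) le_rfl (fun k h1 h2 => by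
    have := hj2 k (by omega) (by omega)
    omega)
  have g2 : d (a i) (μ * a (j + 1)) ≤ 127000 * (δ + κ + Δ + 1) := by
    have h1 := M.tri (a i) (a 0) (μ * a (j + 1))
    have h2 := M.tri (a 0) (μ * a 13) (μ * a (j + 1))
    have h3 := S.inv μ hμ' (a 13) (a (j + 1))
    have h4 := M.symm (a i) (a 0)
    have h5 := M.symm (a 13) (a (j + 1))
    omega
  have g3 : g ≤ d (a i) (a (j + 1)) + 127000 * (δ + κ + Δ + 1) := by
    have h1 := hd (j + 1)
    have h2 := M.tri (a (j + 1)) (a i) (μ * a (j + 1))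
    have h3 := M.symm (a (j + 1)) (a i)
    omega
  obtain ⟨mi, ⟨p, p1, p2, p3⟩, -, ti⟩ := act S O hX hmin P hT hi (ha i) (ha (i + 1)) hi1
  obtain ⟨-, -, ⟨q, q1, q2, q3⟩, tj⟩ := act S O hX hmin P hT hj (ha j) (ha (j + 1)) hj1
  by_cases hc : i = j
  · exfalso
    subst hc
    obtain ⟨c0, -, -⟩ := cut M (S.qc T hT) (ha i) (ha (i + 1)) (by omega)
    have h1 := mi μ hμ
    have h2 := M.tri (x i) (a i) (μ * x (i + 1))
    have h3 := M.tri (a i) (μ * a (i + 1)) (μ * x (i + 1))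
    have h4 := S.inv μ hμ' (a (i + 1)) (x (i + 1))
    omega
  have hlt : i < j := by omega
  have ht : Touch T := by
    by_cases c1 : 1 ≤ i
    · exact (ti c1 (by omega)).1
    by_cases c2 : j ≤ 11
    · exact (tj (by omega) c2).1
    obtain rfl : i = 0 := by omega
    obtain rfl : j = 12 := by omega
    by_cases c3 : ∃ k, 1 ≤ k ∧ k ≤ 11 ∧ 1000 * (δ + κ + Δ + 1) < d (a k) (a (k + 1))
    · obtain ⟨k, k1, k2, k3⟩ := c3
      exact ((act S O hX hmin P hT (by omega) (ha k) (ha (k + 1)) k3).2.2.2 k1 k2).1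
    · exfalso
      have h1 := chain13 M a (1000 * (δ + κ + Δ + 1)) 1 12 (by omega) (by omega)
        (fun k h1 h2 => by
          by_contra hc
          exact c3 ⟨k, h1, by omega, by omega⟩)
      have h2 := ends S hX hmin P hT ha hi1 hj1 h1
      have g4 : g ≤ d (a 0) (a 13) + 127000 * (δ + κ + Δ + 1) := g3
      omega
  obtain ⟨ν, hν, hν1⟩ := exists_qd T.2 d p q
  have hm : ∀ ν' ∈ T.2, d p (ν * q) ≤ d p (ν' * q) := fun ν' h' => by
    rw [hν1]; exact qd_le d p q h'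
  have hlt' : d p (ν * q) < d p q := by
    have h1 := hm μ hμ
    have h2 := M.tri p (a i) (μ * q)
    have h3 := M.tri (a i) (μ * a (j + 1)) (μ * q)
    have h4 := S.inv μ hμ' (a (j + 1)) q
    have h5 := M.symm (a (j + 1)) q
    have h6 := M.tri (a i) p (a (j + 1))
    have h7 := M.tri p q (a (j + 1))
    have h8 := M.symm (a i) p
    omega
  obtain ⟨o, ho, hoi⟩ : ∃ o, o % 2 = 1 ∧ (o = i ∨ (o = i + 1 ∧ i % 2 = 0)) := by
    by_cases c : i % 2 = 1
    · exact ⟨i, c, Or.inl rfl⟩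
    · exact ⟨i + 1, by omega, Or.inr ⟨rfl, by omega⟩⟩
  exact ⟨_, _, rebuild S O P hT ht hlt hj ho hoi p1 q1 (ha i).1 (ha (j + 1)).1 p2 q2 p3 q3
    (fun c => (ti c (by omega)).2) (fun c => (tj (by omega) c).2) hν hm,
    drop S hs hlt hj ho hoi p1 q1 p3 q3 ((S.sub T hT).2 hν) hlt'⟩

end Grp

end Poly

theorem poly (h : GrStmt) : PolyStmt := by
  intro G _ d K G' 𝒯 δ κ Δ g D S Side Touch X₀ v w X₁ O hX hmin hR
  have main : ∀ n : ℕ, ∀ x k, IsPoly d G' 𝒯 (δ + κ + 1) Side Touch X₀ v w X₁ x k →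
      ∀ s : ℕ → ℤ, s 13 - s 0 < n → (∀ t < 13, s t + d (x t) (x (t + 1)) ≤ s (t + 1)) →
      ∃ x' h', h' ∈ K ∧ IsPoly d G' 𝒯 (δ + κ + 1) Side Touch X₀ v w X₁ x' h' := by
    intro n
    induction n with
    | zero =>
      intro x k _ s h1 hs
      have := Poly.chain S.met x s 13 hs 0 13 (by omega) le_rfl
      omega
    | succ n ih =>
      intro x k P s h1 hs
      by_cases hk : k ∈ K
      · exact ⟨x, k, hk, P⟩
      · obtain ⟨T, hT, μ, hμ, hμK, hG⟩ := h G d K G' 𝒯 δ κ Δ g D S w k P.1 hk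
        obtain ⟨x', k', P', s', h2, hs'⟩ := Poly.step S O hX hmin hR P hT hμ hμK hG hs
        exact ih x' k' P' s' (by omega) hs'
  intro x k P
  refine main ((∑ t ∈ Finset.range 13, d (x t) (x (t + 1))) + 1) x k P
    (fun m => ((∑ t ∈ Finset.range m, d (x t) (x (t + 1)) : ℕ) : ℤ)) ?_ fun t _ => ?_
  · simp only [Finset.range_zero, Finset.sum_empty]
    omega
  · simp only [Finset.sum_range_succ]
    omega

end Pool.Agent.MP_735563_an.H2
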