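import Pool.Agent.MP_735563_an.H2.SC

set_option autoImplicit false

/-! Reduced pairs are minimal, displacement, and hyperbolicity of the quotient. -/

namespace Pool.Agent.MP_735563_an.H2

namespace Red

theorem four_of_slim {V : Type} {d : V → V → ℕ} {σ : ℕ} (symm : ∀ x y, d x y = d y x)
    (tri : ∀ x y z, d x z ≤ d x y + d y z)
    (geo : ∀ x y i, i ≤ d x y → ∃ m, d x m = i ∧ Btw d x m y)
    (slim : ∀ x p y z, Btw d x p y → ∃ q, (Btw d y q z ∨ Btw d z q x) ∧ d p q ≤ σ)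
    (x y z w : V) : d x y + d z w ≤ max (d x z + d y w) (d x w + d y z) + 2 * (2 * σ + 1) := by
  have t1 := tri x y z
  have t2 := tri x z y
  have t3 := tri y x z
  have s1 := symm z y
  have s2 := symm y x
  obtain ⟨m, hm1, hm2⟩ := geo x y ((d x z + d x y - d y z) / 2) (by omega)
  have key : ∀ z, d m z + d m y ≤ d y z + 2 * σ ∨ d m z + d x m ≤ d x z + 2 * σ := by
    intro z
    obtain ⟨q, h1 | h1, h2⟩ := slim x m y z hm2
    · left
      unfold Btw at h1
      have := tri m q z; have := tri m q y; have := symm q y; omega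
    · right
      unfold Btw at h1
      have := tri m q z; have := tri x q m; have := symm q m; have := symm q z
      have := symm x q; have := symm x z; omega
  have k1 := key z
  have k2 := key w
  have := tri z m w
  have := symm z m
  unfold Btw at hm2
  omega

variable {G : Type} [Group G] {d : G → G → ℕ} {K G' : Subgroup G}
  {𝒯 : Set (Set G × Subgroup G)} {δ κ Δ g D : ℕ}

theorem dK (S : SC d K G' 𝒯 δ κ Δ g D) {k : G} (hk : k ∈ K) (y : G) : d y (k * y) = 0 :=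
  (S.zero _ _).2 (by simpa using hk)

theorem qd_le' (x y : G) : qd G' d x y ≤ d x y := by
  simpa using qd_le d x y G'.one_mem

theorem qd_symm (S : SC d K G' 𝒯 δ κ Δ g D) (x y : G) : qd G' d x y = qd G' d y x := by
  have key : ∀ x y, qd G' d x y ≤ qd G' d y x := by
    intro x y
    obtain ⟨h, hh, h1⟩ := exists_qd G' d y x
    have h2 := qd_le d x y (G'.inv_mem hh)
    have h3 := S.inv h hh x (h⁻¹ * y)
    rw [mul_inv_cancel_left] at h3
    have := S.met.symm y (h * x)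
    omega
  exact le_antisymm (key x y) (key y x)

theorem qd_mul_left (S : SC d K G' 𝒯 δ κ Δ g D) (x y : G) {h : G} (hh : h ∈ G') :
    qd G' d (h * x) y = qd G' d x y := by
  rw [qd_symm S, qd_mul_right d y x hh, qd_symm S]

theorem qd_tri (S : SC d K G' 𝒯 δ κ Δ g D) (x y z : G) :
    qd G' d x z ≤ qd G' d x y + qd G' d y z := by
  obtain ⟨h, hh, h1⟩ := exists_qd G' d x y
  obtain ⟨k, hk, h2⟩ := exists_qd G' d y z
  have h3 := qd_le d x z (G'.mul_mem hh hk)
  have h4 := S.inv h hh y (k * z)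
  have h5 := S.met.tri x (h * y) (h * (k * z))
  rw [mul_assoc] at h3
  omega

theorem btw_qd (S : SC d K G' 𝒯 δ κ Δ g D) {x y m h : G} (hh : h ∈ G')
    (h1 : d x (h * y) = qd G' d x y) (hm : Btw d x m (h * y)) :
    qd G' d x m = d x m ∧ Btw (qd G' d) x m y := by
  unfold Btw at *
  have := qd_le' (G' := G') (d := d) x m
  have := qd_le d m y hh
  have := qd_tri S x m y
  omega

theorem qd_geo (S : SC d K G' 𝒯 δ κ Δ g D) (x y : G) (i : ℕ) (hi : i ≤ qd G' d x y) :
    ∃ m, qd G' d x m = i ∧ Btw (qd G' d) x m y := by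
  obtain ⟨h, hh, h1⟩ := exists_qd G' d x y
  obtain ⟨m, h2, h3⟩ := S.met.geo x (h * y) i (by omega)
  obtain ⟨h4, h5⟩ := btw_qd S hh h1 h3
  exact ⟨m, by omega, h5⟩

theorem min_of (x y : G) {h : G} (hh : h ∈ G') (h1 : d x (h * y) = qd G' d x y) :
    ∀ k ∈ G', d x (h * y) ≤ d x (k * (h * y)) := by
  intro k hk
  rw [h1, ← mul_assoc]
  exact qd_le d x y (G'.mul_mem hk hh)

/-- minimal pairs all of whose between points lie in `P` -/
def Sd (d : G → G → ℕ) (G' : Subgroup G) (P : G → Prop) (x y : G) : Prop :=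
  (∀ h ∈ G', d x y ≤ d x (h * y)) ∧ ∀ q, Btw d x q y → P q

/-- cores near `P` -/
def Tc (d : G → G → ℕ) (u : ℕ) (P : G → Prop) (T : Set G × Subgroup G) : Prop :=
  ∃ q, P q ∧ ∃ c ∈ T.1, d q c ≤ 100 * u

theorem sideOK (S : SC d K G' 𝒯 δ κ Δ g D) {P : G → Prop} (hP : ∀ h ∈ G', ∀ q, P q → P (h * q))
    (u : ℕ) : SideOK d G' 𝒯 u (Sd d G' P) (Tc d u P) where
  inv h hh x y hs := by
    refine ⟨fun k hk => ?_, fun q hq => ?_⟩
    · have h1 := hs.1 (h⁻¹ * k * h) (G'.mul_mem (G'.mul_mem (G'.inv_mem hh) hk) hh)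
      rw [← S.inv h hh x (h⁻¹ * k * h * y)] at h1
      rw [S.inv h hh]
      simpa [mul_assoc] using h1
    · have h1 : Btw d x (h⁻¹ * q) y := by
        unfold Btw at *
        rw [← S.inv h hh x (h⁻¹ * q), ← S.inv h hh (h⁻¹ * q) y, ← S.inv h hh x y,
          mul_inv_cancel_left]
        exact hq
      have := hP h hh _ (hs.2 _ h1)
      rwa [mul_inv_cancel_left] at this
  sub x y m hs hm := by
    refine ⟨⟨fun h hh => ?_, fun q hq => hs.2 q (S.met.btw_trans_left hm hq).1⟩,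
      ⟨fun h hh => ?_, fun q hq => hs.2 q (S.met.btw_trans_right hm hq).1⟩⟩
    · have := hs.1 h hh
      have := S.met.tri x (h * m) (h * y)
      have := S.inv h hh m y
      unfold Btw at hm; omega
    · have := hs.1 h hh
      have := S.met.tri x m (h * y)
      unfold Btw at hm; omega
  min x y hs := hs.1
  tinv h hh T _ := fun ⟨q, hq, c, hc, h1⟩ =>
    ⟨h * q, hP h hh q hq, h * c, ⟨c, hc, rfl⟩, by rw [S.inv h hh]; exact h1⟩
  touch m hs T _ c hc h1 := ⟨m, hs.2 m (S.met.btw_left m m), c, hc, h1⟩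

theorem near_touch (S : SC d K G' 𝒯 δ κ Δ g D) {P : G → Prop} {u : ℕ} {T : Set G × Subgroup G}
    (hT : T ∈ 𝒯) (ht : Tc d u P T) {p c : G} (hc : c ∈ T.1) :
    ∃ q, P q ∧ qd G' d p q ≤ d p c + D + 100 * u := by
  obtain ⟨q, hq, c0, hc0, h1⟩ := ht
  obtain ⟨μ, hμ, h2⟩ := S.diam T hT c hc c0 hc0
  have hμ' := (S.sub T hT).2 hμ
  refine ⟨q, hq, ?_⟩
  have h3 := qd_le d p q hμ'
  have h4 := S.inv μ hμ' c0 q
  have := S.met.symm c0 q
  have := S.met.tri p c (μ * q)
  have := S.met.tri c (μ * c0) (μ * q)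
  omega

theorem slim_min (hp : PolyStmt) (S : SC d K G' 𝒯 δ κ Δ g D) {x p y : G} (z : G)
    (hb : Btw d x p y) (hm : ∀ h ∈ G', d x y ≤ d x (h * y)) :
    ∃ q, (Btw (qd G' d) y q z ∨ Btw (qd G' d) z q x) ∧
      qd G' d p q ≤ D + 300 * (δ + κ + 1) := by
  have M := S.met
  set P : G → Prop := fun q => Btw (qd G' d) y q z ∨ Btw (qd G' d) z q x with hPd
  have hP : ∀ h ∈ G', ∀ q, P q → P (h * q) := by
    intro h hh q hq
    simp only [hPd, Btw, qd_mul_left S _ _ hh, qd_mul_right d _ _ hh] at hq ⊢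
    exact hq
  have hS := sideOK S hP (δ + κ + 1)
  obtain ⟨k, hk, hk1⟩ := exists_qd G' d y z
  obtain ⟨h, hh, hh1⟩ := exists_qd G' d (k * z) x
  have s1 : Sd d G' P y (k * z) :=
    ⟨min_of y z hk hk1, fun q hq => Or.inl (btw_qd S hk hk1 hq).2⟩
  have s2 : Sd d G' P (k * z) (h * x) := ⟨min_of _ x hh hh1, fun q hq => Or.inr (by
    have := (btw_qd S hh hh1 hq).2
    simpa only [Btw, qd_mul_left S _ _ hk] using this)⟩
  have t1 := (hS.sub _ _ _ s1 (M.btw_left _ _)).1
  have t2 := (hS.sub _ _ _ s1 (M.btw_right _ _)).2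
  have t3 := (hS.sub _ _ _ s2 (M.btw_right _ _)).2
  have hred : H2.Red d 𝒯 (1000 * (δ + κ + Δ + 1)) p p := by
    intro T hT a b ha hb'
    have := M.bridge (S.qc T hT) ha hb'
    have := M.refl p
    omega
  obtain ⟨x', h', hK, -, e0, e13, b1, b12, hsl⟩ := hp G d K G' 𝒯 δ κ Δ g D S _ _ x p p y hS
    (by have := M.refl p; unfold Btw at hb; omega) hm hred
    (fun i => if i = 0 then p else if i ≤ 2 then y else if i ≤ 4 then k * z
      else if i ≤ 12 then h * x else h * p) h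
    ⟨hh, rfl, rfl, M.btw_right _ _, M.btw_left _ _, fun i h1 h2 => by
      interval_cases i
      · exact Or.inl ⟨M.refl _, Or.inl t1⟩
      · exact Or.inr (Or.inr ⟨rfl, s1⟩)
      · exact Or.inl ⟨M.refl _, Or.inl t2⟩
      · exact Or.inr (Or.inr ⟨rfl, s2⟩)
      all_goals exact Or.inl ⟨M.refl _, Or.inl t3⟩⟩
  have hbt : Btw d (x' (0 + 1)) p (x' (10 + 1 + 1)) := by
    show Btw d (x' 1) p (x' 12)
    unfold Btw at *
    have := dK S hK x
    have := dK S hK p
    have := M.tri (x' 1) p (x' 12)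
    have := M.tri x (x' 12) y
    have := M.tri (x' 12) (x' 1) y
    have := M.tri x (h' * x) (x' 12)
    have := M.tri p (h' * p) (x' 12)
    have := M.tri (h' * x) x (h' * p)
    have := M.tri x p (h' * p)
    have := M.symm (h' * x) x
    have := M.symm (h' * p) (x' 12)
    have := M.symm (x' 12) (x' 1)
    have := M.symm (x' 1) p
    omega
  obtain ⟨i, hi, q, hq, hpq⟩ := M.polygon (fun i => x' (i + 1)) 10 p hbt
  have hq' : Btw d (x' (i + 1)) q (x' (i + 1 + 1)) := hq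
  rcases hsl (i + 1) (by omega) (by omega) with ⟨h0, hs | ⟨T, hT, ht, c, hc, h1⟩⟩ |
    ⟨-, T, hT, ht, ⟨c, hc, h1⟩, ⟨c', hc', h2⟩, -⟩ | ⟨-, hs⟩
  · refine ⟨x' (i + 1), hs.2 _ (M.btw_left _ _), (qd_le' _ _).trans ?_⟩
    unfold Btw at hq'
    have := M.tri p q (x' (i + 1)); have := M.symm q (x' (i + 1)); omega
  · obtain ⟨q0, h2, h3⟩ := near_touch S hT ht (p := p) hc
    refine ⟨q0, h2, h3.trans ?_⟩
    unfold Btw at hq'
    have := M.tri p q c; have := M.tri q (x' (i + 1)) c; have := M.symm q (x' (i + 1)); omega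
  · have key : ∃ e ∈ T.1, d q e ≤ 8 * δ + κ + 100 * (δ + κ + 1) := by
      obtain ⟨q1, h3 | h3 | h3, h4⟩ := M.slim4 hq' c c'
      · refine ⟨c, hc, ?_⟩
        unfold Btw at h3; have := M.tri q q1 c; omega
      · obtain ⟨e, he, h5⟩ := S.qc T hT c hc c' hc' q1 h3
        exact ⟨e, he, by have := M.tri q q1 e; omega⟩
      · refine ⟨c', hc', ?_⟩
        unfold Btw at h3
        have := M.tri q q1 c'; have := M.symm q1 c'; have := M.symm c' (x' (i + 1 + 1)); omega
    obtain ⟨e, he, h3⟩ := key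
    obtain ⟨q0, h4, h5⟩ := near_touch S hT ht (p := p) he
    refine ⟨q0, h4, h5.trans ?_⟩
    have := M.tri p q e; omega
  · exact ⟨q, hs.2 q hq', (qd_le' _ _).trans (by omega)⟩

theorem slim_qd (hp : PolyStmt) (S : SC d K G' 𝒯 δ κ Δ g D) (x p y z : G)
    (hb : Btw (qd G' d) x p y) : ∃ q, (Btw (qd G' d) y q z ∨ Btw (qd G' d) z q x) ∧
      qd G' d p q ≤ D + 300 * (δ + κ + 1) := by
  obtain ⟨h, hh, h1⟩ := exists_qd G' d p x
  obtain ⟨k, hk, h2⟩ := exists_qd G' d p y
  have e1 : qd G' d (h * x) (k * y) = qd G' d x y := by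
    rw [qd_mul_left S _ _ hh, qd_mul_right d _ _ hk]
  have l1 := qd_le' (G' := G') (d := d) (h * x) (k * y)
  have l2 := S.met.tri (h * x) p (k * y)
  have l3 := S.met.symm (h * x) p
  have l4 := qd_symm S p x
  obtain ⟨q, h3, h4⟩ := slim_min hp S (x := h * x) (p := p) (y := k * y) z
    (by unfold Btw at *; omega) fun l hl => by
      have := qd_le d (h * x) (k * y) hl
      unfold Btw at hb; omega
  refine ⟨q, ?_, h4⟩
  simpa only [Btw, qd_mul_left S _ _ hk, qd_mul_right d _ _ hh] using h3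

end Red

theorem disp (h : GrStmt) : DispStmt := by
  intro G _ d K G' 𝒯 δ κ Δ g D S x k hk hkK
  obtain ⟨T, hT, μ, hμ, hμK, h1⟩ := h G d K G' 𝒯 δ κ Δ g D S x k hk hkK
  obtain ⟨a, ha⟩ := exists_prj d (S.ne T hT) x
  obtain ⟨b, hb⟩ := exists_prj d (S.ne T hT) (k * x)
  have h2 := h1 a b ha hb
  have h3 := S.disp T hT μ hμ hμK b hb.1
  have h4 := S.met.bridge (S.qc T hT) ha hb
  have h5 := S.met.tri b a (μ * b)
  have h6 := S.met.symm b a
  have h7 := S.big
  omega

theorem redMin (h : GrStmt) : RedMinStmt := by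
  intro G _ d K G' 𝒯 δ κ Δ g D S x y hR k hk
  obtain ⟨k0, hk0, h0⟩ := exists_qd G' d x y
  have l0 := qd_le d x y hk
  by_cases hK : k0 ∈ K
  · have := Red.dK S hK y
    have := S.met.tri x (k0 * y) y
    have := S.met.symm (k0 * y) y
    omega
  exfalso
  obtain ⟨T, hT, μ, hμ, hμK, h1⟩ := h G d K G' 𝒯 δ κ Δ g D S y k0 hk0 hK
  obtain ⟨a, ha⟩ := exists_prj d (S.ne T hT) y
  obtain ⟨b, hb⟩ := exists_prj d (S.ne T hT) (k0 * y)
  obtain ⟨e, he⟩ := exists_prj d (S.ne T hT) x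
  have hμ' := (S.sub T hT).2 hμ
  have h2 := h1 a b ha hb
  have h3 := S.disp T hT μ hμ hμK b hb.1
  have h4 := S.met.bridge (S.qc T hT) he hb
  have h5 := hR T hT e a he ha
  have h6 := qd_le d x y (G'.mul_mem hμ' hk0)
  rw [mul_assoc] at h6
  have h7 := S.inv μ hμ' b (k0 * y)
  have := S.met.tri x e (μ * (k0 * y))
  have := S.met.tri e a (μ * (k0 * y))
  have := S.met.tri a (μ * b) (μ * (k0 * y))
  have := S.met.tri b e (μ * b)
  have := S.met.tri e a (μ * b)
  have := S.met.symm b e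
  have := S.big
  omega

theorem hyp (h : PolyStmt) : HypStmt := by
  intro G _ d K G' 𝒯 δ κ Δ g D S
  refine ⟨fun x => ?_, Red.qd_symm S, Red.qd_tri S, Red.qd_geo S, fun x y z w => ?_⟩
  · have := Red.qd_le' (G' := G') (d := d) x x
    have := S.met.refl x
    omega
  · have := Red.four_of_slim (Red.qd_symm S) (Red.qd_tri S) (Red.qd_geo S) (Red.slim_qd h S)
      x y z w
    have := S.big
    omega

end Pool.Agent.MP_735563_an.H2
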