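import Pool.Agent.MP_735563_an.H2.Spec2

set_option autoImplicit false

/-! The folded components satisfy the small cancellation axioms. -/

namespace Pool.Agent.MP_735563_an.H2

namespace SCC

variable {p : ℕ} {𝔇 : ℕ → Lev p} {j : ℕ} {s : St p} {x : Gam p} {c : Fin 3}

theorem model (hj : 1 ≤ j) (hO : OK 𝔇 j) (hs : ValZ 𝔇 j s) (hx : s x (j, some c) ≠ 0) :
    ModelAt 𝔇 j c (s x (j, some c)) := hO.2.2.at' c _ (hs j hj le_rfl x c hx).1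

theorem cjs_le (hj : 1 ≤ j) (hx : s x (j, some c) ≠ 0) :
    cjs x ((𝔇 j).L c (s x (j, some c))) ≤ K 𝔇 j s := by
  intro u hu
  have := mem_K (𝔇 := 𝔇) hj le_rfl hx (mem_cjs.1 hu)
  simpa [mul_assoc] using this

theorem split (hj : 1 ≤ j) (hs : ValZ 𝔇 j s) (hx : s x (j, some c) ≠ 0) {μ : Gam p}
    (hμ : μ ∈ cgp 𝔇 j s c x) : ∃ k ∈ K 𝔇 (j - 1) s, ∃ l ∈ (𝔇 j).L c (s x (j, some c)),
      μ = k * (x * l * x⁻¹) := by
  rw [cgp, sup_comm] at hμ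
  obtain ⟨k, hk, a, ha, rfl⟩ := exists_mul_of_mem_sup (fun a ha => hs.stab (cjs_le hj hx ha)) hμ
  exact ⟨k, hk, _, mem_cjs.1 ha, by simp [mul_assoc]⟩

theorem mul_core {z : ℕ} (M : ModelAt 𝔇 j c z) {l e : Gam p} (hl : l ∈ (𝔇 j).L c z)
    (he : e ∈ core 𝔇 j c z) : l * e ∈ core 𝔇 j c z := by
  have h1 := M.good.1.1.stab (M.grp ▸ hl)
  show (𝔇 j).τ c z (l * e) (j, some c) ≠ 0
  rw [apply_of_stab h1]
  exact he

theorem one_core {z : ℕ} (M : ModelAt 𝔇 j c z) : (1 : Gam p) ∈ core 𝔇 j c z := by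
  show (𝔇 j).τ c z 1 (j, some c) ≠ 0
  rw [M.root]
  exact M.ne

theorem transfer (h2 : QCTStmt) (hj : 1 ≤ j) (hO : OK 𝔇 j) (hG : GEOp 𝔇 (j - 1))
    (hs : ValZ 𝔇 j s) (hx : s x (j, some c) ≠ 0) :
    QC (dj 𝔇 (j - 1) s) (cp 𝔇 j s c x) (𝔇 j).κ ∧
      ∀ a ∈ core 𝔇 j c (s x (j, some c)), ∀ b ∈ core 𝔇 j c (s x (j, some c)),
        dj 𝔇 (j - 1) s (x * a) (x * b) = dj 𝔇 (j - 1) ((𝔇 j).τ c (s x (j, some c))) a b := by
  have M := model hj hO hs hx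
  have hm : ValZ 𝔇 (j - 1) (tr x ((𝔇 j).τ c (s x (j, some c)))) :=
    (M.good.1.1.mono (Nat.sub_le _ _)).tr x
  obtain ⟨k1, k2, -⟩ := h2 p 𝔇 (j - 1) hG.2.2.2 _ s (lm x (core 𝔇 j c (s x (j, some c))))
    (𝔇 j).κ hm (hs.mono (Nat.sub_le _ _)) (hs j hj le_rfl x c hx).2.1 (by
      intro k hk y hy
      have h1 := apply_of_stab (hm.stab hk) y
      show tr x ((𝔇 j).τ c (s x (j, some c))) (k * y) (j, some c) ≠ 0
      rw [h1]
      exact hy) (by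
      intro a ha b hb m hm'
      obtain ⟨e, he, h1⟩ := M.qc _ ha _ hb (x⁻¹ * m) (by
        unfold Btw at *
        rw [← dj_tr _ x, ← dj_tr _ x _ (x⁻¹ * m), ← dj_tr _ x _ (x⁻¹ * a)]
        simpa using hm')
      refine ⟨x * e, mul_mem_lm.2 he, ?_⟩
      rw [← dj_tr _ x] at h1
      simpa using h1) (by
      intro y hy
      refine (M.tow.tr x).comp ?_
      rw [Dm_tr, M.dm, ← Nb_lm]
      refine Nb_mono ?_ subset_rfl hy
      have := hO.2.1.θ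
      omega)
  refine ⟨k1, fun a ha b hb => ?_⟩
  rw [k2 _ (mul_mem_lm.2 ha) _ (mul_mem_lm.2 hb), dj_tr]

end SCC

open SCC in
theorem scc (h1 : CPStmt) (h2 : QCTStmt) : SCCStmt := by
  intro p 𝔇 j hj hO hG s hs
  have hs' : ValZ 𝔇 (j - 1) s := hs.mono (Nat.sub_le _ _)
  have cp1 := fun c => (h1 p 𝔇 j hj hO hG s hs c).1
  refine ⟨hG.1 s hs', fun _ _ => dj_eq_zero, fun h hh x y => dj_stab (hs.stab hh) x y,
    K_mono (Nat.sub_le _ _) (Le.refl s), ?_, ?_, ?_, ?_, ?_, ?_, ?_, ?_, ?_, ?_⟩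
  · rintro T ⟨x, c, hx, rfl⟩
    exact ⟨le_sup_left, sup_le (K_mono (Nat.sub_le _ _) (Le.refl s)) (cjs_le hj hx)⟩
  · rw [K, Subgroup.closure_le]
    rintro u ⟨i, c, x, i1, i2, hx, hu⟩
    rcases Nat.eq_or_lt_of_le i2 with rfl | i3
    · refine Subgroup.mem_sup_right ?_
      refine (le_iSup₂_of_le (f := fun (T : Set (Gam p) × Subgroup (Gam p))
        (_ : T ∈ fam 𝔇 i s) => T.2) (cp 𝔇 i s c x, cgp 𝔇 i s c x) ⟨x, c, hx, rfl⟩ le_rfl) ?_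
      exact Subgroup.mem_sup_right (mem_cjs.2 hu)
    · exact Subgroup.mem_sup_left (Subgroup.subset_closure ⟨i, c, x, i1, by omega, hx, hu⟩)
  · rintro h hh T ⟨x, c, hx, rfl⟩
    have e := hs.stab hh
    have e1 : s (h * x) = s x := apply_of_stab e x
    refine ⟨h * x, c, by rwa [e1], Prod.ext ?_ ?_⟩
    · show (fun y => h * y) '' _ = _
      rw [image_mul_eq_lm, ← Sat_lm, cjs_K_of_stab e, ← lm_mul, e1]
    · show cjs h (_ ⊔ _) = _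
      rw [e1, cjs_mul, cjs, Subgroup.map_sup]
      exact congrArg (· ⊔ _) (cjs_K_of_stab e)
  · rintro T ⟨x, c, hx, rfl⟩
    exact ⟨x, (cp1 c x hx).1⟩
  · rintro T ⟨x, c, hx, rfl⟩ μ hμ _ ⟨k', hk', y, hy, rfl⟩
    obtain ⟨k, hk, l, hl, rfl⟩ := split hj hs hx hμ
    refine ⟨k * (x * l * x⁻¹ * k' * (x * l * x⁻¹)⁻¹),
      mul_mem hk (conj_mem_K (hs.stab (mem_K hj le_rfl hx hl)) hk'), x * (l * (x⁻¹ * y)),
      mul_mem_lm.2 (mul_core (model hj hO hs hx) hl hy), by simp [mul_assoc]⟩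
  · rintro T ⟨x, c, hx, rfl⟩
    exact (transfer h2 hj hO hG hs hx).1
  · rintro T ⟨x, c, hx, rfl⟩ T' ⟨x', c', hx', rfl⟩ hne a ha b hb a' ha' b' hb' d1 d2
    by_contra hlt
    obtain ⟨ξ, n, k1, k2, k3, k4⟩ := (cp1 c x hx).2.2.2 a ha b hb
    obtain ⟨ξ', n', l1, l2, l3, l4⟩ := (cp1 c' x' hx').2.2.2 a' ha' b' hb'
    have e1 : ξ n = ξ n * b⁻¹ * b := by simp
    have e2 : ξ' n' = ξ' n' * b'⁻¹ * b' := by simp
    obtain ⟨rfl, t, ht, t', ht', h3⟩ := hO.1.ov s hs' c c' ξ n ξ' n' k1 l1 (by rwa [k2, l2])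
      (by rwa [e1, e2, dj_mul_left k3, dj_mul_right l3])
      (by rw [k2, e1, dj_mul_right k3]; omega)
    have h4 : ξ' t' ∈ cp 𝔇 j s c x := by
      have := mul_mem_Sat h3 (k4 t ht)
      rwa [inv_mul_cancel_right] at this
    obtain ⟨-, -, -, m1, m2, -⟩ := (cp1 c x hx).2.1 _ h4
    obtain ⟨-, -, -, m3, m4, -⟩ := (cp1 c x' hx').2.1 _ (l4 t' ht')
    exact hne (Prod.ext (m1.symm.trans m3) (m2.symm.trans m4))
  · rintro T ⟨x, c, hx, rfl⟩ μ hμ hK y hy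
    obtain ⟨hy0, -, -, -, m2, -⟩ := (cp1 c x hx).2.1 y hy
    obtain ⟨k, hk, l, hl, rfl⟩ := split (μ := μ) hj hs hy0 (by rw [m2]; exact hμ)
    have M := model hj hO hs hy0
    have h3 := (transfer h2 hj hO hG hs hy0).2 1 (one_core M) l
      (by simpa using mul_core M hl (one_core M))
    have h4 := M.disp l hl (fun h => hK (mul_mem hk (K_mono le_rfl (hs j hj le_rfl y c hy0).2.1
      (by rw [K_tr, mem_cjs]; simpa [mul_assoc] using h))))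
    rw [mul_assoc, dj_mul_right hk, inv_mul_cancel_right]
    rw [mul_one] at h3
    omega
  · rintro T ⟨x, c, hx, rfl⟩ a ha b hb
    obtain ⟨ha0, -, -, m1, m2, -⟩ := (cp1 c x hx).2.1 a ha
    have hb' : b ∈ cp 𝔇 j s c a := by rw [m1]; exact hb
    obtain ⟨k, hk, y, hy, rfl⟩ := hb'
    obtain ⟨l, hl, h3⟩ := (model hj hO hs ha0).diam _ hy
    refine ⟨a * l * a⁻¹ * k⁻¹, ?_, ?_⟩
    · have : a * l * a⁻¹ * k⁻¹ ∈ cgp 𝔇 j s c a :=
        mul_mem (Subgroup.mem_sup_right (mem_cjs.2 (by simpa [mul_assoc] using hl)))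
          (Subgroup.mem_sup_left (inv_mem hk))
      rwa [m2] at this
    · have := dj_le_len (𝔇 := 𝔇) (j - 1) s a (l * (a⁻¹ * y))
      rw [show a * l * a⁻¹ * k⁻¹ * (k * y) = a * (l * (a⁻¹ * y)) by simp [mul_assoc]]
      omega
  · have := hO.2.1.θ
    have := hO.scale
    omega

end Pool.Agent.MP_735563_an.H2
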