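import Pool.Agent.MP_735563_an.H2.Spec2

set_option autoImplicit false

/-! Geodesics in complete regions are absolute. -/

namespace Pool.Agent.MP_735563_an.H2

namespace ST

variable {V : Type} {d d' : V → V → ℕ} {δ : ℕ} {a b : V}

/-- a lift of a geodesic ends at the right point -/
theorem ends (h : Met d δ) (h' : Met d' δ) (hle : ∀ x y, d' x y ≤ d x y)
    (hloc : ∀ m, Btw d a m b → ∀ y, d m y + d' m y ≤ 4 * δ + 6 → d m y ≤ d' m y)
    {P : ℕ → V} (h0 : P 0 = a)
    (hP : ∀ i j, i ≤ j → j ≤ d a b → d (P i) (P j) = j - i ∧ d (P j) b = d a b - j)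
    {T e : ℕ} (hT : ∀ t ≤ T, d' a (P t) = t) (h1 : T ≤ e) (h2 : e ≤ T + 1) (h3 : e ≤ d a b)
    {y : V} (hy : d' y (P e) = 0) (h4 : d a y ≤ d' a y) (h5 : d a y ≤ T) : d y (P e) = 0 := by
  obtain ⟨Q, q0, q1, hQ⟩ := h.path a y
  have hB : ∀ t ≤ d a b, Btw d a (P t) b := fun t ht => by
    have := hP 0 t (by omega) ht
    rw [h0] at this
    unfold Btw; omega
  have hTy : d' (P T) y ≤ 1 := by
    have := hP T e h1 h3
    have := hle (P T) (P e)
    have := h'.tri (P T) (P e) y
    have := h'.symm y (P e)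
    omega
  have hs : ∀ t ≤ d a y, d' (P t) (Q t) ≤ 2 * 1 + 2 * δ := fun t ht => by
    have h6 := hQ 0 t (by omega) ht
    rw [q0] at h6
    have := hle a (Q t)
    have := hle (Q t) y
    have := hle a y
    have := h'.tri a (Q t) y
    have := hT t (by omega)
    have := hT T le_rfl
    have := hP t T (by omega) (by omega)
    have := hle (P t) (P T)
    have := h'.tri a (P t) (P T)
    exact h'.sync (x := a) (y := P T) (z := y) (by unfold Btw; omega) (by unfold Btw; omega)
      (by omega) hTy
  have hi : ∀ t ≤ d a y, d (P t) (Q t) ≤ 2 * 1 + 2 * δ := by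
    intro t
    induction t with
    | zero => intro _; rw [h0, q0, h.refl]; omega
    | succ t ih =>
      intro ht
      have := ih (by omega)
      have := hs (t + 1) ht
      have := hP t (t + 1) (by omega) (by omega)
      have := hQ t (t + 1) (by omega) ht
      have := h.symm (P t) (P (t + 1))
      have := h.tri (P (t + 1)) (P t) (Q (t + 1))
      have := h.tri (P t) (Q t) (Q (t + 1))
      have := hloc _ (hB (t + 1) (by omega)) (Q (t + 1)) (by omega)
      omega
  have := hi _ le_rfl
  have := hT T le_rfl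
  have := h'.tri a y (P T)
  have := h'.symm y (P T)
  have := hle a y
  have := hP (d a y) e (by omega) h3
  have := h.symm (P (d a y)) (P e)
  have := h.tri (P e) (P (d a y)) y
  have := h.tri (P (d a y)) (Q (d a y)) y
  have := h'.symm y (P e)
  have := hloc _ (hB e h3) y (by omega)
  have := h.symm y (P e)
  omega

/-- the metric form of the statement -/
theorem abs (h : Met d δ) (h' : Met d' δ) (hle : ∀ x y, d' x y ≤ d x y)
    (hloc : ∀ m, Btw d a m b → ∀ y, d m y + d' m y ≤ 4 * δ + 6 → d m y ≤ d' m y)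
    (hlift : ∀ x y, ∃ z, d x z ≤ d' x y ∧ d' z y = 0) :
    d' a b = d a b ∧ ∀ m', Btw d' a m' b → ∃ m, Btw d a m b ∧ d' m m' = 0 := by
  obtain ⟨P, h0, h1, hP⟩ := h.path a b
  have key : ∀ T ≤ d a b, ∀ t ≤ T, d' a (P t) = t := by
    intro T
    induction T with
    | zero =>
      intro _ t ht
      obtain rfl : t = 0 := by omega
      rw [h0, h'.refl]
    | succ T ih =>
      intro hT t ht
      by_cases h2 : t ≤ T
      · exact ih (by omega) t h2
      obtain rfl : t = T + 1 := by omega
      have h3 := hP 0 (T + 1) (by omega) hT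
      rw [h0] at h3
      have := hle a (P (T + 1))
      by_contra h4
      obtain ⟨y, h5, h6⟩ := hlift a (P (T + 1))
      have := h'.tri a y (P (T + 1))
      have := ends h h' hle hloc h0 hP (e := T + 1) (ih (by omega)) (by omega) le_rfl hT h6
        (by omega) (by omega)
      have := h.tri a y (P (T + 1))
      omega
  have h2 := key _ le_rfl _ le_rfl
  have h3 := hle (P (d a b)) b
  have h4 := h'.symm (P (d a b)) b
  have h5 : d' a b = d a b := by
    have := h'.tri a b (P (d a b))
    have := hle a b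
    omega
  refine ⟨h5, fun m' hm' => ?_⟩
  unfold Btw at hm'
  obtain ⟨m, h6, h7⟩ := hlift a m'
  obtain ⟨y, h8, h9⟩ := hlift m b
  have := h'.tri m m' b
  have := h.tri a m y
  have := h'.tri y b (P (d a b))
  have := h'.tri a y b
  have := ends h h' hle hloc h0 hP (key _ le_rfl) le_rfl (Nat.le_succ _) le_rfl (y := y)
    (by omega) (by omega) (by omega)
  have := h.tri m y b
  have := h.tri y (P (d a b)) b
  have := h.tri a m b
  exact ⟨m, by unfold Btw; omega, h7⟩

end ST

/-- geodesics in complete regions are absolute -/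
theorem st : STStmt := by
  intro p 𝔇 j hH hA s s' hs hs' hl a b hc
  obtain ⟨h1, h2⟩ := ST.abs (a := a) (b := b) (hH s hs) (hH s' hs') (dj_anti le_rfl hl)
    (fun m hm y hy => by
      obtain ⟨u, h1, h2⟩ := exists_dj (𝔇 := 𝔇) j s m y
      obtain ⟨u', h3, h4⟩ := exists_dj (𝔇 := 𝔇) j s' m y
      have h5 := len_mul_le u' u⁻¹
      rw [len_inv] at h5
      have h6 := hA s s' hs hs' hl m (u' * u⁻¹) (fun v hv => hc m hm v (by omega)) (by
        simpa [mul_assoc] using mul_mem h4 (inv_mem (K_mono le_rfl hl h2)))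
      rw [← h3]
      exact dj_le (by simpa [mul_assoc] using mul_mem h6 h2))
    (fun x y => by
      obtain ⟨w, h1, h2⟩ := exists_dj (𝔇 := 𝔇) j s' x y
      exact ⟨x * w, h1 ▸ dj_le_len j s x w, dj_eq_zero.2 (by simpa using inv_mem h2)⟩)
  refine ⟨h1, fun m' hm' => ?_⟩
  obtain ⟨m, h3, h4⟩ := h2 m' hm'
  exact ⟨m, h3, dj_eq_zero.1 h4⟩

end Pool.Agent.MP_735563_an.H2
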