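import Pool.Agent.MP_735563_an.H2.Spec2

set_option autoImplicit false

/-! Row Tow: hypotheses of the descent lemma for states, and descent of shapes along towers. -/

namespace Pool.Agent.MP_735563_an.H2

namespace Tow

variable {p : ℕ} {𝔇 : ℕ → Lev p}

theorem thou {i : ℕ} (hO : OK 𝔇 i) :
    1000 * ((𝔇 (i - 1)).δ + (𝔇 i).κ + 1) ≤ (𝔇 i).δ := by
  have h1 := hO.2.1.θ
  have h2 := hO.scale.1
  generalize (𝔇 (i - 1)).δ = a at h1 h2 ⊢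
  norm_num at h1
  omega

theorem union_fam {i : ℕ} {s : St p} (h1 : 1 ≤ i) (hO : OK 𝔇 i) (hV : ValZ 𝔇 i s) :
    (⋃ T ∈ fam 𝔇 i s, T.1) = Cen i s := by
  ext y
  simp only [Set.mem_iUnion, exists_prop]
  constructor
  · rintro ⟨T, ⟨x, c, hx, rfl⟩, g, hg, y', hy', rfl⟩
    have hl := (hV i h1 le_rfl x c hx).2.1
    have h2 : s y' (i, some c) ≠ 0 := hl.ne hy'
    exact (Cen_stab ((hV.mono (Nat.sub_le i 1)).stab hg)).2 ⟨c, h2⟩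
  · rintro ⟨c, hc⟩
    refine ⟨_, ⟨y, c, hc, rfl⟩, subset_Sat _ _ ?_⟩
    have hz := (hV i h1 le_rfl y c hc).1
    have hr := (hO.2.2.at' c _ hz).root
    show (𝔇 i).τ c (s y (i, some c)) (y⁻¹ * y) (i, some c) ≠ 0
    rw [inv_mul_cancel, hr]
    exact hc

theorem cen_sub {i : ℕ} {s : St p} (h1 : 1 ≤ i) (hO : OK 𝔇 i) (hV : ValZ 𝔇 i s)
    (hC : ExC 𝔇 i s) : Cen i s ⊆ Nb (𝔇 i).D (Dm i s) := by
  rintro x ⟨c, hx⟩
  obtain ⟨e, he, hxe⟩ := hC x c hx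
  obtain ⟨hz, -, hst⟩ := hV i h1 le_rfl x c hx
  obtain ⟨l, hl, hlen⟩ := (hO.2.2.at' c _ hz).diam e he
  refine ⟨x * l * x⁻¹ * (x * e), (Dm_stab (hst l hl)).2 hxe, (l * e)⁻¹, by rwa [len_inv], ?_⟩
  simp [mul_assoc]

theorem dm_sub {N : ℕ} (hT : Th 𝔇 N) {s : St p} (hG : Good 𝔇 N s) : ∀ j, j ≤ N → Tow 𝔇 j s →
    Dm 0 s ⊆ Nb (𝔇 j).δ (Dm j s) := by
  intro j
  induction j with
  | zero => intro _ _; exact subset_Nb _ _
  | succ j ih =>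
    intro hj hW
    have hO := hT.ok (i := j + 1) (by omega) hj
    obtain ⟨ha, -, hc⟩ := hW (j + 1) (by omega) le_rfl
    have ha' : Dm j s = Nb (𝔇 (j + 1)).θ (Dm (j + 1) s ∪ Cen (j + 1) s) := ha
    have h2 : Dm (j + 1) s ∪ Cen (j + 1) s ⊆ Nb (𝔇 (j + 1)).D (Dm (j + 1) s) :=
      Set.union_subset (subset_Nb _ _) (cen_sub (by omega) hO (hG.1.1.mono hj) hc)
    have h3 := ih (by omega) (hW.mono (by omega))
    rw [ha'] at h3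
    refine h3.trans ((Nb_mono le_rfl (Nb_mono le_rfl h2)).trans ?_)
    rw [Nb_Nb, Nb_Nb]
    have := hO.scale.1
    simp only [Nat.add_sub_cancel] at this
    exact Nb_mono (by omega) subset_rfl

theorem shape_down (h : SQCStmt) {N j : ℕ} (hT : Th 𝔇 N) (h1 : 1 ≤ j) (hj : j ≤ N) {s : St p}
    (hG : Good 𝔇 N s) (hW : Tow 𝔇 j s) {F : Set (Gam p)} {k : ℕ} (hS : Shape 𝔇 j s F k) :
    Shape 𝔇 (j - 1) s (Dm j s ∪ Cen j s) (𝔇 j).θ := by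
  obtain ⟨ha, -, hc⟩ := hW j h1 le_rfl
  have ha' : Dm (j - 1) s = Nb (𝔇 j).θ (Dm j s ∪ Cen j s) := ha
  have hO := hT.ok h1 hj
  have hθ := hO.2.1.θ
  have hM : Sat (Kall 𝔇 s) (Dm j s ∪ Cen j s) = Dm j s ∪ Cen j s := by
    apply Sat_eq_self
    rintro g hg y (hy | hy)
    · exact Or.inl ((Dm_stab (hG.stab hg)).2 hy)
    · exact Or.inr ((Cen_stab (hG.stab hg)).2 hy)
  have hQ := (h p 𝔇 N j hT h1 hj s F k hG hc hS).2.2.2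
  obtain ⟨x, hx⟩ := hS.1
  refine ⟨⟨x, Or.inl (hS.2.1 (subset_Nb _ _ (subset_Sat _ _ hx)))⟩, ?_, ?_, Or.inr
    ⟨500 * ((𝔇 (j - 1)).δ + (𝔇 j).κ + 1), by omega, ?_, ?_⟩⟩
  · rw [hM, ha']
  · rw [hM, ha']; exact Nb_mono (by omega) subset_rfl
  · rw [hM]; exact hQ
  · rw [hM]
    intro y hy
    apply (hW.mono (Nat.sub_le j 1)).comp
    rw [ha']
    exact Nb_mono (by omega) subset_rfl hy

theorem qc_zero {N : ℕ} (hT : Th 𝔇 N) {s : St p} (hG : Good 𝔇 N s) {F : Set (Gam p)} {k : ℕ}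
    (hS : Shape 𝔇 0 s F k) : QC d0 (Dm 0 s) 17 := by
  have hM : Met (dj 𝔇 0 s) (𝔇 0).δ := (hT.2.1 0 (Nat.zero_le _)).1 s (hG.1.1.mono (Nat.zero_le _))
  have hP : ∀ g ∈ K 𝔇 0 s, ∀ y ∈ Sat (Kall 𝔇 s) F, g * y ∈ Sat (Kall 𝔇 s) F :=
    fun g hg y hy => mul_mem_Sat (K_le_Kall 0 s hg) hy
  have key : ∃ κ ≤ k, QC (dj 𝔇 0 s) (Sat (Kall 𝔇 s) F) κ := by
    rcases hS.2.2.2 with ⟨x₀, hF, hK⟩ | ⟨κ, hκ, hQ, -⟩
    · refine ⟨0, Nat.zero_le _, ?_⟩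
      rintro a ⟨g, hg, y, hy, rfl⟩ b hb m hm
      obtain ⟨g', hg', y', hy', hb'⟩ := id hb
      rw [hF, Set.mem_singleton_iff] at hy hy'
      have h0 : dj 𝔇 0 s (g * y) b = 0 := by
        rw [dj_eq_zero, hb', hy, hy']
        simpa [mul_assoc] using hK (mul_mem hg' (inv_mem hg))
      refine ⟨b, hb, ?_⟩
      unfold Btw at hm
      omega
    · exact ⟨κ, by omega, hQ⟩
  obtain ⟨κ, hκ, hQ⟩ := key
  have := hM.thick hQ hκ (fun x hx => hS.2.1 ((mem_Nb_iff_dj hP).2 hx))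
    (fun x hx => (mem_Nb_iff_dj hP).1 (hS.2.2.1 hx))
  rwa [hT.1.1, dj_zero] at this

theorem qc_all (h : SQCStmt) {N : ℕ} (hT : Th 𝔇 N) {s : St p} (hG : Good 𝔇 N s) :
    ∀ j, j ≤ N → Tow 𝔇 j s → ∀ F k, Shape 𝔇 j s F k → QC d0 (Dm 0 s) 17 := by
  intro j
  induction j with
  | zero => intro _ _ F k hS; exact qc_zero hT hG hS
  | succ j ih =>
    intro hj hW F k hS
    exact ih (by omega) (hW.mono (by omega)) _ _ (shape_down h hT (by omega) hj hG hW hS)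

end Tow

theorem sqc (h : DescStmt) : SQCStmt := by
  intro p 𝔇 N i hT h1 hN s F k hG hC hS
  have hV : ValZ 𝔇 i s := hG.1.1.mono hN
  have hSC := hT.2.2 i h1 hN s hV
  have hM := hSC.met
  have hMi : Met (dj 𝔇 i s) (𝔇 i).δ := (hT.2.1 i hN).1 s hV
  have hO := hT.ok h1 hN
  have hPi : ∀ g ∈ K 𝔇 i s, ∀ y ∈ Sat (Kall 𝔇 s) F, g * y ∈ Sat (Kall 𝔇 s) F :=
    fun g hg y hy => mul_mem_Sat (K_le_Kall i s hg) hy
  have hPj : ∀ g ∈ K 𝔇 (i - 1) s, ∀ y ∈ Sat (Kall 𝔇 s) F, g * y ∈ Sat (Kall 𝔇 s) F :=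
    fun g hg y hy => mul_mem_Sat (K_le_Kall (i - 1) s hg) hy
  have hA : SQ (dj 𝔇 (i - 1) s) (K 𝔇 i s) (Sat (Kall 𝔇 s) F) k
      ((𝔇 (i - 1)).δ + (𝔇 i).κ + 1) := by
    intro a ha b hb hmin
    rcases hS.2.2.2 with ⟨x₀, hF, hK⟩ | ⟨κ, hκ, hQ, -⟩
    · left
      obtain ⟨g, hg, y, hy, rfl⟩ := ha
      obtain ⟨g', hg', y', hy', rfl⟩ := hb
      rw [hF, Set.mem_singleton_iff] at hy hy'
      have := hmin (g * g'⁻¹) (hK (mul_mem hg (inv_mem hg')))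
      rw [show g * g'⁻¹ * (g' * y') = g * y by rw [hy, hy']; simp [mul_assoc], hM.refl] at this
      omega
    · right
      intro m hm
      have e1 : dj 𝔇 i s a b = dj 𝔇 (i - 1) s a b := by
        rw [← dj_succ i s]; exact qd_eq_of_min hmin
      have l1 := dj_anti (𝔇 := 𝔇) (Nat.sub_le i 1) (Le.refl s) a m
      have l2 := dj_anti (𝔇 := 𝔇) (Nat.sub_le i 1) (Le.refl s) m b
      have t := hMi.tri a m b
      have hm' : Btw (dj 𝔇 i s) a m b := by unfold Btw at hm ⊢; omega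
      obtain ⟨c, hc, hmc⟩ := hQ a ha b hb m hm'
      obtain ⟨g, hg, e⟩ := exists_qd (K 𝔇 i s) (dj 𝔇 (i - 1) s) m c
      rw [dj_succ] at e
      refine ⟨g * c, hPi g hg c hc, ?_⟩
      have h2 := Tow.thou hO
      rw [e]
      exact (Nat.add_le_add hmc h2).trans (le_trans (by
        generalize (𝔇 i).δ = a
        clear * -
        omega) hκ)
  have hB : ∀ T ∈ fam 𝔇 i s, ∃ c ∈ T.1, ∃ q ∈ Sat (Kall 𝔇 s) F,
      dj 𝔇 (i - 1) s c q ≤ k + 1 := by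
    rintro T ⟨x, c, hx, rfl⟩
    obtain ⟨e, he, hxe⟩ := hC x c hx
    exact ⟨x * e, subset_Sat _ _ (mul_mem_lm.2 he), (mem_Nb_iff_dj hPj).1 (hS.2.2.1 hxe)⟩
  have hU := Tow.union_fam h1 hO hV
  refine ⟨hA, hB, hU, ?_⟩
  rw [← hU]
  exact h _ _ _ _ _ _ _ _ _ _ hSC _ _ k hPi hA hB
    (fun y hy => hS.2.1 ((mem_Nb_iff_dj hPj).2 hy))
    (fun y hy => (mem_Nb_iff_dj hPj).1 (hS.2.2.1 hy))

theorem tow (h : SQCStmt) : TowStmt := by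
  intro p 𝔇 N j hT hj s hG hW
  exact ⟨Tow.dm_sub hT hG j hj hW, fun F k hS => ⟨Tow.qc_all h hT hG j hj hW F k hS,
    fun h1 => Tow.shape_down h hT h1 hj hG hW hS⟩⟩

end Pool.Agent.MP_735563_an.H2
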