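import Pool.Agent.MP_735563_an.H2.Spec2

set_option autoImplicit false

/-! Towers are determined by their top region. -/

namespace Pool.Agent.MP_735563_an.H2

namespace Uniq

variable {p : ℕ} {𝔇 : ℕ → Lev p}

/-- a fold of `s` near the common region is a fold of `B` up to `H` -/
theorem fold {j : ℕ} (hj : 1 ≤ j) (hO : OK 𝔇 j) (hG : GEOp 𝔇 (j - 1)) {B s o : St p}
    {H : Subgroup (Gam p)} (hB : ValZ 𝔇 j B) (hs : ValZ 𝔇 j s) (ho : ValZ 𝔇 j o) (hBo : Le B o)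
    (hso : Le s o) (tB : Tow 𝔇 j B) (ts : Tow 𝔇 j s) (hH : ∀ h ∈ H, tr h o = o) {y : Gam p}
    (hy : ∀ u, len u ≤ (𝔇 j).D → y * u ∈ Dm j s → y * u ∈ Sat H (Dm j B)) {c : Fin 3}
    (hc : s y (j, some c) ≠ 0) : ∃ h ∈ H, B (h * y) (j, some c) ≠ 0 := by
  obtain ⟨hz, hle, hst⟩ := hs j hj le_rfl y c hc
  have hM := hO.2.2.at' c _ hz
  obtain ⟨e, he, hye⟩ := (ts j hj le_rfl).2.2 y c hc
  obtain ⟨l, hl, hlen⟩ := hM.diam e he
  set z := s y (j, some c) with hzdef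
  have hτ : ValZ 𝔇 j ((𝔇 j).τ c z) := hM.good.1.1
  have he' : l * e ∈ core 𝔇 j c z := by
    have h1 : tr l ((𝔇 j).τ c z) = (𝔇 j).τ c z := hτ.stab (by rw [hM.grp]; exact hl)
    show (𝔇 j).τ c z (l * e) (j, some c) ≠ 0
    rw [apply_of_stab h1]; exact he
  have hye' : y * (l * e) ∈ Dm j s := by
    have h1 := (Dm_stab (i := j) (hst l hl) (x := y * e)).2 hye
    rwa [show y * l * y⁻¹ * (y * e) = y * (l * e) by simp [mul_assoc]] at h1
  obtain ⟨h, hh, hB1⟩ := mem_Sat_iff.1 (hy _ hlen hye')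
  have hcomp := tB.comp hB1
  have hj1 : j - 1 ≤ j := Nat.sub_le j 1
  have hmo : Le (tr y ((𝔇 j).τ c z)) o := hle.trans hso
  have hrc : RC 𝔇 j ((𝔇 j).τ c z) (l * e) :=
    rc_of_seed hO.2.1 hM.tow (P := core 𝔇 j c z) (by rw [hM.dm]) he'
  have hco : cenA 𝔇 j o c (y * (l * e)) :=
    ((RC_tr.2 hrc).cen_iff hj hO.1 hG ((hτ.mono hj1).tr y) (ho.mono hj1) hmo c).1
      (cenA_tr.2 (hM.cen _ he').1)
  have hcB : cenA 𝔇 j B c (h * (y * (l * e))) :=
    ((hcomp.rc hj hO.2.1).cen_iff hj hO.1 hG (hB.mono hj1) (ho.mono hj1) hBo c).2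
      ((cenA_stab (hH h hh)).2 hco)
  have hlab := hcomp.lab hj hcB
  have hval : B (h * (y * (l * e))) (j, some c) = (𝔇 j).τ c z (l * e) (j, some c) := by
    rw [← hBo _ _ hlab, apply_of_stab (hH h hh),
      hmo _ _ (by rw [tr_apply]; exact he'), tr_apply]
  have hle2 := (hB j hj le_rfl _ c hlab).2.1
  rw [hval, ← mul_assoc, tr_mul, hM.hom _ he'] at hle2
  refine ⟨h, hh, hle2.ne ?_⟩
  have h2 := tr_apply (h * y) ((𝔇 j).τ c z) 1
  rw [mul_one] at h2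
  rw [h2, hM.root]
  exact hc

/-- one inclusion of the domains -/
theorem dom (h1 : LUStmt) (h2 : InjBStmt) (h3 : TowStmt) {N : ℕ} (hT : Th 𝔇 N)
    {B B' o : St p} {F F' X : Set (Gam p)} {k k' : ℕ} (hB : Good 𝔇 N B) (hB' : Good 𝔇 N B')
    (tB : Tow 𝔇 N B) (tB' : Tow 𝔇 N B') (sB : Shape 𝔇 N B F k) (sB' : Shape 𝔇 N B' F' k')
    (ho : ValZ 𝔇 N o) (hl : Le B o) (hl' : Le B' o) (hX : X.Nonempty)
    (hD : Dm N B = Sat (Kall 𝔇 B) X) (hD' : Dm N B' = Sat (Kall 𝔇 B') X) :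
    ∀ x κ, B x κ ≠ 0 → B' x κ ≠ 0 := by
  have hXB : X ⊆ Dm N B := by rw [hD]; exact subset_Sat _ _
  have hXB' : X ⊆ Dm N B' := by rw [hD']; exact subset_Sat _ _
  have key : ∀ x ∈ Nb 100 (Dm 0 B'), ∀ κ, B x κ ≠ 0 → B' x κ ≠ 0 := by
    intro x hx κ hκ
    have hr := hB.2.1 x κ hκ
    obtain ⟨h, hh, hb⟩ := h1 p 𝔇 N N hT le_rfl B' B o (K 𝔇 N o) hB'.1.1 hB.1.1 ho hl' hl tB' tB
      (fun h hh => ho.stab hh) x 0 (fun u _ hu => by
        rw [hD, Kall_eq hB.2.1] at hu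
        exact Sat_mono (K_mono le_rfl hl) hXB' hu) 1 (by rw [len_one]) κ hr.1 hr.2
      (by rw [mul_one]; exact hκ)
    rw [mul_one] at hb
    have hk := h2 p 𝔇 N N hT le_rfl B' o F' k' hB' tB' sB' ho hl' x hx h hh
      (subset_Nb _ _ (tB'.supp hB'.2.1.sup hB'.2.1 hb))
    rwa [apply_of_stab (hB'.1.1.stab hk)] at hb
  have near : ∀ y ∈ Dm 0 B', ∀ x, d0 y x ≤ 100 → x ∈ Nb 100 (Dm 0 B') := fun y hy x hx =>
    ⟨y, hy, y⁻¹ * x, hx, by simp⟩
  have hM : Met (d0 (p := p)) (𝔇 0).δ := by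
    have := (hT.2.1 0 (Nat.zero_le _)).1 B (hB.1.1.mono (Nat.zero_le _))
    rwa [dj_zero] at this
  have hQ : QC d0 (Dm 0 B) 17 := ((h3 p 𝔇 N N hT le_rfl B hB tB).2 F k sB).1
  obtain ⟨x₀, hx₀⟩ := hX
  have h0 : x₀ ∈ Dm 0 B := tB.Dm_anti (Nat.zero_le _) (hXB hx₀)
  have h0' : x₀ ∈ Dm 0 B' := tB'.Dm_anti (Nat.zero_le _) (hXB' hx₀)
  intro x κ hκ
  have hx : x ∈ Dm 0 B := tB.supp hB.2.1.sup hB.2.1 hκ
  obtain ⟨f, f0, f1, f2⟩ := hM.path x₀ x
  have walk : ∀ t ≤ d0 x₀ x, ∃ y ∈ Dm 0 B', d0 (f t) y ≤ 17 := by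
    intro t
    induction t with
    | zero => intro _; exact ⟨x₀, h0', by rw [f0, hM.refl]; omega⟩
    | succ t ih =>
      intro ht
      obtain ⟨y, hy, hd⟩ := ih (by omega)
      obtain ⟨y', hy', hd'⟩ := hQ x₀ h0 x hx (f (t + 1)) (by
        have := f2 0 (t + 1) (by omega) ht
        rw [f0] at this
        unfold Btw; omega)
      refine ⟨y', key y' (near y hy y' ?_) _ hy', hd'⟩
      have a1 := (f2 t (t + 1) (by omega) ht).1
      have a2 := hM.tri y (f t) y'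
      have a3 := hM.tri (f t) (f (t + 1)) y'
      have a4 := hM.symm y (f t)
      omega
  obtain ⟨y, hy, hd⟩ := walk _ le_rfl
  refine key x (near y hy x ?_) κ hκ
  have a2 := hM.tri y (f (d0 x₀ x)) x
  have a4 := hM.symm y (f (d0 x₀ x))
  omega

end Uniq

theorem lu : LUStmt := by
  intro p 𝔇 N j hT
  induction j with
  | zero =>
    intro _ B s o H _ _ _ _ _ _ _ _ b r hb u hu κ h1 h2 hκ
    obtain ⟨i, _ | c⟩ := κ
    · rw [rk_none] at h1 h2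
      obtain rfl : i = 1 := by omega
      exact mem_Sat_iff.1 (hb u (by omega) hκ)
    · rw [rk_some] at h1 h2; omega
  | succ j ih =>
    intro hj B s o H hB hs ho hBo hso tB ts hH b r hb u hu κ h1 h2 hκ
    have hO := hT.ok (i := j + 1) (by omega) hj
    have hG : GEOp 𝔇 (j + 1 - 1) := hT.2.1 _ (by omega)
    have hsc := hO.scale.1
    simp only [Nat.add_sub_cancel] at hsc
    have hf : ∀ w, len w + (𝔇 (j + 1)).D ≤ r + (𝔇 (j + 1)).δ → ∀ c,
        s (b * w) (j + 1, some c) ≠ 0 → ∃ h ∈ H, B (h * (b * w)) (j + 1, some c) ≠ 0 := by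
      intro w hw c hc
      refine Uniq.fold (by omega) hO hG hB hs ho hBo hso tB ts hH (fun v hv hy => ?_) hc
      rw [mul_assoc] at hy ⊢
      exact hb _ (by have := len_mul_le w v; omega) hy
    by_cases hk : rk κ ≤ 2 * j + 2
    · refine ih (by omega) B s o H (hB.mono (by omega)) (hs.mono (by omega)) (ho.mono (by omega))
        hBo hso (tB.mono (by omega)) (ts.mono (by omega)) hH b r (fun w hw hy => ?_) u hu κ h1 hk hκ
      have as : Dm j s = _ := (ts (j + 1) (by omega) le_rfl).1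
      have aB : Dm j B = _ := (tB (j + 1) (by omega) le_rfl).1
      rw [as] at hy
      obtain ⟨y, hy1, v, hv, he⟩ := hy
      have hyb : y = b * (w * v⁻¹) := by rw [← mul_assoc, he]; simp
      have hlen : len (w * v⁻¹) ≤ len w + len v := by
        have := len_mul_le w v⁻¹; rwa [len_inv] at this
      have hh : ∃ h ∈ H, h * y ∈ Dm (j + 1) B ∪ Cen (j + 1) B := by
        rw [hyb] at hy1 ⊢
        rcases hy1 with hy1 | ⟨c, hc⟩
        · obtain ⟨h, hh, h3⟩ := mem_Sat_iff.1 (hb _ (by omega) hy1)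
          exact ⟨h, hh, Or.inl h3⟩
        · obtain ⟨h, hh, h3⟩ := hf _ (by omega) c hc
          exact ⟨h, hh, Or.inr ⟨c, h3⟩⟩
      obtain ⟨h, hh, h3⟩ := hh
      refine mem_Sat_iff.2 ⟨h, hh, ?_⟩
      rw [aB, he, ← mul_assoc]
      exact mul_mem_Nb h3 hv
    · obtain ⟨i, _ | c⟩ := κ
      · rw [rk_none] at h2 hk
        obtain rfl : i = j + 1 + 1 := by omega
        exact mem_Sat_iff.1 (hb u (by omega) hκ)
      · rw [rk_some] at h2 hk
        obtain rfl : i = j + 1 := by omega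
        exact hf u (by omega) c hκ

theorem uniq (h1 : LUStmt) (h2 : InjBStmt) (h3 : TowStmt) : UniqStmt := by
  intro p 𝔇 N hT B B' o F k F' k' X hB hB' tB tB' sB sB' ho hl hl' hX hD hD'
  exact Le.antisymm
    (le_of_dom hl hl' (Uniq.dom h1 h2 h3 hT hB hB' tB tB' sB sB' ho hl hl' hX hD hD'))
    (le_of_dom hl' hl (Uniq.dom h1 h2 h3 hT hB' hB tB' tB sB' sB ho hl' hl hX hD' hD))

end Pool.Agent.MP_735563_an.H2
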