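import Pool.Agent.MP_735563_an.H2.Spec2

set_option autoImplicit false

/-! Row VG: growth of views along the rule graph. -/

namespace Pool.Agent.MP_735563_an.H2

namespace VG

variable {p : ℕ} {𝔇 : ℕ → Lev p}

/-- translates by a stabilising element of a quasi convex set are quasi convex -/
theorem qc_lm {j κ : ℕ} {s : St p} {g : Gam p} (hg : tr g s = s) {C : Set (Gam p)}
    (h : QC (dj 𝔇 j s) C κ) : QC (dj 𝔇 j s) (lm g C) κ := by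
  intro a ha b hb m hm
  have hg' := stab_inv hg
  obtain ⟨e, he, h1⟩ := h _ ha _ hb (g⁻¹ * m) (by
    unfold Btw at hm ⊢
    rw [dj_stab hg', dj_stab hg', dj_stab hg']; exact hm)
  refine ⟨g * e, mul_mem_lm.2 he, ?_⟩
  rw [← dj_stab hg' m (g * e), inv_mul_cancel_left]
  exact h1

theorem sat_union_eq {H H' : Subgroup (Gam p)} (hH : H ≤ H') (P T : Set (Gam p)) :
    Sat H' (P ∪ T) = Sat H' P ∪ ⋃₀ {C | ∃ h ∈ H', C = lm h (Sat H T)} := by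
  rw [Sat_union]
  congr 1
  ext y
  constructor
  · rintro ⟨h, hh, z, hz, rfl⟩
    exact ⟨_, ⟨h, hh, rfl⟩, mul_mem_lm.2 (subset_Sat _ _ hz)⟩
  · rintro ⟨_, ⟨h, hh, rfl⟩, k, hk, z, hz, he⟩
    refine ⟨h * k, mul_mem hh (hH hk), z, hz, ?_⟩
    rw [mul_assoc, ← he, mul_inv_cancel_left]

theorem sat_step {H H' : Subgroup (Gam p)} (hH : H ≤ H') (P : Set (Gam p)) {T X : Set (Gam p)}
    (hT : T ⊆ X) : Sat H' (Sat H (P ∪ T) ∪ X) = Sat H' (P ∪ X) := by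
  rw [Sat_union, Sat_Sat hH, ← Sat_union, Set.union_assoc, Set.union_eq_self_of_subset_left hT]

/-- the points reached so far are seed points -/
theorem rc_Tn {i t : ℕ} (hC : ConstA 𝔇 i) {s : St p} {P : Set (Gam p)} {x : Gam p} {c : Fin 3}
    (hT : Tow 𝔇 (i - 1) s)
    (hD : Dm (i - 1) s = Nb (𝔇 i).θ (Sat (Kall 𝔇 s) (P ∪ Tn 𝔇 i s c x t))) :
    ∀ y ∈ Tn 𝔇 i s c x t, RC 𝔇 i s y := fun _ hy =>
  rc_of_seed hC hT hD.symm.subset (subset_Sat _ _ (Or.inr hy))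

/-- quasi convexity of the grown seed -/
theorem qc_seed (hq : QCTStmt) {N i t : ℕ} (hN : i - 1 ≤ N) (hTh : Th 𝔇 N) (hR : RuleOK 𝔇 i)
    (hC : ConstA 𝔇 i) {s s' : St p} {P : Set (Gam p)} {x : Gam p} {c : Fin 3}
    (hs : Good 𝔇 N s) (hs' : Good 𝔇 N s') (hl : Le s s') (hT : Tow 𝔇 (i - 1) s)
    (hT' : Tow 𝔇 (i - 1) s') (hU : Up 𝔇 (i - 1) s s') (hx : x ∈ P)
    (hP : ∀ k ∈ Kall 𝔇 s, ∀ y ∈ P, k * y ∈ P)
    (hQ : QC (dj 𝔇 (i - 1) s) P (500 * ((𝔇 (i - 1)).δ + (𝔇 i).κ + 1)))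
    (hD : Dm (i - 1) s = Nb (𝔇 i).θ P)
    (hD' : Dm (i - 1) s' = Nb (𝔇 i).θ (Sat (Kall 𝔇 s') (P ∪ Tn 𝔇 i s' c x t))) :
    QC (dj 𝔇 (i - 1) s') (Sat (Kall 𝔇 s') (P ∪ Tn 𝔇 i s' c x t))
      (1000 * ((𝔇 (i - 1)).δ + (𝔇 i).κ + 1)) := by
  have hG := hTh.2.1 (i - 1) hN
  have hv : ValZ 𝔇 (i - 1) s := hs.1.1.mono hN
  have hv' : ValZ 𝔇 (i - 1) s' := hs'.1.1.mono hN
  have hθ := hC.θ
  have h1 := (hq p 𝔇 (i - 1) hG.2.2.2 s s' P _ hv hv' hl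
    (fun k hk => hP k (K_le_Kall _ _ hk)) hQ (fun y hy => hT.comp (by
      rw [hD]; exact Nb_mono (by omega) subset_rfl hy))).1
  rw [← Sat_Kall_eq hs' hl hU.1 hP] at h1
  have h2 := Tn_qc hR hG.1 hv' (rc_Tn hC hT' hD')
  rw [sat_union_eq (K_le_Kall (𝔇 := 𝔇) (i - 1) s')]
  refine ((hG.1 s' hv').star (κ' := (𝔇 i).κ + 4 * (𝔇 (i - 1)).δ) (l := 0) h1 ?_).mono (by omega)
  rintro _ ⟨h, hh, rfl⟩
  refine ⟨qc_lm (hs'.stab hh) h2, h * x, mul_mem_lm.2 (subset_Sat _ _ (mem_Tn_self x t)),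
    h * x, ⟨h, hh, x, hx, rfl⟩, ?_⟩
  rw [(hG.1 s' hv').refl]

theorem const_le {a b c l r θ : ℕ} (h : 10 ^ 6 * (a + b + c + l + r + 1) ≤ θ) :
    1000 * (a + b + 1) + 2 * l + 300 * (a + 1) ≤ θ := by
  have h1 : 1000 * (a + b + 1) + 2 * l + 300 * (a + 1) ≤ 2000 * (a + b + c + l + r + 1) := by
    clear h
    linarith [Nat.zero_le a, Nat.zero_le b, Nat.zero_le c, Nat.zero_le l, Nat.zero_le r]
  exact h1.trans ((Nat.mul_le_mul_right _ (by norm_num)).trans h)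

theorem vgp [NeZero p] (hq : QCTStmt) {i : ℕ} (hi : 1 ≤ i) (hGB : GBp 𝔇 (i - 1)) : VGp 𝔇 i := by
  intro N hN hTh hR hC s P x c t hs hT hS hx hP hQ hD
  have hG := hTh.2.1 (i - 1) hN
  induction t with
  | zero =>
    have he : Sat (Kall 𝔇 s) (P ∪ Tn 𝔇 i s c x 0) = P := by
      rw [Tn, Set.union_eq_self_of_subset_right (Set.singleton_subset_iff.2 hx), Sat_eq_self hP]
    refine Reach.refl hs ⟨hT, hS, Up.refl _ _, ?_, ?_⟩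
    · rw [he, hD]
    · rw [he]; exact hQ.mono (by omega)
  | succ t ih =>
    refine (ih.mono (fun _ _ _ h => h) (fun o _ _ ho y hy =>
      ho y (Nb_mono le_rfl (Tn_succ_sub x t) hy))).bind ?_
    rintro s₁ hs₁ hl₁ ⟨hT₁, hS₁, hU₁, hD₁, hQ₁⟩
    have hv₁ : ValZ 𝔇 (i - 1) s₁ := hs₁.1.1.mono hN
    have hrc := rc_Tn hC hT₁ hD₁
    have h1 := hGB N hN hTh s₁ (Sat (Kall 𝔇 s₁) (P ∪ Tn 𝔇 i s₁ c x t)) (Tn 𝔇 i s₁ c x (t + 1))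
      (𝔇 i).θ (𝔇 i).l _ hs₁ hT₁ hS₁ ⟨x, subset_Sat _ _ (Or.inl hx)⟩
      (fun _ hk _ hy => mul_mem_Sat hk hy) hQ₁ hD₁ (Tn_finite hR x _)
      ((Tn_succ_sub_Nb hR x t).trans
        (Nb_mono le_rfl (Set.subset_union_right.trans (subset_Sat _ _)))) (const_le hC.θ)
    refine h1.mono ?_ ?_
    · rintro s₂ hs₂ hl₂ ⟨hT₂, hS₂, hU₂, hD₂, -⟩
      have he := Tn_stable hi hR hG hv₁ (hs₂.1.1.mono hN) hl₂ hrc (t + 1) le_rfl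
      rw [sat_step (Kall_mono hl₂) P (Tn_succ_sub x t), ← he] at hD₂
      have hU := hU₁.trans hU₂ hl₂
      exact ⟨hT₂, hS₂, hU, hD₂,
        qc_seed hq hN hTh hR hC hs hs₂ (hl₁.trans hl₂) hT hT₂ hU hx hP hQ hD hD₂⟩
    · intro o ho hlo hO
      rw [← Tn_stable hi hR hG hv₁ (ho.1.mono hN) hlo hrc (t + 1) le_rfl]
      exact hO

theorem vxp {i : ℕ} (hi : 1 ≤ i) (hB : BALLp 𝔇 (i - 1)) (hV : VGp 𝔇 i) : VXp 𝔇 i := by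
  intro hTh hR hC o c ho hc hO
  have hG := hTh.2.1 (i - 1) le_rfl
  obtain ⟨ℱ, f1, -, -, f4⟩ := hB hTh (𝔇 i).θ
  obtain ⟨s₁, hm, hl₁⟩ := f4 o ho (fun _ _ h => absurd rfl h) (fun u hu => by
    have := hO _ (mul_mem_Nb (mem_Tn_self 1 _) hu)
    rwa [one_mul] at this)
  obtain ⟨hs₁, -, ⟨⟨-, hT₁, hD₁⟩, -⟩, -⟩ := f1 s₁ hm
  have hQ : QC (dj 𝔇 (i - 1) s₁) (Sat (Kall 𝔇 s₁) {1})
      (500 * ((𝔇 (i - 1)).δ + (𝔇 i).κ + 1)) := by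
    rw [Kall_eq hs₁.2.1]
    rintro _ ⟨k, hk, _, rfl, rfl⟩ _ ⟨k', hk', _, rfl, rfl⟩ m hm
    refine ⟨k' * 1, ⟨k', hk', 1, rfl, rfl⟩, ?_⟩
    have h0 : dj 𝔇 (i - 1) s₁ (k * 1) (k' * 1) = 0 :=
      dj_eq_zero.2 (by simpa using mul_mem hk' (inv_mem hk))
    unfold Btw at hm
    omega
  obtain ⟨𝒢, g1, -, -, g4⟩ := hV (i - 1) le_rfl hTh hR hC s₁ (Sat (Kall 𝔇 s₁) {1}) 1 c (𝔇 i).n hs₁
    hT₁ hs₁.2.1.sup
    (subset_Sat _ _ rfl) (fun _ hk _ hy => mul_mem_Sat hk hy) hQ hD₁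
  obtain ⟨σ, hm', hl₂⟩ := g4 o ho hl₁ hO
  obtain ⟨hσ, hl, ⟨hT₂, -, -, hD₂, -⟩, -⟩ := g1 σ hm'
  have hrc := rc_Tn hC hT₂ hD₂ 1 (mem_Tn_self 1 _)
  refine ⟨σ, ⟨hσ, hT₂, (hrc.cen_iff hi hR hG hσ.1.1 ho.1 hl₂ c).2 hc, ?_⟩, hl₂⟩
  rw [hD₂, Sat_union, Sat_Sat (Kall_mono hl), ← Sat_union,
    Set.union_eq_self_of_subset_left (Set.singleton_subset_iff.2 (mem_Tn_self 1 _))]

end VG

theorem vg (h : QCTStmt) : VGStmt :=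
  fun _ _ _ _ hi => ⟨fun hGB => VG.vgp h hi hGB, fun hB hV => VG.vxp hi hB hV⟩

end Pool.Agent.MP_735563_an.H2
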