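import Pool.Agent.MP_735563_an.H2.Spec3
import Pool.Agent.MP_735563_an.H2.Gr
import Pool.Agent.MP_735563_an.H2.Poly
import Pool.Agent.MP_735563_an.H2.Red
import Pool.Agent.MP_735563_an.H2.Desc
import Pool.Agent.MP_735563_an.H2.Len
import Pool.Agent.MP_735563_an.H2.Patch
import Pool.Agent.MP_735563_an.H2.CP
import Pool.Agent.MP_735563_an.H2.SCC
import Pool.Agent.MP_735563_an.H2.AB
import Pool.Agent.MP_735563_an.H2.ST
import Pool.Agent.MP_735563_an.H2.Tow
import Pool.Agent.MP_735563_an.H2.QCT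
import Pool.Agent.MP_735563_an.H2.InjB
import Pool.Agent.MP_735563_an.H2.Uniq
import Pool.Agent.MP_735563_an.H2.Glue
import Pool.Agent.MP_735563_an.H2.BGlue
import Pool.Agent.MP_735563_an.H2.GL
import Pool.Agent.MP_735563_an.H2.GB
import Pool.Agent.MP_735563_an.H2.VG
import Pool.Agent.MP_735563_an.H2.Ball
import Pool.Agent.MP_735563_an.H2.Dich
import Pool.Agent.MP_735563_an.H2.FG
import Pool.Agent.MP_735563_an.H2.Fold
import Pool.Agent.MP_735563_an.H2.Fam
import Pool.Agent.MP_735563_an.H2.Cong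

set_option autoImplicit false

/-! The state theory without hypotheses. -/

namespace Pool.Agent.MP_735563_an.H2

theorem polyT : PolyStmt := poly gr
theorem redMinT : RedMinStmt := redMin gr
theorem dispT : DispStmt := disp gr
theorem hypT : HypStmt := hyp polyT
theorem descT : DescStmt := desc polyT redMinT
theorem gateT : GateStmt := gate polyT redMinT
theorem sccT : SCCStmt := scc cpS qct
theorem abT : ABStmt := ab gr cpS
theorem sqcT : SQCStmt := sqc descT
theorem towT : TowStmt := tow sqcT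
theorem rsUpT : RSUpStmt := rsUp qct
theorem irT : IRStmt := ir dispT
theorem injBT : InjBStmt := injB gr gateT cpS sqcT towT qct
theorem uniqT : UniqStmt := uniq lu injBT towT
theorem bglueT : BGlueStmt := bglue patch glue lu injBT towT
theorem glT : GLStmt := gl eps sqcT rsUpT
theorem gbT : GBStmt := gb rsUpT qct
theorem vgT : VGStmt := vg qct
theorem ballT : BallStmt := ballS eps
theorem dichT : DichStmt := dich gateT cpS sqcT
theorem vuT : VUStmt := vu uniqT
theorem famT : FamStmt := famS uniqT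
theorem fgT (h : FGaStmt) : FGStmt := fgS h bglueT irT towT vuT rsUpT
theorem foldT (h : FGaStmt) : FoldStmt := fold (fgT h) cpS sqcT rsUpT vuT

theorem thT : ThStmt := by
  intro p 𝔇 N h
  have key : ∀ j ≤ N, GEOp 𝔇 j ∧ (1 ≤ j → SCp 𝔇 j) := by
    intro j
    induction j with
    | zero => exact fun _ => ⟨geo_zero lenS h.1, fun h0 => by omega⟩
    | succ j ih =>
      intro hj
      have h1 : 1 ≤ j + 1 := by omega
      have hO := h.2.1 (j + 1) h1 hj
      have hG : GEOp 𝔇 (j + 1 - 1) := (ih (by omega)).1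
      have hS := sccT p 𝔇 (j + 1) h1 hO hG
      have hM := mon p 𝔇 (j + 1) h1 hO hG
      have hA := abT p 𝔇 (j + 1) h1 hO hG hS hM
      have hH : HYp 𝔇 (j + 1) := fun s hs => by
        have := hypT _ _ _ _ _ _ _ _ _ _ (hS s hs)
        rw [dj_succ] at this
        exact this.mono hO.2.2.δ
      exact ⟨⟨hH, hM, hA, st p 𝔇 (j + 1) hH hA⟩, fun _ => hS⟩
  exact ⟨h, fun j hj => (key j hj).1, fun j h1 hj => (key j hj).2 h1⟩

theorem allT (h : FGaStmt) : AllStmt := by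
  intro p _ 𝔇
  have step : ∀ i, GLp 𝔇 i → BALLp 𝔇 i → GLFp 𝔇 i ∧ GBp 𝔇 i ∧ VGp 𝔇 (i + 1) ∧ VXp 𝔇 (i + 1) ∧
      F3p 𝔇 (i + 1) := by
    intro i h1 h2
    have h3 := (gbT p 𝔇 i).1 h1
    have h4 := (gbT p 𝔇 i).2 h3
    have h5 := (vgT p 𝔇 (i + 1) (by omega)).1 h4
    have h6 := (vgT p 𝔇 (i + 1) (by omega)).2 h2 h5
    exact ⟨h3, h4, h5, h6, f3 p 𝔇 (i + 1) (by omega) (foldT h p 𝔇 (i + 1) (by omega) h5 h6)⟩
  have key : ∀ i, GLp 𝔇 i ∧ BALLp 𝔇 i := by
    intro i
    induction i with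
    | zero => exact ⟨(glT p 𝔇).1, (ballT p 𝔇).1 ((gbT p 𝔇 0).1 (glT p 𝔇).1)⟩
    | succ i ih =>
      obtain ⟨-, h4, -, -, h7⟩ := step i ih.1 ih.2
      have h8 := (glT p 𝔇).2 (i + 1) (by omega) h4 h7
      exact ⟨h8, ((ballT p 𝔇).2 i).2 ih.2 (((ballT p 𝔇).2 i).1 h7) ((gbT p 𝔇 _).1 h8)⟩
  intro i
  obtain ⟨h3, h4, h5, h6, h7⟩ := step i (key i).1 (key i).2
  exact ⟨h3, h4, (key i).2, ((ballT p 𝔇).2 i).1 h7, h5, h6⟩

end Pool.Agent.MP_735563_an.H2
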