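import Pool.Agent.MP_735563_an.H2.Spec1

set_option autoImplicit false

/-! Row Angle: fixed spaces of subgroups of a finite p-group of bounded length. -/

namespace Pool.Agent.MP_735563_an.H2

namespace Angle

open Classical

section Avg

variable {G : Type} [Group G] [Fintype G] {W : Type} [NormedAddCommGroup W]
  [InnerProductSpace ℝ W] (ρ : G →* (W ≃ₗᵢ[ℝ] W))

/-- the elements of a subgroup as a finset -/
noncomputable def els (T : Subgroup G) : Finset G := Finset.univ.filter (· ∈ T)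

theorem mem_els {T : Subgroup G} {g : G} : g ∈ els T ↔ g ∈ T := by simp [els]

theorem card_els (T : Subgroup G) : (els T).card = Nat.card T := by
  rw [Nat.card_eq_fintype_card, Fintype.card_subtype]
  rfl

theorem card_pos (T : Subgroup G) : (0 : ℝ) < (els T).card := by
  have : (els T).Nonempty := ⟨1, mem_els.2 T.one_mem⟩
  exact_mod_cast this.card_pos

/-- average over a subgroup -/
noncomputable def P (T : Subgroup G) (u : W) : W :=
  ((els T).card : ℝ)⁻¹ • ∑ g ∈ els T, ρ g u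

theorem rho_mul (g h : G) (u : W) : ρ (g * h) u = ρ g (ρ h u) := by
  rw [map_mul]; rfl

theorem P_fix (T : Subgroup G) (u : W) {h : G} (hh : h ∈ T) : ρ h (P ρ T u) = P ρ T u := by
  unfold P
  rw [map_smul, map_sum]
  congr 1
  refine Finset.sum_bij (fun g _ => h * g) ?_ ?_ ?_ ?_
  · intro g hg; exact mem_els.2 (T.mul_mem hh (mem_els.1 hg))
  · intro a _ b _ hab; exact mul_left_cancel hab
  · intro b hb
    exact ⟨h⁻¹ * b, mem_els.2 (T.mul_mem (T.inv_mem hh) (mem_els.1 hb)), by simp⟩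
  · intro g _; rw [rho_mul]

theorem inner_P (T : Subgroup G) (u w : W) :
    inner ℝ w (P ρ T u) = ((els T).card : ℝ)⁻¹ * ∑ g ∈ els T, inner ℝ w (ρ g u) := by
  unfold P
  rw [real_inner_smul_right, inner_sum]

theorem inner_P_fix (T : Subgroup G) (u w : W) (hw : ∀ g ∈ T, ρ g w = w) :
    inner ℝ w (P ρ T u) = inner ℝ w u := by
  rw [inner_P]
  have : ∀ g ∈ els T, inner ℝ w (ρ g u) = inner ℝ w u := by
    intro g hg
    conv_lhs => rw [← hw g (mem_els.1 hg)]
    exact (ρ g).inner_map_map w u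
  rw [Finset.sum_congr rfl this, Finset.sum_const, nsmul_eq_mul, ← mul_assoc,
    inv_mul_cancel₀ (card_pos T).ne', one_mul]

theorem normsq_P (T : Subgroup G) (u : W) : ‖P ρ T u‖ ^ 2 = inner ℝ (P ρ T u) u := by
  rw [← real_inner_self_eq_norm_sq]
  exact inner_P_fix ρ T u _ (fun g hg => P_fix ρ T u hg)

theorem norm_P_le (T : Subgroup G) (u : W) : ‖P ρ T u‖ ≤ ‖u‖ := by
  have h1 := normsq_P ρ T u
  have h2 := real_inner_le_norm (P ρ T u) u
  have h3 := norm_nonneg (P ρ T u)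
  have h4 := norm_nonneg u
  by_contra hlt
  push Not at hlt
  nlinarith

theorem P_conj (T : Subgroup G) (u : W) (g : G) :
    ρ g (P ρ T u) = P ρ (cjs g T) (ρ g u) := by
  have hc : (els (cjs g T)).card = (els T).card := by
    symm
    refine Finset.card_bij (fun t _ => g * t * g⁻¹) ?_ ?_ ?_
    · intro t ht
      exact mem_els.2 (mem_cjs.2 (by simpa [mul_assoc] using mem_els.1 ht))
    · intro a _ b _ hab
      simpa using hab
    · intro b hb
      exact ⟨g⁻¹ * b * g, mem_els.2 (mem_cjs.1 (mem_els.1 hb)), by simp [mul_assoc]⟩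
  unfold P
  rw [map_smul, map_sum, hc]
  congr 1
  refine Finset.sum_bij (fun t _ => g * t * g⁻¹) ?_ ?_ ?_ ?_
  · intro t ht
    exact mem_els.2 (mem_cjs.2 (by simpa [mul_assoc] using mem_els.1 ht))
  · intro a _ b _ hab
    simpa using hab
  · intro b hb
    exact ⟨g⁻¹ * b * g, mem_els.2 (mem_cjs.1 (mem_els.1 hb)), by simp [mul_assoc]⟩
  · intro t _
    rw [← rho_mul, ← rho_mul]
    congr 2
    simp [mul_assoc]

theorem P_P {T T' : Subgroup G} (h : T ≤ T') (u : W) : P ρ T' (P ρ T u) = P ρ T' u := by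
  set δ := P ρ T' (P ρ T u) - P ρ T' u with hδ
  have hfix : ∀ g ∈ T', ρ g δ = δ := by
    intro g hg
    rw [hδ, map_sub, P_fix ρ T' _ hg, P_fix ρ T' _ hg]
  have h1 : inner ℝ δ δ = 0 := by
    conv_lhs => rw [hδ]
    rw [inner_sub_right, ← hδ, inner_P_fix ρ T' _ δ hfix, inner_P_fix ρ T' _ δ hfix,
      inner_P_fix ρ T _ δ (fun g hg => hfix g (h hg)), sub_self]
  exact sub_eq_zero.1 (inner_self_eq_zero.1 h1)

theorem fix_sup {X Y : Subgroup G} {w : W} (hX : ∀ g ∈ X, ρ g w = w) (hY : ∀ g ∈ Y, ρ g w = w) :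
    ∀ g ∈ X ⊔ Y, ρ g w = w := by
  let S : Subgroup G :=
    { carrier := {g | ρ g w = w}
      mul_mem' := by
        intro a b ha hb
        have ha' : ρ a w = w := ha
        have hb' : ρ b w = w := hb
        show ρ (a * b) w = w
        rw [rho_mul, hb', ha']
      one_mem' := by
        show ρ 1 w = w
        rw [map_one]; rfl
      inv_mem' := by
        intro a ha
        have ha' : ρ a w = w := ha
        show ρ a⁻¹ w = w
        conv_lhs => rw [← ha']
        rw [← rho_mul, inv_mul_cancel, map_one]; rfl }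
  have : X ⊔ Y ≤ S := sup_le (fun g hg => hX g hg) (fun g hg => hY g hg)
  exact fun g hg => this hg

/-- the orthogonal form of the angle bound gives the additive form -/
theorem add_form {X Y : Subgroup G} {η : ℝ} (hη : 0 ≤ η)
    (H : ∀ u v : W, (∀ g ∈ X, ρ g u = u) → (∀ g ∈ Y, ρ g v = v) →
      (∀ w, (∀ g ∈ X ⊔ Y, ρ g w = w) → inner ℝ u w = 0) → inner ℝ u v ≤ η * ‖u‖ * ‖v‖)
    (u v : W) (hu : ∀ g ∈ X, ρ g u = u) (hv : ∀ g ∈ Y, ρ g v = v) :
    inner ℝ u v ≤ η * ‖u‖ * ‖v‖ + inner ℝ (P ρ (X ⊔ Y) u) v := by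
  set q := P ρ (X ⊔ Y) u with hq
  have hqf : ∀ g ∈ X ⊔ Y, ρ g q = q := fun g hg => P_fix ρ _ u hg
  have h1 := H (u - q) v
    (fun g hg => by rw [map_sub, hu g hg, hqf g (Subgroup.mem_sup_left hg)]) hv
    (fun w hw => by
      rw [inner_sub_left, real_inner_comm w q, hq, inner_P_fix ρ _ u w hw, real_inner_comm,
        sub_self])
  have h2 : ‖u - q‖ ≤ ‖u‖ := by
    have e1 : ‖u - q‖ ^ 2 = ‖u‖ ^ 2 - 2 * inner ℝ u q + ‖q‖ ^ 2 := norm_sub_sq_real u q
    have e2 : ‖q‖ ^ 2 = inner ℝ q u := normsq_P ρ _ u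
    rw [real_inner_comm] at e2
    have e3 : ‖u - q‖ ^ 2 ≤ ‖u‖ ^ 2 := by nlinarith [sq_nonneg ‖q‖]
    exact le_of_sq_le_sq₀' e3
  rw [inner_sub_left] at h1
  have h3 : η * ‖u - q‖ * ‖v‖ ≤ η * ‖u‖ * ‖v‖ := by gcongr
  linarith
where
  le_of_sq_le_sq₀' {a b : W} (h : ‖a‖ ^ 2 ≤ ‖b‖ ^ 2) : ‖a‖ ≤ ‖b‖ :=
    (pow_le_pow_iff_left₀ (norm_nonneg _) (norm_nonneg _) two_ne_zero).1 h

end Avg

theorem card_lt_step {G : Type} [Group G] [Finite G] {p : ℕ} (hp : p.Prime) (hG : IsPGroup p G)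
    {A B : Subgroup G} (hle : A ≤ B) (hne : A ≠ B) : p * Nat.card A ≤ Nat.card B := by
  haveI := Fact.mk hp
  obtain ⟨a, ha⟩ := IsPGroup.iff_card.1 (hG.to_subgroup A)
  obtain ⟨b, hb⟩ := IsPGroup.iff_card.1 (hG.to_subgroup B)
  have hlt : Nat.card A < Nat.card B := by
    by_contra h
    push Not at h
    exact hne (Subgroup.eq_of_le_of_card_ge hle h)
  rw [ha, hb] at hlt ⊢
  have : a < b := (Nat.pow_lt_pow_iff_right hp.one_lt).1 hlt
  rw [← pow_succ']
  exact Nat.pow_le_pow_right hp.pos this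

theorem exists_M {G : Type} [Group G] [Finite G] {p : ℕ} (hp : p.Prime) (hG : IsPGroup p G)
    {Y G₀ : Subgroup G} (hle : Y ≤ G₀) (hne : Y ≠ G₀) :
    ∃ M : Subgroup G, Y ≤ M ∧ M ≤ G₀ ∧ M ≠ G₀ ∧ ∀ g ∈ G₀, cjs g M = M := by
  haveI := Fact.mk hp
  haveI : Group.IsNilpotent G₀ := (hG.to_subgroup G₀).isNilpotent
  have hnc : NormalizerCondition G₀ := normalizerCondition_of_isNilpotent
  have hY : Y.subgroupOf G₀ ≠ ⊤ := by
    intro h
    exact hne (le_antisymm hle (Subgroup.subgroupOf_eq_top.1 h))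
  obtain ⟨M', hM', hYM⟩ := (eq_top_or_exists_le_coatom (Y.subgroupOf G₀)).resolve_left hY
  have hn : M'.Normal := Subgroup.NormalizerCondition.normal_of_coatom M' hnc hM'
  refine ⟨M'.map G₀.subtype, ?_, ?_, ?_, ?_⟩
  · intro y hy
    exact ⟨⟨y, hle hy⟩, hYM (by simpa [Subgroup.mem_subgroupOf] using hy), rfl⟩
  · rintro _ ⟨x, _, rfl⟩
    exact x.2
  · intro h
    apply hM'.1
    rw [eq_top_iff]
    intro x _
    have : (x : G) ∈ M'.map G₀.subtype := by rw [h]; exact x.2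
    obtain ⟨y, hy, hxy⟩ := this
    have : y = x := Subtype.ext hxy
    exact this ▸ hy
  · intro g hg
    ext u
    rw [mem_cjs]
    constructor
    · rintro ⟨x, hx, hxu⟩
      refine ⟨⟨g, hg⟩ * x * ⟨g, hg⟩⁻¹, hn.conj_mem x hx _, ?_⟩
      have hxu' : (x : G) = g⁻¹ * u * g := hxu
      simp [hxu', mul_assoc]
    · rintro ⟨x, hx, rfl⟩
      refine ⟨⟨g, hg⟩⁻¹ * x * ⟨g, hg⟩⁻¹⁻¹, hn.conj_mem x hx _, ?_⟩
      simp

/-- the numerical sequence -/
noncomputable def bs (ε : ℝ) : ℕ → ℝ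
  | 0 => 0
  | k + 1 => Real.sqrt (ε + bs ε k)

theorem bs_nonneg (ε : ℝ) : ∀ k, 0 ≤ bs ε k
  | 0 => le_refl _
  | _ + 1 => Real.sqrt_nonneg _

theorem bs_small : ∀ (k : ℕ) (η : ℝ), 0 < η → ∃ ε₀ : ℝ, 0 < ε₀ ∧ ∀ ε, ε ≤ ε₀ → bs ε k ≤ η
  | 0, η, hη => ⟨1, one_pos, fun _ _ => hη.le⟩
  | k + 1, η, hη => by
    obtain ⟨ε₁, h1, h2⟩ := bs_small k (η ^ 2 / 2) (by positivity)
    refine ⟨min ε₁ (η ^ 2 / 2), lt_min h1 (by positivity), fun ε hε => ?_⟩
    have a1 := h2 ε (hε.trans (min_le_left _ _))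
    have a2 : ε ≤ η ^ 2 / 2 := hε.trans (min_le_right _ _)
    show Real.sqrt (ε + bs ε k) ≤ η
    exact Real.sqrt_le_iff.2 ⟨hη.le, by linarith⟩

/-- the statement for pairs of subgroups generating a group of order at most `p ^ n` -/
def A (n p : ℕ) (η : ℝ) : Prop :=
  ∀ (G : Type) [Group G] [Finite G], IsPGroup p G →
    ∀ (W : Type) [NormedAddCommGroup W] [InnerProductSpace ℝ W] (ρ : G →* (W ≃ₗᵢ[ℝ] W))
      (X Y : Subgroup G) (u v : W), Nat.card (X ⊔ Y : Subgroup G) ≤ p ^ n →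
      (∀ g ∈ X, ρ g u = u) → (∀ g ∈ Y, ρ g v = v) →
      (∀ w, (∀ g ∈ X ⊔ Y, ρ g w = w) → inner ℝ u w = 0) → inner ℝ u v ≤ η * ‖u‖ * ‖v‖

section Step

variable {G : Type} [Group G] [Fintype G] {W : Type} [NormedAddCommGroup W]
  [InnerProductSpace ℝ W] (ρ : G →* (W ≃ₗᵢ[ℝ] W))

theorem norm_zero {X Y T : Subgroup G} {u : W} (hu : ∀ g ∈ X, ρ g u = u) (hYT : Y ≤ T)
    (horth : ∀ w, (∀ g ∈ X ⊔ Y, ρ g w = w) → inner ℝ u w = 0)
    (hn : ∀ g ∈ X, cjs g T = T) : ‖P ρ T u‖ ^ 2 = 0 := by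
  rw [normsq_P, real_inner_comm]
  apply horth
  apply fix_sup
  · intro g hg
    rw [P_conj, hn g hg, hu g hg]
  · intro g hg
    exact P_fix ρ T u (hYT hg)

theorem chain {n p : ℕ} (hp : p.Prime) (hG : IsPGroup p G) {η' ε : ℝ} (hη' : 0 ≤ η')
    (hε : (p : ℝ)⁻¹ + η' ≤ ε) (IH : A n p η') {X Y M : Subgroup G} {u : W}
    (hu : ∀ g ∈ X, ρ g u = u)
    (horth : ∀ w, (∀ g ∈ X ⊔ Y, ρ g w = w) → inner ℝ u w = 0)
    (hM : ∀ g ∈ X, cjs g M = M) (hcM : Nat.card M ≤ p ^ n) :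
    ∀ (k : ℕ) (T : Subgroup G), Y ≤ T → T ≤ M → Nat.card M ≤ p ^ k * Nat.card T →
      ‖P ρ T u‖ ^ 2 ≤ bs ε k * ‖u‖ ^ 2 := by
  intro k
  induction k with
  | zero =>
    intro T hYT hTM hc
    have : T = M := Subgroup.eq_of_le_of_card_ge hTM (by simpa using hc)
    subst this
    rw [norm_zero ρ hu hYT horth hM]
    simp [bs]
  | succ k ih =>
    intro T hYT hTM hc
    by_cases hn : ∀ g ∈ X, cjs g T = T
    · rw [norm_zero ρ hu hYT horth hn]
      exact mul_nonneg (bs_nonneg _ _) (sq_nonneg _)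
    set w := P ρ T u with hw
    set U := ‖u‖ ^ 2 with hU
    have hU0 : 0 ≤ U := sq_nonneg _
    have hb0 := bs_nonneg ε k
    have hwu : ‖w‖ ≤ ‖u‖ := norm_P_le ρ T u
    have hwU : ‖w‖ ^ 2 ≤ U := by rw [hU]; gcongr
    -- the normaliser of T in X
    let N : Subgroup G :=
      { carrier := {g | g ∈ X ∧ cjs g T = T}
        mul_mem' := by
          rintro a b ⟨ha, ha'⟩ ⟨hb, hb'⟩
          exact ⟨X.mul_mem ha hb, by rw [cjs_mul, hb', ha']⟩
        one_mem' := ⟨X.one_mem, cjs_one T⟩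
        inv_mem' := by
          rintro a ⟨ha, ha'⟩
          refine ⟨X.inv_mem ha, ?_⟩
          conv_lhs => rw [← ha']
          rw [← cjs_mul, inv_mul_cancel, cjs_one] }
    have hNX : N ≤ X := fun g hg => hg.1
    have hNne : N ≠ X := by
      intro h
      apply hn
      intro g hg
      have : g ∈ N := h ▸ hg
      exact this.2
    have hcN : p * Nat.card N ≤ Nat.card X := card_lt_step hp hG hNX hNne
    -- bound for each term
    have hterm : ∀ g ∈ els X, inner ℝ w (ρ g w) ≤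
        (if g ∈ N then U else 0) + (η' + bs ε k) * U := by
      intro g hg
      have hgX : g ∈ X := mem_els.1 hg
      have hnorm : ‖ρ g w‖ = ‖w‖ := (ρ g).norm_map w
      by_cases hgN : g ∈ N
      · rw [if_pos hgN]
        have h1 := real_inner_le_norm w (ρ g w)
        rw [hnorm] at h1
        have h2 : 0 ≤ (η' + bs ε k) * U := by positivity
        nlinarith
      · rw [if_neg hgN, zero_add]
        have hne : T ≠ T ⊔ cjs g T := by
          intro h
          apply hgN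
          refine ⟨hgX, ?_⟩
          have hle : cjs g T ≤ T := by
            conv_rhs => rw [h]
            exact le_sup_right
          refine Subgroup.eq_of_le_of_card_ge hle (le_of_eq ?_)
          unfold cjs
          rw [Subgroup.card_map_of_injective]
          exact (MulAut.conj g).injective
        have hT'M : T ⊔ cjs g T ≤ M := by
          refine sup_le hTM ?_
          intro x hx
          rw [← hM g hgX, mem_cjs]
          exact hTM (mem_cjs.1 hx)
        have hstep := card_lt_step hp hG (le_sup_left : T ≤ T ⊔ cjs g T) hne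
        have hc' : Nat.card M ≤ p ^ k * Nat.card (T ⊔ cjs g T : Subgroup G) := by
          calc Nat.card M ≤ p ^ (k + 1) * Nat.card T := hc
            _ = p ^ k * (p * Nat.card T) := by ring
            _ ≤ _ := Nat.mul_le_mul_left _ hstep
        have hih := ih (T ⊔ cjs g T) (hYT.trans le_sup_left) hT'M hc'
        have hgw : ρ g w = P ρ (cjs g T) u := by rw [hw, P_conj, hu g hgX]
        have hadd := add_form ρ (X := T) (Y := cjs g T) hη'
          (fun a b ha hb ho => IH G hG W ρ T (cjs g T) a b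
            ((Subgroup.card_le_of_le hT'M).trans hcM) ha hb ho) w (ρ g w)
          (fun h hh => P_fix ρ T u hh) (fun h hh => by rw [hgw]; exact P_fix ρ _ u hh)
        have e1 : P ρ (T ⊔ cjs g T) w = P ρ (T ⊔ cjs g T) u := P_P ρ le_sup_left u
        have e2 : inner ℝ (P ρ (T ⊔ cjs g T) u) (ρ g w) = ‖P ρ (T ⊔ cjs g T) u‖ ^ 2 := by
          rw [hgw, normsq_P]
          exact inner_P_fix ρ _ u _ (fun h hh => P_fix ρ _ u (Subgroup.mem_sup_right hh))
        rw [e1, e2, hnorm] at hadd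
        have h3 : η' * ‖w‖ * ‖w‖ ≤ η' * U := by
          rw [mul_assoc, ← sq]; exact mul_le_mul_of_nonneg_left hwU hη'
        nlinarith
    have hsum : ∑ g ∈ els X, inner ℝ w (ρ g w) ≤
        (Nat.card N : ℝ) * U + (els X).card * ((η' + bs ε k) * U) := by
      refine (Finset.sum_le_sum hterm).trans ?_
      rw [Finset.sum_add_distrib, Finset.sum_const, nsmul_eq_mul, ← Finset.sum_filter,
        Finset.sum_const, nsmul_eq_mul]
      have : (els X).filter (fun g => g ∈ N) = els N := by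
        ext g
        simp only [Finset.mem_filter, mem_els]
        exact ⟨fun h => h.2, fun h => ⟨hNX h, h⟩⟩
      rw [this, card_els]
    have hX0 := card_pos X
    have hp0 : (0 : ℝ) < p := by exact_mod_cast hp.pos
    have hcN' : (Nat.card N : ℝ) ≤ (p : ℝ)⁻¹ * (els X).card := by
      rw [card_els, le_inv_mul_iff₀ hp0]
      exact_mod_cast hcN
    have hPX : ‖P ρ X w‖ ^ 2 ≤ (ε + bs ε k) * U := by
      rw [normsq_P, real_inner_comm, inner_P, inv_mul_le_iff₀ hX0]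
      have h1 : (Nat.card N : ℝ) * U ≤ (p : ℝ)⁻¹ * (els X).card * U := by gcongr
      have h2 : ((els X).card : ℝ) * (((p : ℝ)⁻¹ + η') * U) ≤ (els X).card * (ε * U) := by
        gcongr
      nlinarith
    have hw2 : ‖w‖ ^ 2 ≤ ‖u‖ * ‖P ρ X w‖ := by
      rw [hw, normsq_P, real_inner_comm, ← hw, ← inner_P_fix ρ X w u hu]
      exact real_inner_le_norm _ _
    have hεb : 0 ≤ ε + bs ε k := by
      have : 0 ≤ (p : ℝ)⁻¹ := by positivity
      linarith
    have hP : ‖P ρ X w‖ ≤ bs ε (k + 1) * ‖u‖ := by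
      have : (bs ε (k + 1) * ‖u‖) ^ 2 = (ε + bs ε k) * U := by
        rw [mul_pow]
        show Real.sqrt (ε + bs ε k) ^ 2 * ‖u‖ ^ 2 = _
        rw [Real.sq_sqrt hεb]
      exact (pow_le_pow_iff_left₀ (norm_nonneg _)
        (mul_nonneg (bs_nonneg _ _) (norm_nonneg _)) two_ne_zero).1 (this ▸ hPX)
    calc ‖w‖ ^ 2 ≤ ‖u‖ * ‖P ρ X w‖ := hw2
      _ ≤ ‖u‖ * (bs ε (k + 1) * ‖u‖) := by gcongr
      _ = bs ε (k + 1) * U := by rw [hU]; ring

end Step

theorem main : ∀ (n : ℕ) (η : ℝ), 0 < η → ∃ p₀ : ℕ, ∀ p : ℕ, p.Prime → p₀ ≤ p → A n p η := by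
  intro n
  induction n with
  | zero =>
    intro η hη
    refine ⟨0, fun p _ _ G _ _ _ W _ _ ρ X Y u v hc _ hv ho => ?_⟩
    have hb : X ⊔ Y = ⊥ := Subgroup.eq_bot_of_card_le _ (by simpa using hc)
    rw [ho v (fun g hg => by
      rw [hb, Subgroup.mem_bot] at hg
      rw [hg, map_one]; rfl)]
    positivity
  | succ n ih =>
    intro η hη
    obtain ⟨ε, hε, hbs⟩ := bs_small n (η ^ 2) (by positivity)
    obtain ⟨p₁, hp₁⟩ := ih (ε / 2) (by positivity)
    refine ⟨max p₁ ⌈2 / ε⌉₊, fun p hp hp₀ G _ _ hG W _ _ ρ X Y u v hc hu hv ho => ?_⟩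
    haveI := Fintype.ofFinite G
    by_cases hY : Y = X ⊔ Y
    · rw [ho v (fun g hg => hv g (hY ▸ hg))]
      positivity
    obtain ⟨M, hYM, hMG, hMne, hMn⟩ := exists_M hp hG (le_sup_right : Y ≤ X ⊔ Y) hY
    have hcM : Nat.card M ≤ p ^ n := by
      have := (card_lt_step hp hG hMG hMne).trans hc
      rw [pow_succ'] at this
      exact Nat.le_of_mul_le_mul_left this hp.pos
    have hp0 : (0 : ℝ) < p := by exact_mod_cast hp.pos
    have hpε : (p : ℝ)⁻¹ + ε / 2 ≤ ε := by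
      have h1 : (2 / ε : ℝ) ≤ p :=
        (Nat.le_ceil _).trans (by exact_mod_cast (le_max_right _ _).trans hp₀)
      rw [div_le_iff₀ hε] at h1
      have h2 : (p : ℝ)⁻¹ ≤ ε / 2 := by
        rw [inv_le_iff_one_le_mul₀ hp0]
        linarith
      linarith
    have h := chain ρ hp hG (by positivity) hpε (hp₁ p hp ((le_max_left _ _).trans hp₀)) hu ho
      (fun g hg => hMn g (Subgroup.mem_sup_left hg)) hcM n Y le_rfl hYM
      (hcM.trans (Nat.le_mul_of_pos_right _ Nat.card_pos))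
    have h2 : ‖P ρ Y u‖ ≤ η * ‖u‖ := by
      have h3 : ‖P ρ Y u‖ ^ 2 ≤ (η * ‖u‖) ^ 2 := by
        rw [mul_pow]
        exact h.trans (mul_le_mul_of_nonneg_right (hbs ε le_rfl) (sq_nonneg _))
      exact (pow_le_pow_iff_left₀ (norm_nonneg _) (by positivity) two_ne_zero).1 h3
    rw [real_inner_comm, ← inner_P_fix ρ Y u v hv, real_inner_comm]
    exact (real_inner_le_norm _ _).trans (by gcongr)

end Angle

theorem angle : AngleStmt := by
  intro n η hη
  obtain ⟨p₀, h⟩ := Angle.main n η hη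
  refine ⟨p₀, fun p hp hp₀ G _ _ hG hc W _ _ ρ X Y u v hu hv ho => ?_⟩
  exact h p hp hp₀ G hG W ρ X Y u v ((Subgroup.card_le_card_group _).trans hc) hu hv ho

end Pool.Agent.MP_735563_an.H2
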