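import Pool.Agent.MP_735563_an.H2.Spec3

set_option autoImplicit false

/-! The universal cover of the finite graph of views. -/

namespace Pool.Agent.MP_735563_an.H2

namespace Core

variable {p : ℕ} {𝔇 : ℕ → Lev p}

/-- elements that lie in the fold group of every state above some finite subfamily -/
def grp (𝔇 : ℕ → Lev p) (N : ℕ) {ι : Type} (A : ι → Prop) (f : ι → St p) : Subgroup (Gam p) where
  carrier := {h | ∃ S : Finset ι, (∀ t ∈ S, A t) ∧ ∀ o, (∀ t ∈ S, Le (f t) o) → h ∈ K 𝔇 N o}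
  one_mem' := ⟨∅, by simp, fun _ _ => one_mem _⟩
  mul_mem' := by
    classical
    rintro a b ⟨S, h1, h2⟩ ⟨S', h3, h4⟩
    refine ⟨S ∪ S', fun t ht => (Finset.mem_union.1 ht).elim (h1 t) (h3 t), fun o ho => ?_⟩
    exact mul_mem (h2 o fun t ht => ho t (Finset.mem_union_left _ ht))
      (h4 o fun t ht => ho t (Finset.mem_union_right _ ht))
  inv_mem' := by
    rintro a ⟨S, h1, h2⟩
    exact ⟨S, h1, fun o ho => inv_mem (h2 o ho)⟩

/-- the amalgam of a family of finitely compatible states -/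
theorem amalg {N : ℕ} {ι : Type} (A : ι → Prop) (f : ι → St p)
    (hf : ∀ t, A t → Good 𝔇 N (f t))
    (hc : ∀ S : Finset ι, (∀ t ∈ S, A t) → ∃ o, Val 𝔇 N o ∧ ∀ t ∈ S, Le (f t) o) :
    ∃ s, Val 𝔇 N s ∧ Lv N s ∧ (∀ t, A t → Le (f t) s) ∧
      (∀ q κ, s q κ ≠ 0 → ∃ k ∈ K 𝔇 N s, ∃ t, A t ∧ f t (k * q) κ ≠ 0) ∧
      ∀ o, ValZ 𝔇 N o → (∀ t, A t → Le (f t) o) → Le s o := by
  classical
  obtain ⟨G, hG⟩ : ∃ G, G = grp 𝔇 N A f := ⟨_, rfl⟩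
  have mG : ∀ h, h ∈ G ↔ ∃ S : Finset ι, (∀ t ∈ S, A t) ∧
      ∀ o, (∀ t ∈ S, Le (f t) o) → h ∈ K 𝔇 N o := fun h => hG ▸ Iff.rfl
  have kG : ∀ t, A t → K 𝔇 N (f t) ≤ G := fun t ht h hh =>
    (mG h).2 ⟨{t}, by simpa using ht, fun o ho => K_mono le_rfl (ho t (by simp)) hh⟩
  have Gk : ∀ o, (∀ t, A t → Le (f t) o) → G ≤ K 𝔇 N o := fun o ho h hh => by
    obtain ⟨S, h1, h2⟩ := (mG h).1 hh
    exact h2 o fun t ht => ho t (h1 t ht)
  let R : Gam p → Kind → ℕ → Prop := fun q κ v => v ≠ 0 ∧ ∃ h ∈ G, ∃ t, A t ∧ f t (h * q) κ = v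
  have uniq : ∀ q κ v v', R q κ v → R q κ v' → v = v' := by
    rintro q κ v v' ⟨h0, h, hh, t, ht, rfl⟩ ⟨h0', h', hh', t', ht', rfl⟩
    obtain ⟨S, h1, h2⟩ := (mG h).1 hh
    obtain ⟨S', h3, h4⟩ := (mG h').1 hh'
    obtain ⟨o, ho, hl⟩ := hc (insert t (insert t' (S ∪ S'))) (by
      intro u hu
      simp only [Finset.mem_insert, Finset.mem_union] at hu
      rcases hu with rfl | rfl | hu | hu
      exacts [ht, ht', h1 u hu, h3 u hu])
    have e1 := h2 o fun u hu => hl u (by simp [hu])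
    have e2 := h4 o fun u hu => hl u (by simp [hu])
    rw [← hl t (by simp) _ _ h0, ← hl t' (by simp) _ _ h0', apply_of_stab (ho.1.stab e1),
      apply_of_stab (ho.1.stab e2)]
  obtain ⟨s, sa, sb⟩ : ∃ s : St p, (∀ q κ, s q κ ≠ 0 → R q κ (s q κ)) ∧
      ∀ q κ v, R q κ v → s q κ = v := by
    refine ⟨fun q κ => if h : ∃ v, R q κ v then h.choose else 0, fun q κ h0 => ?_,
      fun q κ v hv => ?_⟩
    · by_cases h : ∃ v, R q κ v
      · simpa only [dif_pos h] using h.choose_spec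
      · exact absurd (dif_neg h) h0
    · have h : ∃ v, R q κ v := ⟨v, hv⟩
      exact (dif_pos h).trans (uniq q κ _ _ h.choose_spec hv)
  have mv : ∀ k ∈ G, ∀ q κ, s q κ ≠ 0 → s (k * q) κ = s q κ := fun k hk q κ h0 => by
    obtain ⟨-, h, hh, t, ht, e⟩ := sa q κ h0
    exact sb _ _ _ ⟨h0, h * k⁻¹, mul_mem hh (inv_mem hk), t, ht, by simpa [mul_assoc] using e⟩
  have stab : ∀ k ∈ G, tr k s = s := fun k hk => Le.antisymm
    (fun x κ h0 => by simpa [tr] using mv k hk _ κ h0) fun x κ h0 => mv _ (inv_mem hk) x κ h0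
  have m : ∀ t, A t → Le (f t) s := fun t ht x κ h0 =>
    sb _ _ _ ⟨h0, 1, one_mem _, t, ht, by rw [one_mul]⟩
  have hK : K 𝔇 N s ≤ G := by
    refine (Subgroup.closure_le _).2 ?_
    rintro u ⟨i, c, x, h1, h2, h0, hu⟩
    obtain ⟨-, h, hh, t, ht, e⟩ := sa _ _ h0
    have : h * x * (x⁻¹ * u * x) * (h * x)⁻¹ ∈ G := kG t ht (mem_K h1 h2 (e ▸ h0) (e ▸ hu))
    simpa [mul_assoc] using mul_mem (mul_mem (inv_mem hh) this) hh
  refine ⟨s, ⟨fun i h1 h2 x c h0 => ?_, fun i h1 h2 x => ?_⟩, fun x κ h0 => ?_, m,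
    fun q κ h0 => ?_, fun o ho hl q κ h0 => ?_⟩
  · obtain ⟨-, h, hh, t, ht, e⟩ := sa _ _ h0
    obtain ⟨h3, h4, -⟩ := (hf t ht).1.1 i h1 h2 (h * x) c (e ▸ h0)
    rw [e] at h3 h4
    refine ⟨h3, ?_, fun l hl => stab _ (hK (mem_K h1 h2 h0 hl))⟩
    have h5 := h4.trans (m t ht)
    rwa [tr_mul, le_tr_iff, stab_inv (stab h hh)] at h5
  · by_cases h0 : s x (i, none) = 0
    · exact h0 ▸ Nat.zero_le _
    obtain ⟨-, h, hh, t, ht, e⟩ := sa _ _ h0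
    exact e ▸ (hf t ht).1.2 i h1 h2 _
  · obtain ⟨-, h, hh, t, ht, e⟩ := sa _ _ h0
    exact (hf t ht).2.1 _ κ (e ▸ h0)
  · obtain ⟨-, h, hh, t, ht, e⟩ := sa _ _ h0
    exact ⟨h, Gk s m hh, t, ht, e ▸ h0⟩
  · obtain ⟨-, h, hh, t, ht, e⟩ := sa _ _ h0
    rw [← apply_of_stab (ho.stab (Gk o hl hh)) q, hl t ht _ κ (e ▸ h0), e]

/-- a valid state covered by translates of towers is a tower -/
theorem tow_of {N : ℕ} {s : St p} (hT : Th 𝔇 N) (hs : ValZ 𝔇 N s)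
    (A : ∀ q κ, s q κ ≠ 0 → ∃ h ∈ K 𝔇 N s, ∃ t, ValZ 𝔇 N t ∧ Le t s ∧ Tow 𝔇 N t ∧
      t (h * q) κ ≠ 0) : Tow 𝔇 N s := by
  intro i h1 h2
  have hinv : ∀ k ∈ K 𝔇 N s, ∀ y ∈ Dm i s ∪ Cen i s, k * y ∈ Dm i s ∪ Cen i s :=
    fun k hk y hy => hy.imp (Dm_stab (hs.stab hk)).2 (Cen_stab (hs.stab hk)).2
  refine ⟨subset_antisymm (fun q hq => ?_) ?_, fun x hx c hc => ?_, fun x c hx => ?_⟩
  · obtain ⟨h, hh, t, -, lt, tt, h3⟩ := A q _ hq
    have h4 : h * q ∈ Dm (i - 1) t := h3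
    rw [(tt i h1 h2).1] at h4
    have h5 := Nb_inv hinv _ _ (inv_mem hh) _
      (Nb_mono le_rfl (Set.union_subset_union (Dm_mono lt) (Cen_mono lt)) h4)
    rwa [inv_mul_cancel_left] at h5
  · rintro _ ⟨y, hy, u, hu, rfl⟩
    obtain ⟨h, hh, t, lt, tt, h3⟩ : ∃ h ∈ K 𝔇 N s, ∃ t, Le t s ∧ Tow 𝔇 N t ∧
        h * y ∈ Dm i t ∪ Cen i t := by
      rcases hy with hy | ⟨c, hy⟩
      · obtain ⟨h, hh, t, -, lt, tt, h3⟩ := A y _ hy
        exact ⟨h, hh, t, lt, tt, Or.inl h3⟩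
      · obtain ⟨h, hh, t, -, lt, tt, h3⟩ := A y _ hy
        exact ⟨h, hh, t, lt, tt, Or.inr ⟨c, h3⟩⟩
    have h4 := mul_mem_Nb h3 hu
    rw [← (tt i h1 h2).1, mul_assoc] at h4
    exact (Dm_stab (hs.stab hh)).1 (Dm_mono lt h4)
  · obtain ⟨h, hh, t, gt, lt, tt, h3⟩ := A x _ hx
    have h4 := ((hT.2.1 i h2).2.1 t s (gt.mono h2) (hs.mono h2) lt _ ((tt.mono h2).comp h3)).1
    exact ((Comp_stab (hs.stab hh)).1 h4).lab h1 hc
  · obtain ⟨h, hh, t, -, lt, tt, h3⟩ := A x _ hx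
    obtain ⟨e, he, h4⟩ := (tt i h1 h2).2.2 _ c h3
    rw [← lt _ _ h3, apply_of_stab (hs.stab hh)] at he
    rw [mul_assoc] at h4
    exact ⟨e, he, (Dm_stab (hs.stab hh)).1 (Dm_mono lt h4)⟩

end Core

open _root_.Pool.Agent.MP_735563_an.H2.Core in
theorem coreS (h1 : PWStmt) (h2 : WalkStmt) (h3 : Tree2Stmt) (h4 : TowStmt) (h5 : VUStmt) :
    CoreStmt := by
  intro p _ 𝔇 i hC Z vw H nx wd hG hg
  have hi : 1 ≤ i := le_trans (by omega) hC.two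
  have geo : GEOp 𝔇 (i - 1) := hC.th.2.1 _ le_rfl
  obtain ⟨w0, w1, w2, w3, w4, w5, w6⟩ := h2 p 𝔇 i hC Z vw H nx wd hG
  have gv : ∀ z, Good 𝔇 (i - 1) (vw z) := fun z => (hG.view z).1
  choose τ val lv le0 supp0 min0 using fun z =>
    amalg (𝔇 := 𝔇) (N := i - 1) (nbw H nx wd z) (piece vw nx wd z) (fun t _ => (gv _).tr _)
      (h1 p 𝔇 i hC Z vw H nx wd hG z)
  have le : ∀ z g z', Pos H nx wd z g z' → Le (tr g (vw z')) (τ z) := by
    rintro z g z' ⟨t, ht, e⟩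
    have := le0 z t ht
    rwa [piece, e] at this
  have le1 : ∀ z, Le (vw z) (τ z) := fun z => by simpa [tr_one] using le z 1 z (w0 z)
  have supp : ∀ z q κ, τ z q κ ≠ 0 → ∃ k ∈ K 𝔇 (i - 1) (τ z), ∃ g z', Pos H nx wd z g z' ∧
      tr g (vw z') (k * q) κ ≠ 0 := fun z q κ h0 => by
    obtain ⟨k, hk, t, ht, e⟩ := supp0 z q κ h0
    exact ⟨k, hk, _, _, ⟨t, ht, rfl⟩, e⟩
  have hom0 : ∀ z g z', Pos H nx wd z g z' → Le (τ z) (tr g (τ z')) := fun z g z' hP => by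
    refine min0 z _ ((val z').1.tr g) fun t ht => ?_
    have h6 := w2 _ _ _ _ _ (w3 _ _ _ hP) (⟨t, ht, rfl⟩ : Pos H nx wd z (wk nx wd z t).2 _)
    have h7 := (le _ _ _ h6).tr g
    rwa [← tr_mul, mul_inv_cancel_left] at h7
  have hom : ∀ z g z', Pos H nx wd z g z' → tr g (τ z') = τ z := fun z g z' hP =>
    Le.antisymm (le_tr_iff.2 (hom0 _ _ _ (w3 _ _ _ hP))) (hom0 _ _ _ hP)
  have suf : ∀ z t, nbw H nx wd z t → ∀ t', t' <:+ t → t' ≠ t → Le (piece vw nx wd z t') (τ z) :=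
    fun z t ht t' h _ => le0 z t' (w4 z t ht t' h)
  have rc : ∀ z, ∀ y ∈ Tn 𝔇 i (vw z) 0 1 (𝔇 i).n, RC 𝔇 i (vw z) y := fun z =>
    (h5 p 𝔇 i hi hC.th hC.rule hC.const 0 _ (hG.view z)).2.1
  have cl : ∀ z g z' b, Pos H nx wd z g z' → Adj 𝔇 i (τ z) 0 g b →
      ∃ g' z'', Pos H nx wd z g' z'' ∧ b * g'⁻¹ ∈ K 𝔇 (i - 1) (τ z) := by
    intro z g z' b hP hA
    have h6 : Adj 𝔇 i (τ z') 0 1 (g⁻¹ * b) := by
      rw [← Adj_tr (g := g), hom _ _ _ hP, mul_one, mul_inv_cancel_left]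
      exact hA
    obtain ⟨-, w, hw, h7⟩ := h6
    rw [← (rc z' 1 (mem_Tn_self _ _)).nb_eq hi hC.rule geo (gv z').1.1 (val z').1 (le1 z')] at hw
    obtain ⟨a, ha, h8⟩ := hG.all z' w ⟨(hG.view z').2.2.1, w, hw, by simp⟩
    refine ⟨_, _, w1 z g z' hP a ha, ?_⟩
    rw [← hom _ _ _ hP, K_tr, mem_cjs]
    simpa [mul_assoc] using mul_mem h7 (K_mono le_rfl (le1 z') h8)
  obtain ⟨S, hS⟩ : ∃ S : Z → Set (Gam p),
      ∀ z, S z = Sat (K 𝔇 (i - 1) (τ z)) {g | ∃ z', Pos H nx wd z g z'} := ⟨_, fun _ => rfl⟩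
  have sk : ∀ z, ∀ k ∈ K 𝔇 (i - 1) (τ z), ∀ y ∈ S z, k * y ∈ S z := fun z k hk y hy => by
    rw [hS] at hy ⊢
    exact mul_mem_Sat hk hy
  have tnS : ∀ z t, Tn 𝔇 i (τ z) 0 1 t ⊆ S z := by
    intro z t
    induction t with
    | zero => rintro _ rfl; rw [hS]; exact subset_Sat _ _ ⟨z, w0 z⟩
    | succ t ih =>
      rintro y (hy | ⟨a, ha, h6, w, hw, rfl⟩)
      · exact ih hy
      · have h7 := ih ha
        rw [hS] at h7 ⊢
        obtain ⟨k, hk, g, ⟨z', hP⟩, rfl⟩ := h7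
        have h8 : Adj 𝔇 i (τ z) 0 (k * g) (k * g * w) := ⟨h6, w, hw, by simp⟩
        obtain ⟨g', z'', h9, h10⟩ := cl z g z' (k * g * w) hP
          (h8.congr (val z).1 (by simpa using inv_mem hk) (by simp))
        exact ⟨_, h10, g', ⟨z'', h9⟩, (inv_mul_cancel_right _ _).symm⟩
  have dv : ∀ z, Dm (i - 1) (vw z) ⊆ Nb (𝔇 i).θ (S z) := fun z => by
    rw [(hG.view z).2.2.2]
    refine Nb_mono le_rfl (Sat_subset ?_ fun k hk => sk z k ?_)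
    · rw [← Tn_stable hi hC.rule geo (gv z).1.1 (val z).1 (le1 z) (rc z) _ (Nat.le_succ _)]
      exact tnS z _
    · rw [Kall_eq (gv z).2.1] at hk
      exact K_mono le_rfl (le1 z) hk
  have lift : ∀ z g z', Pos H nx wd z g z' → ∀ k ∈ K 𝔇 (i - 1) (τ z), ∀ r x,
      g⁻¹ * (k * x) ∈ Nb r (S z') → x ∈ Nb r (S z) := by
    rintro z g z' hP k hk r x ⟨y, hy, u, hu, e⟩
    rw [hS] at hy
    obtain ⟨h, hh, g', ⟨z'', hP'⟩, rfl⟩ := hy
    have h6 : g * h * g⁻¹ ∈ K 𝔇 (i - 1) (τ z) := by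
      rw [← hom _ _ _ hP, K_tr, mem_cjs]
      simpa [mul_assoc] using hh
    refine ⟨k⁻¹ * (g * h * g⁻¹) * (g * g'), ?_, u, hu, ?_⟩
    · rw [hS]
      exact ⟨_, mul_mem (inv_mem hk) h6, _, ⟨z'', w2 _ _ _ _ _ hP hP'⟩, rfl⟩
    · have : x = k⁻¹ * (g * (g⁻¹ * (k * x))) := by simp
      rw [this, e]
      simp [mul_assoc]
  refine ⟨τ, hG.view, le1, val, lv, fun z => tow_of hC.th (val z).1 fun q κ h0 => ?_, w0, w2, w3,
    hom, supp, ?_, cl, ?_, ?_, fun z => ?_, fun z x hx => ?_⟩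
  · obtain ⟨k, hk, g, z', hP, e⟩ := supp z q κ h0
    exact ⟨k, hk, _, (gv z').1.1.tr g, le _ _ _ hP, (hG.view z').2.1.tr g, e⟩
  · rintro z g z' g' z'' ⟨t, ht, e⟩ ⟨t', ht', e'⟩ hk
    have := (w6 z (τ z) (val z).1).2.2 t t' ht ht' (suf z t ht) (suf z t' ht') (by rwa [e, e'])
    subst this
    exact (Prod.ext_iff.1 (e.symm.trans e')).1
  · rintro z g z' ⟨t, ht, e⟩
    obtain rfl : (wk nx wd z t).2 = g := by rw [e]
    clear e
    induction t with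
    | nil => exact ⟨fun _ => 1, 0, rfl, rfl, fun _ h => by omega, fun _ _ => ⟨z, w0 z⟩⟩
    | cons a t ih =>
      have h6 := w4 z _ ht t (List.suffix_cons a t)
      obtain ⟨ξ, n, e0, en, hp, hq⟩ := ih h6
      have h7 := (w6 z (τ z) (val z).1).1 t a (w5 z a t ht) (le0 z t h6)
      refine ⟨fun b => if b ≤ n then ξ b else (wk nx wd z (a :: t)).2, n + 1, by simpa using e0,
        by simp, fun b hb => ?_, fun b _ => ?_⟩
      · by_cases h8 : b < n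
        · simpa [h8.le, Nat.succ_le_of_lt h8] using hp b h8
        · obtain rfl : b = n := by omega
          simpa only [le_refl, if_true, Nat.not_succ_le_self, if_false, en] using h7
      · by_cases h8 : b ≤ n
        · simpa only [h8, if_true] using hq b h8
        · simp only [h8, if_false]
          exact ⟨_, _, ht, rfl⟩
  · rintro z g ⟨t, ht, e⟩ hk
    have h6 : t ≠ [] := by
      rintro rfl
      obtain rfl : 1 = g := (Prod.ext_iff.1 e).2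
      exact hk (one_mem _)
    have h7 := hg z t ht h6 (by rw [e])
    obtain ⟨h8, h9⟩ := (w6 z (τ z) (val z).1).2.1 t ht (suf z t ht)
    have h10 := ((h3 p 𝔇 i hC.rule hC.rx geo.1 (τ z) (val z).1 0).qi _ _ h8).1
    rw [h9, e] at h10
    simp only at h10
    omega
  · rw [← hS]
    refine subset_antisymm (fun x hx => ?_) ?_
    · obtain ⟨k, hk, g, z', hP, e⟩ := supp z x _ hx
      exact lift z g z' hP k hk _ x (dv z' e)
    · rintro _ ⟨y, hy, u, hu, rfl⟩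
      rw [hS] at hy
      obtain ⟨k, hk, g, ⟨z', hP⟩, rfl⟩ := hy
      rw [mul_assoc, Dm_stab ((val z).1.stab hk)]
      refine Dm_mono (le _ _ _ hP) ?_
      rw [Dm_tr, mul_mem_lm, (hG.view z').2.2.2]
      simpa using mul_mem_Nb (subset_Sat _ _ (mem_Tn_self 1 _)) hu
  · rw [← hS]
    obtain ⟨k, hk, g, z', hP, e⟩ := supp z x _ hx
    refine lift z g z' hP k hk _ x ?_
    rw [← Nb_Nb]
    exact Nb_mono le_rfl (dv z')
      ((h4 p 𝔇 _ _ hC.th le_rfl _ (gv z') (hG.view z').2.1).1 e)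

end Pool.Agent.MP_735563_an.H2
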