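import Pool.Agent.MP_735563_an.H2.Spec3

set_option autoImplicit false

/-! Row Edge: edge states and the family of views. -/

namespace Pool.Agent.MP_735563_an.H2

namespace Edge

variable {p : ℕ} {𝔇 : ℕ → Lev p} {i : ℕ}

theorem n_ge (hC : ConstA 𝔇 i) : 2 ≤ (𝔇 i).n := by
  have h1 := hC.θ
  have h2 := hC.n
  omega

theorem const1 {a b c l r θ : ℕ} (h : 10 ^ 6 * (a + b + c + l + r + 1) ≤ θ) :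
    b + 4 * a + (b + 4 * a) + 0 + 12 * a + 200 * (a + 1) ≤ θ := by
  have h1 : b + 4 * a + (b + 4 * a) + 0 + 12 * a + 200 * (a + 1) ≤
      2000 * (a + b + c + l + r + 1) := by
    clear h
    linarith [Nat.zero_le a, Nat.zero_le b, Nat.zero_le c, Nat.zero_le l, Nat.zero_le r]
  exact h1.trans ((Nat.mul_le_mul_right _ (by norm_num)).trans h)

theorem bar (hX : RX 𝔇 i) {e : St p} {w : Gam p} (h : IsE 𝔇 i e w) :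
    IsE 𝔇 i (tr w⁻¹ e) w⁻¹ := by
  obtain ⟨hg, ht, ha, hd⟩ := h
  have e1 : Tn 𝔇 i (tr w⁻¹ e) 0 1 ((𝔇 i).n - 1) = lm w⁻¹ (Tn 𝔇 i e 0 w ((𝔇 i).n - 1)) := by
    rw [← Tn_tr, inv_mul_cancel]
  have e2 : Tn 𝔇 i (tr w⁻¹ e) 0 w⁻¹ ((𝔇 i).n - 1) = lm w⁻¹ (Tn 𝔇 i e 0 1 ((𝔇 i).n - 1)) := by
    rw [← Tn_tr, mul_one]
  refine ⟨hg.tr _, ht.tr _, ?_, ?_⟩
  · have h1 := (Adj_tr (g := w⁻¹)).2 (hX.sym e hg.1.1 0 1 w ha)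
    rwa [inv_mul_cancel, mul_one] at h1
  · rw [Dm_tr, hd, e1, e2, ← lm_union, Kall_tr, Sat_lm, Nb_lm, Set.union_comm]

theorem sat_lm {H : Subgroup (Gam p)} {k : Gam p} (hk : k ∈ H) (S : Set (Gam p)) :
    Sat H (lm k S) = Sat H S := by
  apply Set.Subset.antisymm
  · rintro _ ⟨h, hh, y, hy, rfl⟩
    exact ⟨h * k, mul_mem hh hk, k⁻¹ * y, hy, by group⟩
  · rintro _ ⟨h, hh, y, hy, rfl⟩
    exact ⟨h * k⁻¹, mul_mem hh (inv_mem hk), k * y, mul_mem_lm.2 hy, by group⟩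

theorem mulK {e : St p} {w k : Gam p} (h : IsE 𝔇 i e w) (hk : k ∈ K 𝔇 (i - 1) e) :
    IsE 𝔇 i e (k * w) := by
  obtain ⟨hg, ht, ha, hd⟩ := h
  refine ⟨hg, ht, ha.congr hg.1.1 (by simp [one_mem]) (by simpa using hk), ?_⟩
  rw [hd, Tn_stab (hg.1.1.stab hk), Sat_union, Sat_union, sat_lm (K_le_Kall _ _ hk)]

theorem rc (hC : ConstA 𝔇 i) {e : St p} {w : Gam p} (h : IsE 𝔇 i e w) :
    ∀ y ∈ Tn 𝔇 i e 0 1 ((𝔇 i).n - 1) ∪ Tn 𝔇 i e 0 w ((𝔇 i).n - 1), RC 𝔇 i e y := fun _ hy =>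
  rc_of_seed hC h.2.1 h.2.2.2.symm.subset (subset_Sat _ _ hy)

theorem adj_mem {s : St p} (hs : ValZ 𝔇 (i - 1) s) {w : Gam p} (ha : Adj 𝔇 i s 0 1 w) :
    w ∈ Sat (K 𝔇 (i - 1) s) (Tn 𝔇 i s 0 1 1) :=
  Adj.sat_Tn hs (t := 0) (subset_Sat _ _ (mem_Tn_self 1 0)) ha

theorem qc (hc : Ctx 𝔇 i) {e : St p} {w : Gam p} (h : IsE 𝔇 i e w) :
    QC (dj 𝔇 (i - 1) e)
      (Sat (Kall 𝔇 e) (Tn 𝔇 i e 0 1 ((𝔇 i).n - 1) ∪ Tn 𝔇 i e 0 w ((𝔇 i).n - 1)))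
      ((𝔇 i).κ + 4 * (𝔇 (i - 1)).δ + ((𝔇 i).κ + 4 * (𝔇 (i - 1)).δ) + 0 +
        12 * (𝔇 (i - 1)).δ) := by
  have hrc := rc hc.const h
  obtain ⟨hg, -, ha, -⟩ := h
  have hG := hc.th.2.1 _ le_rfl
  have hn := n_ge hc.const
  have h1 := Tn_qc hc.rule hG.1 hg.1.1 (fun y hy => hrc y (Or.inl hy))
  have h2 := Tn_qc hc.rule hG.1 hg.1.1 (fun y hy => hrc y (Or.inr hy))
  rw [Kall_eq hg.2.1, Sat_union,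
    ← Set.sUnion_singleton (Sat (K 𝔇 (i - 1) e) (Tn 𝔇 i e 0 w ((𝔇 i).n - 1)))]
  refine (hG.1 e hg.1.1).star h1 ?_
  rintro _ rfl
  refine ⟨h2, w, subset_Sat _ _ (mem_Tn_self w _), w,
    Sat_mono le_rfl (Tn_mono 1 (by omega)) (adj_mem hg.1.1 ha), ?_⟩
  rw [(hG.1 e hg.1.1).refl]

theorem shape (hc : Ctx 𝔇 i) {e : St p} {w : Gam p} (h : IsE 𝔇 i e w) :
    Shape 𝔇 (i - 1) e (Tn 𝔇 i e 0 1 ((𝔇 i).n - 1) ∪ Tn 𝔇 i e 0 w ((𝔇 i).n - 1)) (𝔇 i).θ := by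
  have hq := qc hc h
  obtain ⟨-, ht, -, hd⟩ := h
  have hθ := const1 hc.const.θ
  refine ⟨⟨1, Or.inl (mem_Tn_self 1 _)⟩, hd ▸ subset_rfl, ?_,
    Or.inr ⟨_, hθ, hq, fun y hy => ht.comp ?_⟩⟩
  · rw [hd]
    exact Nb_mono (Nat.le_succ _) subset_rfl
  · rw [hd]
    exact Nb_mono hθ subset_rfl hy

theorem stable (hc : Ctx 𝔇 i) {e o : St p} {w : Gam p} (h : IsE 𝔇 i e w)
    (ho : ValZ 𝔇 (i - 1) o) (hl : Le e o) :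
    Tn 𝔇 i o 0 1 ((𝔇 i).n - 1) = Tn 𝔇 i e 0 1 ((𝔇 i).n - 1) ∧
      Tn 𝔇 i o 0 w ((𝔇 i).n - 1) = Tn 𝔇 i e 0 w ((𝔇 i).n - 1) := by
  have hrc := rc hc.const h
  have hG := hc.th.2.1 _ le_rfl
  have hi : 1 ≤ i := le_trans (by norm_num) hc.two
  exact ⟨Tn_stable hi hc.rule hG h.1.1.1 ho hl (fun y hy => hrc y (Or.inl hy)) _ (Nat.le_succ _),
    Tn_stable hi hc.rule hG h.1.1.1 ho hl (fun y hy => hrc y (Or.inr hy)) _ (Nat.le_succ _)⟩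

theorem uniq (h2 : UniqStmt) (hc : Ctx 𝔇 i) {e e' o : St p} {w : Gam p} (h : IsE 𝔇 i e w)
    (h' : IsE 𝔇 i e' w) (ho : ValZ 𝔇 (i - 1) o) (hl : Le e o) (hl' : Le e' o) : e = e' := by
  obtain ⟨a1, a2⟩ := stable hc h ho hl
  obtain ⟨b1, b2⟩ := stable hc h' ho hl'
  refine h2 p 𝔇 (i - 1) hc.th e e' o _ _ _ _
    (Nb (𝔇 i).θ (Tn 𝔇 i o 0 1 ((𝔇 i).n - 1) ∪ Tn 𝔇 i o 0 w ((𝔇 i).n - 1))) h.1 h'.1 h.2.1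
    h'.2.1 (shape hc h) (shape hc h') ho hl hl'
    ⟨1, subset_Nb _ _ (Or.inl (mem_Tn_self 1 _))⟩ ?_ ?_
  · rw [Sat_Nb, a1, a2, h.2.2.2]
  · rw [Sat_Nb, b1, b2, h'.2.2.2]

theorem qc_one {s : St p} (hs : Good 𝔇 (i - 1) s) (κ : ℕ) :
    QC (dj 𝔇 (i - 1) s) (Sat (Kall 𝔇 s) {1}) κ := by
  rw [Kall_eq hs.2.1]
  rintro _ ⟨k, hk, _, rfl, rfl⟩ _ ⟨k', hk', _, rfl, rfl⟩ m hm
  refine ⟨k' * 1, ⟨k', hk', 1, rfl, rfl⟩, ?_⟩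
  have h0 : dj 𝔇 (i - 1) s (k * 1) (k' * 1) = 0 :=
    dj_eq_zero.2 (by simpa using mul_mem hk' (inv_mem hk))
  unfold Btw at hm
  omega

/-- exploration of the tree ball of radius `t` from the empty state -/
theorem reach0 (hc : Ctx 𝔇 i) (hB : BALLp 𝔇 (i - 1)) (hV : VGp 𝔇 i) (t : ℕ) :
    Reach 𝔇 (i - 1) (fun _ _ => 0) (fun s => Tow 𝔇 (i - 1) s ∧
      Dm (i - 1) s = Nb (𝔇 i).θ (Sat (Kall 𝔇 s) (Tn 𝔇 i s 0 1 t)))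
      (fun o => ∀ y ∈ Nb (𝔇 i).θ (Tn 𝔇 i o 0 1 t), Comp 𝔇 (i - 1) o y) := by
  refine ((hB hc.th (𝔇 i).θ).mono (fun _ _ _ h => h) (fun o _ _ hO u hu => ?_)).bind ?_
  · have := hO _ (mul_mem_Nb (mem_Tn_self 1 _) hu)
    rwa [one_mul] at this
  · rintro s hs - ⟨⟨-, hT, hD⟩, -⟩
    refine (hV (i - 1) le_rfl hc.th hc.rule hc.const s (Sat (Kall 𝔇 s) {1}) 1 0 t hs hT
      hs.2.1.sup (subset_Sat _ _ rfl) (fun _ hk _ hy => mul_mem_Sat hk hy) (qc_one hs _)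
      hD).mono ?_ (fun _ _ _ h => h)
    rintro s' - hl ⟨hT', -, -, hD', -⟩
    refine ⟨hT', ?_⟩
    rw [hD', Sat_union, Sat_Sat (Kall_mono hl), ← Sat_union,
      Set.union_eq_self_of_subset_left (Set.singleton_subset_iff.2 (mem_Tn_self 1 _))]

theorem view_comp {σ : St p} (h : IsV 𝔇 i 0 σ) {S : Set (Gam p)}
    (hS : S ⊆ Sat (Kall 𝔇 σ) (Tn 𝔇 i σ 0 1 (𝔇 i).n)) :
    ∀ y ∈ Nb (𝔇 i).θ S, Comp 𝔇 (i - 1) σ y := fun _ hy =>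
  h.2.1.comp (by rw [h.2.2.2]; exact Nb_mono le_rfl hS hy)

theorem shift_sub (hC : ConstA 𝔇 i) {s : St p} (hs : ValZ 𝔇 (i - 1) s) {w : Gam p}
    (ha : Adj 𝔇 i s 0 1 w) :
    Tn 𝔇 i s 0 w ((𝔇 i).n - 1) ⊆ Sat (Kall 𝔇 s) (Tn 𝔇 i s 0 1 (𝔇 i).n) := by
  have hn := n_ge hC
  have h1 := Tn_shift hs (adj_mem hs ha) ((𝔇 i).n - 1)
  rw [show 1 + ((𝔇 i).n - 1) = (𝔇 i).n by omega] at h1
  exact h1.trans (Sat_mono (K_le_Kall _ _) subset_rfl)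

theorem exist (hc : Ctx 𝔇 i) (hB : BALLp 𝔇 (i - 1)) (hV : VGp 𝔇 i) {σ : St p}
    (hσ : IsV 𝔇 i 0 σ) {w : Gam p} (hw : w ∈ nbA 𝔇 i σ 0 1) : ∃ e, IsE 𝔇 i e w ∧ Le e σ := by
  have hG := hc.th.2.1 _ le_rfl
  have hi : 1 ≤ i := le_trans (by norm_num) hc.two
  have hn := n_ge hc.const
  obtain ⟨ℱ, f1, -, -, f4⟩ := reach0 hc hB hV ((𝔇 i).n - 1)
  obtain ⟨s, hm, hl⟩ := f4 σ hσ.1.1 (fun _ _ h => absurd rfl h)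
    (view_comp hσ ((Tn_mono 1 (Nat.sub_le _ _)).trans (subset_Sat _ _)))
  obtain ⟨hs, -, ⟨hT, hD⟩, -⟩ := f1 s hm
  have hrc : ∀ y ∈ Tn 𝔇 i s 0 1 ((𝔇 i).n - 1), RC 𝔇 i s y := fun _ hy =>
    rc_of_seed hc.const hT hD.symm.subset (subset_Sat _ _ hy)
  have h1 := hrc 1 (mem_Tn_self 1 _)
  have hcen : cenA 𝔇 i s 0 1 := (h1.cen_iff hi hc.rule hG hs.1.1 hσ.1.1.1 hl 0).2 hσ.2.2.1
  have hw' : w ∈ nbA 𝔇 i s 0 1 := by rwa [h1.nb_eq hi hc.rule hG hs.1.1 hσ.1.1.1 hl 0]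
  have ha : Adj 𝔇 i s 0 1 w := ⟨hcen, w, hw', by simp [one_mem]⟩
  have haσ : Adj 𝔇 i σ 0 1 w := h1.adj hi hc.rule hG hs.1.1 hσ.1.1.1 hl ha
  have hq : QC (dj 𝔇 (i - 1) s) (Sat (Kall 𝔇 s) (Tn 𝔇 i s 0 1 ((𝔇 i).n - 1)))
      (500 * ((𝔇 (i - 1)).δ + (𝔇 i).κ + 1)) := by
    rw [Kall_eq hs.2.1]
    exact (Tn_qc hc.rule hG.1 hs.1.1 hrc).mono (by omega)
  obtain ⟨𝒢, g1, -, -, g4⟩ := hV (i - 1) le_rfl hc.th hc.rule hc.const s _ w 0 ((𝔇 i).n - 1)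
    hs hT hs.2.1.sup
    (Sat_mono (K_le_Kall _ _) (Tn_mono 1 (by omega)) (adj_mem hs.1.1 ha))
    (fun _ hk _ hy => mul_mem_Sat hk hy) hq hD
  obtain ⟨e, hm', hl'⟩ := g4 σ hσ.1.1 hl (view_comp hσ (shift_sub hc.const hσ.1.1.1 haσ))
  obtain ⟨he, hle, ⟨hTe, -, -, hDe, -⟩, -⟩ := g1 e hm'
  refine ⟨e, ⟨he, hTe, h1.adj hi hc.rule hG hs.1.1 he.1.1 hle ha, ?_⟩, hl'⟩
  rw [hDe, Sat_union, Sat_Sat (Kall_mono hle), ← Sat_union,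
    Tn_stable hi hc.rule hG hs.1.1 he.1.1 hle hrc _ (Nat.le_succ _)]

open Classical in
theorem views (h3 : VUStmt) (hc : Ctx 𝔇 i) (hB : BALLp 𝔇 (i - 1)) (hV : VGp 𝔇 i) :
    ∃ 𝒱 : Finset (St p), ∀ σ, σ ∈ 𝒱 ↔ IsV 𝔇 i 0 σ := by
  have hG := hc.th.2.1 _ le_rfl
  have hi : 1 ≤ i := le_trans (by norm_num) hc.two
  obtain ⟨ℱ, f1, -, -, f4⟩ := reach0 hc hB hV (𝔇 i).n
  refine ⟨ℱ.filter (IsV 𝔇 i 0), fun σ => ⟨fun h => (Finset.mem_filter.1 h).2, fun hσ => ?_⟩⟩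
  obtain ⟨s, hm, hl⟩ := f4 σ hσ.1.1 (fun _ _ h => absurd rfl h) (view_comp hσ (subset_Sat _ _))
  obtain ⟨hs, -, ⟨hT, hD⟩, -⟩ := f1 s hm
  have h1 : RC 𝔇 i s 1 :=
    rc_of_seed hc.const hT hD.symm.subset (subset_Sat _ _ (mem_Tn_self 1 _))
  have hv : IsV 𝔇 i 0 s :=
    ⟨hs, hT, (h1.cen_iff hi hc.rule hG hs.1.1 hσ.1.1.1 hl 0).2 hσ.2.2.1, hD⟩
  have he : s = σ :=
    (h3 p 𝔇 i hi hc.th hc.rule hc.const 0 s hv).2.2 σ σ hσ hσ.1.1.1 hl (Le.refl σ)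
  exact Finset.mem_filter.2 ⟨he ▸ hm, hσ⟩

open Classical in
theorem sum_eq (h3 : VUStmt) (hc : Ctx 𝔇 i) (hV : VGp 𝔇 i) {𝒱 : Finset (St p)}
    (h𝒱 : ∀ σ, σ ∈ 𝒱 ↔ IsV 𝔇 i 0 σ) {e : St p} {w : Gam p} (h : IsE 𝔇 i e w) :
    ∑ σ ∈ 𝒱.filter (fun σ => Le e σ), W 𝔇 σ = W 𝔇 e := by
  have hG := hc.th.2.1 _ le_rfl
  have hi : 1 ≤ i := le_trans (by norm_num) hc.two
  have h1 : RC 𝔇 i e 1 := rc hc.const h 1 (Or.inl (mem_Tn_self 1 _))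
  obtain ⟨ℱ, f1, -, f3, f4⟩ := hV (i - 1) le_rfl hc.th hc.rule hc.const e _ 1 0 (𝔇 i).n
    h.1 h.2.1 h.1.2.1.sup (subset_Sat _ _ (Or.inl (mem_Tn_self 1 _)))
    (fun _ hk _ hy => mul_mem_Sat hk hy) ((qc hc h).mono (by omega)) h.2.2.2
  have hview : ∀ s ∈ ℱ, IsV 𝔇 i 0 s ∧ Le e s := by
    intro s hm
    obtain ⟨hs, hl, ⟨hT, -, -, hD, -⟩, -⟩ := f1 s hm
    have ha := h1.adj hi hc.rule hG h.1.1.1 hs.1.1 hl h.2.2.1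
    obtain ⟨a1, a2⟩ := stable hc h hs.1.1 hl
    refine ⟨⟨hs, hT, ha.1, ?_⟩, hl⟩
    rw [hD, Sat_union, Sat_Sat (Kall_mono hl), ← a1, ← a2]
    congr 1
    refine Set.union_eq_self_of_subset_left (Sat_subset (Set.union_subset ?_ ?_)
      (fun _ hk _ hy => mul_mem_Sat hk hy))
    · exact (Tn_mono 1 (Nat.sub_le _ _)).trans (subset_Sat _ _)
    · exact shift_sub hc.const hs.1.1 ha
  rw [← f3]
  refine Finset.sum_congr ?_ fun _ _ => rfl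
  ext σ
  rw [Finset.mem_filter, h𝒱]
  refine ⟨fun ⟨hσ, hl⟩ => ?_, hview σ⟩
  obtain ⟨s, hm, hl'⟩ := f4 σ hσ.1.1 hl (view_comp hσ (subset_Sat _ _))
  have he : s = σ := (h3 p 𝔇 i hi hc.th hc.rule hc.const 0 s (hview s hm).1).2.2 σ σ hσ
    hσ.1.1.1 hl' (Le.refl σ)
  exact he ▸ hm

end Edge

theorem edgeS (h1 : AllStmt) (h2 : UniqStmt) (h3 : VUStmt) : EdgeStmt := by
  intro p _ 𝔇 i hc
  have hi : i - 1 + 1 = i := by have := hc.two; omega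
  obtain ⟨-, -, hB, -, hV, -⟩ := h1 p 𝔇 (i - 1)
  rw [hi] at hV
  obtain ⟨𝒱, h𝒱⟩ := Edge.views h3 hc hB hV
  exact ⟨fun e w h => ⟨Edge.bar hc.rx h, fun k hk => Edge.mulK h hk, Edge.shape hc h,
      Edge.rc hc.const h, fun e' o h' ho hl hl' => Edge.uniq h2 hc h h' ho hl hl'⟩,
    fun σ hσ w hw => Edge.exist hc hB hV hσ hw, 𝒱, h𝒱,
    fun e w h => Edge.sum_eq h3 hc hV h𝒱 h⟩

end Pool.Agent.MP_735563_an.H2
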