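import Pool.Agent.MP_735563_an.H2.Spec3

set_option autoImplicit false

/-! The finite graph of views. -/

namespace Pool.Agent.MP_735563_an.H2

namespace GDx

variable {p : ℕ} {𝔇 : ℕ → Lev p} {i : ℕ}

theorem exists_trans (K : Subgroup (Gam p)) {S : Set (Gam p)} (hS : S.Finite) :
    ∃ F : Finset (Gam p), (∀ a ∈ F, a ∈ S) ∧ (∀ a ∈ F, ∀ b ∈ F, b * a⁻¹ ∈ K → a = b) ∧
      ∀ w ∈ S, ∃ a ∈ F, a * w⁻¹ ∈ K := by
  classical
  let r : Gam p → Gam p := fun w => Classical.epsilon fun v => v ∈ S ∧ v * w⁻¹ ∈ K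
  have h1 : ∀ w ∈ S, r w ∈ S ∧ r w * w⁻¹ ∈ K := fun w hw =>
    Classical.epsilon_spec (p := fun v => v ∈ S ∧ v * w⁻¹ ∈ K) ⟨w, hw, by simp⟩
  have h2 : ∀ w w', w' * w⁻¹ ∈ K → r w = r w' := fun w w' h => by
    have : (fun v => v ∈ S ∧ v * w⁻¹ ∈ K) = fun v => v ∈ S ∧ v * w'⁻¹ ∈ K := by
      funext v
      refine propext (and_congr_right fun _ => ⟨fun k => ?_, fun k => ?_⟩)
      · simpa [mul_assoc] using mul_mem k (inv_mem h)
      · simpa [mul_assoc] using mul_mem k h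
    simp only [r, this]
  refine ⟨hS.toFinset.image r, ?_, ?_, fun w hw =>
    ⟨r w, Finset.mem_image_of_mem r (hS.mem_toFinset.2 hw), (h1 w hw).2⟩⟩
  · intro a ha
    obtain ⟨w, hw, rfl⟩ := Finset.mem_image.1 ha
    exact (h1 w (hS.mem_toFinset.1 hw)).1
  · intro a ha b hb h
    obtain ⟨w, hw, rfl⟩ := Finset.mem_image.1 ha
    obtain ⟨w', hw', rfl⟩ := Finset.mem_image.1 hb
    refine h2 w w' ?_
    have := mul_mem (mul_mem (inv_mem (h1 w' (hS.mem_toFinset.1 hw')).2) h)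
      (h1 w (hS.mem_toFinset.1 hw)).2
    simpa [mul_assoc] using this

/-- class of a word -/
def cls (𝔇 : ℕ → Lev p) (i : ℕ) (e : St p) (w : Gam p) : Set (Gam p) :=
  {v | v * w⁻¹ ∈ K 𝔇 (i - 1) e}

theorem self_mem_cls (e : St p) (w : Gam p) : w ∈ cls 𝔇 i e w := by simp [cls]

theorem cls_congr {e : St p} {w w' : Gam p} (h : w' * w⁻¹ ∈ K 𝔇 (i - 1) e) :
    cls 𝔇 i e w' = cls 𝔇 i e w := by
  ext v
  refine ⟨fun k => ?_, fun k => ?_⟩
  · simpa [cls, mul_assoc] using mul_mem k h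
  · simpa [cls, mul_assoc] using mul_mem k (inv_mem h)

/-- the reversed edge type -/
noncomputable def bar (𝔇 : ℕ → Lev p) (i : ℕ) (q : St p × Set (Gam p)) : St p × Set (Gam p) :=
  (tr (Classical.epsilon fun v => v ∈ q.2)⁻¹ q.1,
    cls 𝔇 i (tr (Classical.epsilon fun v => v ∈ q.2)⁻¹ q.1) (Classical.epsilon fun v => v ∈ q.2)⁻¹)

theorem tr_congr {e : St p} (he : ValZ 𝔇 (i - 1) e) {w w' : Gam p}
    (h : w' * w⁻¹ ∈ K 𝔇 (i - 1) e) : tr w'⁻¹ e = tr w⁻¹ e := by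
  have : w'⁻¹ = w⁻¹ * (w' * w⁻¹)⁻¹ := by simp
  rw [this, tr_mul, he.stab (inv_mem h)]

theorem bar_eq {e : St p} (he : ValZ 𝔇 (i - 1) e) (w : Gam p) :
    bar 𝔇 i (e, cls 𝔇 i e w) = (tr w⁻¹ e, cls 𝔇 i (tr w⁻¹ e) w⁻¹) := by
  have h : (Classical.epsilon fun v => v ∈ cls 𝔇 i e w) ∈ cls 𝔇 i e w :=
    Classical.epsilon_spec (p := fun v => v ∈ cls 𝔇 i e w) ⟨w, self_mem_cls e w⟩
  simp only [bar]
  generalize (Classical.epsilon fun v => v ∈ cls 𝔇 i e w) = r at h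
  rw [tr_congr he h, cls_congr]
  rw [K_tr, mem_cjs]
  have h' : r * w⁻¹ ∈ K 𝔇 (i - 1) e := h
  simpa [mul_assoc] using inv_mem h'

theorem abs_edge (hC : Ctx 𝔇 i) {e o : St p} {w : Gam p} (he : IsE 𝔇 i e w)
    (ho : ValZ 𝔇 (i - 1) o) (hl : Le e o) {u : Gam p} (hu : len u ≤ 2 * (𝔇 i).l)
    (h : u ∈ K 𝔇 (i - 1) o) : u ∈ K 𝔇 (i - 1) e := by
  have := (hC.th.2.1 _ le_rfl).2.2.1 e o he.1.1.1 ho hl 1 u (fun v hv => he.2.1.comp (by
    rw [he.2.2.2]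
    exact mul_mem_Nb (subset_Sat _ _ (Or.inl (mem_Tn_self _ _)))
      (by have := hC.const.θ; omega))) (by simpa using h)
  simpa using this

theorem girth {Z : Type} {H : Z → Finset (Gam p)} {nx : Z × Gam p → Z × Gam p}
    {wd : Z × Gam p → Gam p} {z : Z} : ∀ (t : List (Gam p)) (a : Gam p),
    nbw H nx wd z (a :: t) → ∃ e : ℕ → Z × Gam p, (e 0).1 = z ∧
      e t.length = ((wk nx wd z t).1, a) ∧ (∀ s ≤ t.length, (e s).2 ∈ H (e s).1) ∧
      ∀ s < t.length, (e (s + 1)).1 = (nx (e s)).1 ∧ e (s + 1) ≠ nx (e s) := by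
  intro t
  induction t with
  | nil => exact fun a h => ⟨fun _ => (z, a), rfl, rfl, fun _ _ => h, fun s hs => by simp at hs⟩
  | cons b t ih =>
    rintro a ⟨h1, h2, h3⟩
    obtain ⟨e, e0, e1, e2, e3⟩ := ih b h1
    refine ⟨fun s => if s ≤ t.length then e s else ((wk nx wd z (b :: t)).1, a), by simpa using e0,
      by simp, fun s hs => ?_, fun s hs => ?_⟩
    · by_cases h : s ≤ t.length
      · simpa [h] using e2 s h
      · simpa [h] using h2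
    · by_cases h : s < t.length
      · simpa [h.le, Nat.succ_le_of_lt h] using e3 s h
      · obtain rfl : s = t.length := by simp at hs; omega
        simp only [le_refl, if_true, Nat.not_succ_le_self, if_false, e1]
        exact ⟨rfl, h3⟩

end GDx

open GDx in
theorem gdS (h1 : GraphStmt) (h2 : EdgeStmt) (_h3 : VUStmt) : GDStmt := by
  classical
  intro p _ 𝔇 i hC g'
  have hi : 1 ≤ i := by have := hC.two; omega
  have hG := hC.th.2.1 _ le_rfl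
  obtain ⟨hE, hX, 𝒱, h𝒱, hS⟩ := h2 p 𝔇 i hC
  choose H H1 H2 H3 using fun σ : St p => exists_trans (K 𝔇 (i - 1) σ)
    ((finite_len_le (𝔇 i).l).subset fun w (hw : w ∈ nbA 𝔇 i σ 0 1) => hC.rule.len _ _ w hw)
  have hX' : ∀ (σ : 𝒱) (a : Gam p), ∃ e, a ∈ H σ → IsE 𝔇 i e a ∧ Le e σ := fun σ a => by
    by_cases ha : a ∈ H σ
    · obtain ⟨e, he⟩ := hX σ ((h𝒱 σ).1 σ.2) a (H1 _ a ha)
      exact ⟨e, fun _ => he⟩
    · exact ⟨σ, fun h => absurd h ha⟩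
  choose E hEE using hX'
  have hv : ∀ σ : 𝒱, IsV 𝔇 i 0 σ := fun σ => (h𝒱 σ).1 σ.2
  have hlen : ∀ σ, ∀ a ∈ H σ, len a ≤ (𝔇 i).l := fun σ a ha => hC.rule.len _ _ a (H1 σ a ha)
  -- the key count
  have key : ∀ e w, IsE 𝔇 i e w → ∀ σ : 𝒱, Le e σ →
      ∃! a, a ∈ H σ ∧ (E σ a, cls 𝔇 i (E σ a) a) = (e, cls 𝔇 i e w) := by
    intro e w he σ hl
    obtain ⟨k1, k2, -, k4, k5⟩ := hE e w he
    obtain ⟨-, w0, hw0, hk⟩ := he.2.2.1
    have hvs := (hv σ).1.1.1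
    have hw1 := hw0
    rw [(k4 1 (Or.inl (mem_Tn_self _ _))).nb_eq hi hC.rule hG he.1.1.1 hvs hl] at hw1
    obtain ⟨a, ha, hk'⟩ := H3 σ w0 hw1
    have k6 : a * w0⁻¹ ∈ K 𝔇 (i - 1) e := abs_edge hC he hvs hl (by
      have := len_mul_le a w0⁻¹
      have := hlen _ a ha
      have := hC.rule.len _ _ w0 hw0
      rw [len_inv] at *
      omega) hk'
    have k7 : a * w⁻¹ ∈ K 𝔇 (i - 1) e := by simpa [mul_assoc] using mul_mem k6 (inv_mem hk)
    have k8 : IsE 𝔇 i e a := by simpa using k2 _ k7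
    have k9 : e = E σ a := (hE e a k8).2.2.2.2 _ σ (hEE σ a ha).1 hvs hl (hEE σ a ha).2
    refine ⟨a, ⟨ha, by rw [← k9, cls_congr k7]⟩, ?_⟩
    rintro a' ⟨ha', h⟩
    obtain ⟨e1, e2⟩ := Prod.ext_iff.1 h
    simp only at e1 e2
    have k10 : a' ∈ cls 𝔇 i e w := e2 ▸ self_mem_cls _ a'
    refine H2 σ a' ha' a ha (K_mono le_rfl hl ?_)
    have k11 : a' * w⁻¹ ∈ K 𝔇 (i - 1) e := k10
    simpa [mul_assoc] using mul_mem k7 (inv_mem k11)
  have hsum : ∀ e w, IsE 𝔇 i e w → ∀ F : 𝒱 → Finset (Gam p),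
      (∀ σ a, a ∈ F σ ↔ a ∈ H σ ∧ (E σ a, cls 𝔇 i (E σ a) a) = (e, cls 𝔇 i e w)) →
      ∑ σ : 𝒱, W 𝔇 σ * ((F σ).card : ℚ) = W 𝔇 e := by
    intro e w he F hF
    rw [← hS e w he, Finset.sum_filter, ← Finset.sum_coe_sort 𝒱]
    refine Finset.sum_congr rfl fun σ _ => ?_
    by_cases hl : Le e σ
    · obtain ⟨a, k1, k2⟩ := key e w he σ hl
      have : F σ = {a} := Finset.eq_singleton_iff_unique_mem.2
        ⟨(hF σ a).2 k1, fun b hb => k2 b ((hF σ b).1 hb)⟩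
      rw [if_pos hl, this]; simp
    · have : F σ = ∅ := Finset.eq_empty_of_forall_notMem fun a ha => by
        obtain ⟨k1, k2⟩ := (hF σ a).1 ha
        have k3 : E σ a = e := (Prod.ext_iff.1 k2).1
        exact hl (k3 ▸ (hEE σ a k1).2)
      rw [if_neg hl, this]; simp
  have hB : Balanced (fun σ : 𝒱 => W 𝔇 σ) (fun σ => H σ)
      (fun σ a => (E σ a, cls 𝔇 i (E σ a) a)) (bar 𝔇 i) := by
    refine ⟨fun σ => W_pos hC.th.1 (hv σ).1, fun σ a ha => ?_, fun σ a ha => ?_⟩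
    · have k := (hEE σ a ha).1.1.1.1
      simp only
      rw [bar_eq k, bar_eq (k.tr _), inv_inv, tr_tr_inv]
    · have k := (hEE σ a ha).1
      refine (hsum _ _ k _ fun _ _ => ?_).trans ((W_tr k.1 a⁻¹).symm.trans
        (hsum _ _ (hE _ _ k).1 _ fun _ _ => ?_).symm)
      · simp only [Finset.mem_filter]
      · rw [← bar_eq k.1.1.1]
        simp only [Finset.mem_filter]
  obtain ⟨Z, iZ, M, τ, nx, ⟨hM, hc, hT⟩, hg⟩ := h1 𝒱 (Gam p) (St p × Set (Gam p)) _ _ _ _ g' hB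
  let code : Z → ℕ := fun z => Fintype.equivFin Z z
  have hcode : ∀ z z', code z = code z' → z = z' := fun z z' h =>
    (Fintype.equivFin Z).injective (Fin.ext h)
  let wd : Z × Gam p → Gam p := fun e => if code e.1 < code (nx e).1 then e.2 else ((nx e).2)⁻¹
  have hwd : ∀ e : Z × Gam p, e.2 ∈ H (τ e.1) →
      wd e * e.2⁻¹ ∈ K 𝔇 (i - 1) (E (τ e.1) e.2) ∧
      tr e.2⁻¹ (E (τ e.1) e.2) = E (τ (nx e).1) (nx e).2 := by
    intro e he
    have k := (hT e he).2.2.2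
    simp only at k
    rw [bar_eq (hEE _ _ he).1.1.1.1] at k
    obtain ⟨e1, e2⟩ := Prod.ext_iff.1 k
    simp only at e1 e2
    refine ⟨?_, e1.symm⟩
    by_cases h : code e.1 < code (nx e).1
    · simp [wd, h]
    · have k1 : (nx e).2 ∈ cls 𝔇 i (tr e.2⁻¹ (E (τ e.1) e.2)) e.2⁻¹ := e2 ▸ self_mem_cls _ _
      have k2 : (nx e).2 * e.2⁻¹⁻¹ ∈ K 𝔇 (i - 1) (tr e.2⁻¹ (E (τ e.1) e.2)) := k1
      rw [K_tr, mem_cjs] at k2
      simpa [wd, h, mul_assoc] using inv_mem k2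
  have hwd' : ∀ z, ∀ a ∈ H (τ z), wd (z, a) * a⁻¹ ∈ K 𝔇 (i - 1) (τ z) := fun z a ha =>
    K_mono le_rfl (hEE _ _ ha).2 (hwd (z, a) ha).1
  refine ⟨Z, iZ, M, fun z => τ z, fun z => H (τ z), nx, wd, hM, fun σ hσ => ?_,
    ⟨fun z => hv _, fun e he => (hT e he).1, fun e he => (hT e he).2.1, fun e he => ?_,
      fun e he => ?_, fun e he => ?_, fun z a ha a' ha' h => ?_, fun z b hb => ?_⟩,
    fun z t ht hne hz => ?_⟩
  · rw [← hc ⟨σ, (h𝒱 σ).2 hσ⟩]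
    refine congrArg (fun F : Finset Z => (F.card : ℚ)) (Finset.ext fun z => ?_)
    simp only [Finset.mem_filter, Subtype.ext_iff]
  · obtain ⟨-, k2, k3, -⟩ := hT e he
    by_cases h : code e.1 < code (nx e).1
    · simp [wd, k2, h, h.le]
    · have h' : code (nx e).1 < code e.1 :=
        lt_of_le_of_ne (not_lt.1 h) fun k => k3 (hcode _ _ k)
      simp [wd, k2, h, h']
  · by_cases h : code e.1 < code (nx e).1
    · simpa [wd, h] using hlen _ _ he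
    · simpa [wd, h, len_inv] using hlen _ _ (hT e he).1
  · obtain ⟨k1, k2⟩ := hwd e he
    obtain ⟨k3, k4⟩ := hEE _ _ he
    refine ⟨_, by simpa using (hE _ _ k3).2.1 _ k1, k4, ?_⟩
    rw [tr_congr k3.1.1.1 k1, k2]
    exact (hEE _ _ (hT e he).1).2
  · refine H2 _ a ha a' ha' ?_
    simpa [mul_assoc] using mul_mem (mul_mem (inv_mem (hwd' z a' ha')) h) (hwd' z a ha)
  · obtain ⟨-, w, hw, hk⟩ := hb
    obtain ⟨a, ha, hk'⟩ := H3 _ w hw
    refine ⟨a, ha, ?_⟩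
    simpa [mul_assoc] using mul_mem (mul_mem hk (inv_mem hk')) (inv_mem (hwd' z a ha))
  · obtain ⟨a, t, rfl⟩ := List.exists_cons_of_ne_nil hne
    obtain ⟨e, e0, e1, e2, e3⟩ := girth t a ht
    by_contra hlt
    refine hg t.length e (by simp at hlt; omega) e2 e3 ?_
    rw [e0, e1]
    exact hz

end Pool.Agent.MP_735563_an.H2
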