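import Pool.Agent.MP_735563_an.H2.Spec1

set_option autoImplicit false

/-! Typed graphs of large girth by iterated parity covers. -/

namespace Pool.Agent.MP_735563_an.H2

namespace Girth

variable {V A Hh Z : Type}

/-- no closed non backtracking walk with at most `g` edges -/
def Gir (H : V → Finset A) (τ : Z → V) (nx : Z × A → Z × A) (g : ℕ) : Prop :=
  ∀ (l : ℕ) (e : ℕ → Z × A), l < g → (∀ t ≤ l, (e t).2 ∈ H (τ (e t).1)) →
    (∀ t < l, (e (t + 1)).1 = (nx (e t)).1 ∧ e (t + 1) ≠ nx (e t)) → (nx (e l)).1 ≠ (e 0).1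

lemma once {H : V → Finset A} {τ : Z → V} {nx : Z × A → Z × A} {g : ℕ} (hg : Gir H τ nx g)
    (hn : ∀ e : Z × A, e.2 ∈ H (τ e.1) → nx (nx e) = e) {l : ℕ} {e : ℕ → Z × A} (hl : l ≤ g)
    (h1 : ∀ t ≤ l, (e t).2 ∈ H (τ (e t).1))
    (h2 : ∀ t < l, (e (t + 1)).1 = (nx (e t)).1 ∧ e (t + 1) ≠ nx (e t)) {s : ℕ} (hs : s < l) :
    ¬(e 0 = e (s + 1) ∨ e 0 = nx (e (s + 1))) := by
  rintro (c | c)
  · refine hg s e (by omega) (fun t ht => h1 t (by omega)) (fun t ht => h2 t (by omega)) ?_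
    rw [← (h2 s hs).1, c]
  · by_cases a : s + 1 < l
    · refine hg (s + 1) e (by omega) (fun t ht => h1 t (by omega))
        (fun t ht => h2 t (by omega)) ?_
      rw [c]
    · have c' : nx (e 0) = e (s + 1) := by rw [c, hn _ (h1 _ hs)]
      rcases s with _ | s
      · exact (h2 0 hs).2 c'.symm
      · refine hg s (fun t => e (t + 1)) (by omega) (fun t ht => h1 _ (by omega))
          (fun t ht => h2 _ (by omega)) ?_
        rw [← (h2 (s + 1) hs).1, ← c', (h2 0 (by omega)).1]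

lemma step {w : V → ℚ} {H : V → Finset A} {ty : V → A → Hh} {bar : Hh → Hh} [Fintype Z] {M : ℕ}
    {τ : Z → V} {nx : Z × A → Z × A} (h : TypedGraph w H ty bar Z M τ nx) {g : ℕ}
    (hg : Gir H τ nx g) : ∃ (Z : Type) (_ : Fintype Z) (M : ℕ) (τ : Z → V) (nx : Z × A → Z × A),
      TypedGraph w H ty bar Z M τ nx ∧ Gir H τ nx (g + 1) := by
  classical
  obtain ⟨hM, hw, hn⟩ := h
  let ι := Σ z : Z, {a // a ∈ H (τ z)}
  let lab : Z × A → ι → ZMod 2 := fun e i =>
    if (i.1, i.2.1) = e ∨ (i.1, i.2.1) = nx e then 1 else 0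
  let pr : (Z × (ι → ZMod 2)) × A → Z × A := fun e => (e.1.1, e.2)
  let nx' : (Z × (ι → ZMod 2)) × A → (Z × (ι → ZMod 2)) × A := fun e =>
    (((nx (pr e)).1, e.1.2 + lab (pr e)), (nx (pr e)).2)
  have hp : ∀ e, pr (nx' e) = nx (pr e) := fun _ => rfl
  have hf : ∀ e, (nx' e).1.2 = e.1.2 + lab (pr e) := fun _ => rfl
  have ext : ∀ e e' : (Z × (ι → ZMod 2)) × A, pr e = pr e' → e.1.2 = e'.1.2 → e = e' :=
    fun e e' a b => Prod.ext (Prod.ext (Prod.ext_iff.1 a).1 b) (Prod.ext_iff.1 a).2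
  refine ⟨Z × (ι → ZMod 2), inferInstance, M * Fintype.card (ι → ZMod 2), fun z => τ z.1, nx',
    ⟨Nat.mul_pos hM Fintype.card_pos, fun v => ?_, fun e he => ?_⟩, fun l e hl h1 h2 hc => ?_⟩
  · have := hw v
    rw [← Finset.univ_product_univ, Finset.filter_product_left fun z => τ z = v,
      Finset.card_product, Finset.card_univ]
    push_cast
    rw [this]
    ring
  · obtain ⟨a1, a2, a3, a4⟩ := hn (pr e) he
    refine ⟨a1, ext _ _ (by rw [hp, hp, a2]) ?_, fun c => a3 (Prod.ext_iff.1 c).1, a4⟩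
    rw [hf, hf, hp]
    funext i
    have : lab (nx (pr e)) i = lab (pr e) i := by simp only [lab, a2, or_comm]
    rw [Pi.add_apply, Pi.add_apply, this, add_assoc, CharTwo.add_self_eq_zero, add_zero]
  · have h2' : ∀ t < l, (pr (e (t + 1))).1 = (nx (pr (e t))).1 ∧ pr (e (t + 1)) ≠ nx (pr (e t)) :=
      fun t ht => ⟨(Prod.ext_iff.1 (h2 t ht).1).1,
        fun c => (h2 t ht).2 (ext _ _ c (Prod.ext_iff.1 (h2 t ht).1).2)⟩
    let i : ι := ⟨(e 0).1.1, (e 0).2, h1 0 (Nat.zero_le l)⟩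
    have key : ∀ t ≤ l, (nx' (e t)).1.2 i = (e 0).1.2 i + 1 := by
      intro t
      induction t with
      | zero =>
        intro _
        rw [hf, Pi.add_apply]
        exact congrArg _ (if_pos (Or.inl rfl))
      | succ t ih =>
        intro ht
        have a : lab (pr (e (t + 1))) i = 0 := if_neg (once hg (fun e he => (hn e he).2.1)
          (e := fun t => pr (e t)) (Nat.lt_succ_iff.1 hl) h1 h2' ht)
        rw [hf, Pi.add_apply, a, add_zero, (h2 t ht).1, ih (by omega)]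
    have := key l le_rfl
    rw [hc] at this
    simp at this

end Girth

theorem graph (h : MatchStmt) : GraphStmt := by
  intro V A Hh _ w H ty bar g hb
  induction g with
  | zero =>
    obtain ⟨Z, i, M, τ, nx, h1⟩ := h V A Hh w H ty bar hb
    exact ⟨Z, i, M, τ, nx, h1, fun l _ hl => absurd hl (Nat.not_lt_zero l)⟩
  | succ g ih =>
    obtain ⟨Z, i, M, τ, nx, h1, h2⟩ := ih
    exact Girth.step h1 h2

end Pool.Agent.MP_735563_an.H2
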