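import Pool.Agent.MP_735563_an.H2.Spec1

set_option autoImplicit false

/-! The level one groups: kernels of maps to unitriangular matrices. -/

namespace Pool.Agent.MP_735563_an.H2
namespace Grp
open Finset

section hilb
variable {W : Type} [NormedAddCommGroup W] [InnerProductSpace ℝ W]

theorem alg {u v a b : W} (h : u - v = b - a) (h1 : inner ℝ a u = 0) (h2 : inner ℝ b v = 0)
    (h3 : inner ℝ u v ≤ 1 / 5 * ‖u‖ * ‖v‖) :
    0 ≤ 2 * inner ℝ a b + 1 / 4 * (‖a‖ ^ 2 + ‖b‖ ^ 2) := by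
  have d1 := norm_sub_sq_real u v
  have d2 := norm_sub_sq_real b a
  have d3 : ‖u - v‖ ^ 2 = inner ℝ (u - v) (b - a) := by rw [← h, real_inner_self_eq_norm_sq]
  rw [inner_sub_left, inner_sub_right, inner_sub_right, real_inner_comm a u, real_inner_comm b v,
    h1, h2] at d3
  rw [← h, real_inner_comm a b] at d2
  nlinarith [real_inner_le_norm u b, real_inner_le_norm v a, sq_nonneg (4 * ‖u‖ - 5 * ‖b‖),
    sq_nonneg (4 * ‖v‖ - 5 * ‖a‖), sq_nonneg (‖u‖ - ‖v‖)]

variable {G T : Type} [Group G] [Group T] [Fintype T] (ρ : G →* (W ≃ₗᵢ[ℝ] W)) (α : T →* G)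

/-- the average over the image of `α` -/
noncomputable def avg (w : W) : W := (1 / (Fintype.card T : ℝ)) • ∑ t, ρ (α t) w

theorem avg_fix (w : W) : ∀ g ∈ α.range, ρ g (avg ρ α w) = avg ρ α w := by
  rintro _ ⟨s, rfl⟩
  rw [avg, map_smul, map_sum, ← Equiv.sum_comp (Equiv.mulLeft s) fun t => ρ (α t) w]
  simp

theorem avg_orth (w z : W) (h : ∀ g ∈ α.range, ρ g z = z) : inner ℝ (w - avg ρ α w) z = 0 := by
  have : ∀ t, inner ℝ (ρ (α t) w) z = inner ℝ w z := fun t => by
    rw [← (ρ (α t)).inner_map_map w z, h _ ⟨t, rfl⟩]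
  simp [avg, inner_sub_left, inner_smul_left, sum_inner, this]

theorem pair [Finite G] (β : T →* G) (w : W)
    (h : ∀ u v : W, (∀ g ∈ α.range, ρ g u = u) → (∀ g ∈ β.range, ρ g v = v) →
      (∀ w, (∀ g ∈ α.range ⊔ β.range, ρ g w = w) → inner ℝ u w = 0) →
      inner ℝ u v ≤ 1 / 5 * ‖u‖ * ‖v‖) :
    0 ≤ 2 * inner ℝ (w - avg ρ α w) (w - avg ρ β w) +
      1 / 4 * (‖w - avg ρ α w‖ ^ 2 + ‖w - avg ρ β w‖ ^ 2) := by
  have := Fintype.ofFinite ↥(α.range ⊔ β.range)
  have f := avg_fix ρ (α.range ⊔ β.range).subtype w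
  have o := avg_orth ρ (α.range ⊔ β.range).subtype w
  rw [Subgroup.range_subtype] at f o
  generalize avg ρ (α.range ⊔ β.range).subtype w = w0 at f o
  have a : ∀ g ∈ α.range, ρ g (avg ρ α w - w0) = avg ρ α w - w0 := fun g hg => by
    rw [map_sub, avg_fix ρ α w g hg, f g (Subgroup.mem_sup_left hg)]
  have b : ∀ g ∈ β.range, ρ g (avg ρ β w - w0) = avg ρ β w - w0 := fun g hg => by
    rw [map_sub, avg_fix ρ β w g hg, f g (Subgroup.mem_sup_right hg)]
  refine alg (by abel) (avg_orth ρ α w _ a) (avg_orth ρ β w _ b) (h _ _ a b fun z hz => ?_)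
  rw [show avg ρ α w - w0 = (w - w0) - (w - avg ρ α w) by abel, inner_sub_left, o z hz,
    avg_orth ρ α w z fun g hg => hz g (Subgroup.mem_sup_left hg), sub_zero]

/-- right translation -/
noncomputable def tr (G W : Type) [Group G] [Fintype G] [NormedAddCommGroup W]
    [InnerProductSpace ℝ W] : G →* (PiLp 2 (fun _ : G => W) ≃ₗᵢ[ℝ] PiLp 2 fun _ : G => W) where
  toFun g := LinearIsometryEquiv.piLpCongrLeft 2 ℝ W (Equiv.mulRight g⁻¹)
  map_one' := by ext; simp [Equiv.piCongrLeft']; rfl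
  map_mul' a b := by ext; simp [Equiv.piCongrLeft', -mul_inv_rev, -Equiv.mulRight_mul, mul_assoc]

end hilb

variable {p d : ℕ} (c : Fin 3)

def col (b : Bool) : Fin 3 := if b then c + 1 else c + 2

theorem col_ne (b : Bool) : col c b ≠ col c (!b) := by revert c b; decide

theorem col_or (b : Bool) (i : Fin 3) (h : i ≠ c) : i = col c b ∨ i = col c (!b) := by
  revert c b i; decide

/-- alternating words -/
def Alt : Bool → List (Fin 3 × ZMod p) → Prop
  | _, [] => True
  | b, q :: l => q.1 = col c b ∧ q.2 ≠ 0 ∧ Alt (!b) l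

theorem alt_red {b : Bool} {l : List (Fin 3 × ZMod p)} (h : Alt c b l) :
    (∀ q ∈ l, q.2 ≠ 0) ∧ l.IsChain fun q q' => q.1 ≠ q'.1 := by
  induction l generalizing b with
  | nil => simp
  | cons q l ih =>
    refine ⟨List.forall_mem_cons.2 ⟨h.2.1, (ih h.2.2).1⟩, ?_⟩
    cases l with
    | nil => simp
    | cons q' l =>
      exact List.isChain_cons_cons.2 ⟨by rw [h.1, h.2.2.1]; exact col_ne c b, (ih h.2.2).2⟩

theorem alt_ex {x : Gam p} (hx : x ∈ AB c) : ∃ b l, Alt c b l ∧ lprod l = x := by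
  have key : ∀ i a (y : Gam p), i ≠ c → (∃ b l, Alt c b l ∧ lprod l = y) →
      ∃ b l, Alt c b l ∧ lprod l = gen i a * y := by
    rintro i a _ hi ⟨b, l, h, rfl⟩
    by_cases ha : a = 0
    · exact ⟨b, l, h, by rw [ha, gen_zero, one_mul]⟩
    rcases col_or c b i hi with e | e
    · cases l with
      | nil => exact ⟨b, [(i, a)], ⟨e, ha, trivial⟩, lprod_cons ..⟩
      | cons q l =>
        rw [lprod_cons, ← mul_assoc, h.1, ← e, ← gen_add]
        by_cases h0 : a + q.2 = 0
        · exact ⟨_, l, h.2.2, by rw [h0, gen_zero, one_mul]⟩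
        · exact ⟨b, (i, a + q.2) :: l, ⟨e, h0, h.2.2⟩, lprod_cons ..⟩
    · exact ⟨!b, (i, a) :: l, ⟨e, ha, by rwa [Bool.not_not]⟩, lprod_cons ..⟩
  induction hx using Subgroup.closure_induction_left with
  | one => exact ⟨true, [], trivial, rfl⟩
  | mul_left x hx y _ ih =>
    obtain ⟨i, a, hi, rfl⟩ := hx
    exact key i a y hi ih
  | inv_mul_cancel x hx y _ ih =>
    obtain ⟨i, a, hi, rfl⟩ := hx
    exact gen_neg i a ▸ key i (-a) y hi ih

def X (p d : ℕ) (i : Fin 3) : Matrix (Fin d) (Fin d) (ZMod p) :=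
  fun s t => if t.1 = s.1 + 1 ∧ col c s.1.bodd = i then 1 else 0

theorem X_mul (i : Fin 3) (M : Matrix (Fin d) (Fin d) (ZMod p)) (s t : Fin d) :
    (X c p d i * M) s t =
      if h : s.1 + 1 < d ∧ col c s.1.bodd = i then M ⟨s.1 + 1, h.1⟩ t else 0 := by
  rw [Matrix.mul_apply]
  split_ifs with h
  · rw [sum_eq_single ⟨s.1 + 1, h.1⟩ (fun r _ hr => by
      rw [X, if_neg fun a => hr (Fin.ext a.1), zero_mul]) (by simp), X, if_pos ⟨rfl, h.2⟩, one_mul]
  · exact sum_eq_zero fun r _ => by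
      rw [X, if_neg fun a : r.1 = _ ∧ _ => h ⟨by omega, a.2⟩, zero_mul]

theorem X_sq (i : Fin 3) : X c p d i * X c p d i = 0 := by
  ext s t
  rw [X_mul]
  split_ifs with h
  · refine if_neg fun a => col_ne c s.1.bodd (h.2.trans ?_)
    rw [← a.2, Nat.bodd_succ]
  · rfl

/-- the matrix representation -/
def rep (p d : ℕ) : Gam p →* Matrix (Fin d) (Fin d) (ZMod p) :=
  Monoid.CoprodI.lift fun i =>
    { toFun a := 1 + a.toAdd • X c p d i
      map_one' := by simp
      map_mul' a b := by simp [add_mul, mul_add, X_sq, add_smul, add_assoc] }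

theorem rep_gen (i : Fin 3) (a : ZMod p) : rep c p d (gen i a) = 1 + a • X c p d i := by
  simp [rep, gen]

theorem rep_cons (q : Fin 3 × ZMod p) (l : List (Fin 3 × ZMod p)) (s t : Fin d) :
    rep c p d (lprod (q :: l)) s t = rep c p d (lprod l) s t + q.2 *
      if h : s.1 + 1 < d ∧ col c s.1.bodd = q.1 then rep c p d (lprod l) ⟨s.1 + 1, h.1⟩ t else 0 := by
  rw [lprod_cons, map_mul, rep_gen, add_mul, one_mul, smul_mul_assoc, Matrix.add_apply,
    Matrix.smul_apply, X_mul, smul_eq_mul]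

theorem rep_low (l : List (Fin 3 × ZMod p)) (s t : Fin d) (h : t ≤ s) :
    (rep c p d (lprod l) - 1) s t = 0 := by
  induction l generalizing s with
  | nil => simp [lprod_nil]
  | cons q l ih =>
    have := ih s h
    rw [Matrix.sub_apply] at this ⊢
    rw [rep_cons, add_sub_right_comm, this, zero_add]
    split_ifs with a
    · have e := ih ⟨s.1 + 1, a.1⟩ (h.trans (Nat.le_succ _))
      rw [Matrix.sub_apply, Matrix.one_apply_ne fun b => by
        have := congrArg Fin.val b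
        simp at this
        omega, sub_zero] at e
      rw [e, mul_zero]
    · exact mul_zero _

theorem rep_top [Fact p.Prime] (l : List (Fin 3 × ZMod p)) (s t : Fin d) :
    (s.1 + l.length < t.1 → rep c p d (lprod l) s t = 0) ∧
      (s.1 + l.length = t.1 → Alt c s.1.bodd l → rep c p d (lprod l) s t ≠ 0) := by
  induction l generalizing s with
  | nil =>
    rw [lprod_nil, map_one]
    exact ⟨fun h => Matrix.one_apply_ne (Fin.ne_of_lt h),
      fun h _ => by rw [show s = t from Fin.ext h]; simp⟩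
  | cons q l ih =>
    rw [rep_cons, List.length_cons]
    refine ⟨fun h => ?_, fun h a => ?_⟩ <;> rw [(ih s).1 (by omega), zero_add]
    · split_ifs with a
      · rw [(ih _).1 (by simp; omega), mul_zero]
      · exact mul_zero _
    · rw [dif_pos ⟨by omega, a.1.symm⟩]
      exact mul_ne_zero a.2.1 ((ih _).2 (by simp; omega) (by simpa using a.2.2))

theorem nil_pow {n : Matrix (Fin d) (Fin d) (ZMod p)} (h : ∀ s t, t ≤ s → n s t = 0) (k : ℕ)
    (s t : Fin d) (hk : t.1 < s.1 + k) : (n ^ k) s t = 0 := by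
  induction k generalizing s with
  | zero => exact Matrix.one_apply_ne (Fin.ne_of_gt hk)
  | succ k ih =>
    rw [pow_succ', Matrix.mul_apply]
    refine sum_eq_zero fun r _ => ?_
    rcases le_or_gt r s with a | a
    · rw [h s r a, zero_mul]
    · rw [ih r (by have : s.1 < r.1 := a; omega), mul_zero]

theorem rep_pow [Fact p.Prime] [NeZero d] (h : d ≤ p) (x : Gam p) : rep c p d x ^ p = 1 := by
  obtain ⟨l, rfl⟩ := exists_lprod x
  have e : (rep c p d (lprod l) - 1) ^ p = 0 :=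
    Matrix.ext fun s t => nil_pow (rep_low c l) p s t (by omega)
  rw [← sub_add_cancel (rep c p d (lprod l)) 1, add_pow_char_of_commute p (Commute.one_right _), e]
  simp

theorem rep_sec (x : Gam p) : ∃ y ∈ AB c, rep c p d y = rep c p d x := by
  obtain ⟨l, rfl⟩ := exists_lprod x
  induction l with
  | nil => exact ⟨1, one_mem _, rfl⟩
  | cons q l ih =>
    obtain ⟨y, hy, e⟩ := ih
    rw [lprod_cons, map_mul, ← e]
    by_cases h : q.1 = c
    · have : X c p d q.1 = 0 := Matrix.ext fun s t => if_neg fun a => by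
        have := a.2.trans h
        revert this
        generalize s.1.bodd = b
        clear * -
        revert c b
        decide
      exact ⟨y, hy, by simp [rep_gen, this]⟩
    · exact ⟨_, mul_mem (Subgroup.subset_closure ⟨q.1, q.2, h, rfl⟩) hy, map_mul ..⟩

end Grp
open Grp

theorem grp (h : AngleStmt) (h2 : LenStmt) : GrpStmt := by
  classical
  intro g
  obtain ⟨p₀, hp⟩ := h ((g + 2) * (g + 2)) (1 / 5) (by norm_num)
  obtain ⟨p, h0, pp⟩ := Nat.exists_infinite_primes (p₀ + (g + 2))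
  have := Fact.mk pp
  let φ := fun c => (rep c p (g + 2)).toHomUnits.rangeRestrict
  have hφ : ∀ c x y, φ c x = φ c y ↔ rep c p (g + 2) x = rep c p (g + 2) y := fun c x y => by
    rw [Subtype.ext_iff, Units.ext_iff]; rfl
  choose σ s1 s2 using fun c γ => show ∃ y ∈ AB c, φ c y = γ by
    obtain ⟨x, rfl⟩ := MonoidHom.rangeRestrict_surjective _ γ
    obtain ⟨y, a, b⟩ := rep_sec (d := g + 2) c x
    exact ⟨y, a, (hφ c _ _).2 b⟩
  refine ⟨p, inferInstance, fun c => (φ c).ker ⊓ AB c, pp.two_le, fun c => inf_le_right,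
    fun c x hx n hn => ⟨(φ c).normal_ker.conj_mem n hn.1 x,
      (AB c).mul_mem (mul_mem hx hn.2) (inv_mem hx)⟩, ?_, fun c n hn h1 => ?_, fun c => ?_⟩
  · obtain ⟨D, hD⟩ := Finite.exists_le fun q : Σ c, (rep c p (g + 2)).toHomUnits.range =>
      len (σ q.1 q.2)
    exact ⟨D, fun c x hx => ⟨σ c (φ c x) * x⁻¹,
      ⟨by simp [s2], (AB c).mul_mem (s1 _ _) (inv_mem hx)⟩,
      by simpa using hD ⟨c, φ c x⟩⟩⟩
  · obtain ⟨b, l, a, rfl⟩ := alt_ex c hn.2
    rw [(h2 p).2.1 l (alt_red c a).1 (alt_red c a).2]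
    by_contra hl
    have e : rep c p (g + 2) (lprod l) = 1 := ((hφ c _ 1).1 (hn.1.trans (map_one _).symm)).trans
      (map_one _)
    have hb : b.toNat ≤ 1 := b.toNat_le
    refine (rep_top (d := g + 2) c l ⟨b.toNat, by omega⟩ ⟨b.toNat + l.length, by omega⟩).2 rfl
      (by cases b <;> simpa using a) (e ▸ Matrix.one_apply_ne fun f => h1 ?_)
    rw [List.length_eq_zero_iff.1 (by simpa using f : l.length = 0), lprod_nil]
  · have := Fintype.ofFinite (rep c p (g + 2)).toHomUnits.range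
    refine ⟨Finset.univ.image (σ c), by simp, fun x hx => ?_, fun H _ _ Φ hΦ i j hi hj _ => ?_⟩
    · obtain ⟨γ, -, rfl⟩ := Finset.mem_image.1 hx
      exact s1 c γ
    let α := fun i : Fin 3 =>
      (φ c).comp (Monoid.CoprodI.of (M := fun _ : Fin 3 => Multiplicative (ZMod p)) (i := i))
    let w : PiLp 2 fun _ : (rep c p (g + 2)).toHomUnits.range => H := WithLp.toLp 2 fun γ => Φ (σ c γ)
    have e : ∀ i ≠ c, ∀ γ, Qv i Φ (σ c γ) = (w - avg (tr _ H) (α i) w) γ := fun i hi γ => by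
      have : ∀ a, Φ (σ c γ * gen i a) = Φ (σ c (γ * φ c (gen i a))) := fun a => by
        rw [← hΦ _ (s1 c (γ * φ c (gen i a))) ((σ c (γ * φ c (gen i a)))⁻¹ * (σ c γ * gen i a))
          ⟨by simp [s2], (AB c).mul_mem (inv_mem (s1 _ _))
            (mul_mem (s1 _ _) (Subgroup.subset_closure ⟨i, a, hi, rfl⟩))⟩, mul_inv_cancel_left]
      simp only [Qv, this]
      simp [avg, tr, w, α, Equiv.piCongrLeft', gen]
      exact congrArg _ (Equiv.sum_comp Multiplicative.ofAdd fun t => Φ (σ c (γ * α i t)))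
    have := pair (tr _ H) (α i) (α j) w (hp p pp (by omega) _ (fun γ => ⟨1, by
      obtain ⟨x, rfl⟩ := MonoidHom.rangeRestrict_surjective _ γ
      rw [pow_one, ← map_pow, ← map_one (φ c), hφ, map_pow, rep_pow c (by omega), map_one]⟩)
      ((Nat.card_le_card_of_injective (fun γ => γ.1.1) fun a b e =>
        Subtype.ext (Units.ext e)).trans (by simp [Matrix, ← pow_mul])) _ _ _ _)
    rw [Finset.sum_image fun a _ b _ f => by rw [← s2 c a, f, s2]]
    simpa only [e i hi, e j hj, Finset.sum_add_distrib, ← Finset.mul_sum, PiLp.inner_apply,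
      PiLp.norm_sq_eq_of_L2] using this

end Pool.Agent.MP_735563_an.H2
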