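import Pool.Agent.MP_735563_an.H2.Spec3

set_option autoImplicit false

/-! Row Hole: a model is a view or has a hole far from the orbit of the root. -/

namespace Pool.Agent.MP_735563_an.H2

namespace Hole

variable {p : ℕ} {𝔇 : ℕ → Lev p} {i : ℕ} {Z : Type} {vw τ : Z → St p}
  {P : Z → Gam p → Z → Prop}

theorem theta_pos (h : ConstA 𝔇 i) : 1 ≤ (𝔇 i).θ :=
  le_trans (Nat.succ_le_of_lt (by positivity)) h.θ

theorem mem_of_con (hM : MC 𝔇 i vw τ P) (z : Z) {e : Gam p} (h : Con 𝔇 i (τ z) 0 1 e) :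
    e ∈ Sat (K 𝔇 (i - 1) (τ z)) {g | ∃ z', P z g z'} := by
  obtain ⟨ξ, n, h0, h1, h2⟩ := h
  have key : ∀ t ≤ n, ξ t ∈ Sat (K 𝔇 (i - 1) (τ z)) {g | ∃ z', P z g z'} := by
    intro t
    induction t with
    | zero => intro _; rw [h0]; exact subset_Sat _ _ ⟨z, hM.refl z⟩
    | succ t ih =>
      intro ht
      obtain ⟨k, hk, g, ⟨z', hg⟩, he⟩ := ih (by omega)
      have h3 := (h2 t (by omega)).congr (hM.val z).1 (a' := g) (b' := ξ (t + 1))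
        (by rw [he]; simpa using inv_mem hk) (by simp)
      obtain ⟨g', z'', h4, h5⟩ := hM.cl z g z' _ hg h3
      exact ⟨_, h5, g', ⟨z'', h4⟩, (inv_mul_cancel_right _ _).symm⟩
  have := mul_mem_Sat (inv_mem h1) (key n le_rfl)
  simpa [mul_assoc] using this

theorem con_of_mem (hM : MC 𝔇 i vw τ P) (z : Z) {e : Gam p}
    (h : e ∈ Sat (K 𝔇 (i - 1) (τ z)) {g | ∃ z', P z g z'}) : Con 𝔇 i (τ z) 0 1 e := by
  obtain ⟨k, hk, g, ⟨z', hg⟩, rfl⟩ := h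
  obtain ⟨ξ, n, h0, h1, h2, -⟩ := hM.conn z g z' hg
  exact ⟨ξ, n, h0, by rw [h1]; simpa using inv_mem hk, h2⟩

/-- a model of small diameter is a view -/
theorem isV_of_small [NeZero p] (h3 : VUStmt) (hC : Ctx 𝔇 i) (hM : MC 𝔇 i vw τ P) (z : Z)
    (hT : TreeP 𝔇 i (τ z) 0) (h : ∀ g z', P z g z' → rd 𝔇 i (τ z) 0 1 g ≤ (𝔇 i).n) :
    IsV 𝔇 i 0 (τ z) := by
  classical
  have hi : 1 ≤ i := le_trans (by norm_num) hC.two
  have hK := Kall_eq (𝔇 := 𝔇) (hM.lv z)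
  have he : Sat (K 𝔇 (i - 1) (τ z)) {g | ∃ z', P z g z'} =
      Sat (K 𝔇 (i - 1) (τ z)) (Tn 𝔇 i (τ z) 0 1 (𝔇 i).n) := by
    refine subset_antisymm (Sat_subset ?_ fun _ hk _ hy => mul_mem_Sat hk hy) fun y hy => ?_
    · rintro g ⟨z', hg⟩
      exact (hT.tn 1 g _).2 ⟨con_of_mem hM z (subset_Sat _ _ ⟨z', hg⟩), h g z' hg⟩
    · exact mem_of_con hM z ((hT.tn 1 y _).1 hy).1
  have hfin := Nb_finite ((𝔇 i).θ + (𝔇 (i - 1)).δ)
    (Tn_finite (s := τ z) (c := 0) hC.rule 1 (𝔇 i).n)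
  refine ⟨⟨hM.val z, hM.lv z, exists_isTr (hfin.toFinset ×ˢ (Finset.range (i + 1) ×ˢ Finset.univ))
    (fun k hk => (hM.val z).1.stab (hK ▸ hk)) fun x κ hx => ?_⟩, hM.tow z, ?_, ?_⟩
  · have h1 := hM.dm0 z ((hM.tow z).supp (hM.lv z).sup (hM.lv z) hx)
    rw [he, ← Sat_Nb] at h1
    obtain ⟨k, hk, y, hy, rfl⟩ := h1
    refine ⟨(y, κ), ?_, rfl, by rw [hK]; simpa using inv_mem hk⟩
    have h2 := (hM.lv z _ _ hx).2
    simp only [Finset.mem_product, Set.Finite.mem_toFinset, Finset.mem_range, Finset.mem_univ,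
      and_true]
    refine ⟨hy, ?_⟩
    unfold rk at h2
    omega
  · have h1 := (h3 p 𝔇 i hi hC.th hC.rule hC.const 0 _ (hM.view z)).2.1 1 (mem_Tn_self 1 _)
    exact (h1.cen_iff hi hC.rule (hC.th.2.1 _ le_rfl) (hM.view z).1.1.1 (hM.val z).1
      (hM.le z) 0).1 (hM.view z).2.2.1
  · rw [hM.dm z, he, hK]

theorem count_absurd {ι W : Type} [Fintype W] [DecidableEq W] (S : Finset ι) (f : ι → Finset W)
    {A c M : ℝ} (hA : 0 < A) (hW : (Fintype.card W : ℝ) = A) (hc : 0 ≤ c)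
    (hcov : ∀ w, ∃ y ∈ S, w ∈ f y) (hf : ∀ y, ((f y).card : ℝ) ^ 2 ≤ c * A ^ 2)
    (hS : (S.card : ℝ) ≤ M) (h : c * M ^ 2 < 1) : False := by
  have h1 : Fintype.card W ≤ ∑ y ∈ S, (f y).card := by
    refine le_trans (Finset.card_le_card (t := S.biUnion f) fun w _ => ?_) Finset.card_biUnion_le
    exact Finset.mem_biUnion.2 (hcov w)
  have h2 : ∀ y ∈ S, ((f y).card : ℝ) ≤ √c * A := fun y _ => by
    refine (pow_le_pow_iff_left₀ (by positivity) (by positivity) two_ne_zero).1 ?_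
    rw [mul_pow, Real.sq_sqrt hc]; exact hf y
  have h3 := Finset.sum_le_card_nsmul S _ _ h2
  have h4 : A ≤ (S.card : ℝ) * (√c * A) := by
    rw [← nsmul_eq_mul, ← hW]
    refine le_trans ?_ (hW ▸ h3)
    exact_mod_cast h1
  have h5 : 1 ≤ (S.card : ℝ) * √c := by
    by_contra h6
    push Not at h6
    nlinarith
  have h6 : 1 ≤ M * √c := h5.trans (mul_le_mul_of_nonneg_right hS (Real.sqrt_nonneg c))
  have h7 : 1 ≤ (M * √c) ^ 2 := one_le_pow₀ h6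
  rw [mul_pow, Real.sq_sqrt hc] at h7
  linarith

/-- a far point of the core has an unfolded point nearby -/
theorem exists_miss [NeZero p] (h1 : SpreadStmt) {N : Fin 3 → Subgroup (Gam p)} {g₁ : ℕ}
    (hN : NData p N g₁) (hL : L1 𝔇 N) (hC : Ctx 𝔇 i) (hM : MC 𝔇 i vw τ P) (z : Z)
    (hT : TreeP 𝔇 i (τ z) 0) {e : Gam p} (he : Con 𝔇 i (τ z) 0 1 e) {R : ℕ}
    (hR : R < dj 𝔇 (i - 1) (τ z) e 1)
    (hv : 12 * (2 * (R : ℝ) + 1) ^ 2 * (5 / 6) ^ R *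
      ((3 * p : ℝ) ^ ((𝔇 i).θ + (𝔇 (i - 1)).δ) *
        10001 ^ ((2 * (R + (𝔇 i).θ + (𝔇 (i - 1)).δ) + (𝔇 i).J) / 1000)) ^ 2 < 1) :
    ∃ u c, len u ≤ R ∧ τ z (e * u) (1, some c) = 0 := by
  classical
  by_contra hcon
  push Not at hcon
  have hi : 1 ≤ i - 1 := by have := hC.two; omega
  have hs := h1 p N g₁ hN (cjs e⁻¹ (K 𝔇 (i - 1) (τ z))) R R (fun x hx c n hn => by
      have h2 := hcon x c hx
      have h3 := mem_K (𝔇 := 𝔇) (l := n) le_rfl hi h2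
        (by rw [(hL c).2 _ ((hM.val z).1 1 le_rfl hi _ c h2).1]; exact hn)
      rw [mem_cjs]
      simpa [mul_assoc] using h3)
    ⟨e⁻¹, fun k hk => hR.trans_le (dj_le (by
      rw [mem_cjs] at hk
      simpa [mul_assoc] using hk))⟩ le_rfl
  obtain ⟨G, hG, hG'⟩ := hT.cnt e ((2 * (R + (𝔇 i).θ + (𝔇 (i - 1)).δ) + (𝔇 i).J) / 1000)
  have hp : (0 : ℝ) < p := Nat.cast_pos.2 (Nat.pos_of_ne_zero (NeZero.ne p))
  refine count_absurd (G ×ˢ ball p ((𝔇 i).θ + (𝔇 (i - 1)).δ))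
    (fun y => Finset.univ.filter fun w : Fin R → Fin 3 × ZMod p =>
      wprod w * (e⁻¹ * y.1 * y.2)⁻¹ ∈ cjs e⁻¹ (K 𝔇 (i - 1) (τ z)))
    (A := (3 * p : ℝ) ^ R) (by positivity) (by simp [ZMod.card]) (by positivity)
    (fun w => ?_) (fun y => hs _) ?_ hv
  · have hw : len (wprod w) ≤ R := by simpa [wprod] using len_le (List.ofFn w)
    have h2 : e * wprod w ∈ Dm 0 (τ z) :=
      (hM.tow z 1 le_rfl hi).1.sub (Or.inr ⟨0, hcon _ 0 hw⟩)
    obtain ⟨y, hy, v, hv', h3⟩ := hM.dm0 z h2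
    have h4 := (hT.tri e 1 y (hT.symm 1 e he).1 (con_of_mem hM z hy)).1
    have h5 : dj 𝔇 (i - 1) (τ z) e y ≤ len (wprod w * v⁻¹) :=
      dj_le (by rw [← mul_assoc, h3]; simp)
    have h6 := len_mul_le (wprod w) v⁻¹
    rw [len_inv] at h6
    have h7 := (hT.qi e y h4).1
    obtain ⟨f, hf, h8⟩ := hG' y h4 (by omega)
    refine ⟨(f, v), Finset.mem_product.2 ⟨hf, mem_ball.2 hv'⟩, ?_⟩
    simp only [Finset.mem_filter, Finset.mem_univ, true_and, mem_cjs]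
    have h9 : y = e * wprod w * v⁻¹ := by rw [h3]; simp
    rw [h9] at h8
    simpa [mul_assoc] using h8
  · rw [Finset.card_product, mul_comm]
    exact_mod_cast Nat.mul_le_mul (card_ball_le _) hG

/-- the nearest unfolded point lies in the support -/
theorem exists_hole (hC : Ctx 𝔇 i) (hM : MC 𝔇 i vw τ P) (z : Z) {e : Gam p}
    (he : Con 𝔇 i (τ z) 0 1 e) {R : ℕ} (h : ∃ u c, len u ≤ R ∧ τ z (e * u) (1, some c) = 0) :
    ∃ u c, len u ≤ R ∧ e * u ∈ Dm 0 (τ z) ∧ τ z (e * u) (1, some c) = 0 := by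
  classical
  have hi : 1 ≤ i - 1 := by have := hC.two; omega
  have hex : ∃ m, ∃ u c, len u = m ∧ τ z (e * u) (1, some c) = 0 := by
    obtain ⟨u, c, -, h1⟩ := h
    exact ⟨_, u, c, rfl, h1⟩
  obtain ⟨u, c, h1, h2⟩ := Nat.find_spec hex
  obtain ⟨u₀, c₀, h3, h4⟩ := h
  have h5 : Nat.find hex ≤ len u₀ := Nat.find_min' hex ⟨u₀, c₀, rfl, h4⟩
  refine ⟨u, c, by omega, ?_, h2⟩
  rcases Nat.eq_zero_or_pos (len u) with h6 | h6
  · rw [len_eq_zero h6, mul_one]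
    refine (hM.tow z).Dm_anti (Nat.zero_le _) ?_
    rw [hM.dm z]
    exact subset_Nb _ _ (mem_of_con hM z he)
  · obtain ⟨y, j, a, rfl, h7⟩ := len_succ (x := u) (n := len u - 1) (by omega)
    have h8 : τ z (e * y) (1, some 0) ≠ 0 := fun h9 =>
      Nat.find_min hex (m := len y) (by omega) ⟨y, 0, rfl, h9⟩
    have h9 : Dm 0 (τ z) = _ := (hM.tow z 1 le_rfl hi).1
    rw [h9, ← mul_assoc]
    exact mul_mem_Nb (Or.inr ⟨0, h8⟩)
      ((len_gen_le j a).trans (theta_pos (hC.th.ok le_rfl hi).2.1))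

theorem arith {g a θ R x y : ℕ} (hg : 10 ^ 4 * (a + θ) ≤ g) (hθ : 1 ≤ θ) (hR : R ≤ a)
    (h1 : g ≤ x + y) (h2 : y ≤ a + R) : 1000 * θ < x := by
  norm_num at hg
  omega

end Hole

open Hole in
theorem hole (h1 : SpreadStmt) (h2 : Tree2Stmt) (h3 : VUStmt) : HoleStmt := by
  intro p _ N g₁ 𝔇 i hN hL hC Z vw τ P hM z
  have hi : 1 ≤ i := le_trans (by norm_num) hC.two
  have hH := (hC.th.2.1 _ le_rfl).1
  have hm := hH _ (hM.val z).1
  have hT := h2 p 𝔇 i hC.rule hC.rx hH (τ z) (hM.val z).1 0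
  by_cases hs : ∀ g z', P z g z' → rd 𝔇 i (τ z) 0 1 g ≤ (𝔇 i).n
  · exact Or.inl fun σ hσ hl => (h3 p 𝔇 i hi hC.th hC.rule hC.const 0 σ hσ).2.2 _ _
      (isV_of_small h3 hC hM z hT hs) (hM.val z).1 hl (Le.refl _)
  right
  push Not at hs
  obtain ⟨g, z', hg, hn⟩ := hs
  obtain ⟨R, hR, hv⟩ := hC.rx.vol
  have hθ := theta_pos hC.const
  have hJ := hC.rx.J
  obtain ⟨e, he, hr⟩ := hT.geo 1 g (R + 3 * (𝔇 i).θ + 1)
    (con_of_mem hM z (subset_Sat _ _ ⟨z', hg⟩)) (by omega)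
  obtain ⟨q1, q2⟩ := hT.qi 1 e he
  rw [hr] at q1 q2
  have q3 : R + 1000 * (𝔇 i).θ < dj 𝔇 (i - 1) (τ z) 1 e := by omega
  have hl : 1 ≤ (𝔇 i).l := by
    rcases Nat.eq_zero_or_pos (𝔇 i).l with h | h
    · rw [h, zero_mul] at q2; omega
    · exact h
  have q4 : dj 𝔇 (i - 1) (τ z) 1 e ≤ (𝔇 i).n * (𝔇 i).l := by
    rw [mul_comm]
    exact q2.trans (Nat.mul_le_mul_left _ (by omega))
  have q5 : R ≤ (𝔇 i).n * (𝔇 i).l := le_trans (by omega) (Nat.le_mul_of_pos_right _ hl)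
  obtain ⟨u, c, hu, hq, h0⟩ := exists_hole hC hM z he
    (exists_miss h1 hN hL hC hM z hT he (by rw [hm.symm]; omega) hv)
  refine ⟨e * u, c, hq, h0, fun l g' hg' hk => ?_⟩
  have e1 : dj 𝔇 (i - 1) (τ z) 1 (g' * (e * u)) ≤ len (l * (e * u)) := by
    rw [← dj_mul_right hk]
    exact dj_le (by simp [mul_assoc])
  have e2 : dj 𝔇 (i - 1) (τ z) e (e * u) ≤ R := (dj_le_len _ _ e u).trans hu
  refine lt_of_lt_of_le ?_ e1
  by_cases hK : g' ∈ K 𝔇 (i - 1) (τ z)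
  · rw [dj_mul_right hK]
    have := hm.tri 1 (e * u) e
    rw [hm.symm (e * u) e] at this
    omega
  · have e3 := (hM.disp z g' hg' hK).trans (hm.tri 1 (g' * (e * u)) g')
    have e4 := dj_stab (𝔇 := 𝔇) (j := i - 1) (hM.hom z g' z hg') (e * u) 1
    rw [mul_one, hm.symm (e * u) 1] at e4
    rw [e4] at e3
    exact arith hC.const.g hθ q5 e3 ((hm.tri 1 e (e * u)).trans (Nat.add_le_add q4 e2))

end Pool.Agent.MP_735563_an.H2
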