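import Pool.Agent.MP_735563_an.H2.Spec1

set_option autoImplicit false

/-! Sums over cosets, mass transport, and graphs with exact type statistics. -/

open MeasureTheory

namespace Pool.Agent.MP_735563_an.H2

namespace MTP

variable {p : ℕ} [NeZero p]

theorem ncl_congr (K : Subgroup (Gam p)) (r : ℕ) {t u : Gam p} (h : t * u⁻¹ ∈ K) :
    ncl K r t = ncl K r u := by
  classical
  unfold ncl
  congr 1
  refine Finset.filter_congr fun v _ => ⟨fun h1 => ?_, fun h1 => ?_⟩
  · simpa [mul_assoc] using K.mul_mem h1 h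
  · simpa [mul_assoc] using K.mul_mem h1 (K.inv_mem h)

theorem ncl_cjs (K : Subgroup (Gam p)) (r : ℕ) (u : Gam p) :
    ncl (cjs u K) r u = ncl K r u⁻¹ := by
  unfold ncl
  refine Finset.card_bij' (fun v _ => v⁻¹) (fun v _ => v⁻¹) ?_ ?_ (by simp) (by simp)
  · intro v hv
    simp only [Finset.mem_filter, mem_ball, mem_cjs] at hv ⊢
    refine ⟨by rw [len_inv]; exact hv.1, ?_⟩
    simpa [mul_assoc] using K.inv_mem hv.2
  · intro v hv
    simp only [Finset.mem_filter, mem_ball, mem_cjs] at hv ⊢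
    refine ⟨by rw [len_inv]; exact hv.1, ?_⟩
    simpa [mul_assoc] using K.inv_mem hv.2

theorem meas_ncl {X : Type} [MeasurableSpace X] (𝒦 : X → Subgroup (Gam p))
    (h : ∀ u, MeasurableSet {x | u ∈ 𝒦 x}) (r : ℕ) (u : Gam p) :
    Measurable fun x => (ncl (𝒦 x) r u : ℝ) := by
  classical
  have : (fun x => (ncl (𝒦 x) r u : ℝ)) =
      fun x => ∑ v ∈ ball p r, if v * u⁻¹ ∈ 𝒦 x then (1 : ℝ) else 0 := by
    funext x
    unfold ncl
    rw [Finset.sum_boole]
  rw [this]
  exact Finset.measurable_sum _ fun v _ =>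
    Measurable.ite (h _) measurable_const measurable_const

theorem abs_div_le {a b : ℝ} (h : |a| ≤ b) (n : ℕ) : |a / n| ≤ b := by
  rcases Nat.eq_zero_or_pos n with rfl | hn
  · simpa using (abs_nonneg a).trans h
  · rw [abs_div, Nat.abs_cast]
    exact (div_le_self (abs_nonneg a) (by exact_mod_cast hn)).trans h

end MTP

open MTP

theorem csumS : CsumStmt := by
  classical
  intro p _ K r F T hF hT h1 h2
  have key : ∀ u ∈ ball p r, F u / ncl K r u =
      ∑ t ∈ T, if u * t⁻¹ ∈ K then F t / ncl K r t else 0 := by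
    intro u hu
    by_cases h : ∃ t ∈ T, t * u⁻¹ ∈ K
    · obtain ⟨t, ht, htu⟩ := h
      have hut : u * t⁻¹ ∈ K := by simpa using K.inv_mem htu
      rw [Finset.sum_eq_single_of_mem t ht, if_pos hut, ncl_congr K r htu]
      · have := hF _ htu u
        rw [inv_mul_cancel_right] at this
        rw [this]
      · intro t' ht' hne
        rw [if_neg]
        intro h3
        exact hne (hT t' ht' t ht (by simpa [mul_assoc] using K.mul_mem htu h3))
    · have h3 : F u = 0 := by
        by_contra h4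
        exact h (h1 u (mem_ball.1 hu) h4)
      rw [h3, zero_div]
      refine (Finset.sum_eq_zero fun t ht => if_neg fun h4 => h ⟨t, ht, ?_⟩).symm
      simpa using K.inv_mem h4
  unfold csum
  rw [Finset.sum_congr rfl key, Finset.sum_comm]
  refine Finset.sum_congr rfl fun t ht => ?_
  rw [← Finset.sum_filter, Finset.sum_const, nsmul_eq_mul]
  have h3 : ((ball p r).filter fun v => v * t⁻¹ ∈ K).card = ncl K r t := by
    unfold ncl
    congr
  rw [h3]
  by_cases h4 : F t = 0
  · simp [h4]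
  · obtain ⟨u, hu, htu⟩ := h2 t ht h4
    have h5 : ncl K r t ≠ 0 := by
      rw [← h3]
      exact Finset.card_ne_zero.2 ⟨u, Finset.mem_filter.2 ⟨mem_ball.2 hu,
        by simpa using K.inv_mem htu⟩⟩
    have h6 : (ncl K r t : ℝ) ≠ 0 := by exact_mod_cast h5
    field_simp

theorem mtp : MTPStmt := by
  intro p _ X _ _ ν _ hν 𝒦 hK hm F b r hF hb
  have hG : ∀ u, Measurable fun x => F x u / (ncl (𝒦 x) r u : ℝ) := fun u =>
    (hF u).div (meas_ncl 𝒦 hm r u)
  have hG' : ∀ u : Gam p, Measurable fun x => F (u⁻¹ • x) u⁻¹ / (ncl (𝒦 x) r u : ℝ) := fun u =>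
    ((hF u⁻¹).comp (hν u⁻¹).measurable).div (meas_ncl 𝒦 hm r u)
  unfold csum
  rw [integral_finsetSum, integral_finsetSum]
  · refine Finset.sum_bij' (fun v _ => v⁻¹) (fun v _ => v⁻¹) ?_ ?_ (by simp) (by simp) ?_
    · intro v hv
      rw [mem_ball] at hv ⊢
      rwa [len_inv]
    · intro v hv
      rw [mem_ball] at hv ⊢
      rwa [len_inv]
    · intro u _
      have h1 := integral_map (μ := ν) (hν u).measurable.aemeasurable
        (f := fun x => F x u / (ncl (𝒦 x) r u : ℝ)) (hG u).aestronglyMeasurable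
      rw [(hν u).map_eq] at h1
      rw [h1]
      refine integral_congr_ae (ae_of_all _ fun x => ?_)
      have h2 : 𝒦 x = cjs u⁻¹ (𝒦 (u • x)) := by rw [← hK, inv_smul_smul]
      simp only [inv_inv]
      rw [h2, ncl_cjs, inv_inv]
  · intro u _
    exact Integrable.of_bound (hG' u).aestronglyMeasurable b
      (ae_of_all _ fun x => abs_div_le (hb _ _) _)
  · intro u _
    exact Integrable.of_bound (hG u).aestronglyMeasurable b
      (ae_of_all _ fun x => abs_div_le (hb _ _) _)

namespace MTP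

theorem exists_den {V : Type} [Fintype V] (w : V → ℚ) (hw : ∀ v, 0 < w v) :
    ∃ (M : ℕ) (n : V → ℕ), 0 < M ∧ ∀ v, (n v : ℚ) = M * w v := by
  classical
  refine ⟨∏ v, (w v).den, fun v => (∏ v' ∈ Finset.univ.erase v, (w v').den) * (w v).num.toNat,
    Finset.prod_pos fun v _ => (w v).den_pos, fun v => ?_⟩
  rw [← Finset.prod_erase_mul _ _ (Finset.mem_univ v)]
  have h1 : (((w v).num.toNat : ℕ) : ℚ) = ((w v).num : ℚ) := by
    have := Int.toNat_of_nonneg (Rat.num_pos.2 (hw v)).le
    exact_mod_cast this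
  have h2 : ((w v).den : ℚ) * w v = (w v).num := Rat.den_mul_eq_num (w v)
  rw [Nat.cast_mul, Nat.cast_mul, h1, mul_assoc, h2]

theorem exists_perm {E Hh : Type} [Fintype E] (T : E → Hh) (bar : Hh → Hh)
    (h1 : ∀ e, bar (bar (T e)) = T e)
    (h2 : ∀ e, Nat.card {x // T x = T e} = Nat.card {x // T x = bar (T e)}) :
    ∃ σ : E ≃ E, ∀ e, T (σ e) = bar (T e) := by
  have key : ∀ h, Nat.card {x // bar (T x) = h} = Nat.card {x // T x = h} := by
    intro h
    by_cases hh : ∃ e, T e = h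
    · obtain ⟨e, rfl⟩ := hh
      rw [h2 e]
      refine Nat.card_congr (Equiv.subtypeEquivRight fun x => ⟨fun hx => ?_, fun hx => ?_⟩)
      · rw [← hx, h1]
      · rw [hx, h1]
    · have h3 : IsEmpty {x // T x = h} := ⟨fun x => hh ⟨x.1, x.2⟩⟩
      have h4 : IsEmpty {x // bar (T x) = h} := by
        refine ⟨fun x => ?_⟩
        have h5 := h2 x.1
        rw [x.2, Nat.card_of_isEmpty (α := {x // T x = h})] at h5
        have : Nonempty {y // T y = T x.1} := ⟨⟨x.1, rfl⟩⟩
        exact (Nat.card_pos (α := {y // T y = T x.1})).ne' h5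
      rw [Nat.card_of_isEmpty, Nat.card_of_isEmpty]
  have e : ∀ h, {x // bar (T x) = h} ≃ {x // T x = h} := fun h =>
    (Finite.card_eq.1 (key h)).some
  exact ⟨Equiv.ofFiberEquiv (f := fun x => bar (T x)) (g := T) e,
    fun x => Equiv.ofFiberEquiv_map (f := fun x => bar (T x)) (g := T) e x⟩

end MTP

theorem matchS : MatchStmt := by
  classical
  intro V A Hh _ w H ty bar ⟨hw, hbar, hbal⟩
  obtain ⟨M, n, hM, hn⟩ := exists_den w hw
  let E := Σ v : V, Fin (n v) × {a // a ∈ H v}
  let T : E → Hh := fun e => ty e.1 e.2.2.1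
  have hc : ∀ h, (Nat.card {x : E // T x = h} : ℚ) =
      M * ∑ v, w v * ((H v).filter fun a => ty v a = h).card := by
    intro h
    rw [Nat.card_eq_fintype_card, Fintype.card_subtype, ← Finset.sum_boole, Fintype.sum_sigma,
      Finset.mul_sum]
    refine Finset.sum_congr rfl fun v _ => ?_
    rw [Fintype.sum_prod_type, ← mul_assoc, ← hn]
    have h1 : ∀ i : Fin (n v), (∑ a : {a // a ∈ H v}, if T ⟨v, i, a⟩ = h then (1 : ℚ) else 0) =
        ((H v).filter fun a => ty v a = h).card := by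
      intro i
      rw [← Finset.sum_boole]
      exact Finset.sum_coe_sort (H v) fun a => if ty v a = h then (1 : ℚ) else 0
    rw [Finset.sum_congr rfl fun i _ => h1 i, Finset.sum_const, Finset.card_univ,
      Fintype.card_fin, nsmul_eq_mul]
  obtain ⟨σ, hσ⟩ := exists_perm T bar (fun e => hbar _ _ e.2.2.2) (by
    intro e
    have h1 := hc (T e)
    have h2 := hc (bar (T e))
    have h3 := hbal e.1 e.2.2.1 e.2.2.2
    have h4 : (Nat.card {x : E // T x = T e} : ℚ) = Nat.card {x : E // T x = bar (T e)} := by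
      rw [h1, h2]
      congr 1
    exact_mod_cast h4)
  let Z := (Σ v : V, Fin (n v)) × Bool
  let emb : E × Bool → Z × A := fun x => ((⟨x.1.1, x.1.2.1⟩, x.2), x.1.2.2.1)
  let s : E × Bool → E × Bool := fun x => (if x.2 then σ.symm x.1 else σ x.1, !x.2)
  let nx : Z × A → Z × A := fun e =>
    if h : e.2 ∈ H e.1.1.1 then emb (s (⟨e.1.1.1, e.1.1.2, e.2, h⟩, e.1.2)) else e
  have hnx : ∀ x, nx (emb x) = emb (s x) := by
    rintro ⟨⟨v, i, a, ha⟩, c⟩
    simp only [nx, emb, dif_pos ha]
  have hs : ∀ x, s (s x) = x := by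
    rintro ⟨e, c⟩
    cases c <;> simp [s]
  have hT : ∀ x, T (s x).1 = bar (T x.1) := by
    rintro ⟨e, c⟩
    cases c
    · simpa [s] using hσ e
    · have h1 := hσ (σ.symm e)
      rw [σ.apply_symm_apply] at h1
      have h2 : bar (bar (T (σ.symm e))) = T (σ.symm e) := hbar _ _ (σ.symm e).2.2.2
      simp only [s, if_true]
      rw [h1, h2]
  refine ⟨Z, inferInstance, 2 * M, fun z => z.1.1, nx, by omega, fun v => ?_, ?_⟩
  · rw [← Finset.sum_boole, Fintype.sum_prod_type, Fintype.sum_sigma]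
    rw [Finset.sum_eq_single v]
    · simp only [if_true, Finset.sum_const, Finset.card_univ, Fintype.card_bool, Fintype.card_fin,
        nsmul_eq_mul, hn]
      push_cast
      ring
    · intro v' _ hv'
      simp [hv']
    · simp
  · rintro ⟨⟨⟨v, i⟩, c⟩, a⟩ ha
    have h1 : ((⟨⟨v, i⟩, c⟩, a) : Z × A) = emb (⟨v, i, a, ha⟩, c) := rfl
    rw [h1, hnx, hnx, hs]
    refine ⟨(s _).1.2.2.2, rfl, fun h => ?_, hT _⟩
    have h2 := congrArg Prod.snd h
    simp [emb, s] at h2

end Pool.Agent.MP_735563_an.H2
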