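import Pool.Agent.MP_735563_an.H2.Spec2

set_option autoImplicit false

/-! The data of level one. -/

namespace Pool.Agent.MP_735563_an.H2

namespace One

variable {p : ℕ}

/-- the radius of level one -/
noncomputable def th : ℕ := Classical.choose (p := fun n : ℕ => n = 7004000000) ⟨_, rfl⟩

/-- the girth of level one -/
noncomputable def gi : ℕ := Classical.choose (p := fun n : ℕ => n = 10010000 * th) ⟨_, rfl⟩

open Classical in
/-- the model of level one -/
noncomputable def tau (c : Fin 3) : St p := fun q κ =>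
  if κ = (1, none) ∧ q ∈ Nb th (AB (p := p) c : Set (Gam p)) then 1
  else if κ = (1, some c) ∧ q ∈ AB c then 1 else 0

/-- the data of level one -/
noncomputable def lev (N : Fin 3 → Subgroup (Gam p)) (D : ℕ) : Lev p where
  δ := 10 * (D + gi)
  κ := 0
  J := 0
  l := 1
  ρ := 0
  Δ := 7000
  θ := th
  n := 1000 * th
  g := gi
  D := D
  nE := 1
  M := fun _ => 1
  Z := fun _ => {1}
  L := fun c _ => N c
  τ := fun c _ => tau c
  φ := fun _ _ => 1
  cen := fun _ _ => True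
  nb := fun _ c => {w | ∃ i a, i ≠ c ∧ a ≠ 0 ∧ w = gen i a}

theorem th_eq : th = 7004000000 := 
  Classical.choose_spec (p := fun n : ℕ => n = 7004000000) ⟨_, rfl⟩

theorem gi_eq : gi = 10010000 * th :=
  Classical.choose_spec (p := fun n : ℕ => n = 10010000 * th) ⟨_, rfl⟩

theorem two_le_th : 2 ≤ th := by
  have := th_eq
  omega

theorem gi_big : 2000 * th + 2 ≤ gi := by
  have := two_le_th
  have := gi_eq
  omega

theorem gen_mem {c i : Fin 3} (h : i ≠ c) (a : ZMod p) : gen i a ∈ AB c :=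
  Subgroup.subset_closure ⟨i, a, h, rfl⟩

theorem tau_none {c : Fin 3} {q : Gam p} :
    tau c q (1, none) ≠ 0 ↔ q ∈ Nb th (AB (p := p) c : Set (Gam p)) := by
  by_cases h : q ∈ Nb th (AB (p := p) c : Set (Gam p)) <;> simp [tau, h]

theorem tau_some {c c' : Fin 3} {q : Gam p} :
    tau c q (1, some c') ≠ 0 ↔ c' = c ∧ q ∈ AB c := by
  by_cases h : c' = c ∧ q ∈ AB c
  · simp [tau, h.1, h.2]
  · simp only [tau, Prod.mk.injEq, true_and, reduceCtorEq, false_and, if_false, Option.some.injEq,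
      h, ne_eq, not_true_eq_false]

theorem tau_cases {c : Fin 3} {q : Gam p} {κ : Kind} (h : tau c q κ ≠ 0) :
    tau c q κ = 1 ∧ ((κ = (1, none) ∧ q ∈ Nb th (AB (p := p) c : Set (Gam p))) ∨
      (κ = (1, some c) ∧ q ∈ AB c)) := by
  unfold tau at h ⊢
  split_ifs at h ⊢ with h1 h2
  · exact ⟨rfl, Or.inl h1⟩
  · exact ⟨rfl, Or.inr h2⟩
  · exact absurd rfl h

theorem tr_tau {c : Fin 3} {g : Gam p} (hg : g ∈ AB c) : tr g (tau c) = tau c := by
  have hP : ∀ k ∈ AB (p := p) c, ∀ y ∈ (AB (p := p) c : Set (Gam p)), k * y ∈ (AB (p := p) c : Set (Gam p)) :=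
    fun k hk y hy => mul_mem hk hy
  funext q κ
  have h1 : g⁻¹ * q ∈ Nb th (AB (p := p) c : Set (Gam p)) ↔ q ∈ Nb th (AB (p := p) c : Set (Gam p)) :=
    ⟨fun h => by simpa using Nb_inv hP th g hg _ h, fun h => Nb_inv hP th _ (inv_mem hg) _ h⟩
  have h2 : g⁻¹ * q ∈ AB c ↔ q ∈ AB c := Subgroup.mul_mem_cancel_left _ (inv_mem hg)
  classical
  exact if_congr (and_congr_right' h1) rfl (if_congr (and_congr_right' h2) rfl rfl)

theorem lv_tau (c : Fin 3) : Lv 1 (tau (p := p) c) := by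
  intro x κ h
  rcases (tau_cases h).2 with h1 | h1
  · rw [h1.1, rk_none]; omega
  · rw [h1.1, rk_some]; omega

/-- an alternating word -/
theorem exists_alt (hL : LenStmt) (hp : 2 ≤ p) (c : Fin 3) (m : ℕ) :
    ∃ q : Gam p, q ∈ AB c ∧ len q = m := by
  have : Fact (1 < p) := ⟨hp⟩
  obtain ⟨f, hf1, hf2⟩ : ∃ f : ℕ → Fin 3, (∀ t, f t ≠ c) ∧ ∀ t, f t ≠ f (t + 1) := by
    refine ⟨fun t => if t % 2 = 0 then c + 1 else c + 2, fun t => ?_, fun t => ?_⟩
    · dsimp only
      split_ifs <;> revert c <;> decide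
    · by_cases h : t % 2 = 0
      · have h' : ¬ (t + 1) % 2 = 0 := by omega
        simp only [h, h', if_true, if_false]
        revert c; decide
      · have h' : (t + 1) % 2 = 0 := by omega
        simp only [h, h', if_true, if_false]
        revert c; decide
  refine ⟨lprod ((List.range m).map fun t => (f t, (1 : ZMod p))), ?_, ?_⟩
  · induction m with
    | zero => exact one_mem _
    | succ m ih =>
      rw [List.range_succ, List.map_append, lprod_append]
      exact mul_mem ih (by simpa [lprod] using gen_mem (hf1 m) _)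
  · rw [(hL p).2.1]
    · simp
    · simp
    · rw [List.isChain_iff_getElem]
      intro t ht
      simpa using hf2 t

section

variable {𝔇 : ℕ → Lev p} {N : Fin 3 → Subgroup (Gam p)} {D : ℕ}

theorem adj_iff (h : 𝔇 1 = lev N D) {s : St p} {c : Fin 3} {a b : Gam p} :
    Adj 𝔇 1 s c a b ↔ ∃ i z, i ≠ c ∧ z ≠ 0 ∧ b = a * gen i z := by
  simp only [Adj, cenA, nbA, h, Nat.sub_self, K_zero, Subgroup.mem_bot, mul_inv_eq_one]
  constructor
  · rintro ⟨-, w, ⟨i, z, h1, h2, rfl⟩, h3⟩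
    exact ⟨i, z, h1, h2, h3⟩
  · rintro ⟨i, z, h1, h2, h3⟩
    exact ⟨trivial, _, ⟨i, z, h1, h2, rfl⟩, h3⟩

theorem path_mem (h : 𝔇 1 = lev N D) {s : St p} {c : Fin 3} {x : ℕ → Gam p} {n : ℕ}
    (hx : RPath 𝔇 1 s c x n) : ∀ t ≤ n, (x 0)⁻¹ * x t ∈ AB c := by
  intro t
  induction t with
  | zero => intro _; simp
  | succ t ih =>
    intro ht
    obtain ⟨i, z, h1, -, h3⟩ := (adj_iff h).1 (hx.2 t ht)
    rw [h3, ← mul_assoc]
    exact mul_mem (ih (by omega)) (gen_mem h1 z)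

/-- consecutive steps of a shortest path use different factors -/
theorem short_ne (h : 𝔇 1 = lev N D) {s : St p} (hs : ValZ 𝔇 (1 - 1) s) {c : Fin 3}
    {x : ℕ → Gam p} {n : ℕ} (hx : Short 𝔇 1 s c x n) {t : ℕ} (ht : t + 2 ≤ n) {i : Fin 3}
    (hi : i ≠ c) {a b : ZMod p} (h1 : x (t + 1) = x t * gen i a)
    (h2 : x (t + 2) = x (t + 1) * gen i b) : False := by
  have h3 := hx.sub hs (a := t) (b := 2) ht
  have h4 : x (t + 2) = x t * gen i (a + b) := by rw [h2, h1, gen_add, mul_assoc]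
  by_cases hab : a + b = 0
  · rw [hab, gen_zero, mul_one] at h4
    have := h3.2 (fun _ => x t) 0 ⟨fun _ _ => hx.1.1 t (by omega), fun _ h => by omega⟩ rfl
      (by simp [h4])
    omega
  · have := h3.2 (fun u => if u = 0 then x t else x (t + 2)) 1 ⟨fun u _ => by
      by_cases hu : u = 0
      · simpa [hu] using hx.1.1 t (by omega)
      · simpa [hu] using hx.1.1 (t + 2) ht, fun u hu => by
      obtain rfl : u = 0 := by omega
      exact (adj_iff h).2 ⟨i, a + b, hi, hab, by simpa using h4⟩⟩ rfl (by simp)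
    omega

/-- a shortest path is a geodesic -/
theorem short_d0 (hL : LenStmt) (h : 𝔇 1 = lev N D) {s : St p} (hs : ValZ 𝔇 (1 - 1) s) {c : Fin 3}
    {x : ℕ → Gam p} {n : ℕ} (hx : Short 𝔇 1 s c x n) {t k : ℕ} (htk : t + k ≤ n) :
    d0 (x t) (x (t + k)) = k := by
  have h0 : ∀ u, ∃ q : Fin 3 × ZMod p, u < n →
      q.1 ≠ c ∧ q.2 ≠ 0 ∧ x (u + 1) = x u * gen q.1 q.2 := by
    intro u
    by_cases hu : u < n
    · obtain ⟨i, z, h1⟩ := (adj_iff h).1 (hx.1.2 u hu)
      exact ⟨(i, z), fun _ => h1⟩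
    · exact ⟨(0, 0), fun h1 => absurd h1 hu⟩
  choose q hq using h0
  have h1 : ∀ k, t + k ≤ n → x (t + k) = x t * lprod ((List.range k).map fun u => q (t + u)) := by
    intro k
    induction k with
    | zero => intro _; simp [lprod]
    | succ k ih =>
      intro hk
      rw [List.range_succ, List.map_append, lprod_append, ← mul_assoc, ← ih (by omega),
        ← add_assoc, (hq (t + k) (by omega)).2.2]
      simp [lprod]
  rw [h1 k htk, d0_mul_right, (hL p).2.1]
  · simp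
  · intro r hr
    obtain ⟨u, hu, rfl⟩ := List.mem_map.1 hr
    exact (hq _ (by have := List.mem_range.1 hu; omega)).2.1
  · rw [List.isChain_iff_getElem]
    intro u hu
    have hu' : u + 1 < k := by simpa using hu
    simp only [List.getElem_map, List.getElem_range]
    intro he
    refine short_ne h hs hx (t := t + u) (by omega) (hq (t + u) (by omega)).1
      (hq (t + u) (by omega)).2.2 (b := (q (t + u + 1)).2) ?_
    rw [he]
    exact (hq (t + u + 1) (by omega)).2.2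

theorem short_btw (hL : LenStmt) (h : 𝔇 1 = lev N D) {s : St p} (hs : ValZ 𝔇 (1 - 1) s)
    {c : Fin 3} {x : ℕ → Gam p} {n : ℕ} (hx : Short 𝔇 1 s c x n) {t : ℕ} (ht : t ≤ n) :
    d0 (x 0) (x t) = t ∧ d0 (x t) (x n) = n - t ∧ Btw d0 (x 0) (x t) (x n) := by
  have h1 := short_d0 hL h hs hx (t := 0) (k := t) (by omega)
  have h2 := short_d0 hL h hs hx (t := t) (k := n - t) (by omega)
  have h3 := short_d0 hL h hs hx (t := 0) (k := n) (by omega)
  rw [zero_add] at h1 h3
  rw [show t + (n - t) = n by omega] at h2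
  refine ⟨h1, h2, ?_⟩
  unfold Btw
  omega

theorem short_eq (hL : LenStmt) (h : 𝔇 1 = lev N D) {s : St p} (hs : ValZ 𝔇 (1 - 1) s)
    {c : Fin 3} {x : ℕ → Gam p} {n : ℕ} (hx : Short 𝔇 1 s c x n) {m : Gam p}
    (hm : Btw d0 (x 0) m (x n)) : ∃ t ≤ n, m = x t := by
  have h1 := (short_btw hL h hs hx le_rfl).1
  have h2 : d0 (x 0) m ≤ n := by unfold Btw at hm; omega
  have h3 := short_btw hL h hs hx h2
  exact ⟨_, h2, (hL p).2.2.1 _ _ _ _ hm h3.2.2 h3.1.symm⟩

theorem ruleOK (hL : LenStmt) (h0 : (𝔇 0).δ = 2) (h : 𝔇 1 = lev N D) : RuleOK 𝔇 1 where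
  nE_pos := by rw [h]; exact Nat.one_pos
  loc := fun M M' c _ => by rw [h]; exact ⟨id, subset_rfl⟩
  len := by
    rw [h]
    rintro M c w ⟨i, a, -, -, rfl⟩
    exact len_gen_le i a
  sym := fun s _ c a b _ _ hab => by
    obtain ⟨i, z, h1, h2, h3⟩ := (adj_iff h).1 hab
    exact (adj_iff h).2 ⟨i, -z, h1, neg_ne_zero.2 h2, by rw [h3, gen_neg]; simp⟩
  qg := fun s hs c x n hx => by
    rw [Nat.sub_self, dj_zero]
    refine ⟨by have := (short_btw hL h hs hx le_rfl).1; omega, fun m hm => ?_⟩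
    obtain ⟨t, ht, rfl⟩ := short_eq hL h hs hx hm
    exact ⟨t, ht, by rw [(hL p).1.refl]; exact Nat.zero_le _⟩
  ov := fun s hs c c' x n y n' hx hy h1 h2 h3 => by
    rw [Nat.sub_self, dj_zero, h0, h] at h1 h2
    rw [Nat.sub_self, dj_zero, h] at h3
    change _ ≤ 1000 * (2 + 0 + 1) at h1 h2
    change 7000 < _ at h3
    rw [(short_btw hL h hs hx le_rfl).1] at h3
    have key : ∀ t, 3000 < t → t ≤ 3003 → ∃ t' ≤ n', x t = y t' := by
      intro t ht1 ht2
      have h4 := short_btw hL h hs hx (t := t) (by omega)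
      exact short_eq hL h hs hy ((hL p).2.2.2.2.1 _ _ _ _ _ h4.2.2 (by omega) (by omega))
    have key2 : ∀ t, 3000 < t → t + 1 ≤ 3003 → ∀ i a, a ≠ 0 → x (t + 1) = x t * gen i a →
        i ≠ c' := by
      intro t ht1 ht2 i a ha he
      obtain ⟨t1, h4, h5⟩ := key t ht1 (by omega)
      obtain ⟨t2, h6, h7⟩ := key (t + 1) (by omega) ht2
      refine (hL p).2.2.2.2.2 c' i a ha ?_
      have := mul_mem (inv_mem (path_mem h hy.1 t1 h4)) (path_mem h hy.1 t2 h6)
      rw [← h5, ← h7, he] at this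
      simpa [mul_assoc] using this
    refine ⟨?_, 3001, by omega, ?_⟩
    · obtain ⟨i, a, h4, h5, h6⟩ := (adj_iff h).1 (hx.1.2 3001 (by omega))
      obtain ⟨j, b, h7, h8, h9⟩ := (adj_iff h).1 (hx.1.2 (3001 + 1) (by omega))
      have h10 : i ≠ j := by
        rintro rfl
        exact short_ne h hs hx (t := 3001) (by omega) h4 h6 h9
      have h11 := key2 3001 (by omega) (by omega) i a h5 h6
      have h12 := key2 (3001 + 1) (by omega) (by omega) j b h8 h9
      omega
    · obtain ⟨t', h4, h5⟩ := key 3001 (by omega) (by omega)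
      exact ⟨t', h4, by rw [h5]; simp⟩

theorem constA (h0 : (𝔇 0).δ = 2) (h : 𝔇 1 = lev N D) : ConstA 𝔇 1 := by
  have h1 : (𝔇 1).κ = 0 := by rw [h]; rfl
  have h2 : (𝔇 1).Δ = 7000 := by rw [h]; rfl
  have h3 : (𝔇 1).l = 1 := by rw [h]; rfl
  have h4 : (𝔇 1).ρ = 0 := by rw [h]; rfl
  have h5 : (𝔇 1).θ = th := by rw [h]; rfl
  have h6 : (𝔇 1).J = 0 := by rw [h]; rfl
  have h7 : (𝔇 1).n = 1000 * th := by rw [h]; rfl
  have h8 : (𝔇 1).g = gi := by rw [h]; rfl
  refine ⟨?_, ?_, ?_⟩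
  · rw [Nat.sub_self, h0, h1, h2, h3, h4, h5]
    have := th_eq
    omega
  · rw [h5, h6, h7, add_zero]
  · rw [h7, h3, h5, h8]
    have := gi_eq
    omega

theorem W_one (h : 𝔇 1 = lev N D) {s : St p} (hs : ∀ x κ, s x κ ≠ 0 → κ.1 = 1) : W 𝔇 s = 1 := by
  unfold W
  split_ifs with hex
  · refine Finset.prod_eq_one fun a ha => ?_
    have h1 := hs _ _ (hex.choose_spec.1 a ha)
    obtain ⟨x, i, o⟩ := a
    obtain rfl : i = 1 := h1
    cases o with
    | none => simp [wt, h, lev]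
    | some c => simp [wt, h, lev]
  · rfl

theorem core_eq (h : 𝔇 1 = lev N D) (c : Fin 3) (z : ℕ) : core 𝔇 1 c z = (AB (p := p) c : Set (Gam p)) := by
  ext e
  simp only [core, h, Set.mem_ofPred_eq, SetLike.mem_coe]
  exact tau_some.trans (and_iff_right rfl)

theorem Tn_sub (h : 𝔇 1 = lev N D) (s : St p) (c : Fin 3) (t : ℕ) :
    Tn 𝔇 1 s c 1 t ⊆ (AB (p := p) c : Set (Gam p)) := by
  induction t with
  | zero => rintro y rfl; exact one_mem _
  | succ t ih =>
    rintro y (hy | ⟨a, ha, -, w, hw, rfl⟩)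
    · exact ih hy
    · rw [nbA, h] at hw
      obtain ⟨i, z, h1, -, rfl⟩ := hw
      exact mul_mem (ih ha) (gen_mem h1 z)

theorem conn (hL : LenStmt) (h0 : (𝔇 0).δ = 2) (h : 𝔇 1 = lev N D) (c : Fin 3) :
    ∀ n, ∀ e ∈ AB c, len e = n → ∃ x, RPath 𝔇 1 (tau c) c x n ∧ x 0 = 1 ∧ x n = e := by
  have hrc : ∀ e ∈ AB c, RC 𝔇 1 (tau c) e := by
    intro e he u hu
    rw [Nat.sub_self, h0, h] at hu
    change len u ≤ 2 * 0 + 2 at hu
    exact tau_none.2 (mul_mem_Nb he (by have := two_le_th; omega))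
  intro n
  induction n with
  | zero =>
    intro e he h1
    exact ⟨fun _ => 1, ⟨fun _ _ => hrc 1 (one_mem _), fun _ h => by omega⟩, rfl,
      (len_eq_zero h1).symm⟩
  | succ n ih =>
    intro e he h1
    obtain ⟨y, i, a, rfl, h2⟩ := len_succ h1
    have h3 := len_mul_le y (gen i a)
    have h4 := len_gen_le i a
    have h5 : y ∈ AB c := (hL p).2.2.2.1 c _ y he (by
      unfold Btw
      rw [d0_one, d0_one, d0_mul_right]
      omega)
    have h6 : a ≠ 0 := by
      rintro rfl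
      rw [gen_zero, mul_one] at h1
      omega
    have h7 : i ≠ c := (hL p).2.2.2.2.2 c i a h6 ((Subgroup.mul_mem_cancel_left _ h5).1 he)
    obtain ⟨x, h8, h9, h10⟩ := ih y h5 h2
    refine ⟨fun t => if t ≤ n then x t else y * gen i a, ⟨fun t ht => ?_, fun t ht => ?_⟩,
      by simpa using h9, by simp⟩
    · by_cases h11 : t ≤ n
      · simpa [h11] using h8.1 t h11
      · simpa [h11] using hrc _ he
    · by_cases h11 : t < n
      · simpa [h11.le, Nat.succ_le_of_lt h11] using h8.2 t h11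
      · obtain rfl : t = n := by omega
        exact (adj_iff h).2 ⟨i, a, h7, h6, by simp [h10]⟩

variable [NeZero p]

theorem K_tau (hN : NData p N gi) (h : 𝔇 1 = lev N D) (c : Fin 3) : K 𝔇 1 (tau c) = N c := by
  refine le_antisymm ((Subgroup.closure_le _).2 ?_) fun l hl => ?_
  · rintro u ⟨i, c', x, h1, h2, h3, h4⟩
    obtain rfl : i = 1 := by omega
    obtain ⟨rfl, h5⟩ := tau_some.1 h3
    rw [h] at h4
    simpa [mul_assoc] using hN.normal _ x h5 _ h4
  · have := mem_K (𝔇 := 𝔇) (i := 1) (j := 1) (s := tau c) (x := 1) (l := l) (c := c) le_rfl le_rfl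
      (tau_some.2 ⟨rfl, one_mem _⟩) (by rw [h]; exact hl)
    simpa using this

theorem good_tau (hN : NData p N gi) (hD : ∀ c, ∀ x ∈ AB c, ∃ n ∈ N c, len (n * x) ≤ D)
    (h : 𝔇 1 = lev N D) (c : Fin 3) : Good 𝔇 1 (tau c) := by
  classical
  have hK : Kall 𝔇 (tau c) = N c := by rw [Kall_eq (lv_tau c), K_tau hN h]
  refine ⟨⟨fun i h1 h2 => ?_, fun i h1 h2 x => ?_⟩, lv_tau c, ?_⟩
  · obtain rfl : i = 1 := by omega
    intro x c' hx
    obtain ⟨rfl, h3⟩ := tau_some.1 hx
    rw [h]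
    refine ⟨by rw [(tau_cases hx).1]; exact Finset.mem_singleton_self _, ?_, fun l hl => ?_⟩
    · change Le (tr x (tau c')) _
      rw [tr_tau h3]
      exact Le.refl _
    · exact tr_tau (mul_mem (mul_mem h3 (hN.le _ hl)) (inv_mem h3))
  · by_cases h3 : tau c x (i, none) = 0
    · omega
    · obtain ⟨h4, h5 | h5⟩ := tau_cases h3
      · obtain rfl : i = 1 := (Prod.mk.inj h5.1).1
        rw [h4, h]
        exact le_rfl
      · simpa using h5.1
  · refine exists_isTr (ball p (D + th) ×ˢ {(1, none), (1, some c)})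
      (fun k hk => tr_tau (hN.le c (hK ▸ hk))) fun x κ hx => ?_
    have h1 : κ ∈ ({(1, none), (1, some c)} : Finset Kind) ∧
        x ∈ Nb th (AB (p := p) c : Set (Gam p)) := by
      rcases (tau_cases hx).2 with h2 | h2
      · exact ⟨by simp [h2.1], h2.2⟩
      · exact ⟨by simp [h2.1], subset_Nb _ _ h2.2⟩
    obtain ⟨h2, e, he, u, hu, rfl⟩ := h1
    obtain ⟨n, hn, h3⟩ := hD c e he
    refine ⟨(n * e * u, κ), Finset.mem_product.2 ⟨mem_ball.2 ?_, h2⟩, rfl, ?_⟩
    · have := len_mul_le (n * e) u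
      change len (n * e * u) ≤ _
      omega
    · rw [hK]
      simpa [mul_assoc] using hn

theorem modelAt (hL : LenStmt) (hN : NData p N gi)
    (hD : ∀ c, ∀ x ∈ AB c, ∃ n ∈ N c, len (n * x) ≤ D) (h0 : (𝔇 0).δ = 2) (h : 𝔇 1 = lev N D)
    (c : Fin 3) : ModelAt 𝔇 1 c 1 := by
  have hτ : ∀ c z, (𝔇 1).τ c z = tau c := fun c z => by rw [h]; rfl
  have hLL : ∀ c z, (𝔇 1).L c z = N c := fun c z => by rw [h]; rfl
  have hθ : (𝔇 1).θ = th := by rw [h]; rfl
  refine ⟨one_ne_zero, by rw [h]; exact one_pos, by rw [hτ]; exact good_tau hN hD h c,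
    fun x κ hx => ?_, ?_, tow_zero _, ?_, fun e he => ⟨by rw [cenA, h]; trivial, fun w hw => ?_⟩,
    fun e he => ?_, by rw [hτ, hLL, K_tau hN h], fun e he => ?_, ?_, fun l hl hl' => ?_,
    fun e he => ?_, ?_, Or.inr ?_⟩
  · rw [hτ] at hx
    rcases (tau_cases hx).2 with h1 | h1
    · left; rw [h1.1, rk_none]
    · exact Or.inr h1.1
  · rw [hτ]
    exact (tau_cases (tau_some.2 ⟨rfl, one_mem _⟩)).1
  · rw [hτ, core_eq h, hθ]
    ext q
    exact tau_none
  · rw [core_eq h] at he ⊢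
    rw [nbA, h] at hw
    obtain ⟨i, z, h1, -, rfl⟩ := hw
    exact mul_mem he (gen_mem h1 z)
  · rw [core_eq h] at he
    obtain ⟨x, h1, h2, h3⟩ := conn hL h0 h c _ e he rfl
    exact ⟨x, _, by rw [hτ]; exact h1, h2, by rw [h3]; simp⟩
  · rw [core_eq h] at he
    rw [hτ, hτ]
    exact tr_tau he
  · rw [Nat.sub_self, dj_zero, core_eq h]
    intro a ha b hb m hm
    have h1 : a⁻¹ * m ∈ AB c := (hL p).2.2.2.1 c (a⁻¹ * b) _ (mul_mem (inv_mem ha) hb) (by
      unfold Btw at hm ⊢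
      rw [d0_mul, d0_one, d0_one]
      exact hm)
    exact ⟨m, (Subgroup.mul_mem_cancel_left _ (inv_mem ha)).1 h1, by
      rw [(hL p).1.refl]; exact Nat.zero_le _⟩
  · rw [Nat.sub_self, K_zero, Subgroup.mem_bot] at hl'
    rw [hLL] at hl
    rw [Nat.sub_self, dj_zero, d0_one, h]
    exact hN.girth c l hl hl'
  · rw [core_eq h] at he
    rw [hLL, h]
    exact hD c e he
  · rw [hτ, W_one h fun x κ hx => by rcases (tau_cases hx).2 with h1 | h1 <;> rw [h1.1], h]
    simp [lev]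
  · obtain ⟨q, h1, h2⟩ := exists_alt hL hN.two c (1000 * th + 1)
    refine ⟨q, c + 1, by rw [hτ]; exact tau_none.2 (subset_Nb _ _ h1), ?_, fun l hl => ?_⟩
    · rw [hτ]
      by_contra h3
      have h4 := (tau_some.1 h3).1
      revert h4
      generalize c = c'
      revert c'
      decide
    · rw [hθ]
      rw [hLL] at hl
      by_cases h3 : l = 1
      · rw [h3, one_mul]; omega
      · have h4 := hN.girth c l hl h3
        have h5 := len_mul_le (l * q) q⁻¹
        rw [len_inv, mul_inv_cancel_right] at h5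
        have := gi_big
        omega

theorem modelOK (hL : LenStmt) (hN : NData p N gi)
    (hD : ∀ c, ∀ x ∈ AB c, ∃ n ∈ N c, len (n * x) ≤ D) (h0 : (𝔇 0).δ = 2) (h : 𝔇 1 = lev N D) :
    ModelOK 𝔇 1 where
  δ := by rw [h]; exact le_rfl
  M_pos := fun c => by rw [h]; exact Nat.one_pos
  at' := fun c z hz => by
    rw [h] at hz
    obtain rfl : z = 1 := Finset.mem_singleton.1 hz
    exact modelAt hL hN hD h0 h c
  marg := fun c σ hσ => by
    obtain ⟨h1, -, -, h2⟩ := hσ
    have h3 : ∀ x κ, σ x κ ≠ 0 → κ = (1, none) := by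
      intro x κ hx
      have h4 := h1.2.1 x κ hx
      obtain ⟨i, _ | c'⟩ := κ
      · rw [rk_none] at h4
        obtain rfl : i = 1 := by omega
        rfl
      · rw [rk_some] at h4; omega
    have h4 : Le σ (tau c) := by
      intro x κ hx
      obtain rfl := h3 x κ hx
      have h5 := h1.1.2 1 le_rfl (by omega) x
      have h6 : x ∈ Dm (1 - 1) σ := hx
      rw [h2, Kall_eq h1.2.1, Nat.sub_self, K_zero, h] at h6
      rw [h] at h5
      change _ ≤ 1 at h5
      have h7 : x ∈ Nb th (AB (p := p) c : Set (Gam p)) := Nb_mono le_rfl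
        (Sat_subset (Tn_sub h σ c _) fun k hk y hy => by
          rw [Subgroup.mem_bot.1 hk, one_mul]; exact hy) h6
      rw [(tau_cases (tau_none.2 h7)).1]
      omega
    rw [W_one h fun x κ hx => by rw [h3 x κ hx], h]
    simp [lev, Finset.filter_singleton, h4]

end

end One

open Pool.Agent.MP_735563_an.H2.One in
theorem one (h : LenStmt) : OneStmt := by
  refine ⟨gi, fun p _ N hN => ?_⟩
  obtain ⟨D, hD⟩ := hN.diam
  refine ⟨lev N D, fun 𝔇 h0 h1 => ⟨⟨ruleOK h h0 h1, constA h0 h1, modelOK h hN hD h0 h1⟩,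
    fun c => ?_⟩⟩
  rw [h1]
  exact ⟨fun _ => trivial, fun _ _ => rfl⟩

end Pool.Agent.MP_735563_an.H2
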