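import Pool.Agent.MP_735563_an.H2.Spec3
import Pool.Agent.MP_735563_an.H2.FG

set_option autoImplicit false

/-! Row PW: finitely many pieces fit in one valid state. -/

namespace Pool.Agent.MP_735563_an.H2

namespace PW

variable {p : ℕ} {𝔇 : ℕ → Lev p} {i : ℕ}

theorem path_tr {s : St p} {c : Fin 3} {a b : Gam p} {n : ℕ} (g : Gam p)
    (h : ∃ ξ : ℕ → Gam p, ξ 0 = a ∧ ξ n * b⁻¹ ∈ K 𝔇 (i - 1) s ∧ APath 𝔇 i s c ξ n) :
    ∃ ξ : ℕ → Gam p, ξ 0 = g * a ∧ ξ n * (g * b)⁻¹ ∈ K 𝔇 (i - 1) (tr g s) ∧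
      APath 𝔇 i (tr g s) c ξ n := by
  obtain ⟨ξ, h1, h2, h3⟩ := h
  refine ⟨fun t => g * ξ t, congrArg (g * ·) h1, ?_, fun t ht => Adj_tr.2 (h3 t ht)⟩
  rw [K_tr, mem_cjs]
  simpa [mul_assoc] using h2

theorem con_tr {s : St p} {c : Fin 3} {a b : Gam p} (g : Gam p) (h : Con 𝔇 i s c a b) :
    Con 𝔇 i (tr g s) c (g * a) (g * b) := by
  obtain ⟨ξ, n, h⟩ := h
  obtain ⟨ξ', h'⟩ := path_tr g ⟨ξ, h⟩
  exact ⟨ξ', n, h'⟩

theorem rd_tr (s : St p) (c : Fin 3) (a b g : Gam p) :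
    rd 𝔇 i (tr g s) c (g * a) (g * b) = rd 𝔇 i s c a b := by
  unfold rd
  congr 1
  ext n
  refine ⟨fun h => ?_, path_tr g⟩
  have := path_tr g⁻¹ h
  rwa [tr_inv_tr, inv_mul_cancel_left, inv_mul_cancel_left] at this

theorem caseA_tr {j : ℕ} {s B : St p} {b : Gam p} (g : Gam p) (h : CaseA 𝔇 j s B (g⁻¹ * b)) :
    CaseA 𝔇 j (tr g s) (tr g B) b := by
  intro u hu hb
  rw [Dm_tr, mem_lm, ← mul_assoc] at hb
  rw [Kall_tr, Dm_tr, Sat_lm, mem_lm, ← mul_assoc]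
  exact h u hu hb

/-- one step inside a set -/
def Stp (𝔇 : ℕ → Lev p) (i : ℕ) (s : St p) (S : Set (Gam p)) (a b : Gam p) : Prop :=
  a ∈ S ∧ b ∈ S ∧ Adj 𝔇 i s 0 a b

theorem path_of {s : St p} (hs : ValZ 𝔇 (i - 1) s) {S : Set (Gam p)} {a b : Gam p} (ha : a ∈ S)
    (h : Relation.ReflTransGen (Stp 𝔇 i s S) a b) : ∃ (ξ : ℕ → Gam p) (n : ℕ), ξ 0 = a ∧
      ξ n * b⁻¹ ∈ K 𝔇 (i - 1) s ∧ APath 𝔇 i s 0 ξ n ∧ ∀ t ≤ n, ξ t ∈ S := by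
  induction h with
  | refl => exact ⟨fun _ => a, 0, rfl, by simp, fun t ht => by omega, fun _ _ => ha⟩
  | @tail b c _ h2 ih =>
    obtain ⟨ξ, n, k1, k2, k3, k4⟩ := ih
    refine ⟨fun t => if t ≤ n then ξ t else c, n + 1, by simpa using k1, by simp,
      fun t ht => ?_, fun t _ => ?_⟩
    · by_cases h3 : t < n
      · simp only [if_pos h3.le, if_pos (show t + 1 ≤ n from h3)]
        exact k3 t h3
      · obtain rfl : t = n := by omega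
        simp only [le_refl, if_true, if_neg (show ¬ t + 1 ≤ t by omega)]
        exact h2.2.2.congr hs k2 (by simp)
    · dsimp only
      split_ifs with h3
      · exact k4 t h3
      · exact h2.2.1

theorem tn_reach {s : St p} {S : Set (Gam p)} {x : Gam p} {n : ℕ} (h : Tn 𝔇 i s 0 x n ⊆ S) :
    ∀ m ≤ n, ∀ y ∈ Tn 𝔇 i s 0 x m, Relation.ReflTransGen (Stp 𝔇 i s S) x y := by
  intro m
  induction m with
  | zero =>
    rintro _ y rfl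
    exact .refl
  | succ m ih =>
    rintro hm y (hy | ⟨a, ha, h1, w, hw, rfl⟩)
    · exact ih (by omega) y hy
    · exact (ih (by omega) a ha).tail ⟨h (Tn_mono x (by omega) ha),
        h (Tn_mono x hm (mul_mem_Tn ha h1 hw)), h1, w, hw, by simp⟩

theorem suffix_mem {α : Type} {𝒲 : Finset (List α)} (h : ∀ a t, a :: t ∈ 𝒲 → t ∈ 𝒲) :
    ∀ t ∈ 𝒲, ∀ t', t' <:+ t → t' ∈ 𝒲 := by
  intro t
  induction t with
  | nil => intro ht t' h'; rwa [List.suffix_nil.1 h']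
  | cons a t ih =>
    intro ht t' h'
    rcases List.suffix_cons_iff.1 h' with rfl | h'
    · exact ht
    · exact ih (h a t ht) t' h'

section

variable {Z : Type} (𝔇 i) (vw : Z → St p) (nx : Z × Gam p → Z × Gam p) (wd : Z × Gam p → Gam p)
  (z : Z)

/-- the seeds of the pieces -/
def Fs (𝒲 : Finset (List (Gam p))) : Set (Gam p) :=
  ⋃ t ∈ 𝒲, Tn 𝔇 i (piece vw nx wd z t) 0 (wk nx wd z t).2 (𝔇 i).n

/-- the invariant -/
def Inv (𝒲 : Finset (List (Gam p))) (Q : St p) : Prop :=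
  Good 𝔇 (i - 1) Q ∧ Tow 𝔇 (i - 1) Q ∧ (∀ t ∈ 𝒲, Le (piece vw nx wd z t) Q) ∧
    Dm (i - 1) Q = Nb (𝔇 i).θ (Sat (Kall 𝔇 Q) (Fs 𝔇 i vw nx wd z 𝒲))

end

theorem view_tr (h6 : VUStmt) (hC : Ctx 𝔇 i) {σ : St p} (h : IsV 𝔇 i 0 σ) (g : Gam p) :
    Good 𝔇 (i - 1) (tr g σ) ∧ Tow 𝔇 (i - 1) (tr g σ) ∧
    Dm (i - 1) (tr g σ) =
      Nb (𝔇 i).θ (Sat (Kall 𝔇 (tr g σ)) (Tn 𝔇 i (tr g σ) 0 g (𝔇 i).n)) ∧
    (∃ F k, Shape 𝔇 (i - 1) (tr g σ) F k) ∧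
    ∀ Q, ValZ 𝔇 (i - 1) Q → Le (tr g σ) Q →
      Tn 𝔇 i Q 0 g (𝔇 i).n = Tn 𝔇 i (tr g σ) 0 g (𝔇 i).n := by
  have h1 : 1 ≤ i := by have := hC.two; omega
  obtain ⟨k1, k2, -⟩ := h6 p 𝔇 i h1 hC.th hC.rule hC.const 0 σ h
  have e : Tn 𝔇 i (tr g σ) 0 g (𝔇 i).n = lm g (Tn 𝔇 i σ 0 1 (𝔇 i).n) := by
    rw [← Tn_tr, mul_one]
  refine ⟨h.1.tr g, h.2.1.tr g, ?_, ⟨_, _, FG.shape_tr k1 g⟩, fun Q hQ hl => ?_⟩
  · rw [e, Kall_tr, Sat_lm, Nb_lm, Dm_tr, h.2.2.2]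
  · refine Tn_stable h1 hC.rule (hC.th.2.1 _ le_rfl) (h.1.tr g).1.1 hQ hl (fun y hy => ?_) _
      (Nat.le_succ _)
    rw [e] at hy
    rw [← mul_inv_cancel_left g y]
    exact RC_tr.2 (k2 _ hy)

theorem step [NeZero p] (h1 : Tree2Stmt) (h2 : WalkStmt) (h3 : PWdStmt) (h4 : BGlueStmt)
    (h5 : EdgeStmt) (h6 : VUStmt) (hC : Ctx 𝔇 i) {Z : Type} {vw : Z → St p}
    {H : Z → Finset (Gam p)} {nx : Z × Gam p → Z × Gam p} {wd : Z × Gam p → Gam p}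
    (hG : GD 𝔇 i vw H nx wd) {z : Z} {𝒲 𝒲' : Finset (List (Gam p))} {a : Gam p}
    {t : List (Gam p)} (hn : ∀ u ∈ 𝒲, nbw H nx wd z u) (hc : ∀ b u, b :: u ∈ 𝒲 → u ∈ 𝒲)
    (ht : t ∈ 𝒲) (hat : nbw H nx wd z (a :: t)) (hnot : a :: t ∉ 𝒲)
    (hW : ∀ u, u ∈ 𝒲' ↔ u ∈ 𝒲 ∨ u = a :: t) {Q : St p} (hQ : Inv 𝔇 i vw nx wd z 𝒲 Q) :
    ∃ Q', Inv 𝔇 i vw nx wd z 𝒲' Q' := by
  obtain ⟨gQ, tQ, lQ, dQ⟩ := hQ
  obtain ⟨-, -, -, -, -, w6, w7⟩ := h2 p 𝔇 i hC Z vw H nx wd hG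
  obtain ⟨wa, wr, wi⟩ := w7 z Q gQ.1.1
  have T := h1 p 𝔇 i hC.rule hC.rx (hC.th.2.1 _ le_rfl).1 Q gQ.1.1 0
  have KQ : Kall 𝔇 Q = K 𝔇 (i - 1) Q := Kall_eq gQ.2.1
  have sfx := suffix_mem hc
  have hsuf : ∀ u ∈ 𝒲, ∀ u', u' <:+ u → u' ≠ u → Le (piece vw nx wd z u') Q :=
    fun u hu u' h _ => lQ u' (sfx u hu u' h)
  have hsuf' : ∀ u', u' <:+ a :: t → u' ≠ a :: t → Le (piece vw nx wd z u') Q := fun u' h hne =>
    lQ u' (sfx t ht u' ((List.suffix_cons_iff.1 h).resolve_left hne))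
  have hadj : ∀ b u, b :: u ∈ 𝒲 → Adj 𝔇 i Q 0 (wk nx wd z u).2 (wk nx wd z (b :: u)).2 :=
    fun b u hu => wa u b (w6 z b u (hn _ hu)) (lQ u (hc b u hu))
  have ha := w6 z a t hat
  have hxx := wa t a ha (lQ t ht)
  have hTn : ∀ u ∈ 𝒲, Tn 𝔇 i Q 0 (wk nx wd z u).2 (𝔇 i).n =
      Tn 𝔇 i (piece vw nx wd z u) 0 (wk nx wd z u).2 (𝔇 i).n := fun u hu =>
    (view_tr h6 hC (hG.view _) _).2.2.2.2 Q gQ.1.1 (lQ u hu)
  have hF : ∀ u ∈ 𝒲, Tn 𝔇 i Q 0 (wk nx wd z u).2 (𝔇 i).n ⊆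
      Sat (K 𝔇 (i - 1) Q) (Fs 𝔇 i vw nx wd z 𝒲) := fun u hu y hy =>
    subset_Sat _ _ (Set.mem_iUnion₂.2 ⟨u, hu, hTn u hu ▸ hy⟩)
  -- the shape of the old state
  have shQ : Shape 𝔇 (i - 1) Q (Fs 𝔇 i vw nx wd z 𝒲) (𝔇 i).θ := by
    refine FG.shape_of (κ := (𝔇 i).κ) ⟨_, Set.mem_iUnion₂.2 ⟨t, ht, mem_Tn_self _ _⟩⟩ tQ dQ
      (by have := hC.const.θ; omega) ?_
    rw [KQ]
    have r1 : ∀ u ∈ 𝒲, Relation.ReflTransGen
        (Stp 𝔇 i Q (Sat (K 𝔇 (i - 1) Q) (Fs 𝔇 i vw nx wd z 𝒲))) 1 (wk nx wd z u).2 := by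
      intro u
      induction u with
      | nil => intro _; exact .refl
      | cons b u ih =>
        intro hu
        exact (ih (hc b u hu)).tail ⟨hF u (hc b u hu) (mem_Tn_self _ _),
          hF _ hu (mem_Tn_self _ _), hadj b u hu⟩
    have r2 : ∀ y ∈ Fs 𝔇 i vw nx wd z 𝒲, Relation.ReflTransGen
        (Stp 𝔇 i Q (Sat (K 𝔇 (i - 1) Q) (Fs 𝔇 i vw nx wd z 𝒲))) 1 y := by
      intro y hy
      obtain ⟨u, hu, hy⟩ := Set.mem_iUnion₂.1 hy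
      exact (r1 u hu).trans (tn_reach (hF u hu) _ le_rfl y (hTn u hu ▸ hy))
    refine T.qc _ fun y hy y' hy' => path_of gQ.1.1 (subset_Sat _ _ hy) (.trans ?_ (r2 y' hy'))
    have r3 : ∀ y, Relation.ReflTransGen
        (Stp 𝔇 i Q (Sat (K 𝔇 (i - 1) Q) (Fs 𝔇 i vw nx wd z 𝒲))) 1 y → Relation.ReflTransGen
        (Stp 𝔇 i Q (Sat (K 𝔇 (i - 1) Q) (Fs 𝔇 i vw nx wd z 𝒲))) y 1 := by
      intro y h
      induction h with
      | refl => exact .refl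
      | tail _ h ih => exact .head ⟨h.2.1, h.1, hC.rx.sym Q gQ.1.1 0 _ _ h.2.2⟩ ih
    exact r3 y (r2 y hy)
  -- the old pieces lie on the side of the tail
  have side : ∀ u ∈ 𝒲, Con 𝔇 i Q 0 (wk nx wd z t).2 (wk nx wd z u).2 ∧
      rd 𝔇 i Q 0 (wk nx wd z (a :: t)).2 (wk nx wd z u).2 =
        rd 𝔇 i Q 0 (wk nx wd z t).2 (wk nx wd z u).2 + 1 := by
    intro u
    induction u with
    | nil =>
      intro _
      obtain ⟨k1, k2⟩ := wr t (hn t ht) (hsuf t ht)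
      obtain ⟨k3, k4⟩ := wr _ hat hsuf'
      refine ⟨(T.symm _ _ k1).1, ?_⟩
      show rd 𝔇 i Q 0 _ 1 = rd 𝔇 i Q 0 _ 1 + 1
      rw [(T.symm _ _ k1).2, (T.symm _ _ k3).2, k2, k4, List.length_cons]
    | cons b u ih =>
      intro hu
      obtain ⟨k1, k2⟩ := ih (hc b u hu)
      have k3 := T.adj _ _ (hadj b u hu)
      have k4 := (T.tri _ _ _ k1 k3.1).1
      refine ⟨k4, (T.side _ _ _ hxx k4).resolve_left fun k5 => hnot ?_⟩
      have k6 := T.cut _ _ _ _ hxx k4 k1 k5 k2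
      rw [(T.symm _ _ k3.1).2, k3.2] at k6
      rw [wi _ _ hat (hn _ hu) hsuf' (hsuf _ hu) (T.zero _ _
        (T.tri _ _ _ (T.symm _ _ (T.adj _ _ hxx).1).1 k4).1 (by omega))]
      exact hu
  obtain ⟨E, hE, l1, l2⟩ := hG.edge ((wk nx wd z t).1, a) ha
  obtain ⟨x, hx⟩ : ∃ x, x = (wk nx wd z t).2 := ⟨_, rfl⟩
  obtain ⟨w, hw⟩ : ∃ w, w = wd ((wk nx wd z t).1, a) := ⟨_, rfl⟩
  obtain ⟨σ, hσ⟩ : ∃ σ, σ = vw (nx ((wk nx wd z t).1, a)).1 := ⟨_, rfl⟩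
  have vσ : IsV 𝔇 i 0 σ := hσ ▸ hG.view _
  have e1 : (wk nx wd z (a :: t)).2 = x * w := by rw [hx, hw]; rfl
  have e2 : piece vw nx wd z (a :: t) = tr (x * w) σ := by rw [hx, hw, hσ]; rfl
  rw [← hw] at hE l2
  rw [← hσ] at l2
  rw [e1, ← hx] at side
  have l3 : Le (tr x E) Q := by
    rw [hx]
    exact (l1.tr _).trans (lQ t ht)
  have l4 : Le E (tr w σ) := by
    have := l2.tr w
    rwa [tr_tr_inv] at this
  obtain ⟨g2, t2, d2, sh2, -⟩ := view_tr h6 hC vσ (x * w)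
  have dich := h3 p 𝔇 i hC (tr x⁻¹ Q) σ E w
    ((fun u => x⁻¹ * (wk nx wd z u).2) '' (𝒲 : Set (List (Gam p)))) (gQ.tr _) (tQ.tr _) vσ hE
    (le_tr_iff.1 l3) l4 (by
      have : (⋃ y ∈ (fun u => x⁻¹ * (wk nx wd z u).2) '' (𝒲 : Set (List (Gam p))),
          Tn 𝔇 i (tr x⁻¹ Q) 0 y (𝔇 i).n) = lm x⁻¹ (Fs 𝔇 i vw nx wd z 𝒲) := by
        rw [Set.biUnion_image]
        ext y
        simp only [Tn_tr, Fs, Set.mem_iUnion, mem_lm, Finset.mem_coe]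
        exact exists_congr fun u => exists_congr fun hu => by rw [hTn u hu]
      rw [this, Kall_tr, Sat_lm, Nb_lm, Dm_tr, dQ]) (by
      rintro _ ⟨u, hu, rfl⟩
      obtain ⟨k1, k2⟩ := side u hu
      have k3 := con_tr x⁻¹ k1
      rw [← rd_tr _ _ _ _ x⁻¹, ← rd_tr Q _ x _ x⁻¹] at k2
      rw [inv_mul_cancel] at k3 k2
      rw [inv_mul_cancel_left] at k2
      exact ⟨k3, k2⟩)
  obtain ⟨s, gs, m1, m2, ks, ss, -, -, ts, -⟩ := h4 p 𝔇 (i - 1) (i - 1) hC.th le_rfl Q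
    (tr (x * w) σ) (tr x E) gQ g2 (hE.1.tr x) l3 (tr_mul x w σ ▸ l4.tr x) tQ t2 (hE.2.1.tr x)
    ⟨_, _, shQ⟩ sh2 ⟨_, _, FG.shape_tr ((h5 p 𝔇 i hC).1 E w hE).2.2.1 x⟩ gQ.2.1.sup g2.2.1.sup
    (fun _ _ k hk _ => KQ ▸ hk) (fun _ _ k hk _ => Kall_eq (𝔇 := 𝔇) g2.2.1 ▸ hk) (by
      intro b hb
      rw [Dm_tr, Nb_lm] at hb
      rcases dich _ hb with h | h
      · have := caseA_tr x h
        rw [tr_tr_inv] at this
        exact Or.inl this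
      · exact Or.inr (tr_mul x w σ ▸ caseA_tr x h)) (by
      intro b _ κ hκ
      by_contra hne
      have := (gQ.2.1 b κ fun h => hne (Or.inl h)).2
      omega)
  have e3 : Fs 𝔇 i vw nx wd z 𝒲' =
      Fs 𝔇 i vw nx wd z 𝒲 ∪ Tn 𝔇 i (tr (x * w) σ) 0 (x * w) (𝔇 i).n := by
    ext y
    simp only [Fs, Set.mem_iUnion, Set.mem_union, hW]
    constructor
    · rintro ⟨u, hu | rfl, hy⟩
      · exact Or.inl ⟨u, hu, hy⟩
      · exact Or.inr (by rwa [e1, e2] at hy)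
    · rintro (⟨u, hu, hy⟩ | hy)
      · exact ⟨u, Or.inl hu, hy⟩
      · exact ⟨_, Or.inr rfl, by rwa [e1, e2]⟩
  refine ⟨s, gs, ts, fun u hu => ?_, subset_antisymm (fun q hq => ?_) ?_⟩
  · rcases (hW u).1 hu with hu | rfl
    · exact (lQ u hu).trans m1
    · rwa [e2]
  · obtain ⟨h, hh, h7⟩ := ss q _ hq
    rw [← Sat_Nb, ← Sat_Sat (le_refl (Kall 𝔇 s)), mem_Sat_iff]
    refine ⟨h, hh, ?_⟩
    rw [Sat_Nb, e3]
    rcases h7 with h7 | h7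
    · exact Nb_mono le_rfl (Sat_mono (Kall_mono m1) Set.subset_union_left) (dQ.le h7)
    · exact Nb_mono le_rfl (Sat_mono (Kall_mono m2) Set.subset_union_right) (d2.le h7)
  · rw [← Sat_Nb, e3, Nb_union]
    refine Sat_subset (Set.union_subset ?_ ?_) fun k hk y hy => (Dm_stab (gs.stab hk)).2 hy
    · exact ((Nb_mono le_rfl (subset_Sat _ _)).trans dQ.ge).trans (Dm_mono m1)
    · exact ((Nb_mono le_rfl (subset_Sat _ _)).trans d2.ge).trans (Dm_mono m2)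

end PW

open PW in
theorem pw (h1 : Tree2Stmt) (h2 : WalkStmt) (h3 : PWdStmt) (h4 : BGlueStmt) (h5 : EdgeStmt)
    (h6 : VUStmt) : PWStmt := by
  intro p _ 𝔇 i hC Z vw H nx wd hG z S hS
  classical
  have key : ∀ m, ∀ 𝒲 : Finset (List (Gam p)), 𝒲.card = m → 𝒲.Nonempty →
      (∀ u ∈ 𝒲, nbw H nx wd z u) → (∀ b u, b :: u ∈ 𝒲 → u ∈ 𝒲) →
      ∃ Q, Inv 𝔇 i vw nx wd z 𝒲 Q := by
    intro m
    induction m with
    | zero =>
      intro 𝒲 hm hne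
      have := hne.card_pos
      omega
    | succ m ih =>
      intro 𝒲 hm hne hn hc
      obtain ⟨t', ht', hmax⟩ := Finset.exists_max_image 𝒲 List.length hne
      rcases t' with _ | ⟨a, t⟩
      · have e : 𝒲 = {[]} := Finset.eq_singleton_iff_unique_mem.2
          ⟨ht', fun u hu => List.length_eq_zero_iff.1 (Nat.le_zero.1 (hmax u hu))⟩
        obtain ⟨k1, k2, k3, -⟩ := view_tr h6 hC (hG.view (wk nx wd z []).1) (wk nx wd z []).2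
        refine ⟨piece vw nx wd z [], k1, k2, fun u hu => ?_, ?_⟩
        · rw [e, Finset.mem_singleton] at hu
          rw [hu]
          exact Le.refl _
        · rw [e]
          simp only [Fs, Finset.mem_singleton, Set.iUnion_iUnion_eq_left]
          exact k3
      · have hc' : ∀ b u, b :: u ∈ 𝒲 → u ∈ 𝒲.erase (a :: t) := fun b u hu =>
          Finset.mem_erase.2 ⟨fun e => by
            have := hmax _ hu
            rw [e] at this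
            simp at this, hc b u hu⟩
        have hn' : ∀ u ∈ 𝒲.erase (a :: t), nbw H nx wd z u := fun u hu =>
          hn u (Finset.mem_of_mem_erase hu)
        have hc'' : ∀ b u, b :: u ∈ 𝒲.erase (a :: t) → u ∈ 𝒲.erase (a :: t) := fun b u hu =>
          hc' b u (Finset.mem_of_mem_erase hu)
        obtain ⟨Q, hQ⟩ := ih (𝒲.erase (a :: t)) (by rw [Finset.card_erase_of_mem ht', hm]; rfl)
          ⟨t, hc' a t ht'⟩ hn' hc''
        refine step h1 h2 h3 h4 h5 h6 hC hG hn' hc'' (hc' a t ht') (hn _ ht')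
          (Finset.notMem_erase _ _) (fun u => ?_) hQ
        rw [Finset.mem_erase]
        by_cases e : u = a :: t
        · simp [e, ht']
        · simp [e]
  obtain ⟨Q, k1, -, k2, -⟩ := key _ ((insert [] S).biUnion fun t => t.tails.toFinset) rfl
    ⟨[], by simp⟩ (fun u hu => by
      simp only [Finset.mem_biUnion, List.mem_toFinset, List.mem_tails, Finset.mem_insert] at hu
      obtain ⟨t, rfl | ht, hu⟩ := hu
      · rw [List.suffix_nil.1 hu]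
        trivial
      · exact (h2 p 𝔇 i hC Z vw H nx wd hG).2.2.2.2.1 z t (hS t ht) u hu) (fun b u hu => by
      simp only [Finset.mem_biUnion, List.mem_toFinset, List.mem_tails] at hu ⊢
      obtain ⟨t, ht, hu⟩ := hu
      exact ⟨t, ht, (List.suffix_cons b u).trans hu⟩)
  refine ⟨Q, k1.1, fun t ht => k2 t ?_⟩
  simp only [Finset.mem_biUnion, List.mem_toFinset, List.mem_tails]
  exact ⟨t, Finset.mem_insert_of_mem ht, List.suffix_refl t⟩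

end Pool.Agent.MP_735563_an.H2
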