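import Pool.Agent.MP_735563_an.H2.Spec3

set_option autoImplicit false

/-! The dichotomy for adding one leaf. -/

namespace Pool.Agent.MP_735563_an.H2

namespace PWd

variable {p : ℕ} {𝔇 : ℕ → Lev p} {i : ℕ} {E s : St p} {w y : Gam p}

/-- the seed of the edge state -/
abbrev TT (𝔇 : ℕ → Lev p) (i : ℕ) (E : St p) (w : Gam p) : Set (Gam p) :=
  Tn 𝔇 i E 0 1 ((𝔇 i).n - 1) ∪ Tn 𝔇 i E 0 w ((𝔇 i).n - 1)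

theorem sub {a : Gam p} (ha : a = 1 ∨ a = w) {t : ℕ} (ht : t ≤ (𝔇 i).n - 1) :
    Tn 𝔇 i E 0 a t ⊆ TT 𝔇 i E w := by
  rcases ha with rfl | rfl
  · exact (Tn_mono _ ht).trans Set.subset_union_left
  · exact (Tn_mono _ ht).trans Set.subset_union_right

theorem stable (hC : Ctx 𝔇 i) (hE : IsE 𝔇 i E w) (hR : ∀ y ∈ TT 𝔇 i E w, RC 𝔇 i E y)
    (hs : Good 𝔇 (i - 1) s) (hl : Le E s) {a : Gam p} (ha : a = 1 ∨ a = w) {t : ℕ}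
    (ht : t ≤ (𝔇 i).n - 1) : Tn 𝔇 i s 0 a t = Tn 𝔇 i E 0 a t :=
  Tn_stable (by have := hC.two; omega) hC.rule (hC.th.2.1 _ le_rfl) hE.1.1.1 hs.1.1 hl
    (fun y hy => hR y (sub ha ht hy)) t (Nat.le_succ t)

/-- membership in a saturated tree ball does not depend on the extension -/
theorem transfer (h3 : InjBStmt) (hC : Ctx 𝔇 i) (hE : IsE 𝔇 i E w)
    (hS : Shape 𝔇 (i - 1) E (TT 𝔇 i E w) (𝔇 i).θ) (hR : ∀ y ∈ TT 𝔇 i E w, RC 𝔇 i E y)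
    (hs : Good 𝔇 (i - 1) s) (hl : Le E s) (hy : y ∈ Sat (Kall 𝔇 E) (TT 𝔇 i E w)) {a : Gam p}
    (ha : a = 1 ∨ a = w) {t : ℕ} (ht : t ≤ (𝔇 i).n - 1) :
    y ∈ Sat (K 𝔇 (i - 1) s) (Tn 𝔇 i s 0 a t) ↔ y ∈ Sat (K 𝔇 (i - 1) E) (Tn 𝔇 i E 0 a t) := by
  rw [stable hC hE hR hs hl ha ht]
  refine ⟨?_, fun h => Sat_mono (K_mono le_rfl hl) subset_rfl h⟩
  rintro ⟨k, hk, z, hz, rfl⟩
  have h0 : Sat (Kall 𝔇 E) (TT 𝔇 i E w) ⊆ Nb 100 (Dm 0 E) := fun x hx =>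
    subset_Nb _ _ (hE.2.1.Dm_anti (Nat.zero_le _) (hS.2.1 (subset_Nb _ _ hx)))
  exact ⟨k, h3 p 𝔇 _ _ hC.th le_rfl E s _ _ hE.1 hE.2.1 hS hs.1.1 hl z
    (h0 (subset_Sat _ _ (sub ha ht hz))) k hk (h0 hy), z, hz, rfl⟩

/-- a failure of the first case gives a close point outside the seed -/
theorem fail (hC : Ctx 𝔇 i) (hE : IsE 𝔇 i E w) (hR : ∀ y ∈ TT 𝔇 i E w, RC 𝔇 i E y)
    (hs : Good 𝔇 (i - 1) s) (hl : Le E s) (hT : TreeP 𝔇 i s 0) {v : Gam p}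
    (hv : len v ≤ (𝔇 i).θ + (𝔇 (i - 1)).δ + 20) (h : ¬ CaseA 𝔇 (i - 1) s E (y * v))
    {Y : Set (Gam p)} (hY : Dm (i - 1) s ⊆ Nb (𝔇 i).θ (Sat (Kall 𝔇 s) Y)) :
    ∃ y' ∈ Sat (K 𝔇 (i - 1) s) Y,
      (Con 𝔇 i s 0 y y' → 1000 * rd 𝔇 i s 0 y y' ≤ 7 * (𝔇 i).θ) ∧
      ∀ a, a = 1 ∨ a = w → Con 𝔇 i s 0 a y' → (𝔇 i).n ≤ rd 𝔇 i s 0 a y' := by
  simp only [CaseA, not_forall] at h
  obtain ⟨u, hu, h1, h2⟩ := h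
  obtain ⟨y', hy', u', hu', e⟩ := hY h1
  rw [Kall_eq hs.2.1] at hy' h2
  refine ⟨y', hy', fun hc => ?_, fun a ha hc => by_contra fun hn => h2 ?_⟩
  · have e' : y' = y * (v * u * u'⁻¹) := by
      rw [← mul_assoc, ← mul_assoc, e, mul_inv_cancel_right]
    have h3 := dj_le_len (𝔇 := 𝔇) (i - 1) s y (v * u * u'⁻¹)
    have h4 := len_mul_le (v * u) u'⁻¹
    have h5 := len_mul_le v u
    have h6 := (hT.qi y y' hc).1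
    have h7 := hC.const.θ
    have h8 := hC.rx.J
    rw [len_inv] at h4
    rw [← e'] at h3
    omega
  · have h3 := (hT.tn a y' ((𝔇 i).n - 1)).2 ⟨hc, by omega⟩
    rw [stable hC hE hR hs hl ha le_rfl] at h3
    rw [hE.2.2.2, Sat_Nb, e]
    exact mul_mem_Nb (Sat_mono le_rfl ((sub ha le_rfl).trans (subset_Sat _ _)) h3) hu'

end PWd

open PWd in
theorem pwd (h1 : Tree2Stmt) (h2 : EdgeStmt) (h3 : InjBStmt) (h4 : TowStmt) : PWdStmt := by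
  intro p _ 𝔇 i hC s₁ σ E w X hs₁ _ hσ hE hl₁ hl₂ hD hX b hb
  obtain ⟨-, -, hS, hR, -⟩ := (h2 p 𝔇 i hC).1 E w hE
  have hs₂ := hσ.1.tr w
  have hG := hC.th.2.1 _ le_rfl
  have T₁ := h1 p 𝔇 i hC.rule hC.rx hG.1 s₁ hs₁.1.1 0
  have T₂ := h1 p 𝔇 i hC.rule hC.rx hG.1 _ hs₂.1.1 0
  have hi : 1 ≤ i := by have := hC.two; omega
  have hn := hC.const.n
  have hθ := hC.const.θ
  have r1 : RC 𝔇 i E 1 := hR 1 (Or.inl (mem_Tn_self _ _))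
  have A₁ := r1.adj hi hC.rule hG hE.1.1.1 hs₁.1.1 hl₁ hE.2.2.1
  have A₂ := r1.adj hi hC.rule hG hE.1.1.1 hs₂.1.1 hl₂ hE.2.2.1
  have hb' := Nb_mono le_rfl (h4 p 𝔇 _ _ hC.th le_rfl E hE.1 hE.2.1).1 hb
  rw [hE.2.2.2, Nb_Nb, Nb_Nb] at hb'
  obtain ⟨y, hy, v, hv, rfl⟩ := hb'
  by_contra hno
  rw [not_or] at hno
  obtain ⟨y₁, hy₁, q₁, f₁⟩ := fail hC hE hR hs₁ hl₁ T₁ (by omega) hno.1 hD
  obtain ⟨y₂, hy₂, q₂, f₂⟩ := fail hC hE hR hs₂ hl₂ T₂ (by omega) hno.2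
    (Y := Tn 𝔇 i (tr w σ) 0 w (𝔇 i).n) (by
      have := Tn_tr (𝔇 := 𝔇) i w σ 0 1 (𝔇 i).n
      rw [mul_one] at this
      rw [Dm_tr, hσ.2.2.2, this, Kall_tr, Sat_lm, Nb_lm])
  have t₁ := fun a ha t ht => (T₁.tn a y t).symm.trans
    (transfer h3 hC hE hS hR hs₁ hl₁ hy (a := a) ha (t := t) ht)
  have t₂ := fun a ha t ht => (T₂.tn a y t).symm.trans
    (transfer h3 hC hE hS hR hs₂ hl₂ hy (a := a) ha (t := t) ht)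
  have w₁ := (T₁.adj _ _ A₁).1
  have w₂ := (T₂.adj _ _ A₂).1
  have w₁' := (T₁.symm _ _ w₁).1
  have w₂' := (T₂.symm _ _ w₂).1
  have hy' := hy
  rw [Kall_eq hE.1.2.1, Sat_union] at hy'
  have c : Con 𝔇 i s₁ 0 1 y ∧ Con 𝔇 i (tr w σ) 0 1 y ∧ (rd 𝔇 i (tr w σ) 0 1 y ≤ (𝔇 i).n - 1 ∨
      rd 𝔇 i (tr w σ) 0 w y ≤ (𝔇 i).n - 1) := by
    rcases hy' with h | h
    · have := (t₂ 1 (Or.inl rfl) _ le_rfl).2 h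
      exact ⟨((t₁ 1 (Or.inl rfl) _ le_rfl).2 h).1, this.1, Or.inl this.2⟩
    · have := (t₂ w (Or.inr rfl) _ le_rfl).2 h
      exact ⟨(T₁.tri _ _ _ w₁ ((t₁ w (Or.inr rfl) _ le_rfl).2 h).1).1,
        (T₂.tri _ _ _ w₂ this.1).1, Or.inr this.2⟩
  obtain ⟨c₁, c₂, c₃⟩ := c
  have c₁' := (T₁.tri _ _ _ w₁' c₁).1
  have c₂' := (T₂.tri _ _ _ w₂' c₂).1
  -- the second state
  obtain ⟨d₂', d₃⟩ := (T₂.tn _ _ _).1 hy₂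
  have d₂ := (T₂.tri _ _ _ w₂ d₂').1
  have g₁ := f₂ 1 (Or.inl rfl) d₂
  have g₂ := f₂ w (Or.inr rfl) d₂'
  have e₂ := (T₂.tri _ _ _ (T₂.symm _ _ c₂).1 d₂).1
  have g₃ := q₂ e₂
  have g₄ := (T₂.symm _ _ e₂).2
  have g₅ := T₂.side _ _ _ A₂ d₂
  have g₆ := T₂.side _ _ _ A₂ c₂
  have g₇ := T₂.cut _ _ _ _ A₂ d₂ c₂
  have g₈ := (T₂.tri _ _ _ c₂' e₂).2
  have k₁ : rd 𝔇 i (tr w σ) 0 1 y = rd 𝔇 i (tr w σ) 0 w y + 1 := by omega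
  -- transfer to the first state
  have k₂ := ((t₁ w (Or.inr rfl) _ (by omega)).2
    ((t₂ w (Or.inr rfl) _ (by omega)).1 ⟨c₂', le_rfl⟩)).2
  have k₃ := ((t₂ w (Or.inr rfl) _ (by omega)).2
    ((t₁ w (Or.inr rfl) _ (by omega)).1 ⟨c₁', le_rfl⟩)).2
  have k₄ : rd 𝔇 i s₁ 0 1 y = rd 𝔇 i s₁ 0 w y + 1 :=
    (T₁.side _ _ _ A₁ c₁).resolve_right fun h => by
      have := ((t₂ 1 (Or.inl rfl) _ (by omega)).2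
        ((t₁ 1 (Or.inl rfl) _ (by omega)).1 ⟨c₁, le_rfl⟩)).2
      omega
  -- the first state
  obtain ⟨k, hk, z, hz, rfl⟩ := hy₁
  simp only [Set.mem_iUnion] at hz
  obtain ⟨x, hx, hz⟩ := hz
  obtain ⟨m₁, m₂⟩ := (T₁.tn x (k * z) _).1 ⟨k, hk, z, hz, rfl⟩
  obtain ⟨x₁, x₂⟩ := hX x hx
  have d₁ := (T₁.tri _ _ _ x₁ m₁).1
  have m₃ := f₁ w (Or.inr rfl) (T₁.tri _ _ _ w₁' d₁).1
  have m₄ := q₁ (T₁.tri _ _ _ (T₁.symm _ _ c₁).1 d₁).1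
  have m₅ := T₁.side _ _ _ A₁ d₁
  have m₆ := T₁.cut _ _ _ _ A₁ c₁ d₁ k₄
  have m₇ := fun h => T₁.cut _ _ _ _ A₁ d₁ x₁ h x₂
  have m₈ := (T₁.symm _ _ m₁).2
  omega

end Pool.Agent.MP_735563_an.H2
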