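import Pool.Agent.MP_735563_an.H2.Spec1

set_option autoImplicit false

/-! The random walk on a coset space spreads out. -/

namespace Pool.Agent.MP_735563_an.H2

namespace Spread

variable {p : ℕ} {K : Subgroup (Gam p)}

/-- right cosets -/
abbrev Y (K : Subgroup (Gam p)) : Type := Quotient (QuotientGroup.rightRel K)

/-- the coset of `x` -/
def mk (K : Subgroup (Gam p)) (x : Gam p) : Y K := Quotient.mk'' x

lemma mk_eq {x y : Gam p} : mk K x = mk K y ↔ y * x⁻¹ ∈ K := by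
  rw [mk, mk, Quotient.eq'', QuotientGroup.rightRel_apply]

lemma ind (y : Y K) : ∃ x, y = mk K x := Quotient.inductionOn' y fun x => ⟨x, rfl⟩

/-- right translation -/
def act (g : Gam p) : Y K → Y K := Quotient.map' (· * g) fun x y h => by
  rw [QuotientGroup.rightRel_apply] at h ⊢
  simpa [mul_assoc] using h

lemma act_mk (g x : Gam p) : act g (mk K x) = mk K (x * g) := rfl

/-- right translation as a bijection -/
def eqv (g : Gam p) : Y K ≃ Y K where
  toFun := act g⁻¹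
  invFun := act g
  left_inv y := by obtain ⟨x, rfl⟩ := ind y; simp [act_mk]
  right_inv y := by obtain ⟨x, rfl⟩ := ind y; simp [act_mk]

/-- translation of functions -/
noncomputable def sh (g : Gam p) : (Y K →₀ ℝ) →ₗ[ℝ] (Y K →₀ ℝ) :=
  (Finsupp.domLCongr (eqv g) : (Y K →₀ ℝ) ≃ₗ[ℝ] (Y K →₀ ℝ)).toLinearMap

lemma sh_mk (g x : Gam p) (f : Y K →₀ ℝ) : sh g f (mk K x) = f (mk K (x * g)) := rfl

lemma sh_single (g x : Gam p) :
    sh g (Finsupp.single (mk K x) (1 : ℝ)) = Finsupp.single (mk K (x * g⁻¹)) 1 :=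
  Finsupp.domLCongr_single _ _ _

lemma ext' {f h : Y K →₀ ℝ} (e : ∀ x, f (mk K x) = h (mk K x)) : f = h :=
  Finsupp.ext fun y => by obtain ⟨x, rfl⟩ := ind y; exact e x

/-- total mass -/
noncomputable def tot : (Y K →₀ ℝ) →ₗ[ℝ] ℝ := Finsupp.linearCombination ℝ fun _ => (1 : ℝ)

lemma tot_eq (f : Y K →₀ ℝ) : tot f = ∑ y ∈ f.support, f y := by
  simp [tot, Finsupp.linearCombination_apply, Finsupp.sum]

lemma tot_sh (g : Gam p) (f : Y K →₀ ℝ) : tot (sh g f) = tot f := by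
  simp only [tot, Finsupp.linearCombination_apply]
  exact Finsupp.sum_equivMapDomain _ _ _

lemma tot_nonneg {f : Y K →₀ ℝ} (h : ∀ x, 0 ≤ f (mk K x)) : 0 ≤ tot f := by
  rw [tot_eq]
  exact Finset.sum_nonneg fun y _ => by obtain ⟨x, rfl⟩ := ind y; exact h x

/-- the dot product -/
noncomputable def bt : (Y K →₀ ℝ) →ₗ[ℝ] (Y K →₀ ℝ) →ₗ[ℝ] ℝ :=
  LinearMap.mk₂ ℝ (fun f h => tot (f * h))
    (fun f f' h => by rw [add_mul, map_add])
    (fun c f h => by rw [← map_smul]; congr 1; ext; simp [mul_assoc])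
    (fun f h h' => by rw [mul_add, map_add])
    (fun c f h => by rw [← map_smul]; congr 1; ext; simp [mul_left_comm])

lemma bt_eq (f h : Y K →₀ ℝ) : bt f h = tot (f * h) := rfl

lemma bt_comm (f h : Y K →₀ ℝ) : bt f h = bt h f := by rw [bt_eq, bt_eq, mul_comm]

lemma bt_self (f : Y K →₀ ℝ) : 0 ≤ bt f f := tot_nonneg fun _ => mul_self_nonneg _

lemma sq_le (f : Y K →₀ ℝ) (y : Y K) : f y ^ 2 ≤ bt f f := by
  by_cases h : f y = 0
  · simpa [h] using bt_self f
  · rw [bt_eq, tot_eq, sq]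
    exact Finset.single_le_sum (f := fun y => (f * f) y) (fun _ _ => mul_self_nonneg _)
      (by simpa using h)

lemma bt_sh (g : Gam p) (f h : Y K →₀ ℝ) : bt (sh g f) h = bt f (sh g⁻¹ h) := by
  rw [bt_eq, bt_eq, ← tot_sh g (f * _)]
  congr 1
  exact ext' fun x => by simp [sh_mk]

variable [NeZero p]

/-- the average over a panel -/
noncomputable def P (i : Fin 3) : (Y K →₀ ℝ) →ₗ[ℝ] (Y K →₀ ℝ) :=
  (1 / (p : ℝ)) • ∑ a : ZMod p, sh (gen i a)

lemma P_eq (i : Fin 3) (f : Y K →₀ ℝ) : P i f = (1 / (p : ℝ)) • ∑ a : ZMod p, sh (gen i a) f := by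
  simp [P, LinearMap.sum_apply]

lemma P_mk (i : Fin 3) (f : Y K →₀ ℝ) (x : Gam p) :
    P i f (mk K x) = (1 / (p : ℝ)) * ∑ a : ZMod p, f (mk K (x * gen i a)) := by
  simp [P_eq, sh_mk]

lemma P_adj (i : Fin 3) (f h : Y K →₀ ℝ) : bt (P i f) h = bt f (P i h) := by
  simp only [P_eq, map_smul, map_sum, LinearMap.smul_apply, LinearMap.sum_apply, bt_sh, ← gen_neg]
  congr 1
  exact Fintype.sum_equiv (Equiv.neg _) _ _ fun _ => rfl

lemma P_gen (i : Fin 3) (f : Y K →₀ ℝ) (x : Gam p) (b : ZMod p) :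
    P i f (mk K (x * gen i b)) = P i f (mk K x) := by
  simp only [P_mk, mul_assoc, ← gen_add]
  congr 1
  exact Fintype.sum_equiv (Equiv.addLeft b) _ _ fun _ => rfl

lemma P_P (i : Fin 3) (f : Y K →₀ ℝ) : P i (P i f) = P i f := ext' fun x => by
  have : (p : ℝ) ≠ 0 := NeZero.ne _
  rw [P_mk i (P i f)]
  simp only [P_gen, Finset.sum_const, Finset.card_univ, ZMod.card, nsmul_eq_mul]
  field_simp

/-- the energy -/
noncomputable def En (f : Y K →₀ ℝ) : ℝ := ∑ i, bt (f - P i f) (f - P i f)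

lemma Q_le (i : Fin 3) (f : Y K →₀ ℝ) : bt (f - P i f) (f - P i f) ≤ bt f f := by
  have h1 := P_adj i f (P i f)
  have h2 := bt_self (P i f)
  rw [P_P] at h1
  simp only [map_sub, LinearMap.sub_apply, bt_comm (P i f) f]
  linarith

lemma step {f : Y K →₀ ℝ} {s : ℝ} (h0 : 0 ≤ s) (h : En f ≤ s ^ 2) (x : Gam p) (i : Fin 3)
    (a : ZMod p) : |f (mk K x) - f (mk K (x * gen i a))| ≤ 2 * s := by
  have h1 : ∀ y, |(f - P i f) y| ≤ s := fun y => abs_le_of_sq_le_sq' ((sq_le _ y).trans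
    ((Finset.single_le_sum (f := fun i => bt (f - P i f) (f - P i f)) (fun _ _ => bt_self _)
      (Finset.mem_univ i)).trans h)) h0 |> abs_le.2
  have h2 := abs_le.1 (h1 (mk K x))
  have h3 := abs_le.1 (h1 (mk K (x * gen i a)))
  rw [Finsupp.sub_apply] at h2 h3
  rw [P_gen] at h3
  exact abs_le.2 ⟨by linarith, by linarith⟩

lemma path {f : Y K →₀ ℝ} {s : ℝ} (h0 : 0 ≤ s) (h : En f ≤ s ^ 2) (l : List (Fin 3 × ZMod p))
    (x : Gam p) : |f (mk K x) - f (mk K (x * lprod l))| ≤ l.length * (2 * s) := by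
  induction l generalizing x with
  | nil => simp [lprod_nil]
  | cons q l ih =>
    rw [lprod_cons, ← mul_assoc, List.length_cons]
    refine (abs_sub_le _ (f (mk K (x * gen q.1 q.2))) _).trans ?_
    have := step h0 h x q.1 q.2
    have := ih (x * gen q.1 q.2)
    push_cast
    linarith

/-- the distribution of the walk -/
noncomputable def u (K : Subgroup (Gam p)) (k : ℕ) : Y K →₀ ℝ :=
  (1 / (3 * p : ℝ) ^ k) • ∑ w : Fin k → Fin 3 × ZMod p, Finsupp.single (mk K (wprod w)) 1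

open Classical in
lemma u_mk (k : ℕ) (y : Gam p) : u K k (mk K y) = (1 / (3 * p : ℝ) ^ k) *
    (Finset.univ.filter fun w : Fin k → Fin 3 × ZMod p => wprod w * y⁻¹ ∈ K).card := by
  simp only [u, Finsupp.smul_apply, Finsupp.finsetSum_apply, Finsupp.single_apply, smul_eq_mul,
    Finset.sum_boole, eq_comm (b := mk K y), mk_eq]

lemma u_supp {k : ℕ} {y : Gam p} (h : u K k (mk K y) ≠ 0) : ∃ z, len z ≤ k ∧ z * y⁻¹ ∈ K := by
  classical
  rw [u_mk] at h
  obtain ⟨w, hw⟩ := Finset.card_ne_zero.1 (Nat.cast_ne_zero.1 (right_ne_zero_of_mul h))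
  exact ⟨wprod w, by simpa [wprod] using len_le (List.ofFn w), (Finset.mem_filter.1 hw).2⟩

lemma u_succ (k : ℕ) : u K (k + 1) = (1 / 3 : ℝ) • ∑ i, P i (u K k) := by
  have e : ∀ i (x : Gam p), ∑ a : ZMod p, sh (gen i a) (Finsupp.single (mk K x) (1 : ℝ))
      = ∑ a : ZMod p, Finsupp.single (mk K (x * gen i a)) 1 := fun i x => by
    simp only [sh_single, ← gen_neg]
    exact Fintype.sum_equiv (Equiv.neg _) _ _ fun _ => rfl
  have e2 : ∀ (q : Fin 3 × ZMod p) (w : Fin k → Fin 3 × ZMod p),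
      wprod (Fin.snocEquiv (fun _ => Fin 3 × ZMod p) (q, w)) = wprod w * gen q.1 q.2 := by
    intro q w
    rw [wprod, List.ofFn_succ_last, lprod_append, wprod]
    simp [Fin.snocEquiv, lprod]
  rw [u, ← (Fin.snocEquiv fun _ => Fin 3 × ZMod p).sum_comp, Fintype.sum_prod_type,
    Fintype.sum_prod_type]
  simp only [e2, u, map_smul, map_sum, P_eq, e, ← Finset.smul_sum, smul_smul]
  congr 1
  · rw [pow_succ]
    field_simp
  · exact Finset.sum_congr rfl fun i _ => Finset.sum_comm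

lemma pair {N : Fin 3 → Subgroup (Gam p)} {g : ℕ} (hN : NData p N g) {v : Y K →₀ ℝ}
    (hv : ∀ y, v (mk K y) ≠ 0 → ∃ z, z * y⁻¹ ∈ K ∧ ∀ c, ∀ n ∈ N c, z * n * z⁻¹ ∈ K)
    (i j : Fin 3) (hij : i ≠ j) : 0 ≤ 2 * bt (v - P i v) (v - P j v) +
      (1 / 4) * (bt (v - P i v) (v - P i v) + bt (v - P j v) (v - P j v)) := by
  obtain ⟨c, ic, jc⟩ : ∃ c, i ≠ c ∧ j ≠ c := by revert i j; decide
  obtain ⟨Tr, ne, -, h⟩ := hN.pair c
  let F : Y K →₀ ℝ := (2 : ℝ) • ((v - P i v) * (v - P j v)) +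
    (1 / 4 : ℝ) • ((v - P i v) * (v - P i v) + (v - P j v) * (v - P j v))
  have h1 : 0 ≤ tot (∑ g ∈ Tr, sh g F) := tot_nonneg fun x => by
    have := h ℝ (fun g => v (mk K (x * g))) (fun x' hx n hn => ?_) i j ic jc hij
    · rw [Finsupp.finsetSum_apply]
      refine this.trans_eq (Finset.sum_congr rfl fun g _ => ?_)
      simp only [sh_mk, F, Qv, Finsupp.add_apply, Finsupp.smul_apply, Finsupp.mul_apply,
        Finsupp.sub_apply, P_mk, smul_eq_mul, mul_assoc, Real.norm_eq_abs, sq_abs,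
        RCLike.inner_apply, conj_trivial]
      ring
    · by_cases h0 : ∀ g ∈ AB c, v (mk K (x * g)) = 0
      · rw [h0 _ (mul_mem hx (hN.le c hn)), h0 _ hx]
      · push Not at h0
        obtain ⟨g0, g1, g2⟩ := h0
        obtain ⟨z, z1, z2⟩ := hv _ g2
        have := mul_mem (mul_mem (inv_mem z1)
          (z2 c _ (hN.normal c _ (mul_mem (inv_mem g1) hx) n hn))) z1
        congr 1
        symm
        rw [mk_eq]
        convert this using 1
        group
  simp only [map_sum, tot_sh, Finset.sum_const, nsmul_eq_mul] at h1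
  have h2 := nonneg_of_mul_nonneg_right h1 (by exact_mod_cast ne.card_pos)
  simpa only [F, map_add, map_smul, smul_eq_mul, bt_eq] using h2

end Spread

open Spread in
theorem spread (h : EnAbsStmt) : SpreadStmt := by
  intro p _ N g hN K R m hK ⟨y0, hy⟩ hm y
  classical
  have en : ∀ k ≤ m, En (u K k) ≤ 3 * (5 / 6) ^ k := by
    intro k
    induction k with
    | zero =>
      intro _
      have : bt (u K 0) (u K 0) = 1 := by simp [u, bt_eq, tot, ← Finsupp.single_mul]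
      refine (Finset.sum_le_sum fun i _ => Q_le i _).trans ?_
      simp [this]
    | succ k ih =>
      intro hk
      have := (h _ bt P bt_comm bt_self P_adj (fun i x y => by rw [P_P]) (u K k)
        (pair hN fun y hy => (u_supp hy).imp fun z hz => ⟨hz.2, hK z (by omega)⟩) _ (u_succ k)).1
      have h2 := ih (by omega)
      rw [En] at h2 ⊢
      rw [pow_succ]
      linarith
  have s0 : (0 : ℝ) ≤ 3 * (5 / 6) ^ m := by positivity
  have hs := (en m le_rfl).trans_eq (Real.sq_sqrt s0).symm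
  have p0 : (0 : ℝ) < (3 * p) ^ m := by have := NeZero.pos p; positivity
  by_cases h0 : u K m (mk K y) = 0
  · rw [u_mk, mul_eq_zero, or_iff_right (by positivity)] at h0
    rw [h0]
    simpa using by positivity
  obtain ⟨z, z1, z2⟩ := u_supp h0
  obtain ⟨k, hk, hmin⟩ := (measure fun k => len (k * y0)).wf.has_min (K : Set (Gam p)) ⟨1, K.one_mem⟩
  obtain ⟨y1, z', e1, e2, e3⟩ := len_split (k * y0) (i := m + 1) (by have := hy k hk; omega)
  have h1 : u K m (mk K y1) = 0 := by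
    by_contra c
    obtain ⟨t, t1, t2⟩ := u_supp c
    refine hmin _ (mul_mem t2 hk) ?_
    have h3 := len_mul_le t z'
    have h4 := hy k hk
    change len (t * y1⁻¹ * k * y0) < len (k * y0)
    rw [mul_assoc _ k, e1, mul_assoc, inv_mul_cancel_left, ← e1]
    omega
  obtain ⟨l, l1, l2⟩ := exists_len (z⁻¹ * y1)
  have h2 := path (Real.sqrt_nonneg _) hs l z
  have h3 : (l.length : ℝ) ≤ 2 * m + 1 := by
    have := len_mul_le z⁻¹ y1
    rw [len_inv] at this
    exact_mod_cast (by omega : l.length ≤ 2 * m + 1)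
  rw [l2, mul_inv_cancel_left, h1, sub_zero, ← mk_eq.2 z2, u_mk, abs_of_nonneg (by positivity),
    one_div, inv_mul_le_iff₀ p0] at h2
  refine (pow_le_pow_left₀ (by positivity) (h2.trans (mul_le_mul_of_nonneg_left
    (mul_le_mul_of_nonneg_right h3 (by positivity)) p0.le)) 2).trans_eq ?_
  linear_combination 4 * (2 * (m : ℝ) + 1) ^ 2 * ((3 * (p : ℝ)) ^ m) ^ 2 * Real.sq_sqrt s0

end Pool.Agent.MP_735563_an.H2
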