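import Pool.Agent.MP_735563_an.H2.Spec3

set_option autoImplicit false

/-! The rule graph of a level at least two is a forest. -/

namespace Pool.Agent.MP_735563_an.H2

namespace Tree2

variable {X : Type} {E A : X → X → Prop}

/-- path -/
def P (A : X → X → Prop) (ξ : ℕ → X) (n : ℕ) : Prop := ∀ t < n, A (ξ t) (ξ (t + 1))

/-- no backtracking -/
def N (E : X → X → Prop) (ξ : ℕ → X) (n : ℕ) : Prop := ∀ t, t + 2 ≤ n → ¬ E (ξ t) (ξ (t + 2))

/-- connected -/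
def C (E A : X → X → Prop) (a b : X) : Prop := ∃ ξ n, ξ 0 = a ∧ E b (ξ n) ∧ P A ξ n

/-- distance -/
noncomputable def r (E A : X → X → Prop) (a b : X) : ℕ :=
  sInf {n | ∃ ξ, ξ 0 = a ∧ E b (ξ n) ∧ P A ξ n}

/-- concatenation -/
def app (ξ : ℕ → X) (n : ℕ) (η : ℕ → X) (t : ℕ) : X := if t ≤ n then ξ t else η (t - n)

/-- a graph on the classes of an equivalence relation without reduced loops -/
structure Hyp (E A : X → X → Prop) : Prop where
  eq : Equivalence E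
  sym : ∀ {a b}, A a b → A b a
  cg : ∀ {a b a' b'}, A a b → E a a' → E b b' → A a' b'
  ac : ∀ ξ n, P A ξ n → N E ξ n → 1 ≤ n → ¬ E (ξ 0) (ξ n)

variable {ξ η : ℕ → X} {n m : ℕ} {a b : X}

theorem app_le {t : ℕ} (h : t ≤ n) : app ξ n η t = ξ t := if_pos h

theorem app_zero : app ξ n η 0 = ξ 0 := app_le (Nat.zero_le n)

theorem app_succ (t : ℕ) : app ξ n η (n + (t + 1)) = η (t + 1) := by
  rw [app, if_neg (by omega), Nat.add_sub_cancel_left]

theorem P.mono (h : P A ξ n) (hm : m ≤ n) : P A ξ m := fun t ht => h t (by omega)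

theorem N.mono (h : N E ξ n) (hm : m ≤ n) : N E ξ m := fun t ht => h t (by omega)

theorem P.drop (h : P A ξ n) {k : ℕ} (hm : k + m ≤ n) : P A (fun t => ξ (k + t)) m :=
  fun t ht => h (k + t) (by omega)

theorem N.drop (h : N E ξ n) {k : ℕ} (hm : k + m ≤ n) : N E (fun t => ξ (k + t)) m :=
  fun t ht => h (k + t) (by omega)

theorem Hyp.app_add (H : Hyp E A) (he : E (ξ n) (η 0)) (t : ℕ) : E (app ξ n η (n + t)) (η t) := by
  cases t with
  | zero => rwa [app_le (by omega)]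
  | succ t => rw [app_succ]; exact H.eq.refl _

theorem Hyp.revP (H : Hyp E A) (h : P A ξ n) : P A (fun t => ξ (n - t)) n := fun t ht => by
  have := h (n - (t + 1)) (by omega)
  rw [show n - (t + 1) + 1 = n - t by omega] at this
  exact H.sym this

theorem Hyp.revN (H : Hyp E A) (h : N E ξ n) : N E (fun t => ξ (n - t)) n := fun t ht h1 => by
  refine h (n - (t + 2)) (by omega) ?_
  rw [show n - (t + 2) + 2 = n - t by omega]
  exact H.eq.symm h1

theorem Hyp.appP (H : Hyp E A) (h : P A ξ n) (h' : P A η m) (he : E (ξ n) (η 0)) :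
    P A (app ξ n η) (n + m) := fun t ht => by
  rcases lt_or_ge t n with h1 | h1
  · rw [app_le h1.le, app_le h1]
    exact h t h1
  · obtain ⟨u, rfl⟩ := Nat.exists_eq_add_of_le h1
    exact H.cg (h' u (by omega)) (H.eq.symm (H.app_add he u)) (H.eq.symm (H.app_add he (u + 1)))

theorem Hyp.appN (H : Hyp E A) (h : N E ξ n) (h' : N E η m) (he : E (ξ n) (η 0))
    (hj : 1 ≤ n → 1 ≤ m → ¬ E (ξ (n - 1)) (η 1)) : N E (app ξ n η) (n + m) := fun t ht h0 => by
  rcases le_or_gt (t + 2) n with h1 | h1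
  · rw [app_le (by omega), app_le h1] at h0
    exact h t h1 h0
  · rcases lt_or_ge t n with h2 | h2
    · obtain rfl : n = t + 1 := by omega
      rw [app_le h2.le, show t + 2 = t + 1 + (0 + 1) by omega, app_succ] at h0
      exact hj (by omega) (by omega) h0
    · obtain ⟨u, rfl⟩ := Nat.exists_eq_add_of_le h2
      exact h' u (by omega) (H.eq.trans (H.eq.symm (H.app_add he u))
        (H.eq.trans h0 (H.app_add he (u + 2))))

/-- every path contains a reduced path -/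
theorem Hyp.red (H : Hyp E A) : ∀ (n : ℕ) (ξ : ℕ → X), P A ξ n → ∃ η m, m ≤ n ∧ η 0 = ξ 0 ∧
    E (ξ n) (η m) ∧ P A η m ∧ N E η m ∧ ∀ t ≤ m, ∃ t' ≤ n, η t = ξ t' := by
  intro n
  induction n using Nat.strong_induction_on with
  | _ n ih =>
    intro ξ h
    by_cases h1 : N E ξ n
    · exact ⟨ξ, n, le_rfl, rfl, H.eq.refl _, h, h1, fun t ht => ⟨t, ht, rfl⟩⟩
    · simp only [N, not_forall, not_not] at h1
      obtain ⟨t, ht, h2⟩ := h1
      obtain ⟨u, rfl⟩ := Nat.exists_eq_add_of_le ht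
      have he : E (ξ t) ((fun v => ξ (t + 2 + v)) 0) := h2
      obtain ⟨η, m, h3, h4, h5, h6, h7, h8⟩ := ih (t + u) (by omega) _
        (H.appP (h.mono (by omega)) (h.drop le_rfl) he)
      refine ⟨η, m, by omega, h4.trans app_zero,
        H.eq.trans (H.eq.symm (H.app_add he u)) h5, h6, h7, fun v hv => ?_⟩
      obtain ⟨v', h9, h10⟩ := h8 v hv
      rw [h10, app]
      split_ifs
      · exact ⟨v', by omega, rfl⟩
      · exact ⟨_, by omega, rfl⟩

/-- reduced paths with the same ends have the same length -/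
theorem Hyp.uniq (H : Hyp E A) : ∀ (n m : ℕ) (ξ η : ℕ → X), P A ξ n → N E ξ n → P A η m →
    N E η m → E (ξ 0) (η 0) → E (ξ n) (η m) → n = m := by
  intro n
  induction n with
  | zero =>
    intro m ξ η _ _ h3 h4 h5 h6
    by_contra h
    exact H.ac η m h3 h4 (by omega) (H.eq.trans (H.eq.symm h5) h6)
  | succ n ih =>
    intro m ξ η h1 h2 h3 h4 h5 h6
    by_cases h7 : 1 ≤ m ∧ E (ξ 1) (η 1)
    · obtain ⟨m, rfl⟩ := Nat.exists_eq_add_of_le' h7.1
      rw [ih m _ _ (h1.drop (k := 1) (by omega)) (h2.drop (k := 1) (by omega))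
        (h3.drop (k := 1) (by omega)) (h4.drop (k := 1) (by omega)) h7.2
        (by rwa [add_comm 1 n, add_comm 1 m])]
    · have he : E ((fun t => ξ (n + 1 - t)) (n + 1)) (η 0) := by simpa using h5
      refine (H.ac _ _ (H.appP (H.revP h1) h3 he) (H.appN (H.revN h2) h4 he
        fun _ h8 h9 => h7 ⟨h8, by simpa using h9⟩) (by omega) ?_).elim
      rw [app_zero]
      exact H.eq.trans h6 (H.eq.symm (H.app_add (ξ := fun t => ξ (n + 1 - t)) he m))

theorem Hyp.start (H : Hyp E A) (h : P A ξ n) (ha : E a (ξ 0)) (hb : E b (ξ n)) :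
    ∃ ξ, ξ 0 = a ∧ E b (ξ n) ∧ P A ξ n := by
  have h1 := H.appP (ξ := fun _ => a) (n := 0) (fun _ h => by omega) h ha
  have h2 := H.app_add (ξ := fun _ => a) (n := 0) ha n
  rw [zero_add] at h1 h2
  exact ⟨_, app_zero, H.eq.trans hb (H.eq.symm h2), h1⟩

theorem Hyp.con (H : Hyp E A) (h : P A ξ n) (ha : E a (ξ 0)) (hb : E b (ξ n)) :
    C E A a b ∧ r E A a b ≤ n := by
  obtain ⟨η, h1⟩ := H.start h ha hb
  exact ⟨⟨η, n, h1⟩, Nat.sInf_le ⟨η, h1⟩⟩

theorem Hyp.geo (H : Hyp E A) (h : C E A a b) :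
    ∃ ξ n, ξ 0 = a ∧ E b (ξ n) ∧ P A ξ n ∧ N E ξ n ∧ r E A a b = n := by
  obtain ⟨ξ, n, h1⟩ := h
  obtain ⟨η, h2, h3, h4⟩ := Nat.sInf_mem (s := {n | ∃ ξ, ξ 0 = a ∧ E b (ξ n) ∧ P A ξ n}) ⟨n, ξ, h1⟩
  obtain ⟨ζ, m, h5, h6, h7, h8, h9, -⟩ := H.red _ η h4
  exact ⟨ζ, m, h6.trans h2, H.eq.trans h3 h7, h8, h9,
    le_antisymm (Nat.sInf_le ⟨ζ, h6.trans h2, H.eq.trans h3 h7, h8⟩) h5⟩

theorem Hyp.r_eq (H : Hyp E A) (h : P A ξ n) (h' : N E ξ n) (ha : E a (ξ 0)) (hb : E b (ξ n)) :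
    C E A a b ∧ r E A a b = n := by
  have h1 := (H.con h ha hb).1
  obtain ⟨η, m, h2, h3, h4, h5, h6⟩ := H.geo h1
  exact ⟨h1, h6.trans (H.uniq _ _ _ _ h4 h5 h h' (h2 ▸ ha) (H.eq.trans (H.eq.symm h3) hb))⟩

theorem one_P (h : A a b) : P A (fun t => if t = 0 then a else b) 1 := fun t ht => by
  obtain rfl : t = 0 := by omega
  simpa using h

theorem Hyp.step (H : Hyp E A) (h : P A ξ n) (h' : N E ξ n) (ha : A (ξ 0) a) (hb : E b (ξ n)) :
    (E a (ξ 1) ∧ r E A a b + 1 = n) ∨ ((1 ≤ n → ¬ E a (ξ 1)) ∧ r E A a b = n + 1) := by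
  by_cases h1 : 1 ≤ n ∧ E a (ξ 1)
  · obtain ⟨n, rfl⟩ := Nat.exists_eq_add_of_le' h1.1
    refine Or.inl ⟨h1.2, ?_⟩
    rw [(H.r_eq (h.drop (k := 1) (m := n) (by omega)) (h'.drop (by omega)) h1.2
      (by rwa [add_comm 1 n])).2]
  · refine Or.inr ⟨fun h2 h3 => h1 ⟨h2, h3⟩, ?_⟩
    have he : E ((fun t => if t = 0 then a else ξ 0) 1) (ξ 0) := H.eq.refl _
    rw [(H.r_eq (H.appP (one_P (H.sym ha)) h he)
      (H.appN (fun _ h => by omega) h' he fun _ h2 h3 => h1 ⟨h2, h3⟩) (H.eq.refl a)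
      (H.eq.trans hb (H.eq.symm (H.app_add (ξ := fun t => if t = 0 then a else ξ 0) (n := 1)
        he n)))).2, add_comm]

theorem Hyp.cut (H : Hyp E A) {x x' y y' : X} (h : A x x') (h1 : C E A x y) (h2 : C E A x y')
    (h3 : r E A x y = r E A x' y + 1) (h4 : r E A x' y' = r E A x y' + 1) :
    r E A y y' = r E A x' y + 1 + r E A x y' := by
  obtain ⟨ξ, n, rfl, a2, a3, a4, a5⟩ := H.geo h1
  obtain ⟨η, m, b1, b2, b3, b4, b5⟩ := H.geo h2
  have c1 := ((H.step a3 a4 h a2).resolve_right fun c => by omega).1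
  have c2 := ((H.step b3 b4 (b1 ▸ h) b2).resolve_left fun c => by omega).1
  have he : E ((fun t => ξ (n - t)) n) (η 0) := by simpa [b1] using H.eq.refl _
  rw [(H.r_eq (H.appP (H.revP a3) b3 he) (H.appN (H.revN a4) b4 he fun c3 c4 c5 => c2 c4
    (H.eq.trans c1 (by rwa [show n - (n - 1) = 1 by omega] at c5))) (by rwa [app_zero])
    (H.eq.trans b2 (H.eq.symm (H.app_add (ξ := fun t => ξ (n - t)) he m)))).2]
  omega

open Classical in
theorem Hyp.cnt (H : Hyp E A) {D : ℕ}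
    (hD : ∀ a, ∃ F : Finset X, F.card ≤ D ∧ ∀ b, A a b → ∃ f ∈ F, E f b) (a : X) (t : ℕ) :
    ∃ G : Finset X, G.card ≤ (D + 1) ^ t ∧ ∀ b, C E A a b → r E A a b ≤ t → ∃ f ∈ G, E f b := by
  choose F hF hF' using hD
  induction t with
  | zero =>
    refine ⟨{a}, by simp, fun b h1 h2 => ⟨a, by simp, ?_⟩⟩
    obtain ⟨ξ, n, rfl, h3, -, -, h4⟩ := H.geo h1
    obtain rfl : n = 0 := by omega
    exact H.eq.symm h3
  | succ t ih =>
    obtain ⟨G, h1, h2⟩ := ih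
    refine ⟨G ∪ G.biUnion F, ?_, fun b h3 h4 => ?_⟩
    · refine (Finset.card_union_le _ _).trans ?_
      have := Finset.card_biUnion_le_card_mul G F D fun f _ => hF f
      rw [pow_succ, mul_add, mul_one]
      have := Nat.mul_le_mul_right D h1
      omega
    · by_cases h5 : r E A a b ≤ t
      · obtain ⟨f, h6, h7⟩ := h2 b h3 h5
        exact ⟨f, Finset.mem_union_left _ h6, h7⟩
      · obtain ⟨ξ, n, rfl, h6, h7, -, h8⟩ := H.geo h3
        obtain rfl : n = t + 1 := by omega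
        obtain ⟨h9, h10⟩ := H.con (h7.mono t.le_succ) (H.eq.refl _) (H.eq.refl _)
        obtain ⟨f, h11, h12⟩ := h2 _ h9 h10
        obtain ⟨g, h13, h14⟩ := hF' f b (H.cg (h7 t t.lt_succ_self) (H.eq.symm h12) (H.eq.symm h6))
        exact ⟨g, Finset.mem_union_right _ (Finset.mem_biUnion.2 ⟨f, h11, h13⟩), h14⟩

end Tree2

open Tree2 in
theorem tree2 : Tree2Stmt := by
  intro p 𝔇 i hR hX hH s hs c
  have H : Hyp (fun a b : Gam p => b * a⁻¹ ∈ K 𝔇 (i - 1) s) (Adj 𝔇 i s c) :=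
    ⟨⟨fun a => by simp, fun h => by simpa using inv_mem h,
      fun h h' => by simpa [mul_assoc] using mul_mem h' h⟩, fun h => hX.sym s hs c _ _ h,
      fun h h1 h2 => h.congr hs h1 h2, fun ξ n h1 h2 => (hX.nb s hs c ξ n h1 h2).2.1⟩
  have hd : ∀ {b b' : Gam p}, b' * b⁻¹ ∈ K 𝔇 (i - 1) s → ∀ a,
      dj 𝔇 (i - 1) s a b' = dj 𝔇 (i - 1) s a b := fun {b b'} h a => by
    rw [← dj_mul_right h a b, inv_mul_cancel_right]
  refine ⟨fun a b h => ?_, fun a b h => ?_, fun a b e h h' => ?_, fun a b h h0 => ?_,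
    fun a b h => ?_, fun a b a' b' h h' => ?_, fun a b h => ?_, fun x x' y h h' => ?_,
    fun x x' y y' => H.cut, fun o a a' b h1 h2 h3 h4 h5 => ?_, fun a b t => ⟨?_, ?_⟩,
    fun F hF => ?_, H.cnt (hX.deg s hs c), fun a b t h ht => ?_⟩
  · exact H.r_eq (ξ := fun _ => a) (n := 0) (fun _ h => by omega) (fun _ h => by omega)
      (H.eq.refl _) (H.eq.symm h)
  · obtain ⟨ξ, n, rfl, h1, h2, h3, h4⟩ := H.geo h
    have := H.r_eq (a := b) (b := ξ 0) (H.revP h2) (H.revN h3) h1 (by simp)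
    exact ⟨this.1, this.2.trans h4.symm⟩
  · obtain ⟨ξ, n, rfl, h1, h2, -, h4⟩ := H.geo h
    obtain ⟨η, m, rfl, h5, h6, -, h7⟩ := H.geo h'
    have := H.con (a := ξ 0) (H.appP h2 h6 (H.eq.symm h1)) (by simp [app_zero])
      (H.eq.trans h5 (H.eq.symm (H.app_add (H.eq.symm h1) m)))
    exact ⟨this.1, this.2.trans (congrArg₂ (· + ·) h4 h7).ge⟩
  · obtain ⟨ξ, n, rfl, h1, -, -, h4⟩ := H.geo h
    obtain rfl : n = 0 := h4.symm.trans h0
    exact H.eq.symm h1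
  · exact H.r_eq (one_P h) (fun _ h => by omega) (by simp) (by simp)
  · refine congrArg sInf (Set.ext fun n => ⟨?_, ?_⟩)
    · rintro ⟨ξ, rfl, h1, h2⟩
      exact H.start h2 h (H.eq.trans h' h1)
    · rintro ⟨ξ, rfl, h1, h2⟩
      exact H.start h2 (H.eq.symm h) (H.eq.trans (H.eq.symm h') h1)
  · obtain ⟨ξ, n, rfl, h1, h2, h3, h4⟩ := H.geo h
    rw [show rd 𝔇 i s c (ξ 0) b = n from h4, ← hd h1]
    refine ⟨(hX.nb s hs c ξ n h2 h3).1, ?_⟩
    clear h4 h3 h1 h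
    induction n with
    | zero => simp [(hH s hs).refl]
    | succ n ih =>
      have h5 := ih (h2.mono n.le_succ)
      have h6 := (h2 n n.lt_succ_self).dj_le hR
      have h7 := (hH s hs).tri (ξ 0) (ξ n) (ξ (n + 1))
      rw [Nat.mul_succ]
      omega
  · obtain ⟨ξ, n, rfl, h1, h2, h3, h4⟩ := H.geo h'
    exact (H.step h2 h3 h h1).imp (fun h5 => h4.trans h5.2.symm)
      fun h5 => h5.2.trans (congrArg (· + 1) h4.symm)
  · obtain ⟨ξ, n, rfl, h6, h7, h8, h9⟩ := H.geo h3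
    rw [show rd 𝔇 i s c (ξ 0) o = n from h9] at h4 h5
    have h10 := ((H.step h7 h8 h1 h6).resolve_right fun h => by
      have : rd 𝔇 i s c a o = n + 1 := h.2
      omega).1
    have h11 := ((H.step h7 h8 h2 h6).resolve_right fun h => by
      have : rd 𝔇 i s c a' o = n + 1 := h.2
      omega).1
    exact H.eq.trans h10 (H.eq.symm h11)
  · rintro ⟨k, hk, y, hy, rfl⟩
    obtain ⟨ξ, n, h1, rfl, rfl, -, h2⟩ := Tn_path hy
    have := H.con (a := ξ 0) (b := k * ξ n) h2 (H.eq.refl _) (by simpa using inv_mem hk)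
    exact ⟨this.1, this.2.trans h1⟩
  · rintro ⟨h, ht⟩
    obtain ⟨ξ, n, rfl, h1, h2, -, h4⟩ := H.geo h
    have := mul_mem_Sat (H.eq.symm h1)
      (Sat_mono le_rfl (Tn_mono _ (h4.ge.trans ht)) (path_mem_Tn hs h2 n le_rfl))
    rwa [inv_mul_cancel_right] at this
  · rintro _ ⟨k, hk, a, ha, rfl⟩ _ ⟨k', hk', b, hb, rfl⟩ m hm
    obtain ⟨ξ, n, rfl, h1, h2, h3⟩ := hF a ha b hb
    obtain ⟨η, l, -, h4, h5, h6, h7, h8⟩ := H.red n ξ h2
    obtain ⟨t, ht, h9⟩ := (hX.nb s hs c η l h6 h7).2.2 m (by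
      unfold Btw at hm ⊢
      rw [dj_mul_left hk, dj_mul_left hk, dj_mul_right hk', dj_mul_right hk'] at hm
      rw [h4, hd (H.eq.trans h1 h5), hd (H.eq.trans h1 h5), hm])
    obtain ⟨t', h10, h11⟩ := h8 t ht
    exact ⟨_, h3 t' h10, h11 ▸ h9⟩
  · obtain ⟨ξ, n, rfl, -, h2, h3, h4⟩ := H.geo h
    exact ⟨ξ t, H.r_eq (h2.mono (ht.trans h4.le)) (h3.mono (ht.trans h4.le)) (H.eq.refl _)
      (H.eq.refl _)⟩

end Pool.Agent.MP_735563_an.H2
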