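import Pool.Agent.MP_735563_an.H2.Spec3

set_option autoImplicit false

/-! Walks in the finite graph of views. -/

namespace Pool.Agent.MP_735563_an.H2

namespace Walk

variable {p : ℕ} {𝔇 : ℕ → Lev p} {i : ℕ} {Z : Type} {vw : Z → St p} {H : Z → Finset (Gam p)}
  {nx : Z × Gam p → Z × Gam p} {wd : Z × Gam p → Gam p}

theorem tail {z : Z} {a : Gam p} : ∀ {t : List (Gam p)}, nbw H nx wd z (a :: t) → nbw H nx wd z t
  | [], _ => trivial
  | _ :: _, h => h.1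

theorem mem {z : Z} {a : Gam p} : ∀ {t : List (Gam p)}, nbw H nx wd z (a :: t) →
    a ∈ H (wk nx wd z t).1
  | [], h => h
  | _ :: _, h => h.2.1

theorem suffix {z : Z} : ∀ {t : List (Gam p)}, nbw H nx wd z t → ∀ t', t' <:+ t → nbw H nx wd z t'
  | [], h, t', h' => by rwa [List.suffix_nil.1 h']
  | a :: t, h, t', h' => by
    rcases List.suffix_cons_iff.1 h' with rfl | h'
    exacts [h, suffix (tail h) t' h']

theorem step (G : GD 𝔇 i vw H nx wd) {z z' : Z} {g a : Gam p} (h : Pos H nx wd z g z')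
    (ha : a ∈ H z') : Pos H nx wd z (g * wd (z', a)) (nx (z', a)).1 := by
  obtain ⟨t, h1, h2⟩ := h
  match t, h1, h2 with
  | [], _, h2 =>
    obtain ⟨rfl, rfl⟩ := Prod.mk.inj h2
    exact ⟨[a], ha, rfl⟩
  | b :: t, h1, h2 =>
    by_cases e : (z', a) = nx ((wk nx wd z t).1, b)
    · refine ⟨t, tail h1, ?_⟩
      have h3 : g = (wk nx wd z t).2 * wd ((wk nx wd z t).1, b) := (congrArg Prod.snd h2).symm
      rw [e, G.inv ((wk nx wd z t).1, b) (mem h1), G.wdi ((wk nx wd z t).1, b) (mem h1), h3,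
        mul_inv_cancel_right]
    · refine ⟨a :: b :: t, ⟨h1, by rwa [h2], by rwa [h2]⟩, ?_⟩
      rw [wk, h2]

theorem trans (G : GD 𝔇 i vw H nx wd) {z z' : Z} {g : Gam p} (h : Pos H nx wd z g z') :
    ∀ t, nbw H nx wd z' t → Pos H nx wd z (g * (wk nx wd z' t).2) (wk nx wd z' t).1
  | [], _ => by simpa [wk] using h
  | a :: t, ht => by
    have := step G (trans G h t (tail ht)) (mem ht)
    rwa [mul_assoc] at this

theorem symm (G : GD 𝔇 i vw H nx wd) {z : Z} :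
    ∀ t, nbw H nx wd z t → Pos H nx wd (wk nx wd z t).1 (wk nx wd z t).2⁻¹ z
  | [], _ => ⟨[], trivial, by simp [wk]⟩
  | a :: t, ht => by
    have h1 := step G (g := 1) ⟨[], trivial, rfl⟩ (G.mem ((wk nx wd z t).1, a) (mem ht))
    rw [Prod.mk.eta, G.inv ((wk nx wd z t).1, a) (mem ht), G.wdi ((wk nx wd z t).1, a) (mem ht),
      one_mul] at h1
    obtain ⟨t', h2, h3⟩ := symm G t (tail ht)
    have h4 := trans G h1 t' h2
    rw [h3, ← mul_inv_rev] at h4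
    exact h4

theorem adj (C : Ctx 𝔇 i) (G : GD 𝔇 i vw H nx wd) {o : St p} (ho : ValZ 𝔇 (i - 1) o) {y : Z}
    {x a : Gam p} (ha : a ∈ H y) (h : Le (tr x (vw y)) o) : Adj 𝔇 i o 0 x (x * wd (y, a)) := by
  obtain ⟨E, ⟨h1, h2, h3, h4⟩, h5, -⟩ := G.edge (y, a) ha
  have h6 : RC 𝔇 i E 1 := rc_of_seed C.const h2 h4.ge
    (subset_Sat _ _ (Or.inl (mem_Tn_self _ _)))
  have h7 := RC.adj (by have := C.two; omega) C.rule (C.th.2.1 _ le_rfl) (h1.1.1.tr x) ho
    ((h5.tr x).trans h) (RC_tr.2 h6) (Adj_tr.2 h3)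
  rwa [mul_one] at h7

theorem sep (C : Ctx 𝔇 i) (G : GD 𝔇 i vw H nx wd) {o : St p} (ho : ValZ 𝔇 (i - 1) o) {y : Z}
    {x a a' : Gam p} (ha : a ∈ H y) (ha' : a' ∈ H y) (h : Le (tr x (vw y)) o)
    (hk : x * wd (y, a') * (x * wd (y, a))⁻¹ ∈ K 𝔇 (i - 1) o) : a = a' := by
  obtain ⟨h1, h2, -, h4⟩ := G.view y
  refine G.sep y a ha a' ha' ?_
  have h5 := (C.th.2.1 _ le_rfl).2.2.1 _ _ (h1.1.1.tr x) ho h x (wd (y, a') * (wd (y, a))⁻¹)
    (fun u hu => Comp_tr.2 (h2.comp (h4.ge ?_))) (by simpa [mul_assoc] using hk)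
  · rw [K_tr, mem_cjs] at h5
    simpa [mul_assoc] using h5
  · have h6 := len_mul_le (wd (y, a')) (wd (y, a))⁻¹
    have h7 := G.len (y, a) ha
    have h8 := G.len (y, a') ha'
    have h9 := C.const.θ
    rw [len_inv] at h6
    simpa using mul_mem_Nb (subset_Sat _ _ (mem_Tn_self 1 _)) (show len u ≤ (𝔇 i).θ by omega)

theorem suf_ne {a : Gam p} {t t' : List (Gam p)} (h : t' <:+ t) : t' <:+ a :: t ∧ t' ≠ a :: t :=
  ⟨h.trans (List.suffix_cons a t), fun e => by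
    have := h.length_le
    rw [e, List.length_cons] at this
    omega⟩

theorem rdl (C : Ctx 𝔇 i) (G : GD 𝔇 i vw H nx wd) {o : St p} (ho : ValZ 𝔇 (i - 1) o)
    (T : TreeP 𝔇 i o 0) {z : Z} : ∀ t, nbw H nx wd z t →
    (∀ t', t' <:+ t → t' ≠ t → Le (piece vw nx wd z t') o) →
    Con 𝔇 i o 0 1 (wk nx wd z t).2 ∧ rd 𝔇 i o 0 1 (wk nx wd z t).2 = t.length
  | [], _, _ => T.eqv 1 1 (by simp)
  | [a], ht, h => by
    have := T.adj _ _ (adj C G ho (mem ht) (h [] List.nil_suffix (by simp)))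
    exact this
  | a :: b :: t, ht, h => by
    have hb := tail ht
    have p1 := h _ (suf_ne List.suffix_rfl).1 (suf_ne List.suffix_rfl).2
    have p0 := h _ (suf_ne (List.suffix_cons b t)).1 (suf_ne (List.suffix_cons b t)).2
    obtain ⟨c1, r1⟩ := rdl C G ho T (b :: t) hb fun t' h1 _ => h t' (suf_ne h1).1 (suf_ne h1).2
    obtain ⟨c0, r0⟩ := rdl C G ho T t (tail hb) fun t' h1 _ =>
      h t' (suf_ne (suf_ne h1).1).1 (suf_ne (suf_ne h1).1).2
    have a1 : Adj 𝔇 i o 0 (wk nx wd z (b :: t)).2 (wk nx wd z (a :: b :: t)).2 :=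
      adj C G ho (mem ht) p1
    have a0 : Adj 𝔇 i o 0 (wk nx wd z t).2 (wk nx wd z (b :: t)).2 := adj C G ho (mem hb) p0
    have c2 := (T.tri _ _ _ c1 (T.adj _ _ a1).1).1
    refine ⟨c2, ?_⟩
    have s0 := (T.symm _ _ c0).2
    have s1 := T.symm _ _ c1
    have s2 := (T.symm _ _ c2).2
    simp only [List.length_cons] at r1 ⊢
    rcases T.side _ _ 1 a1 s1.1 with h1 | h1
    · exfalso
      have h2 := T.parent 1 _ _ _ (C.rx.sym o ho _ _ _ a0) a1 s1.1 (by omega) (by omega)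
      have hm := G.mem ((wk nx wd z t).1, b) (mem hb)
      have e : (wk nx wd z t).2 = (wk nx wd z (b :: t)).2 *
          wd ((wk nx wd z (b :: t)).1, (nx ((wk nx wd z t).1, b)).2) := by
        have := G.wdi ((wk nx wd z t).1, b) (mem hb)
        simp only [wk, Prod.mk.eta, this, mul_inv_cancel_right]
      rw [e] at h2
      exact ht.2.2 (Prod.ext rfl (sep C G ho hm (mem ht) p1 h2).symm)
    · omega

theorem inj (C : Ctx 𝔇 i) (G : GD 𝔇 i vw H nx wd) {o : St p} (ho : ValZ 𝔇 (i - 1) o)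
    (T : TreeP 𝔇 i o 0) {z : Z} : ∀ t₁ t₂, nbw H nx wd z t₁ → nbw H nx wd z t₂ →
    (∀ t', t' <:+ t₁ → t' ≠ t₁ → Le (piece vw nx wd z t') o) →
    (∀ t', t' <:+ t₂ → t' ≠ t₂ → Le (piece vw nx wd z t') o) →
    (wk nx wd z t₂).2 * ((wk nx wd z t₁).2)⁻¹ ∈ K 𝔇 (i - 1) o → t₁ = t₂ := by
  intro t₁
  induction t₁ with
  | nil =>
    intro t₂ _ h2 _ p2 hk
    have h3 := (rdl C G ho T t₂ h2 p2).2
    rw [(T.eqv 1 _ hk).2] at h3
    exact (List.length_eq_zero_iff.1 h3.symm).symm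
  | cons a t ih =>
    intro t₂ h1 h2 p1 p2 hk
    obtain ⟨c1, r1⟩ := rdl C G ho T _ h1 p1
    obtain ⟨c2, r2⟩ := rdl C G ho T _ h2 p2
    have e1 := T.congr 1 _ 1 _ (by simp) hk
    match t₂, h2, p2, hk, c2, r2, e1 with
    | [], _, _, _, _, r2, e1 =>
      rw [r1, r2] at e1
      simp at e1
    | a' :: t', h2, p2, hk, c2, r2, e1 =>
      have q1 : ∀ s, s <:+ t → Le (piece vw nx wd z s) o := fun s h =>
        p1 s (suf_ne h).1 (suf_ne h).2
      have q2 : ∀ s, s <:+ t' → Le (piece vw nx wd z s) o := fun s h =>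
        p2 s (suf_ne h).1 (suf_ne h).2
      obtain ⟨d1, u1⟩ := rdl C G ho T t (tail h1) fun s h _ => q1 s h
      obtain ⟨d2, u2⟩ := rdl C G ho T t' (tail h2) fun s h _ => q2 s h
      have a1 : Adj 𝔇 i o 0 (wk nx wd z t).2 (wk nx wd z (a :: t)).2 :=
        adj C G ho (mem h1) (q1 t List.suffix_rfl)
      have a2 : Adj 𝔇 i o 0 (wk nx wd z t').2 (wk nx wd z (a' :: t')).2 :=
        adj C G ho (mem h2) (q2 t' List.suffix_rfl)
      have a3 := (C.rx.sym o ho _ _ _ a2).congr ho (a' := (wk nx wd z (a :: t)).2)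
        (b' := (wk nx wd z t').2) (by simpa using (K 𝔇 (i - 1) o).inv_mem hk) (by simp)
      have s1 := T.symm _ _ c1
      have s2 := (T.symm _ _ d1).2
      have s3 := (T.symm _ _ d2).2
      simp only [List.length_cons] at r1 r2
      have h3 := T.parent 1 _ _ _ (C.rx.sym o ho _ _ _ a1) a3 s1.1 (by omega) (by omega)
      obtain rfl := ih t' (tail h1) (tail h2) (fun s h _ => q1 s h) (fun s h _ => q2 s h) h3
      rw [sep C G ho (mem h1) (mem h2) (q1 t List.suffix_rfl) hk]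

end Walk

theorem walk (h : Tree2Stmt) : WalkStmt := by
  intro p _ 𝔇 i C Z vw H nx wd G
  refine ⟨fun z => ⟨[], trivial, rfl⟩, fun z g z' h1 a ha => Walk.step G h1 ha,
    fun z g z' g' z'' h1 ⟨t, h2, h3⟩ => ?_, fun z g z' ⟨t, h1, h2⟩ => ?_,
    fun z t h1 => Walk.suffix h1, fun z a t h1 => Walk.mem h1, fun z o ho => ?_⟩
  · have := Walk.trans G h1 t h2
    rwa [h3] at this
  · have := Walk.symm G t h1
    rwa [h2] at this
  · have T := h p 𝔇 i C.rule C.rx (C.th.2.1 _ le_rfl).1 o ho 0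
    exact ⟨fun t a ha h1 => Walk.adj C G ho ha h1, Walk.rdl C G ho T, Walk.inj C G ho T⟩

end Pool.Agent.MP_735563_an.H2
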