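import Pool.Agent.MP_735563_an.H2.Spec3

set_option autoImplicit false

/-! Row Wrap: from the universal cover to the models of a level. -/

namespace Pool.Agent.MP_735563_an.H2

namespace Wrap

variable {p : ℕ}

/-- the level data at `i` encode the covers -/
structure Hyp (𝔇 : ℕ → Lev p) (i : ℕ) {Z : Type} (lab : Z → ℕ) (vw τ T : Z → St p)
    (P : Z → Gam p → Z → Prop) : Prop where
  two : 2 ≤ i
  th : Th 𝔇 (i - 1)
  rule : RuleOK 𝔇 i
  const : ConstA 𝔇 i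
  mc : MC 𝔇 i vw τ P
  inj : Function.Injective lab
  ne : ∀ z, lab z ≠ 0
  mem : ∀ c x, x ∈ (𝔇 i).Z c ↔ c = 0 ∧ ∃ z, lab z = x
  hL : ∀ z l, l ∈ (𝔇 i).L 0 (lab z) ↔ ∃ g, P z g z ∧ l * g⁻¹ ∈ K 𝔇 (i - 1) (τ z)
  hT : ∀ z, (𝔇 i).τ 0 (lab z) = T z
  low : ∀ z q κ, κ ≠ (i, some 0) → T z q κ = τ z q κ
  top : ∀ z g z' q, P z g z' → q * g⁻¹ ∈ K 𝔇 (i - 1) (τ z) → T z q (i, some 0) = lab z'
  top' : ∀ z q, T z q (i, some 0) ≠ 0 → ∃ g z', P z g z' ∧ q * g⁻¹ ∈ K 𝔇 (i - 1) (τ z)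

variable {𝔇 : ℕ → Lev p} {i : ℕ} {Z : Type} {lab : Z → ℕ} {vw τ T : Z → St p}
  {P : Z → Gam p → Z → Prop}

theorem ne_top {κ : Kind} (h : rk κ ≤ 2 * i) : κ ≠ (i, some 0) := by
  rintro rfl
  rw [rk_some] at h
  omega

theorem K_hom (h : MC 𝔇 i vw τ P) {z z' : Z} {g k : Gam p} (hP : P z g z') :
    k ∈ K 𝔇 (i - 1) (τ z) ↔ g⁻¹ * k * g ∈ K 𝔇 (i - 1) (τ z') := by
  rw [← h.hom z g z' hP, K_tr, mem_cjs]

namespace Hyp

variable (h : Hyp 𝔇 i lab vw τ T P)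
include h

theorem fr (z : Z) : Fr (2 * i) (τ z) (T z) := fun x κ _ h2 => (h.low z x κ (ne_top h2)).symm

theorem rk_le {z : Z} {x : Gam p} {κ : Kind} (hx : τ z x κ ≠ 0) : rk κ ≤ 2 * i := by
  have := (h.mc.lv z x κ hx).2
  have := h.two
  omega

theorem le (z : Z) : Le (τ z) (T z) := fun x κ hx => h.low z x κ (ne_top (h.rk_le hx))

theorem le_of {σ : St p} (hσ : Lv (i - 1) σ) {z : Z} (hl : Le σ (T z)) : Le σ (τ z) :=
  fun x κ hx => by
    have := (hσ x κ hx).2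
    have := h.two
    rw [← h.low z x κ (ne_top (by omega)), hl x κ hx]

theorem K_eq (z : Z) : K 𝔇 (i - 1) (T z) = K 𝔇 (i - 1) (τ z) :=
  ((h.fr z).K_eq (by have := h.two; omega)).symm

theorem c_eq {z : Z} {x : Gam p} {c : Fin 3} (hx : T z x (i, some c) ≠ 0) : c = 0 := by
  by_contra hc
  rw [h.low z x _ (by simpa using hc)] at hx
  have := h.rk_le hx
  rw [rk_some] at this
  omega

theorem le_hom {z z' : Z} {g k : Gam p} (hk : k ∈ K 𝔇 (i - 1) (τ z)) (hP : P z g z') :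
    Le (T z) (tr (k * g) (T z')) := by
  intro q κ hq
  by_cases hκ : κ = (i, some 0)
  · subst hκ
    obtain ⟨g1, z1, h1, h2⟩ := h.top' z q hq
    rw [h.top z g1 z1 q h1 h2]
    refine h.top z' (g⁻¹ * g1) z1 _ (h.mc.trans _ _ _ _ _ (h.mc.symm _ _ _ hP) h1) ?_
    have := (K_hom h.mc hP).1 (mul_mem (inv_mem hk) h2)
    simpa [mul_assoc] using this
  · show T z' ((k * g)⁻¹ * q) κ = T z q κ
    rw [h.low z q κ hκ, h.low z' _ κ hκ]
    have e : tr (k * g) (τ z') = τ z := by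
      rw [tr_mul, h.mc.hom z g z' hP, (h.mc.val z).1.stab hk]
    exact congrFun (congrFun e q) κ

theorem hom {z z' : Z} {g q : Gam p} (hP : P z g z') (hk : q * g⁻¹ ∈ K 𝔇 (i - 1) (τ z)) :
    tr q (T z') = T z := by
  refine Le.antisymm (le_tr_iff.2 ?_) (by simpa using h.le_hom hk hP)
  have := h.le_hom ((K_hom h.mc hP).1 (inv_mem hk)) (h.mc.symm _ _ _ hP)
  simpa [mul_assoc] using this

theorem stabL {z : Z} {l : Gam p} (hl : l ∈ (𝔇 i).L 0 (lab z)) : tr l (T z) = T z := by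
  obtain ⟨g, h1, h2⟩ := (h.hL z l).1 hl
  exact h.hom h1 h2

theorem K_le {z : Z} {k : Gam p} (hk : k ∈ K 𝔇 (i - 1) (τ z)) : k ∈ (𝔇 i).L 0 (lab z) :=
  (h.hL z k).2 ⟨1, h.mc.refl z, by simpa using hk⟩

theorem quot {z z' : Z} {g g' q q' : Gam p} (hP : P z g z') (hP' : P z g' z')
    (hk : q * g⁻¹ ∈ K 𝔇 (i - 1) (τ z)) (hk' : q' * g'⁻¹ ∈ K 𝔇 (i - 1) (τ z)) :
    q' * q⁻¹ ∈ (𝔇 i).L 0 (lab z) := by
  have h1 : g' * g⁻¹ ∈ (𝔇 i).L 0 (lab z) :=
    (h.hL z _).2 ⟨_, h.mc.trans _ _ _ _ _ hP' (h.mc.symm _ _ _ hP), by simp⟩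
  have := mul_mem (mul_mem (h.K_le hk') h1) (inv_mem (h.K_le hk))
  simpa [mul_assoc] using this

theorem conj {z z' : Z} {g q l : Gam p} (hP : P z g z') (hk : q * g⁻¹ ∈ K 𝔇 (i - 1) (τ z))
    (hl : l ∈ (𝔇 i).L 0 (lab z')) : q * l * q⁻¹ ∈ (𝔇 i).L 0 (lab z) := by
  obtain ⟨g', h1, h2⟩ := (h.hL z' l).1 hl
  refine h.quot hP (h.mc.trans _ _ _ _ _ hP h1) hk ?_
  have h3 : g * (l * g'⁻¹) * g⁻¹ ∈ K 𝔇 (i - 1) (τ z) :=
    (K_hom h.mc hP).2 (by simpa [mul_assoc] using h2)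
  simpa [mul_assoc] using mul_mem hk h3

theorem root (z : Z) : T z 1 (i, some 0) = lab z := h.top z 1 z 1 (h.mc.refl z) (by simp)

theorem grp (z : Z) : K 𝔇 i (T z) = (𝔇 i).L 0 (lab z) := by
  have h2 := h.two
  refine le_antisymm ((Subgroup.closure_le _).2 ?_) fun l hl => ?_
  · rintro u ⟨j, c, x, h1, h3, h4, h5⟩
    have e : u = x * (x⁻¹ * u * x) * x⁻¹ := by simp [mul_assoc]
    rcases Nat.eq_or_lt_of_le h3 with rfl | h6
    · obtain rfl := h.c_eq h4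
      obtain ⟨g, z', a, b⟩ := h.top' z x h4
      rw [h.top z g z' x a b] at h5
      rw [e]
      exact h.conj a b h5
    · rw [e]
      exact h.K_le (h.K_eq z ▸ mem_K h1 (by omega) h4 h5)
  · have := mem_K (𝔇 := 𝔇) (i := i) (j := i) (s := T z) (x := 1) (l := l) (c := 0) (by omega)
      le_rfl (by rw [h.root]; exact h.ne z) (by rw [h.root]; exact hl)
    simpa using this

theorem lowT {z : Z} {x : Gam p} {κ : Kind} (hx : T z x κ ≠ 0) :
    2 ≤ rk κ ∧ (rk κ ≤ 2 * i ∨ κ = (i, some 0)) := by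
  by_cases hκ : κ = (i, some 0)
  · have := h.two
    exact ⟨by rw [hκ, rk_some]; omega, Or.inr hκ⟩
  · rw [h.low z x κ hκ] at hx
    exact ⟨(h.mc.lv z x κ hx).1, Or.inl (h.rk_le hx)⟩

theorem lv (z : Z) : Lv i (T z) := fun x κ hx => by
  obtain ⟨a, b | b⟩ := h.lowT hx
  · exact ⟨a, by omega⟩
  · exact ⟨a, by rw [b, rk_some]; omega⟩

theorem Kall_eq (z : Z) : Kall 𝔇 (T z) = (𝔇 i).L 0 (lab z) := by
  rw [H2.Kall_eq (h.lv z), h.grp]

theorem val (z : Z) : Val 𝔇 i (T z) := by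
  have h2 := h.two
  refine ⟨fun j h1 h3 x c hx => ?_, fun j h1 h3 x => ?_⟩
  · rcases Nat.eq_or_lt_of_le h3 with rfl | h6
    · obtain rfl := h.c_eq hx
      obtain ⟨g, z', a, b⟩ := h.top' z x hx
      rw [h.top z g z' x a b, h.hT, h.hom a b]
      exact ⟨(h.mem _ _).2 ⟨rfl, z', rfl⟩, Le.refl _, fun l hl => h.stabL (h.conj a b hl)⟩
    · have e := h.low z x (j, some c) (ne_top (by rw [rk_some]; omega))
      rw [e] at hx ⊢
      obtain ⟨a, b, -⟩ := (h.mc.val z).1 j h1 (by omega) x c hx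
      exact ⟨a, b.trans (h.le z), fun l hl => h.stabL (h.K_le (mem_K h1 (by omega) hx hl))⟩
  · rw [h.low z x _ (by simp)]
    by_cases hx : τ z x (j, none) = 0
    · omega
    · have := h.rk_le hx
      rw [rk_none] at this
      exact (h.mc.val z).2 j h1 (by omega) x

theorem good [Fintype Z] (z : Z) : Good 𝔇 i (T z) := by
  classical
  refine ⟨h.val z, h.lv z, ?_⟩
  choose F hF using fun z' => (h.mc.view z').1.2.2
  have ex : ∀ z', ∃ g0, ∀ g, P z g z' → P z g0 z' := fun z' => by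
    by_cases a : ∃ g, P z g z'
    · exact ⟨a.choose, fun _ _ => a.choose_spec⟩
    · exact ⟨1, fun g b => absurd ⟨g, b⟩ a⟩
  choose g0 hg using ex
  refine exists_isTr (Finset.univ.biUnion fun z' =>
    insert (g0 z', (i, some 0)) ((F z').image fun a => (g0 z' * a.1, a.2)))
    (fun k hk => h.stabL (h.Kall_eq z ▸ hk)) fun x κ hx => ?_
  rw [h.Kall_eq]
  by_cases hκ : κ = (i, some 0)
  · subst hκ
    obtain ⟨g, z', a, b⟩ := h.top' z x hx
    exact ⟨(g0 z', _), Finset.mem_biUnion.2 ⟨z', Finset.mem_univ _, Finset.mem_insert_self _ _⟩,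
      rfl, h.quot a (hg z' g a) b (by simp)⟩
  · rw [h.low z x κ hκ] at hx
    obtain ⟨k, hk, g, z', a, b⟩ := h.mc.supp z x κ hx
    obtain ⟨e, e1, e2, e3⟩ := (hF z').2.2 _ κ b
    refine ⟨(g0 z' * e.1, e.2), Finset.mem_biUnion.2 ⟨z', Finset.mem_univ _,
      Finset.mem_insert_of_mem (Finset.mem_image_of_mem _ e1)⟩, e2, ?_⟩
    rw [H2.Kall_eq (h.mc.view z').1.2.1] at e3
    have e4 : g0 z' * (e.1 * (g⁻¹ * (k * x))⁻¹) * (g0 z')⁻¹ ∈ K 𝔇 (i - 1) (τ z) :=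
      (K_hom h.mc (hg z' g a)).2 (by simpa [mul_assoc] using K_mono le_rfl (h.mc.le z') e3)
    have e5 := h.quot a (hg z' g a) (q := g) (q' := g0 z') (by simp) (by simp)
    simpa [mul_assoc] using mul_mem (mul_mem (h.K_le e4) e5) (h.K_le hk)

theorem mem_core {z : Z} {e : Gam p} : e ∈ core 𝔇 i 0 (lab z) ↔
    ∃ g z', P z g z' ∧ e * g⁻¹ ∈ K 𝔇 (i - 1) (τ z) := by
  rw [core, h.hT]
  refine ⟨h.top' z e, fun ⟨g, z', a, b⟩ => ?_⟩
  show T z e _ ≠ 0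
  rw [h.top z g z' e a b]
  exact h.ne z'

theorem core_eq (z : Z) :
    core 𝔇 i 0 (lab z) = Sat (K 𝔇 (i - 1) (τ z)) {g | ∃ z', P z g z'} := by
  ext e
  rw [h.mem_core]
  constructor
  · rintro ⟨g, z', a, b⟩
    exact ⟨_, b, g, ⟨z', a⟩, by simp⟩
  · rintro ⟨k, hk, g, ⟨z', a⟩, rfl⟩
    exact ⟨g, z', a, by simpa using hk⟩

theorem m7 : M7 (𝔇 i) i := by
  intro c x hx e e' h1 h2
  obtain ⟨rfl, z, rfl⟩ := (h.mem c x).1 hx
  rw [h.hT] at h1 h2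
  obtain ⟨g, z1, a, b⟩ := h.top' z e h1
  obtain ⟨g', z2, a', b'⟩ := h.top' z e' (h2 ▸ h1)
  rw [h.top z g z1 e a b, h.top z g' z2 e' a' b'] at h2
  obtain rfl := h.inj h2
  exact h.quot a a' b b'

theorem W_pos [Fintype Z] (hφ : ∀ z, 0 < (𝔇 i).φ 0 (lab z)) (z : Z) : 0 < W 𝔇 (T z) := by
  have h2 := h.two
  obtain ⟨F, hF⟩ := (h.good z).2.2
  rw [W_eq (fun _ hk => (h.good z).stab hk) hF]
  refine Finset.prod_pos fun a ha => ?_
  have h1 := hF.1 a ha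
  obtain ⟨h3, h4 | h4⟩ := h.lowT h1
  · rw [h.low z _ _ (ne_top h4)] at h1 ⊢
    obtain ⟨x, j, _ | c⟩ := a
    · rw [rk_none] at h3 h4
      have : (0 : ℚ) < (𝔇 j).nE := by exact_mod_cast h.th.1.nE_pos (by omega) (by omega)
      simpa [wt] using this
    · rw [rk_some] at h3 h4
      exact ((h.th.ok (by omega) (by omega)).2.2.at' c _
        ((h.mc.val z).1 j (by omega) (by omega) x c h1).1).pos
  · rw [h4] at h1 ⊢
    obtain ⟨g, z', b, c⟩ := h.top' z _ h1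
    rw [h.top z g z' _ b c]
    exact hφ z'

theorem modelAt [Fintype Z] (h3 : VUStmt) (hH : HoleP 𝔇 i τ P)
    (hq : ∀ z, QC (dj 𝔇 (i - 1) (τ z)) (Sat (K 𝔇 (i - 1) (τ z)) {g | ∃ z', P z g z'}) (𝔇 i).κ)
    (hD : ∀ z g z', P z g z' → ∃ g', P z g' z' ∧ len g' ≤ (𝔇 i).D) (z : Z)
    (hφ : 0 < (𝔇 i).φ 0 (lab z)) (hW : W 𝔇 (T z) = 1 / (𝔇 i).M 0) : ModelAt 𝔇 i 0 (lab z) := by
  have h2 := h.two
  have h1 : 1 ≤ i := by omega
  have hf := h.fr z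
  have ht : Tow 𝔇 (i - 1) (T z) := hf.tow (fun j a b => (h.th.ok a b).1) (by omega) (h.mc.tow z)
  have hd : Dm (i - 1) (T z) = Nb (𝔇 i).θ (core 𝔇 i 0 (lab z)) := by
    rw [← hf.Dm_eq (by omega), h.mc.dm, h.core_eq]
  have e1 : ∀ q c', T z q (1, some c') = τ z q (1, some c') := fun q c' =>
    h.low z q _ (ne_top (by rw [rk_some]; omega))
  refine ⟨h.ne z, hφ, ?_, ?_, ?_, ?_, ?_, ?_, ?_, ?_, ?_, ?_, ?_, ?_, ?_, ?_⟩ <;> try rw [h.hT z]
  · exact h.good z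
  · exact fun x κ hx => (h.lowT hx).2
  · exact h.root z
  · exact ht
  · exact hd
  · intro e he
    obtain ⟨g, z', a, b⟩ := h.mem_core.1 he
    have c1 : cenA 𝔇 i (τ z) 0 e := by
      have c2 := ((h3 p 𝔇 i h1 h.th h.rule h.const 0 _ (h.mc.view z')).2.1 1
        (mem_Tn_self 1 _)).cen_iff h1 h.rule (h.th.2.1 _ le_rfl) (h.mc.view z').1.1.1
        (h.mc.val z').1 (h.mc.le z') 0
      have c3 := (cenA_tr (g := g)).2 (c2.1 (h.mc.view z').2.2.1)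
      rw [h.mc.hom z g z' a, mul_one] at c3
      have c4 := (cenA_stab ((h.mc.val z).1.stab b)).2 c3
      rwa [inv_mul_cancel_right] at c4
    refine ⟨(hf.cen_iff h1 le_rfl h.rule 0 e).1 c1, fun w hw => ?_⟩
    rw [← hf.nb_eq h1 le_rfl h.rule] at hw
    have c2 : Adj 𝔇 i (τ z) 0 e (e * w) := ⟨c1, w, hw, by simp⟩
    obtain ⟨g', z'', c3, c4⟩ := h.mc.cl z g z' (e * w) a
      (c2.congr (h.mc.val z).1 (by simpa using inv_mem b) (by simp))
    exact h.mem_core.2 ⟨g', z'', c3, c4⟩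
  · intro e he
    obtain ⟨g, z', a, b⟩ := h.mem_core.1 he
    obtain ⟨ξ, n, c1, c2, c3, c4⟩ := h.mc.conn z g z' a
    refine ⟨ξ, n, ⟨fun t ht' => ?_, fun t ht' => hf.adj h1 le_rfl h.rule (c3 t ht')⟩, c1, ?_⟩
    · obtain ⟨z'', c5⟩ := c4 t ht'
      exact rc_of_seed h.const ht hd.ge (h.mem_core.2 ⟨_, z'', c5, by simp⟩)
    · rw [h.K_eq, c2]
      simpa using inv_mem b
  · exact h.grp z
  · intro e he
    obtain ⟨g, z', a, b⟩ := h.mem_core.1 he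
    rw [h.top z g z' e a b, h.hT, h.hom a b]
  · rw [← hf.dj_eq (by omega), h.core_eq]
    exact hq z
  · intro l hl hn
    obtain ⟨g, a, b⟩ := (h.hL z l).1 hl
    rw [h.K_eq] at hn
    have c := h.mc.disp z g a fun c => hn (by simpa using mul_mem b c)
    rw [← dj_mul_right b, inv_mul_cancel_right] at c
    rwa [← hf.dj_eq (by omega)]
  · intro e he
    obtain ⟨g, z', a, b⟩ := h.mem_core.1 he
    obtain ⟨g', c1, c2⟩ := hD z g z' a
    exact ⟨_, h.quot a c1 b (q' := g') (by simp), by simpa using c2⟩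
  · exact hW
  · rcases hH z with a | ⟨q, c', a, b, c⟩
    · refine Or.inl ⟨h2, fun σ hσ hl q c' => ?_⟩
      rw [a σ hσ (h.le_of hσ.1.2.1 hl), e1]
    · refine Or.inr ⟨q, c', hf.Dm_eq (i := 0) (by omega) ▸ a, by rw [e1, b], fun l hl => ?_⟩
      obtain ⟨g, c1, c2⟩ := (h.hL z l).1 hl
      exact c l g c1 c2

open Classical in
theorem marg [Fintype Z] (h3 : VUStmt) {σ : St p} (hσ : IsV 𝔇 i 0 σ) :
    (((𝔇 i).Z 0).filter fun x => Le σ ((𝔇 i).τ 0 x)).card =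
      (Finset.univ.filter fun z => vw z = σ).card := by
  rw [← Finset.card_image_of_injective _ h.inj]
  congr 1
  ext x
  simp only [Finset.mem_filter, Finset.mem_image, Finset.mem_univ, true_and, h.mem]
  constructor
  · rintro ⟨⟨z, rfl⟩, a⟩
    rw [h.hT] at a
    exact ⟨z, (h3 p 𝔇 i (by have := h.two; omega) h.th h.rule h.const 0 _ (h.mc.view z)).2.2 σ _
      hσ (h.mc.val z).1 (h.mc.le z) (h.le_of hσ.1.2.1 a), rfl⟩
  · rintro ⟨z, rfl, rfl⟩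
    rw [h.hT]
    exact ⟨⟨z, rfl⟩, (h.mc.le z).trans (h.le z)⟩

/-- the weight after a change of the top weights -/
theorem W_change [Fintype Z] {𝔇' : ℕ → Lev p} (h' : Hyp 𝔇' i lab vw τ T P)
    (hL : (𝔇' i).L = (𝔇 i).L) (hw : ∀ κ x, κ ≠ (i, some 0) → rk κ ≤ 2 * i → wt 𝔇' κ x = wt 𝔇 κ x)
    (h1 : ∀ z, (𝔇 i).φ 0 (lab z) = 1) (r : Z)
    (hr : ∀ g z, P r g z → z ≠ r → (𝔇' i).φ 0 (lab z) = 1) :
    W 𝔇' (T r) = W 𝔇 (T r) * (𝔇' i).φ 0 (lab r) := by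
  classical
  obtain ⟨F, hF⟩ := (h.good r).2.2
  have hF' : IsTr 𝔇' (T r) F := by
    unfold IsTr at hF ⊢
    rwa [h'.Kall_eq, hL, ← h.Kall_eq]
  rw [W_eq (fun _ hk => (h.good r).stab hk) hF, W_eq (fun _ hk => (h'.good r).stab hk) hF']
  obtain ⟨a0, a1, a2, a3⟩ := hF.2.2 1 (i, some 0) (by rw [h.root]; exact h.ne r)
  have a4 : T r a0.1 (i, some 0) = lab r := by
    have := apply_of_stab ((h.good r).stab a3) 1
    rw [inv_mul_cancel_right] at this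
    rw [this, h.root]
  rw [← Finset.mul_prod_erase F _ a1, ← Finset.mul_prod_erase F _ a1, a2, a4,
    Finset.prod_congr rfl (g := fun a => wt 𝔇 a.2 (T r a.1 a.2)) fun a ha => ?_]
  · simp only [wt, h1]
    ring
  obtain ⟨b1, b2⟩ := Finset.mem_erase.1 ha
  by_cases hκ : a.2 = (i, some 0)
  · have b3 := hF.1 a b2
    rw [hκ] at b3 ⊢
    obtain ⟨g, z, c1, c2⟩ := h.top' r _ b3
    have b4 := h.top r g z _ c1 c2
    rw [b4]
    simp only [wt]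
    rw [h1, hr g z c1]
    rintro rfl
    refine b1 (hF.2.1 a b2 a0 a1 (hκ.trans a2.symm) ?_)
    rw [h.Kall_eq]
    exact h.m7 0 _ ((h.mem _ _).2 ⟨rfl, z, rfl⟩) _ _ (by rwa [h.hT]) (by rw [h.hT, a4, b4])
  · exact hw _ _ hκ ((h.lowT (hF.1 a b2)).2.resolve_right hκ)

end Hyp

/-- the group of the cover -/
def Lz (h : MC 𝔇 i vw τ P) (z : Z) : Subgroup (Gam p) where
  carrier := {l | ∃ g, P z g z ∧ l * g⁻¹ ∈ K 𝔇 (i - 1) (τ z)}
  one_mem' := ⟨1, h.refl z, by simp⟩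
  mul_mem' := by
    rintro a b ⟨g, a1, a2⟩ ⟨g', b1, b2⟩
    refine ⟨_, h.trans _ _ _ _ _ a1 b1, ?_⟩
    simpa [mul_assoc] using mul_mem a2 (conj_mem_K (h.hom z g z a1) b2)
  inv_mem' := by
    rintro a ⟨g, a1, a2⟩
    refine ⟨_, h.symm _ _ _ a1, ?_⟩
    simpa [mul_assoc] using (K_hom h a1).1 (inv_mem a2)

open Classical in
/-- the cover with the labels of the top level -/
noncomputable def Tz (𝔇 : ℕ → Lev p) (i : ℕ) (lab : Z → ℕ) (τ : Z → St p)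
    (P : Z → Gam p → Z → Prop) (z : Z) : St p := fun q κ =>
  if κ = (i, some 0) then
    if h : ∃ z' g, P z g z' ∧ q * g⁻¹ ∈ K 𝔇 (i - 1) (τ z) then lab h.choose else 0
  else τ z q κ

open Classical in
/-- the level data -/
noncomputable def lev [Fintype Z] (B : Lev p) (lab : Z → ℕ) (M D : ℕ) (L : Z → Subgroup (Gam p))
    (T : Z → St p) (f : Z → ℚ) : Lev p :=
  { B with
    δ := 10 * (D + B.g)
    D := D
    M := fun _ => M
    Z := fun c => if c = 0 then Finset.univ.image lab else ∅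
    L := fun _ => Function.extend lab L fun _ => ⊥
    τ := fun _ => Function.extend lab T fun _ _ _ => 0
    φ := fun _ => Function.extend lab f fun _ => 1 }

end Wrap

open Wrap in
theorem wrap (h1 : CongStmt) (h2 : Tree2Stmt) (h3 : VUStmt) : WrapStmt := by
  classical
  intro p _ 𝔇 i hC Z _ M vw τ P hM hc hmc hH
  have two := hC.two
  obtain ⟨j, rfl⟩ : ∃ j, i = j + 1 := ⟨i - 1, by omega⟩
  obtain ⟨lab, l1, l2⟩ : ∃ lab : Z → ℕ, Function.Injective lab ∧ ∀ z, lab z ≠ 0 :=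
    ⟨fun z => (Fintype.equivFin Z z : ℕ) + 1, fun a b e =>
      (Fintype.equivFin Z).injective (Fin.ext (Nat.succ_injective e)), fun z => Nat.succ_ne_zero _⟩
  obtain ⟨D, hD⟩ : ∃ D, ∀ z g z', P z g z' → ∃ g', P z g' z' ∧ len g' ≤ D := by
    have ex : ∀ e : Z × Z, ∃ g0, ∀ g, P e.1 g e.2 → P e.1 g0 e.2 := fun e => by
      by_cases a : ∃ g, P e.1 g e.2
      · exact ⟨a.choose, fun _ _ => a.choose_spec⟩
      · exact ⟨1, fun g b => absurd ⟨g, b⟩ a⟩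
    choose g0 hg using ex
    exact ⟨Finset.univ.sup fun e => len (g0 e), fun z g z' a => ⟨g0 (z, z'), hg (z, z') g a,
      Finset.le_sup (f := fun e => len (g0 e)) (Finset.mem_univ _)⟩⟩
  obtain ⟨rep, r1, r2⟩ : ∃ rep : Z → Z, (∀ z, ∃ g, P z g (rep z)) ∧
      ∀ z g z', P z g z' → rep z = rep z' := by
    refine ⟨fun z => @Classical.epsilon Z ⟨z⟩ fun z' => ∃ g, P z g z', fun z =>
      Classical.epsilon_spec (p := fun z' => ∃ g, P z g z') ⟨z, 1, hmc.refl z⟩, fun z g z' a => ?_⟩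
    exact congrArg (@Classical.epsilon Z ⟨z⟩) (funext fun y => propext
      ⟨fun ⟨g', b⟩ => ⟨_, hmc.trans _ _ _ _ _ (hmc.symm _ _ _ a) b⟩,
        fun ⟨g', b⟩ => ⟨_, hmc.trans _ _ _ _ _ a b⟩⟩)
  have hq : ∀ z, QC (dj 𝔇 j (τ z)) (Sat (K 𝔇 j (τ z)) {g | ∃ z', P z g z'}) (𝔇 (j + 1)).κ := by
    intro z
    refine (h2 p 𝔇 (j + 1) hC.rule hC.rx (hC.th.2.1 _ le_rfl).1 _ (hmc.val z).1 0).qc _ ?_
    rintro a ⟨za, ha⟩ b ⟨zb, hb⟩
    obtain ⟨ξ, n, c1, c2, c3, c4⟩ := hmc.conn za (a⁻¹ * b) zb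
      (hmc.trans _ _ _ _ _ (hmc.symm _ _ _ ha) hb)
    refine ⟨fun t => a * ξ t, n, by simp [c1], by simp [c2], fun t ht => ?_, fun t ht => ?_⟩
    · rw [← hmc.hom z a za ha]
      exact Adj_tr.2 (c3 t ht)
    · obtain ⟨z'', c5⟩ := c4 t ht
      exact subset_Sat _ _ ⟨z'', hmc.trans _ _ _ _ _ ha c5⟩
  obtain ⟨A, hA⟩ : ∃ A : (Z → ℚ) → Lev p, ∀ f, A f =
      lev (𝔇 (j + 1)) lab M D (Lz hmc) (Tz 𝔇 (j + 1) lab τ P) f := ⟨_, fun _ => rfl⟩
  have req : ∀ f, REq (𝔇 (j + 1)) (A f) := fun f => by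
    rw [hA]
    exact ⟨rfl, rfl, rfl, rfl, rfl, rfl, rfl, rfl, rfl, rfl, rfl⟩
  obtain ⟨E, hE⟩ : ∃ E : (Z → ℚ) → ℕ → Lev p, ∀ f, E f = Function.update 𝔇 (j + 1) (A f) :=
    ⟨_, fun _ => rfl⟩
  have e0 : ∀ f, E f (j + 1) = A f := fun f => by rw [hE, Function.update_self]
  have e1 : ∀ f k, k ≠ j + 1 → E f k = 𝔇 k := fun f k hk => by rw [hE, Function.update_of_ne hk]
  have cg := fun f => h1 p 𝔇 (E f) j fun k hk => (e1 f k (by omega)).symm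
  have cK : ∀ f, K 𝔇 j = K (E f) j := fun f => ((cg f).1 j le_rfl).1
  have cd : ∀ f, dj 𝔇 j = dj (E f) j := fun f => by
    funext s
    rw [dj, dj, cK f]
  have cr := fun f => (cg f).2.2.2 (e0 f ▸ req f)
  have φe : ∀ f z, (E f (j + 1)).φ 0 (lab z) = f z := fun f z => by
    rw [e0, hA]
    exact l1.extend_apply f (fun _ => 1) z
  have hyp : ∀ f, Hyp (E f) (j + 1) lab vw τ (Tz 𝔇 (j + 1) lab τ P) P := fun f => by
    obtain ⟨a1, -, -, -, -, -, a7, -, a9, a10, a11, a12⟩ := cr f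
    have k := cK f
    have ap : APath 𝔇 (j + 1) = APath (E f) (j + 1) := by
      funext s c ξ n
      rw [APath, APath, a7]
    have θe : (E f (j + 1)).θ = (𝔇 (j + 1)).θ := by rw [e0, (req f).2.2.2.2.2.1]
    refine ⟨two, a12 hC.th, a10 hC.rule, a11 hC.const, ⟨a9 ▸ hmc.view, hmc.le, a1 ▸ hmc.val,
      hmc.lv, ((cg f).1 j le_rfl).2.2.2.1 ▸ hmc.tow, hmc.refl, hmc.trans, hmc.symm, hmc.hom,
      k ▸ hmc.supp, k ▸ hmc.inj, k ▸ a7 ▸ hmc.cl, ap ▸ hmc.conn, ?_, ?_, ?_⟩, l1, l2,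
      fun c x => ?_, fun z l => ?_, fun z => ?_, fun z q κ hκ => if_neg hκ,
      fun z g z' q a b => ?_, fun z q a => ?_⟩
    · rw [e0, ← (req f).2.2.2.2.2.2.2.1, Nat.add_sub_cancel, ← k, ← cd f]
      exact hmc.disp
    · rw [θe, Nat.add_sub_cancel, ← k]
      exact hmc.dm
    · rw [θe, Nat.add_sub_cancel, ← k, e1 f j (by omega)]
      exact hmc.dm0
    · rw [e0, hA]
      by_cases a : c = 0 <;> simp [lev, a]
    · rw [e0, hA, Nat.add_sub_cancel, ← k]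
      have : (lev (𝔇 (j + 1)) lab M D (Lz hmc) (Tz 𝔇 (j + 1) lab τ P) f).L 0 (lab z) =
        Lz hmc z := l1.extend_apply (Lz hmc) (fun _ => ⊥) z
      rw [this]
      rfl
    · rw [e0, hA]
      exact l1.extend_apply (Tz 𝔇 (j + 1) lab τ P) (fun _ _ _ => 0) z
    · rw [Nat.add_sub_cancel, ← k] at b
      have ex : ∃ z' g, P z g z' ∧ q * g⁻¹ ∈ K 𝔇 (j + 1 - 1) (τ z) := ⟨z', g, a, b⟩
      rw [Tz, if_pos rfl, dif_pos ex]
      obtain ⟨g', c1, c2⟩ := ex.choose_spec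
      rw [hmc.inj z g' _ g z' c1 a (by simpa [mul_assoc] using mul_mem (inv_mem b) c2)]
    · rw [Nat.add_sub_cancel, ← k]
      by_contra hn
      exact a (by
        rw [Tz, if_pos rfl, dif_neg fun ⟨z', g, b⟩ => hn ⟨g, z', b⟩])
  obtain ⟨f, hf⟩ : ∃ f : Z → ℚ, ∀ z, f z =
      if rep z = z then 1 / (M * W (E fun _ => 1) (Tz 𝔇 (j + 1) lab τ P z)) else 1 :=
    ⟨_, fun _ => rfl⟩
  have wp := (hyp fun _ => 1).W_pos fun z => by rw [φe]; exact one_pos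
  have M0 : (0 : ℚ) < M := by exact_mod_cast hM
  have h := hyp f
  refine ⟨A f, req f, hE f ▸ ⟨?_, fun c => ?_, fun c x hx => ?_, fun c σ hσ => ?_⟩, e0 f ▸ h.m7⟩
  · rw [e0, hA]
    exact le_rfl
  · rw [e0, hA]
    exact hM
  · obtain ⟨rfl, z, rfl⟩ := (h.mem c x).1 hx
    refine h.modelAt h3 (fun y => ?_) ?_ ?_ z ?_ ?_
    · rw [← (cr f).2.2.2.2.2.2.2.2.1, Nat.add_sub_cancel, ← cK f, e0, ← (req f).2.2.2.2.2.1]
      exact hH y
    · rw [Nat.add_sub_cancel, ← cK f, ← cd f, e0, ← (req f).1]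
      exact hq
    · rw [e0, hA]
      exact hD
    · rw [φe, hf]
      have := wp z
      split_ifs <;> positivity
    · obtain ⟨g, a⟩ := r1 z
      have b := (r2 _ _ _ a).symm
      rw [← h.hom a (q := g) (by simp), W_tr (h.good _),
        (hyp fun _ => 1).W_change h (by rw [e0, e0, hA, hA]; rfl) ?_ (φe _) (rep z) ?_, φe, hf,
        if_pos b, e0, hA]
      · have := wp (rep z)
        show _ = 1 / (M : ℚ)
        field_simp
      · rintro ⟨k, o⟩ x a1 a2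
        by_cases a3 : k = j + 1
        · subst a3
          cases o with
          | none => simp only [wt, e0, ← (req _).2.2.2.2.2.2.2.2.1]
          | some c => rw [rk_some] at a2; omega
        · cases o <;> simp only [wt, e1 _ k a3]
      · intro g' y a1 a2
        rw [φe, hf, if_neg]
        rwa [← r2 _ _ _ a1, b, eq_comm]
  · obtain rfl : c = 0 := by
      have a := hσ.2.2.1
      rw [cenA, e0, ← (req f).2.2.2.2.2.2.2.2.2.1] at a
      exact hC.rx.c0 _ _ a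
    rw [h.marg h3 hσ, ← (cr f).2.2.1 σ hσ.1.2.1, e0, hA]
    rw [← (cr f).2.2.2.2.2.2.2.2.1] at hσ
    exact hc σ hσ

end Pool.Agent.MP_735563_an.H2
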