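import Pool.Agent.MP_735563_an.H2.All2
import Pool.Agent.MP_735563_an.H2.Tree2
import Pool.Agent.MP_735563_an.H2.Edge
import Pool.Agent.MP_735563_an.H2.GD
import Pool.Agent.MP_735563_an.H2.Walk
import Pool.Agent.MP_735563_an.H2.PWd
import Pool.Agent.MP_735563_an.H2.PW
import Pool.Agent.MP_735563_an.H2.Core
import Pool.Agent.MP_735563_an.H2.Hole
import Pool.Agent.MP_735563_an.H2.Wrap
import Pool.Agent.MP_735563_an.H2.One
import Pool.Agent.MP_735563_an.H2.MTP
import Pool.Agent.MP_735563_an.H2.Girth
import Pool.Agent.MP_735563_an.H2.En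
import Pool.Agent.MP_735563_an.H2.Spread
import Pool.Agent.MP_735563_an.H2.Angle
import Pool.Agent.MP_735563_an.H2.Grp

set_option autoImplicit false

/-! The models without hypotheses. -/

namespace Pool.Agent.MP_735563_an.H2

theorem graphT : GraphStmt := graph matchS
theorem spreadT : SpreadStmt := spread enAbs
theorem grpT : GrpStmt := grp angle lenS
theorem oneT : OneStmt := one lenS
theorem edgeT (h : FGaStmt) : EdgeStmt := edgeS (allT h) uniqT vuT
theorem gdT (h : FGaStmt) : GDStmt := gdS graphT (edgeT h) vuT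
theorem walkT : WalkStmt := walk tree2
theorem pwdT (h : FGaStmt) : PWdStmt := pwd tree2 (edgeT h) injBT towT
theorem pwT (h : FGaStmt) : PWStmt := pw tree2 walkT (pwdT h) bglueT (edgeT h) vuT
theorem coreT (h : FGaStmt) : CoreStmt := coreS (pwT h) walkT tree2 towT vuT
theorem holeT : HoleStmt := hole spreadT tree2 vuT
theorem wrapT : WrapStmt := wrap cong tree2 vuT
theorem modelT (h : FGaStmt) : ModelStmt := model_of (gdT h) (coreT h) holeT wrapT

end Pool.Agent.MP_735563_an.H2
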