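import Pool.Agent.MP_735563_an.H2.Spec5
import Pool.Agent.MP_735563_an.H20.Cnt

set_option autoImplicit false

/-! The expected number of final edges for fresh flags and words. -/

namespace Pool.Agent.MP_735563_an.H2

namespace ExpA

open Cnt

theorem pr_equiv {Ω Ω' : Type} [Fintype Ω] [Fintype Ω'] (g : Ω ≃ Ω') {A : Ω → Prop}
    {B : Ω' → Prop} (h : ∀ ω, A ω ↔ B (g ω)) : pr A = pr B := by
  classical
  unfold pr
  rw [Fintype.card_congr g]
  congr 2
  exact Finset.card_equiv g fun ω => by simp [h]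

open Classical in
theorem pr_sum {Ω : Type} [Fintype Ω] (A : Ω → Prop) :
    pr A = (∑ ω, if A ω then (1 : ℝ) else 0) / Fintype.card Ω := by
  simp [pr]

theorem indep_emb {V W : Type} {n L m : ℕ} (hn : 0 < n) [Fintype V] [Fintype (V → Lab n L m)]
    (U : W → Prop) (j : W → V) (E : W → Lab n L m ≃ Lab n L m)
    (lab : (V → Lab n L m) → W → Lab n L m) (hj : ∀ a b, U a → U b → j a = j b → a = b)
    (hl : ∀ f q, U q → lab f q = E q (f (j q))) : Indep lab U := by
  classical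
  intro ι κ _ _ c s w hc hs hcU hsU
  let E' : V → Lab n L m ≃ Lab n L m := fun v =>
    if h : ∃ q, U q ∧ j q = v then E h.choose else Equiv.refl _
  have h1 : ∀ q, U q → E' (j q) = E q := fun q hq => by
    have h : ∃ q', U q' ∧ j q' = j q := ⟨q, hq, rfl⟩
    simp only [E', dif_pos h, hj _ _ h.choose_spec.1 hq h.choose_spec.2]
  refine Eq.trans (pr_equiv ((Equiv.piCongrRight E').trans
    (Equiv.arrowCongr (Equiv.subtypeUnivEquiv Finset.mem_univ).symm (Equiv.refl _))) fun f => ?_)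
    (indep_pi hn Finset.univ (fun _ => (⟨0, hn⟩, fun _ _ => 0)) ι κ (fun a => j (c a))
      (fun b => (j (s b).1, (s b).2)) w (fun a b h => hc (hj _ _ (hcU a) (hcU b) h))
      (fun a b h => hs (Prod.ext (hj _ _ (hsU a) (hsU b) (congrArg Prod.fst h))
        (congrArg (fun q : V × Fin L => q.2) h)))
      (fun _ => Finset.mem_univ _) fun _ => Finset.mem_univ _)
  simp [Cnt.Cen, hl _ _ (hcU _), hl _ _ (hsU _), h1 _ (hcU _), h1 _ (hsU _)]

variable {p : ℕ} {P : RP p}

/-- the structures differ only in flags and words -/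
def Fr (P : RP p) (M M' : MS p) : Prop := M'.2 = M.2 ∧
  (∀ x κ, κ ≠ (P.i, none) → M'.1 x κ = M.1 x κ) ∧
  ∀ x, P.colV (M'.1 x (P.i, none)) = P.colV (M.1 x (P.i, none))

theorem Fr.pt {M M' : MS p} (h : Fr P M M') (u : Gam p) : Fr P (pt M u) (pt M' u) :=
  ⟨Subgroup.ext fun x => by rw [mem_pt, mem_pt, h.1],
    fun x κ hκ => by rw [pt_lab, pt_lab, h.2.1 _ κ hκ], fun x => by rw [pt_lab, pt_lab, h.2.2]⟩

theorem Fr.tau (hB : P.Bas) {M M' : MS p} (h : Fr P M M') : P.τ M' = P.τ M := by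
  obtain ⟨r, hr⟩ := hB.loc
  refine hr _ _ ⟨fun u _ κ _ hκ => h.2.1 u κ ?_, fun u _ => by rw [h.1]⟩
  rintro rfl
  have := hB.two
  simp only [rk, Option.isSome_none, Bool.false_eq_true, if_false] at hκ
  omega

theorem Fr.col {M M' : MS p} (h : Fr P M M') : P.col M' = P.col M := h.2.2 1

theorem Fr.T (hB : P.Bas) {M M' : MS p} (h : Fr P M M') (i : Fin 4) :
    Fr P (P.T M i) (P.T M' i) := by
  rw [RP.T, RP.T, h.tau hB]
  exact h.pt _

theorem Fr.ok0 (hB : P.Bas) {M M' : MS p} (h : Fr P M M') (i : Fin 4) :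
    P.ok0 M' i = P.ok0 M i := by
  rw [RP.ok0, RP.ok0, h.tau hB, (h.T hB i).tau hB, h.1]

theorem Fr.coll {M M' : MS p} (h : Fr P M M') : P.Coll M' = P.Coll M := by
  simp only [RP.Coll, h.1, h.col, fun u => (h.pt u).col]

theorem Fr.dense (hB : P.Bas) {M M' : MS p} (h : Fr P M M') (σ : Finset (Gam p)) :
    P.Dense M' σ = P.Dense M σ := by
  unfold RP.Dense
  rw [h.1]
  congr 3
  ext q
  simp only [Finset.mem_filter, (h.pt q.1).tau hB, (h.pt q.1).ok0 hB]

theorem Fr.cov (hB : P.Bas) (L : List (ℕ × Finset (Gam p))) :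
    ∀ {M M' : MS p}, Fr P M M' → P.Cov L M' = P.Cov L M := by
  induction L with
  | nil => exact fun _ => rfl
  | cons q L ih =>
    intro M M' h
    simp only [RP.Cov, RP.Act, ih h, fun u => (h.pt u).col, fun u => (h.pt u).coll,
      fun u => (h.pt u).dense hB, fun u v => ih ((h.pt u).pt v)]

variable [NeZero p]

theorem Fr.out (hB : P.Bas) {M M' : MS p} (h : Fr P M M') : P.Out M' = P.Out M := by
  rw [RP.Out, RP.Out, RP.Pack, RP.Pack, h.coll, Fr.cov hB _ h]

theorem Fr.ok (hB : P.Bas) {M M' : MS p} (h : Fr P M M') (i : Fin 4) : P.ok M' i = P.ok M i := by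
  rw [RP.ok, RP.ok, h.ok0 hB, h.out hB, (h.T hB i).out hB]

theorem Fr.st (hB : P.Bas) {s s' : St p} {H : Subgroup (Gam p)} (h : Fr P (s, H) (s', H)) :
    P.st (s', H) = P.st (s, H) := by
  funext q i
  unfold RP.st
  rw [(h.pt _).ok hB, (h.pt _).tau hB]
  rfl

theorem cnt (M : MS p) (r : ℕ) (y : Cls M) :
    ∃ T : Finset (Cls M), T.card ≤ (3 * p) ^ r ∧ ∀ z, dC M y z ≤ r → z ∈ T := by
  classical
  refine ⟨(ball p r).image fun u => cls M (y.out * u),
    Finset.card_image_le.trans (card_ball_le r), fun z hz => ?_⟩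
  obtain ⟨w, h1, h2⟩ := exists_dM M y.out z.out
  exact Finset.mem_image.2 ⟨w, mem_ball.2 (h1.le.trans hz), (cls_eq.2 h2).symm.trans (cls_out z)⟩

end ExpA

open ExpA Cnt in
theorem expS (h : SparseStmt) : ExpStmt := by
  intro p _ P ρ hB hF h1 h2 h3 H s V _ t π e i0 i1 f1 f2 f3 f4
  let M : MS p := (s, H)
  have fr : ∀ f, ExpA.Fr P M (t f, H) := fun f => ⟨rfl, f1 f, f2 f⟩
  have r0 : ∀ q : Cls M, ∃ u, cls M u = q ∧ len u = dC M (cls M 1) q := fun q => by
    obtain ⟨u, rfl⟩ := cls_surj q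
    obtain ⟨w, a1, a2⟩ := exists_dM M 1 u
    exact ⟨w, (cls_eq.2 (by simpa using a2)).symm, by rw [dC_cls, a1]⟩
  choose u u1 u2 using r0
  have d0 : dC M (cls M 1) (cls M 1) = 0 := by
    rw [dC_cls]
    exact Nat.le_zero.1 ((dM_le (w := 1) (by simp)).trans len_one.le)
  let _ : Fintype (V → P.Lam) := @Pi.instFintype V _ (fun a b => Classical.propDecidable (a = b)) _
    fun _ => inferInstance
  have ind : Indep (fun (f : V → P.Lam) (q : Cls M) => P.β (t f, H) q)
      fun q => dC M (cls M 1) q ≤ (P.k₂ + 2) * (P.m * P.l) + P.U :=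
    indep_emb P.hn _ (fun q => π (u q)) (fun q => e (u q)) _
      (fun a b ha hb hab => by
        rw [← u1 a, ← u1 b]
        exact cls_eq.2 (f4 _ _ ((u2 a).le.trans ha) ((u2 b).le.trans hb) hab))
      fun f q hq => by
        rw [← f3 f _ ((u2 q).le.trans hq)]
        refine (congrArg (P.β (t f, H)) (u1 q).symm).trans ((RP.β_cls (i1 f) _).trans ?_)
        rw [RP.lam, pt_lab, mul_one]
  constructor
  · have := ind Unit Empty (fun _ => cls M 1) Empty.elim Empty.elim (fun _ _ _ => rfl)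
      (fun a => a.elim) (fun _ => d0.le.trans (Nat.zero_le _)) fun a => a.elim
    rw [← pr_sum]
    refine (pr_equiv (Equiv.refl _) fun f => ?_).trans (this.trans (by simp))
    have b1 : P.β (t f, H) (cls M 1) = P.lam (t f, H) := (RP.β_cls (i1 f) 1).trans (by rw [pt_one])
    simp [Cnt.Cen, b1, RP.fl]
  · intro hf
    have := hF (Cls M) (V → P.Lam) (fun f q => P.β (t f, H) q) (P.st M)
      (fun k q q' => dC M q q' ≤ 1000 * k) (fun q q' => dC M q q' ≤ P.U) P.k₁ P.k₂ P.l P.U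
      ((3 * p) ^ P.U) (dC M (cls M 1)) (cls M 1) (RP.st_symm i0)
      (fun y z k hk hy => by convert h p P hB M i0 y z k hk hy) d0
      (fun y i z hz => by
        obtain ⟨a, rfl⟩ := cls_surj y
        obtain ⟨-, rfl⟩ := (RP.st_cls i0).1 hz
        rw [dC_cls, dC_cls]
        exact (dM_tri M 1 a _).trans (Nat.add_le_add_left
          ((dM_le (w := P.τ (pt M a) i) (by simp [M])).trans (hB.len _ _)) _))
      (fun y z hz => (dM_tri M _ y.out _).trans (Nat.add_le_add_left hz _)) ind (cnt M P.U)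
      (fun k y => by simpa only [pow_mul] using cnt M (1000 * k) y)
      (fun y z hz => (dM_symm M _ _).le.trans hz) h1 h2 h3
      (fun w => Option.isSome_iff_exists.2 ⟨_, (RP.run_cls i0 _).2 ⟨by rw [pt_one]; exact hf w, rfl⟩⟩)
    refine this.trans ?_
    simp only [pr_sum, ← Finset.sum_div]
    refine div_le_div_of_nonneg_right ?_ (Nat.cast_nonneg _)
    rw [Finset.sum_comm]
    refine Finset.sum_le_sum fun f _ => ?_
    rw [RP.nfo, Finset.card_filter, Nat.cast_sum]
    refine Finset.sum_le_sum fun k _ => ?_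
    split_ifs with c1 c2
    · simp
    · obtain ⟨y, hy⟩ := c1
      refine absurd ⟨_, i1 f, Agree.refl _ _ _, y, ?_⟩ c2
      unfold RP.FE
      rw [(fr f).st hB]
      exact hy
    · simp
    · simp

end Pool.Agent.MP_735563_an.H2
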