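import Pool.Agent.MP_735563_an.H2.Spec1

set_option autoImplicit false

/-! Cycles in multigraphs, walks in the Cayley tree, and edge counts for free actions. -/

namespace Pool.Agent.MP_735563_an.H2

namespace Forest

/-- the conclusion of `ForestStmt` -/
def Cyc {V Ed : Type} (src tgt : Ed → V) : Prop :=
  ∃ (l : ℕ) (v : ℕ → V) (e : ℕ → Ed), 1 ≤ l ∧ v l = v 0 ∧
    (∀ t < l, (src (e t) = v t ∧ tgt (e t) = v (t + 1)) ∨
      (tgt (e t) = v t ∧ src (e t) = v (t + 1))) ∧
    (∀ t < l, ∀ t' < l, v t = v t' → t = t') ∧ ∀ t < l, ∀ t' < l, e t = e t' → t = t'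

lemma edge_inj {V Ed : Type} {src tgt : Ed → V} {k : ℕ} {v : ℕ → V} {e : ℕ → Ed}
    (hv : ∀ t ≤ k, ∀ t' ≤ k, v t = v t' → t = t')
    (he : ∀ t < k, (src (e t) = v t ∧ tgt (e t) = v (t + 1)) ∨
      (tgt (e t) = v t ∧ src (e t) = v (t + 1))) {t t' : ℕ} (ht : t < k) (ht' : t' < k)
    (h : e t = e t') : t = t' := by
  have a := he t ht
  have b := he t' ht'
  rw [h] at a
  rcases a with a | a <;> rcases b with b | b
  · exact hv t ht.le t' ht'.le (a.1.symm.trans b.1)
  · have u := hv t ht.le (t' + 1) ht' (a.1.symm.trans b.2)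
    have w := hv (t + 1) ht t' ht'.le (a.2.symm.trans b.1)
    omega
  · have u := hv t ht.le (t' + 1) ht' (a.1.symm.trans b.2)
    have w := hv (t + 1) ht t' ht'.le (a.2.symm.trans b.1)
    omega
  · exact hv t ht.le t' ht'.le (a.1.symm.trans b.1)

lemma long_path {V Ed : Type} {src tgt : Ed → V} (S : Set V) (x : V) (hx : x ∈ S) (e₀ : Ed)
    (nl : ∀ e, src e ≠ tgt e)
    (hd : ∀ y ∈ S, ∀ f : Ed, ∃ e, e ≠ f ∧ src e ∈ S ∧ tgt e ∈ S ∧ (src e = y ∨ tgt e = y))
    (nc : ¬ Cyc src tgt) (k : ℕ) :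
    ∃ (v : ℕ → V) (e : ℕ → Ed), v k ∈ S ∧ (∀ t ≤ k, ∀ t' ≤ k, v t = v t' → t = t') ∧
      ∀ t < k, (src (e t) = v t ∧ tgt (e t) = v (t + 1)) ∨
        (tgt (e t) = v t ∧ src (e t) = v (t + 1)) := by
  induction k with
  | zero => exact ⟨fun _ => x, fun _ => e₀, hx, fun t ht t' ht' _ => by omega, fun t ht => by omega⟩
  | succ k ih =>
    obtain ⟨v, e, h1, h2, h3⟩ := ih
    obtain ⟨f, f1, f2, f3, f4⟩ := hd _ h1 (e (k - 1))
    obtain ⟨y, yS, hy⟩ : ∃ y ∈ S, (src f = v k ∧ tgt f = y) ∨ (tgt f = v k ∧ src f = y) := by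
      rcases f4 with r | r
      · exact ⟨_, f3, Or.inl ⟨r, rfl⟩⟩
      · exact ⟨_, f2, Or.inr ⟨r, rfl⟩⟩
    have new : ∀ i ≤ k, v i ≠ y := by
      intro i hi ei
      have ik : i < k := by
        rcases eq_or_lt_of_le hi with r | r
        · subst r
          rcases hy with r | r
          · exact (nl f (r.1.trans (ei.trans r.2.symm))).elim
          · exact (nl f (r.2.trans (ei.symm.trans r.1.symm))).elim
        · exact r
      have fne : ∀ t < k, e t ≠ f := by
        intro t ht ef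
        have a := h3 t ht
        rw [ef] at a
        have : t = k - 1 := by
          rcases a with a | a <;> rcases hy with b | b
          · have := h2 t ht.le k le_rfl (a.1.symm.trans b.1); omega
          · have := h2 (t + 1) ht k le_rfl (a.2.symm.trans b.1); omega
          · have := h2 (t + 1) ht k le_rfl (a.2.symm.trans b.1); omega
          · have := h2 t ht.le k le_rfl (a.1.symm.trans b.1); omega
        exact f1 (by rw [← this, ef])
      refine nc ⟨k - i + 1, fun t => if t ≤ k - i then v (i + t) else v i,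
        fun t => if t < k - i then e (i + t) else f, by omega, by simp, fun t ht => ?_,
        fun t ht t' ht' h => ?_, fun t ht t' ht' h => ?_⟩
      · by_cases c : t < k - i
        · simp only [c, c.le, show t + 1 ≤ k - i from c, if_true]
          exact h3 (i + t) (by omega)
        · obtain rfl : t = k - i := by omega
          simp only [lt_irrefl, if_false, le_refl, if_true, show ¬ (k - i + 1 ≤ k - i) by omega,
            show i + (k - i) = k by omega, ei]
          exact hy
      · simp only [show t ≤ k - i by omega, show t' ≤ k - i by omega, if_true] at h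
        have := h2 _ (by omega) _ (by omega) h
        omega
      · by_cases c : t < k - i <;> by_cases c' : t' < k - i <;> simp only [c, c', if_true,
          if_false] at h
        · have := edge_inj h2 h3 (by omega) (by omega) h
          omega
        · exact (fne _ (by omega) h).elim
        · exact (fne _ (by omega) h.symm).elim
        · omega
    refine ⟨fun t => if t ≤ k then v t else y, fun t => if t < k then e t else f, by simpa using yS,
      fun t ht t' ht' h => ?_, fun t ht => ?_⟩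
    · by_cases c : t ≤ k <;> by_cases c' : t' ≤ k <;> simp only [c, c', if_true, if_false] at h
      · exact h2 t c t' c' h
      · exact (new t c h).elim
      · exact (new t' c' h.symm).elim
      · omega
    · by_cases c : t < k
      · simp only [c, c.le, show t + 1 ≤ k from c, if_true]
        exact h3 t c
      · obtain rfl : t = k := by omega
        simpa using hy

lemma cyc_fin {V Ed : Type} [Fintype V] {src tgt : Ed → V} (nl : ∀ e, src e ≠ tgt e) (n : ℕ) :
    ∀ (S : Finset V) (E : Finset Ed), S.card = n + 1 → (∀ e ∈ E, src e ∈ S ∧ tgt e ∈ S) →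
      S.card ≤ E.card → Cyc src tgt := by
  classical
  induction n with
  | zero =>
    intro S E h1 h2 h3
    obtain ⟨e, he⟩ := Finset.card_pos.1 (show 0 < E.card by omega)
    exact (nl e (Finset.card_le_one.1 (by omega) _ (h2 e he).1 _ (h2 e he).2)).elim
  | succ n ih =>
    intro S E h1 h2 h3
    by_cases c : ∃ y ∈ S, (E.filter fun e => src e = y ∨ tgt e = y).card ≤ 1
    · obtain ⟨y, hy, c⟩ := c
      have a := Finset.card_filter_add_card_filter_not (s := E) (fun e => src e = y ∨ tgt e = y)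
      have b := Finset.card_erase_of_mem hy
      refine ih (S.erase y) (E.filter fun e => ¬ (src e = y ∨ tgt e = y)) (by omega)
        (fun e he => ?_) (by omega)
      obtain ⟨u, w⟩ := Finset.mem_filter.1 he
      exact ⟨Finset.mem_erase.2 ⟨fun q => w (Or.inl q), (h2 e u).1⟩,
        Finset.mem_erase.2 ⟨fun q => w (Or.inr q), (h2 e u).2⟩⟩
    · by_contra nc
      obtain ⟨x, hx⟩ := Finset.card_pos.1 (show 0 < S.card by omega)
      obtain ⟨e₀, -⟩ := Finset.card_pos.1 (show 0 < E.card by omega)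
      obtain ⟨v, e, -, hv, -⟩ := long_path (S : Set V) x hx e₀ nl (fun y hy f => by
        have : 1 < (E.filter fun e => src e = y ∨ tgt e = y).card :=
          not_le.1 fun q => c ⟨y, hy, q⟩
        obtain ⟨g, g1, g2⟩ := Finset.exists_mem_ne this f
        obtain ⟨u, w⟩ := Finset.mem_filter.1 g1
        exact ⟨g, g2, (h2 g u).1, (h2 g u).2, w⟩) nc (Fintype.card V)
      have := Fintype.card_le_of_injective (fun t : Fin (Fintype.card V + 1) => v t)
        fun t t' h => Fin.ext (hv t (by omega) t' (by omega) h)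
      simp at this

/-- the letter of a generator -/
def lt : Fin 4 → Fin 2 × Bool := ![(0, true), (1, true), (0, false), (1, false)]

lemma lt_inj : Function.Injective lt := by decide

lemma lt_inj' {i j : Fin 4} (h : ((lt i).1, !(lt i).2) = ((lt j).1, !(lt j).2)) : i = j := by
  revert i j; decide

lemma fg_eq (i : Fin 4) : fg i = FreeGroup.mk [lt i] := by
  fin_cases i <;> rfl

lemma step (i : Fin 4) (y : FreeGroup (Fin 2)) :
    (fg i * y).toWord = lt i :: y.toWord ∨
      y.toWord = ((lt i).1, !(lt i).2) :: (fg i * y).toWord := by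
  have e : fg i * y = FreeGroup.mk (lt i :: y.toWord) := by
    conv_lhs => rw [fg_eq, ← FreeGroup.mk_toWord (x := y), FreeGroup.mul_mk]
    rfl
  rw [e, FreeGroup.toWord_mk, FreeGroup.reduce.cons, FreeGroup.reduce_toWord]
  cases y.toWord with
  | nil => exact Or.inl rfl
  | cons hd tl =>
    simp only
    split_ifs with h
    · right
      obtain ⟨a, b⟩ := hd
      simp only at h
      rw [h.1, h.2, Bool.not_not]
    · exact Or.inl rfl

lemma last_cons {α : Type} {a c : α} {L : List α}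
    (h : ¬ ((a :: L).getLast? = some c ↔ L.getLast? = some c)) : L = [] ∧ a = c := by
  cases L with
  | nil => simpa using h
  | cons b L => simp [List.getLast?_cons_cons] at h

lemma sep {u u' : FreeGroup (Fin 2)} (h : u ≠ u') :
    ∃ (side : FreeGroup (Fin 2) → Prop) (z z' : FreeGroup (Fin 2)), ¬ side u ∧ side u' ∧
      ∀ i x, ¬ (side (fg i * x) ↔ side x) →
        (x = z ∧ fg i * x = z') ∨ (x = z' ∧ fg i * x = z) := by
  have ne : (u' * u⁻¹).toWord ≠ [] := by
    rw [Ne, FreeGroup.toWord_eq_nil_iff, mul_inv_eq_one]; exact h.symm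
  refine ⟨fun x => (x * u⁻¹).toWord.getLast? = some ((u' * u⁻¹).toWord.getLast ne), u,
    FreeGroup.mk [(u' * u⁻¹).toWord.getLast ne] * u, by simp, List.getLast?_eq_some_getLast ne,
    fun i x hx => ?_⟩
  generalize (u' * u⁻¹).toWord.getLast ne = c at *
  simp only [mul_assoc] at hx
  rcases step i (x * u⁻¹) with r | r
  · rw [r] at hx
    obtain ⟨a, b⟩ := last_cons hx
    rw [FreeGroup.toWord_eq_nil_iff, mul_inv_eq_one] at a
    left; exact ⟨a, by rw [a, fg_eq, b]⟩
  · rw [r] at hx
    obtain ⟨a, b⟩ := last_cons (fun q => hx q.symm)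
    rw [a, b] at r
    rw [FreeGroup.toWord_eq_nil_iff, ← mul_assoc, mul_inv_eq_one] at a
    right
    refine ⟨?_, a⟩
    rw [← r, FreeGroup.mk_toWord, inv_mul_cancel_right]

lemma cross {side : FreeGroup (Fin 2) → Prop} {w : ℕ → FreeGroup (Fin 2)} {a : ℕ} (n : ℕ)
    (h : ¬ (side (w (a + n)) ↔ side (w a))) :
    ∃ s, a ≤ s ∧ s < a + n ∧ ¬ (side (w (s + 1)) ↔ side (w s)) := by
  induction n with
  | zero => exact (h Iff.rfl).elim
  | succ n ih =>
    by_cases c : side (w (a + n)) ↔ side (w a)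
    · exact ⟨a + n, by omega, by omega, fun q => h (q.trans c)⟩
    · obtain ⟨s, s1, s2, s3⟩ := ih c
      exact ⟨s, s1, by omega, s3⟩

lemma cross' {side : FreeGroup (Fin 2) → Prop} {w : ℕ → FreeGroup (Fin 2)} {a b : ℕ}
    (h : ¬ (side (w a) ↔ side (w b))) :
    ∃ s, min a b ≤ s ∧ s < max a b ∧ ¬ (side (w (s + 1)) ↔ side (w s)) := by
  rcases le_total a b with r | r
  · obtain ⟨n, rfl⟩ := Nat.exists_eq_add_of_le r
    obtain ⟨s, s1, s2, s3⟩ := cross n (fun q => h q.symm)
    exact ⟨s, by omega, by omega, s3⟩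
  · obtain ⟨n, rfl⟩ := Nat.exists_eq_add_of_le r
    obtain ⟨s, s1, s2, s3⟩ := cross n h
    exact ⟨s, by omega, by omega, s3⟩

end Forest

open Forest

theorem forest : ForestStmt := by
  intro V Ed _ _ _ src tgt h
  by_cases nl : ∀ e, src e ≠ tgt e
  · have p : 0 < Fintype.card V := Fintype.card_pos
    exact cyc_fin nl (Fintype.card V - 1) Finset.univ Finset.univ (by simp; omega) (by simp) h
  · push Not at nl
    obtain ⟨e, he⟩ := nl
    exact ⟨1, fun _ => src e, fun _ => e, le_rfl, rfl, fun t _ => Or.inl ⟨rfl, he.symm⟩,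
      fun t ht t' ht' _ => by omega, fun t ht t' ht' _ => by omega⟩

theorem tree : TreeStmt := by
  classical
  intro l m f hl hw hc
  by_contra nd
  have dj : ∀ t < l, ∀ t' < l, t ≠ t' → t' ≠ (t + 1) % l → t ≠ (t' + 1) % l →
      ∀ s ≤ m, ∀ s' ≤ m, f t s ≠ f t' s' :=
    fun t ht t' ht' a b c s hs s' hs' e => nd ⟨t, ht, t', ht', a, b, c, s, hs, s', hs', e⟩
  have m1 : (0 + 1) % l = 1 := Nat.mod_eq_of_lt (by omega)
  have m2 : (1 + 1) % l = 2 := Nat.mod_eq_of_lt (by omega)
  have m3 : (2 + 1) % l = 3 := Nat.mod_eq_of_lt (by omega)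
  have ex : ∃ d, ∃ a ≤ m, ∃ b ≤ m, (∃ s ≤ m, f 0 s = f 1 a) ∧ (∃ s ≤ m, f 2 s = f 1 b) ∧
      max a b - min a b = d := by
    obtain ⟨s, hs, a, ha, e⟩ := hc 0 (by omega)
    obtain ⟨b, hb, s', hs', e'⟩ := hc 1 (by omega)
    rw [m1] at e
    rw [m2] at e'
    exact ⟨_, a, ha, b, hb, ⟨s, hs, e⟩, ⟨s', hs', e'.symm⟩, rfl⟩
  obtain ⟨a, ha, b, hb, ⟨s0, hs0, e0⟩, ⟨s2, hs2, e2⟩, hd⟩ := Nat.find_spec ex
  have mn : ∀ a' ≤ m, ∀ b' ≤ m, (∃ s ≤ m, f 0 s = f 1 a') → (∃ s ≤ m, f 2 s = f 1 b') →
      max a b - min a b ≤ max a' b' - min a' b' := by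
    intro a' ha' b' hb' u v
    rw [hd]
    exact Nat.find_min' ex ⟨a', ha', b', hb', u, v, rfl⟩
  have ne : f 1 a ≠ f 1 b := fun q =>
    dj 0 (by omega) 2 (by omega) (by omega) (by omega) (by omega) s0 hs0 s2 hs2
      (e0.trans (q.trans e2.symm))
  obtain ⟨side, z, z', sa, sb, hs⟩ := sep ne
  have edge : ∀ t < l, ∀ s < m, ¬ (side (f t (s + 1)) ↔ side (f t s)) →
      (f t s = z ∧ f t (s + 1) = z') ∨ (f t s = z' ∧ f t (s + 1) = z) := by
    intro t ht s hs' q
    obtain ⟨i, hi⟩ := hw t ht s hs'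
    rw [hi] at q ⊢
    exact hs i _ q
  obtain ⟨s, s1, s2', s3⟩ := cross' (side := side) (w := f 1) (a := a) (b := b)
    (fun q => sa (q.2 sb))
  have sm : s < m := by omega
  have e1 := edge 1 (by omega) s sm s3
  have const : ∀ t < l, t ≠ 1 → ∀ x ≤ m, ∀ y ≤ m, side (f t x) ↔ side (f t y) := by
    intro t ht t1 x hx y hy
    by_contra q
    obtain ⟨r, r1, r2, r3⟩ := cross' (side := side) (w := f t) q
    have rm : r < m := by omega
    have e := edge t ht r rm r3
    have u : (∃ s' ≤ m, f t s' = f 1 s) ∧ ∃ s' ≤ m, f t s' = f 1 (s + 1) := by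
      rcases e with e | e <;> rcases e1 with e1 | e1
      · exact ⟨⟨r, rm.le, e.1.trans e1.1.symm⟩, ⟨r + 1, rm, e.2.trans e1.2.symm⟩⟩
      · exact ⟨⟨r + 1, rm, e.2.trans e1.1.symm⟩, ⟨r, rm.le, e.1.trans e1.2.symm⟩⟩
      · exact ⟨⟨r + 1, rm, e.2.trans e1.1.symm⟩, ⟨r, rm.le, e.1.trans e1.2.symm⟩⟩
      · exact ⟨⟨r, rm.le, e.1.trans e1.1.symm⟩, ⟨r + 1, rm, e.2.trans e1.2.symm⟩⟩
    by_cases t0 : t = 0
    · subst t0
      have v1 := mn s sm.le b hb u.1 ⟨s2, hs2, e2⟩
      have v2 := mn (s + 1) sm b hb u.2 ⟨s2, hs2, e2⟩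
      omega
    by_cases t2 : t = 2
    · subst t2
      have v1 := mn a ha s sm.le ⟨s0, hs0, e0⟩ u.1
      have v2 := mn a ha (s + 1) sm ⟨s0, hs0, e0⟩ u.2
      omega
    obtain ⟨s', hs', e'⟩ := u.1
    refine dj t ht 1 (by omega) t1 (fun q => ?_) (by omega) s' hs' s sm.le e'
    rcases eq_or_lt_of_le (show t + 1 ≤ l by omega) with c | c
    · rw [c, Nat.mod_self] at q; omega
    · rw [Nat.mod_eq_of_lt c] at q; omega
  have all : ∀ k, k + 2 < l → side (f (k + 2) 0) := by
    intro k
    induction k with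
    | zero => intro _; exact (const 2 (by omega) (by omega) 0 (by omega) s2 hs2).2 (e2 ▸ sb)
    | succ k ih =>
      intro hk
      obtain ⟨x, hx, y, hy, e⟩ := hc (k + 2) (by omega)
      rw [Nat.mod_eq_of_lt (by omega)] at e
      have := (const (k + 2) (by omega) (by omega) 0 (by omega) x hx).1 (ih (by omega))
      rw [e] at this
      exact (const (k + 2 + 1) (by omega) (by omega) 0 (by omega) y hy).2 this
  obtain ⟨k, rfl⟩ : ∃ k, l = k + 3 := ⟨l - 3, by omega⟩
  obtain ⟨x, hx, y, hy, e⟩ := hc (k + 2) (by omega)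
  rw [Nat.mod_self] at e
  have := (const (k + 2) (by omega) (by omega) 0 (by omega) x hx).1 (all k (by omega))
  rw [e] at this
  exact sa (e0 ▸ (const 0 (by omega) (by omega) y hy s0 hs0).1 this)

theorem freeCnt : FreeCntStmt := by
  classical
  intro X a N₀ h0 h1 hm hf S hS
  have ex : ∃ γ : X → FreeGroup (Fin 2), ∀ g, ∀ x ∈ N₀, γ (a g x) = g * γ x := by
    let r : X → X := fun x => @Classical.epsilon X ⟨x⟩ fun z => ∃ g, z = a g x
    have r1 : ∀ x ∈ N₀, ∃ g, r x = a g x := fun x hx =>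
      Classical.epsilon_spec (p := fun z => ∃ g, z = a g x) ⟨x, 1, (h1 x hx).symm⟩
    have r2 : ∀ g, ∀ x ∈ N₀, r (a g x) = r x := by
      intro g x hx
      have : (fun z => ∃ h, z = a h (a g x)) = fun z => ∃ h, z = a h x := by
        funext z
        refine propext ⟨fun ⟨h, e⟩ => ⟨h * g, by rw [e, hm h g x hx]⟩,
          fun ⟨h, e⟩ => ⟨h * g⁻¹, by rw [e, ← hm _ g x hx, inv_mul_cancel_right]⟩⟩
      simp only [r, this]
    choose! δ hδ using r1
    refine ⟨fun x => (δ x)⁻¹, fun g x hx => ?_⟩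
    have e : a (δ (a g x) * g) x = a (δ x) x := by
      rw [hm _ g x hx, ← hδ _ (h0 g x hx), r2 g x hx, hδ x hx]
    have e' : a ((δ x)⁻¹ * (δ (a g x) * g)) x = x := by
      rw [hm _ _ x hx, e, ← hm _ _ x hx, inv_mul_cancel, h1 x hx]
    have := hf _ x hx e'
    rw [inv_mul_eq_one] at this
    simp only
    rw [this]; group
  obtain ⟨γ, hγ⟩ := ex
  have : 2 * S.card = (S ×ˢ (Finset.univ : Finset Bool)).card := by simp [mul_comm]
  rw [this]
  refine Finset.card_le_card_of_injOn
    (fun q => if (fg q.2 * γ q.1).toWord = lt q.2 :: (γ q.1).toWord then (a (fg q.2) q.1, true)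
      else (q.1, false)) (fun q hq => ?_) (fun q hq q' hq' e => ?_)
  · simp only [Finset.coe_filter, Finset.mem_product, Finset.mem_univ, and_true,
      Set.mem_ofPred_eq] at hq
    simp only [Finset.coe_product, Set.mem_prod, Finset.mem_coe, Finset.mem_univ, and_true]
    split_ifs
    · exact hq.2
    · exact hq.1
  · simp only [Finset.coe_filter, Finset.mem_product, Finset.mem_univ, and_true,
      Set.mem_ofPred_eq] at hq hq'
    obtain ⟨x, i⟩ := q
    obtain ⟨x', i'⟩ := q'
    simp only at e hq hq'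
    have n := hS x hq.1
    have n' := hS x' hq'.1
    split_ifs at e with c c' c'
    · have e1 : a (fg i) x = a (fg i') x' := congrArg Prod.fst e
      rw [← hγ _ x n, e1, hγ _ x' n', c', List.cons.injEq] at c
      obtain rfl := lt_inj c.1
      have : a (fg i')⁻¹ (a (fg i') x) = a (fg i')⁻¹ (a (fg i') x') := by rw [e1]
      rw [← hm _ _ x n, ← hm _ _ x' n', inv_mul_cancel, h1 x n, h1 x' n'] at this
      rw [this]
    · simp at e
    · simp at e
    · obtain rfl : x = x' := congrArg Prod.fst e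
      have u := (step i (γ x)).resolve_left c
      have u' := (step i' (γ x)).resolve_left c'
      rw [u', List.cons.injEq] at u
      rw [lt_inj' u.1]

end Pool.Agent.MP_735563_an.H2
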