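import Pool.Agent.MP_735563_an.H2.SC

set_option autoImplicit false

/-! Morse lemma and local to global principle for quasi geodesic paths. -/

namespace Pool.Agent.MP_735563_an.H2

namespace LTG

variable {V : Type} {d : V → V → ℕ} {δ : ℕ}

/-- a path with short steps is Lipschitz -/
theorem lip (h : Met d δ) {y : ℕ → V} {l a b : ℕ}
    (hs : ∀ t, a ≤ t → t < b → d (y t) (y (t + 1)) ≤ l) {s : ℕ} (hs0 : a ≤ s) :
    ∀ k, s + k ≤ b → d (y s) (y (s + k)) ≤ l * k := by
  intro k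
  induction k with
  | zero => intro _; simp [h.refl]
  | succ k ih =>
    intro hk
    have h1 := ih (by omega)
    have h2 := hs (s + k) (by omega) (by omega)
    have h3 := h.tri (y s) (y (s + k)) (y (s + k + 1))
    rw [Nat.mul_succ, ← Nat.add_assoc]
    omega

theorem lip' (h : Met d δ) {y : ℕ → V} {l a b : ℕ}
    (hs : ∀ t, a ≤ t → t < b → d (y t) (y (t + 1)) ≤ l) {s t M : ℕ} (hs0 : a ≤ s) (hst : s ≤ t)
    (ht : t ≤ b) (hM : t ≤ s + M) : d (y s) (y t) ≤ l * M := by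
  have h1 := lip h hs hs0 (t - s) (by omega)
  rw [show s + (t - s) = t by omega] at h1
  exact h1.trans (Nat.mul_le_mul_left l (by omega))

/-- points between two points of a path are near the path (linear bound with small slope) -/
theorem coarse (h : Met d δ) {y : ℕ → V} {l a b : ℕ}
    (hs : ∀ t, a ≤ t → t < b → d (y t) (y (t + 1)) ≤ l) {s s' M n : ℕ} (hs0 : a ≤ s)
    (hss : s ≤ s') (hs' : s' ≤ b) (hM : s' ≤ s + (n + 1) * M) {q : V}
    (hq : Btw d (y s) q (y s')) : ∃ t, s ≤ t ∧ t ≤ s' ∧ d q (y t) ≤ 4 * δ * n + l * M := by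
  have h0 : Btw d ((fun i => y (min (s + i * M) s')) 0) q
      ((fun i => y (min (s + i * M) s')) (n + 1)) := by
    simp only [Nat.zero_mul, Nat.add_zero]
    rw [min_eq_left hss, min_eq_right hM]
    exact hq
  obtain ⟨k, -, q', h1, h2⟩ := h.polygon (fun i => y (min (s + i * M) s')) n q h0
  refine ⟨min (s + k * M) s', by omega, by omega, ?_⟩
  have h3 : d (y (min (s + k * M) s')) (y (min (s + (k + 1) * M) s')) ≤ l * M := by
    rw [Nat.succ_mul]
    exact lip' h hs (by omega) (by omega) (by omega) (by omega)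
  unfold Btw at h1
  have h4 := h.tri q q' (y (min (s + k * M) s'))
  have h5 := h.symm q' (y (min (s + k * M) s'))
  omega

/-- version of `coarse` with unordered end points for quasi geodesics -/
theorem coarse' (h : Met d δ) {y : ℕ → V} {l a b J : ℕ}
    (hs : ∀ t, a ≤ t → t < b → d (y t) (y (t + 1)) ≤ l)
    (hq : ∀ s s', a ≤ s → s ≤ s' → s' ≤ b → s' ≤ s + 2 * d (y s) (y s') + J)
    {s s' R : ℕ} (hs0 : a ≤ s) (hs1 : s ≤ b) (hs2 : a ≤ s') (hs3 : s' ≤ b)
    (hR : d (y s) (y s') ≤ R) {q : V} (hb : Btw d (y s) q (y s')) :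
    ∃ t, a ≤ t ∧ t ≤ b ∧ 16 * d q (y t) ≤ 2 * R + J + 16 * (l * (64 * δ + 1)) := by
  have key : ∀ u u', a ≤ u → u ≤ u' → u' ≤ b → d (y u) (y u') ≤ R → Btw d (y u) q (y u') →
      ∃ t, a ≤ t ∧ t ≤ b ∧ 16 * d q (y t) ≤ 2 * R + J + 16 * (l * (64 * δ + 1)) := by
    intro u u' h1 h2 h3 h4 h5
    have h6 := hq u u' h1 h2 h3
    have h7 : (u' - u) / (64 * δ + 1) * (64 * δ + 1) ≤ u' - u := Nat.div_mul_le_self _ _
    have h8 : u' - u < ((u' - u) / (64 * δ + 1) + 1) * (64 * δ + 1) := by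
      rw [Nat.mul_comm]
      exact Nat.lt_mul_div_succ _ (by omega)
    obtain ⟨t, h9, h10, h11⟩ := coarse h hs (M := 64 * δ + 1) (n := (u' - u) / (64 * δ + 1)) h1 h2 h3
      (by omega) h5
    refine ⟨t, by omega, by omega, ?_⟩
    generalize (u' - u) / (64 * δ + 1) = n at *
    have h12 : n * (64 * δ + 1) = 16 * (4 * δ * n) + n := by ring
    omega
  rcases le_total s s' with h1 | h1
  · exact key s s' hs0 h1 hs3 hR hb
  · exact key s' s hs2 h1 hs1 (by rw [h.symm]; exact hR) (h.btw_symm hb)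

/-- Morse lemma, first half -/
theorem morse1 (h : Met d δ) {y : ℕ → V} {l a b J : ℕ} (hab : a ≤ b)
    (hs : ∀ t, a ≤ t → t < b → d (y t) (y (t + 1)) ≤ l)
    (hq : ∀ s s', a ≤ s → s ≤ s' → s' ≤ b → s' ≤ s + 2 * d (y s) (y s') + J) :
    ∀ m, Btw d (y a) m (y b) →
      ∃ t, a ≤ t ∧ t ≤ b ∧ d m (y t) ≤ 20 * δ + 1 + J + 2 * (l * (64 * δ + 1)) := by
  have main : ∀ D : ℕ, (∀ m, Btw d (y a) m (y b) → ∃ t, a ≤ t ∧ t ≤ b ∧ d m (y t) ≤ D) →
      ∀ m, Btw d (y a) m (y b) →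
        ∃ t, a ≤ t ∧ t ≤ b ∧ d m (y t) ≤ 20 * δ + 1 + J + 2 * (l * (64 * δ + 1)) := by
    intro D
    induction D using Nat.strong_induction_on with
    | _ D ih =>
      intro hD
      by_cases hc : D ≤ 20 * δ + 1 + J + 2 * (l * (64 * δ + 1))
      · intro m hm
        obtain ⟨t, h1, h2, h3⟩ := hD m hm
        exact ⟨t, h1, h2, by omega⟩
      · refine ih (D - 1) (by omega) ?_
        intro m hm
        have left : ∃ m1 s, a ≤ s ∧ s ≤ b ∧ Btw d (y a) m1 m ∧ d m1 m ≤ D + 8 * δ + 1 ∧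
            d m1 (y s) ≤ D ∧ (d m1 m = D + 8 * δ + 1 ∨ d m1 (y s) = 0) := by
          by_cases h1 : D + 8 * δ + 1 ≤ d m (y a)
          · obtain ⟨m1, h2, h3⟩ := h.geo m (y a) _ h1
            have h4 := h.btw_symm h3
            obtain ⟨s, h5, h6, h7⟩ := hD m1 (h.btw_trans_left hm h4).1
            have := h.symm m1 m
            exact ⟨m1, s, h5, h6, h4, by omega, h7, Or.inl (by omega)⟩
          · have := h.symm (y a) m
            have := h.refl (y a)
            exact ⟨y a, a, le_rfl, hab, h.btw_left _ _, by omega, by omega, Or.inr (by omega)⟩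
        have right : ∃ m2 s, a ≤ s ∧ s ≤ b ∧ Btw d m m2 (y b) ∧ d m m2 ≤ D + 8 * δ + 1 ∧
            d m2 (y s) ≤ D ∧ (d m m2 = D + 8 * δ + 1 ∨ d m2 (y s) = 0) := by
          by_cases h1 : D + 8 * δ + 1 ≤ d m (y b)
          · obtain ⟨m2, h2, h3⟩ := h.geo m (y b) _ h1
            obtain ⟨s, h5, h6, h7⟩ := hD m2 (h.btw_trans_right hm h3).1
            exact ⟨m2, s, h5, h6, h3, by omega, h7, Or.inl h2⟩
          · have := h.refl (y b)
            exact ⟨y b, b, hab, le_rfl, h.btw_right _ _, by omega, by omega, Or.inr (by omega)⟩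
        obtain ⟨m1, s, a1, a2, a3, a4, a5, a6⟩ := left
        obtain ⟨m2, s', b1, b2, b3, b4, b5, b6⟩ := right
        have hm12 : Btw d m1 m m2 := by
          have e1 := (h.btw_trans_left hm a3).2
          exact (h.btw_trans_right e1 b3).2
        obtain ⟨q, h1 | h1 | h1, h2⟩ := h.slim4 hm12 (y s) (y s')
        · unfold Btw at h1
          have := h.tri m1 q m
          have := h.symm q m
          have := h.tri m q (y s)
          exact ⟨s, a1, a2, by omega⟩
        · have hR : d (y s) (y s') ≤ 4 * D + 16 * δ + 2 := by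
            have := h.tri (y s) m1 (y s')
            have := h.tri m1 m (y s')
            have := h.tri m m2 (y s')
            have := h.symm (y s) m1
            omega
          obtain ⟨t, c1, c2, c3⟩ := coarse' h hs hq a1 a2 b1 b2 hR h1
          have := h.tri m q (y t)
          exact ⟨t, c1, c2, by omega⟩
        · unfold Btw at h1
          have := h.tri m q m2
          have := h.symm (y s') m2
          have := h.symm (y s') q
          have := h.tri m q (y s')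
          exact ⟨s', b1, b2, by omega⟩
  refine main (d (y a) (y b)) ?_
  intro m hm
  unfold Btw at hm
  have := h.symm m (y a)
  exact ⟨a, le_rfl, hab, by omega⟩

/-- the Morse constant -/
def c0 (δ l J : ℕ) : ℕ := 20 * δ + 1 + J + 2 * (l * (64 * δ + 1))

/-- the constant bounding Gromov products along a quasi geodesic -/
def c1 (δ l J : ℕ) : ℕ := 2 * (c0 δ l J + l * (2 * (2 * c0 δ l J + 4 * δ) + J)) + 1

/-- Morse lemma, second half: points of the path are almost between the end points -/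
theorem morse2 (h : Met d δ) {y : ℕ → V} {l a b J : ℕ}
    (hs : ∀ t, a ≤ t → t < b → d (y t) (y (t + 1)) ≤ l)
    (hq : ∀ s s', a ≤ s → s ≤ s' → s' ≤ b → s' ≤ s + 2 * d (y s) (y s') + J)
    {t : ℕ} (h1 : a ≤ t) (h2 : t ≤ b) :
    d (y a) (y t) + d (y t) (y b) ≤ d (y a) (y b) + c1 δ l J := by
  have t1 := h.tri (y t) (y a) (y b)
  have t2 := h.tri (y a) (y t) (y b)
  have s1 := h.symm (y t) (y a)
  obtain ⟨p, hp1, hp2⟩ := h.geo (y t) (y a)
    ((d (y t) (y a) + d (y t) (y b) - d (y a) (y b)) / 2) (by omega)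
  obtain ⟨q, hq1, -, hq3⟩ := h.slim_aux (z := y b) hp2 (by omega)
  obtain ⟨s, a1, a2, a3⟩ := morse1 (J := J) h h1 (fun u u1 u2 => hs u u1 (by omega))
    (fun u u' u1 u2 u3 => hq u u' u1 u2 (by omega)) p (h.btw_symm hp2)
  obtain ⟨s', b1, b2, b3⟩ := morse1 (J := J) h h2 (fun u u1 u2 => hs u (by omega) u2)
    (fun u u' u1 u2 u3 => hq u u' (by omega) u2 u3) q hq1
  change d p (y s) ≤ c0 δ l J at a3
  change d q (y s') ≤ c0 δ l J at b3
  have e1 : d (y s) (y s') ≤ 2 * c0 δ l J + 4 * δ := by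
    have := h.tri (y s) p (y s')
    have := h.tri p q (y s')
    have := h.symm (y s) p
    omega
  have e2 := hq s s' a1 (by omega) b2
  have e3 : d (y s) (y t) ≤ l * (2 * (2 * c0 δ l J + 4 * δ) + J) :=
    lip' h hs a1 a2 h2 (by omega)
  have e4 := h.tri (y t) (y s) p
  have := h.symm (y t) (y s)
  have := h.symm (y s) p
  unfold c1
  omega

/-- local to global: linear lower bound -/
theorem glob (h : Met d δ) {x : ℕ → V} {l n c G j : ℕ} (hG : G = c1 δ l 0 + 2 * δ)
    (hj : j = 2 * G + 1) (hc : 1 ≤ c) (hs : ∀ t < n, d (x t) (x (t + 1)) ≤ l)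
    (hq : ∀ a b, a ≤ b → b ≤ n → b ≤ a + 2 * j → c * (b - a) ≤ d (x a) (x b))
    {a b : ℕ} (hab : a ≤ b) (hb : b ≤ n) : c * (b - a) ≤ 2 * d (x a) (x b) + 2 * G := by
  have loc : ∀ u t v, u ≤ t → t ≤ v → v ≤ n → v ≤ u + 2 * j →
      d (x u) (x t) + d (x t) (x v) ≤ d (x u) (x v) + c1 δ l 0 := by
    intro u t v h1 h2 h3 h4
    refine morse2 h (fun s _ s2 => hs s (by omega)) ?_ h1 h2
    intro s s' s1 s2 s3
    have e1 := hq s s' s2 (by omega) (by omega)
    have e2 : 1 * (s' - s) ≤ c * (s' - s) := Nat.mul_le_mul_right _ hc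
    omega
  have step : ∀ t, a ≤ t → t + j ≤ n → (c * (t - a) ≤ 2 * d (x a) (x t) ∧
      ∀ v, t ≤ v → v ≤ t + j → v ≤ n → d (x a) (x t) + d (x t) (x v) ≤ d (x a) (x v) + G) →
      (c * (t + j - a) ≤ 2 * d (x a) (x (t + j)) ∧
      ∀ v, t + j ≤ v → v ≤ t + j + j → v ≤ n →
        d (x a) (x (t + j)) + d (x (t + j)) (x v) ≤ d (x a) (x v) + G) := by
    intro t ht htn ⟨g1, g2⟩
    have g3 := g2 (t + j) (by omega) le_rfl htn
    have g4 := hq t (t + j) (by omega) htn (by omega)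
    rw [show t + j - t = j by omega] at g4
    have g5 : 1 * j ≤ c * j := Nat.mul_le_mul_right _ hc
    refine ⟨?_, fun v v1 v2 v3 => ?_⟩
    · rw [show t + j - a = (t - a) + j by omega, Nat.mul_add]
      omega
    · have g6 := loc t (t + j) v (by omega) v1 v3 (by omega)
      have g7 := h.four (x a) (x (t + j)) (x t) (x v)
      have := h.symm (x (t + j)) (x t)
      omega
  have ex : ∀ v, a ≤ v → v ≤ n → ∃ t, a ≤ t ∧ t ≤ v ∧ v ≤ t + j ∧
      (c * (t - a) ≤ 2 * d (x a) (x t) ∧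
      ∀ v, t ≤ v → v ≤ t + j → v ≤ n → d (x a) (x t) + d (x t) (x v) ≤ d (x a) (x v) + G) := by
    intro v
    induction v using Nat.strong_induction_on with
    | _ v ih =>
      intro v1 v2
      by_cases hv : v ≤ a + j
      · refine ⟨a, le_rfl, v1, hv, by simp, fun w _ _ _ => ?_⟩
        have := h.refl (x a)
        omega
      · obtain ⟨t, t1, t2, t3, t4⟩ := ih (v - j) (by omega) (by omega) (by omega)
        exact ⟨t + j, by omega, by omega, by omega, step t t1 (by omega) t4⟩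
  obtain ⟨t, t1, t2, t3, t4, t5⟩ := ex b hab hb
  have e1 := t5 b t2 t3 hb
  have e2 := hq t b t2 hb (by omega)
  rw [show b - a = (t - a) + (b - t) by omega, Nat.mul_add]
  omega

end LTG

theorem ltg : LTGStmt := by
  intro δ l
  obtain ⟨G, hG⟩ : ∃ G, G = LTG.c1 δ l 0 + 2 * δ := ⟨_, rfl⟩
  refine ⟨LTG.c0 δ l (2 * G) + 2 * LTG.c1 δ l (2 * G) + 2 * δ, 2 * G, 2 * (2 * G + 1), ?_⟩
  intro V d h c hc x n hs hq
  have gl : ∀ a b, a ≤ b → b ≤ n → c * (b - a) ≤ 2 * d (x a) (x b) + 2 * G :=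
    fun a b hab hb => LTG.glob h hG rfl hc hs hq hab hb
  have hs' : ∀ t, 0 ≤ t → t < n → d (x t) (x (t + 1)) ≤ l := fun t _ ht => hs t ht
  have hq' : ∀ s s', 0 ≤ s → s ≤ s' → s' ≤ n → s' ≤ s + 2 * d (x s) (x s') + 2 * G := by
    intro s s' _ s2 s3
    have e1 := gl s s' s2 s3
    have e2 : 1 * (s' - s) ≤ c * (s' - s) := Nat.mul_le_mul_right _ hc
    omega
  refine ⟨by simpa using gl 0 n (Nat.zero_le _) le_rfl, fun m hm => ?_, fun t ht => ?_⟩
  · obtain ⟨t, -, t2, t3⟩ := LTG.morse1 h (Nat.zero_le n) hs' hq' m hm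
    change d m (x t) ≤ LTG.c0 δ l (2 * G) at t3
    exact ⟨t, t2, by omega⟩
  · have e1 := LTG.morse2 h hs' hq' (Nat.zero_le t) ht
    obtain ⟨m, m1, m2⟩ := h.geo (x 0) (x n) (min (d (x 0) (x t)) (d (x 0) (x n))) (min_le_right _ _)
    have e2 := h.near (r' := LTG.c1 δ l (2 * G)) e1 m2 (by omega) (by omega)
    have := h.symm (x t) m
    exact ⟨m, m2, by omega⟩

end Pool.Agent.MP_735563_an.H2
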