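import Pool.Agent.MP_735563_an.H2.Spec1

set_option autoImplicit false

/-! Spectral bound for a sparse symmetric system of four maps. -/

namespace Pool.Agent.MP_735563_an.H2

open Finset

namespace Mohar

variable {V : Type} [Fintype V]

open Classical in
/-- Layer cake bound. -/
theorem layer (A : V → V → ℝ) (hS : ∀ S : Finset V, ∑ x ∈ S, ∑ y ∈ S, A x y ≤ 3 * S.card)
    (k : ℕ) : ∀ g : V → ℝ, (∀ x, 0 ≤ g x) → (univ.filter fun x => g x ≠ 0).card ≤ k →
      ∑ x, ∑ y, A x y * min (g x) (g y) ≤ 3 * ∑ x, g x := by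
  induction k with
  | zero =>
    intro g _ hk
    have h0 : ∀ x, g x = 0 := fun x => by
      by_contra h
      have : x ∈ univ.filter fun x => g x ≠ 0 := mem_filter.2 ⟨mem_univ _, h⟩
      rw [card_eq_zero.1 (Nat.le_zero.1 hk)] at this
      simp at this
    simp [h0]
  | succ k ih =>
    intro g hg hk
    set S := univ.filter fun x => g x ≠ 0 with hSdef
    have hmem : ∀ x, x ∈ S ↔ g x ≠ 0 := fun x => by simp [hSdef]
    rcases S.eq_empty_or_nonempty with he | hne
    · exact ih g hg (by rw [← hSdef, he]; simp)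
    obtain ⟨x0, hx0, hmin⟩ := exists_min_image S g hne
    set m := g x0
    let g' : V → ℝ := fun x => if x ∈ S then g x - m else 0
    have hm : 0 ≤ m := hg x0
    have hz : ∀ x, x ∉ S → g x = 0 := fun x h => by
      by_contra h'
      exact h ((hmem x).2 h')
    have h1 : ∀ x, 0 ≤ g' x := fun x => by
      by_cases h : x ∈ S
      · simp only [g', if_pos h]
        linarith [hmin x h]
      · simp only [g', if_neg h, le_refl]
    have h2 : (univ.filter fun x => g' x ≠ 0).card ≤ k := by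
      have : (univ.filter fun x => g' x ≠ 0) ⊆ S.erase x0 := fun x hx => by
        have hx' := (mem_filter.1 hx).2
        by_cases h : x ∈ S
        · refine mem_erase.2 ⟨fun e => hx' ?_, h⟩
          simp only [g', e, m, sub_self, ite_self]
        · exact absurd (if_neg h) hx'
      have h3 := card_le_card this
      rw [card_erase_of_mem hx0] at h3
      omega
    have h3 := ih g' h1 h2
    have e1 : ∀ x y, min (g x) (g y) =
        min (g' x) (g' y) + m * ((if x ∈ S then 1 else 0) * if y ∈ S then 1 else 0) := by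
      intro x y
      by_cases hx : x ∈ S <;> by_cases hy : y ∈ S
      · simp only [g', if_pos hx, if_pos hy, min_sub_sub_right]
        ring
      · have := h1 x
        simp only [g', if_pos hx, if_neg hy] at this ⊢
        rw [hz y hy, min_eq_right (hg x), min_eq_right this]
        ring
      · have := h1 y
        simp only [g', if_pos hy, if_neg hx] at this ⊢
        rw [hz x hx, min_eq_left (hg y), min_eq_left this]
        ring
      · simp [g', hx, hy, hz x hx, hz y hy]
    have e2 : ∑ x, g x = ∑ x, g' x + m * S.card := by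
      have : ∀ x, g x = g' x + m * if x ∈ S then 1 else 0 := fun x => by
        by_cases hx : x ∈ S
        · simp [g', hx]
        · simp [g', hx, hz x hx]
      rw [sum_congr rfl fun x _ => this x, sum_add_distrib, ← mul_sum]
      simp
    have e3 : ∑ x, ∑ y, A x y * min (g x) (g y) =
        ∑ x, ∑ y, A x y * min (g' x) (g' y) + m * ∑ x ∈ S, ∑ y ∈ S, A x y := by
      have : ∑ x ∈ S, ∑ y ∈ S, A x y =
          ∑ x, ∑ y, A x y * ((if x ∈ S then 1 else 0) * if y ∈ S then 1 else 0) := by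
        rw [← sum_ite_mem_eq]
        refine sum_congr rfl fun x _ => ?_
        by_cases hx : x ∈ S
        · simp [hx]
        · simp [hx]
      rw [this, mul_sum, ← sum_add_distrib]
      refine sum_congr rfl fun x _ => ?_
      rw [mul_sum, ← sum_add_distrib]
      refine sum_congr rfl fun y _ => ?_
      rw [e1]
      ring
    rw [e2, e3]
    have := mul_le_mul_of_nonneg_left (hS S) hm
    linarith

theorem pt {s : ℝ} (hs : 0 < s) (h : s ^ 2 = 15) (a b : ℝ) :
    |a * b| ≤ s / 15 * min (a ^ 2) (b ^ 2) + s / 10 * (a ^ 2 + b ^ 2) := by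
  have key : ∀ u v : ℝ, u * v ≤ s / 15 * v ^ 2 + s / 10 * (u ^ 2 + v ^ 2) := fun u v => by
    refine le_of_mul_le_mul_left ?_ hs
    have e : s * (s / 15 * v ^ 2 + s / 10 * (u ^ 2 + v ^ 2)) = 3 / 2 * u ^ 2 + 5 / 2 * v ^ 2 := by
      linear_combination (v ^ 2 / 15 + (u ^ 2 + v ^ 2) / 10) * h
    have e' : 3 / 2 * (u - s / 3 * v) ^ 2 = 3 / 2 * u ^ 2 + 5 / 2 * v ^ 2 - s * (u * v) := by
      linear_combination (v ^ 2 / 6) * h
    rw [e]
    nlinarith [sq_nonneg (u - s / 3 * v)]
  rw [abs_mul]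
  rcases le_total (a ^ 2) (b ^ 2) with h1 | h1
  · have := key |b| |a|
    rw [sq_abs, sq_abs] at this
    rw [min_eq_left h1]
    linarith
  · have := key |a| |b|
    rw [sq_abs, sq_abs] at this
    rw [min_eq_right h1]
    linarith

theorem quad (A : V → V → ℝ) (h0 : ∀ x y, 0 ≤ A x y) (hsym : ∀ x y, A x y = A y x)
    (hrow : ∀ x, ∑ y, A x y ≤ 4) (hS : ∀ S : Finset V, ∑ x ∈ S, ∑ y ∈ S, A x y ≤ 3 * S.card)
    {s : ℝ} (hs : 0 < s) (h : s ^ 2 = 15) (f : V → ℝ) :
    ∑ x, ∑ y, A x y * |f x * f y| ≤ s * ∑ x, f x ^ 2 := by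
  have h1 := layer A hS _ (fun x => f x ^ 2) (fun x => sq_nonneg _) le_rfl
  have h2 : ∑ x, ∑ y, A x y * f x ^ 2 ≤ 4 * ∑ x, f x ^ 2 := by
    rw [mul_sum]
    refine sum_le_sum fun x _ => ?_
    rw [← sum_mul]
    exact mul_le_mul_of_nonneg_right (hrow x) (sq_nonneg _)
  have h3 : ∑ x, ∑ y, A x y * f y ^ 2 ≤ 4 * ∑ x, f x ^ 2 := by
    rw [sum_comm]
    simpa only [hsym] using h2
  have h4 : ∑ x, ∑ y, A x y * |f x * f y| ≤
      s / 15 * ∑ x, ∑ y, A x y * min (f x ^ 2) (f y ^ 2) +
        s / 10 * (∑ x, ∑ y, A x y * f x ^ 2 + ∑ x, ∑ y, A x y * f y ^ 2) := by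
    simp only [mul_sum, ← sum_add_distrib]
    refine sum_le_sum fun x _ => sum_le_sum fun y _ => ?_
    have := mul_le_mul_of_nonneg_left (pt hs h (f x) (f y)) (h0 x y)
    linarith
  have h5 := mul_le_mul_of_nonneg_left h1 (show 0 ≤ s / 15 by positivity)
  have h6 := mul_le_mul_of_nonneg_left (add_le_add h2 h3) (show 0 ≤ s / 10 by positivity)
  linarith

theorem opn (A : V → V → ℝ) (h0 : ∀ x y, 0 ≤ A x y) (hsym : ∀ x y, A x y = A y x)
    (hrow : ∀ x, ∑ y, A x y ≤ 4) (hS : ∀ S : Finset V, ∑ x ∈ S, ∑ y ∈ S, A x y ≤ 3 * S.card)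
    (f : V → ℝ) : ∑ x, (∑ y, A x y * f y) ^ 2 ≤ 15 * ∑ x, f x ^ 2 := by
  obtain ⟨s, hs, h⟩ : ∃ s : ℝ, 0 < s ∧ s ^ 2 = 15 :=
    ⟨√15, Real.sqrt_pos.2 (by norm_num), Real.sq_sqrt (by norm_num)⟩
  set g : V → ℝ := fun x => ∑ y, A x y * f y with hg
  have h1 := quad A h0 hsym hrow hS hs h fun x => g x + s * f x
  have h2 := quad A h0 hsym hrow hS hs h fun x => g x - s * f x
  have e1 : ∑ x, ∑ y, A x y * (g x * f y) = ∑ x, g x ^ 2 := by
    refine sum_congr rfl fun x _ => ?_
    rw [sq]
    conv_rhs => enter [2]; rw [hg]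
    rw [mul_sum]
    exact sum_congr rfl fun y _ => by ring
  have e2 : ∑ x, ∑ y, A x y * (f x * g y) = ∑ x, g x ^ 2 := by
    rw [sum_comm, ← e1]
    exact sum_congr rfl fun x _ => sum_congr rfl fun y _ => by rw [hsym]; ring
  have h3 : 2 * s * (∑ x, ∑ y, A x y * (g x * f y) + ∑ x, ∑ y, A x y * (f x * g y)) ≤
      ∑ x, ∑ y, A x y * |(g x + s * f x) * (g y + s * f y)| +
        ∑ x, ∑ y, A x y * |(g x - s * f x) * (g y - s * f y)| := by
    simp only [mul_sum, ← sum_add_distrib]
    refine sum_le_sum fun x _ => sum_le_sum fun y _ => ?_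
    have a1 := mul_le_mul_of_nonneg_left (le_abs_self ((g x + s * f x) * (g y + s * f y))) (h0 x y)
    have a2 := mul_le_mul_of_nonneg_left (neg_le_abs ((g x - s * f x) * (g y - s * f y))) (h0 x y)
    linarith
  have e3 : ∑ x, (g x + s * f x) ^ 2 + ∑ x, (g x - s * f x) ^ 2 =
      2 * ∑ x, g x ^ 2 + 30 * ∑ x, f x ^ 2 := by
    simp only [mul_sum, ← sum_add_distrib]
    exact sum_congr rfl fun x _ => by linear_combination (2 * f x ^ 2) * h
  rw [e1, e2] at h3
  refine le_of_mul_le_mul_left ?_ hs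
  have : s * ∑ x, (g x + s * f x) ^ 2 + s * ∑ x, (g x - s * f x) ^ 2 =
      s * (2 * ∑ x, g x ^ 2 + 30 * ∑ x, f x ^ 2) := by rw [← e3]; ring
  show s * ∑ x, g x ^ 2 ≤ _
  linarith

end Mohar

open Mohar in
theorem mohar : MoharStmt := by
  classical
  intro V _ st hst hS n x y
  let A : V → V → ℝ := fun x y => ∑ i, if st x i = some y then 1 else 0
  have h0 : ∀ x y, 0 ≤ A x y := fun x y => sum_nonneg fun i _ => by split_ifs <;> norm_num
  have hsym : ∀ x y, A x y = A y x := fun x y => by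
    refine Fintype.sum_equiv (Equiv.addRight (2 : Fin 4)) _ _ fun i => ?_
    have e : i + 2 + 2 = i := by revert i; decide
    have : st x i = some y ↔ st y (i + 2) = some x :=
      ⟨hst x y i, fun h => e ▸ hst y x _ h⟩
    exact if_congr this rfl rfl
  have hin : ∀ (S : Finset V) x, ∑ y ∈ S, A x y =
      ∑ i, if ∃ y ∈ S, st x i = some y then (1 : ℝ) else 0 := fun S x => by
    rw [sum_comm]
    refine sum_congr rfl fun i _ => ?_
    cases h : st x i with
    | none => simp
    | some z => simp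
  have hrow : ∀ x, ∑ y, A x y ≤ 4 := fun x => by
    rw [hin]
    refine (sum_le_sum (g := fun _ => (1 : ℝ)) fun i _ => by split_ifs <;> norm_num).trans ?_
    simp
  have hS' : ∀ S : Finset V, ∑ x ∈ S, ∑ y ∈ S, A x y ≤ 3 * S.card := fun S => by
    have h1 : (((S ×ˢ (univ : Finset (Fin 4))).filter
        fun q => ∃ y ∈ S, st q.1 q.2 = some y).card : ℝ) ≤ 3 * S.card := by exact_mod_cast hS S
    rw [card_filter, Nat.cast_sum, sum_product] at h1
    simp only [hin]
    simpa only [Nat.cast_ite, Nat.cast_one, Nat.cast_zero] using h1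
  let c : ℕ → V → ℝ := fun n x =>
    ∑ w : Fin n → Fin 4, if run st x (List.ofFn w) = some y then 1 else 0
  have hc : ∀ n x, c (n + 1) x = ∑ z, A x z * c n z := fun n x => by
    simp only [c, A]
    rw [← (Fin.consEquiv fun _ : Fin (n + 1) => Fin 4).sum_comp, Fintype.sum_prod_type]
    simp only [sum_mul]
    rw [sum_comm (s := univ) (t := univ) (f := fun z i => (if st x i = some z then (1 : ℝ) else 0) *
      ∑ w : Fin n → Fin 4, if run st z (List.ofFn w) = some y then 1 else 0)]
    refine sum_congr rfl fun i _ => ?_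
    have e : ∀ w : Fin n → Fin 4,
        List.ofFn ((Fin.consEquiv fun _ : Fin (n + 1) => Fin 4) (i, w)) = i :: List.ofFn w :=
      fun w => by simp [List.ofFn_succ, Fin.consEquiv]
    simp only [e, run]
    cases h : st x i with
    | none => simp
    | some z => simp
  have main : ∀ n, ∑ x, c n x ^ 2 ≤ 15 ^ n := fun n => by
    induction n with
    | zero =>
      have : ∀ x, c 0 x ^ 2 = if x = y then 1 else 0 := fun x => by
        by_cases h : x = y <;> simp [c, run, h]
      simp [this]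
    | succ n ih =>
      simp only [hc]
      have := opn A h0 hsym hrow hS' (c n)
      rw [pow_succ]
      linarith
  have h1 : c n x ^ 2 ≤ 15 ^ n :=
    (single_le_sum (f := fun x => c n x ^ 2) (fun _ _ => sq_nonneg _) (mem_univ x)).trans (main n)
  have h2 : c n x = ((univ.filter
      fun w : Fin n → Fin 4 => run st x (List.ofFn w) = some y).card : ℝ) := by
    rw [card_filter, Nat.cast_sum]
    simp only [c, Nat.cast_ite, Nat.cast_one, Nat.cast_zero]
  rw [h2] at h1
  exact_mod_cast h1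

end Pool.Agent.MP_735563_an.H2
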