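import Pool.Agent.MP_735563_an.H2.Spec6

set_option autoImplicit false

/-! The observable of a rule satisfies the requirements of the measure layer. -/

open scoped BigOperators

namespace Pool.Agent.MP_735563_an.H2

namespace ObsAux

variable {p : ℕ}

/-- mark values are pairs of a colour and a label -/
noncomputable def eqv (P : RP p) (h : 0 < P.Q) : Fin P.Q × P.Lam ≃ Fin P.nE where
  toFun q := ⟨P.mkV q.1 q.2 - 1, by
    have h1 := RP.mkV_le q.1.2 q.2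
    have h2 : 1 ≤ P.mkV q.1 q.2 := Nat.le_add_left _ _
    omega⟩
  invFun v := (⟨P.colV (v + 1), RP.colV_lt h _⟩, P.lamV (v + 1))
  left_inv q := by
    have h2 : P.mkV q.1 q.2 - 1 + 1 = P.mkV q.1 q.2 := Nat.sub_add_cancel (Nat.le_add_left _ _)
    refine Prod.ext (Fin.ext ?_) ?_
    · simp only [h2, RP.colV_mkV q.1.2]
    · simp only [h2, RP.lamV_mkV]
  right_inv v := Fin.ext (by
    have := RP.mkV_self (P := P) (v := v + 1) (by omega) v.2
    simp only [this, Nat.add_sub_cancel])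

theorem eqv_val (P : RP p) (h : 0 < P.Q) (a : Fin P.Q) (b : P.Lam) :
    (eqv P h (a, b) : ℕ) + 1 = P.mkV a b := Nat.sub_add_cancel (Nat.le_add_left _ _)

theorem expect_pair {A B : Type} [Fintype A] [Fintype B] (F : A × B → ℝ) :
    𝔼 q, F q = 𝔼 a, 𝔼 b, F (a, b) := by
  rw [← Finset.univ_product_univ, Finset.expect_product]

theorem split (P : RP p) (h : 0 < P.Q) {V : Type} [Fintype V] [DecidableEq V]
    (Φ : (V → Fin P.nE) → ℝ) :
    𝔼 β, Φ β = 𝔼 γ : V → Fin P.Q, 𝔼 f : V → P.Lam, Φ fun v => eqv P h (γ v, f v) := by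
  rw [← expect_pair (fun q : (V → Fin P.Q) × (V → P.Lam) => Φ fun v => eqv P h (q.1 v, q.2 v))]
  exact (Fintype.expect_equiv ((Equiv.arrowProdEquivProdArrow V (fun _ => Fin P.Q)
    (fun _ => P.Lam)).symm.trans (Equiv.piCongrRight fun _ => eqv P h)) _ _ fun _ => rfl).symm

theorem coll {V : Type} [Fintype V] [DecidableEq V] {Q : ℕ} (h : 0 < Q) {a b : V} (hab : b ≠ a) :
    𝔼 γ : V → Fin Q, (if γ a = γ b then (1 : ℝ) else 0) = 1 / Q := by
  have : Nonempty (Fin Q) := ⟨⟨0, h⟩⟩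
  rw [Fintype.expect_equiv (Equiv.funSplitAt a (Fin Q))
    (fun γ => if γ a = γ b then (1 : ℝ) else 0)
    (fun q => if q.1 = q.2 ⟨b, hab⟩ then (1 : ℝ) else 0) fun _ => rfl, expect_pair,
    Finset.expect_comm]
  have key : ∀ c : Fin Q, 𝔼 x : Fin Q, (if x = c then (1 : ℝ) else 0) = 1 / Q := fun c => by
    rw [Finset.expect_eq_sum_div_card]
    simp
  simp only [key, Fintype.expect_const]

open Classical in
/-- the marks far from the ball are erased -/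
noncomputable def cut (i r : ℕ) (M : MS p) : St p := fun x κ =>
  if κ = (i, none) ∧ ¬ ∃ u, len u ≤ r ∧ u * x⁻¹ ∈ M.2 then 0 else M.1 x κ

theorem cut_ne {i r : ℕ} {M : MS p} {x : Gam p} {κ : Kind} (h : κ ≠ (i, none)) :
    cut i r M x κ = M.1 x κ := if_neg fun a => h a.1

theorem cut_near {i r : ℕ} {M : MS p} (h : Inv M) {x u : Gam p} (hu : len u ≤ r)
    (hx : u * x⁻¹ ∈ M.2) (κ : Kind) : cut i r M x κ = M.1 u κ := by
  rw [cut, if_neg fun a => a.2 ⟨u, hu, hx⟩]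
  have := congrFun (h _ hx) u
  rw [← this]
  simp [tr]

theorem cut_far {i r : ℕ} {M : MS p} {x : Gam p} (hx : ¬ ∃ u, len u ≤ r ∧ u * x⁻¹ ∈ M.2) :
    cut i r M x (i, none) = 0 := if_pos ⟨rfl, hx⟩

theorem cut_inv {i r : ℕ} {M : MS p} (h : Inv M) : Inv (cut i r M, M.2) := by
  classical
  intro k hk
  funext x κ
  have h1 : M.1 (k⁻¹ * x) = M.1 x := congrFun (h k hk) x
  have h2 : ∀ u : Gam p, u * (k⁻¹ * x)⁻¹ ∈ M.2 ↔ u * x⁻¹ ∈ M.2 := fun u => by
    rw [mul_inv_rev, inv_inv, ← mul_assoc]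
    exact Subgroup.mul_mem_cancel_right _ hk
  have h3 : (∃ u, len u ≤ r ∧ u * (k⁻¹ * x)⁻¹ ∈ M.2) ↔ ∃ u, len u ≤ r ∧ u * x⁻¹ ∈ M.2 :=
    exists_congr fun u => and_congr_right fun _ => h2 u
  change cut i r M (k⁻¹ * x) κ = cut i r M x κ
  unfold cut
  rw [h1]
  exact if_congr (and_congr_right fun _ => not_congr h3) rfl rfl

theorem cut_agree {i r : ℕ} {M : MS p} (h : Inv M) : Agree i r M (cut i r M, M.2) :=
  ⟨fun u hu κ _ _ => (cut_near h hu (by simp) κ).symm, fun _ _ => Iff.rfl⟩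

theorem ind_nonneg (C : MS p → Prop) (M : MS p) : 0 ≤ ind C M := by
  unfold ind; split_ifs <;> norm_num

theorem ind_le (C : MS p → Prop) (M : MS p) : ind C M ≤ 1 := by
  unfold ind; split_ifs <;> norm_num

variable [NeZero p]

theorem nfo_nonneg (P : RP p) (ρ : ℕ) (M : MS p) : 0 ≤ P.nfo ρ M := Nat.cast_nonneg _

theorem nfo_le (P : RP p) (ρ : ℕ) (M : MS p) : P.nfo ρ M ≤ P.L := by
  classical
  unfold RP.nfo
  exact_mod_cast (Finset.card_filter_le _ _).trans (by simp)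

theorem psi_bd (P : RP p) (ρ : ℕ) (M : MS p) : |P.psi ρ M| ≤ P.L + 3 := by
  have h1 : (1 : ℝ) ≤ P.n := by exact_mod_cast P.hn
  have h2 : 1 / (P.n : ℝ) ≤ 1 := (div_le_one (by linarith)).2 h1
  have h3 : 0 ≤ 1 / (P.n : ℝ) := by positivity
  have h4 : 2 / (P.n : ℝ) = 2 * (1 / P.n) := by ring
  have a1 := ind_nonneg P.Full M
  have a2 := ind_le P.Full M
  have a3 := ind_nonneg P.fl M
  have a4 := ind_le P.fl M
  have a5 := nfo_nonneg P ρ M
  have a6 := nfo_le P ρ M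
  have a7 := mul_nonneg h3 a1
  have a8 := mul_le_mul h2 a2 a1 zero_le_one
  have a9 : (0 : ℝ) ≤ P.L := Nat.cast_nonneg _
  rw [RP.psi, h4, abs_le]
  constructor <;> nlinarith

theorem psi_loc (h1 : RLocStmt) {P : RP p} (hB : P.Bas) {ρ r : ℕ} (hF : LocA P.i r P.Full)
    (hρ : ρ ≤ r) : LocA P.i r (P.psi ρ) := fun M M' a => by
  classical
  obtain ⟨-, b1, b2, -⟩ := (h1 p P hB).2.2.2 ρ
  have c1 := b1.mono le_rfl hρ M M' a
  have c2 := congrFun (b2.mono le_rfl hρ M M' a) 0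
  have c3 : P.fl M ↔ P.fl M' := by simpa [RP.cen] using c2
  have c4 : ind P.fl M = ind P.fl M' := if_congr c3 rfl rfl
  have c5 : ind P.Full M = ind P.Full M' := if_congr (hF M M' a).to_iff rfl rfl
  rw [RP.psi, RP.psi, c1, c4, c5]

theorem exp_of {P : RP p} {ρ : ℕ} {Ω : Type} [Fintype Ω] [Nonempty Ω] (z : Ω → MS p)
    (h1 : 𝔼 f, ind P.fl (z f) = 1 / P.n)
    (h2 : ∀ f, P.Full (z f) → 2 / (P.n : ℝ) ≤ 𝔼 f, P.nfo ρ (z f)) :
    𝔼 f, P.psi ρ (z f) ≤ 0 := by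
  simp only [RP.psi, Finset.expect_sub_distrib, Finset.expect_add_distrib, h1,
    Fintype.expect_const]
  have h3 : 0 ≤ 2 / (P.n : ℝ) := by positivity
  by_cases h : ∃ f, P.Full (z f)
  · obtain ⟨f, hf⟩ := h
    have h4 : 𝔼 f, 2 / (P.n : ℝ) * ind P.Full (z f) ≤ 2 / P.n :=
      Finset.expect_le Finset.univ_nonempty fun f _ =>
        (mul_le_mul_of_nonneg_left (ind_le _ _) h3).trans_eq (mul_one _)
    linarith [h2 f hf]
  · have h4 : 𝔼 f, 2 / (P.n : ℝ) * ind P.Full (z f) ≤ 0 :=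
      Finset.expect_le Finset.univ_nonempty fun f _ => by
        rw [ind, if_neg fun a => h ⟨f, a⟩, mul_zero]
    have h5 : 0 ≤ 𝔼 f, P.nfo ρ (z f) := Finset.expect_nonneg fun f _ => nfo_nonneg _ _ _
    linarith

theorem exp (h2 : ExpStmt) {P : RP p} (hB : P.Bas) {ρ r : ℕ}
    (hFe : Cnt.FeStmt ((3 * p) ^ 1000) P.n P.L P.m) (a1 : ((3 * p) ^ P.U) ^ 2 ≤ 2 ^ P.k₁)
    (a2 : 2 ≤ P.k₁) (a3 : 1 ≤ P.k₂) (hr : (P.k₂ + 2) * (P.m * P.l) + P.U ≤ r)
    (hψ : LocA P.i r (P.psi ρ)) : Cond P.i P.nE r (P.psi ρ) 0 := by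
  intro V _ inst ι y M hM
  obtain rfl : inst = fun a b => Classical.propDecidable (a = b) := Subsingleton.elim _ _
  let _ : DecidableEq V := fun a b => Classical.propDecidable (a = b)
  have : Nonempty (Fin P.Q) := ⟨⟨0, hB.Q⟩⟩
  rw [split P hB.Q]
  refine Finset.expect_le Finset.univ_nonempty fun γ _ => ?_
  set b : (V → P.Lam) → V → Fin P.nE := fun f v => eqv P hB.Q (γ v, f v) with hb
  let t : (V → P.Lam) → St p := fun f => cut P.i r (y (b f))
  have t1 : ∀ f, Inv (t f, M.2) := fun f => hM.grp (b f) ▸ cut_inv (hM.inv _)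
  have t2 : ∀ f, P.psi ρ (y (b f)) = P.psi ρ (t f, M.2) := fun f =>
    hψ _ _ (hM.grp (b f) ▸ cut_agree (hM.inv _))
  have t3 : ∀ f x u, len u ≤ r → u * x⁻¹ ∈ M.2 →
      t f x (P.i, none) = P.mkV (γ (ι u)) (f (ι u)) := fun f x u hu hx => by
    rw [← eqv_val P hB.Q, ← hM.mark (b f) u hu]
    exact cut_near (hM.inv _) hu (by rwa [hM.grp]) _
  have key := fun f₁ => h2 p P ρ hB hFe a1 a2 a3 M.2 (t f₁) V t ι (fun _ => Equiv.refl _)
    (t1 f₁) t1 (fun f x κ hκ => by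
      simp only [t, cut_ne hκ, hM.oth _ _ _ hκ])
    (fun f x => by
      by_cases hx : ∃ u, len u ≤ r ∧ u * x⁻¹ ∈ M.2
      · obtain ⟨u, hu, hx⟩ := hx
        rw [t3 f x u hu hx, t3 f₁ x u hu hx, RP.colV_mkV (Fin.is_lt _),
          RP.colV_mkV (Fin.is_lt _)]
      · simp only [t]
        rw [cut_far (by rwa [hM.grp]), cut_far (by rwa [hM.grp])])
    (fun f u hu => by rw [t3 f u u (hu.trans hr) (by simp), RP.lamV_mkV]; rfl)
    (fun u v hu hv h => (hM.cls u v (hu.trans hr) (hv.trans hr)).1 h)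
  rw [Finset.expect_congr rfl fun f _ => t2 f]
  refine exp_of (fun f => (t f, M.2)) ?_ fun f hf => ?_
  · rw [Finset.expect_eq_sum_div_card]
    exact (key (Classical.arbitrary _)).1
  · rw [Finset.expect_eq_sum_div_card]
    exact (key f).2 hf

theorem col {P : RP p} (hB : P.Bas) {r : ℕ} {ε : ℝ} (hr : 2 * P.R ≤ r)
    (hε : (3 * p : ℝ) ^ (2 * P.R) ≤ ε * P.Q) : Cond P.i P.nE r (ind P.Coll) ε := by
  classical
  intro V _ inst ι y M hM
  rw [split P hB.Q]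
  have hQ : (0 : ℝ) < P.Q := by exact_mod_cast hB.Q
  have h0 : len (1 : Gam p) ≤ r := by rw [len_one]; exact Nat.zero_le _
  set S := (ball p (2 * P.R)).filter fun s => s ∉ M.2 with hS
  have h1 : ∀ (γ : V → Fin P.Q) (f : V → P.Lam), ind P.Coll (y fun v => eqv P hB.Q (γ v, f v)) ≤
      ∑ s ∈ S, if γ (ι s) = γ (ι 1) then (1 : ℝ) else 0 := fun γ f => by
    have h2 : ∀ s ∈ S, (0 : ℝ) ≤ if γ (ι s) = γ (ι 1) then (1 : ℝ) else 0 := fun s _ => by
      split_ifs <;> norm_num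
    unfold ind
    split_ifs with h
    · obtain ⟨s, c1, c2, c3⟩ := h
      rw [hM.grp] at c2
      rw [RP.col, RP.col, pt_lab, mul_one, hM.mark _ s (c1.trans hr), hM.mark _ 1 h0, eqv_val,
        eqv_val, RP.colV_mkV (Fin.is_lt _), RP.colV_mkV (Fin.is_lt _)] at c3
      refine le_trans ?_ (Finset.single_le_sum h2 (a := s)
        (Finset.mem_filter.2 ⟨mem_ball.2 c1, c2⟩))
      rw [if_pos (Fin.ext c3)]
    · exact Finset.sum_nonneg h2
  refine (Finset.expect_le_expect fun γ _ =>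
    Finset.expect_le Finset.univ_nonempty fun f _ => h1 γ f).trans ?_
  have h3 : ∀ s ∈ S, ι 1 ≠ ι s := fun s hs h => (Finset.mem_filter.1 hs).2 (by
    simpa using (hM.cls 1 s h0 ((mem_ball.1 (Finset.mem_filter.1 hs).1).trans hr)).1 h)
  rw [Finset.expect_sum_comm, Finset.sum_congr rfl fun s hs => coll hB.Q (h3 s hs),
    Finset.sum_const, nsmul_eq_mul, mul_one_div, div_le_iff₀ hQ]
  refine le_trans ?_ hε
  exact_mod_cast (Finset.card_filter_le _ _).trans (card_ball_le _)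

end ObsAux

theorem obsS (h1 : RLocStmt) (h2 : ExpStmt) : ObsStmt := by
  intro p _ P ρ r ε hB hFe a1 a2 a3 hF hC hρ hr hR hi hε
  have hψ := ObsAux.psi_loc h1 hB hF hρ
  refine ⟨hψ, hC, ObsAux.psi_bd P ρ, ObsAux.exp h2 hB hFe a1 a2 a3 hr hψ,
    ObsAux.col hB hR hε, fun M u hu h hc => ?_⟩
  by_contra hn
  exact hc ⟨u, hu.trans hi, hn, by rw [pt, h]⟩

end Pool.Agent.MP_735563_an.H2
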