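import Pool.Agent.MP_735563_an.H2.Spec5
import Pool.Agent.MP_735563_an.H20.Det

set_option autoImplicit false

/-! Row RGeo: the rule of a task level satisfies the rule axioms. -/

namespace Pool.Agent.MP_735563_an.H2

namespace RGeo

open Cnt

section

variable {V : Type} {n L m : ℕ} {S : V × Fin L → V → Prop}

/-- a path with pairwise different vertices -/
def WP (S : V × Fin L → V → Prop) (k : ℕ) (x : ℕ → V) : Prop :=
  (∀ t < k, ∃ e, Step S (x t) e (x (t + 1))) ∧ ∀ t ≤ k, ∀ t' ≤ k, x t = x t' → t = t'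

theorem WP.sub {k a b : ℕ} {x : ℕ → V} (h : WP S k x) (hab : a + b ≤ k) :
    WP S b fun t => x (a + t) :=
  ⟨fun t ht => h.1 (a + t) (by omega), fun t ht t' ht' e => by
    have := h.2 (a + t) (by omega) (a + t') (by omega) e
    omega⟩

theorem WP.rev {k : ℕ} {x : ℕ → V} (h : WP S k x) : WP S k fun t => x (k - t) := by
  refine ⟨fun t ht => ?_, fun t ht t' ht' e => ?_⟩
  · obtain ⟨e, he⟩ := h.1 (k - (t + 1)) (by omega)
    rw [show k - (t + 1) + 1 = k - t by omega] at he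
    exact ⟨e, he.symm⟩
  · have := h.2 (k - t) (by omega) (k - t') (by omega) e
    omega

theorem WP.btw {k a b j : ℕ} {x : ℕ → V} (h : WP S k x) (ha : a ≤ k) (hb : b ≤ k)
    (hj : a + j = b ∨ b + j = a) :
    ∃ x', WP S j x' ∧ x' 0 = x a ∧ x' j = x b ∧ ∀ t ≤ j, ∃ t' ≤ k, x' t = x t' := by
  rcases hj with rfl | rfl
  · exact ⟨_, h.sub hb, rfl, rfl, fun t ht => ⟨a + t, by omega, rfl⟩⟩
  · exact ⟨_, (h.sub ha).rev, rfl, by simp, fun t ht => ⟨b + (j - t), by omega, rfl⟩⟩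

theorem WP.path {R : V × Fin L → V → Prop} (hS : ∀ e y, S e y → R e y) {k : ℕ} {x : ℕ → V}
    (h : WP S k x) (e₀ : V × Fin L) : ∃ e, Path R k x e := by
  have : ∀ t, ∃ e, t < k → Step R (x t) e (x (t + 1)) := fun t => by
    by_cases ht : t < k
    · exact (h.1 t ht).imp fun e he _ => he.mono hS
    · exact ⟨e₀, fun h' => absurd h' ht⟩
  choose e he using this
  exact ⟨e, he, h.2⟩

/-- two close paths of final edges, the first long, meet -/
theorem meet {st : V → Fin 4 → Option V} {β : V → Lab n L m} {Tg : ℕ → V → V → Prop}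
    {Cl : V → V → Prop} {k₁ k₂ k k' : ℕ} (h1 : 1 ≤ k) (h2 : k₁ ≤ k) (hk : k ≤ k₂) (hk' : k' ≤ k)
    {x x' : ℕ → V} (h : WP (Fe st β Tg Cl k₁ k₂) k x) (h' : WP (Fe st β Tg Cl k₁ k₂) k' x')
    (c1 : Cl (x 0) (x' 0)) (c2 : Cl (x' k') (x k)) : ∃ t ≤ k, ∃ t' ≤ k', x t = x' t' := by
  by_contra hc
  push Not at hc
  obtain ⟨e₀, h0⟩ := h.1 0 h1
  obtain ⟨e, he⟩ := h.path (R := Raw st β) (fun _ _ g => g.1) e₀
  obtain ⟨e', he'⟩ := h'.path (R := Raw st β) (fun _ _ g => g.1) e₀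
  have hb : Bad2 (Raw st β) Tg Cl k₁ k₂ (x 0) :=
    ⟨k, x, e, h1, hk, he, rfl, Or.inr ⟨h2, k', x', e', hk', he', c1, c2, hc⟩⟩
  rcases h0 with ⟨g, h0⟩ | ⟨-, h0⟩
  · exact h0.2.2.1 (g ▸ hb)
  · exact h0.2.2.2.1 hb

end

end RGeo

open RGeo in
theorem rgeo (h1 : RLocStmt) (h2 : AdjStmt) (h3 : RNbStmt) : RGeoStmt := by
  intro p _ 𝔇 P hB hU hG hH
  have N := h3 p 𝔇 P hB hU hG hH
  obtain ⟨u1, u2, u3, u4, u5⟩ := hU
  obtain ⟨-, -, g1, g2, g3, g4, g5⟩ := hG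
  have hlen : ∀ M c, ∀ w ∈ (𝔇 P.i).nb M c, len w ≤ P.m * P.l := fun M c w hw => by
    rw [u2] at hw
    exact hw.2.1
  refine ⟨u4 ▸ Nat.mul_pos hB.Q Fintype.card_pos, fun M M' c h => ?_, u3 ▸ hlen,
    fun s hs c a b _ _ => (N s hs c).1 a b, fun s hs c x n h => ?_,
    fun s hs c c' x n y n' hx hy d1 d2 d3 => ?_⟩
  · obtain ⟨-, -, k1, k2⟩ := (h1 p P hB).2.2.2 (𝔇 P.i).ρ
    rw [u1, u2, k1 M M' h, k2 M M' h]
    exact ⟨id, subset_rfl⟩
  · obtain ⟨k1, -, k2, -⟩ := (N s hs c).2.1 x n h.1.2 ((N s hs c).2.2.2 x n h)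
    exact ⟨by omega, k2⟩
  have hM := hH s hs
  have adj : ∀ c a b, Adj 𝔇 P.i s c a b → c = 0 ∧ ∃ e, Cnt.Step (P.FE (s, K 𝔇 (P.i - 1) s))
      (cls (s, K 𝔇 (P.i - 1) s) a) e (cls (s, K 𝔇 (P.i - 1) s) b) := fun c a b h => by
    refine ((h2 p P _ hB u5 _ (inv_of_valZ hs) a).2 b c).1 ?_
    rw [← u1, ← u2]
    exact h
  have far : ∀ t ≤ n, dj 𝔇 (P.i - 1) s (x 0) (x t) ≤ t * (P.m * P.l) := by
    intro t
    induction t with
    | zero => intro _; rw [hM.refl]; omega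
    | succ t ih =>
      intro ht
      obtain ⟨-, w, hw, k⟩ := hx.1.2 t ht
      have k1 : dj 𝔇 (P.i - 1) s (x t) (x (t + 1)) ≤ len w :=
        dM_le (M := (s, K 𝔇 (P.i - 1) s)) (by simpa using inv_mem k)
      have := hlen _ _ w hw
      have := hM.tri (x 0) (x t) (x (t + 1))
      have := ih (by omega)
      rw [Nat.succ_mul]
      omega
  have hn : P.k₁ ≤ n := by
    have := far n le_rfl
    exact (Nat.lt_of_mul_lt_mul_right (a := P.m * P.l) (by omega)).le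
  have hn' : 0 < n' := by
    refine Nat.pos_of_ne_zero fun h => ?_
    subst h
    have := hM.tri (x 0) (y 0) (x n)
    have := hM.symm (y 0) (x n)
    omega
  obtain rfl := (adj _ _ _ (hx.1.2 0 (by omega))).1
  obtain rfl := (adj _ _ _ (hy.1.2 0 hn')).1
  refine ⟨rfl, ?_⟩
  obtain ⟨-, N1, -, N2⟩ := N s hs 0
  obtain ⟨-, x1, -, x2⟩ := N1 x n hx.1.2 (N2 x n hx)
  obtain ⟨-, y1, y2, -⟩ := N1 y n' hy.1.2 (N2 y n' hy)
  have wx : WP (P.FE (s, K 𝔇 (P.i - 1) s)) P.k₁ fun t => cls _ (x t) :=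
    ⟨fun t ht => (adj _ _ _ (hx.1.2 t (by omega))).2,
      fun t ht t' ht' e => x1 t (by omega) t' (by omega) (cls_eq.1 e)⟩
  have wy : WP (P.FE (s, K 𝔇 (P.i - 1) s)) n' fun t => cls _ (y t) :=
    ⟨fun t ht => (adj _ _ _ (hy.1.2 t ht)).2, fun t ht t' ht' e => y1 t ht t' ht' (cls_eq.1 e)⟩
  have near : ∀ t ≤ n, ∃ t' ≤ n', dj 𝔇 (P.i - 1) s (x t) (y t') ≤ P.U := by
    intro t ht
    obtain ⟨m, k1, k2⟩ := x2 t ht
    obtain ⟨q, k3, k4⟩ := hM.slim4 k1 (y 0) (y n')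
    have k5 := hM.tri (x t) m q
    rcases k3 with k3 | k3 | k3
    · have := hM.tri (x t) q (y 0)
      exact ⟨0, by omega, by unfold Btw at k3; omega⟩
    · obtain ⟨t', ht', k6⟩ := y2 q k3
      have := hM.tri (x t) q (y t')
      exact ⟨t', ht', by omega⟩
    · have := hM.tri (x t) q (y n')
      have := hM.symm q (y n')
      have := hM.symm (x n) (y n')
      exact ⟨n', le_rfl, by unfold Btw at k3; omega⟩
  have fast : ∀ a j, a + j ≤ n' →
      1000 * j ≤ 2 * dj 𝔇 (P.i - 1) s (y a) (y (a + j)) + (𝔇 P.i).J := fun a j h =>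
    (N1 (fun t => y (a + t)) j (fun t ht => hy.1.2 (a + t) (by omega))
      fun t ht => N2 y n' hy (a + t) (by omega)).1
  obtain ⟨t0, ht0, c0⟩ := near 0 (by omega)
  obtain ⟨t1, ht1, c1⟩ := near P.k₁ hn
  obtain ⟨j, hj⟩ : ∃ j, t0 + j = t1 ∨ t1 + j = t0 := ⟨t1 - t0 + (t0 - t1), by omega⟩
  have hj2 : j ≤ P.k₂ := by
    have := far _ hn
    have := hM.tri (y t0) (x 0) (y t1)
    have := hM.tri (x 0) (x P.k₁) (y t1)
    have := hM.symm (y t0) (x 0)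
    have := hM.symm (y t0) (y t1)
    rcases hj with hj | hj
    · have := fast t0 j (by omega)
      rw [hj] at this
      omega
    · have := fast t1 j (by omega)
      rw [hj] at this
      omega
  obtain ⟨x', wx', e0, e1, e2⟩ := wy.btw ht0 ht1 hj
  have key : ∃ t ≤ P.k₁, ∃ t' ≤ j, cls (s, K 𝔇 (P.i - 1) s) (x t) = x' t' := by
    rcases le_total j P.k₁ with h | h
    · refine meet g2 le_rfl g3 h wx wx' ?_ ?_
      · rw [e0, dC_cls]
        exact c0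
      · rw [e1, dC_cls, dM_symm]
        exact c1
    · obtain ⟨t', ht', t, ht, e⟩ := meet (g2.trans h) h hj2 h wx' wx (by
        rw [e0, dC_cls, dM_symm]
        exact c0) (by
        rw [e1, dC_cls]
        exact c1)
      exact ⟨t, ht, t', ht', e.symm⟩
  obtain ⟨t, ht, t', ht', e⟩ := key
  obtain ⟨t'', ht'', e'⟩ := e2 t' ht'
  exact ⟨t, by omega, t'', ht'', cls_eq.1 (e.trans e')⟩

end Pool.Agent.MP_735563_an.H2
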