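import Pool.Agent.MP_735563_an.H2.Spec5

set_option autoImplicit false

/-! Locality of the basic predicates of a rule. -/

namespace Pool.Agent.MP_735563_an.H2

namespace RLocx

variable {p : ℕ} {i : ℕ}

/-- local for some radius -/
def Loc {α : Type} (i : ℕ) (f : MS p → α) : Prop := ∃ r, LocA i r f

theorem const {α : Type} (a : α) : Loc i fun _ : MS p => a := ⟨0, fun _ _ _ => rfl⟩

theorem map {α β : Type} {f : MS p → α} (h : Loc i f) (g : α → β) : Loc i fun M => g (f M) :=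
  h.imp fun _ h => h.comp g

theorem map₂ {α β γ : Type} {f : MS p → α} {f' : MS p → β} (h : Loc i f) (h' : Loc i f')
    (g : α → β → γ) : Loc i fun M => g (f M) (f' M) := by
  obtain ⟨r, h⟩ := h
  obtain ⟨r', h'⟩ := h'
  refine ⟨r + r', fun M M' a => ?_⟩
  change g (f M) (f' M) = g (f M') (f' M')
  rw [h M M' (a.mono (by omega)), h' M M' (a.mono (by omega))]

theorem both {α β : Type} {f : MS p → α} {f' : MS p → β} (h : Loc i f) (h' : Loc i f') :
    ∃ r, LocA i r f ∧ LocA i r f' := by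
  obtain ⟨r, h⟩ := h
  obtain ⟨r', h'⟩ := h'
  exact ⟨r + r', h.mono le_rfl (by omega), h'.mono le_rfl (by omega)⟩

theorem unif {α X : Type} {s : Finset X} {f : X → MS p → α} (h : ∀ x ∈ s, Loc i (f x)) :
    ∃ r, ∀ x ∈ s, LocA i r (f x) := by
  classical
  choose! ρ hρ using h
  exact ⟨s.sup ρ, fun x hx => (hρ x hx).mono le_rfl (Finset.le_sup hx)⟩

theorem all {X : Type} {s : Finset X} {f : X → MS p → Prop} (h : ∀ x ∈ s, Loc i (f x)) :
    Loc i fun M => ∀ x ∈ s, f x M := by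
  obtain ⟨r, h⟩ := unif h
  exact ⟨r, fun M M' a => propext (forall₂_congr fun x hx => (h x hx M M' a).to_iff)⟩

theorem ex {X : Type} {s : Finset X} {f : X → MS p → Prop} (h : ∀ x ∈ s, Loc i (f x)) :
    Loc i fun M => ∃ x ∈ s, f x M := by
  obtain ⟨r, h⟩ := unif h
  exact ⟨r, fun M M' a =>
    propext (exists_congr fun x => and_congr_right fun hx => (h x hx M M' a).to_iff)⟩

theorem filt {X : Type} {s : Finset X} {f : X → MS p → Prop}
    {inst : ∀ M, DecidablePred fun x => f x M} (h : ∀ x ∈ s, Loc i (f x)) :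
    Loc i fun M => @Finset.filter X (fun x => f x M) (inst M) s := by
  obtain ⟨r, h⟩ := unif h
  refine ⟨r, fun M M' a => Finset.ext fun x => ?_⟩
  simp only [Finset.mem_filter]
  exact and_congr_right fun hx => (h x hx M M' a).to_iff

theorem pi {α X : Type} [Fintype X] {f : MS p → X → α} (h : ∀ x, Loc i fun M => f M x) :
    Loc i f := by
  obtain ⟨r, h⟩ := unif (s := Finset.univ) (f := fun x M => f M x) fun x _ => h x
  exact ⟨r, fun M M' a => funext fun x => h x (Finset.mem_univ x) M M' a⟩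

theorem dep {α X : Type} {s : Finset X} {G : MS p → X} (f : X → MS p → α) (hG : Loc i G)
    (hs : ∀ M, G M ∈ s) (h : ∀ x ∈ s, Loc i (f x)) : Loc i fun M => f (G M) M := by
  obtain ⟨r, h⟩ := unif h
  obtain ⟨r', hG⟩ := hG
  refine ⟨r + r', fun M M' a => ?_⟩
  change f (G M) M = f (G M') M'
  rw [← hG M M' (a.mono (by omega))]
  exact h _ (hs M) M M' (a.mono (by omega))

theorem mem (u : Gam p) : Loc i fun M : MS p => u ∈ M.2 :=
  ⟨len u, fun _ _ a => propext (a.2 u (by omega))⟩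

theorem atp {α : Type} {f : MS p → α} (h : Loc i f) (u : Gam p) : Loc i fun M => f (pt M u) :=
  h.elim fun _ h => ⟨_, h.trM u⁻¹⟩

variable [NeZero p]

theorem atG {α : Type} {f : MS p → α} {G : MS p → Gam p} {a : ℕ} (h : Loc i f) (hG : Loc i G)
    (ha : ∀ M, len (G M) ≤ a) : Loc i fun M => f (pt M (G M)) :=
  dep (s := ball p a) (fun u M => f (pt M u)) hG (fun M => mem_ball.2 (ha M)) fun u _ => atp h u

theorem memG {G : MS p → Gam p} {a : ℕ} (hG : Loc i G) (ha : ∀ M, len (G M) ≤ a) :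
    Loc i fun M => G M ∈ M.2 :=
  dep (s := ball p a) (fun u M => u ∈ M.2) hG (fun M => mem_ball.2 (ha M)) fun u _ => mem u

variable {P : RP p}

omit [NeZero p] in
theorem lab0 (hP : P.Bas) : LocA P.i 0 fun M : MS p => M.1 1 (P.i, none) := fun _ _ a => by
  have := hP.two
  exact a.1 1 len_one.le _ (by simp only [rk]; simp; omega) (by simp [rk])

omit [NeZero p] in
theorem tau (hP : P.Bas) : Loc P.i P.τ := hP.loc.imp fun _ h => h.mono (Nat.sub_le _ _) le_rfl

omit [NeZero p] in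
theorem tau1 (hP : P.Bas) (j : Fin 4) : Loc P.i fun M => P.τ M j := map (tau hP) fun t => t j

omit [NeZero p] in
theorem lam (hP : P.Bas) : Loc P.i P.lam := ⟨0, (lab0 hP).comp P.lamV⟩

omit [NeZero p] in
theorem col (hP : P.Bas) : Loc P.i P.col := ⟨0, (lab0 hP).comp P.colV⟩

theorem atT (hP : P.Bas) {α : Type} {f : MS p → α} (h : Loc P.i f) (j : Fin 4) :
    Loc P.i fun M => f (P.T M j) := atG h (tau1 hP j) fun M => hP.len M j

theorem ok0 (hP : P.Bas) (j : Fin 4) : Loc P.i fun M => P.ok0 M j :=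
  memG (a := P.l + P.l) (map₂ (tau1 hP j) (atT hP (tau1 hP (j + 2)) j) (· * ·)) fun _ =>
    (len_mul_le _ _).trans (Nat.add_le_add (hP.len _ _) (hP.len _ _))

theorem coll (hP : P.Bas) : Loc P.i P.Coll := by
  have h := ex (s := ball p (2 * P.R)) (f := fun s M => s ∉ M.2 ∧ P.col (pt M s) = P.col M)
    fun s _ => map₂ (mem s) (map₂ (atp (col hP) s) (col hP) (· = ·)) fun a b => ¬ a ∧ b
  simp only [mem_ball] at h
  exact h

theorem dense (hP : P.Bas) (σ : Finset (Gam p)) : Loc P.i fun M => P.Dense M σ := by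
  unfold RP.Dense
  refine map₂ (all fun s _ => all fun t _ => map (mem (t * s⁻¹)) fun a => a → s = t)
    (map (filt (f := fun (q : Gam p × Fin 4) M => P.ok0 (pt M q.1) q.2 ∧
      ∃ t ∈ σ, t * (q.1 * P.τ (pt M q.1) q.2)⁻¹ ∈ M.2) fun q _ => ?_)
      fun F => 3 * σ.card < F.card) (· ∧ ·)
  refine map₂ (atp (ok0 hP q.2) q.1) (ex fun t _ => ?_) (· ∧ ·)
  refine memG (a := len t + (len q.1 + P.l))
    (map (atp (tau1 hP q.2) q.1) fun x => t * (q.1 * x)⁻¹) fun M => ?_
  have h1 := len_mul_le t (q.1 * P.τ (pt M q.1) q.2)⁻¹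
  have h2 := len_mul_le q.1 (P.τ (pt M q.1) q.2)
  have h3 := hP.len (pt M q.1) q.2
  rw [len_inv] at h1
  omega

theorem act (hP : P.Bas) (q : ℕ × Finset (Gam p)) {C : MS p → Prop} (hC : Loc P.i C) :
    Loc P.i (P.Act q C) :=
  map₂ (col hP) (map₂ (coll hP) (map₂ (dense hP q.2)
    (all fun s _ => map (atp hC s) Not) (· ∧ ·)) fun a b => ¬ a ∧ b) fun a b => a = q.1 ∧ b

theorem cov (hP : P.Bas) (L : List (ℕ × Finset (Gam p))) : Loc P.i (P.Cov L) := by
  induction L with
  | nil => exact const False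
  | cons q L ih => exact map₂ ih (ex fun s _ => atp (act hP q ih) s⁻¹) (· ∨ ·)

theorem out (hP : P.Bas) : Loc P.i P.Out := map₂ (coll hP) (cov hP P.rounds) (· ∨ ·)

theorem ok1 (hP : P.Bas) (j : Fin 4) : Loc P.i fun M => P.ok M j :=
  map₂ (ok0 hP j) (map₂ (out hP) (atT hP (out hP) j) fun a b => ¬ a ∧ ¬ b) (· ∧ ·)

theorem pos (hP : P.Bas) (w : List (Fin 4)) : Loc P.i fun M => P.pos M w := by
  induction w with
  | nil => exact const 1
  | cons j w ih => exact map₂ (tau1 hP j) (atT hP ih j) (· * ·)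

theorem runs (hP : P.Bas) (w : List (Fin 4)) : Loc P.i fun M => P.runs M w := by
  induction w with
  | nil => exact const True
  | cons j w ih => exact map₂ (ok1 hP j) (atT hP ih j) (· ∧ ·)

theorem full (hP : P.Bas) : Loc P.i P.Full :=
  map (pi (f := fun M (w : Fin P.m → Fin 4) => P.runs M (List.ofFn w)) fun _ => runs hP _)
    fun F => ∀ w, F w

theorem en (hP : P.Bas) : Loc P.i P.en :=
  pi fun k => dep (s := Finset.univ) (fun (b : P.Lam) M => P.pos M (List.ofFn (b.2 k))) (lam hP)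
    (fun _ => Finset.mem_univ _) fun _ _ => pos hP _

omit [NeZero p] in
theorem agr {ρ : ℕ} {M M' : MS p} (a : Agree i ρ M M') (N : MS p) :
    Agree i ρ M N ↔ Agree i ρ M' N := ⟨a.symm.trans, a.trans⟩

theorem fo (ρ : ℕ) : LocA P.i ρ (P.Fo ρ) := fun M M' a => by
  funext k
  simp only [RP.Fo, agr a]

end RLocx

open RLocx in
theorem rloc : RLocStmt := by
  intro p _ P hP
  refine ⟨?_, fun w => both (pos hP w) (runs hP w),
    fun L q => both (cov hP L) (act hP q (cov hP L)), fun ρ => ⟨fo ρ, ?_, ?_, ?_⟩⟩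
  · obtain ⟨r1, h1, h2⟩ := both (tau hP) (lam hP)
    obtain ⟨r2, h3, h4⟩ := both (col hP) (coll hP)
    obtain ⟨r3, h5, h6⟩ := both (cov hP P.rounds) (pi (ok1 hP))
    obtain ⟨r4, h7, h8⟩ := both (full hP) (en hP)
    exact ⟨r1 + r2 + r3 + r4, h1.mono le_rfl (by omega), h2.mono le_rfl (by omega),
      h3.mono le_rfl (by omega), h4.mono le_rfl (by omega), h5.mono le_rfl (by omega),
      h6.mono le_rfl (by omega), h7.mono le_rfl (by omega), h8.mono le_rfl (by omega)⟩
  · intro M M' a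
    unfold RP.nfo
    rw [fo ρ M M' a]
  · exact ((lab0 hP).comp fun v (c : Fin 3) => c = 0 ∧ ((P.lamV v).1 : ℕ) = 0).mono le_rfl
      (Nat.zero_le _)
  · intro M M' a
    funext c
    simp only [RP.nb, agr a]

end Pool.Agent.MP_735563_an.H2
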