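import Pool.Agent.MP_735563_an.H2.Spec5
import Pool.Agent.MP_735563_an.H20.Det

set_option autoImplicit false

/-! Row RNb: rule paths without backtracking. -/

namespace Pool.Agent.MP_735563_an.H2

namespace RNb

section Fe

open Cnt

variable {V : Type} {n L m : ℕ} {st : V → Fin 4 → Option V} {β : V → Lab n L m}
  {Tg : ℕ → V → V → Prop} {Cl : V → V → Prop} {k₁ k₂ : ℕ}

theorem fe_raw (e : V × Fin L) (y : V) (h : Fe st β Tg Cl k₁ k₂ e y) : Raw st β e y := h.1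

theorem not_bad {v v' : V} {e : V × Fin L} (h : Step (Fe st β Tg Cl k₁ k₂) v e v') :
    ¬ Bad2 (Raw st β) Tg Cl k₁ k₂ v := by
  rcases h with ⟨rfl, h⟩ | ⟨-, h⟩
  exacts [h.2.2.1, h.2.2.2.1]

theorem not_big {v v' : V} {e : V × Fin L} (h : Step (Fe st β Tg Cl k₁ k₂) v e v') :
    ¬ Big (Raw st β) v := by
  rcases h with ⟨rfl, h⟩ | ⟨-, h⟩
  exacts [h.2.2.2.2.2.1, h.2.2.2.2.2.2]

/-- short non backtracking paths of final edges have distinct vertices -/
theorem fe_inj {k : ℕ} (hk : k ≤ k₂) {x : ℕ → V} {e : ℕ → V × Fin L}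
    (h : ∀ t < k, Step (Fe st β Tg Cl k₁ k₂) (x t) (e t) (x (t + 1)))
    (hn : ∀ t, t + 1 < k → x (t + 2) ≠ x t) : ∀ t ≤ k, ∀ t' ≤ k, x t = x t' → t = t' :=
  nb_inj Raw.fn Raw.irr fe_raw (fun _ _ h => h.2.1) hk h fun t ht =>
    nb_edge Raw.fn Raw.irr ((h t (by omega)).mono fe_raw) ((h (t + 1) ht).mono fe_raw) (hn t ht)

/-- short non backtracking paths of final edges do not end in a target set -/
theorem fe_not_tg {k : ℕ} (h1 : 1 ≤ k) (hk : k ≤ k₂) {x : ℕ → V} {e : ℕ → V × Fin L}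
    (h : ∀ t < k, Step (Fe st β Tg Cl k₁ k₂) (x t) (e t) (x (t + 1)))
    (hn : ∀ t, t + 1 < k → x (t + 2) ≠ x t) : ¬ Tg k (x 0) (x k) := fun ht =>
  not_bad (h 0 h1) ⟨k, x, e, h1, hk, ⟨fun t ht => (h t ht).mono fe_raw, fe_inj hk h hn⟩, rfl,
    Or.inl ht⟩

/-- the degree of the graph of final edges is bounded -/
theorem fe_deg (v : V) : ∃ T : Finset V, T.card ≤ 10000 ∧
    ∀ y e, Step (Fe st β Tg Cl k₁ k₂) v e y → y ∈ T := by
  by_cases h : ∃ y e, Step (Fe st β Tg Cl k₁ k₂) v e y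
  swap
  · exact ⟨∅, by simp, fun y e h1 => absurd ⟨y, e, h1⟩ h⟩
  obtain ⟨y₀, e₀, h₀⟩ := h
  have h1 : ∀ T : Finset V, (∀ y ∈ T, ∃ e, Step (Raw st β) v e y) → T.card ≤ 10000 :=
    fun T hT => not_lt.1 fun h2 => not_big h₀ ⟨T, h2, hT⟩
  have h2 : {y | ∃ e, Step (Raw st β) v e y}.Finite := by
    by_contra h3
    obtain ⟨T, h4, h5⟩ := Set.Infinite.exists_subset_card_eq h3 10001
    have := h1 T fun y hy => h4 hy
    omega
  exact ⟨h2.toFinset, h1 _ fun y hy => h2.mem_toFinset.1 hy,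
    fun y e h3 => h2.mem_toFinset.2 ⟨e, h3.mono fe_raw⟩⟩

end Fe

variable {p : ℕ} [NeZero p] {P : RP p}

theorem raw_le (hB : P.Bas) {M : MS p} (hM : Inv M) {a b : Gam p} {e : Cls M × Fin P.L}
    (h1 : e.1 = cls M a) (h : Cnt.Raw (P.st M) (P.β M) e (cls M b)) :
    dM M a b ≤ P.m * P.l := by
  obtain ⟨q, k⟩ := e
  obtain rfl : q = cls M a := h1
  exact (dM_le (cls_eq.1 ((RP.raw_cls hM).1 h).2.2.2.2)).trans (RP.len_en hB.len _ _)

theorem step_le (hB : P.Bas) {M : MS p} (hM : Inv M) {a b : Gam p} {e : Cls M × Fin P.L}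
    (h : Cnt.Step (P.FE M) (cls M a) e (cls M b)) : dM M a b ≤ P.m * P.l := by
  rcases h with ⟨h1, h⟩ | ⟨h1, h⟩
  · exact raw_le hB hM h1 h.1
  · rw [dM_symm]; exact raw_le hB hM h1 h.1

/-- short windows are fast -/
theorem window {M : MS p} {ξ : ℕ → Gam p} {n : ℕ}
    (h : ∀ t < n, ∃ e, Cnt.Step (P.FE M) (cls M (ξ t)) e (cls M (ξ (t + 1))))
    (hn : ∀ t, t + 2 ≤ n → ξ (t + 2) * (ξ t)⁻¹ ∉ M.2) {a b : ℕ} (hab : a ≤ b) (hb : b ≤ n)
    (hk : b ≤ a + P.k₂) : 1000 * (b - a) ≤ dM M (ξ a) (ξ b) := by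
  obtain ⟨k, rfl⟩ := Nat.exists_eq_add_of_le hab
  rw [Nat.add_sub_cancel_left]
  rcases Nat.eq_zero_or_pos k with rfl | h0
  · simp
  have : Nonempty (Cls M × Fin P.L) := ⟨(h 0 (by omega)).choose⟩
  choose! e he using h
  have h1 := fe_not_tg (x := fun t => cls M (ξ (a + t))) (e := fun t => e (a + t)) h0
    (show k ≤ P.k₂ by omega) (fun t ht => he (a + t) (by omega))
    (fun t ht h2 => hn (a + t) (by omega) (cls_eq.1 h2.symm))
  simp only [dC_cls, Nat.add_zero] at h1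
  omega

end RNb

theorem rnb (h : AdjStmt) : RNbStmt := by
  intro p _ 𝔇 P hB hU hG hH s hs c
  obtain ⟨⟨j₁, hj, hL⟩, hJ, -⟩ := hG
  have hM := inv_of_valZ hs
  set M : MS p := (s, K 𝔇 (P.i - 1) s) with hMd
  have adj : ∀ a b, Adj 𝔇 P.i s c a b ↔
      c = 0 ∧ ∃ e, Cnt.Step (P.FE M) (cls M a) e (cls M b) := fun a b => by
    unfold Adj cenA nbA
    rw [hU.1, hU.2.1, mk_pt]
    exact (h p P _ hB hU.2.2.2.2 M hM a).2 b c
  have ltg := fun (ξ : ℕ → Gam p) (n : ℕ) (h1 : APath 𝔇 P.i s c ξ n) (h2 : NBk 𝔇 P.i s ξ n) =>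
    hL _ (dj 𝔇 (P.i - 1) s) (hH s hs) 1000 (by norm_num) ξ n
      (fun t ht => by
        obtain ⟨-, e, he⟩ := (adj _ _).1 (h1 t ht)
        exact RNb.step_le hB hM he)
      (fun a b h3 h4 h5 => RNb.window (M := M) (fun t ht => ((adj _ _).1 (h1 t ht)).2) h2 h3 h4
        (by omega))
  refine ⟨fun a b h1 => ?_, fun ξ n h1 h2 => ?_, fun a => ?_, fun ξ n h1 t ht h2 => ?_⟩
  · obtain ⟨h2, e, he⟩ := (adj _ _).1 h1
    exact (adj _ _).2 ⟨h2, e, he.symm⟩
  · refine ⟨(ltg ξ n h1 h2).1, ?_, (ltg ξ n h1 h2).2⟩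
    have key : ∀ t k, t + k ≤ n → ξ t * (ξ (t + k))⁻¹ ∈ K 𝔇 (P.i - 1) s → k = 0 := by
      intro t k h3 h4
      have h5 : dM M (ξ t) (ξ (t + k)) = 0 :=
        Nat.eq_zero_of_le_zero ((dM_le (w := 1) (by simpa using h4)).trans_eq len_one)
      by_cases h6 : k ≤ P.k₂
      · have := RNb.window (M := M) (fun t ht => ((adj _ _).1 (h1 t ht)).2) h2
          (Nat.le_add_right t k) h3 (by omega)
        omega
      · have h7 : 1000 * k ≤ 2 * dM M (ξ t) (ξ (t + k)) + (𝔇 P.i).J :=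
          (ltg (fun u => ξ (t + u)) k (fun u hu => h1 (t + u) (by omega))
            (fun u hu => h2 (t + u) (by omega))).1
        omega
    intro t ht t' ht' h3
    rcases le_total t t' with h4 | h4
    · obtain ⟨k, rfl⟩ := Nat.exists_eq_add_of_le h4
      have := key t k ht' (by simpa using inv_mem h3)
      omega
    · obtain ⟨k, rfl⟩ := Nat.exists_eq_add_of_le h4
      have := key t' k ht h3
      omega
  · classical
    obtain ⟨T, h1, h2⟩ := RNb.fe_deg (st := P.st M) (β := P.β M)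
      (Tg := fun k q q' => dC M q q' ≤ 1000 * k) (Cl := fun q q' => dC M q q' ≤ P.U)
      (k₁ := P.k₁) (k₂ := P.k₂) (cls M a)
    refine ⟨T.image Quotient.out, Finset.card_image_le.trans h1, fun b hb => ?_⟩
    obtain ⟨-, e, he⟩ := (adj _ _).1 hb
    exact ⟨_, Finset.mem_image_of_mem _ (h2 _ e he), out_cls (M := M) b⟩
  · have h3 := (h1.1.sub (a := 0) (b := t) (by omega)).append hs
      (h1.1.sub (a := t + 2) (b := n - (t + 2)) (by omega)) (by simpa using h2)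
    have := h1.2 _ _ h3 (by simp) (by
      by_cases h4 : n - (t + 2) = 0
      · obtain rfl : n = t + 2 := by omega
        simpa using inv_mem h2
      · have h5 : ¬ t + (n - (t + 2)) ≤ t := by omega
        simp only [h5, if_false, Nat.add_sub_cancel_left]
        rw [show t + 2 + (n - (t + 2)) = n by omega]
        simp)
    omega

end Pool.Agent.MP_735563_an.H2
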