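import Pool.Agent.MP_735563_an.H2.Spec5

set_option autoImplicit false

/-! Row Sparse: the spectral bound for admissible walks. -/

namespace Pool.Agent.MP_735563_an.H2

namespace Sparse

open Classical in
/-- the spectral bound only needs sparsity in a finite ball -/
theorem mohar_local (h : MoharStmt) {V : Type} (st : V → Fin 4 → Option V)
    (hs : ∀ x y i, st x i = some y → st y (i + 2) = some x) (ρ : V → ℕ) (l H : ℕ)
    (hρ : ∀ x i y, st x i = some y → ρ y ≤ ρ x + l) (hfin : {v | ρ v ≤ H}.Finite)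
    (hsp : ∀ S : Finset V, (∀ v ∈ S, ρ v ≤ H) → ((S ×ˢ (Finset.univ : Finset (Fin 4))).filter
      fun q => ∃ y ∈ S, st q.1 q.2 = some y).card ≤ 3 * S.card)
    (n : ℕ) (y z : V) (hy : ρ y + n * l ≤ H) :
    (Finset.univ.filter fun w : Fin n → Fin 4 => run st y (List.ofFn w) = some z).card ^ 2 ≤
      15 ^ n := by
  let : Fintype {v // ρ v ≤ H} := hfin.fintype
  obtain ⟨st0, e⟩ : ∃ st0 : {v // ρ v ≤ H} → Fin 4 → Option {v // ρ v ≤ H},
      ∀ a i b, st0 a i = some b ↔ st a.1 i = some b.1 := by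
    refine ⟨fun a i => (st a.1 i).bind fun b => if hb : ρ b ≤ H then some ⟨b, hb⟩ else none,
      fun a i b => ?_⟩
    simp only [Option.bind_eq_some_iff]
    constructor
    · rintro ⟨c, h1, h2⟩
      split_ifs at h2 with h3
      rw [h1, ← Option.some.inj h2]
    · intro h1
      exact ⟨b.1, h1, by rw [dif_pos b.2]⟩
  have key : ∀ (w : List (Fin 4)) (a : {v // ρ v ≤ H}) (b : V), ρ a.1 + w.length * l ≤ H →
      run st a.1 w = some b → ∃ hb : ρ b ≤ H, run st0 a w = some ⟨b, hb⟩ := by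
    intro w
    induction w with
    | nil =>
      intro a b _ h1
      obtain rfl := Option.some.inj h1
      exact ⟨a.2, rfl⟩
    | cons i w ih =>
      intro a b h0 h1
      obtain ⟨c, h2, h3⟩ := Option.bind_eq_some_iff.1 h1
      have h4 := hρ _ _ _ h2
      rw [List.length_cons, Nat.succ_mul] at h0
      obtain ⟨hb, h5⟩ := ih ⟨c, by omega⟩ b (by simp only; omega) h3
      exact ⟨hb, Option.bind_eq_some_iff.2 ⟨_, (e _ _ _).2 h2, h5⟩⟩
  have hM := h {v // ρ v ≤ H} st0 (fun a b i h1 => (e _ _ _).2 (hs _ _ _ ((e _ _ _).1 h1)))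
    (fun S => by
      have h1 := hsp (S.map (Function.Embedding.subtype _)) (by
        intro v hv
        obtain ⟨a, -, rfl⟩ := Finset.mem_map.1 hv
        exact a.2)
      rw [Finset.card_map] at h1
      refine le_trans (Finset.card_le_card_of_injOn (fun q => (q.1.1, q.2)) (fun q hq => ?_)
        fun q _ q' _ hq => ?_) h1
      · simp only [Finset.coe_filter, Finset.mem_product, Finset.mem_univ, and_true,
          Set.mem_ofPred_eq] at hq ⊢
        obtain ⟨h2, b, hb, h3⟩ := hq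
        exact ⟨Finset.mem_map_of_mem _ h2, b.1, Finset.mem_map_of_mem _ hb, (e _ _ _).1 h3⟩
      · exact Prod.ext (Subtype.ext (Prod.ext_iff.1 hq).1) (Prod.ext_iff.1 hq).2) n
    ⟨y, by omega⟩
  by_cases hz : ρ z ≤ H
  · refine le_trans (Nat.pow_le_pow_left (Finset.card_le_card fun w hw => ?_) 2) (hM ⟨z, hz⟩)
    simp only [Finset.mem_filter, Finset.mem_univ, true_and] at hw ⊢
    exact (key _ ⟨y, by omega⟩ z (by simpa using hy) hw).2
  · rw [Finset.filter_eq_empty_iff.2 fun w _ hw =>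
      hz (key _ ⟨y, by omega⟩ z (by simpa using hy) hw).1]
    simp

variable {p : ℕ} {P : RP p}

theorem cov_mono (L₁ : List (ℕ × Finset (Gam p))) {L : List (ℕ × Finset (Gam p))} {M : MS p}
    (h : P.Cov L M) : P.Cov (L₁ ++ L) M := by
  induction L₁ with
  | nil => exact h
  | cons q L₁ ih => exact Or.inl ih

variable [NeZero p]

open Classical in
theorem thin (hB : P.Bas) {M : MS p} (hM : Inv M) (S : Finset (Cls M))
    (hS : ∀ v ∈ S, dC M (cls M 1) v ≤ (P.k₂ + 1) * (P.m * P.l)) :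
    ((S ×ˢ (Finset.univ : Finset (Fin 4))).filter
      fun q => ∃ y ∈ S, P.st M q.1 q.2 = some y).card ≤ 3 * S.card := by
  by_contra hlt
  rw [not_le] at hlt
  have hin : ∀ v i y, P.st M v i = some y → ¬ P.Out (pt M v.out) ∧ ¬ P.Out (pt M y.out) := by
    intro v i y h
    rw [← cls_out v] at h
    obtain ⟨h1, rfl⟩ := (RP.st_cls hM).1 h
    refine ⟨h1.2.1, ?_⟩
    rw [← hM.pt_eq (out_cls _), pt_mul]
    exact h1.2.2
  obtain ⟨⟨a, i₀⟩, ha⟩ := Finset.card_pos.1 (lt_of_le_of_lt (Nat.zero_le _) hlt)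
  simp only [Finset.mem_filter, Finset.mem_product, Finset.mem_univ, and_true] at ha
  obtain ⟨haS, y₀, -, hy₀⟩ := ha
  have haO := (hin _ _ _ hy₀).1
  choose s hs1 hs2 using fun v : Cls M => exists_dM M a.out v.out
  have hs3 : ∀ v, cls M (a.out * s v) = v := fun v =>
    (cls_eq.2 (hs2 v)).symm.trans (cls_out v)
  have hs4 : ∀ v, pt (pt M a.out) (s v) = pt M v.out := fun v => by
    rw [← pt_mul, hM.pt_eq (hs2 v)]
  have hinj : Function.Injective s := fun v v' e => by rw [← hs3 v, e, hs3]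
  have e1 : ∀ t t', t' * t⁻¹ ∈ (pt M a.out).2 ↔ cls M (a.out * t) = cls M (a.out * t') :=
    fun t t' => by rw [mem_pt, cls_eq]; simp [mul_assoc]
  have hD : P.Dense (pt M a.out) ((S.filter fun v => ¬ P.Out (pt M v.out)).image s) := by
    constructor
    · simp only [Finset.mem_image]
      rintro _ ⟨v, -, rfl⟩ _ ⟨v', -, rfl⟩ h
      rw [e1, hs3, hs3] at h
      rw [h]
    · rw [Finset.card_image_of_injective _ hinj]
      refine lt_of_le_of_lt (Nat.mul_le_mul_left _ (Finset.card_filter_le _ _))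
        (lt_of_lt_of_le hlt (Finset.card_le_card_of_injOn (fun q => (s q.1, q.2))
          (fun q hq => ?_) fun q _ q' _ hq =>
            Prod.ext (hinj (Prod.ext_iff.1 hq).1) (Prod.ext_iff.1 hq).2))
      simp only [Finset.coe_filter, Finset.mem_product, Finset.mem_univ, and_true,
        Set.mem_ofPred_eq] at hq ⊢
      obtain ⟨h1, y, hy, h2⟩ := hq
      obtain ⟨h3, h4⟩ := hin _ _ _ h2
      rw [← hs3 q.1] at h2
      obtain ⟨h5, h6⟩ := (RP.st_cls hM).1 h2
      rw [pt_mul] at h5 h6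
      refine ⟨Finset.mem_image_of_mem _ (Finset.mem_filter.2 ⟨h1, h3⟩), h5.1, s y,
        Finset.mem_image_of_mem _ (Finset.mem_filter.2 ⟨hy, h4⟩), ?_⟩
      rw [e1, hs3, ← mul_assoc]
      exact h6.symm
  obtain ⟨L₁, L₂, hL⟩ := List.append_of_mem (l := P.rounds)
    (a := (P.col (pt M a.out), (S.filter fun v => ¬ P.Out (pt M v.out)).image s)) (by
      simp only [RP.rounds, Finset.mem_toList, Finset.mem_product, Finset.mem_range,
        Finset.mem_powerset]
      refine ⟨RP.colV_lt hB.Q _, fun t ht => ?_⟩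
      obtain ⟨v, hv, rfl⟩ := Finset.mem_image.1 ht
      have h1 : dM M (cls M 1).out v.out ≤ _ := hS v (Finset.mem_filter.1 hv).1
      have h2 : dM M (cls M 1).out a.out ≤ _ := hS a haS
      have h3 := dM_tri M a.out (cls M 1).out v.out
      have h4 := hB.R
      rw [dM_symm M a.out (cls M 1).out] at h3
      rw [mem_ball, hs1]
      omega)
  have hP : ∀ M', P.Cov ((P.col (pt M a.out),
      (S.filter fun v => ¬ P.Out (pt M v.out)).image s) :: L₂) M' → P.Out M' :=
    fun M' h => Or.inr (by rw [RP.Pack, hL]; exact cov_mono L₁ h)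
  refine haO (hP _ (Or.inr ⟨s a, Finset.mem_image_of_mem _ (Finset.mem_filter.2 ⟨haS, haO⟩), ?_⟩))
  have e2 : pt (pt M a.out) (s a)⁻¹ = pt M a.out := by
    conv_lhs => rw [← hs4 a, ← pt_mul, mul_inv_cancel, pt_one]
  rw [e2]
  refine ⟨rfl, fun h => haO (Or.inl h), hD, fun t ht h => ?_⟩
  obtain ⟨v, hv, rfl⟩ := Finset.mem_image.1 ht
  rw [hs4] at h
  exact (Finset.mem_filter.1 hv).2 (hP _ (Or.inl h))

end Sparse

open Sparse in
theorem sparse (h : MoharStmt) : SparseStmt := by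
  intro p _ P hB M hM y z k hk hy
  refine le_trans (le_of_eq ?_) (mohar_local h (P.st M) (RP.st_symm hM) (dC M (cls M 1)) P.l
    ((P.k₂ + 1) * (P.m * P.l)) (fun x i x' h1 => ?_) ?_ (fun S hS => by convert thin hB hM S hS)
    (k * P.m) y z ?_)
  · congr
  · obtain ⟨u, rfl⟩ := cls_surj x
    obtain ⟨-, rfl⟩ := (RP.st_cls hM).1 h1
    rw [dC_cls, dC_cls]
    exact (dM_tri M 1 u _).trans (Nat.add_le_add_left
      ((dM_le (w := P.τ (pt M u) i) (by simp)).trans (hB.len _ _)) _)
  · refine ((ball p ((P.k₂ + 1) * (P.m * P.l))).finite_toSet.image (cls M)).subset fun v hv => ?_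
    obtain ⟨u, rfl⟩ := cls_surj v
    obtain ⟨w, h1, h2⟩ := exists_dM M 1 u
    rw [Set.mem_ofPred_eq, dC_cls, ← h1] at hv
    exact ⟨w, mem_ball.2 hv, (cls_eq.2 (by simpa using h2)).symm⟩
  · have := Nat.mul_le_mul_right (P.m * P.l) hk
    rw [Nat.mul_assoc, Nat.succ_mul]
    omega

end Pool.Agent.MP_735563_an.H2
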