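import Pool.Agent.MP_735563_an.H2.Spec6
import Pool.Agent.MP_735563_an.H20.Fe

set_option autoImplicit false

/-! Choice of the constants of a level. -/

open Filter Topology

namespace Pool.Agent.MP_735563_an.H2

theorem exists_vol (C : ℝ) (θ δ J : ℕ) : ∃ R : ℕ, 12 * (2 * (R : ℝ) + 1) ^ 2 * (5 / 6) ^ R *
    (C * 10001 ^ ((2 * (R + θ + δ) + J) / 1000)) ^ 2 < 1 := by
  obtain ⟨C', hC'⟩ : ∃ C' : ℝ, C' = (C * 10001 ^ ((2 * (θ + δ) + J) / 1000)) ^ 2 := ⟨_, rfl⟩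
  have h0 : 0 ≤ C' := by rw [hC']; positivity
  have h := tendsto_pow_const_mul_const_pow_of_abs_lt_one 2 (r := (1 / 2 : ℝ))
    (by rw [abs_of_pos] <;> norm_num)
  have hc : (0 : ℝ) < 1 / (12 * 1001 ^ 2 * (C' + 1)) := by positivity
  obtain ⟨s, h1, h2⟩ := ((h.eventually (gt_mem_nhds hc)).and (eventually_ge_atTop 1)).exists
  refine ⟨500 * s, ?_⟩
  have e1 : (2 * (500 * s + θ + δ) + J) / 1000 = s + (2 * (θ + δ) + J) / 1000 := by omega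
  have e0 : ((5 / 6 : ℝ) ^ 250) ^ 2 ≤ (1 / 20002) ^ 2 :=
    pow_le_pow_left₀ (by positivity) (by norm_num) 2
  have e2 : ((5 / 6 : ℝ) ^ 500 * 10001 ^ 2) ^ s ≤ (1 / 2) ^ s :=
    pow_le_pow_left₀ (by positivity) (by
      rw [show 500 = 250 * 2 from rfl, pow_mul]
      generalize ((5 / 6 : ℝ) ^ 250) ^ 2 = x at e0 ⊢
      linarith) s
  have e3 : (1 : ℝ) ≤ s := by exact_mod_cast h2
  have e4 : (2 * ((500 * s : ℕ) : ℝ) + 1) ^ 2 ≤ 1001 ^ 2 * s ^ 2 := by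
    push_cast
    rw [← mul_pow]
    exact pow_le_pow_left₀ (by positivity) (by linarith) 2
  rw [lt_div_iff₀ (by positivity)] at h1
  calc _ = 12 * (2 * ((500 * s : ℕ) : ℝ) + 1) ^ 2 * ((5 / 6 : ℝ) ^ 500 * 10001 ^ 2) ^ s * C' := by
        rw [e1, hC', pow_mul, mul_pow ((5 / 6 : ℝ) ^ 500), ← pow_mul (10001 : ℝ), pow_add]
        ring
    _ ≤ 12 * (1001 ^ 2 * s ^ 2) * (1 / 2) ^ s * (C' + 1) := by gcongr; linarith
    _ < 1 := by linarith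

theorem stage (hL : LTGStmt) (hRL : RLocStmt) (hT : TrStmt) (hN : RNbStmt) (hG : RGeoStmt)
    (hO : ObsStmt) (hK : KillStmt) (hC : CongStmt) (hTh : ThStmt) : StageStmt := by
  intro p _
  obtain ⟨n, L, m, hn, -, hFe⟩ := Cnt.feAll' ((3 * p) ^ 1000)
  have hn0 : 0 < n := by omega
  refine ⟨eta0 n L m, by unfold eta0; positivity, fun 𝔇 i τ l ε hi hth hloc hlen hε => ?_⟩
  obtain ⟨δ, hδ⟩ : ∃ δ, δ = (𝔇 (i - 1)).δ := ⟨_, rfl⟩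
  obtain ⟨κ, J, j₁, hLT⟩ := hL δ (m * l)
  obtain ⟨U, hU⟩ : ∃ U, U = 1000 * (δ + κ + 1) + 2 * κ + 8 * δ := ⟨_, rfl⟩
  obtain ⟨k₁, hk1, hk2⟩ : ∃ k₁, ((3 * p) ^ U) ^ 2 ≤ 2 ^ k₁ ∧ 2 ≤ k₁ :=
    ⟨((3 * p) ^ U) ^ 2 + 2, Nat.lt_two_pow_self.le.trans
      (Nat.pow_le_pow_right (by norm_num) (by omega)), by omega⟩
  obtain ⟨k₂, hk3⟩ : ∃ k₂, k₂ = j₁ + J + 3 + k₁ + 2 * (k₁ * (m * l) + 2 * U) := ⟨_, rfl⟩
  obtain ⟨R, hR⟩ : ∃ R, R = 2 * ((k₂ + 1) * (m * l)) + 3 * (m * l) + l + i := ⟨_, rfl⟩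
  obtain ⟨Q, hQ1, hQ2⟩ : ∃ Q : ℕ, 0 < Q ∧ (3 * p : ℝ) ^ (2 * R) ≤ ε * Q := by
    obtain ⟨Q, hQ⟩ := exists_nat_ge ((3 * p : ℝ) ^ (2 * R) / ε)
    refine ⟨Q + 1, by omega, ?_⟩
    rw [div_le_iff₀ hε] at hQ
    push_cast
    linarith
  let P : RP p := ⟨i, n, L, m, hn0, Q, τ, l, R, U, k₁, k₂⟩
  have hB : P.Bas := ⟨hlen, ⟨l, hloc⟩, hi, hQ1, by simp only [P]; omega⟩
  obtain ⟨ρ, hρ⟩ := hT p P hB
  have hTr := hρ ρ le_rfl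
  obtain ⟨⟨r₀, -, -, -, hl1, -, -, hl2, -⟩, -⟩ := hRL p P hB
  refine ⟨P.obs ρ (r₀ + ρ + ((k₂ + 2) * (m * l) + U) + 2 * R),
    hO p P ρ _ ε hB hFe hk1 hk2 (by simp only [P]; omega) (hl2.mono le_rfl (by omega))
      (hl1.mono le_rfl (by omega)) (by omega) (by simp only [P]; omega) (by simp only [P]; omega)
      (by simp only [P]; omega) hQ2, fun θ₀ => ?_⟩
  obtain ⟨Δ, hΔ⟩ : ∃ Δ, Δ = k₁ * (m * l) + 2000 * (δ + κ + 1) := ⟨_, rfl⟩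
  obtain ⟨θ, hθ⟩ : ∃ θ, θ = 10 ^ 6 * (δ + κ + Δ + m * l + ρ + 1) + J + θ₀ := ⟨_, rfl⟩
  obtain ⟨R', hR'⟩ := exists_vol ((3 * p : ℝ) ^ (θ + δ)) θ δ J
  let A : Lev p := ⟨0, κ, J, m * l, ρ, Δ, θ, 1000 * θ + J + R',
    10 ^ 4 * ((1000 * θ + J + R') * (m * l) + θ), 0, P.nE, fun _ => 1, fun _ => ∅,
    fun _ _ => ⊥, fun _ _ _ _ => 0, fun _ _ => 1, P.cen, P.nb ρ⟩
  have e1 : Function.update 𝔇 i A i = A := Function.update_self ..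
  have e2 : ∀ j ≤ i - 1, 𝔇 j = Function.update 𝔇 i A j := fun j hj =>
    (Function.update_of_ne (by omega) ..).symm
  have e3 : (Function.update 𝔇 i A (i - 1)).δ = δ := by rw [← e2 _ le_rfl, hδ]
  have hth' : Th (Function.update 𝔇 i A) (i - 1) := by
    refine hTh p _ _ ⟨by rw [← e2 0 (by omega)]; exact hth.1.1,
      fun j h1 h2 => (hC p 𝔇 _ (i - 1) e2).2.2.1 j h1 h2 (hth.1.2.1 j h1 h2), ?_⟩
    rw [show i - 1 + 1 = i by omega, e1]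
    exact Nat.mul_pos hQ1 (Fintype.card_pos_iff.2 ⟨(⟨0, hn0⟩, fun _ _ => 0)⟩)
  have hUs : Uses (Function.update 𝔇 i A P.i) P := by
    change Uses (Function.update 𝔇 i A i) P
    rw [e1]
    exact ⟨rfl, rfl, rfl, rfl, hTr⟩
  have hGe : GeoC P (Function.update 𝔇 i A (P.i - 1)).δ (Function.update 𝔇 i A P.i).κ
      (Function.update 𝔇 i A P.i).J (Function.update 𝔇 i A P.i).Δ := by
    change GeoC P (Function.update 𝔇 i A (i - 1)).δ (Function.update 𝔇 i A i).κ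
      (Function.update 𝔇 i A i).J (Function.update 𝔇 i A i).Δ
    rw [e1, e3]
    refine ⟨⟨j₁, ?_, hLT⟩, ?_, ?_, ?_, ?_, ?_, ?_⟩ <;> simp only [P, A] <;> omega
  have hH : HYp (Function.update 𝔇 i A) (P.i - 1) := (hth'.2.1 _ le_rfl).1
  have hNb := hN p _ P hB hUs hGe hH
  refine ⟨A, rfl, by simp only [A]; omega, ⟨hi, hth', hG p _ P hB hUs hGe hH, ⟨?_, ?_, ?_⟩,
    ⟨?_, fun s hs c => (hNb s hs c).1, fun s hs c ξ k h1 h2 => ?_,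
      fun s hs c => (hNb s hs c).2.2.1, ?_, ⟨R', ?_, ?_⟩⟩⟩,
    hK p P ρ _ hB hTr (by simp only [P]; omega)⟩
  · rw [e1, e3]; simp only [A]; omega
  · rw [e1]; simp only [A]; omega
  · rw [e1]
  · rw [e1]; exact fun M c h => h.1
  · obtain ⟨h3, h4, h5, -⟩ := (hNb s hs c).2.1 ξ k h1 h2
    exact ⟨h3, fun h6 h7 => by have := h4 0 (by omega) k le_rfl h7; omega, h5⟩
  · rw [e1]; simp only [A]; omega
  · rw [e1]; simp only [A]; omega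
  · rw [e1, e3]; exact hR'

end Pool.Agent.MP_735563_an.H2
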