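import Pool.Agent.MP_735563_an.H2.Spec5
import Pool.Agent.MP_735563_an.H20.Det

set_option autoImplicit false

/-! Final edges are equivariant and local; the rule in invariant structures. -/

namespace Pool.Agent.MP_735563_an.H2

namespace TrA

section Emb

open Cnt

variable {V V' : Type} {n L m : ℕ} {st : V → Fin 4 → Option V} {β : V → Lab n L m}
  {Tg : ℕ → V → V → Prop} {Cl : V → V → Prop} {k₁ k₂ : ℕ} {st' : V' → Fin 4 → Option V'}
  {β' : V' → Lab n L m} {Tg' : ℕ → V' → V' → Prop} {Cl' : V' → V' → Prop} {ρ : V → ℕ}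
  {l r R : ℕ} {f : V → V'} (h : Emb st β Tg Cl st' β' Tg' Cl' ρ l r R f)

include h

theorem step {v v' : V} {e : V × Fin L} (hv : ρ v + 2 * (m * l) ≤ R)
    (hs : Step (Raw st β) v e v') : Step (Raw st' β') (f v) (f e.1, e.2) (f v') := by
  have h1 := hs.ht h.sym h.hst
  rcases hs with ⟨rfl, h4⟩ | ⟨rfl, h4⟩
  exacts [Or.inl ⟨rfl, h.raw (by omega) h4⟩, Or.inr ⟨rfl, h.raw (by omega) h4⟩]

theorem path_ht {k : ℕ} {x : ℕ → V} {e : ℕ → V × Fin L} (hc : Path (Raw st β) k x e) :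
    ∀ t ≤ k, ρ (x t) ≤ ρ (x 0) + t * (m * l) := by
  intro t
  induction t with
  | zero => intro _; simp
  | succ t ih =>
    intro ht
    have h1 := (hc.1 t ht).ht h.sym h.hst
    have h2 := ih (by omega)
    rw [Nat.succ_mul]
    omega

theorem path_le {k : ℕ} {x : ℕ → V} {e : ℕ → V × Fin L} (hc : Path (Raw st β) k x e)
    (hk : ρ (x 0) + (k + 1) * (m * l) ≤ R) : ∀ t ≤ k, ρ (x t) ≤ R := by
  intro t ht
  have := path_ht h hc t ht
  have := Nat.mul_le_mul_right (m * l) (show t ≤ k + 1 by omega)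
  omega

theorem path {k : ℕ} {x : ℕ → V} {e : ℕ → V × Fin L} (hc : Path (Raw st β) k x e)
    (hk : ρ (x 0) + (k + 1) * (m * l) ≤ R) :
    Path (Raw st' β') k (fun t => f (x t)) fun t => (f (e t).1, (e t).2) := by
  refine ⟨fun t ht => step h ?_ (hc.1 t ht), fun t ht t' ht' h3 =>
    hc.2 t ht t' ht' (h.inj _ _ (path_le h hc hk t ht) (path_le h hc hk t' ht') h3)⟩
  have := path_ht h hc t ht.le
  have := Nat.mul_le_mul_right (m * l) (show t + 2 ≤ k + 1 by omega)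
  rw [Nat.add_mul] at this
  omega

theorem bad2 {v : V} (hv : ρ v + (k₂ + 1) * (m * l) + r ≤ R)
    (hc : Bad2 (Raw st β) Tg Cl k₁ k₂ v) : Bad2 (Raw st' β') Tg' Cl' k₁ k₂ (f v) := by
  obtain ⟨k, x, e, h0, h1, h2, rfl, h3⟩ := hc
  have a1 := Nat.mul_le_mul_right (m * l) (Nat.add_le_add_right h1 1)
  have a2 := path_le h h2 (by omega)
  refine ⟨k, _, _, h0, h1, path h h2 (by omega), rfl, ?_⟩
  rcases h3 with h3 | ⟨h3, k', x', e', h4, h5, h6, h7, h8⟩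
  · exact Or.inl (h.tg _ _ _ (a2 0 (by omega)) (a2 k le_rfl) h3)
  · have a3 := h.hcl _ _ h6
    have a4 := Nat.mul_le_mul_right (m * l) (Nat.add_le_add_right (h4.trans h1) 1)
    have a5 := path_le h h5 (by omega)
    exact Or.inr ⟨h3, k', _, _, h4, path h h5 (by omega),
      h.cl _ _ (a2 0 (by omega)) (a5 0 (by omega)) h6, h.cl _ _ (a5 k' le_rfl) (a2 k le_rfl) h7,
      fun t ht t' ht' h9 => h8 t ht t' ht' (h.inj _ _ (a2 t ht) (a5 t' ht') h9)⟩

theorem big {v : V} (hv : ρ v + 2 * (m * l) ≤ R) (hc : Big (Raw st β) v) :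
    Big (Raw st' β') (f v) := by
  classical
  obtain ⟨T, h1, h2⟩ := hc
  have h3 : ∀ y ∈ T, ρ y ≤ R := fun y hy => by
    obtain ⟨e, he⟩ := h2 y hy
    have := he.ht h.sym h.hst
    omega
  refine ⟨T.image f, ?_, fun y hy => ?_⟩
  · rwa [Finset.card_image_of_injOn fun y hy z hz => h.inj y z (h3 y hy) (h3 z hz)]
  · obtain ⟨z, hz, rfl⟩ := Finset.mem_image.1 hy
    obtain ⟨e, he⟩ := h2 z hz
    exact ⟨_, step h hv he⟩

theorem fe {e : V × Fin L} {y : V} (he : ρ e.1 + (k₂ + 3) * (m * l) + r ≤ R) (hr : Raw st β e y)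
    (hs : Fe st' β' Tg' Cl' k₁ k₂ (f e.1, e.2) (f y)) : Fe st β Tg Cl k₁ k₂ e y := by
  have t0 : ρ y ≤ ρ e.1 + m * l := by simpa [wd] using run_ht h.hst hr.2.2.2
  have t1 : (k₂ + 3) * (m * l) = (k₂ + 1) * (m * l) + 2 * (m * l) := by ring
  have t2 : m * l ≤ (k₂ + 1) * (m * l) := Nat.le_mul_of_pos_left _ (by omega)
  exact ⟨hr, fun g => hs.2.1 (h.cyc (by omega) g), fun g => hs.2.2.1 (bad2 h (by omega) g),
    fun g => hs.2.2.2.1 (bad2 h (by omega) g), fun g => hs.2.2.2.2.1 (h.cross (by omega) hr g),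
    fun g => hs.2.2.2.2.2.1 (big h (by omega) g), fun g => hs.2.2.2.2.2.2 (big h (by omega) g)⟩

end Emb

variable {p : ℕ} [NeZero p] (P : RP p)

/-- an embedding between the class structures -/
abbrev Em (M M' : MS p) (ρ : Cls M → ℕ) (l r R : ℕ) (f : Cls M → Cls M') : Prop :=
  Cnt.Emb (P.st M) (P.β M) (fun k q q' => dC M q q' ≤ 1000 * k) (fun q q' => dC M q q' ≤ P.U)
    (P.st M') (P.β M') (fun k q q' => dC M' q q' ≤ 1000 * k) (fun q q' => dC M' q q' ≤ P.U)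
    ρ l r R f

theorem emb_pt {M M' : MS p} (hM : Inv M) (a : Gam p) (h : M' = pt M a) :
    ∃ f : Cls M' → Cls M, (∀ u, f (cls M' u) = cls M (a * u)) ∧
      Em P M' M (fun _ => 0) 0 0 0 f := by
  subst h
  have key : ∀ u v, cls (pt M a) u = cls (pt M a) v ↔ cls M (a * u) = cls M (a * v) := by
    intro u v
    rw [cls_eq, cls_eq, mem_pt]
    simp only [mul_assoc, mul_inv_rev]
  have hf : ∀ u, cls M (a * (cls (pt M a) u).out) = cls M (a * u) :=
    fun u => (key _ _).1 (cls_out _)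
  have hd : ∀ y z : Cls (pt M a),
      dC M (cls M (a * y.out)) (cls M (a * z.out)) = dC (pt M a) y z := fun y z => by
    rw [dC_cls, dC, dM_pt]
  refine ⟨fun q => cls M (a * q.out), hf, RP.st_symm (hM.pt a), fun _ _ _ _ => le_rfl,
    fun _ _ _ => le_rfl, fun y z _ _ e => ?_, fun y i z _ e => ?_, fun y _ => ?_,
    fun k y z _ _ e => (hd y z).trans_le e, fun y z _ _ e => (hd y z).trans_le e⟩
  · rw [← cls_out y, ← cls_out z]
    exact (key _ _).2 e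
  · obtain ⟨u, rfl⟩ := cls_surj y
    obtain ⟨h1, rfl⟩ := (RP.st_cls (hM.pt a)).1 e
    rw [hf, hf, RP.st_cls hM, pt_mul, mul_assoc]
    exact ⟨h1, rfl⟩
  · rw [RP.β_cls hM, pt_mul]
    rfl

theorem fwd {M M' : MS p} (hM : Inv M) (a : Gam p) (h : M' = pt M a) {u w : Gam p} {k : Fin P.L}
    (hF : P.FE M' (cls M' u, k) (cls M' w)) : P.FE M (cls M (a * u), k) (cls M (a * w)) := by
  obtain ⟨f, h1, h2⟩ := emb_pt P hM a h
  obtain ⟨g, h3, h4⟩ := emb_pt P (M := M') (M' := M) (h ▸ hM.pt a) a⁻¹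
    (by rw [h, ← pt_mul, mul_inv_cancel, pt_one])
  have h5 := h2.raw (by simp) hF.1
  simp only [h1] at h5
  refine fe h4 (by simp) h5 ?_
  simp only [h3, inv_mul_cancel_left]
  exact hF

theorem emb_ag (hB : P.Bas) {r R ρ : ℕ} (h1 : LocA P.i r P.τ) (h2 : LocA P.i r P.lam)
    (h3 : LocA P.i r P.ok) (hρ : 2 * R + P.l + r ≤ ρ) {M M' : MS p} (hM : Inv M) (hM' : Inv M')
    (hA : Agree P.i ρ M M') : ∃ (ht : Cls M → ℕ) (f : Cls M → Cls M'),
      (∀ w, ht (cls M w) ≤ len w) ∧ (∀ w, len w ≤ R + P.l → f (cls M w) = cls M' w) ∧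
      Em P M M' ht P.l P.U R f := by
  choose s hs1 hs2 using fun q : Cls M => exists_dM M 1 q.out
  have ha : ∀ q, cls M (s q) = q := fun q =>
    (cls_eq.2 (by simpa using hs2 q)).symm.trans (cls_out q)
  have hb : ∀ w, len (s (cls M w)) ≤ len w := fun w => by
    rw [hs1]
    exact dM_le (by simpa using out_cls (M := M) w)
  have hl : ∀ u v : Gam p, len (u * v⁻¹) ≤ len u + len v := fun u v => by
    rw [← len_inv v]
    exact len_mul_le _ _
  have hf : ∀ w, len w ≤ R + P.l → cls M' (s (cls M w)) = cls M' w := fun w hw => by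
    have := hb w
    have := hl w (s (cls M w))
    exact cls_eq.2 ((hA.2 _ (by omega)).1 (cls_eq.1 (ha _)))
  have hp : ∀ q, len (s q) ≤ R → Agree P.i r (pt M (s q)) (pt M' (s q)) :=
    fun q hq => hA.trM (by omega)
  have hd : ∀ y z, len (s y) ≤ R → len (s z) ≤ R →
      dC M' (cls M' (s y)) (cls M' (s z)) ≤ dC M y z := fun y z hy hz => by
    obtain ⟨w, h4, h5⟩ := exists_dM M (s y) (s z)
    have h6 : dM M (s y) (s z) ≤ len ((s y)⁻¹ * s z) := dM_le (by simp)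
    have := len_mul_le (s y)⁻¹ (s z)
    have := len_inv (s y)
    have := len_mul_le (s y) w
    have := hl (s y * w) (s z)
    have h7 : dC M y z = len w := by rw [h4, ← dC_cls, ha, ha]
    rw [dC_cls, h7]
    exact dM_le ((hA.2 _ (by omega)).1 h5)
  refine ⟨fun q => len (s q), fun q => cls M' (s q), hb, hf, RP.st_symm hM, fun y i z e => ?_,
    fun y z e => ?_, fun y z hy hz e => ?_, fun y i z hy e => ?_, fun y hy => ?_,
    fun k y z hy hz e => (hd y z hy hz).trans e, fun y z hy hz e => (hd y z hy hz).trans e⟩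
  · rw [← ha y] at e
    obtain ⟨-, rfl⟩ := (RP.st_cls hM).1 e
    exact (hb _).trans ((len_mul_le _ _).trans (Nat.add_le_add_left (hB.len _ _) _))
  · obtain ⟨w, h4, h5⟩ := exists_dM M (s y) (s z)
    have h6 : z = cls M (s y * w) := (ha z).symm.trans (cls_eq.2 h5)
    have h7 : len w ≤ P.U := by rwa [h4, ← dC_cls, ha, ha]
    have h8 := hb (s y * w)
    rw [← h6] at h8
    exact h8.trans ((len_mul_le _ _).trans (Nat.add_le_add_left h7 _))
  · have := hl (s z) (s y)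
    rw [← ha y, ← ha z]
    exact cls_eq.2 ((hA.2 _ (by omega)).2 (cls_eq.1 e))
  · rw [← ha y] at e
    obtain ⟨h4, rfl⟩ := (RP.st_cls hM).1 e
    rw [hf _ ((len_mul_le _ _).trans (Nat.add_le_add hy (hB.len _ _))), RP.st_cls hM',
      ← h1 _ _ (hp y hy), ← h3 _ _ (hp y hy)]
    exact ⟨h4, rfl⟩
  · rw [RP.β_cls hM', ← h2 _ _ (hp y hy), ← RP.β_cls hM, ha]

end TrA

open TrA

theorem eqvS : EqvStmt := by
  intro p _ P M hM a u w k
  refine ⟨fwd P hM a rfl, fun h => ?_⟩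
  have h1 := fwd P (M := pt M a) (M' := M) (hM.pt a) a⁻¹
    (by rw [← pt_mul, mul_inv_cancel, pt_one]) h
  rwa [inv_mul_cancel_left, inv_mul_cancel_left] at h1

theorem trS (h : RLocStmt) : TrStmt := by
  intro p _ P hB
  obtain ⟨⟨r, h1, h2, -, -, -, h3, -⟩, -⟩ := h p P hB
  refine ⟨2 * ((P.k₂ + 4) * (P.m * P.l) + P.U) + P.l + r, fun ρ hρ M M' hM hM' hA => ?_⟩
  obtain ⟨ht, f, a1, a2, a3⟩ := emb_ag P hB h1 h2 h3 hρ hM hM' hA
  obtain ⟨ht', f', b1, b2, b3⟩ := emb_ag P hB h1 h2 h3 hρ hM' hM hA.symm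
  have e : (P.k₂ + 4) * (P.m * P.l) = (P.k₂ + 3) * (P.m * P.l) + P.m * P.l := by ring
  have e' : P.m * P.l ≤ (P.k₂ + 3) * (P.m * P.l) := Nat.le_mul_of_pos_left _ (by omega)
  have key : ∀ u w k, len u ≤ P.m * P.l → len w ≤ P.m * P.l →
      P.FE M (cls M u, k) (cls M w) → P.FE M' (cls M' u, k) (cls M' w) := by
    intro u w k hu hw hF
    have := a1 u
    have := b1 u
    have h5 := a3.raw (by simp only; omega) hF.1
    simp only [a2 u (by omega), a2 w (by omega)] at h5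
    refine fe b3 (by simp only; omega) h5 ?_
    simp only [b2 u (by omega), b2 w (by omega)]
    exact hF
  have h0 : len (1 : Gam p) ≤ P.m * P.l := by rw [len_one]; exact Nat.zero_le _
  exact fun w hw k => ⟨key 1 w k h0 hw, key w 1 k hw h0⟩

theorem adjS (h : EqvStmt) : AdjStmt := by
  intro p _ P ρ hB hT M hM a
  have hMa := hM.pt a
  have e1 : ∀ w k, P.FE (pt M a) (cls _ 1, k) (cls _ w) ↔ P.FE M (cls M a, k) (cls M (a * w)) :=
    fun w k => by rw [h p P M hM a, mul_one]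
  have e2 : ∀ w k, P.FE (pt M a) (cls _ w, k) (cls _ 1) ↔ P.FE M (cls M (a * w), k) (cls M a) :=
    fun w k => by rw [h p P M hM a, mul_one]
  refine ⟨fun k => ⟨?_, fun hF => ⟨_, hMa, Agree.refl _ _ _, _, (e1 _ _).2 hF⟩⟩,
    fun b c => ⟨?_, ?_⟩⟩
  · rintro ⟨M', h1, h2, y, h3⟩
    obtain ⟨-, -, -, -, rfl⟩ := (RP.raw_cls h1).1 h3.1
    have h4 := (e1 _ _).1 ((hT M' _ h1 hMa h2.symm _
      (by rw [one_mul]; exact RP.len_en hB.len _ _) k).1 h3)
    rwa [((RP.raw_cls hM).1 h4.1).2.2.2.2] at h4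
  · rintro ⟨⟨hc, -⟩, w, ⟨-, hw, M', h1, h2, ⟨q, k⟩, h3⟩, hb⟩
    rw [← cls_eq.2 hb]
    refine ⟨hc, ?_⟩
    rcases h3 with ⟨rfl, h3⟩ | ⟨rfl, h3⟩
    · exact ⟨_, Or.inl ⟨rfl, (e1 _ _).1 ((hT M' _ h1 hMa h2.symm w hw k).1 h3)⟩⟩
    · exact ⟨_, Or.inr ⟨rfl, (e2 _ _).1 ((hT M' _ h1 hMa h2.symm w hw k).2 h3)⟩⟩
  · rintro ⟨hc, ⟨q, k⟩, ⟨rfl, h3⟩ | ⟨rfl, h3⟩⟩
    · obtain ⟨h4, -, -, -, h5⟩ := (RP.raw_cls hM).1 h3.1
      rw [h5] at h3
      exact ⟨⟨hc, h4⟩, _, ⟨hc, RP.len_en hB.len _ _, _, hMa, Agree.refl _ _ _, _,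
        Or.inl ⟨rfl, (e1 _ _).2 h3⟩⟩, cls_eq.1 h5.symm⟩
    · obtain ⟨-, h4, -, -, h5⟩ := (RP.raw_cls hM).1 h3.1
      have h6 := cls_eq.1 h5
      have h7 : b * (a * (P.en (pt M b) k)⁻¹)⁻¹ ∈ M.2 := by simpa [mul_assoc] using h6
      rw [hM.pt_eq h6] at h4
      rw [← cls_eq.2 h7] at h3
      exact ⟨⟨hc, h4⟩, _, ⟨hc, by rw [len_inv]; exact RP.len_en hB.len _ _, _, hMa,
        Agree.refl _ _ _, _, Or.inr ⟨rfl, (e2 _ _).2 h3⟩⟩, h7⟩

end Pool.Agent.MP_735563_an.H2
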