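import Pool.Agent.MP_735563_an.H2.Spec1

set_option autoImplicit false

/-! An ergodic invariant measure with prescribed small averages (extreme point argument). -/

open MeasureTheory Filter Topology ProbabilityTheory BoundedContinuousFunction

namespace Pool.Agent.MP_735563_an.H2

namespace GenM

/-- the affine functional -/
noncomputable def Phi {X : Type} [MeasurableSpace X] (g : ℕ → X → ℝ) (ν : Measure X) : ENNReal :=
  ∑' j, ∫⁻ x, ENNReal.ofReal (g j x) ∂ν

theorem Phi_comb {X : Type} [MeasurableSpace X] (g : ℕ → X → ℝ) (a b : ENNReal)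
    (ν₁ ν₂ : Measure X) : Phi g (a • ν₁ + b • ν₂) = a * Phi g ν₁ + b * Phi g ν₂ := by
  simp only [Phi, lintegral_add_measure, lintegral_smul_measure, smul_eq_mul, ENNReal.tsum_add,
    ENNReal.tsum_mul_left]

theorem le_of_comb {a b c x y : ENNReal} (ha : a ≠ 0) (hab : a + b = 1) (hc : c ≠ ⊤)
    (hy : c ≤ y) (h : a * x + b * y ≤ c) : x ≤ c := by
  have ha' : a ≠ ⊤ := fun e => by simp [e] at hab
  have hb' : b ≠ ⊤ := fun e => by simp [e] at hab
  have h1 : a * x + b * c ≤ a * c + b * c := by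
    calc a * x + b * c ≤ a * x + b * y := by gcongr
      _ ≤ c := h
      _ = a * c + b * c := by rw [← add_mul, hab, one_mul]
  have h2 := (ENNReal.add_le_add_iff_right (ENNReal.mul_ne_top hb' hc)).1 h1
  exact (ENNReal.mul_le_mul_iff_right ha ha').1 h2

section
variable {X : Type} [TopologicalSpace X] [CompactSpace X] [MeasurableSpace X] [BorelSpace X]

theorem integ {f : X → ℝ} (hf : Continuous f) (ν : Measure X) [IsFiniteMeasure ν] :
    Integrable f ν :=
  (mkOfCompact ⟨f, hf⟩).integrable ν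

theorem lsc (g : ℕ → X → ℝ) (hg : ∀ j, Continuous (g j)) (h0 : ∀ j x, 0 ≤ g j x) :
    LowerSemicontinuous fun ν : ProbabilityMeasure X => Phi g ν := by
  refine lowerSemicontinuous_tsum fun j => Continuous.lowerSemicontinuous ?_
  have : (fun ν : ProbabilityMeasure X => ∫⁻ x, ENNReal.ofReal (g j x) ∂(ν : Measure X)) =
      fun ν : ProbabilityMeasure X => ENNReal.ofReal (∫ x, g j x ∂(ν : Measure X)) := by
    funext ν
    rw [ofReal_integral_eq_lintegral_ofReal (integ (hg j) _) (Eventually.of_forall (h0 j))]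
  rw [this]
  exact ENNReal.continuous_ofReal.comp
    (ProbabilityMeasure.continuous_integral_boundedContinuousFunction (mkOfCompact ⟨g j, hg j⟩))

theorem ex_erg [TopologicalSpace.MetrizableSpace X] {G : Type} [Group G] [MulAction G X]
    (hc : ∀ a : G, Continuous fun x : X => a • x) (μ : Measure X) [IsProbabilityMeasure μ]
    (hμ : ∀ a : G, MeasurePreserving (fun x : X => a • x) μ μ) (g : ℕ → X → ℝ)
    (hg : ∀ j, Continuous (g j)) (h0 : ∀ j x, 0 ≤ g j x) (hfin : Phi g μ ≠ ⊤) :
    ∃ ν : Measure X, IsProbabilityMeasure ν ∧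
      (∀ a : G, MeasurePreserving (fun x : X => a • x) ν ν) ∧
      (∀ B : Set X, MeasurableSet B → (∀ (a : G) x, x ∈ B → a • x ∈ B) → ν B = 0 ∨ ν B = 1) ∧
      Phi g ν ≤ Phi g μ := by
  set K : Set (ProbabilityMeasure X) :=
    {ν | ∀ a : G, MeasurePreserving (fun x : X => a • x) ν ν} with hK
  have hKc : IsClosed K := by
    have : K = ⋂ a : G, {ν : ProbabilityMeasure X | ν.map (hc a).measurable.aemeasurable = ν} := by
      ext ν
      simp only [hK, Set.mem_ofPred_eq, Set.mem_iInter]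
      refine forall_congr' fun a => ⟨fun h => ?_, fun h => ⟨(hc a).measurable, ?_⟩⟩
      · apply Subtype.ext
        exact h.map_eq
      · exact congrArg Subtype.val h
    rw [this]
    exact isClosed_iInter fun a =>
      isClosed_eq (ProbabilityMeasure.continuous_map (hc a)) continuous_id
  have hμK : (⟨μ, inferInstance⟩ : ProbabilityMeasure X) ∈ K := hμ
  have hKn : K.Nonempty := ⟨_, hμK⟩
  obtain ⟨ν₀, hν₀K, hν₀⟩ := LowerSemicontinuousOn.exists_isMinOn hKn hKc.isCompact
    ((lsc g hg h0).lowerSemicontinuousOn K)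
  set c := Phi g ν₀ with hcdef
  have hcμ : c ≤ Phi g μ := hν₀ hμK
  have hcfin : c ≠ ⊤ := ne_top_of_le_ne_top hfin hcμ
  set F : Set (ProbabilityMeasure X) :=
    K ∩ (fun ν : ProbabilityMeasure X => Phi g ν) ⁻¹' Set.Iic c with hF
  have hFc : IsCompact F := (hKc.inter ((lsc g hg h0).isClosed_preimage c)).isCompact
  set ι : ProbabilityMeasure X → (X →ᵇ ℝ) → ℝ := fun ν f => ∫ x, f x ∂(ν : Measure X) with hι
  have hιc : Continuous ι :=
    continuous_pi fun f => ProbabilityMeasure.continuous_integral_boundedContinuousFunction f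
  obtain ⟨e, ⟨ν, hνF, rfl⟩, he⟩ :=
    (hFc.image hιc).extremePoints_nonempty ⟨_, ν₀, ⟨hν₀K, le_refl c⟩, rfl⟩
  refine ⟨ν, inferInstance, hνF.1, fun B hB hinv => ?_, le_trans hνF.2 hcμ⟩
  by_contra H
  have hs : (ν : Measure X) B ≠ 0 := fun h => H (Or.inl h)
  have hs' : (ν : Measure X) Bᶜ ≠ 0 := fun h => H (Or.inr ((prob_compl_eq_zero_iff hB).1 h))
  have hpre : ∀ a : G, (fun x : X => a • x) ⁻¹' B = B := by
    intro a
    ext x
    refine ⟨fun h => ?_, hinv a x⟩
    have := hinv a⁻¹ _ h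
    simpa using this
  have hcond : ∀ (s : Set X) (hsm : MeasurableSet s) (hfs : ∀ a : G, (fun x : X => a • x) ⁻¹' s = s)
      (hμs : (ν : Measure X) s ≠ 0),
      (⟨cond (ν : Measure X) s, cond_isProbabilityMeasure hμs⟩ : ProbabilityMeasure X) ∈ K := by
    intro s hsm hfs hμs a
    refine MeasurePreserving.smul_measure ?_ _
    have := (hνF.1 a).restrict_preimage hsm
    rwa [hfs a] at this
  have h₁ := hcond B hB hpre hs
  have h₂ := hcond Bᶜ hB.compl (fun a => by rw [Set.preimage_compl, hpre a]) hs'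
  have hsum : (ν : Measure X) B + (ν : Measure X) Bᶜ = 1 := prob_add_prob_compl hB
  have hdec : (ν : Measure X) = (ν : Measure X) B • cond (ν : Measure X) B +
      (ν : Measure X) Bᶜ • cond (ν : Measure X) Bᶜ := by
    simp only [ProbabilityTheory.cond, smul_smul]
    rw [ENNReal.mul_inv_cancel hs (measure_ne_top _ _),
      ENNReal.mul_inv_cancel hs' (measure_ne_top _ _), one_smul, one_smul,
      Measure.restrict_add_restrict_compl hB]
  have hΦ : (ν : Measure X) B * Phi g (cond (ν : Measure X) B) +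
      (ν : Measure X) Bᶜ * Phi g (cond (ν : Measure X) Bᶜ) ≤ c := by
    rw [← Phi_comb, ← hdec]
    exact hνF.2
  have f₁ : Phi g (cond (ν : Measure X) B) ≤ c := le_of_comb hs hsum hcfin (hν₀ h₂) hΦ
  have f₂ : Phi g (cond (ν : Measure X) Bᶜ) ≤ c :=
    le_of_comb hs' (by rw [add_comm, hsum]) hcfin (hν₀ h₁) (by rwa [add_comm])
  have i₁ : IsProbabilityMeasure (cond (ν : Measure X) B) := cond_isProbabilityMeasure hs
  have i₂ : IsProbabilityMeasure (cond (ν : Measure X) Bᶜ) := cond_isProbabilityMeasure hs'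
  have hseg : ι ν ∈ openSegment ℝ (ι ⟨cond (ν : Measure X) B, i₁⟩)
      (ι ⟨cond (ν : Measure X) Bᶜ, i₂⟩) := by
    refine ⟨((ν : Measure X) B).toReal, ((ν : Measure X) Bᶜ).toReal,
      ENNReal.toReal_pos hs (measure_ne_top _ _), ENNReal.toReal_pos hs' (measure_ne_top _ _),
      ?_, ?_⟩
    · rw [← ENNReal.toReal_add (measure_ne_top _ _) (measure_ne_top _ _), hsum, ENNReal.toReal_one]
    · funext f
      simp only [hι, Pi.add_apply, Pi.smul_apply, smul_eq_mul, ProbabilityMeasure.coe_mk]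
      conv_rhs => rw [hdec]
      rw [integral_add_measure ((f.integrable _).smul_measure (measure_ne_top _ _))
        ((f.integrable _).smul_measure (measure_ne_top _ _)), integral_smul_measure,
        integral_smul_measure, smul_eq_mul, smul_eq_mul]
  have h₃ := he ⟨_, ⟨h₁, f₁⟩, rfl⟩ ⟨_, ⟨h₂, f₂⟩, rfl⟩ hseg
  have h₄ : cond (ν : Measure X) B = ν :=
    ext_of_forall_integral_eq_of_IsFiniteMeasure fun f => congrFun h₃ f
  apply hs'
  rw [← h₄, cond_apply hB]
  simp

theorem sq_le {f : X → ℝ} (hf : Continuous f) (ν : Measure X) [IsProbabilityMeasure ν] :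
    (∫ x, f x ∂ν) ^ 2 ≤ ∫ x, f x ^ 2 ∂ν := by
  set c := ∫ x, f x ∂ν with hc
  have h1 : 0 ≤ ∫ x, (f x ^ 2 - (2 * c * f x - c ^ 2)) ∂ν :=
    integral_nonneg fun x => by
      have := sq_nonneg (f x - c)
      simp only [Pi.zero_apply]
      nlinarith
  rw [integral_sub (integ (by fun_prop) ν) (integ (by fun_prop) ν),
    integral_sub (integ (by fun_prop) ν) (integrable_const _), integral_const_mul, ← hc] at h1
  simp only [integral_const, probReal_univ, smul_eq_mul, one_mul] at h1
  nlinarith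

end

end GenM

open GenM in
theorem genS (_h : EnStmt) : GenStmt := by
  intro p _ N _ X _ _ _ _ _ _ μ _ hc hμ _ h tol m hh htol hb
  have hP : ∀ j, Continuous (Pw p (m j) (h j)) := fun j => by
    unfold Pw
    exact (continuous_finsetSum _ fun w _ => (hh j).comp (hc _)).div_const _
  set g : ℕ → X → ℝ := fun j x => (Pw p (m j) (h j) x) ^ 2 / tol j ^ 2 with hg
  have hgc : ∀ j, Continuous (g j) := fun j => ((hP j).pow 2).div_const _
  have hg0 : ∀ j x, 0 ≤ g j x := fun j x => by positivity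
  have hμ1 : Phi g μ ≤ 1 := by
    have h1 : ∀ j, ∫⁻ x, ENNReal.ofReal (g j x) ∂μ ≤ 2⁻¹ * (2⁻¹ : ENNReal) ^ j := by
      intro j
      rw [← ofReal_integral_eq_lintegral_ofReal (integ (hgc j) _) (Eventually.of_forall (hg0 j))]
      have h2 : ∫ x, g j x ∂μ ≤ 2⁻¹ * 2⁻¹ ^ j := by
        have ht := pow_pos (htol j) 2
        simp only [hg]
        rw [integral_div, div_le_iff₀ ht]
        refine (hb j).trans ?_
        rw [div_le_iff₀ (by positivity), inv_pow, pow_add]
        have h3 : (0 : ℝ) < 2 ^ j := by positivity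
        have h4 : (2⁻¹ : ℝ) * (2 ^ j)⁻¹ * tol j ^ 2 * (2 ^ j * 2 ^ 2) = 2 * tol j ^ 2 := by
          field_simp
        rw [h4]
        linarith
      refine (ENNReal.ofReal_le_ofReal h2).trans (le_of_eq ?_)
      rw [ENNReal.ofReal_mul (by norm_num), ENNReal.ofReal_pow (by norm_num),
        ENNReal.ofReal_inv_of_pos (by norm_num), ENNReal.ofReal_ofNat]
    refine (ENNReal.tsum_le_tsum h1).trans (le_of_eq ?_)
    rw [ENNReal.tsum_mul_left, ENNReal.tsum_geometric, ENNReal.one_sub_inv_two, inv_inv,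
      ENNReal.inv_mul_cancel (by norm_num) (by norm_num)]
  obtain ⟨ν, hν, hinv, herg, hΦ⟩ :=
    ex_erg hc μ hμ g hgc hg0 (ne_top_of_le_ne_top ENNReal.one_ne_top hμ1)
  refine ⟨ν, hν, hinv, herg, fun j => ?_⟩
  have h1 : ∫⁻ x, ENNReal.ofReal (g j x) ∂ν ≤ 1 :=
    (ENNReal.le_tsum (f := fun j => ∫⁻ x, ENNReal.ofReal (g j x) ∂ν) j).trans (hΦ.trans hμ1)
  rw [← ofReal_integral_eq_lintegral_ofReal (integ (hgc j) _) (Eventually.of_forall (hg0 j)),
    ENNReal.ofReal_le_one] at h1
  simp only [hg] at h1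
  rw [integral_div, div_le_one (pow_pos (htol j) 2)] at h1
  have h2 : ∫ x, Pw p (m j) (h j) x ∂ν = ∫ x, h j x ∂ν := by
    unfold Pw
    rw [integral_div, integral_finsetSum (f := fun (w : Fin (m j) → Fin 3 × ZMod p) x =>
      h j ((wprod w)⁻¹ • x)) _ fun w _ => integ ((hh j).comp (hc _)) ν]
    have h3 : ∀ w : Fin (m j) → Fin 3 × ZMod p,
        ∫ x, h j ((wprod w)⁻¹ • x) ∂ν = ∫ x, h j x ∂ν := fun w => by
      have := integral_map (μ := ν) (hinv (wprod w)⁻¹).measurable.aemeasurable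
        (hh j).aestronglyMeasurable
      rw [(hinv _).map_eq] at this
      exact this.symm
    have hp : (0 : ℝ) < p := Nat.cast_pos.2 (NeZero.pos p)
    simp only [h3, Finset.sum_const, Finset.card_univ, Fintype.card_fun, Fintype.card_prod,
      Fintype.card_fin, ZMod.card, nsmul_eq_mul]
    push_cast
    field_simp
  have h4 := (sq_le (hP j) ν).trans h1
  rw [h2] at h4
  exact abs_le_of_sq_le_sq' h4 (htol j).le |> abs_le.2

end Pool.Agent.MP_735563_an.H2
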