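import Pool.Agent.MP_735563_an.H2.All3
import Pool.Agent.MP_735563_an.H2.Stage
import Pool.Agent.MP_735563_an.H2.LTG
import Pool.Agent.MP_735563_an.H2.Mohar
import Pool.Agent.MP_735563_an.H2.Forest
import Pool.Agent.MP_735563_an.H2.RLoc
import Pool.Agent.MP_735563_an.H2.Tr
import Pool.Agent.MP_735563_an.H2.Sparse
import Pool.Agent.MP_735563_an.H2.RNb
import Pool.Agent.MP_735563_an.H2.RGeo
import Pool.Agent.MP_735563_an.H2.Exp
import Pool.Agent.MP_735563_an.H2.Obs
import Pool.Agent.MP_735563_an.H34.Asm
import Pool.Agent.MP_735563_an.H34.Kill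
import Pool.Agent.MP_735563_an.H34.KPack
import Pool.Agent.MP_735563_an.H34.KGood
import Pool.Agent.MP_735563_an.H34.KComp
import Pool.Agent.MP_735563_an.H34.KFor
import Pool.Agent.MP_735563_an.H34.Marg
import Pool.Agent.MP_735563_an.H34.Sup
import Pool.Agent.MP_735563_an.H34.Rel
import Pool.Agent.MP_735563_an.H34.Var
import Pool.Agent.MP_735563_an.H34.Lim
import Pool.Agent.MP_735563_an.H34.Erg
import Pool.Agent.MP_735563_an.H34.Task
import Pool.Agent.MP_735563_an.H34.Rec

set_option autoImplicit false

/-! The rule of a level and the final statement. -/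

namespace Pool.Agent.MP_735563_an.H2

theorem adjT : AdjStmt := adjS eqvS
theorem rnbT : RNbStmt := rnb adjT
theorem killT : KillStmt :=
  killS rloc (kpack rloc freeCnt) (kgood rloc) (kcomp rloc adjT eqvS (kavg csumS mtp) kfor')
theorem stageT : StageStmt :=
  stage ltg rloc (trS rloc) rnbT (rgeo rloc adjT rnbT) (obsS rloc (expS (sparse mohar))) killT
    cong thT

theorem final_of_fga (h : FGaStmt) : Final :=
  final_of_stage grpT oneT cong thT (allT h) famT (modelT h) stageT (margS famT irT) (invB famT)
    (supS cpS irT) (relS famT relab) (varS spreadT) limS ergS atomS taskS freeS (recS cong)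

end Pool.Agent.MP_735563_an.H2
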