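import Pool.Agent.MP_735563_an.H2.Spec1

set_option autoImplicit false

/-! States, level data and all notions of the state theory. -/

namespace Pool.Agent.MP_735563_an.H2

/-- kinds of labels: `(i, none)` is the mark of level `i`, `(i, some c)` the fold label -/
abbrev Kind : Type := ℕ × Option (Fin 3)

/-- labelled configurations, `0` means undefined -/
abbrev St (p : ℕ) : Type := Gam p → Kind → ℕ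

/-- a configuration with a subgroup -/
abbrev MS (p : ℕ) : Type := St p × Subgroup (Gam p)

variable {p : ℕ}

/-- rank of a kind -/
def rk (κ : Kind) : ℕ := 2 * κ.1 + (if κ.2.isSome then 1 else 0)

/-- extension of configurations -/
def Le (s s' : St p) : Prop := ∀ x κ, s x κ ≠ 0 → s' x κ = s x κ

/-- conflicting configurations -/
def Incomp (s s' : St p) : Prop := ∃ x κ, s x κ ≠ 0 ∧ s' x κ ≠ 0 ∧ s x κ ≠ s' x κ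

/-- translate -/
def tr (g : Gam p) (s : St p) : St p := fun x => s (g⁻¹ * x)

/-- translate of a marked structure -/
def trM (g : Gam p) (M : MS p) : MS p := (tr g M.1, cjs g M.2)

/-- two marked structures look the same in the ball of radius `r` up to the mark of level `i` -/
def Agree (i r : ℕ) (M M' : MS p) : Prop :=
  (∀ u, len u ≤ r → ∀ κ, 2 ≤ rk κ → rk κ ≤ 2 * i → M.1 u κ = M'.1 u κ) ∧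
    ∀ u, len u ≤ 2 * r → (u ∈ M.2 ↔ u ∈ M'.2)

/-- neighbourhood -/
def Nb (r : ℕ) (S : Set (Gam p)) : Set (Gam p) := {x | ∃ y ∈ S, ∃ u, len u ≤ r ∧ x = y * u}

/-- saturation -/
def Sat (H : Subgroup (Gam p)) (S : Set (Gam p)) : Set (Gam p) :=
  {x | ∃ h ∈ H, ∃ y ∈ S, x = h * y}

/-- left translate of a set -/
def lm (g : Gam p) (S : Set (Gam p)) : Set (Gam p) := {y | g⁻¹ * y ∈ S}

/-- data of one level -/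
structure Lev (p : ℕ) where
  δ : ℕ
  κ : ℕ
  J : ℕ
  l : ℕ
  ρ : ℕ
  Δ : ℕ
  θ : ℕ
  n : ℕ
  g : ℕ
  D : ℕ
  nE : ℕ
  M : Fin 3 → ℕ
  Z : Fin 3 → Finset ℕ
  L : Fin 3 → ℕ → Subgroup (Gam p)
  τ : Fin 3 → ℕ → St p
  φ : Fin 3 → ℕ → ℚ
  cen : MS p → Fin 3 → Prop
  nb : MS p → Fin 3 → Set (Gam p)

variable (𝔇 : ℕ → Lev p)

/-- the group generated by the folds of level at most `j` -/
def K (j : ℕ) (s : St p) : Subgroup (Gam p) :=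
  Subgroup.closure {u | ∃ i c x, 1 ≤ i ∧ i ≤ j ∧ s x (i, some c) ≠ 0 ∧
    x⁻¹ * u * x ∈ (𝔇 i).L c (s x (i, some c))}

/-- the group generated by all folds -/
def Kall (s : St p) : Subgroup (Gam p) :=
  Subgroup.closure {u | ∃ i c x, 1 ≤ i ∧ s x (i, some c) ≠ 0 ∧
    x⁻¹ * u * x ∈ (𝔇 i).L c (s x (i, some c))}

/-- coset metric of level `j` -/
noncomputable def dj (j : ℕ) (s : St p) : Gam p → Gam p → ℕ := qd (K 𝔇 j s) d0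

/-- centres of the model -/
def core (i : ℕ) (c : Fin 3) (z : ℕ) : Set (Gam p) := {e | (𝔇 i).τ c z e (i, some c) ≠ 0}

/-- the folds of level `i` are valid -/
def ValAt (i : ℕ) (s : St p) : Prop :=
  ∀ x c, s x (i, some c) ≠ 0 → s x (i, some c) ∈ (𝔇 i).Z c ∧
    Le (tr x ((𝔇 i).τ c (s x (i, some c)))) s ∧
    ∀ l ∈ (𝔇 i).L c (s x (i, some c)), tr (x * l * x⁻¹) s = s

def ValZ (N : ℕ) (s : St p) : Prop := ∀ i, 1 ≤ i → i ≤ N → ValAt 𝔇 i s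

def Val (N : ℕ) (s : St p) : Prop :=
  ValZ 𝔇 N s ∧ ∀ i, 1 ≤ i → i ≤ N + 1 → ∀ x, s x (i, none) ≤ (𝔇 i).nE

/-- only labels from the mark of level one to the mark of level `N + 1` -/
def Lv (N : ℕ) (s : St p) : Prop := ∀ x κ, s x κ ≠ 0 → 2 ≤ rk κ ∧ rk κ ≤ 2 * N + 2

/-- the marked structure seen by the rule of level `i` at `x` -/
def mk (i : ℕ) (s : St p) (x : Gam p) : MS p := trM x⁻¹ (s, K 𝔇 (i - 1) s)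

def cenA (i : ℕ) (s : St p) (c : Fin 3) (x : Gam p) : Prop := (𝔇 i).cen (mk 𝔇 i s x) c

def nbA (i : ℕ) (s : St p) (c : Fin 3) (x : Gam p) : Set (Gam p) := (𝔇 i).nb (mk 𝔇 i s x) c

/-- completeness up to level `i` at a point -/
def Comp : ℕ → St p → Gam p → Prop
  | 0, s, x => s x (1, none) ≠ 0
  | i + 1, s, x => s x (i + 2, none) ≠ 0 ∧
      (∀ u, len u ≤ (𝔇 (i + 1)).θ → Comp i s (x * u)) ∧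
      ∀ c, cenA 𝔇 (i + 1) s c x → s x (i + 1, some c) ≠ 0

/-- region of level `i` -/
def Dm (i : ℕ) (s : St p) : Set (Gam p) := {x | s x (i + 1, none) ≠ 0}

/-- folded centres of level `i` -/
def Cen (i : ℕ) (s : St p) : Set (Gam p) := {x | ∃ c, s x (i, some c) ≠ 0}

def ExA (i : ℕ) (s : St p) : Prop := Dm (i - 1) s = Nb (𝔇 i).θ (Dm i s ∪ Cen i s)

def ExB (i : ℕ) (s : St p) : Prop :=
  ∀ x ∈ Dm i s, ∀ c, cenA 𝔇 i s c x → s x (i, some c) ≠ 0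

def ExC (i : ℕ) (s : St p) : Prop :=
  ∀ x c, s x (i, some c) ≠ 0 → ∃ e ∈ core 𝔇 i c (s x (i, some c)), x * e ∈ Dm i s

/-- exact tower below level `j` -/
def Tow (j : ℕ) (s : St p) : Prop := ∀ i, 1 ≤ i → i ≤ j → ExA 𝔇 i s ∧ ExB 𝔇 i s ∧ ExC 𝔇 i s

/-- transversal of the labelled sites -/
def IsTr (s : St p) (F : Finset (Gam p × Kind)) : Prop :=
  (∀ a ∈ F, s a.1 a.2 ≠ 0) ∧
    (∀ a ∈ F, ∀ b ∈ F, a.2 = b.2 → b.1 * a.1⁻¹ ∈ Kall 𝔇 s → a = b) ∧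
    ∀ x κ, s x κ ≠ 0 → ∃ a ∈ F, a.2 = κ ∧ a.1 * x⁻¹ ∈ Kall 𝔇 s

def Good (N : ℕ) (s : St p) : Prop := Val 𝔇 N s ∧ Lv N s ∧ ∃ F, IsTr 𝔇 s F

/-- weight of one label -/
def wt : Kind → ℕ → ℚ
  | (i, none), _ => 1 / (𝔇 i).nE
  | (i, some c), z => (𝔇 i).φ c z

open Classical in
/-- weight of a finite state -/
noncomputable def W (s : St p) : ℚ :=
  if h : ∃ F, IsTr 𝔇 s F then ∏ a ∈ h.choose, wt 𝔇 a.2 (s a.1 a.2) else 1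

/-- the rule of level `i` is determined at `x` -/
def RC (i : ℕ) (s : St p) (x : Gam p) : Prop :=
  ∀ u, len u ≤ 2 * (𝔇 i).ρ + (𝔇 (i - 1)).δ → Comp 𝔇 (i - 1) s (x * u)

/-- rule adjacency -/
def Adj (i : ℕ) (s : St p) (c : Fin 3) (a b : Gam p) : Prop :=
  cenA 𝔇 i s c a ∧ ∃ w ∈ nbA 𝔇 i s c a, b * (a * w)⁻¹ ∈ K 𝔇 (i - 1) s

def RPath (i : ℕ) (s : St p) (c : Fin 3) (x : ℕ → Gam p) (n : ℕ) : Prop :=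
  (∀ t ≤ n, RC 𝔇 i s (x t)) ∧ ∀ t < n, Adj 𝔇 i s c (x t) (x (t + 1))

/-- shortest rule path -/
def Short (i : ℕ) (s : St p) (c : Fin 3) (x : ℕ → Gam p) (n : ℕ) : Prop :=
  RPath 𝔇 i s c x n ∧ ∀ y n', RPath 𝔇 i s c y n' → y 0 = x 0 →
    y n' * (x n)⁻¹ ∈ K 𝔇 (i - 1) s → n ≤ n'

/-- points reached from `x` in at most `t` rule steps -/
def Tn (i : ℕ) (s : St p) (c : Fin 3) (x : Gam p) : ℕ → Set (Gam p)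
  | 0 => {x}
  | t + 1 => Tn i s c x t ∪
      {y | ∃ a ∈ Tn i s c x t, cenA 𝔇 i s c a ∧ ∃ w ∈ nbA 𝔇 i s c a, y = a * w}

/-- a view at the centre `1` -/
def IsV (i : ℕ) (c : Fin 3) (σ : St p) : Prop :=
  Good 𝔇 (i - 1) σ ∧ Tow 𝔇 (i - 1) σ ∧ cenA 𝔇 i σ c 1 ∧
    Dm (i - 1) σ = Nb (𝔇 i).θ (Sat (Kall 𝔇 σ) (Tn 𝔇 i σ c 1 (𝔇 i).n))

structure RuleOK (i : ℕ) : Prop where
  nE_pos : 0 < (𝔇 i).nE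
  loc : ∀ M M' c, Agree i (𝔇 i).ρ M M' →
    ((𝔇 i).cen M c → (𝔇 i).cen M' c) ∧ (𝔇 i).nb M c ⊆ (𝔇 i).nb M' c
  len : ∀ M c, ∀ w ∈ (𝔇 i).nb M c, len w ≤ (𝔇 i).l
  sym : ∀ s, ValZ 𝔇 (i - 1) s → ∀ c a b, RC 𝔇 i s a → RC 𝔇 i s b → Adj 𝔇 i s c a b →
    Adj 𝔇 i s c b a
  qg : ∀ s, ValZ 𝔇 (i - 1) s → ∀ c x n, Short 𝔇 i s c x n →
    n ≤ 2 * dj 𝔇 (i - 1) s (x 0) (x n) + (𝔇 i).J ∧
    ∀ m, Btw (dj 𝔇 (i - 1) s) (x 0) m (x n) → ∃ t ≤ n, dj 𝔇 (i - 1) s m (x t) ≤ (𝔇 i).κ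
  ov : ∀ s, ValZ 𝔇 (i - 1) s → ∀ c c' x n y n', Short 𝔇 i s c x n → Short 𝔇 i s c' y n' →
    dj 𝔇 (i - 1) s (x 0) (y 0) ≤ 1000 * ((𝔇 (i - 1)).δ + (𝔇 i).κ + 1) →
    dj 𝔇 (i - 1) s (x n) (y n') ≤ 1000 * ((𝔇 (i - 1)).δ + (𝔇 i).κ + 1) →
    (𝔇 i).Δ < dj 𝔇 (i - 1) s (x 0) (x n) →
    c = c' ∧ ∃ t ≤ n, ∃ t' ≤ n', y t' * (x t)⁻¹ ∈ K 𝔇 (i - 1) s

structure ConstA (i : ℕ) : Prop where
  θ : 10 ^ 6 * ((𝔇 (i - 1)).δ + (𝔇 i).κ + (𝔇 i).Δ + (𝔇 i).l + (𝔇 i).ρ + 1) ≤ (𝔇 i).θ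
  n : 1000 * (𝔇 i).θ + (𝔇 i).J ≤ (𝔇 i).n
  g : 10 ^ 4 * ((𝔇 i).n * (𝔇 i).l + (𝔇 i).θ) ≤ (𝔇 i).g

/-- axioms of one model -/
structure ModelAt (i : ℕ) (c : Fin 3) (z : ℕ) : Prop where
  ne : z ≠ 0
  pos : 0 < (𝔇 i).φ c z
  good : Good 𝔇 i ((𝔇 i).τ c z)
  low : ∀ x κ, (𝔇 i).τ c z x κ ≠ 0 → rk κ ≤ 2 * i ∨ κ = (i, some c)
  root : (𝔇 i).τ c z 1 (i, some c) = z
  tow : Tow 𝔇 (i - 1) ((𝔇 i).τ c z)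
  dm : Dm (i - 1) ((𝔇 i).τ c z) = Nb (𝔇 i).θ (core 𝔇 i c z)
  cen : ∀ e ∈ core 𝔇 i c z, cenA 𝔇 i ((𝔇 i).τ c z) c e ∧
    ∀ w ∈ nbA 𝔇 i ((𝔇 i).τ c z) c e, e * w ∈ core 𝔇 i c z
  conn : ∀ e ∈ core 𝔇 i c z, ∃ x n, RPath 𝔇 i ((𝔇 i).τ c z) c x n ∧ x 0 = 1 ∧
    x n * e⁻¹ ∈ K 𝔇 (i - 1) ((𝔇 i).τ c z)
  grp : K 𝔇 i ((𝔇 i).τ c z) = (𝔇 i).L c z
  hom : ∀ e ∈ core 𝔇 i c z, tr e ((𝔇 i).τ c ((𝔇 i).τ c z e (i, some c))) = (𝔇 i).τ c z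
  qc : QC (dj 𝔇 (i - 1) ((𝔇 i).τ c z)) (core 𝔇 i c z) (𝔇 i).κ
  disp : ∀ l ∈ (𝔇 i).L c z, l ∉ K 𝔇 (i - 1) ((𝔇 i).τ c z) →
    (𝔇 i).g ≤ dj 𝔇 (i - 1) ((𝔇 i).τ c z) 1 l
  diam : ∀ e ∈ core 𝔇 i c z, ∃ l ∈ (𝔇 i).L c z, len (l * e) ≤ (𝔇 i).D
  wt : W 𝔇 ((𝔇 i).τ c z) = 1 / (𝔇 i).M c
  hole : (2 ≤ i ∧ ∀ σ, IsV 𝔇 i c σ → Le σ ((𝔇 i).τ c z) →
      ∀ q c', (𝔇 i).τ c z q (1, some c') = σ q (1, some c')) ∨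
    ∃ q c', q ∈ Dm 0 ((𝔇 i).τ c z) ∧ (𝔇 i).τ c z q (1, some c') = 0 ∧
      ∀ l ∈ (𝔇 i).L c z, 1000 * (𝔇 i).θ < len (l * q)

open Classical in
structure ModelOK (i : ℕ) : Prop where
  δ : 10 * ((𝔇 i).D + (𝔇 i).g) ≤ (𝔇 i).δ
  M_pos : ∀ c, 0 < (𝔇 i).M c
  at' : ∀ c, ∀ z ∈ (𝔇 i).Z c, ModelAt 𝔇 i c z
  marg : ∀ c σ, IsV 𝔇 i c σ →
    ((((𝔇 i).Z c).filter fun z => Le σ ((𝔇 i).τ c z)).card : ℚ) = (𝔇 i).M c * W 𝔇 σ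

def OK (i : ℕ) : Prop := RuleOK 𝔇 i ∧ ConstA 𝔇 i ∧ ModelOK 𝔇 i

def OKs (N : ℕ) : Prop :=
  (𝔇 0).δ = 2 ∧ (∀ i, 1 ≤ i → i ≤ N → OK 𝔇 i) ∧ 0 < (𝔇 (N + 1)).nE

/-- the family of folded components of level `j` -/
def fam (j : ℕ) (s : St p) : Set (Set (Gam p) × Subgroup (Gam p)) :=
  {T | ∃ x c, s x (j, some c) ≠ 0 ∧
    T = (Sat (K 𝔇 (j - 1) s) (lm x (core 𝔇 j c (s x (j, some c)))),
      K 𝔇 (j - 1) s ⊔ cjs x ((𝔇 j).L c (s x (j, some c))))}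

def SCp (j : ℕ) : Prop := ∀ s, ValZ 𝔇 j s →
  SC (dj 𝔇 (j - 1) s) (K 𝔇 (j - 1) s) (K 𝔇 j s) (fam 𝔇 j s) (𝔇 (j - 1)).δ (𝔇 j).κ (𝔇 j).Δ
    (𝔇 j).g (𝔇 j).D

def HYp (j : ℕ) : Prop := ∀ s, ValZ 𝔇 j s → Met (dj 𝔇 j s) (𝔇 j).δ

/-- completeness is monotone and complete points keep their labels -/
def MONp (j : ℕ) : Prop := ∀ s s', ValZ 𝔇 j s → ValZ 𝔇 j s' → Le s s' → ∀ x, Comp 𝔇 j s x →
  Comp 𝔇 j s' x ∧ ∀ κ, 2 ≤ rk κ → rk κ ≤ 2 * j + 2 → s' x κ = s x κ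

/-- short loops at complete points are absolute -/
def ABp (j : ℕ) : Prop := ∀ s s', ValZ 𝔇 j s → ValZ 𝔇 j s' → Le s s' → ∀ x w,
  (∀ u, len u ≤ len w + (𝔇 j).δ → Comp 𝔇 j s (x * u)) →
  x * w * x⁻¹ ∈ K 𝔇 j s' → x * w * x⁻¹ ∈ K 𝔇 j s

/-- geodesics in complete regions are absolute -/
def STp (j : ℕ) : Prop := ∀ s s', ValZ 𝔇 j s → ValZ 𝔇 j s' → Le s s' → ∀ a b,
  (∀ m, Btw (dj 𝔇 j s) a m b → ∀ u, len u ≤ 200 * ((𝔇 j).δ + 1) → Comp 𝔇 j s (m * u)) →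
  dj 𝔇 j s' a b = dj 𝔇 j s a b ∧
    ∀ m', Btw (dj 𝔇 j s') a m' b → ∃ m, Btw (dj 𝔇 j s) a m b ∧ m' * m⁻¹ ∈ K 𝔇 j s'

def GEOp (j : ℕ) : Prop := HYp 𝔇 j ∧ MONp 𝔇 j ∧ ABp 𝔇 j ∧ STp 𝔇 j

/-- the level axioms with their geometric consequences -/
def Th (N : ℕ) : Prop :=
  OKs 𝔇 N ∧ (∀ j ≤ N, GEOp 𝔇 j) ∧ ∀ j, 1 ≤ j → j ≤ N → SCp 𝔇 j

/-- robust quasi convexity of the seed of a region -/
def RS (i : ℕ) (s : St p) (F : Set (Gam p)) (k : ℕ) : Prop :=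
  (∃ x₀, F = {x₀} ∧ Kall 𝔇 s ≤ K 𝔇 i s) ∨
    ∃ κ, κ + 200 * ((𝔇 i).δ + 1) ≤ k ∧ QC (dj 𝔇 i s) (Sat (Kall 𝔇 s) F) κ ∧
      ∀ y ∈ Nb (κ + 200 * ((𝔇 i).δ + 1)) (Sat (Kall 𝔇 s) F), Comp 𝔇 i s y

def Shape (i : ℕ) (s : St p) (F : Set (Gam p)) (k : ℕ) : Prop :=
  F.Nonempty ∧ Nb k (Sat (Kall 𝔇 s) F) ⊆ Dm i s ∧ Dm i s ⊆ Nb (k + 1) (Sat (Kall 𝔇 s) F) ∧
    RS 𝔇 i s F k

/-- the higher labels lie in the region of level `i` -/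
def Sup (i : ℕ) (s : St p) : Prop := ∀ y κ, 2 * i + 2 < rk κ → s y κ ≠ 0 → y ∈ Dm i s

/-- no new higher labels -/
def Up (i : ℕ) (s s' : St p) : Prop :=
  Kall 𝔇 s' ≤ Kall 𝔇 s ⊔ K 𝔇 i s' ∧
    ∀ y κ, 2 * i + 2 < rk κ → s' y κ ≠ 0 → ∃ k ∈ Kall 𝔇 s', s (k * y) κ ≠ 0

/-- some point of the support misses a fold of level one -/
def Inc (s : St p) : Prop := ∃ q c, q ∈ Dm 0 s ∧ s q (1, some c) = 0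

/-- a finite exploration from `s` -/
def Reach (N : ℕ) (s : St p) (Q O : St p → Prop) : Prop :=
  ∃ ℱ : Finset (St p), (∀ s' ∈ ℱ, Good 𝔇 N s' ∧ Le s s' ∧ Q s' ∧ (Inc s → Inc s')) ∧
    (∀ a ∈ ℱ, ∀ b ∈ ℱ, a ≠ b → Incomp a b) ∧ ∑ s' ∈ ℱ, W 𝔇 s' = W 𝔇 s ∧
    ∀ o, Val 𝔇 N o → Le s o → O o → ∃ s' ∈ ℱ, Le s' o

/-- state in the middle of the completion of level `i` -/
def Pre (N i : ℕ) (s : St p) (F : Set (Gam p)) (k : ℕ) : Prop :=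
  Good 𝔇 N s ∧ Tow 𝔇 (i - 1) s ∧ ExA 𝔇 i s ∧ ExC 𝔇 i s ∧ Shape 𝔇 i s F k ∧ Sup i s ∧
    ∀ k', k' + 1 ≤ k → ∀ y ∈ Nb k' (Sat (Kall 𝔇 s) F), ∀ c, cenA 𝔇 i s c y →
      s y (i, some c) ≠ 0

/-- canonical state over a ball -/
def IsBall (N r : ℕ) (s : St p) : Prop :=
  Good 𝔇 N s ∧ Tow 𝔇 N s ∧ Dm N s = Nb r (Sat (Kall 𝔇 s) {1})

/-- level one uses the groups `N c` at every point -/
def L1 (N : Fin 3 → Subgroup (Gam p)) : Prop :=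
  ∀ c, (∀ M, (𝔇 1).cen M c) ∧ ∀ z ∈ (𝔇 1).Z c, (𝔇 1).L c z = N c

end Pool.Agent.MP_735563_an.H2
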