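import Pool.Agent.MP_735563_an.H2.Base

set_option autoImplicit false

/-! Basic facts: translates, order, groups, metrics, neighbourhoods. -/

namespace Pool.Agent.MP_735563_an.H2

variable {p : ℕ}

section order

theorem tr_one (s : St p) : tr 1 s = s := by funext x; simp [tr]

theorem tr_mul (g h : Gam p) (s : St p) : tr (g * h) s = tr g (tr h s) := by
  funext x; simp [tr, mul_assoc]

theorem tr_apply (g : Gam p) (s : St p) (x : Gam p) : tr g s (g * x) = s x := by simp [tr]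

theorem tr_inv_tr (g : Gam p) (s : St p) : tr g⁻¹ (tr g s) = s := by
  rw [← tr_mul, inv_mul_cancel, tr_one]

theorem tr_tr_inv (g : Gam p) (s : St p) : tr g (tr g⁻¹ s) = s := by
  rw [← tr_mul, mul_inv_cancel, tr_one]

/-- a stabilising element preserves the labels -/
theorem apply_of_stab {g : Gam p} {s : St p} (h : tr g s = s) (x : Gam p) : s (g * x) = s x := by
  conv_lhs => rw [← h]
  exact tr_apply g s x

theorem stab_inv {g : Gam p} {s : St p} (h : tr g s = s) : tr g⁻¹ s = s := by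
  conv_lhs => rw [← h]
  exact tr_inv_tr g s

theorem stab_mul {g h : Gam p} {s : St p} (hg : tr g s = s) (hh : tr h s = s) :
    tr (g * h) s = s := by rw [tr_mul, hh, hg]

theorem trM_one (M : MS p) : trM 1 M = M := by simp [trM, tr_one, cjs_one]

theorem trM_mul (g h : Gam p) (M : MS p) : trM (g * h) M = trM g (trM h M) := by
  simp [trM, tr_mul, cjs_mul]

theorem Le.refl (s : St p) : Le s s := fun _ _ _ => rfl

theorem Le.trans {s s' s'' : St p} (h : Le s s') (h' : Le s' s'') : Le s s'' := fun x κ hx => by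
  have h1 := h x κ hx
  rw [h' x κ (by rw [h1]; exact hx), h1]

theorem Le.ne {s s' : St p} (h : Le s s') {x : Gam p} {κ : Kind} (hx : s x κ ≠ 0) :
    s' x κ ≠ 0 := by rw [h x κ hx]; exact hx

theorem Le.antisymm {s s' : St p} (h : Le s s') (h' : Le s' s) : s = s' := by
  funext x κ
  by_cases h0 : s x κ = 0
  · by_cases h1 : s' x κ = 0
    · rw [h0, h1]
    · exact h' x κ h1
  · exact (h x κ h0).symm

theorem Le.tr {s s' : St p} (h : Le s s') (g : Gam p) : Le (tr g s) (tr g s') :=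
  fun _ κ hx => h _ κ hx

theorem le_tr_iff {s s' : St p} {g : Gam p} : Le (tr g s) s' ↔ Le s (tr g⁻¹ s') := by
  constructor
  · intro h; have := h.tr g⁻¹; rwa [tr_inv_tr] at this
  · intro h; have := h.tr g; rwa [tr_tr_inv] at this

/-- two extensions inside a common state: comparison of domains gives an extension -/
theorem le_of_dom {s s' o : St p} (h : Le s o) (h' : Le s' o)
    (hd : ∀ x κ, s x κ ≠ 0 → s' x κ ≠ 0) : Le s s' := fun x κ hx => by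
  rw [← h x κ hx, h' x κ (hd x κ hx)]

theorem Incomp.mono {a b a' b' : St p} (h : Incomp a b) (ha : Le a a') (hb : Le b b') :
    Incomp a' b' := by
  obtain ⟨x, κ, h1, h2, h3⟩ := h
  exact ⟨x, κ, ha.ne h1, hb.ne h2, by rw [ha x κ h1, hb x κ h2]; exact h3⟩

theorem Incomp.symm {a b : St p} (h : Incomp a b) : Incomp b a := by
  obtain ⟨x, κ, h1, h2, h3⟩ := h
  exact ⟨x, κ, h2, h1, h3.symm⟩

theorem not_incomp {a b o : St p} (ha : Le a o) (hb : Le b o) : ¬ Incomp a b := by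
  rintro ⟨x, κ, h1, h2, h3⟩
  exact h3 ((ha x κ h1).symm.trans (hb x κ h2))

theorem rk_none (i : ℕ) : rk (i, none) = 2 * i := by simp [rk]

theorem rk_some (i : ℕ) (c : Fin 3) : rk (i, some c) = 2 * i + 1 := by simp [rk]

theorem Agree.symm {i r : ℕ} {M M' : MS p} (h : Agree i r M M') : Agree i r M' M :=
  ⟨fun u hu κ h1 h2 => (h.1 u hu κ h1 h2).symm, fun u hu => (h.2 u hu).symm⟩

theorem Agree.mono {i r r' : ℕ} {M M' : MS p} (h : Agree i r M M') (hr : r' ≤ r) :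
    Agree i r' M M' :=
  ⟨fun u hu => h.1 u (hu.trans hr), fun u hu => h.2 u (by omega)⟩

theorem Agree.trM {i r r' : ℕ} {M M' : MS p} (h : Agree i r M M') {x : Gam p}
    (hx : len x + r' ≤ r) : Agree i r' (trM x⁻¹ M) (trM x⁻¹ M') := by
  refine ⟨fun u hu κ h1 h2 => ?_, fun u hu => ?_⟩
  · have := len_mul_le x u
    simpa [H2.trM, tr] using h.1 (x * u) (by omega) κ h1 h2
  · have h1 := len_mul_le (x * u) x⁻¹
    have h2 := len_mul_le x u
    rw [len_inv] at h1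
    simpa [H2.trM, mem_cjs] using h.2 (x * u * x⁻¹) (by omega)

end order

section sets

theorem mem_lm {g y : Gam p} {S : Set (Gam p)} : y ∈ lm g S ↔ g⁻¹ * y ∈ S := Iff.rfl

theorem mul_mem_lm {g y : Gam p} {S : Set (Gam p)} : g * y ∈ lm g S ↔ y ∈ S := by simp [lm]

theorem image_mul_eq_lm (g : Gam p) (S : Set (Gam p)) : (fun c => g * c) '' S = lm g S := by
  ext y
  constructor
  · rintro ⟨c, hc, rfl⟩; exact mul_mem_lm.2 hc
  · intro h; exact ⟨_, h, by simp⟩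

theorem lm_one (S : Set (Gam p)) : lm 1 S = S := by ext; simp [lm]

theorem lm_mul (g h : Gam p) (S : Set (Gam p)) : lm (g * h) S = lm g (lm h S) := by
  ext; simp [lm, mul_assoc]

theorem lm_union (g : Gam p) (S S' : Set (Gam p)) : lm g (S ∪ S') = lm g S ∪ lm g S' := rfl

theorem lm_singleton (g x : Gam p) : lm g {x} = {g * x} := by
  ext y; simp [lm, inv_mul_eq_iff_eq_mul]

theorem subset_Nb (r : ℕ) (S : Set (Gam p)) : S ⊆ Nb r S :=
  fun x hx => ⟨x, hx, 1, by rw [len_one]; omega, by simp⟩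

theorem mul_mem_Nb {r : ℕ} {S : Set (Gam p)} {y u : Gam p} (hy : y ∈ S) (hu : len u ≤ r) :
    y * u ∈ Nb r S := ⟨y, hy, u, hu, rfl⟩

theorem Nb_mono {r r' : ℕ} {S S' : Set (Gam p)} (hr : r ≤ r') (h : S ⊆ S') : Nb r S ⊆ Nb r' S' := by
  rintro x ⟨y, hy, u, hu, rfl⟩
  exact ⟨y, h hy, u, hu.trans hr, rfl⟩

theorem Nb_zero (S : Set (Gam p)) : Nb 0 S = S := by
  refine subset_antisymm ?_ (subset_Nb 0 S)
  rintro x ⟨y, hy, u, hu, rfl⟩
  rw [len_eq_zero (Nat.le_zero.1 hu), mul_one]; exact hy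

theorem Nb_Nb (r r' : ℕ) (S : Set (Gam p)) : Nb r (Nb r' S) = Nb (r' + r) S := by
  ext x
  constructor
  · rintro ⟨_, ⟨y, hy, u, hu, rfl⟩, v, hv, rfl⟩
    exact ⟨y, hy, u * v, by have := len_mul_le u v; omega, by rw [mul_assoc]⟩
  · rintro ⟨y, hy, u, hu, rfl⟩
    obtain ⟨a, b, rfl, h1, h2⟩ := len_split u (i := min r' (len u)) (min_le_right _ _)
    exact ⟨y * a, ⟨y, hy, a, by omega, rfl⟩, b, by omega, by rw [mul_assoc]⟩

theorem Nb_union (r : ℕ) (S S' : Set (Gam p)) : Nb r (S ∪ S') = Nb r S ∪ Nb r S' := by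
  ext x
  constructor
  · rintro ⟨y, hy | hy, u, hu, rfl⟩
    · exact Or.inl ⟨y, hy, u, hu, rfl⟩
    · exact Or.inr ⟨y, hy, u, hu, rfl⟩
  · rintro (h | h)
    · exact Nb_mono le_rfl Set.subset_union_left h
    · exact Nb_mono le_rfl Set.subset_union_right h

theorem Nb_lm (r : ℕ) (g : Gam p) (S : Set (Gam p)) : Nb r (lm g S) = lm g (Nb r S) := by
  ext x
  constructor
  · rintro ⟨y, hy, u, hu, rfl⟩
    exact ⟨_, hy, u, hu, by rw [mul_assoc]⟩
  · rintro ⟨y, hy, u, hu, h⟩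
    exact ⟨g * y, mul_mem_lm.2 hy, u, hu, by rw [mul_assoc, ← h]; simp⟩

theorem Nb_finite [NeZero p] (r : ℕ) {S : Set (Gam p)} (h : S.Finite) : (Nb r S).Finite := by
  refine ((h.prod (finite_len_le r)).image fun q => q.1 * q.2).subset ?_
  rintro x ⟨y, hy, u, hu, rfl⟩
  exact ⟨(y, u), ⟨hy, hu⟩, rfl⟩

theorem subset_Sat (H : Subgroup (Gam p)) (S : Set (Gam p)) : S ⊆ Sat H S :=
  fun x hx => ⟨1, H.one_mem, x, hx, by simp⟩

theorem mul_mem_Sat {H : Subgroup (Gam p)} {S : Set (Gam p)} {h x : Gam p} (hh : h ∈ H)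
    (hx : x ∈ Sat H S) : h * x ∈ Sat H S := by
  obtain ⟨k, hk, y, hy, rfl⟩ := hx
  exact ⟨h * k, H.mul_mem hh hk, y, hy, by rw [mul_assoc]⟩

theorem mem_Sat_iff {H : Subgroup (Gam p)} {S : Set (Gam p)} {x : Gam p} :
    x ∈ Sat H S ↔ ∃ h ∈ H, h * x ∈ S := by
  constructor
  · rintro ⟨h, hh, y, hy, rfl⟩; exact ⟨h⁻¹, H.inv_mem hh, by simpa using hy⟩
  · rintro ⟨h, hh, hx⟩; exact ⟨h⁻¹, H.inv_mem hh, _, hx, by simp⟩

theorem Sat_mono {H H' : Subgroup (Gam p)} {S S' : Set (Gam p)} (hH : H ≤ H') (h : S ⊆ S') :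
    Sat H S ⊆ Sat H' S' := by
  rintro x ⟨k, hk, y, hy, rfl⟩
  exact ⟨k, hH hk, y, h hy, rfl⟩

theorem Sat_subset {H : Subgroup (Gam p)} {S P : Set (Gam p)} (h : S ⊆ P)
    (hP : ∀ k ∈ H, ∀ y ∈ P, k * y ∈ P) : Sat H S ⊆ P := by
  rintro x ⟨k, hk, y, hy, rfl⟩
  exact hP k hk y (h hy)

theorem Sat_eq_self {H : Subgroup (Gam p)} {P : Set (Gam p)}
    (hP : ∀ k ∈ H, ∀ y ∈ P, k * y ∈ P) : Sat H P = P :=
  subset_antisymm (Sat_subset subset_rfl hP) (subset_Sat H P)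

theorem Sat_Sat {H H' : Subgroup (Gam p)} (hH : H ≤ H') (S : Set (Gam p)) :
    Sat H' (Sat H S) = Sat H' S :=
  subset_antisymm (Sat_subset (Sat_mono hH subset_rfl) fun _ hk _ hy => mul_mem_Sat hk hy)
    (Sat_mono le_rfl (subset_Sat H S))

theorem Sat_union (H : Subgroup (Gam p)) (S S' : Set (Gam p)) :
    Sat H (S ∪ S') = Sat H S ∪ Sat H S' := by
  ext x
  simp only [mem_Sat_iff, Set.mem_union]
  constructor
  · rintro ⟨h, hh, h1 | h1⟩
    · exact Or.inl ⟨h, hh, h1⟩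
    · exact Or.inr ⟨h, hh, h1⟩
  · rintro (⟨h, hh, h1⟩ | ⟨h, hh, h1⟩)
    · exact ⟨h, hh, Or.inl h1⟩
    · exact ⟨h, hh, Or.inr h1⟩

theorem Sat_Nb (H : Subgroup (Gam p)) (r : ℕ) (S : Set (Gam p)) :
    Sat H (Nb r S) = Nb r (Sat H S) := by
  ext x
  constructor
  · rintro ⟨h, hh, _, ⟨y, hy, u, hu, rfl⟩, rfl⟩
    exact ⟨h * y, ⟨h, hh, y, hy, rfl⟩, u, hu, by rw [mul_assoc]⟩
  · rintro ⟨_, ⟨h, hh, y, hy, rfl⟩, u, hu, rfl⟩
    exact ⟨h, hh, y * u, ⟨y, hy, u, hu, rfl⟩, by rw [mul_assoc]⟩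

theorem Sat_lm (g : Gam p) (H : Subgroup (Gam p)) (S : Set (Gam p)) :
    Sat (cjs g H) (lm g S) = lm g (Sat H S) := by
  ext x
  simp only [mem_lm, mem_Sat_iff, mem_cjs]
  constructor
  · rintro ⟨h, hh, h1⟩
    exact ⟨_, hh, by simpa [mul_assoc] using h1⟩
  · rintro ⟨h, hh, h1⟩
    exact ⟨g * h * g⁻¹, by simpa [mul_assoc] using hh, by simpa [mul_assoc] using h1⟩

theorem Nb_inv {H : Subgroup (Gam p)} {P : Set (Gam p)} (hP : ∀ k ∈ H, ∀ y ∈ P, k * y ∈ P)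
    (r : ℕ) : ∀ k ∈ H, ∀ y ∈ Nb r P, k * y ∈ Nb r P := by
  rintro k hk _ ⟨y, hy, u, hu, rfl⟩
  exact ⟨k * y, hP k hk y hy, u, hu, by rw [mul_assoc]⟩

end sets

section groups

variable {𝔇 : ℕ → Lev p}

theorem mem_K {i j : ℕ} {s : St p} {x l : Gam p} {c : Fin 3} (h1 : 1 ≤ i) (hj : i ≤ j)
    (hx : s x (i, some c) ≠ 0) (hl : l ∈ (𝔇 i).L c (s x (i, some c))) :
    x * l * x⁻¹ ∈ K 𝔇 j s :=
  Subgroup.subset_closure ⟨i, c, x, h1, hj, hx, by simpa [mul_assoc] using hl⟩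

theorem K_zero (s : St p) : K 𝔇 0 s = ⊥ := by
  rw [eq_bot_iff, K, Subgroup.closure_le]
  rintro u ⟨i, c, x, h1, h2, -⟩
  omega

theorem K_mono {j j' : ℕ} {s s' : St p} (hj : j ≤ j') (h : Le s s') : K 𝔇 j s ≤ K 𝔇 j' s' := by
  apply Subgroup.closure_mono
  rintro u ⟨i, c, x, h1, h2, h3, h4⟩
  exact ⟨i, c, x, h1, h2.trans hj, h.ne h3, by rw [h x _ h3]; exact h4⟩

theorem K_le_Kall (j : ℕ) (s : St p) : K 𝔇 j s ≤ Kall 𝔇 s := by
  apply Subgroup.closure_mono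
  rintro u ⟨i, c, x, h1, -, h3, h4⟩
  exact ⟨i, c, x, h1, h3, h4⟩

theorem Kall_mono {s s' : St p} (h : Le s s') : Kall 𝔇 s ≤ Kall 𝔇 s' := by
  apply Subgroup.closure_mono
  rintro u ⟨i, c, x, h1, h3, h4⟩
  exact ⟨i, c, x, h1, h.ne h3, by rw [h x _ h3]; exact h4⟩

theorem Kall_eq {N : ℕ} {s : St p} (h : Lv N s) : Kall 𝔇 s = K 𝔇 N s := by
  refine le_antisymm (Subgroup.closure_mono ?_) (K_le_Kall N s)
  rintro u ⟨i, c, x, h1, h3, h4⟩
  have := (h x _ h3).2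
  rw [rk_some] at this
  exact ⟨i, c, x, h1, by omega, h3, h4⟩

theorem closure_cjs (g : Gam p) (S : Set (Gam p)) :
    Subgroup.closure {u | g⁻¹ * u * g ∈ S} = cjs g (Subgroup.closure S) := by
  rw [cjs, MonoidHom.map_closure]
  congr 1
  ext u
  constructor
  · intro h; exact ⟨_, h, by simp [mul_assoc]⟩
  · rintro ⟨k, hk, rfl⟩; simpa [mul_assoc] using hk

theorem K_tr (j : ℕ) (g : Gam p) (s : St p) : K 𝔇 j (tr g s) = cjs g (K 𝔇 j s) := by
  rw [K, K, ← closure_cjs]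
  congr 1
  ext u
  constructor
  · rintro ⟨i, c, x, h1, h2, h3, h4⟩
    exact ⟨i, c, g⁻¹ * x, h1, h2, h3, by simpa [mul_assoc, tr] using h4⟩
  · rintro ⟨i, c, x, h1, h2, h3, h4⟩
    exact ⟨i, c, g * x, h1, h2, by rwa [tr_apply], by simpa [mul_assoc, tr] using h4⟩

theorem Kall_tr (g : Gam p) (s : St p) : Kall 𝔇 (tr g s) = cjs g (Kall 𝔇 s) := by
  rw [Kall, Kall, ← closure_cjs]
  congr 1
  ext u
  constructor
  · rintro ⟨i, c, x, h1, h3, h4⟩
    exact ⟨i, c, g⁻¹ * x, h1, h3, by simpa [mul_assoc, tr] using h4⟩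
  · rintro ⟨i, c, x, h1, h3, h4⟩
    exact ⟨i, c, g * x, h1, by rwa [tr_apply], by simpa [mul_assoc, tr] using h4⟩

theorem ValZ.mono {j j' : ℕ} {s : St p} (h : ValZ 𝔇 j s) (hj : j' ≤ j) : ValZ 𝔇 j' s :=
  fun i h1 h2 => h i h1 (h2.trans hj)

theorem Val.mono {j j' : ℕ} {s : St p} (h : Val 𝔇 j s) (hj : j' ≤ j) : Val 𝔇 j' s :=
  ⟨h.1.mono hj, fun i h1 h2 => h.2 i h1 (by omega)⟩

theorem Lv.mono {j j' : ℕ} {s : St p} (h : Lv j s) (hj : j ≤ j') : Lv j' s :=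
  fun x κ hx => ⟨(h x κ hx).1, by have := (h x κ hx).2; omega⟩

/-- the fold group stabilises a valid state -/
theorem ValZ.stab {j : ℕ} {s : St p} (h : ValZ 𝔇 j s) {k : Gam p} (hk : k ∈ K 𝔇 j s) :
    tr k s = s := by
  induction hk using Subgroup.closure_induction with
  | mem u hu =>
    obtain ⟨i, c, x, h1, h2, h3, h4⟩ := hu
    have := (h i h1 h2 x c h3).2.2 _ h4
    simpa [mul_assoc] using this
  | one => exact tr_one s
  | mul a b _ _ ha hb => exact stab_mul ha hb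
  | inv a _ ha => exact stab_inv ha

theorem Good.stab {N : ℕ} {s : St p} (h : Good 𝔇 N s) {k : Gam p} (hk : k ∈ Kall 𝔇 s) :
    tr k s = s := h.1.1.stab (by rwa [← Kall_eq h.2.1])

theorem Good.mono {N N' : ℕ} {s : St p} (h : Good 𝔇 N s) (hN : N ≤ N') : Good 𝔇 N' s := by
  refine ⟨⟨fun i h1 h2 => ?_, fun i h1 h2 x => ?_⟩, h.2.1.mono hN, h.2.2⟩
  · by_cases hi : i ≤ N
    · exact h.1.1 i h1 hi
    · intro x c hx
      have := (h.2.1 x _ hx).2
      rw [rk_some] at this; omega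
  · by_cases hi : i ≤ N + 1
    · exact h.1.2 i h1 hi x
    · by_cases h0 : s x (i, none) = 0
      · omega
      · have := (h.2.1 x _ h0).2
        rw [rk_none] at this; omega

theorem cjs_K_of_stab {j : ℕ} {s : St p} {g : Gam p} (h : tr g s = s) :
    cjs g (K 𝔇 j s) = K 𝔇 j s := by rw [← K_tr, h]

theorem conj_mem_K {j : ℕ} {s : St p} {g k : Gam p} (h : tr g s = s) (hk : k ∈ K 𝔇 j s) :
    g * k * g⁻¹ ∈ K 𝔇 j s := by
  rw [← cjs_K_of_stab (j := j) h, mem_cjs]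
  simpa [mul_assoc] using hk

/-- an element of `A ⊔ K j s` with `A` stabilising `s` is a product -/
theorem exists_mul_of_mem_sup {j : ℕ} {s : St p} {A : Subgroup (Gam p)}
    (hA : ∀ a ∈ A, tr a s = s) {h : Gam p} (hh : h ∈ A ⊔ K 𝔇 j s) :
    ∃ k ∈ K 𝔇 j s, ∃ a ∈ A, h = k * a := by
  rw [Subgroup.sup_eq_closure] at hh
  induction hh using Subgroup.closure_induction with
  | mem u hu =>
    rcases hu with hu | hu
    · exact ⟨1, one_mem _, u, hu, by simp⟩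
    · exact ⟨u, hu, 1, one_mem _, by simp⟩
  | one => exact ⟨1, one_mem _, 1, one_mem _, by simp⟩
  | mul a b _ _ ha hb =>
    obtain ⟨k, hk, a, ha, rfl⟩ := ha
    obtain ⟨k', hk', a', ha', rfl⟩ := hb
    exact ⟨k * (a * k' * a⁻¹), mul_mem hk (conj_mem_K (hA a ha) hk'), a * a', mul_mem ha ha',
      by simp [mul_assoc]⟩
  | inv a _ ha =>
    obtain ⟨k, hk, a, ha, rfl⟩ := ha
    exact ⟨a⁻¹ * k⁻¹ * a⁻¹⁻¹, conj_mem_K (hA _ (inv_mem ha)) (inv_mem hk), a⁻¹, inv_mem ha,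
      by simp [mul_assoc]⟩

end groups

section metric

variable {𝔇 : ℕ → Lev p}

theorem dj_le {j : ℕ} {s : St p} {x y w : Gam p} (h : x * w * y⁻¹ ∈ K 𝔇 j s) :
    dj 𝔇 j s x y ≤ len w := by
  have := qd_le d0 x y h
  simpa [d0, dj, mul_assoc] using this

theorem dj_le_len (j : ℕ) (s : St p) (x w : Gam p) : dj 𝔇 j s x (x * w) ≤ len w :=
  dj_le (by simp)

theorem exists_dj (j : ℕ) (s : St p) (x y : Gam p) :
    ∃ w, len w = dj 𝔇 j s x y ∧ x * w * y⁻¹ ∈ K 𝔇 j s := by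
  obtain ⟨h, hh, h1⟩ := exists_qd (K 𝔇 j s) d0 x y
  exact ⟨x⁻¹ * (h * y), h1, by simpa [mul_assoc] using hh⟩

theorem dj_eq_zero {j : ℕ} {s : St p} {x y : Gam p} :
    dj 𝔇 j s x y = 0 ↔ y * x⁻¹ ∈ K 𝔇 j s := by
  constructor
  · intro h
    obtain ⟨w, h1, h2⟩ := exists_dj (𝔇 := 𝔇) j s x y
    rw [len_eq_zero (h1.trans h), mul_one] at h2
    simpa using inv_mem h2
  · intro h
    have := dj_le (𝔇 := 𝔇) (j := j) (s := s) (x := x) (y := y) (w := 1)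
      (by simpa using inv_mem h)
    rw [len_one] at this; omega

theorem dj_anti {j j' : ℕ} {s s' : St p} (hj : j ≤ j') (h : Le s s') (x y : Gam p) :
    dj 𝔇 j' s' x y ≤ dj 𝔇 j s x y := by
  obtain ⟨w, h1, h2⟩ := exists_dj (𝔇 := 𝔇) j s x y
  rw [← h1]; exact dj_le (K_mono hj h h2)

theorem dj_tr (j : ℕ) (g : Gam p) (s : St p) (x y : Gam p) :
    dj 𝔇 j (tr g s) (g * x) (g * y) = dj 𝔇 j s x y := by
  apply le_antisymm
  · obtain ⟨w, h1, h2⟩ := exists_dj (𝔇 := 𝔇) j s x y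
    rw [← h1]; apply dj_le
    rw [K_tr, mem_cjs]; simpa [mul_assoc] using h2
  · obtain ⟨w, h1, h2⟩ := exists_dj (𝔇 := 𝔇) j (tr g s) (g * x) (g * y)
    rw [← h1]; apply dj_le
    rw [K_tr, mem_cjs] at h2; simpa [mul_assoc] using h2

theorem dj_stab {j : ℕ} {g : Gam p} {s : St p} (h : tr g s = s) (x y : Gam p) :
    dj 𝔇 j s (g * x) (g * y) = dj 𝔇 j s x y := by
  conv_lhs => rw [← h]
  exact dj_tr j g s x y

theorem dj_mul_right {j : ℕ} {s : St p} {k : Gam p} (hk : k ∈ K 𝔇 j s) (x y : Gam p) :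
    dj 𝔇 j s x (k * y) = dj 𝔇 j s x y := qd_mul_right d0 x y hk

theorem dj_mul_left {j : ℕ} {s : St p} {k : Gam p} (hk : k ∈ K 𝔇 j s) (x y : Gam p) :
    dj 𝔇 j s (k * x) y = dj 𝔇 j s x y := by
  apply le_antisymm
  · obtain ⟨w, h1, h2⟩ := exists_dj (𝔇 := 𝔇) j s x y
    rw [← h1]; apply dj_le
    simpa [mul_assoc] using mul_mem hk h2
  · obtain ⟨w, h1, h2⟩ := exists_dj (𝔇 := 𝔇) j s (k * x) y
    rw [← h1]; apply dj_le
    simpa [mul_assoc] using mul_mem (inv_mem hk) h2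

theorem dj_zero (s : St p) : dj 𝔇 0 s = d0 := by
  funext x y
  apply qd_eq_of_min
  intro h hh
  rw [K_zero, Subgroup.mem_bot] at hh
  rw [hh, one_mul]

theorem dj_succ (j : ℕ) (s : St p) : qd (K 𝔇 j s) (dj 𝔇 (j - 1) s) = dj 𝔇 j s :=
  qd_qd (K_mono (Nat.sub_le j 1) (Le.refl s)) d0

/-- for an invariant set the neighbourhoods for the coset metric are the usual ones -/
theorem mem_Nb_iff_dj {j : ℕ} {s : St p} {P : Set (Gam p)}
    (hP : ∀ k ∈ K 𝔇 j s, ∀ y ∈ P, k * y ∈ P) {r : ℕ} {x : Gam p} :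
    x ∈ Nb r P ↔ ∃ y ∈ P, dj 𝔇 j s x y ≤ r := by
  constructor
  · rintro ⟨y, hy, u, hu, rfl⟩
    refine ⟨y, hy, le_trans (dj_le (w := u⁻¹) (by simp)) (by rw [len_inv]; exact hu)⟩
  · rintro ⟨y, hy, h⟩
    obtain ⟨w, h1, h2⟩ := exists_dj (𝔇 := 𝔇) j s x y
    refine ⟨x * w * y⁻¹ * y, hP _ h2 y hy, w⁻¹, by rw [len_inv]; omega, by simp⟩

end metric

end Pool.Agent.MP_735563_an.H2
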