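import Pool.Agent.MP_735563_an.H2.BasicA

set_option autoImplicit false

/-! Basic facts: equivariance, towers, weights, explorations. -/

namespace Pool.Agent.MP_735563_an.H2

variable {p : ℕ} {𝔇 : ℕ → Lev p}

section equiv

theorem mk_tr (i : ℕ) (g : Gam p) (s : St p) (x : Gam p) :
    mk 𝔇 i (tr g s) (g * x) = mk 𝔇 i s x := by
  have : (tr g s, K 𝔇 (i - 1) (tr g s)) = trM g (s, K 𝔇 (i - 1) s) := by simp [trM, K_tr]
  rw [mk, this, ← trM_mul, mk]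
  congr 1
  simp

theorem mk_stab {i : ℕ} {g : Gam p} {s : St p} (h : tr g s = s) (x : Gam p) :
    mk 𝔇 i s (g * x) = mk 𝔇 i s x := by
  conv_lhs => rw [← h]
  exact mk_tr i g s x

theorem mk_mul (i : ℕ) (s : St p) (x u : Gam p) :
    mk 𝔇 i s (x * u) = trM u⁻¹ (mk 𝔇 i s x) := by
  rw [mk, mk, ← trM_mul, mul_inv_rev]

theorem cenA_tr {i : ℕ} {g : Gam p} {s : St p} {c : Fin 3} {x : Gam p} :
    cenA 𝔇 i (tr g s) c (g * x) ↔ cenA 𝔇 i s c x := by rw [cenA, mk_tr, cenA]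

theorem nbA_tr (i : ℕ) (g : Gam p) (s : St p) (c : Fin 3) (x : Gam p) :
    nbA 𝔇 i (tr g s) c (g * x) = nbA 𝔇 i s c x := by rw [nbA, mk_tr, nbA]

theorem cenA_stab {i : ℕ} {g : Gam p} {s : St p} (h : tr g s = s) {c : Fin 3} {x : Gam p} :
    cenA 𝔇 i s c (g * x) ↔ cenA 𝔇 i s c x := by rw [cenA, mk_stab h, cenA]

theorem nbA_stab {i : ℕ} {g : Gam p} {s : St p} (h : tr g s = s) (c : Fin 3) (x : Gam p) :
    nbA 𝔇 i s c (g * x) = nbA 𝔇 i s c x := by rw [nbA, mk_stab h, nbA]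

theorem Comp_tr {g : Gam p} {s : St p} : ∀ {i : ℕ} {x : Gam p},
    Comp 𝔇 i (tr g s) (g * x) ↔ Comp 𝔇 i s x := by
  intro i
  induction i with
  | zero => intro x; simp [Comp, tr_apply]
  | succ i ih =>
    intro x
    simp only [Comp, tr_apply, cenA_tr, mul_assoc, ih]

theorem Comp_stab {g : Gam p} {s : St p} (h : tr g s = s) {i : ℕ} {x : Gam p} :
    Comp 𝔇 i s (g * x) ↔ Comp 𝔇 i s x := by
  conv_lhs => rw [← h]
  exact Comp_tr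

theorem Dm_tr (i : ℕ) (g : Gam p) (s : St p) : Dm i (tr g s) = lm g (Dm i s) := rfl

theorem Cen_tr (i : ℕ) (g : Gam p) (s : St p) : Cen i (tr g s) = lm g (Cen i s) := rfl

theorem Dm_stab {i : ℕ} {g : Gam p} {s : St p} (h : tr g s = s) {x : Gam p} :
    g * x ∈ Dm i s ↔ x ∈ Dm i s := by simp [Dm, apply_of_stab h]

theorem Cen_stab {i : ℕ} {g : Gam p} {s : St p} (h : tr g s = s) {x : Gam p} :
    g * x ∈ Cen i s ↔ x ∈ Cen i s := by simp [Cen, apply_of_stab h]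

theorem Dm_mono {i : ℕ} {s s' : St p} (h : Le s s') : Dm i s ⊆ Dm i s' := fun _ hx => h.ne hx

theorem Cen_mono {i : ℕ} {s s' : St p} (h : Le s s') : Cen i s ⊆ Cen i s' :=
  fun _ ⟨c, hx⟩ => ⟨c, h.ne hx⟩

theorem ValAt.tr {i : ℕ} {s : St p} (h : ValAt 𝔇 i s) (g : Gam p) : ValAt 𝔇 i (tr g s) := by
  intro x c hx
  obtain ⟨h1, h2, h3⟩ := h (g⁻¹ * x) c hx
  refine ⟨h1, ?_, fun l hl => ?_⟩
  · have := h2.tr g
    rwa [← tr_mul, mul_inv_cancel_left] at this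
  · have := h3 l hl
    rw [← tr_mul, show x * l * x⁻¹ * g = g * (g⁻¹ * x * l * (g⁻¹ * x)⁻¹) by simp [mul_assoc],
      tr_mul, this]

theorem ValZ.tr {i : ℕ} {s : St p} (h : ValZ 𝔇 i s) (g : Gam p) : ValZ 𝔇 i (tr g s) :=
  fun j h1 h2 => (h j h1 h2).tr g

theorem Val.tr {i : ℕ} {s : St p} (h : Val 𝔇 i s) (g : Gam p) : Val 𝔇 i (tr g s) :=
  ⟨h.1.tr g, fun j h1 h2 _ => h.2 j h1 h2 _⟩

theorem Lv.tr {i : ℕ} {s : St p} (h : Lv i s) (g : Gam p) : Lv i (tr g s) :=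
  fun _ κ hx => h _ κ hx

theorem Tow.tr {j : ℕ} {s : St p} (h : Tow 𝔇 j s) (g : Gam p) : Tow 𝔇 j (tr g s) := by
  intro i h1 h2
  obtain ⟨a, b, c⟩ := h i h1 h2
  refine ⟨?_, fun x hx c' hc => ?_, fun x c' hx => ?_⟩
  · unfold ExA at *
    rw [Dm_tr, Dm_tr, Cen_tr, ← lm_union, Nb_lm, a]
  · refine b (g⁻¹ * x) hx c' ?_
    rwa [← cenA_tr (g := g), mul_inv_cancel_left]
  · obtain ⟨e, he, h3⟩ := c (g⁻¹ * x) c' hx
    exact ⟨e, he, by rw [Dm_tr, mem_lm, ← mul_assoc]; exact h3⟩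

theorem Tow.mono {j j' : ℕ} {s : St p} (h : Tow 𝔇 j s) (hj : j' ≤ j) : Tow 𝔇 j' s :=
  fun i h1 h2 => h i h1 (h2.trans hj)

theorem tow_zero (s : St p) : Tow 𝔇 0 s := fun i h1 h2 => by omega

theorem RC_tr {i : ℕ} {g : Gam p} {s : St p} {x : Gam p} :
    RC 𝔇 i (tr g s) (g * x) ↔ RC 𝔇 i s x := by simp only [RC, mul_assoc, Comp_tr]

theorem RC_stab {i : ℕ} {g : Gam p} {s : St p} (h : tr g s = s) {x : Gam p} :
    RC 𝔇 i s (g * x) ↔ RC 𝔇 i s x := by simp only [RC, mul_assoc, Comp_stab h]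

theorem Adj_tr {i : ℕ} {g : Gam p} {s : St p} {c : Fin 3} {a b : Gam p} :
    Adj 𝔇 i (tr g s) c (g * a) (g * b) ↔ Adj 𝔇 i s c a b := by
  simp only [Adj, cenA_tr, nbA_tr, K_tr, mem_cjs]
  simp [mul_assoc]

theorem Adj_stab {i : ℕ} {g : Gam p} {s : St p} (h : tr g s = s) {c : Fin 3} {a b : Gam p} :
    Adj 𝔇 i s c (g * a) (g * b) ↔ Adj 𝔇 i s c a b := by
  conv_lhs => rw [← h]
  exact Adj_tr

/-- adjacency only depends on the classes -/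
theorem Adj.congr {i : ℕ} {s : St p} (hs : ValZ 𝔇 (i - 1) s) {c : Fin 3} {a b a' b' : Gam p}
    (h : Adj 𝔇 i s c a b) (ha : a' * a⁻¹ ∈ K 𝔇 (i - 1) s) (hb : b' * b⁻¹ ∈ K 𝔇 (i - 1) s) :
    Adj 𝔇 i s c a' b' := by
  have h1 := (Adj_stab (hs.stab ha) (c := c) (a := a) (b := b)).2 h
  rw [inv_mul_cancel_right] at h1
  obtain ⟨h2, w, hw, h3⟩ := h1
  refine ⟨h2, w, hw, ?_⟩
  have := mul_mem (mul_mem hb (inv_mem ha)) h3
  simpa [mul_assoc] using this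

theorem Tn_tr (i : ℕ) (g : Gam p) (s : St p) (c : Fin 3) (x : Gam p) (t : ℕ) :
    Tn 𝔇 i (tr g s) c (g * x) t = lm g (Tn 𝔇 i s c x t) := by
  induction t with
  | zero => simp [Tn, lm_singleton]
  | succ t ih =>
    rw [Tn, Tn, lm_union, ih]
    congr 1
    ext y
    constructor
    · rintro ⟨a, ha, h1, w, hw, rfl⟩
      refine ⟨g⁻¹ * a, ha, ?_, w, ?_, by rw [mul_assoc]⟩
      · rwa [← cenA_tr (g := g), mul_inv_cancel_left]
      · rwa [← nbA_tr i g, mul_inv_cancel_left]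
    · rintro ⟨a, ha, h1, w, hw, h2⟩
      exact ⟨g * a, mul_mem_lm.2 ha, cenA_tr.2 h1, w, by rwa [nbA_tr],
        by rw [mul_assoc, ← h2]; simp⟩

end equiv

section tower

theorem Comp.mark {i : ℕ} {s : St p} {x : Gam p} (h : Comp 𝔇 i s x) : x ∈ Dm i s := by
  cases i with
  | zero => exact h
  | succ i => exact h.1

theorem Comp.down {s : St p} {x : Gam p} {i j : ℕ} (h : Comp 𝔇 j s x) (hij : i ≤ j) :
    Comp 𝔇 i s x := by
  induction j with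
  | zero => rwa [Nat.le_zero.1 hij]
  | succ j ih =>
    rcases Nat.eq_or_lt_of_le hij with rfl | h1
    · exact h
    · have := h.2.1 1 (by rw [len_one]; omega)
      rw [mul_one] at this
      exact ih this (by omega)

theorem Comp.ball {i : ℕ} {s : St p} {x u : Gam p} (hi : 1 ≤ i) (h : Comp 𝔇 i s x)
    (hu : len u ≤ (𝔇 i).θ) : Comp 𝔇 (i - 1) s (x * u) := by
  obtain ⟨i, rfl⟩ : ∃ k, i = k + 1 := ⟨i - 1, by omega⟩
  exact h.2.1 u hu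

theorem Comp.lab {i : ℕ} {s : St p} {x : Gam p} (hi : 1 ≤ i) (h : Comp 𝔇 i s x) {c : Fin 3}
    (hc : cenA 𝔇 i s c x) : s x (i, some c) ≠ 0 := by
  obtain ⟨i, rfl⟩ : ∃ k, i = k + 1 := ⟨i - 1, by omega⟩
  exact h.2.2 c hc

/-- points of the top region of a tower are complete -/
theorem Tow.comp {s : St p} : ∀ {j : ℕ}, Tow 𝔇 j s → ∀ {x : Gam p}, x ∈ Dm j s →
    Comp 𝔇 j s x := by
  intro j
  induction j with
  | zero => intro _ x hx; exact hx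
  | succ j ih =>
    intro h x hx
    obtain ⟨a, b, -⟩ := h (j + 1) (by omega) le_rfl
    refine ⟨hx, fun u hu => ih (h.mono (by omega)) ?_, b x hx⟩
    have a' : Dm j s = _ := a
    rw [a']
    exact mul_mem_Nb (Or.inl hx) hu

theorem Tow.Dm_anti {s : St p} {i j : ℕ} (h : Tow 𝔇 j s) (hij : i ≤ j) : Dm j s ⊆ Dm i s :=
  fun _ hx => ((h.comp hx).down hij).mark

theorem ExA.sub {i : ℕ} {s : St p} (h : ExA 𝔇 i s) : Dm i s ∪ Cen i s ⊆ Dm (i - 1) s := by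
  rw [h]; exact subset_Nb _ _

/-- all labels lie in the region of level zero -/
theorem Tow.supp {N j : ℕ} {s : St p} (h : Tow 𝔇 j s) (hs : Sup j s) (hL : Lv N s) {x : Gam p}
    {κ : Kind} (hx : s x κ ≠ 0) : x ∈ Dm 0 s := by
  by_cases hk : 2 * j + 2 < rk κ
  · exact h.Dm_anti (Nat.zero_le _) (hs x κ hk hx)
  · have h2 := (hL x κ hx).1
    obtain ⟨i, _ | c⟩ := κ
    · rw [rk_none] at hk h2
      have : x ∈ Dm (i - 1) s := by
        show s x (i - 1 + 1, none) ≠ 0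
        rwa [show i - 1 + 1 = i by omega]
      exact (h.mono (show i - 1 ≤ j by omega)).Dm_anti (Nat.zero_le _) this
    · rw [rk_some] at hk h2
      have := (h i (by omega) (by omega)).1.sub (Or.inr ⟨c, hx⟩)
      exact (h.mono (show i - 1 ≤ j by omega)).Dm_anti (Nat.zero_le _) this

theorem Lv.sup {N : ℕ} {s : St p} (h : Lv N s) : Sup N s := fun y κ hk hy => by
  have := (h y κ hy).2; omega

theorem Sup.down {i : ℕ} {s : St p} (hi : 1 ≤ i) (h : Sup i s) (ha : ExA 𝔇 i s) :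
    Sup (i - 1) s := by
  intro y κ hk hy
  apply ha.sub
  by_cases h1 : 2 * i + 2 < rk κ
  · exact Or.inl (h y κ h1 hy)
  · obtain ⟨j, _ | c⟩ := κ
    · rw [rk_none] at hk h1
      obtain rfl : j = i + 1 := by omega
      exact Or.inl hy
    · rw [rk_some] at hk h1
      obtain rfl : j = i := by omega
      exact Or.inr ⟨c, hy⟩

end tower

section weight

theorem exists_isTr {s : St p} (F : Finset (Gam p × Kind))
    (hs : ∀ k ∈ Kall 𝔇 s, tr k s = s)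
    (h : ∀ x κ, s x κ ≠ 0 → ∃ a ∈ F, a.2 = κ ∧ a.1 * x⁻¹ ∈ Kall 𝔇 s) : ∃ F', IsTr 𝔇 s F' := by
  classical
  have hex : ∃ n, ∃ F : Finset (Gam p × Kind), F.card = n ∧
      ∀ x κ, s x κ ≠ 0 → ∃ a ∈ F, a.2 = κ ∧ a.1 * x⁻¹ ∈ Kall 𝔇 s := ⟨_, F, rfl, h⟩
  obtain ⟨F', h1, h2⟩ := Nat.find_spec hex
  have hmin : ∀ a ∈ F', ¬ ∀ x κ, s x κ ≠ 0 → ∃ b ∈ F'.erase a, b.2 = κ ∧
      b.1 * x⁻¹ ∈ Kall 𝔇 s := by
    intro a ha h3
    have := Nat.find_min' hex ⟨_, rfl, h3⟩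
    rw [Finset.card_erase_of_mem ha, h1] at this
    have := Finset.card_pos.2 ⟨a, ha⟩
    omega
  refine ⟨F', fun a ha h0 => hmin a ha fun x κ hx => ?_, fun a ha b hb h3 h4 => ?_, h2⟩
  · obtain ⟨b, hb, h3, h4⟩ := h2 x κ hx
    refine ⟨b, Finset.mem_erase.2 ⟨?_, hb⟩, h3, h4⟩
    rintro rfl
    have := apply_of_stab (hs _ h4) x
    rw [inv_mul_cancel_right] at this
    rw [this, h3] at h0
    exact hx h0
  · by_contra hne
    refine hmin a ha fun x κ hx => ?_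
    obtain ⟨e, he, h5, h6⟩ := h2 x κ hx
    by_cases hea : e = a
    · subst hea
      refine ⟨b, Finset.mem_erase.2 ⟨fun h7 => hne h7.symm, hb⟩, h3 ▸ h5, ?_⟩
      simpa [mul_assoc] using mul_mem h4 h6
    · exact ⟨e, Finset.mem_erase.2 ⟨hea, he⟩, h5, h6⟩

theorem prod_eq_of_isTr {s : St p} (hs : ∀ k ∈ Kall 𝔇 s, tr k s = s)
    {F F' : Finset (Gam p × Kind)} (h : IsTr 𝔇 s F) (h' : IsTr 𝔇 s F') (f : Kind → ℕ → ℚ) :
    ∏ a ∈ F, f a.2 (s a.1 a.2) = ∏ a ∈ F', f a.2 (s a.1 a.2) := by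
  choose φ h1 h2 h3 using fun (a : Gam p × Kind) (ha : a ∈ F) => h'.2.2 a.1 a.2 (h.1 a ha)
  refine Finset.prod_bij φ h1 (fun a ha b hb he => ?_) (fun b hb => ?_) (fun a ha => ?_)
  · refine h.2.1 a ha b hb (by rw [← h2 a ha, ← h2 b hb, he]) ?_
    have := mul_mem (inv_mem (h3 b hb)) (h3 a ha)
    rw [he] at this
    simpa [mul_assoc] using this
  · obtain ⟨a, ha, h4, h5⟩ := h.2.2 b.1 b.2 (h'.1 b hb)
    refine ⟨a, ha, (h'.2.1 b hb _ (h1 a ha) (by rw [h2 a ha, h4]) ?_).symm⟩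
    simpa [mul_assoc] using mul_mem (h3 a ha) h5
  · have := apply_of_stab (hs _ (h3 a ha)) a.1
    rw [inv_mul_cancel_right] at this
    rw [this, h2 a ha]

/-- the weight is the product over any transversal -/
theorem W_eq {s : St p} (hs : ∀ k ∈ Kall 𝔇 s, tr k s = s) {F : Finset (Gam p × Kind)}
    (h : IsTr 𝔇 s F) : W 𝔇 s = ∏ a ∈ F, wt 𝔇 a.2 (s a.1 a.2) := by
  have hex : ∃ F, IsTr 𝔇 s F := ⟨F, h⟩
  rw [W, dif_pos hex]
  exact prod_eq_of_isTr hs hex.choose_spec h _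

open Classical in
theorem IsTr.tr {s : St p} {F : Finset (Gam p × Kind)} (h : IsTr 𝔇 s F) (g : Gam p) :
    IsTr 𝔇 (tr g s) (F.image fun a => (g * a.1, a.2)) := by
  refine ⟨?_, ?_, fun x κ hx => ?_⟩
  · simp only [Finset.mem_image]
    rintro _ ⟨a, ha, rfl⟩
    simpa [tr_apply] using h.1 a ha
  · simp only [Finset.mem_image]
    rintro _ ⟨a, ha, rfl⟩ _ ⟨b, hb, rfl⟩ h1 h2
    rw [Kall_tr, mem_cjs] at h2
    rw [h.2.1 a ha b hb h1 (by simpa [mul_assoc] using h2)]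
  · obtain ⟨a, ha, h1, h2⟩ := h.2.2 (g⁻¹ * x) κ hx
    refine ⟨_, Finset.mem_image_of_mem _ ha, h1, ?_⟩
    rw [Kall_tr, mem_cjs]
    simpa [mul_assoc] using h2

theorem Good.tr {N : ℕ} {s : St p} (h : Good 𝔇 N s) (g : Gam p) : Good 𝔇 N (tr g s) := by
  obtain ⟨F, hF⟩ := h.2.2
  exact ⟨h.1.tr g, h.2.1.tr g, _, hF.tr g⟩

theorem W_tr {N : ℕ} {s : St p} (h : Good 𝔇 N s) (g : Gam p) : W 𝔇 (tr g s) = W 𝔇 s := by
  classical
  obtain ⟨F, hF⟩ := h.2.2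
  rw [W_eq (fun _ hk => (h.tr g).stab hk) (hF.tr g), W_eq (fun _ hk => h.stab hk) hF,
    Finset.prod_image]
  · simp [tr_apply]
  · intro a _ b _ he
    simp only [Prod.mk.injEq, mul_right_inj] at he
    exact Prod.ext he.1 he.2

theorem OKs.nE_pos {N i : ℕ} (h : OKs 𝔇 N) (h1 : 1 ≤ i) (h2 : i ≤ N + 1) : 0 < (𝔇 i).nE := by
  rcases Nat.eq_or_lt_of_le h2 with rfl | h3
  · exact h.2.2
  · exact (h.2.1 i h1 (by omega)).1.nE_pos

theorem W_pos {N : ℕ} (hO : OKs 𝔇 N) {s : St p} (h : Good 𝔇 N s) : 0 < W 𝔇 s := by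
  obtain ⟨F, hF⟩ := h.2.2
  rw [W_eq (fun _ hk => h.stab hk) hF]
  refine Finset.prod_pos fun a ha => ?_
  have h1 := hF.1 a ha
  have h2 := h.2.1 _ _ h1
  obtain ⟨x, i, _ | c⟩ := a
  · rw [rk_none] at h2
    have : (0 : ℚ) < (𝔇 i).nE := by exact_mod_cast hO.nE_pos (by omega) (by omega)
    simpa [wt] using this
  · rw [rk_some] at h2
    exact ((hO.2.1 i (by omega) (by omega)).2.2.at' c _
      (h.1.1 i (by omega) (by omega) x c h1).1).pos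

theorem good_empty (N : ℕ) : Good 𝔇 N (fun _ _ => 0) :=
  ⟨⟨fun _ _ _ _ _ h => absurd rfl h, fun _ _ _ _ => Nat.zero_le _⟩, fun _ _ h => absurd rfl h,
    ∅, by simp, by simp, fun _ _ h => absurd rfl h⟩

theorem W_empty : W 𝔇 (fun _ _ => 0) = 1 := by
  rw [W_eq (F := ∅) (fun _ hk => (good_empty 0).stab hk)
    ⟨by simp, by simp, fun _ _ h => absurd rfl h⟩]
  simp

end weight

section reach

theorem Reach.refl {N : ℕ} {s : St p} {Q O : St p → Prop} (h : Good 𝔇 N s) (hQ : Q s) :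
    Reach 𝔇 N s Q O :=
  ⟨{s}, by simpa using ⟨h, Le.refl s, hQ⟩, by simp, by simp,
    fun o _ ho _ => ⟨s, by simp, ho⟩⟩

theorem Reach.mono {N : ℕ} {s : St p} {Q O Q' O' : St p → Prop} (h : Reach 𝔇 N s Q O)
    (hQ : ∀ s', Good 𝔇 N s' → Le s s' → Q s' → Q' s')
    (hO : ∀ o, Val 𝔇 N o → Le s o → O' o → O o) : Reach 𝔇 N s Q' O' := by
  obtain ⟨ℱ, h1, h2, h3, h4⟩ := h
  exact ⟨ℱ, fun s' hs => ⟨(h1 s' hs).1, (h1 s' hs).2.1,
    hQ s' (h1 s' hs).1 (h1 s' hs).2.1 (h1 s' hs).2.2.1, (h1 s' hs).2.2.2⟩, h2, h3,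
    fun o a b c => h4 o a b (hO o a b c)⟩

theorem Reach.lift {N N' : ℕ} {s : St p} {Q O : St p → Prop} (h : Reach 𝔇 N s Q O)
    (hN : N ≤ N') : Reach 𝔇 N' s Q O := by
  obtain ⟨ℱ, h1, h2, h3, h4⟩ := h
  exact ⟨ℱ, fun s' hs => ⟨(h1 s' hs).1.mono hN, (h1 s' hs).2⟩, h2, h3,
    fun o a b c => h4 o (a.mono hN) b c⟩

/-- composition of explorations -/
theorem Reach.bind {N : ℕ} {s : St p} {Q Q' O : St p → Prop} (h : Reach 𝔇 N s Q O)
    (h' : ∀ s', Good 𝔇 N s' → Le s s' → Q s' → Reach 𝔇 N s' Q' O) : Reach 𝔇 N s Q' O := by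
  classical
  obtain ⟨ℱ, h1, h2, h3, h4⟩ := h
  choose 𝒢 g1 g2 g3 g4 using fun (a : St p) (ha : a ∈ ℱ) =>
    h' a (h1 a ha).1 (h1 a ha).2.1 (h1 a ha).2.2.1
  have hdis : ∀ a : ℱ, ∀ b : ℱ, a ≠ b → ∀ x ∈ 𝒢 a a.2, ∀ y ∈ 𝒢 b b.2, Incomp x y :=
    fun a b hab x hx y hy => (h2 a a.2 b b.2 fun e => hab (Subtype.ext e)).mono
      (g1 a a.2 x hx).2.1 (g1 b b.2 y hy).2.1
  refine ⟨ℱ.attach.biUnion fun a => 𝒢 a a.2, ?_, ?_, ?_, fun o a b c => ?_⟩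
  · simp only [Finset.mem_biUnion, Finset.mem_attach, true_and]
    rintro x ⟨a, hx⟩
    obtain ⟨k1, k2, k3, k4⟩ := g1 a a.2 x hx
    exact ⟨k1, (h1 a a.2).2.1.trans k2, k3, fun hi => k4 ((h1 a a.2).2.2.2 hi)⟩
  · simp only [Finset.mem_biUnion, Finset.mem_attach, true_and]
    rintro x ⟨a, hx⟩ y ⟨b, hy⟩ hxy
    by_cases hab : a = b
    · subst hab; exact g2 a a.2 x hx y hy hxy
    · exact hdis a b hab x hx y hy
  · rw [Finset.sum_biUnion, ← h3, ← Finset.sum_attach ℱ]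
    · exact Finset.sum_congr rfl fun a _ => g3 a a.2
    · intro a _ b _ hab
      rw [Function.onFun, Finset.disjoint_left]
      intro x hx hy
      exact not_incomp (Le.refl x) (Le.refl x) (hdis a b hab x hx x hy)
  · obtain ⟨s', hs', k1⟩ := h4 o a b c
    obtain ⟨s'', hs'', k2⟩ := g4 s' hs' o a k1 c
    exact ⟨s'', Finset.mem_biUnion.2 ⟨⟨s', hs'⟩, Finset.mem_attach _ _, hs''⟩, k2⟩

theorem Up.refl (i : ℕ) (s : St p) : Up 𝔇 i s s :=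
  ⟨le_sup_left, fun _ _ _ hy => ⟨1, one_mem _, by simpa using hy⟩⟩

theorem Up.mono {i i' : ℕ} {s s' : St p} (h : Up 𝔇 i s s') (hi : i ≤ i') : Up 𝔇 i' s s' :=
  ⟨h.1.trans (sup_le_sup_left (K_mono hi (Le.refl _)) _), fun y κ hk => h.2 y κ (by omega)⟩

theorem Up.trans {i : ℕ} {s s' s'' : St p} (h : Up 𝔇 i s s') (h' : Up 𝔇 i s' s'')
    (hl : Le s' s'') : Up 𝔇 i s s'' := by
  refine ⟨h'.1.trans (sup_le (h.1.trans (sup_le_sup_left (K_mono le_rfl hl) _)) le_sup_right),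
    fun y κ hk hy => ?_⟩
  obtain ⟨k, hk1, h1⟩ := h'.2 y κ hk hy
  obtain ⟨k', hk2, h2⟩ := h.2 _ κ hk h1
  exact ⟨k' * k, mul_mem (Kall_mono hl hk2) hk1, by rwa [mul_assoc]⟩

theorem Up.Dm_eq {N i j : ℕ} {s s' : St p} (h : Up 𝔇 i s s') (hl : Le s s') (hs : Good 𝔇 N s')
    (hj : i < j) : Dm j s' = Sat (Kall 𝔇 s') (Dm j s) := by
  refine subset_antisymm (fun y hy => ?_)
    (Sat_subset (Dm_mono hl) fun k hk y hy => (Dm_stab (hs.stab hk)).2 hy)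
  exact mem_Sat_iff.2 (h.2 y _ (by rw [rk_none]; omega) hy)

theorem Up.Cen_eq {N i j : ℕ} {s s' : St p} (h : Up 𝔇 i s s') (hl : Le s s') (hs : Good 𝔇 N s')
    (hj : i < j) : Cen j s' = Sat (Kall 𝔇 s') (Cen j s) := by
  refine subset_antisymm (fun y ⟨c, hy⟩ => ?_)
    (Sat_subset (Cen_mono hl) fun k hk y hy => (Cen_stab (hs.stab hk)).2 hy)
  obtain ⟨k, hk, h1⟩ := h.2 y _ (by rw [rk_some]; omega) hy
  exact mem_Sat_iff.2 ⟨k, hk, c, h1⟩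

/-- the saturation of an invariant set only needs the group of level `i` -/
theorem Sat_Kall_eq {N i : ℕ} {s s' : St p} (hs : Good 𝔇 N s') (hl : Le s s')
    (h : Kall 𝔇 s' ≤ Kall 𝔇 s ⊔ K 𝔇 i s') {P : Set (Gam p)}
    (hP : ∀ k ∈ Kall 𝔇 s, ∀ y ∈ P, k * y ∈ P) : Sat (Kall 𝔇 s') P = Sat (K 𝔇 i s') P := by
  refine subset_antisymm ?_ (Sat_mono (K_le_Kall _ _) subset_rfl)
  rintro _ ⟨g, hg, y, hy, rfl⟩
  obtain ⟨k, hk, a, ha, rfl⟩ :=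
    exists_mul_of_mem_sup (fun a ha => hs.stab (Kall_mono hl ha)) (h hg)
  exact ⟨k, hk, a * y, hP a ha y hy, by rw [mul_assoc]⟩

end reach

section consts

theorem OKs.mono {N N' : ℕ} (h : OKs 𝔇 N) (hN : N' ≤ N) : OKs 𝔇 N' :=
  ⟨h.1, fun i h1 h2 => h.2.1 i h1 (h2.trans hN), h.nE_pos (by omega) (by omega)⟩

theorem Th.mono {N N' : ℕ} (h : Th 𝔇 N) (hN : N' ≤ N) : Th 𝔇 N' :=
  ⟨h.1.mono hN, fun j hj => h.2.1 j (hj.trans hN), fun j h1 hj => h.2.2 j h1 (hj.trans hN)⟩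

theorem Th.ok {N i : ℕ} (h : Th 𝔇 N) (h1 : 1 ≤ i) (h2 : i ≤ N) : OK 𝔇 i := h.1.2.1 i h1 h2

theorem OK.scale {i : ℕ} (h : OK 𝔇 i) : (𝔇 (i - 1)).δ + (𝔇 i).θ + (𝔇 i).D ≤ (𝔇 i).δ ∧
    (𝔇 (i - 1)).δ ≤ (𝔇 i).θ ∧ 10 ^ 4 * (𝔇 i).θ ≤ (𝔇 i).g ∧ 10 * (𝔇 i).g ≤ (𝔇 i).δ := by
  have := h.2.1.θ; have := h.2.1.g; have := h.2.2.δ
  omega

theorem OKs.g_mono {N i j : ℕ} (h : OKs 𝔇 N) (h1 : 1 ≤ i) (hij : i ≤ j) (hj : j ≤ N) :
    (𝔇 i).g ≤ (𝔇 j).g := by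
  induction j with
  | zero => omega
  | succ j ih =>
    rcases Nat.eq_or_lt_of_le hij with rfl | h2
    · exact le_rfl
    · have := ih (by omega) (by omega)
      have a := (h.2.1 j (by omega) (by omega)).scale
      have b := (h.2.1 (j + 1) (by omega) hj).scale
      simp only [Nat.add_sub_cancel] at b
      omega

end consts

end Pool.Agent.MP_735563_an.H2
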