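import Pool.Agent.MP_735563_an.H2.BasicB

set_option autoImplicit false

/-! Locality of the rule, frame lemmas, rule paths. -/

namespace Pool.Agent.MP_735563_an.H2

variable {p : ℕ} {𝔇 : ℕ → Lev p}

section loc

/-- complete balls look the same in every extension -/
theorem agree_mk {i r : ℕ} (hi : 1 ≤ i) (hG : GEOp 𝔇 (i - 1)) {s s' : St p}
    (hs : ValZ 𝔇 (i - 1) s) (hs' : ValZ 𝔇 (i - 1) s') (hl : Le s s') {x : Gam p}
    (hc : ∀ u, len u ≤ 2 * r + (𝔇 (i - 1)).δ → Comp 𝔇 (i - 1) s (x * u)) :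
    Agree i r (mk 𝔇 i s x) (mk 𝔇 i s' x) := by
  refine ⟨fun u hu κ h1 h2 => ?_, fun u hu => ?_⟩
  · have := (hG.2.1 s s' hs hs' hl (x * u) (hc u (by omega))).2 κ h1 (by omega)
    simpa [mk, trM, tr] using this.symm
  · simp only [mk, trM, mem_cjs, inv_inv]
    exact ⟨fun h => K_mono le_rfl hl h,
      fun h => hG.2.2.1 s s' hs hs' hl x u (fun v hv => hc v (by omega)) h⟩

theorem loc_iff {i : ℕ} (hR : RuleOK 𝔇 i) {M M' : MS p} (h : Agree i (𝔇 i).ρ M M') (c : Fin 3) :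
    ((𝔇 i).cen M c ↔ (𝔇 i).cen M' c) ∧ (𝔇 i).nb M c = (𝔇 i).nb M' c :=
  ⟨⟨(hR.loc M M' c h).1, (hR.loc M' M c h.symm).1⟩,
    Set.Subset.antisymm (hR.loc M M' c h).2 (hR.loc M' M c h.symm).2⟩

theorem RC.cen_iff {i : ℕ} (hi : 1 ≤ i) (hR : RuleOK 𝔇 i) (hG : GEOp 𝔇 (i - 1)) {s s' : St p}
    (hs : ValZ 𝔇 (i - 1) s) (hs' : ValZ 𝔇 (i - 1) s') (hl : Le s s') {x : Gam p}
    (h : RC 𝔇 i s x) (c : Fin 3) : cenA 𝔇 i s c x ↔ cenA 𝔇 i s' c x :=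
  (loc_iff hR (agree_mk hi hG hs hs' hl h) c).1

theorem RC.nb_eq {i : ℕ} (hi : 1 ≤ i) (hR : RuleOK 𝔇 i) (hG : GEOp 𝔇 (i - 1)) {s s' : St p}
    (hs : ValZ 𝔇 (i - 1) s) (hs' : ValZ 𝔇 (i - 1) s') (hl : Le s s') {x : Gam p}
    (h : RC 𝔇 i s x) (c : Fin 3) : nbA 𝔇 i s c x = nbA 𝔇 i s' c x :=
  (loc_iff hR (agree_mk hi hG hs hs' hl h) c).2

theorem RC.mono {i : ℕ} (hG : GEOp 𝔇 (i - 1)) {s s' : St p}
    (hs : ValZ 𝔇 (i - 1) s) (hs' : ValZ 𝔇 (i - 1) s') (hl : Le s s') {x : Gam p}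
    (h : RC 𝔇 i s x) : RC 𝔇 i s' x := fun u hu => (hG.2.1 s s' hs hs' hl _ (h u hu)).1

theorem RC.adj {i : ℕ} (hi : 1 ≤ i) (hR : RuleOK 𝔇 i) (hG : GEOp 𝔇 (i - 1)) {s s' : St p}
    (hs : ValZ 𝔇 (i - 1) s) (hs' : ValZ 𝔇 (i - 1) s') (hl : Le s s') {a b : Gam p}
    (h : RC 𝔇 i s a) {c : Fin 3} (ha : Adj 𝔇 i s c a b) : Adj 𝔇 i s' c a b := by
  obtain ⟨h1, w, hw, h2⟩ := ha
  exact ⟨(h.cen_iff hi hR hG hs hs' hl c).1 h1, w, h.nb_eq hi hR hG hs hs' hl c ▸ hw,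
    K_mono le_rfl hl h2⟩

theorem RPath.mono {i : ℕ} (hi : 1 ≤ i) (hR : RuleOK 𝔇 i) (hG : GEOp 𝔇 (i - 1)) {s s' : St p}
    (hs : ValZ 𝔇 (i - 1) s) (hs' : ValZ 𝔇 (i - 1) s') (hl : Le s s') {c : Fin 3}
    {x : ℕ → Gam p} {n : ℕ} (h : RPath 𝔇 i s c x n) : RPath 𝔇 i s' c x n :=
  ⟨fun t ht => (h.1 t ht).mono hG hs hs' hl,
    fun t ht => (h.1 t ht.le).adj hi hR hG hs hs' hl (h.2 t ht)⟩

theorem rc_of_ball {i : ℕ} (hC : ConstA 𝔇 i) {s : St p} {x : Gam p}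
    (h : ∀ u, len u ≤ (𝔇 i).θ → Comp 𝔇 (i - 1) s (x * u)) : RC 𝔇 i s x :=
  fun u hu => h u (by have := hC.θ; omega)

theorem Comp.rc {i : ℕ} (hi : 1 ≤ i) (hC : ConstA 𝔇 i) {s : St p} {x : Gam p}
    (h : Comp 𝔇 i s x) : RC 𝔇 i s x := rc_of_ball hC fun _ hu => h.ball hi hu

/-- points of the seed of the region of level `i - 1` -/
theorem rc_of_seed {i : ℕ} (hC : ConstA 𝔇 i) {s : St p} (hT : Tow 𝔇 (i - 1) s)
    {P : Set (Gam p)} (hP : Nb (𝔇 i).θ P ⊆ Dm (i - 1) s) {x : Gam p} (hx : x ∈ P) :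
    RC 𝔇 i s x := rc_of_ball hC fun _ hu => hT.comp (hP (mul_mem_Nb hx hu))

theorem RC.congr {i : ℕ} {s : St p} (hs : ValZ 𝔇 (i - 1) s) {a a' : Gam p} (h : RC 𝔇 i s a)
    (ha : a' * a⁻¹ ∈ K 𝔇 (i - 1) s) : RC 𝔇 i s a' := by
  have := (RC_stab (i := i) (hs.stab ha) (x := a)).2 h
  rwa [inv_mul_cancel_right] at this

theorem Adj.dj_le {i : ℕ} (hR : RuleOK 𝔇 i) {s : St p} {c : Fin 3} {a b : Gam p}
    (h : Adj 𝔇 i s c a b) : dj 𝔇 (i - 1) s a b ≤ (𝔇 i).l := by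
  obtain ⟨-, w, hw, h2⟩ := h
  refine (H2.dj_le (w := w) ?_).trans (hR.len _ _ w hw)
  simpa using inv_mem h2

end loc

section frame

/-- two states with the same labels up to rank `r` -/
def Fr (r : ℕ) (s s' : St p) : Prop := ∀ x κ, 2 ≤ rk κ → rk κ ≤ r → s x κ = s' x κ

theorem Fr.symm {r : ℕ} {s s' : St p} (h : Fr r s s') : Fr r s' s :=
  fun x κ h1 h2 => (h x κ h1 h2).symm

theorem Fr.mono {r r' : ℕ} {s s' : St p} (h : Fr r s s') (hr : r' ≤ r) : Fr r' s s' :=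
  fun x κ h1 h2 => h x κ h1 (h2.trans hr)

theorem Fr.K_eq {r j : ℕ} {s s' : St p} (h : Fr r s s') (hj : 2 * j + 1 ≤ r) :
    K 𝔇 j s = K 𝔇 j s' := by
  unfold K
  congr 1
  ext u
  constructor
  · rintro ⟨i, c, x, h1, h2, h3⟩
    rw [h x _ (by rw [rk_some]; omega) (by rw [rk_some]; omega)] at h3
    exact ⟨i, c, x, h1, h2, h3⟩
  · rintro ⟨i, c, x, h1, h2, h3⟩
    rw [← h x _ (by rw [rk_some]; omega) (by rw [rk_some]; omega)] at h3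
    exact ⟨i, c, x, h1, h2, h3⟩

theorem Fr.dj_eq {r j : ℕ} {s s' : St p} (h : Fr r s s') (hj : 2 * j + 1 ≤ r) :
    dj 𝔇 j s = dj 𝔇 j s' := by rw [dj, dj, h.K_eq hj]

theorem Fr.agree {r i ρ : ℕ} {s s' : St p} (h : Fr r s s') (hi : 1 ≤ i) (hr : 2 * i ≤ r)
    (x : Gam p) : Agree i ρ (mk 𝔇 i s x) (mk 𝔇 i s' x) := by
  refine ⟨fun u _ κ h1 h2 => h _ κ h1 (h2.trans hr), fun u _ => ?_⟩
  simp only [mk, trM]
  rw [h.K_eq (by omega)]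

theorem Fr.cen_iff {r i : ℕ} {s s' : St p} (h : Fr r s s') (hi : 1 ≤ i) (hr : 2 * i ≤ r)
    (hR : RuleOK 𝔇 i) (c : Fin 3) (x : Gam p) : cenA 𝔇 i s c x ↔ cenA 𝔇 i s' c x :=
  (loc_iff hR (h.agree hi hr x) c).1

theorem Fr.nb_eq {r i : ℕ} {s s' : St p} (h : Fr r s s') (hi : 1 ≤ i) (hr : 2 * i ≤ r)
    (hR : RuleOK 𝔇 i) (c : Fin 3) (x : Gam p) : nbA 𝔇 i s c x = nbA 𝔇 i s' c x :=
  (loc_iff hR (h.agree hi hr x) c).2

theorem Fr.Dm_eq {r i : ℕ} {s s' : St p} (h : Fr r s s') (hr : 2 * i + 2 ≤ r) :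
    Dm i s = Dm i s' := by
  ext x
  simp only [Dm, Set.mem_setOf_eq]
  rw [h x _ (by rw [rk_none]; omega) (by rw [rk_none]; omega)]

theorem Fr.fold_eq {r i : ℕ} {s s' : St p} (h : Fr r s s') (hi : 1 ≤ i) (hr : 2 * i + 1 ≤ r)
    (x : Gam p) (c : Fin 3) : s x (i, some c) = s' x (i, some c) :=
  h x _ (by rw [rk_some]; omega) (by rw [rk_some]; omega)

theorem Fr.Cen_eq {r i : ℕ} {s s' : St p} (h : Fr r s s') (hi : 1 ≤ i) (hr : 2 * i + 1 ≤ r) :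
    Cen i s = Cen i s' := by
  ext x
  simp only [Cen, Set.mem_setOf_eq, h.fold_eq hi hr]

theorem Fr.comp {r : ℕ} {s s' : St p} (h : Fr r s s') : ∀ {j : ℕ},
    (∀ i, 1 ≤ i → i ≤ j → RuleOK 𝔇 i) → 2 * j + 2 ≤ r → ∀ {x : Gam p},
    Comp 𝔇 j s x → Comp 𝔇 j s' x := by
  intro j
  induction j with
  | zero =>
    intro _ hr x hx
    have : x ∈ Dm 0 s' := h.Dm_eq hr ▸ hx.mark
    exact this
  | succ j ih =>
    intro hR hr x hx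
    have h1 : x ∈ Dm (j + 1) s' := h.Dm_eq hr ▸ hx.mark
    refine ⟨h1, fun u hu => ih (fun i h1 h2 => hR i h1 (by omega)) (by omega) (hx.2.1 u hu),
      fun c hc => ?_⟩
    rw [← h.fold_eq (by omega) (by omega)]
    exact hx.2.2 c ((h.cen_iff (by omega) (by omega) (hR _ (by omega) le_rfl) c x).2 hc)

theorem Fr.tow {r j : ℕ} {s s' : St p} (h : Fr r s s') (hR : ∀ i, 1 ≤ i → i ≤ j → RuleOK 𝔇 i)
    (hr : 2 * j + 2 ≤ r) (hT : Tow 𝔇 j s) : Tow 𝔇 j s' := by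
  intro i h1 h2
  obtain ⟨ha, hb, hc⟩ := hT i h1 h2
  refine ⟨?_, fun x hx c hcc => ?_, fun x c hx => ?_⟩
  · unfold ExA at *
    rw [← h.Dm_eq (by omega), ← h.Dm_eq (by omega), ← h.Cen_eq h1 (by omega), ha]
  · rw [← h.fold_eq h1 (by omega)]
    rw [← h.Dm_eq (by omega)] at hx
    exact hb x hx c ((h.cen_iff h1 (by omega) (hR i h1 h2) c x).2 hcc)
  · rw [← h.fold_eq h1 (by omega)] at hx ⊢
    rw [← h.Dm_eq (by omega)]
    exact hc x c hx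

theorem Fr.adj {r i : ℕ} {s s' : St p} (h : Fr r s s') (hi : 1 ≤ i) (hr : 2 * i ≤ r)
    (hR : RuleOK 𝔇 i) {c : Fin 3} {a b : Gam p} (ha : Adj 𝔇 i s c a b) : Adj 𝔇 i s' c a b := by
  obtain ⟨h1, w, hw, h2⟩ := ha
  rw [h.nb_eq hi hr hR c a] at hw
  rw [h.K_eq (j := i - 1) (by omega)] at h2
  exact ⟨(h.cen_iff hi hr hR c a).1 h1, w, hw, h2⟩

theorem Fr.Tn_eq {r i : ℕ} {s s' : St p} (h : Fr r s s') (hi : 1 ≤ i) (hr : 2 * i ≤ r)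
    (hR : RuleOK 𝔇 i) (c : Fin 3) (x : Gam p) (t : ℕ) : Tn 𝔇 i s c x t = Tn 𝔇 i s' c x t := by
  induction t with
  | zero => rfl
  | succ t ih => simp only [Tn, ih, h.cen_iff hi hr hR, h.nb_eq hi hr hR]

end frame

section path

variable {i : ℕ} {s : St p} {c : Fin 3}

theorem Tn_succ_sub (x : Gam p) (t : ℕ) : Tn 𝔇 i s c x t ⊆ Tn 𝔇 i s c x (t + 1) :=
  Set.subset_union_left

theorem Tn_mono (x : Gam p) {t t' : ℕ} (h : t ≤ t') : Tn 𝔇 i s c x t ⊆ Tn 𝔇 i s c x t' := by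
  induction h with
  | refl => exact le_rfl
  | step _ ih => exact ih.trans (Tn_succ_sub x _)

theorem mem_Tn_self (x : Gam p) (t : ℕ) : x ∈ Tn 𝔇 i s c x t := Tn_mono x (Nat.zero_le t) rfl

theorem mul_mem_Tn {x a w : Gam p} {t : ℕ} (ha : a ∈ Tn 𝔇 i s c x t) (hc : cenA 𝔇 i s c a)
    (hw : w ∈ nbA 𝔇 i s c a) : a * w ∈ Tn 𝔇 i s c x (t + 1) := Or.inr ⟨a, ha, hc, w, hw, rfl⟩

theorem Tn_succ_sub_Nb (hR : RuleOK 𝔇 i) (x : Gam p) (t : ℕ) :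
    Tn 𝔇 i s c x (t + 1) ⊆ Nb (𝔇 i).l (Tn 𝔇 i s c x t) := by
  rintro y (hy | ⟨a, ha, -, w, hw, rfl⟩)
  · exact subset_Nb _ _ hy
  · exact mul_mem_Nb ha (hR.len _ _ w hw)

theorem Tn_sub_Nb (hR : RuleOK 𝔇 i) (x : Gam p) (t : ℕ) :
    Tn 𝔇 i s c x t ⊆ Nb (t * (𝔇 i).l) {x} := by
  induction t with
  | zero => exact subset_Nb _ _
  | succ t ih =>
    refine (Tn_succ_sub_Nb hR x t).trans ((Nb_mono le_rfl ih).trans ?_)
    rw [Nb_Nb, Nat.succ_mul]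

theorem Tn_finite [NeZero p] (hR : RuleOK 𝔇 i) (x : Gam p) (t : ℕ) : (Tn 𝔇 i s c x t).Finite :=
  (Nb_finite _ (Set.finite_singleton x)).subset (Tn_sub_Nb hR x t)

theorem Tn_stab {g : Gam p} (h : tr g s = s) (x : Gam p) (t : ℕ) :
    Tn 𝔇 i s c (g * x) t = lm g (Tn 𝔇 i s c x t) := by
  conv_lhs => rw [← h]
  exact Tn_tr i g s c x t

/-- the points reached in an extension -/
theorem Tn_stable (hi : 1 ≤ i) (hR : RuleOK 𝔇 i) (hG : GEOp 𝔇 (i - 1)) {s' : St p}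
    (hs : ValZ 𝔇 (i - 1) s) (hs' : ValZ 𝔇 (i - 1) s') (hl : Le s s') {x : Gam p} {t : ℕ}
    (h : ∀ y ∈ Tn 𝔇 i s c x t, RC 𝔇 i s y) : ∀ t' ≤ t + 1, Tn 𝔇 i s' c x t' = Tn 𝔇 i s c x t' := by
  intro t'
  induction t' with
  | zero => intro _; rfl
  | succ t' ih =>
    intro ht
    rw [Tn, Tn, ih (by omega)]
    congr 1
    ext y
    constructor
    · rintro ⟨a, ha, h1, w, hw, rfl⟩
      have h2 := h a (Tn_mono x (by omega) ha)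
      exact ⟨a, ha, (h2.cen_iff hi hR hG hs hs' hl c).2 h1, w,
        (h2.nb_eq hi hR hG hs hs' hl c).symm ▸ hw, rfl⟩
    · rintro ⟨a, ha, h1, w, hw, rfl⟩
      have h2 := h a (Tn_mono x (by omega) ha)
      exact ⟨a, ha, (h2.cen_iff hi hR hG hs hs' hl c).1 h1, w,
        h2.nb_eq hi hR hG hs hs' hl c ▸ hw, rfl⟩

theorem Adj.sat_Tn (hs : ValZ 𝔇 (i - 1) s) {x a b : Gam p} {t : ℕ}
    (ha : a ∈ Sat (K 𝔇 (i - 1) s) (Tn 𝔇 i s c x t)) (h : Adj 𝔇 i s c a b) :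
    b ∈ Sat (K 𝔇 (i - 1) s) (Tn 𝔇 i s c x (t + 1)) := by
  obtain ⟨k, hk, a', ha', rfl⟩ := ha
  obtain ⟨h1, w, hw, h2⟩ := h.congr hs (a' := a') (b' := b) (by simpa using inv_mem hk)
    (by simp)
  exact ⟨_, h2, _, mul_mem_Tn ha' h1 hw, (inv_mul_cancel_right _ _).symm⟩

/-- the end of a path of rule steps -/
theorem path_mem_Tn (hs : ValZ 𝔇 (i - 1) s) {x : ℕ → Gam p} {n : ℕ}
    (h : ∀ t < n, Adj 𝔇 i s c (x t) (x (t + 1))) :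
    ∀ t ≤ n, x t ∈ Sat (K 𝔇 (i - 1) s) (Tn 𝔇 i s c (x 0) t) := by
  intro t
  induction t with
  | zero => intro _; exact subset_Sat _ _ rfl
  | succ t ih => intro ht; exact Adj.sat_Tn hs (ih (by omega)) (h t ht)

theorem Tn_path {x : Gam p} : ∀ {t : ℕ} {y : Gam p}, y ∈ Tn 𝔇 i s c x t →
    ∃ (ξ : ℕ → Gam p) (n : ℕ), n ≤ t ∧ ξ 0 = x ∧ ξ n = y ∧ (∀ a ≤ n, ξ a ∈ Tn 𝔇 i s c x a) ∧
      ∀ a < n, Adj 𝔇 i s c (ξ a) (ξ (a + 1)) := by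
  intro t
  induction t with
  | zero =>
    intro y hy
    exact ⟨fun _ => x, 0, le_rfl, rfl, hy.symm, fun a _ => mem_Tn_self x a, fun a ha => by omega⟩
  | succ t ih =>
    rintro y (hy | ⟨a, ha, h1, w, hw, rfl⟩)
    · obtain ⟨ξ, n, h1, h2⟩ := ih hy
      exact ⟨ξ, n, by omega, h2⟩
    · obtain ⟨ξ, n, h2, h3, h4, h5, h6⟩ := ih ha
      refine ⟨fun b => if b ≤ n then ξ b else a * w, n + 1, by omega, by simpa using h3, by simp,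
        fun b hb => ?_, fun b hb => ?_⟩
      · by_cases h7 : b ≤ n
        · simpa [h7] using h5 b h7
        · obtain rfl : b = n + 1 := by omega
          simp only [h7, if_false]
          exact mul_mem_Tn (h4 ▸ h5 n le_rfl) h1 hw
      · by_cases h7 : b < n
        · simpa [h7.le, Nat.succ_le_of_lt h7] using h6 b h7
        · obtain rfl : b = n := by omega
          simp only [le_refl, if_true, Nat.not_succ_le_self, if_false, h4]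
          exact ⟨h1, w, hw, by simp⟩

theorem Tn_shift (hs : ValZ 𝔇 (i - 1) s) {x w : Gam p} {a : ℕ}
    (hw : w ∈ Sat (K 𝔇 (i - 1) s) (Tn 𝔇 i s c x a)) (t : ℕ) :
    Tn 𝔇 i s c w t ⊆ Sat (K 𝔇 (i - 1) s) (Tn 𝔇 i s c x (a + t)) := by
  induction t with
  | zero => rintro y rfl; exact hw
  | succ t ih =>
    rintro y (hy | ⟨b, hb, h1, v, hv, rfl⟩)
    · exact Sat_mono le_rfl (Tn_succ_sub x _) (ih hy)
    · exact Adj.sat_Tn hs (ih hb) ⟨h1, v, hv, by simp⟩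

theorem exists_short {x : ℕ → Gam p} {n : ℕ} (h : RPath 𝔇 i s c x n) :
    ∃ y n', n' ≤ n ∧ Short 𝔇 i s c y n' ∧ y 0 = x 0 ∧ y n' * (x n)⁻¹ ∈ K 𝔇 (i - 1) s := by
  classical
  have hex : ∃ n', ∃ y, RPath 𝔇 i s c y n' ∧ y 0 = x 0 ∧ y n' * (x n)⁻¹ ∈ K 𝔇 (i - 1) s :=
    ⟨n, x, h, rfl, by simp⟩
  obtain ⟨y, h1, h2, h3⟩ := Nat.find_spec hex
  refine ⟨y, Nat.find hex, Nat.find_min' hex ⟨x, h, rfl, by simp⟩, ⟨h1, fun z n' h4 h5 h6 => ?_⟩,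
    h2, h3⟩
  refine Nat.find_min' hex ⟨z, h4, h5.trans h2, ?_⟩
  simpa [mul_assoc] using mul_mem h6 h3

theorem RPath.sub {x : ℕ → Gam p} {n a b : ℕ} (h : RPath 𝔇 i s c x n) (hab : a + b ≤ n) :
    RPath 𝔇 i s c (fun t => x (a + t)) b :=
  ⟨fun t ht => h.1 _ (by omega), fun t ht => h.2 (a + t) (by omega)⟩

/-- concatenation of rule paths -/
theorem RPath.append (hs : ValZ 𝔇 (i - 1) s) {x y : ℕ → Gam p} {n n' : ℕ}
    (h : RPath 𝔇 i s c x n) (h' : RPath 𝔇 i s c y n') (he : y 0 * (x n)⁻¹ ∈ K 𝔇 (i - 1) s) :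
    RPath 𝔇 i s c (fun t => if t ≤ n then x t else y (t - n)) (n + n') := by
  refine ⟨fun t ht => ?_, fun t ht => ?_⟩
  · by_cases h1 : t ≤ n
    · simpa [h1] using h.1 t h1
    · simpa [h1] using h'.1 (t - n) (by omega)
  · by_cases h1 : t < n
    · simpa [h1.le, Nat.succ_le_of_lt h1] using h.2 t h1
    · by_cases h2 : t = n
      · subst h2
        simp only [le_refl, if_true, Nat.not_succ_le_self, if_false, Nat.add_sub_cancel_left]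
        exact (h'.2 0 (by omega)).congr hs (by simpa using inv_mem he) (by simp)
      · have h3 : ¬ t ≤ n := by omega
        have h4 : ¬ t + 1 ≤ n := by omega
        simp only [h3, h4, if_false]
        rw [show t + 1 - n = t - n + 1 by omega]
        exact h'.2 (t - n) (by omega)

theorem RPath.rev (hR : RuleOK 𝔇 i) (hs : ValZ 𝔇 (i - 1) s) {x : ℕ → Gam p} {n : ℕ}
    (h : RPath 𝔇 i s c x n) : RPath 𝔇 i s c (fun t => x (n - t)) n := by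
  refine ⟨fun t _ => h.1 _ (by omega), fun t ht => ?_⟩
  have := h.2 (n - (t + 1)) (by omega)
  rw [show n - (t + 1) + 1 = n - t by omega] at this
  exact hR.sym s hs c _ _ (h.1 _ (by omega)) (h.1 _ (by omega)) this

theorem RPath.tr {x : ℕ → Gam p} {n : ℕ} (h : RPath 𝔇 i s c x n) (g : Gam p) :
    RPath 𝔇 i (tr g s) c (fun t => g * x t) n :=
  ⟨fun t ht => RC_tr.2 (h.1 t ht), fun t ht => Adj_tr.2 (h.2 t ht)⟩

theorem Short.sub (hs : ValZ 𝔇 (i - 1) s) {x : ℕ → Gam p} {n a b : ℕ} (h : Short 𝔇 i s c x n)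
    (hab : a + b ≤ n) : Short 𝔇 i s c (fun t => x (a + t)) b := by
  refine ⟨h.1.sub hab, fun y n' hy h0 h1 => ?_⟩
  have h2 := (h.1.sub (a := 0) (b := a) (by omega)).append hs hy (by simp [h0])
  have h3 := h2.append hs (h.1.sub (a := a + b) (b := n - (a + b)) (by omega)) (by
    by_cases h4 : n' = 0
    · subst h4
      simpa [h0] using inv_mem h1
    · have h5 : ¬ a + n' ≤ a := by omega
      simpa [h5] using inv_mem h1)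
  have := h.2 _ _ h3 (by simp) (by
    by_cases h4 : n - (a + b) = 0
    · have h6 : a + b = n := by omega
      by_cases h5 : n' = 0
      · subst h5
        simpa [h4, h0, h6] using h1
      · have h7 : ¬ a + n' ≤ a := by omega
        simpa [h4, h7, h6] using h1
    · have h5 : ¬ a + n' + (n - (a + b)) ≤ a + n' := by omega
      simp only [h5, if_false, Nat.add_sub_cancel_left]
      rw [show a + b + (n - (a + b)) = n by omega]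
      simp)
  omega

/-- a shortest path to a reached point -/
theorem Tn_short (hs : ValZ 𝔇 (i - 1) s) {x y : Gam p} {t : ℕ}
    (h : ∀ y ∈ Tn 𝔇 i s c x t, RC 𝔇 i s y) (hy : y ∈ Tn 𝔇 i s c x t) :
    ∃ ξ n, n ≤ t ∧ Short 𝔇 i s c ξ n ∧ ξ 0 = x ∧ ξ n * y⁻¹ ∈ K 𝔇 (i - 1) s ∧
      ∀ a ≤ n, ξ a ∈ Sat (K 𝔇 (i - 1) s) (Tn 𝔇 i s c x t) := by
  obtain ⟨ξ, n, h1, h2, h3, h4, h5⟩ := Tn_path hy
  obtain ⟨η, n', h6, h7, h8, h9⟩ := exists_short (x := ξ) (n := n)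
    ⟨fun a ha => h _ (Tn_mono x (by omega) (h4 a ha)), h5⟩
  refine ⟨η, n', by omega, h7, h8.trans h2, h3 ▸ h9, fun a ha => ?_⟩
  have := path_mem_Tn hs h7.1.2 a ha
  rw [h8, h2] at this
  exact Sat_mono le_rfl (Tn_mono x (by omega)) this

theorem Tn_qc (hR : RuleOK 𝔇 i) (hH : HYp 𝔇 (i - 1)) (hs : ValZ 𝔇 (i - 1) s) {x : Gam p} {t : ℕ}
    (h : ∀ y ∈ Tn 𝔇 i s c x t, RC 𝔇 i s y) :
    QC (dj 𝔇 (i - 1) s) (Sat (K 𝔇 (i - 1) s) (Tn 𝔇 i s c x t))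
      ((𝔇 i).κ + 4 * (𝔇 (i - 1)).δ) := by
  have hM := hH s hs
  have key : ∀ a ∈ Sat (K 𝔇 (i - 1) s) (Tn 𝔇 i s c x t), ∀ q, Btw (dj 𝔇 (i - 1) s) x q a →
      ∃ e ∈ Sat (K 𝔇 (i - 1) s) (Tn 𝔇 i s c x t), dj 𝔇 (i - 1) s q e ≤ (𝔇 i).κ := by
    rintro a ⟨k, hk, y, hy, rfl⟩ q hq
    obtain ⟨ξ, n, -, h2, h3, h4, h5⟩ := Tn_short hs h hy
    have h6 : ξ n = (ξ n * y⁻¹) * y := by simp
    obtain ⟨b, hb, h7⟩ := (hR.qg s hs c ξ n h2).2 q (by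
      unfold Btw at hq ⊢
      rw [dj_mul_right hk, dj_mul_right hk] at hq
      rw [h3, h6, dj_mul_right h4, dj_mul_right h4, hq])
    exact ⟨_, h5 b hb, h7⟩
  intro a ha b hb m hm
  obtain ⟨q, hq | hq, h1⟩ := hM.slim hm x
  · obtain ⟨e, he, h2⟩ := key a ha q (hM.btw_symm hq)
    exact ⟨e, he, by have := hM.tri m q e; omega⟩
  · obtain ⟨e, he, h2⟩ := key b hb q hq
    exact ⟨e, he, by have := hM.tri m q e; omega⟩

end path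

theorem Reach.inc {N : ℕ} {s : St p} {Q O : St p → Prop} (h : Reach 𝔇 N s Q O) (hs : Inc s) :
    Reach 𝔇 N s (fun s' => Q s' ∧ Inc s') O := by
  obtain ⟨ℱ, h1, h2⟩ := h
  exact ⟨ℱ, fun s' hs' => ⟨(h1 s' hs').1, (h1 s' hs').2.1,
    ⟨(h1 s' hs').2.2.1, (h1 s' hs').2.2.2 hs⟩, (h1 s' hs').2.2.2⟩, h2⟩

theorem geo_zero (hL : LenStmt) (h : (𝔇 0).δ = 2) : GEOp 𝔇 0 := by
  refine ⟨fun s _ => by rw [dj_zero, h]; exact (hL p).1, fun s s' _ _ hl x hx => ?_,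
    fun s s' _ _ _ x w _ hk => by rwa [K_zero] at hk ⊢, fun s s' _ _ _ a b _ => ?_⟩
  · refine ⟨hl.ne hx, fun κ h1 h2 => ?_⟩
    obtain ⟨i, _ | c⟩ := κ
    · rw [rk_none] at h1 h2
      obtain rfl : i = 1 := by omega
      exact hl x _ hx
    · rw [rk_some] at h1 h2; omega
  · rw [dj_zero, dj_zero]
    exact ⟨rfl, fun m hm => ⟨m, hm, by simp⟩⟩

end Pool.Agent.MP_735563_an.H2
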