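import Pool.Agent.MP_735563_an.H2.Spec2

set_option autoImplicit false

/-! All notions of the state theory only depend on the relevant levels. -/

namespace Pool.Agent.MP_735563_an.H2

namespace Cong

variable {p : ℕ} {𝔇 𝔇' : ℕ → Lev p}

theorem ag_mono {j i : ℕ} (h : Ag 𝔇 j 𝔇') (hi : i ≤ j) : Ag 𝔇 i 𝔇' :=
  fun k hk => h k (hk.trans hi)

theorem req_of_eq {A B : Lev p} (h : A = B) : REq A B := by
  subst h
  exact ⟨rfl, rfl, rfl, rfl, rfl, rfl, rfl, rfl, rfl, rfl, rfl⟩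

theorem K_eq {j : ℕ} (h : Ag 𝔇 j 𝔇') : K 𝔇 j = K 𝔇' j := by
  funext s
  unfold K
  congr 1
  ext u
  constructor
  · rintro ⟨i, c, x, h1, h2, h3, h4⟩
    exact ⟨i, c, x, h1, h2, h3, by rw [← h i h2]; exact h4⟩
  · rintro ⟨i, c, x, h1, h2, h3, h4⟩
    exact ⟨i, c, x, h1, h2, h3, by rw [h i h2]; exact h4⟩

theorem Kall_eq' {j : ℕ} (h : Ag 𝔇 j 𝔇') {s : St p} (hs : Lv j s) : Kall 𝔇 s = Kall 𝔇' s := by
  rw [Kall_eq hs, Kall_eq hs, K_eq h]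

theorem dj_eq {j : ℕ} (h : Ag 𝔇 j 𝔇') : dj 𝔇 j = dj 𝔇' j := by
  funext s
  unfold dj
  rw [K_eq h]

theorem core_eq {i : ℕ} (h : 𝔇 i = 𝔇' i) : core 𝔇 i = core 𝔇' i := by
  funext c z
  unfold core
  rw [h]

theorem valAt_eq {i : ℕ} (h : 𝔇 i = 𝔇' i) : ValAt 𝔇 i = ValAt 𝔇' i := by
  funext s
  unfold ValAt
  rw [h]

theorem valZ_eq {j : ℕ} (h : Ag 𝔇 j 𝔇') : ValZ 𝔇 j = ValZ 𝔇' j := by
  funext s
  unfold ValZ
  apply propext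
  refine forall_congr' fun i => forall_congr' fun _ => forall_congr' fun hi => ?_
  rw [valAt_eq (h i hi)]

theorem mk_eq {j : ℕ} (h : Ag 𝔇 j 𝔇') : mk 𝔇 (j + 1) = mk 𝔇' (j + 1) := by
  funext s x
  unfold mk
  rw [Nat.add_sub_cancel, K_eq h]

theorem cenA_eq {j : ℕ} (h : Ag 𝔇 j 𝔇') (r : REq (𝔇 (j + 1)) (𝔇' (j + 1))) :
    cenA 𝔇 (j + 1) = cenA 𝔇' (j + 1) := by
  funext s c x
  unfold cenA
  rw [mk_eq h, r.2.2.2.2.2.2.2.2.2.1]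

theorem nbA_eq {j : ℕ} (h : Ag 𝔇 j 𝔇') (r : REq (𝔇 (j + 1)) (𝔇' (j + 1))) :
    nbA 𝔇 (j + 1) = nbA 𝔇' (j + 1) := by
  funext s c x
  unfold nbA
  rw [mk_eq h, r.2.2.2.2.2.2.2.2.2.2]

theorem comp_eq {j : ℕ} (h : Ag 𝔇 j 𝔇') : Comp 𝔇 j = Comp 𝔇' j := by
  induction j with
  | zero => funext s x; simp only [Comp]
  | succ i ih =>
    funext s x
    have h1 := ih (ag_mono h (Nat.le_succ i))
    have h2 := cenA_eq (ag_mono h (Nat.le_succ i)) (req_of_eq (h (i + 1) le_rfl))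
    simp only [Comp]
    rw [h1, h2, h (i + 1) le_rfl]

theorem tow_eq {j : ℕ} (h : Ag 𝔇 j 𝔇') : Tow 𝔇 j = Tow 𝔇' j := by
  funext s
  unfold Tow
  apply propext
  refine forall_congr' fun i => forall_congr' fun h1 => forall_congr' fun hi => ?_
  obtain ⟨i, rfl⟩ : ∃ k, i = k + 1 := ⟨i - 1, by omega⟩
  have h2 := cenA_eq (ag_mono h (by omega : i ≤ j)) (req_of_eq (h (i + 1) hi))
  unfold ExA ExB ExC
  rw [h2, core_eq (h (i + 1) hi), h (i + 1) hi]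

theorem isTr_eq {s : St p} (h : Kall 𝔇 s = Kall 𝔇' s) : IsTr 𝔇 s = IsTr 𝔇' s := by
  funext F
  unfold IsTr
  rw [h]

theorem val_eq {j : ℕ} (h : Ag 𝔇 j 𝔇') (r : (𝔇 (j + 1)).nE = (𝔇' (j + 1)).nE) :
    Val 𝔇 j = Val 𝔇' j := by
  funext s
  unfold Val
  rw [valZ_eq h]
  apply propext
  refine and_congr_right fun _ => forall_congr' fun i => forall_congr' fun _ =>
    forall_congr' fun hi => ?_
  by_cases hj : i ≤ j
  · rw [h i hj]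
  · obtain rfl : i = j + 1 := by omega
    rw [r]

theorem good_eq {j : ℕ} (h : Ag 𝔇 j 𝔇') (r : (𝔇 (j + 1)).nE = (𝔇' (j + 1)).nE) :
    Good 𝔇 j = Good 𝔇' j := by
  funext s
  unfold Good
  rw [val_eq h r]
  apply propext
  refine and_congr_right fun _ => and_congr_right fun hs => ?_
  rw [isTr_eq (Kall_eq' h hs)]

theorem W_congr {s : St p} (h : Kall 𝔇 s = Kall 𝔇' s)
    (hw : ∀ x κ, s x κ ≠ 0 → wt 𝔇 κ (s x κ) = wt 𝔇' κ (s x κ)) : W 𝔇 s = W 𝔇' s := by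
  have e := isTr_eq h
  unfold W
  by_cases h1 : ∃ F, IsTr 𝔇 s F
  · have h2 : ∃ F, IsTr 𝔇' s F := by rw [← e]; exact h1
    rw [dif_pos h1, dif_pos h2]
    have e2 : h1.choose = h2.choose := by congr 1
    rw [← e2]
    exact Finset.prod_congr rfl fun a ha => hw _ _ (h1.choose_spec.1 a ha)
  · have h2 : ¬ ∃ F, IsTr 𝔇' s F := by rw [← e]; exact h1
    rw [dif_neg h1, dif_neg h2]

theorem wt_eq {i : ℕ} (h : 𝔇 i = 𝔇' i) (o : Option (Fin 3)) (z : ℕ) :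
    wt 𝔇 (i, o) z = wt 𝔇' (i, o) z := by
  cases o <;> simp only [wt, h]

theorem W_eq' {j : ℕ} (h : Ag 𝔇 j 𝔇') (r : (𝔇 (j + 1)).nE = (𝔇' (j + 1)).nE) {s : St p}
    (hs : Lv j s) : W 𝔇 s = W 𝔇' s := by
  refine W_congr (Kall_eq' h hs) ?_
  rintro x ⟨i, o⟩ hx
  by_cases hj : i ≤ j
  · exact wt_eq (h i hj) o _
  · have h2 := (hs x _ hx).2
    cases o with
    | none =>
      rw [rk_none] at h2
      obtain rfl : i = j + 1 := by omega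
      simp only [wt, r]
    | some c => rw [rk_some] at h2; omega

section rule

variable {j : ℕ} (h : Ag 𝔇 j 𝔇') (r : REq (𝔇 (j + 1)) (𝔇' (j + 1)))
include h r

theorem rc_eq : RC 𝔇 (j + 1) = RC 𝔇' (j + 1) := by
  funext s x
  unfold RC
  rw [Nat.add_sub_cancel, comp_eq h, h j le_rfl, r.2.2.2.1]

theorem adj_eq : Adj 𝔇 (j + 1) = Adj 𝔇' (j + 1) := by
  funext s c a b
  unfold Adj
  rw [Nat.add_sub_cancel, cenA_eq h r, nbA_eq h r, K_eq h]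

theorem rpath_eq : RPath 𝔇 (j + 1) = RPath 𝔇' (j + 1) := by
  funext s c x n
  unfold RPath
  rw [rc_eq h r, adj_eq h r]

theorem short_eq : Short 𝔇 (j + 1) = Short 𝔇' (j + 1) := by
  funext s c x n
  unfold Short
  rw [rpath_eq h r, Nat.add_sub_cancel, K_eq h]

theorem tn_eq : Tn 𝔇 (j + 1) = Tn 𝔇' (j + 1) := by
  funext s c x t
  induction t with
  | zero => simp only [Tn]
  | succ t ih =>
    simp only [Tn]
    rw [ih, cenA_eq h r, nbA_eq h r]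

theorem isV_eq : IsV 𝔇 (j + 1) = IsV 𝔇' (j + 1) := by
  funext c σ
  unfold IsV
  rw [Nat.add_sub_cancel, good_eq h r.2.2.2.2.2.2.2.2.1, tow_eq h, cenA_eq h r, tn_eq h r,
    r.2.2.2.2.2.1, r.2.2.2.2.2.2.1]
  apply propext
  refine and_congr_right fun hs => ?_
  rw [Kall_eq' h hs.2.1]

theorem ruleOK (H : RuleOK 𝔇 (j + 1)) : RuleOK 𝔇' (j + 1) := by
  obtain ⟨h1, h2, h3, h4, h5, h6⟩ := H
  obtain ⟨r1, r2, r3, r4, r5, r6, r7, r8, r9, r10, r11⟩ := id r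
  rw [Nat.add_sub_cancel] at h4 h5 h6
  rw [valZ_eq h] at h4 h5 h6
  rw [short_eq h r, dj_eq h] at h5 h6
  rw [rc_eq h r, adj_eq h r] at h4
  rw [K_eq h, h j le_rfl, r5] at h6
  rw [r1] at h5 h6
  rw [r2] at h5
  rw [r9] at h1
  rw [r4, r10] at h2
  rw [r11] at h2 h3
  rw [r3] at h3
  exact ⟨h1, h2, h3, h4, h5, h6⟩

theorem constA (H : ConstA 𝔇 (j + 1)) : ConstA 𝔇' (j + 1) := by
  obtain ⟨h1, h2, h3⟩ := H
  obtain ⟨r1, r2, r3, r4, r5, r6, r7, r8, r9, r10, r11⟩ := id r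
  rw [Nat.add_sub_cancel, h j le_rfl, r1, r5, r3, r4, r6] at h1
  rw [r6, r2, r7] at h2
  rw [r7, r3, r6, r8] at h3
  exact ⟨h1, h2, h3⟩

end rule

theorem modelAt {j : ℕ} (h : Ag 𝔇 (j + 1) 𝔇') {c : Fin 3} {z : ℕ}
    (H : ModelAt 𝔇 (j + 1) c z) : ModelAt 𝔇' (j + 1) c z := by
  have e := h (j + 1) le_rfl
  have h0 : Ag 𝔇 j 𝔇' := ag_mono h (Nat.le_succ j)
  have r := req_of_eq e
  have hk := Kall_eq' h H.good.2.1
  have hW : W 𝔇 ((𝔇 (j + 1)).τ c z) = W 𝔇' ((𝔇 (j + 1)).τ c z) := by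
    refine W_congr hk ?_
    rintro x ⟨i, o⟩ hx
    refine wt_eq (h i ?_) o _
    rcases H.low x _ hx with h1 | h1
    · unfold rk at h1
      simp only at h1
      omega
    · exact (Prod.mk.inj h1).1.le
  have hg : Good 𝔇' (j + 1) ((𝔇 (j + 1)).τ c z) := by
    refine ⟨⟨by rw [← valZ_eq h]; exact H.good.1.1, fun i h1 h2 x => ?_⟩, H.good.2.1,
      by rw [← isTr_eq hk]; exact H.good.2.2⟩
    by_cases hj : i ≤ j + 1
    · rw [← h i hj]; exact H.good.1.2 i h1 h2 x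
    · by_cases hx : (𝔇 (j + 1)).τ c z x (i, none) = 0
      · omega
      · rcases H.low x _ hx with h3 | h3
        · rw [rk_none] at h3; omega
        · exact absurd (Prod.mk.inj h3).2 (by simp)
  obtain ⟨a1, a2, -, a4, a5, a6, a7, a8, a9, a10, a11, a12, a13, a14, a15, a16⟩ := H
  rw [hW] at a15
  rw [Nat.add_sub_cancel] at a6 a7 a9 a12 a13
  rw [tow_eq h0] at a6
  rw [core_eq e] at a7 a8 a9 a11 a12 a14
  rw [cenA_eq h0 r, nbA_eq h0 r] at a8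
  rw [rpath_eq h0 r] at a9
  rw [K_eq h0] at a9 a13
  rw [K_eq h] at a10
  rw [dj_eq h0] at a12 a13
  rw [isV_eq h0 r] at a16
  rw [e] at hg a2 a4 a5 a6 a7 a8 a9 a10 a11 a12 a13 a14 a15 a16
  exact ⟨a1, a2, hg, a4, a5, a6, a7, a8, a9, a10, a11, a12, a13, a14, a15, a16⟩

theorem ok {i : ℕ} (h : Ag 𝔇 i 𝔇') (h1 : 1 ≤ i) (H : OK 𝔇 i) : OK 𝔇' i := by
  obtain ⟨j, rfl⟩ : ∃ k, i = k + 1 := ⟨i - 1, by omega⟩
  have e := h (j + 1) le_rfl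
  have h0 : Ag 𝔇 j 𝔇' := ag_mono h (Nat.le_succ j)
  have r := req_of_eq e
  obtain ⟨H1, H2, a1, a2, a3, a4⟩ := H
  refine ⟨ruleOK h0 r H1, constA h0 r H2, by rw [← e]; exact a1, by rw [← e]; exact a2,
    fun c z hz => modelAt h (a3 c z (by rw [e]; exact hz)), fun c σ hσ => ?_⟩
  have h2 : IsV 𝔇 (j + 1) c σ := by rw [isV_eq h0 r]; exact hσ
  rw [← e, ← W_eq' h0 r.2.2.2.2.2.2.2.2.1 h2.1.2.1]
  exact a4 c σ h2

theorem geo {j : ℕ} (h : Ag 𝔇 j 𝔇') (H : GEOp 𝔇 j) : GEOp 𝔇' j := by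
  unfold GEOp HYp MONp ABp STp at H ⊢
  rw [valZ_eq h, dj_eq h, comp_eq h, K_eq h, h j le_rfl] at H
  exact H

theorem scp {i : ℕ} (h : Ag 𝔇 i 𝔇') (h1 : 1 ≤ i) (H : SCp 𝔇 i) : SCp 𝔇' i := by
  obtain ⟨j, rfl⟩ : ∃ k, i = k + 1 := ⟨i - 1, by omega⟩
  have e := h (j + 1) le_rfl
  have h0 : Ag 𝔇 j 𝔇' := ag_mono h (Nat.le_succ j)
  unfold SCp fam at H ⊢
  rw [Nat.add_sub_cancel] at H ⊢
  rw [valZ_eq h, dj_eq h0, K_eq h0, K_eq h, core_eq e, h0 j le_rfl, e] at H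
  exact H

theorem th {j : ℕ} (h : Ag 𝔇 j 𝔇') (r : (𝔇 (j + 1)).nE = (𝔇' (j + 1)).nE) (H : Th 𝔇 j) :
    Th 𝔇' j := by
  obtain ⟨⟨a1, a2, a3⟩, a4, a5⟩ := H
  exact ⟨⟨by rw [← h 0 (Nat.zero_le j)]; exact a1,
    fun i h1 h2 => ok (ag_mono h h2) h1 (a2 i h1 h2), by rw [← r]; exact a3⟩,
    fun i hi => geo (ag_mono h hi) (a4 i hi), fun i h1 h2 => scp (ag_mono h h2) h1 (a5 i h1 h2)⟩

end Cong

open Cong in
theorem cong : CongStmt := by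
  intro p 𝔇 𝔇' j h
  refine ⟨fun i hi => ?_, fun s hs => Kall_eq' h hs,
    fun i h1 h2 H => ok (ag_mono h h2) h1 H, fun r => ?_⟩
  · have h1 := ag_mono h hi
    exact ⟨K_eq h1, valZ_eq h1, comp_eq h1, tow_eq h1, mk_eq h1⟩
  · have r9 := r.2.2.2.2.2.2.2.2.1
    exact ⟨val_eq h r9, good_eq h r9, fun s hs => W_eq' h r9 hs, cenA_eq h r, nbA_eq h r,
      rc_eq h r, adj_eq h r, tn_eq h r, isV_eq h r, ruleOK h r, constA h r, th h r9⟩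

end Pool.Agent.MP_735563_an.H2
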