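import Pool.Agent.MP_735563_an.H2.Spec1

set_option autoImplicit false

/-! Energy decay. -/

open MeasureTheory Finset

namespace Pool.Agent.MP_735563_an.H2

namespace En

theorem proj {V : Type} [AddCommGroup V] [Module ℝ V] (β : V →ₗ[ℝ] V →ₗ[ℝ] ℝ) (P : V →ₗ[ℝ] V)
    (h1 : ∀ x, 0 ≤ β x x) (h2 : ∀ x y, β (P x) y = β x (P y))
    (h3 : ∀ x y, β (P (P x)) y = β (P x) y) :
    (∀ x y, β (x - P x) (y - P y) = β (x - P x) y) ∧ ∀ x, β (x - P x) (x - P x) ≤ β x x := by
  have k : ∀ x y, β (P x) (P y) = β (P x) y := fun x y => (h2 _ _).symm.trans (h3 x y)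
  refine ⟨fun x y => ?_, fun x => ?_⟩
  · simp only [map_sub, LinearMap.sub_apply, k, ← h2]
    ring
  · have := h1 (P x)
    simp only [map_sub, LinearMap.sub_apply, k, ← h2] at this ⊢
    linarith

end En

theorem enAbs : EnAbsStmt := by
  intro V _ _ β P h0 h1 h2 h3 v h4 w hw
  have k := fun i => En.proj β (P i) h1 (h2 i) (h3 i)
  obtain ⟨q, hq⟩ : ∃ q : Fin 3 → V, ∀ i, q i = v - P i v := ⟨_, fun _ => rfl⟩
  obtain ⟨D, hD⟩ : ∃ D, D = (1 / 3 : ℝ) • (q 0 + q 1 + q 2) := ⟨_, rfl⟩
  have e : w = v - D := by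
    rw [hw, hD, hq, hq, hq, Fin.sum_univ_three]
    module
  have e1 : ∀ i, β (w - P i w) (w - P i w) ≤ β (q i) (q i) - 2 * β (q i) D + β D D := fun i => by
    have a := (k i).2 D
    have b := (k i).1 v D
    rw [← hq] at b
    rw [show w - P i w = q i - (D - P i D) by rw [e, hq, map_sub]; abel]
    generalize D - P i D = z at a b
    simp only [map_sub, LinearMap.sub_apply]
    linarith [h0 z (q i)]
  have e2 : β D D = (1 / 3) * (β (q 0) D + β (q 1) D + β (q 2) D) := by
    nth_rw 1 [hD]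
    simp only [map_smul, map_add, LinearMap.smul_apply, LinearMap.add_apply, smul_eq_mul]
  have e3 : ∀ i, β (q i) D = (1 / 3) * (β (q i) (q 0) + β (q i) (q 1) + β (q i) (q 2)) := fun i => by
    rw [hD]
    simp only [map_smul, map_add, smul_eq_mul]
  have e4 : ∀ i j, 0 ≤ β (q i) (q i) - 2 * β (q i) (q j) + β (q j) (q j) := fun i j => by
    have := h1 (q i - q j)
    simp only [map_sub, LinearMap.sub_apply] at this
    linarith [h0 (q i) (q j)]
  rw [show w - v = -D by rw [e]; abel]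
  simp only [← hq, Fin.sum_univ_three, map_neg, LinearMap.neg_apply, neg_neg] at h4 ⊢
  have := h4 0 1 (by decide)
  have := h4 0 2 (by decide)
  have := h4 1 2 (by decide)
  constructor <;> linarith [e1 0, e1 1, e1 2, e3 0, e3 1, e3 2, e4 0 1, e4 0 2, e4 1 2,
    h0 (q 0) (q 1), h0 (q 0) (q 2), h0 (q 1) (q 2)]

namespace En

variable {X : Type} [MeasurableSpace X] (μ : Measure X)

/-- square integrable functions -/
def L2 : Submodule ℝ (X → ℝ) where
  carrier := {f | MemLp f 2 μ}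
  add_mem' := MemLp.add
  zero_mem' := MemLp.zero
  smul_mem' c _ h := h.const_smul c

variable {μ}

theorem intg (f g : L2 μ) : Integrable (fun x => f.1 x * g.1 x) μ :=
  MemLp.integrable_mul (p := 2) (q := 2) f.2 g.2

variable (μ)

/-- the inner product -/
noncomputable def ip : L2 μ →ₗ[ℝ] L2 μ →ₗ[ℝ] ℝ :=
  LinearMap.mk₂ ℝ (fun f g => ∫ x, f.1 x * g.1 x ∂μ)
    (fun f g k => by simpa [add_mul] using integral_add (intg f k) (intg g k))
    (fun c f g => by simpa [mul_assoc] using integral_const_mul c _)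
    (fun f g k => by simpa [mul_add] using integral_add (intg f g) (intg f k))
    fun c f g => by simpa [mul_left_comm _ c] using integral_const_mul c _

variable {μ}

theorem ip_apply (f g : L2 μ) : ip μ f g = ∫ x, f.1 x * g.1 x ∂μ := rfl

theorem ip_self (f : L2 μ) : ip μ f f = ∫ x, f.1 x ^ 2 ∂μ := by simp only [ip_apply, pow_two]

theorem ip_nonneg (f : L2 μ) : 0 ≤ ip μ f f := integral_nonneg fun _ => mul_self_nonneg _

theorem comb (u w : L2 μ) :
    Integrable (fun x => 2 * (u.1 x * w.1 x) + 1 / 4 * (u.1 x * u.1 x + w.1 x * w.1 x)) μ ∧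
    ∫ x, 2 * (u.1 x * w.1 x) + 1 / 4 * (u.1 x * u.1 x + w.1 x * w.1 x) ∂μ =
      2 * ip μ u w + 1 / 4 * (ip μ u u + ip μ w w) := by
  have a : Integrable (fun x => u.1 x * u.1 x + w.1 x * w.1 x) μ := (intg u u).add (intg w w)
  refine ⟨((intg u w).const_mul _).add (a.const_mul _), ?_⟩
  rw [integral_add ((intg u w).const_mul _) (a.const_mul _), integral_const_mul, integral_const_mul,
    integral_add (intg u u) (intg w w)]
  rfl

variable {p : ℕ} [MulAction (Gam p) X]
  (h : ∀ g : Gam p, MeasurePreserving (fun x : X => g • x) μ μ)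

/-- translation -/
def U (g : Gam p) : L2 μ →ₗ[ℝ] L2 μ where
  toFun f := ⟨fun x => f.1 (g⁻¹ • x), MemLp.comp_measurePreserving f.2 (h g⁻¹)⟩
  map_add' _ _ := rfl
  map_smul' _ _ := rfl

theorem U_mul (g k : Gam p) (f : L2 μ) : U h g (U h k f) = U h (g * k) f :=
  Subtype.ext (funext fun x => congrArg f.1 (by rw [mul_inv_rev, mul_smul]))

theorem U_one (f : L2 μ) : U h 1 f = f :=
  Subtype.ext (funext fun x => congrArg f.1 (by rw [inv_one, one_smul]))

theorem ip_U (g : Gam p) (f k : L2 μ) : ip μ (U h g f) (U h g k) = ip μ f k := by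
  have := integral_map (h g⁻¹).measurable.aemeasurable (f := fun x => f.1 x * k.1 x)
    (by rw [(h g⁻¹).map_eq]; exact (intg f k).aestronglyMeasurable)
  rw [(h g⁻¹).map_eq] at this
  exact this.symm

variable [NeZero p]

/-- average over a factor -/
noncomputable def P (i : Fin 3) : L2 μ →ₗ[ℝ] L2 μ := (1 / p : ℝ) • ∑ a : ZMod p, U h (gen i a)

theorem P_eq (i : Fin 3) (f : L2 μ) : P h i f = (1 / p : ℝ) • ∑ a : ZMod p, U h (gen i a) f := by
  simp [P]

theorem P_apply (i : Fin 3) (f : L2 μ) (x : X) :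
    (P h i f).1 x = (1 / p : ℝ) * ∑ a : ZMod p, f.1 ((gen i a)⁻¹ • x) := by
  simp [P_eq, U]

theorem U_P (i : Fin 3) (a : ZMod p) (f : L2 μ) : U h (gen i a) (P h i f) = P h i f := by
  simp only [P_eq, map_smul, map_sum, U_mul, ← gen_add]
  exact congrArg _ (Equiv.sum_comp (Equiv.addLeft a) fun b => U h (gen i b) f)

theorem P_P (i : Fin 3) (f : L2 μ) : P h i (P h i f) = P h i f := by
  rw [P_eq h i (P h i f)]
  simp only [U_P, sum_const, card_univ, ZMod.card, ← Nat.cast_smul_eq_nsmul ℝ, smul_smul]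
  rw [one_div, inv_mul_cancel₀ (NeZero.ne _), one_smul]

theorem P_adj (i : Fin 3) (f k : L2 μ) : ip μ (P h i f) k = ip μ f (P h i k) := by
  simp only [P_eq, map_smul, map_sum, LinearMap.smul_apply, LinearMap.sum_apply]
  rw [← Equiv.sum_comp (Equiv.neg (ZMod p))]
  refine congrArg _ (sum_congr rfl fun a _ => ?_)
  rw [← ip_U h (gen i a), U_mul, ← gen_add, Equiv.neg_apply, add_neg_cancel, gen_zero, U_one]

theorem pair {N : Fin 3 → Subgroup (Gam p)} (hp : PairIneq p N)
    (hN : ∀ c, ∀ n ∈ N c, ∀ x : X, n • x = x) (v : L2 μ) (i j : Fin 3) (hij : i ≠ j) :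
    0 ≤ 2 * ip μ (v - P h i v) (v - P h j v) +
      (1 / 4) * (ip μ (v - P h i v) (v - P h i v) + ip μ (v - P h j v) (v - P h j v)) := by
  obtain ⟨c, c1, c2⟩ : ∃ c, i ≠ c ∧ j ≠ c := by
    revert i j
    decide
  obtain ⟨Tr, t1, -, t3⟩ := hp c
  have e : ∀ x g l, Qv l (fun g : Gam p => v.1 (g⁻¹ • x)) g = (U h g (v - P h l v)).1 x := by
    intro x g l
    change _ = v.1 (g⁻¹ • x) - (P h l v).1 (g⁻¹ • x)
    simp only [Qv, P_apply, mul_inv_rev, mul_smul, smul_eq_mul]
  have k0 := fun x => t3 ℝ (fun g => v.1 (g⁻¹ • x))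
    (fun y _ n hn => by rw [mul_inv_rev, mul_smul, hN c _ (inv_mem hn)]) i j c1 c2 hij
  simp only [e, ← real_inner_self_eq_norm_sq, Real.inner_apply] at k0
  generalize v - P h i v = a at k0 ⊢
  generalize v - P h j v = b at k0 ⊢
  have k := integral_nonneg (μ := μ) (f := fun x => ∑ g ∈ Tr, (2 * ((U h g a).1 x * (U h g b).1 x) +
    1 / 4 * ((U h g a).1 x * (U h g a).1 x + (U h g b).1 x * (U h g b).1 x))) k0
  rw [integral_finsetSum _ fun g _ => (comb _ _).1] at k
  simp only [(comb _ _).2, ip_U, sum_const, nsmul_eq_mul] at k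
  exact (mul_nonneg_iff_of_pos_left (Nat.cast_pos.2 t1.card_pos)).1 k

/-- the iterates -/
noncomputable def it (f : L2 μ) : ℕ → L2 μ
  | 0 => f
  | m + 1 => (1 / 3 : ℝ) • ∑ i, P h i (it f m)

theorem it_eq (f : L2 μ) (m : ℕ) : (it h f m).1 = Pw p m f.1 := by
  induction m with
  | zero =>
    funext x
    simp [it, Pw, wprod, lprod_nil]
  | succ m ih =>
    funext x
    have : (p : ℝ) ≠ 0 := NeZero.ne _
    simp only [it, Submodule.coe_smul, Submodule.coe_sum, Pi.smul_apply, Finset.sum_apply, P_apply,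
      ih, Pw, smul_eq_mul, ← mul_sum, ← sum_div]
    rw [← (Fin.consEquiv fun _ => Fin 3 × ZMod p).sum_comp, Fintype.sum_prod_type,
      Fintype.sum_prod_type]
    simp only [wprod, Fin.consEquiv_apply, List.ofFn_succ, Fin.cons_zero, Fin.cons_succ, lprod_cons,
      mul_inv_rev, mul_smul]
    field_simp
    ring

end En

open En in
theorem en (hA : EnAbsStmt) : EnStmt := by
  intro p _ N hp X _ _ μ _ h hN f b hf hb m
  let F : L2 μ := ⟨f, MemLp.of_bound hf.aestronglyMeasurable b (.of_forall hb)⟩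
  have sy : ∀ x y : L2 μ, ip μ x y = ip μ y x := fun x y => by simp only [ip_apply, mul_comm]
  have k := fun m => hA _ (ip μ) (P h) sy ip_nonneg (P_adj h) (fun i x y => by rw [P_P])
    (it h F m) (pair h hp hN _) (it h F (m + 1)) rfl
  have e : ∀ m, ∑ i, ip μ (it h F m - P h i (it h F m)) (it h F m - P h i (it h F m)) ≤
      3 * b ^ 2 * (5 / 6) ^ m := fun m => by
    induction m with
    | zero =>
      have a := fun i => (proj (ip μ) (P h i) ip_nonneg (P_adj h i) fun x y => by rw [P_P]).2 F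
      have c : ip μ F F ≤ b ^ 2 := by
        simpa [ip_apply] using integral_mono (intg F F) (integrable_const (b ^ 2)) fun x =>
          (pow_two _).symm.trans_le (sq_le_sq' (abs_le.1 (hb x)).1 (abs_le.1 (hb x)).2)
      simp only [it, Fin.sum_univ_three]
      linarith [a 0, a 1, a 2]
    | succ m ih =>
      rw [pow_succ _ m]
      linarith [(k m).1]
  have e1 := e m
  have e2 := (k m).2
  rw [ip_self] at e2
  simp only [show f = F.1 from rfl, ← it_eq h F]
  refine ⟨fun i a => ?_, le_trans e2 (by linarith)⟩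
  have e3 := single_le_sum (fun i _ => ip_nonneg (it h F m - P h i (it h F m))) (mem_univ i)
  generalize it h F m = v at e1 e3
  have e4 : U h (gen i a) v - v = U h (gen i a) (v - P h i v) - (v - P h i v) := by
    rw [map_sub, U_P]
    abel
  change ∫ x, (U h (gen i a) v - v).1 x ^ 2 ∂μ ≤ _
  rw [← ip_self, e4]
  generalize v - P h i v = z at e3
  have e5 := ip_nonneg (U h (gen i a) z + z)
  simp only [map_add, map_sub, LinearMap.add_apply, LinearMap.sub_apply, ip_U] at e5 ⊢
  linarith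

end Pool.Agent.MP_735563_an.H2
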