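import Pool.Agent.MP_735563_an.H2.SC

set_option autoImplicit false

/-! The free product of three cyclic groups, syllable length, balls. -/

namespace Pool.Agent.MP_735563_an.H2

/-- free product of three cyclic groups of order `p` -/
abbrev Gam (p : ℕ) : Type := Monoid.CoprodI (fun _ : Fin 3 => Multiplicative (ZMod p))

variable {p : ℕ}

/-- the element `a` of the `i`-th factor -/
def gen (i : Fin 3) (a : ZMod p) : Gam p :=
  Monoid.CoprodI.of (M := fun _ : Fin 3 => Multiplicative (ZMod p)) (i := i)
    (Multiplicative.ofAdd a)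

/-- product of a list of syllables -/
def lprod (l : List (Fin 3 × ZMod p)) : Gam p := (l.map fun q => gen q.1 q.2).prod

/-- syllable length -/
noncomputable def len (x : Gam p) : ℕ := sInf {n | ∃ l : List (Fin 3 × ZMod p),
  l.length = n ∧ lprod l = x}

/-- syllable metric -/
noncomputable def d0 (x y : Gam p) : ℕ := len (x⁻¹ * y)

/-- subgroup generated by the two factors different from `c` -/
def AB (c : Fin 3) : Subgroup (Gam p) :=
  Subgroup.closure {x | ∃ i a, i ≠ c ∧ x = gen i a}

theorem gen_zero (i : Fin 3) : gen i (0 : ZMod p) = 1 := by simp [gen]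

theorem gen_add (i : Fin 3) (a b : ZMod p) : gen i (a + b) = gen i a * gen i b := by
  simp [gen, ofAdd_add]

theorem gen_neg (i : Fin 3) (a : ZMod p) : gen i (-a) = (gen i a)⁻¹ := by
  rw [eq_inv_iff_mul_eq_one, ← gen_add, neg_add_cancel, gen_zero]

theorem lprod_nil : lprod ([] : List (Fin 3 × ZMod p)) = 1 := rfl

theorem lprod_cons (q : Fin 3 × ZMod p) (l : List (Fin 3 × ZMod p)) :
    lprod (q :: l) = gen q.1 q.2 * lprod l := by simp [lprod]

theorem lprod_append (l l' : List (Fin 3 × ZMod p)) : lprod (l ++ l') = lprod l * lprod l' := by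
  simp [lprod]

theorem lprod_inv (l : List (Fin 3 × ZMod p)) :
    lprod ((l.map fun q => (q.1, -q.2)).reverse) = (lprod l)⁻¹ := by
  induction l with
  | nil => simp [lprod]
  | cons q l ih =>
    rw [List.map_cons, List.reverse_cons, lprod_append, ih, lprod_cons, lprod_cons, lprod_nil,
      gen_neg]
    simp

theorem exists_lprod (x : Gam p) : ∃ l, lprod l = x := by
  induction x using Monoid.CoprodI.induction_on with
  | one => exact ⟨[], rfl⟩
  | of i m => exact ⟨[(i, Multiplicative.toAdd m)], by simp [lprod, gen]⟩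
  | mul x y hx hy =>
    obtain ⟨l, rfl⟩ := hx
    obtain ⟨l', rfl⟩ := hy
    exact ⟨l ++ l', lprod_append _ _⟩

theorem len_le (l : List (Fin 3 × ZMod p)) : len (lprod l) ≤ l.length :=
  Nat.sInf_le ⟨l, rfl, rfl⟩

theorem exists_len (x : Gam p) : ∃ l : List (Fin 3 × ZMod p), l.length = len x ∧ lprod l = x := by
  obtain ⟨l, hl⟩ := exists_lprod x
  exact Nat.sInf_mem (s := {n | ∃ l : List (Fin 3 × ZMod p), l.length = n ∧ lprod l = x})
    ⟨_, l, rfl, hl⟩

theorem len_one : len (1 : Gam p) = 0 := by
  have := len_le (p := p) []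
  simpa [lprod_nil] using this

theorem len_eq_zero {x : Gam p} (h : len x = 0) : x = 1 := by
  obtain ⟨l, h1, rfl⟩ := exists_len x
  rw [h, List.length_eq_zero_iff] at h1
  rw [h1, lprod_nil]

theorem len_mul_le (x y : Gam p) : len (x * y) ≤ len x + len y := by
  obtain ⟨l, h1, h2⟩ := exists_len x
  obtain ⟨l', h3, h4⟩ := exists_len y
  have := len_le (l ++ l')
  rw [lprod_append, h2, h4, List.length_append] at this
  omega

theorem len_inv (x : Gam p) : len x⁻¹ = len x := by
  have key : ∀ y : Gam p, len y⁻¹ ≤ len y := by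
    intro y
    obtain ⟨l, h1, h2⟩ := exists_len y
    have := len_le ((l.map fun q => (q.1, -q.2)).reverse)
    rw [lprod_inv, h2] at this
    simpa [h1] using this
  exact le_antisymm (key x) (by simpa using key x⁻¹)

theorem len_gen_le (i : Fin 3) (a : ZMod p) : len (gen i a) ≤ 1 := by
  have := len_le [(i, a)]
  simpa [lprod] using this

theorem exists_gen_of_len_le_one {x : Gam p} (h : len x ≤ 1) : ∃ i a, x = gen i a := by
  obtain ⟨l, h1, rfl⟩ := exists_len x
  match l, h1 with
  | [], _ => exact ⟨0, 0, by rw [lprod_nil, gen_zero]⟩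
  | [q], _ => exact ⟨q.1, q.2, by simp [lprod]⟩
  | _ :: _ :: _, h1 => simp at h1; omega

/-- every element splits at every position of a geodesic word -/
theorem len_split (x : Gam p) {i : ℕ} (hi : i ≤ len x) :
    ∃ y z, x = y * z ∧ len y = i ∧ len z = len x - i := by
  obtain ⟨l, h1, h2⟩ := exists_len x
  refine ⟨lprod (l.take i), lprod (l.drop i), by rw [← lprod_append, List.take_append_drop, h2],
    ?_⟩
  have h3 := len_le (l.take i)
  have h4 := len_le (l.drop i)
  have h5 := len_mul_le (lprod (l.take i)) (lprod (l.drop i))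
  rw [← lprod_append, List.take_append_drop, h2] at h5
  simp only [List.length_take, List.length_drop] at h3 h4
  omega

theorem len_succ {x : Gam p} {n : ℕ} (h : len x = n + 1) :
    ∃ y i a, x = y * gen i a ∧ len y = n := by
  obtain ⟨y, z, h1, h2, h3⟩ := len_split x (i := n) (by omega)
  obtain ⟨i, a, rfl⟩ := exists_gen_of_len_le_one (x := z) (by omega)
  exact ⟨y, i, a, h1, h2⟩

theorem d0_mul (g x y : Gam p) : d0 (g * x) (g * y) = d0 x y := by
  simp [d0, mul_assoc]

theorem d0_mul_right (x u : Gam p) : d0 x (x * u) = len u := by simp [d0]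

theorem d0_one (u : Gam p) : d0 1 u = len u := by simp [d0]

instance instCountableGam : Countable (Gam p) := by
  haveI : Countable (ZMod p) := by
    cases p with
    | zero => exact inferInstanceAs (Countable ℤ)
    | succ n => exact inferInstanceAs (Countable (Fin (n + 1)))
  exact Function.Surjective.countable (f := lprod) exists_lprod

variable [NeZero p]

/-- product of a word given as a function -/
def wprod {m : ℕ} (w : Fin m → Fin 3 × ZMod p) : Gam p := lprod (List.ofFn w)

open Classical in
/-- the ball of radius `r` -/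
noncomputable def ball (p : ℕ) [NeZero p] (r : ℕ) : Finset (Gam p) :=
  Finset.univ.image (wprod (p := p) (m := r))

theorem mem_ball {r : ℕ} {x : Gam p} : x ∈ ball p r ↔ len x ≤ r := by
  classical
  simp only [ball, Finset.mem_image, Finset.mem_univ, true_and]
  constructor
  · rintro ⟨w, rfl⟩
    have := len_le (List.ofFn w)
    simpa [wprod] using this
  · intro h
    obtain ⟨l, h1, h2⟩ := exists_len x
    have h3 : ∀ k, lprod (List.replicate k ((0 : Fin 3), (0 : ZMod p))) = 1 := by
      intro k
      induction k with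
      | zero => rfl
      | succ k ih => rw [List.replicate_succ, lprod_cons, ih, gen_zero, one_mul]
    have h4 : (l ++ List.replicate (r - len x) ((0 : Fin 3), (0 : ZMod p))).length = r := by
      simp; omega
    refine ⟨fun t => (l ++ List.replicate (r - len x) (0, 0)).get (t.cast h4.symm), ?_⟩
    unfold wprod
    have : (List.ofFn fun t : Fin r => (l ++ List.replicate (r - len x)
        ((0 : Fin 3), (0 : ZMod p))).get (t.cast h4.symm)) =
        l ++ List.replicate (r - len x) (0, 0) := by
      apply List.ext_get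
      · rw [List.length_ofFn, h4]
      · intro n h5 h6
        simp
    rw [this, lprod_append, h3, mul_one, h2]

theorem card_ball_le (r : ℕ) : (ball p r).card ≤ (3 * p) ^ r := by
  classical
  refine Finset.card_image_le.trans ?_
  simp [ZMod.card]

theorem finite_len_le (r : ℕ) : {x : Gam p | len x ≤ r}.Finite :=
  (ball p r).finite_toSet.subset fun _ hx => by simpa using mem_ball.2 hx

/-- `Φ g` minus its average over the panel of type `i` -/
noncomputable def Qv {H : Type} [NormedAddCommGroup H] [InnerProductSpace ℝ H] (i : Fin 3)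
    (Φ : Gam p → H) (g : Gam p) : H :=
  Φ g - (1 / (p : ℝ)) • ∑ a : ZMod p, Φ (g * gen i a)

/-- the angle inequality for functions invariant under the groups `N c` -/
def PairIneq (p : ℕ) [NeZero p] (N : Fin 3 → Subgroup (Gam p)) : Prop :=
  ∀ c : Fin 3, ∃ Tr : Finset (Gam p), Tr.Nonempty ∧ (∀ g ∈ Tr, g ∈ AB c) ∧
    ∀ (H : Type) [NormedAddCommGroup H] [InnerProductSpace ℝ H] (Φ : Gam p → H),
      (∀ x ∈ AB c, ∀ n ∈ N c, Φ (x * n) = Φ x) → ∀ i j, i ≠ c → j ≠ c → i ≠ j →
      0 ≤ ∑ g ∈ Tr, (2 * inner ℝ (Qv i Φ g) (Qv j Φ g) +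
        (1 / 4) * (‖Qv i Φ g‖ ^ 2 + ‖Qv j Φ g‖ ^ 2))

/-- the level one groups -/
structure NData (p : ℕ) [NeZero p] (N : Fin 3 → Subgroup (Gam p)) (g : ℕ) : Prop where
  two : 2 ≤ p
  le : ∀ c, N c ≤ AB c
  normal : ∀ c, ∀ x ∈ AB c, ∀ n ∈ N c, x * n * x⁻¹ ∈ N c
  diam : ∃ D, ∀ c, ∀ x ∈ AB c, ∃ n ∈ N c, len (n * x) ≤ D
  girth : ∀ c, ∀ n ∈ N c, n ≠ 1 → g ≤ len n
  pair : PairIneq p N

/-- the Markov operator of `m` random syllables -/
noncomputable def Pw (p : ℕ) [NeZero p] {X : Type} [MulAction (Gam p) X] (m : ℕ) (f : X → ℝ)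
    (x : X) : ℝ :=
  (∑ w : Fin m → Fin 3 × ZMod p, f ((wprod w)⁻¹ • x)) / (3 * p) ^ m

end Pool.Agent.MP_735563_an.H2
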