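import Mathlib

set_option autoImplicit false

/-! Natural number valued hyperbolic geodesic pseudo metrics: definitions and a small toolkit. -/

namespace Pool.Agent.MP_735563_an.H2

section Geo

variable {V : Type}

/-- `m` lies between `x` and `y` -/
def Btw (d : V → V → ℕ) (x m y : V) : Prop := d x m + d m y = d x y

/-- geodesic pseudo metric with the four point condition -/
structure Met (d : V → V → ℕ) (δ : ℕ) : Prop where
  refl : ∀ x, d x x = 0
  symm : ∀ x y, d x y = d y x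
  tri : ∀ x y z, d x z ≤ d x y + d y z
  geo : ∀ x y i, i ≤ d x y → ∃ m, d x m = i ∧ Btw d x m y
  four : ∀ x y z w, d x y + d z w ≤ max (d x z + d y w) (d x w + d y z) + 2 * δ

/-- quasi convex set (all points between two points of `C` are near `C`) -/
def QC (d : V → V → ℕ) (C : Set V) (κ : ℕ) : Prop :=
  ∀ a ∈ C, ∀ b ∈ C, ∀ m, Btw d a m b → ∃ c ∈ C, d m c ≤ κ

/-- `c` is a nearest point of `C` to `y` -/
def Prj (d : V → V → ℕ) (C : Set V) (y c : V) : Prop := c ∈ C ∧ ∀ c' ∈ C, d y c ≤ d y c'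

variable {d : V → V → ℕ} {δ : ℕ}

theorem Met.mono {δ' : ℕ} (h : Met d δ) (hδ : δ ≤ δ') : Met d δ' :=
  ⟨h.refl, h.symm, h.tri, h.geo, fun x y z w => by have := h.four x y z w; omega⟩

theorem QC.mono {C : Set V} {κ κ' : ℕ} (h : QC d C κ) (hκ : κ ≤ κ') : QC d C κ' :=
  fun a ha b hb m hm => by
    obtain ⟨c, hc, h1⟩ := h a ha b hb m hm
    exact ⟨c, hc, h1.trans hκ⟩

theorem exists_prj (d : V → V → ℕ) {C : Set V} (hC : C.Nonempty) (y : V) : ∃ c, Prj d C y c := by
  classical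
  have hex : ∃ n, ∃ c ∈ C, d y c = n := by
    obtain ⟨c, hc⟩ := hC
    exact ⟨_, c, hc, rfl⟩
  obtain ⟨c, hc, h1⟩ := Nat.find_spec hex
  exact ⟨c, hc, fun c' hc' => by
    rw [h1]; exact Nat.find_min' hex ⟨c', hc', rfl⟩⟩

theorem Met.btw_symm (h : Met d δ) {x m y : V} (hm : Btw d x m y) : Btw d y m x := by
  unfold Btw at *
  have := h.symm x m; have := h.symm m y; have := h.symm x y; omega

theorem Met.btw_left (h : Met d δ) (x y : V) : Btw d x x y := by
  unfold Btw; have := h.refl x; omega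

theorem Met.btw_right (h : Met d δ) (x y : V) : Btw d x y y := by
  unfold Btw; have := h.refl y; omega

/-- a point between `x` and a point between `x` and `y` -/
theorem Met.btw_trans_left (h : Met d δ) {x m m' y : V} (hm : Btw d x m y) (hm' : Btw d x m' m) :
    Btw d x m' y ∧ Btw d m' m y := by
  unfold Btw at *
  have := h.tri m' m y; have := h.tri x m' y; omega

theorem Met.btw_trans_right (h : Met d δ) {x m m' y : V} (hm : Btw d x m y) (hm' : Btw d m m' y) :
    Btw d x m' y ∧ Btw d x m m' := by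
  unfold Btw at *
  have := h.tri x m m'; have := h.tri x m' y; omega

/-- a point almost between `x` and `y` is near the points between at a close parameter -/
theorem Met.near (h : Met d δ) {x y a m : V} {r r' : ℕ} (ha : d x a + d a y ≤ d x y + r)
    (hm : Btw d x m y) (h1 : d x m ≤ d x a + r') (h2 : d x a ≤ d x m + r') :
    d m a ≤ r + r' + 2 * δ := by
  unfold Btw at hm
  have := h.four x y a m
  have := h.symm a m; have := h.symm y m; have := h.symm y a
  omega

/-- synchronous fellow travelling of geodesics with a common start -/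
theorem Met.sync (h : Met d δ) {x y z p q : V} {r : ℕ} (hp : Btw d x p y) (hq : Btw d x q z)
    (he : d x p = d x q) (hr : d y z ≤ r) : d p q ≤ 2 * r + 2 * δ := by
  unfold Btw at hp hq
  have := h.four p q y x
  have := h.tri q z y; have := h.tri x y z
  have := h.symm p x; have := h.symm q x; have := h.symm y x; have := h.symm z y
  omega

theorem Met.slim_aux (h : Met d δ) {x p y z : V} (hp : Btw d x p y)
    (hc : 2 * d x p + d y z ≤ d x y + d x z) : ∃ q, Btw d x q z ∧ d x q = d x p ∧ d p q ≤ 4 * δ := by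
  have h0 : d x p ≤ d x z := by
    have := h.tri x z y; have := h.symm z y; omega
  obtain ⟨q, hq1, hq2⟩ := h.geo x z _ h0
  refine ⟨q, hq2, hq1, ?_⟩
  unfold Btw at hp hq2
  have := h.four p q y x
  have := h.four q y z x
  have := h.symm p x; have := h.symm q x; have := h.symm y x; have := h.symm z x
  omega

/-- triangles are slim -/
theorem Met.slim (h : Met d δ) {x p y : V} (hp : Btw d x p y) (z : V) :
    ∃ q, (Btw d x q z ∨ Btw d z q y) ∧ d p q ≤ 4 * δ := by
  by_cases hc : 2 * d x p + d y z ≤ d x y + d x z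
  · obtain ⟨q, h1, -, h2⟩ := h.slim_aux hp hc
    exact ⟨q, Or.inl h1, h2⟩
  · have hc' : 2 * d y p + d x z ≤ d y x + d y z := by
      unfold Btw at hp
      have := h.symm y p; have := h.symm y x; omega
    obtain ⟨q, h1, -, h2⟩ := h.slim_aux (h.btw_symm hp) hc'
    exact ⟨q, Or.inr (h.btw_symm h1), h2⟩

/-- quadrilaterals are slim -/
theorem Met.slim4 (h : Met d δ) {x p y : V} (hp : Btw d x p y) (a b : V) :
    ∃ q, (Btw d x q a ∨ Btw d a q b ∨ Btw d b q y) ∧ d p q ≤ 8 * δ := by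
  obtain ⟨q, h1 | h1, h2⟩ := h.slim hp a
  · exact ⟨q, Or.inl h1, by omega⟩
  · obtain ⟨q', h3, h4⟩ := h.slim h1 b
    exact ⟨q', Or.inr h3, by have := h.tri p q q'; omega⟩

/-- polygons are slim -/
theorem Met.polygon (h : Met d δ) (x : ℕ → V) : ∀ (n : ℕ) (m : V), Btw d (x 0) m (x (n + 1)) →
    ∃ k ≤ n, ∃ q, Btw d (x k) q (x (k + 1)) ∧ d m q ≤ 4 * δ * n := by
  intro n
  induction n with
  | zero => intro m hm; exact ⟨0, le_rfl, m, hm, by rw [h.refl]; omega⟩
  | succ n ih =>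
    intro m hm
    obtain ⟨q, h1 | h1, h2⟩ := h.slim hm (x (n + 1))
    · obtain ⟨k, hk, q', h3, h4⟩ := ih q h1
      refine ⟨k, by omega, q', h3, ?_⟩
      have := h.tri m q q'
      rw [Nat.mul_succ]; omega
    · refine ⟨n + 1, le_rfl, q, h1, ?_⟩
      rw [Nat.mul_succ]; omega

/-- an almost nearest point of a quasi convex set is almost between -/
theorem Met.prj1 (h : Met d δ) {C : Set V} {κ a : ℕ} (hC : QC d C κ) {y c c' : V} (hc : c ∈ C)
    (hm : ∀ e ∈ C, d y c ≤ d y e + a) (hc' : c' ∈ C) :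
    d y c + d c c' ≤ d y c' + 2 * (κ + a + 4 * δ) + 1 := by
  have t1 := h.tri c y c'
  have t2 := h.tri y c c'
  have t3 := h.tri y c' c
  have s1 := h.symm c y
  have s2 := h.symm c' c
  have s3 := h.symm c' y
  obtain ⟨m, hm1, hm2⟩ := h.geo c c' ((d c c' + d c y - d c' y) / 2) (by omega)
  obtain ⟨q, hq1, hq2, hq3⟩ := h.slim_aux (z := y) hm2 (by omega)
  obtain ⟨e, he, he1⟩ := hC c hc c' hc' m hm2
  have := hm e he
  have := h.tri y q e
  have := h.tri q m e
  have := h.symm q m; have := h.symm y q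
  unfold Btw at hq1
  omega

/-- bridge lemma -/
theorem Met.bridge (h : Met d δ) {C : Set V} {κ : ℕ} (hC : QC d C κ) {y y' c c' : V}
    (hc : Prj d C y c) (hc' : Prj d C y' c') :
    d c c' ≤ 2 * κ + 9 * δ + 1 ∨ d y c + d c c' + d c' y' ≤ d y y' + 4 * κ + 18 * δ + 2 := by
  have h1 := h.prj1 (a := 0) hC hc.1 (fun e he => by simpa using hc.2 e he) hc'.1
  have h2 := h.prj1 (a := 0) hC hc'.1 (fun e he => by simpa using hc'.2 e he) hc.1
  have := h.four y c' y' c
  have := h.symm c' c; have := h.symm c' y'; have := h.symm y' c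
  omega

/-- a set between a quasi convex set and its neighbourhood -/
theorem Met.sandwich (h : Met d δ) {S S' : Set V} {κ l : ℕ} (hS : QC d S κ) (h1 : S ⊆ S')
    (h2 : ∀ x ∈ S', ∃ s ∈ S, d x s ≤ l) : QC d S' (κ + l + 8 * δ) := by
  intro a ha b hb m hm
  obtain ⟨a', ha', ha1⟩ := h2 a ha
  obtain ⟨b', hb', hb1⟩ := h2 b hb
  obtain ⟨q, h3 | h3 | h3, h4⟩ := h.slim4 hm a' b'
  · refine ⟨a, ha, ?_⟩
    unfold Btw at h3; have := h.tri m q a; have := h.symm q a; omega
  · obtain ⟨c, hc, h5⟩ := hS a' ha' b' hb' q h3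
    exact ⟨c, h1 hc, by have := h.tri m q c; omega⟩
  · refine ⟨b, hb, ?_⟩
    unfold Btw at h3; have := h.tri m q b; have := h.symm b' b; omega

/-- a set between two consecutive thick neighbourhoods of a quasi convex set -/
theorem Met.thick (h : Met d δ) {S S' : Set V} {κ k : ℕ} (hS : QC d S κ) (hk : κ ≤ k)
    (h1 : ∀ x, (∃ s ∈ S, d x s ≤ k) → x ∈ S') (h2 : ∀ x ∈ S', ∃ s ∈ S, d x s ≤ k + 1) :
    QC d S' (8 * δ + 1) := by
  have key : ∀ q s, s ∈ S → d q s ≤ k + 1 → ∃ c ∈ S', d q c ≤ 1 := by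
    intro q s hs hq
    by_cases h0 : d q s = 0
    · exact ⟨q, h1 q ⟨s, hs, by omega⟩, by rw [h.refl]; omega⟩
    · obtain ⟨c, hc1, hc2⟩ := h.geo q s 1 (by omega)
      unfold Btw at hc2
      exact ⟨c, h1 c ⟨s, hs, by omega⟩, by omega⟩
  intro a ha b hb m hm
  obtain ⟨a', ha', ha1⟩ := h2 a ha
  obtain ⟨b', hb', hb1⟩ := h2 b hb
  obtain ⟨q, h3 | h3 | h3, h4⟩ := h.slim4 hm a' b'
  · obtain ⟨c, hc, h5⟩ := key q a' ha' (by unfold Btw at h3; omega)
    exact ⟨c, hc, by have := h.tri m q c; omega⟩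
  · obtain ⟨s, hs, h5⟩ := hS a' ha' b' hb' q h3
    obtain ⟨c, hc, h5⟩ := key q s hs (by omega)
    exact ⟨c, hc, by have := h.tri m q c; omega⟩
  · obtain ⟨c, hc, h5⟩ := key q b' hb' (by
      unfold Btw at h3; have := h.symm b' b; have := h.symm b' q; omega)
    exact ⟨c, hc, by have := h.tri m q c; omega⟩

/-- union of a quasi convex set with quasi convex sets near it -/
theorem Met.star (h : Met d δ) {S : Set V} {𝒞 : Set (Set V)} {κ κ' l : ℕ} (hS : QC d S κ)
    (hC : ∀ C ∈ 𝒞, QC d C κ' ∧ ∃ c ∈ C, ∃ s ∈ S, d c s ≤ l) :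
    QC d (S ∪ ⋃₀ 𝒞) (κ + κ' + l + 12 * δ) := by
  have key : ∀ a ∈ S ∪ ⋃₀ 𝒞, ∃ s ∈ S, ∀ q, Btw d a q s →
      ∃ c ∈ S ∪ ⋃₀ 𝒞, d q c ≤ κ' + l + 4 * δ := by
    rintro a (ha | ⟨C, hC1, ha⟩)
    · refine ⟨a, ha, fun q hq => ⟨a, Or.inl ha, ?_⟩⟩
      unfold Btw at hq; have := h.refl a; omega
    · obtain ⟨hq, c, hc, s, hs, hcs⟩ := hC C hC1
      refine ⟨s, hs, fun q hq' => ?_⟩
      obtain ⟨q', h3 | h3, h4⟩ := h.slim hq' c
      · obtain ⟨e, he, h5⟩ := hq a ha c hc q' h3
        exact ⟨e, Or.inr ⟨C, hC1, he⟩, by have := h.tri q q' e; omega⟩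
      · refine ⟨s, Or.inl hs, ?_⟩
        unfold Btw at h3; have := h.tri q q' s; omega
  intro a ha b hb m hm
  obtain ⟨a', ha', ha1⟩ := key a ha
  obtain ⟨b', hb', hb1⟩ := key b hb
  obtain ⟨q, h3 | h3 | h3, h4⟩ := h.slim4 hm a' b'
  · obtain ⟨c, hc, h5⟩ := ha1 q h3
    exact ⟨c, hc, by have := h.tri m q c; omega⟩
  · obtain ⟨c, hc, h5⟩ := hS a' ha' b' hb' q h3
    exact ⟨c, Or.inl hc, by have := h.tri m q c; omega⟩
  · obtain ⟨c, hc, h5⟩ := hb1 q (h.btw_symm h3)
    exact ⟨c, hc, by have := h.tri m q c; omega⟩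

/-- discrete geodesic paths -/
theorem Met.path (h : Met d δ) (x y : V) : ∃ f : ℕ → V, f 0 = x ∧ d (f (d x y)) y = 0 ∧
    ∀ i j, i ≤ j → j ≤ d x y → d (f i) (f j) = j - i ∧ d (f j) y = d x y - j := by
  classical
  have step : ∀ a : V, ∃ b : V, d a y ≠ 0 → d a b = 1 ∧ Btw d a b y := by
    intro a
    by_cases h0 : d a y = 0
    · exact ⟨a, fun h1 => absurd h0 h1⟩
    · obtain ⟨b, hb⟩ := h.geo a y 1 (by omega)
      exact ⟨b, fun _ => hb⟩
  choose nx hnx using step
  have h1 : ∀ j, j ≤ d x y → d (nx^[j] x) y = d x y - j := by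
    intro j
    induction j with
    | zero => intro _; simp
    | succ j ih =>
      intro hj
      have := ih (by omega)
      obtain ⟨h2, h3⟩ := hnx (nx^[j] x) (by omega)
      rw [Function.iterate_succ_apply']
      unfold Btw at h3; omega
  have h2 : ∀ i k, i + k ≤ d x y → d (nx^[i] x) (nx^[i + k] x) ≤ k := by
    intro i k
    induction k with
    | zero => intro _; simp [h.refl]
    | succ k ih =>
      intro hk
      have := ih (by omega)
      have h3 := h1 (i + k) (by omega)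
      obtain ⟨h4, -⟩ := hnx (nx^[i + k] x) (by omega)
      rw [← Nat.add_assoc, Function.iterate_succ_apply']
      have := h.tri (nx^[i] x) (nx^[i + k] x) (nx (nx^[i + k] x))
      omega
  refine ⟨fun j => nx^[j] x, rfl, by simpa using h1 _ le_rfl, fun i j hij hj => ⟨?_, h1 j hj⟩⟩
  have h3 := h2 i (j - i) (by omega)
  rw [show i + (j - i) = j by omega] at h3
  have h4 := h1 i (by omega)
  have h5 := h1 j hj
  have := h.tri (nx^[i] x) (nx^[j] x) y
  show d (nx^[i] x) (nx^[j] x) = j - i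
  omega

end Geo

end Pool.Agent.MP_735563_an.H2
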