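import Pool.Agent.MP_735563_an.H2.Spec2

set_option autoImplicit false

/-! Transfer of quasi convexity to extensions, and elements with small displacement. -/

namespace Pool.Agent.MP_735563_an.H2

theorem qct : QCTStmt := by
  intro p 𝔇 i hST s s' P κ hs hs' hl hP hQ hC
  have key : ∀ a ∈ P, ∀ b ∈ P, dj 𝔇 i s' a b = dj 𝔇 i s a b ∧
      ∀ m', Btw (dj 𝔇 i s') a m' b → ∃ m, Btw (dj 𝔇 i s) a m b ∧ m' * m⁻¹ ∈ K 𝔇 i s' :=
    fun a ha b hb => hST s s' hs hs' hl a b fun m hm u hu => hC _ (by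
      rw [← Nb_Nb]
      exact mul_mem_Nb ((mem_Nb_iff_dj hP).2 (hQ a ha b hb m hm)) hu)
  refine ⟨?_, fun a ha b hb => (key a ha b hb).1, fun a ha b hb => (key a ha b hb).2⟩
  rintro _ ⟨k, hk, a, ha, rfl⟩ _ ⟨k', hk', b, hb, rfl⟩ m' hm'
  unfold Btw at hm'
  rw [dj_mul_left hk, dj_mul_left hk, dj_mul_right hk', dj_mul_right hk'] at hm'
  obtain ⟨m, h1, h2⟩ := (key a ha b hb).2 m' hm'
  obtain ⟨c, hc, h3⟩ := hQ a ha b hb m h1
  refine ⟨c, subset_Sat _ _ hc, ?_⟩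
  have h4 := dj_mul_left h2 m c
  rw [inv_mul_cancel_right] at h4
  rw [h4]
  exact (dj_anti le_rfl hl m c).trans h3

theorem rsUp (h : QCTStmt) : RSUpStmt := by
  intro p 𝔇 N i hT hi s s' F k hs hs' hl hK hR
  rcases hR with ⟨x₀, h1, h2⟩ | ⟨κ, h1, h2, h3⟩
  · exact Or.inl ⟨x₀, h1, hK.trans (sup_le (h2.trans (K_mono le_rfl hl)) le_rfl)⟩
  · obtain ⟨-, hM, -, hS⟩ := hT.2.1 i hi
    have hv := hs.1.1.mono hi
    have hv' := hs'.1.1.mono hi
    have e : Sat (Kall 𝔇 s') F = Sat (K 𝔇 i s') (Sat (Kall 𝔇 s) F) := by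
      rw [← Sat_Kall_eq hs' hl hK fun _ hk _ hy => mul_mem_Sat hk hy, Sat_Sat (Kall_mono hl)]
    refine Or.inr ⟨κ, h1, ?_, ?_⟩
    · rw [e]
      exact (h p 𝔇 i hS s s' _ κ hv hv' hl
        (fun _ hk _ hy => mul_mem_Sat (K_le_Kall i s hk) hy) h2 h3).1
    · rw [e, ← Sat_Nb]
      rintro _ ⟨g, hg, y, hy, rfl⟩
      exact (Comp_stab (hv'.stab hg)).2 (hM s s' hv hv' hl y (h3 y hy)).1

theorem ir (h : DispStmt) : IRStmt := by
  intro p 𝔇 N i hT h1 hi s hs b k hk hd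
  have key : ∀ j, i - 1 ≤ j → j ≤ N → k ∈ K 𝔇 j s → k ∈ K 𝔇 (i - 1) s := by
    intro j
    induction j with
    | zero =>
      intro h2 _ h3
      rwa [Nat.le_zero.1 h2]
    | succ j ih =>
      intro h2 h3 h4
      by_cases h5 : i - 1 = j + 1
      · rwa [h5]
      · refine ih (by omega) (by omega) ?_
        by_contra h6
        have h7 := h _ _ _ _ _ _ _ _ _ _ (hT.2.2 (j + 1) (by omega) h3 s (hs.mono h3)) b k h4 h6
        have h8 := dj_anti (𝔇 := 𝔇) (j := i - 1) (j' := j + 1 - 1) (by omega) (Le.refl s) b (k * b)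
        have h9 := hT.1.g_mono h1 (show i ≤ j + 1 by omega) h3
        omega
  exact key N (by omega) le_rfl hk

end Pool.Agent.MP_735563_an.H2
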