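import Pool.Agent.MP_735563_an.H2.Spec3
import Pool.Agent.MP_735563_an.H34.Space
import Pool.Agent.MP_735563_an.H20.CDef2

set_option autoImplicit false

/-! The rule of a task level. The local predicates are defined at the base point `1`. -/

namespace Pool.Agent.MP_735563_an.H2

variable {p : ℕ}

/-- the structure seen from `u` -/
def pt (M : MS p) (u : Gam p) : MS p := trM u⁻¹ M

/-- coset pseudo metric -/
noncomputable def dM (M : MS p) : Gam p → Gam p → ℕ := qd M.2 d0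

/-- the classes -/
abbrev Cls (M : MS p) : Type := Quotient (QuotientGroup.rightRel M.2)

/-- the class of a point -/
def cls (M : MS p) (u : Gam p) : Cls M := Quotient.mk _ u

/-- distance of classes -/
noncomputable def dC (M : MS p) (q q' : Cls M) : ℕ := dM M q.out q'.out

/-- parameters of a rule -/
structure RP (p : ℕ) where
  i : ℕ
  n : ℕ
  L : ℕ
  m : ℕ
  hn : 0 < n
  Q : ℕ
  τ : MS p → Fin 4 → Gam p
  l : ℕ
  R : ℕ
  U : ℕ
  k₁ : ℕ
  k₂ : ℕ

namespace RP

variable (P : RP p)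

/-- flag and words of a point -/
abbrev Lam : Type := Cnt.Lab P.n P.L P.m

instance : Nonempty P.Lam := ⟨(⟨0, P.hn⟩, fun _ _ => 0)⟩

/-- number of mark values -/
def nE : ℕ := P.Q * Fintype.card P.Lam

/-- flag and words read from a mark value -/
noncomputable def lamV (v : ℕ) : P.Lam :=
  (Fintype.equivFin P.Lam).symm ⟨(v - 1) % Fintype.card P.Lam, Nat.mod_lt _ Fintype.card_pos⟩

/-- colour read from a mark value -/
def colV (v : ℕ) : ℕ := (v - 1) / Fintype.card P.Lam % P.Q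

/-- the mark value with given colour, flag and words -/
noncomputable def mkV (a : ℕ) (b : P.Lam) : ℕ :=
  a * Fintype.card P.Lam + Fintype.equivFin P.Lam b + 1

noncomputable def lam (M : MS p) : P.Lam := P.lamV (M.1 1 (P.i, none))

def col (M : MS p) : ℕ := P.colV (M.1 1 (P.i, none))

/-- the base point is flagged -/
def fl (M : MS p) : Prop := ((P.lam M).1 : ℕ) = 0

/-- the word in a slot -/
noncomputable def word (M : MS p) (k : Fin P.L) : List (Fin 4) := List.ofFn ((P.lam M).2 k)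

/-- one step of the task -/
def T (M : MS p) (i : Fin 4) : MS p := pt M (P.τ M i)

/-- the step `i` is inverted by the step `i + 2` -/
def ok0 (M : MS p) (i : Fin 4) : Prop := P.τ M i * P.τ (P.T M i) (i + 2) ∈ M.2

/-- colour collision -/
def Coll (M : MS p) : Prop := ∃ s, len s ≤ 2 * P.R ∧ s ∉ M.2 ∧ P.col (pt M s) = P.col M

open Classical in
/-- a dense finite set of classes -/
def Dense (M : MS p) (σ : Finset (Gam p)) : Prop :=
  (∀ s ∈ σ, ∀ t ∈ σ, t * s⁻¹ ∈ M.2 → s = t) ∧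
    3 * σ.card < ((σ ×ˢ (Finset.univ : Finset (Fin 4))).filter fun q =>
      P.ok0 (pt M q.1) q.2 ∧ ∃ t ∈ σ, t * (q.1 * P.τ (pt M q.1) q.2)⁻¹ ∈ M.2).card

/-- anchor of the round `q`, `C` being the points covered earlier -/
def Act (q : ℕ × Finset (Gam p)) (C : MS p → Prop) (M : MS p) : Prop :=
  P.col M = q.1 ∧ ¬ P.Coll M ∧ P.Dense M q.2 ∧ ∀ s ∈ q.2, ¬ C (pt M s)

/-- points covered by the greedy packing -/
def Cov : List (ℕ × Finset (Gam p)) → MS p → Prop
  | [], _ => False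
  | q :: L, M => Cov L M ∨ ∃ s ∈ q.2, P.Act q (Cov L) (pt M s⁻¹)

/-- position after a word -/
def pos : MS p → List (Fin 4) → Gam p
  | _, [] => 1
  | M, i :: w => P.τ M i * pos (P.T M i) w

/-- end of the walk of a slot -/
noncomputable def en (M : MS p) (k : Fin P.L) : Gam p := P.pos M (P.word M k)

variable [NeZero p]

/-- all rounds -/
noncomputable def rounds : List (ℕ × Finset (Gam p)) :=
  (Finset.range P.Q ×ˢ (ball p P.R).powerset).toList

def Pack (M : MS p) : Prop := P.Cov P.rounds M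

def Out (M : MS p) : Prop := P.Coll M ∨ P.Pack M

/-- admissible step -/
def ok (M : MS p) (i : Fin 4) : Prop := P.ok0 M i ∧ ¬ P.Out M ∧ ¬ P.Out (P.T M i)

/-- all steps of the word are admissible -/
def runs : MS p → List (Fin 4) → Prop
  | _, [] => True
  | M, i :: w => P.ok M i ∧ runs (P.T M i) w

/-- all words of length `m` are admissible -/
def Full (M : MS p) : Prop := ∀ w : Fin P.m → Fin 4, P.runs M (List.ofFn w)

open Classical in
/-- the steps between classes -/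
noncomputable def st (M : MS p) (q : Cls M) (i : Fin 4) : Option (Cls M) :=
  if P.ok (pt M q.out) i then some (cls M (q.out * P.τ (pt M q.out) i)) else none

omit [NeZero p] in
/-- the labels of the classes -/
noncomputable def β (M : MS p) (q : Cls M) : P.Lam := P.lam (pt M q.out)

/-- final edges -/
def FE (M : MS p) : Cls M × Fin P.L → Cls M → Prop :=
  Cnt.Fe (P.st M) (P.β M) (fun k q q' => dC M q q' ≤ 1000 * k) (fun q q' => dC M q q' ≤ P.U)
    P.k₁ P.k₂

/-- a final edge leaves the base point in the slot `k` -/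
def Fo (ρ : ℕ) (M : MS p) (k : Fin P.L) : Prop :=
  ∃ M', Inv M' ∧ Agree P.i ρ M M' ∧ ∃ y, P.FE M' (cls M' 1, k) y

omit [NeZero p] in
def cen (M : MS p) (c : Fin 3) : Prop := c = 0 ∧ P.fl M

def nb (ρ : ℕ) (M : MS p) (c : Fin 3) : Set (Gam p) :=
  {w | c = 0 ∧ len w ≤ P.m * P.l ∧ ∃ M', Inv M' ∧ Agree P.i ρ M M' ∧
    ∃ e, Cnt.Step (P.FE M') (cls M' 1) e (cls M' w)}

/-- final edges at the base point only depend on the ball of radius `ρ` -/
def TrP (ρ : ℕ) : Prop := ∀ M M', Inv M → Inv M' → Agree P.i ρ M M' → ∀ w, len w ≤ P.m * P.l →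
  ∀ k, (P.FE M (cls M 1, k) (cls M w) → P.FE M' (cls M' 1, k) (cls M' w)) ∧
    (P.FE M (cls M w, k) (cls M 1) → P.FE M' (cls M' w, k) (cls M' 1))

open Classical in
/-- number of final edges leaving the base point -/
noncomputable def nfo (ρ : ℕ) (M : MS p) : ℝ :=
  ((Finset.univ.filter fun k : Fin P.L => P.Fo ρ M k).card : ℝ)

omit [NeZero p] in
/-- basic requirements -/
structure Bas : Prop where
  len : ∀ M i, len (P.τ M i) ≤ P.l
  loc : ∃ r, LocA (P.i - 1) r P.τ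
  two : 2 ≤ P.i
  Q : 0 < P.Q
  R : 2 * ((P.k₂ + 1) * (P.m * P.l)) + 3 * (P.m * P.l) + P.l ≤ P.R

end RP

/-! ### basic facts -/

theorem pt_one (M : MS p) : pt M 1 = M := by simp [pt, trM_one]

theorem pt_mul (M : MS p) (u v : Gam p) : pt M (u * v) = pt (pt M u) v := by
  simp [pt, trM_mul]

theorem mem_pt {M : MS p} {u x : Gam p} : x ∈ (pt M u).2 ↔ u * x * u⁻¹ ∈ M.2 := by
  simp [pt, trM, mem_cjs]

theorem pt_lab (M : MS p) (u x : Gam p) : (pt M u).1 x = M.1 (u * x) := by simp [pt, trM, tr]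

theorem Inv.pt {M : MS p} (h : Inv M) (u : Gam p) : Inv (pt M u) := h.trM _

theorem Inv.pt_eq {M : MS p} (h : Inv M) {u v : Gam p} (huv : v * u⁻¹ ∈ M.2) :
    H2.pt M v = H2.pt M u := by
  have h1 : H2.pt M (v * u⁻¹) = M := h.fix (inv_mem huv)
  rw [show v = v * u⁻¹ * u by simp, pt_mul, h1]

theorem mk_pt {𝔇 : ℕ → Lev p} (i : ℕ) (s : St p) (x : Gam p) :
    mk 𝔇 i s x = pt (s, K 𝔇 (i - 1) s) x := rfl

theorem inv_of_valZ {𝔇 : ℕ → Lev p} {j : ℕ} {s : St p} (h : ValZ 𝔇 j s) :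
    Inv (s, K 𝔇 j s) := fun _ hk => h.stab hk

theorem cls_eq {M : MS p} {u v : Gam p} : cls M u = cls M v ↔ v * u⁻¹ ∈ M.2 := by
  rw [cls, cls, Quotient.eq, QuotientGroup.rightRel_apply]

theorem cls_out {M : MS p} (q : Cls M) : cls M q.out = q := Quotient.out_eq q

theorem out_cls {M : MS p} (u : Gam p) : u * ((cls M u).out)⁻¹ ∈ M.2 := cls_eq.1 (cls_out _)

theorem cls_surj {M : MS p} (q : Cls M) : ∃ u, cls M u = q := ⟨_, cls_out q⟩

theorem exists_dM (M : MS p) (x y : Gam p) : ∃ w, len w = dM M x y ∧ x * w * y⁻¹ ∈ M.2 := by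
  obtain ⟨h, hh, h1⟩ := exists_qd M.2 d0 x y
  exact ⟨x⁻¹ * (h * y), h1, by simpa using hh⟩

theorem dM_le {M : MS p} {x y w : Gam p} (h : x * w * y⁻¹ ∈ M.2) : dM M x y ≤ len w := by
  have := qd_le d0 x y h
  rwa [inv_mul_cancel_right, d0_mul_right] at this

theorem dM_congr {M : MS p} {x y x' y' : Gam p} (hx : x' * x⁻¹ ∈ M.2) (hy : y' * y⁻¹ ∈ M.2) :
    dM M x' y' = dM M x y := by
  have key : ∀ a b a' b' : Gam p, a' * a⁻¹ ∈ M.2 → b' * b⁻¹ ∈ M.2 → dM M a' b' ≤ dM M a b := by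
    intro a b a' b' ha hb
    obtain ⟨w, h1, h2⟩ := exists_dM M a b
    rw [← h1]
    refine dM_le ?_
    simpa [mul_assoc] using mul_mem (mul_mem ha h2) (inv_mem hb)
  exact le_antisymm (key _ _ _ _ hx hy)
    (key _ _ _ _ (by simpa using inv_mem hx) (by simpa using inv_mem hy))

theorem dC_cls (M : MS p) (u v : Gam p) : dC M (cls M u) (cls M v) = dM M u v :=
  (dM_congr (out_cls u) (out_cls v)).symm

theorem dM_symm (M : MS p) (x y : Gam p) : dM M x y = dM M y x := by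
  have key : ∀ a b : Gam p, dM M a b ≤ dM M b a := by
    intro a b
    obtain ⟨w, h1, h2⟩ := exists_dM M b a
    rw [← h1, ← len_inv]
    exact dM_le (by simpa [mul_assoc] using inv_mem h2)
  exact le_antisymm (key _ _) (key _ _)

theorem dM_tri (M : MS p) (x y z : Gam p) : dM M x z ≤ dM M x y + dM M y z := by
  obtain ⟨w, h1, h2⟩ := exists_dM M x y
  obtain ⟨w', h3, h4⟩ := exists_dM M y z
  rw [← h1, ← h3]
  exact (dM_le (w := w * w') (by simpa [mul_assoc] using mul_mem h2 h4)).trans (len_mul_le _ _)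

theorem dM_pt (M : MS p) (a x y : Gam p) : dM (pt M a) x y = dM M (a * x) (a * y) := by
  apply le_antisymm
  · obtain ⟨w, h1, h2⟩ := exists_dM M (a * x) (a * y)
    rw [← h1]
    exact dM_le (mem_pt.2 (by simpa [mul_assoc] using h2))
  · obtain ⟨w, h1, h2⟩ := exists_dM (pt M a) x y
    rw [← h1]
    exact dM_le (by simpa [mul_assoc] using mem_pt.1 h2)

theorem dM_mk {𝔇 : ℕ → Lev p} (j : ℕ) (s : St p) : dM (s, K 𝔇 j s) = dj 𝔇 j s := rfl

namespace RP

variable {P : RP p}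

theorem lamV_mkV (a : ℕ) (b : P.Lam) : P.lamV (P.mkV a b) = b := by
  unfold lamV mkV
  rw [Equiv.symm_apply_eq]
  apply Fin.ext
  simp only [Nat.add_sub_cancel, Nat.mul_add_mod_self_right]
  exact Nat.mod_eq_of_lt (Fin.is_lt _)

theorem colV_mkV {a : ℕ} (ha : a < P.Q) (b : P.Lam) : P.colV (P.mkV a b) = a := by
  unfold colV mkV
  rw [Nat.add_sub_cancel, Nat.add_comm, Nat.add_mul_div_right _ _ Fintype.card_pos,
    Nat.div_eq_of_lt (Fin.is_lt _), Nat.zero_add, Nat.mod_eq_of_lt ha]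

theorem colV_lt (h : 0 < P.Q) (v : ℕ) : P.colV v < P.Q := Nat.mod_lt _ h

theorem mkV_le {a : ℕ} (ha : a < P.Q) (b : P.Lam) : P.mkV a b ≤ P.nE := by
  unfold mkV nE
  have h1 := (Fintype.equivFin P.Lam b).is_lt
  have h2 := Nat.mul_le_mul_right (Fintype.card P.Lam) (Nat.succ_le_of_lt ha)
  rw [Nat.succ_mul] at h2
  omega

theorem mkV_self {v : ℕ} (h1 : v ≠ 0) (h2 : v ≤ P.nE) : P.mkV (P.colV v) (P.lamV v) = v := by
  unfold mkV colV lamV
  rw [Equiv.apply_symm_apply, Nat.mod_eq_of_lt (a := (v - 1) / _)]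
  · have := Nat.div_add_mod' (v - 1) (Fintype.card P.Lam)
    simp only
    omega
  · rw [Nat.div_lt_iff_lt_mul Fintype.card_pos]
    unfold nE at h2
    omega

theorem len_pos (h : ∀ M i, len (P.τ M i) ≤ P.l) (w : List (Fin 4)) :
    ∀ M, len (P.pos M w) ≤ w.length * P.l := by
  induction w with
  | nil => intro M; simp [pos, len_one]
  | cons i w ih =>
    intro M
    have := len_mul_le (P.τ M i) (P.pos (P.T M i) w)
    have := h M i
    have := ih (P.T M i)
    rw [List.length_cons, Nat.succ_mul, pos]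
    omega

theorem len_en (h : ∀ M i, len (P.τ M i) ≤ P.l) (M : MS p) (k : Fin P.L) :
    len (P.en M k) ≤ P.m * P.l := by simpa [word, en] using len_pos h (P.word M k) M

theorem β_cls {M : MS p} (h : Inv M) (u : Gam p) : P.β M (cls M u) = P.lam (pt M u) := by
  rw [β, h.pt_eq (out_cls u)]

theorem ok0_symm {M : MS p} (h : Inv M) {i : Fin 4} (h0 : P.ok0 M i) :
    P.T (P.T M i) (i + 2) = M ∧ P.ok0 (P.T M i) (i + 2) := by
  have h1 : P.T (P.T M i) (i + 2) = M := by
    rw [T, T, ← pt_mul, h.pt_eq (u := 1) (by simpa [ok0, T] using h0), pt_one]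
  refine ⟨h1, ?_⟩
  rw [ok0, h1, add_assoc, show (2 : Fin 4) + 2 = 0 from rfl, add_zero]
  exact mem_pt.2 (by simpa [mul_assoc, ok0] using h0)

variable [NeZero p]

theorem ok_symm {M : MS p} (h : Inv M) {i : Fin 4} (h0 : P.ok M i) : P.ok (P.T M i) (i + 2) :=
  ⟨(ok0_symm h h0.1).2, h0.2.2, (ok0_symm h h0.1).1.symm ▸ h0.2.1⟩

theorem st_cls {M : MS p} (h : Inv M) {u : Gam p} {i : Fin 4} {y : Cls M} :
    P.st M (cls M u) i = some y ↔ P.ok (pt M u) i ∧ y = cls M (u * P.τ (pt M u) i) := by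
  have h1 := out_cls (M := M) u
  have h2 : cls M ((cls M u).out * P.τ (pt M u) i) = cls M (u * P.τ (pt M u) i) :=
    cls_eq.2 (by simpa [mul_assoc] using h1)
  unfold st
  rw [← h.pt_eq h1, h2]
  split_ifs with h3
  · simp [h3, eq_comm]
  · simp [h3]

theorem st_symm {M : MS p} (h : Inv M) (y z : Cls M) (i : Fin 4) (h0 : P.st M y i = some z) :
    P.st M z (i + 2) = some y := by
  obtain ⟨u, rfl⟩ := cls_surj y
  obtain ⟨h1, rfl⟩ := (st_cls h).1 h0
  refine (st_cls h).2 ⟨by rw [pt_mul]; exact ok_symm (h.pt u) h1, cls_eq.2 ?_⟩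
  rw [pt_mul]
  simpa [mul_assoc, T] using mem_pt.1 h1.1

theorem run_cls {M : MS p} (h : Inv M) (w : List (Fin 4)) : ∀ {u : Gam p} {y : Cls M},
    run (P.st M) (cls M u) w = some y ↔ P.runs (pt M u) w ∧ y = cls M (u * P.pos (pt M u) w) := by
  induction w with
  | nil => intro u y; simp [run, runs, pos, eq_comm]
  | cons i w ih =>
    intro u y
    simp only [run, Option.bind_eq_some_iff, st_cls h, runs, pos, T, ← pt_mul, ← mul_assoc]
    constructor
    · rintro ⟨_, ⟨h1, rfl⟩, h2⟩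
      exact ⟨⟨h1, (ih.1 h2).1⟩, (ih.1 h2).2⟩
    · rintro ⟨⟨h1, h2⟩, h3⟩
      exact ⟨_, ⟨h1, rfl⟩, ih.2 ⟨h2, h3⟩⟩

theorem raw_cls {M : MS p} (h : Inv M) {u : Gam p} {k : Fin P.L} {y : Cls M} :
    Cnt.Raw (P.st M) (P.β M) (cls M u, k) y ↔ P.fl (pt M u) ∧ P.fl (pt M (u * P.en (pt M u) k)) ∧
      P.en (pt M u) k ∉ (pt M u).2 ∧ P.runs (pt M u) (P.word (pt M u) k) ∧
      y = cls M (u * P.en (pt M u) k) := by
  have e : Cnt.wd (P.β M) (cls M u, k) = P.word (pt M u) k := by simp [Cnt.wd, word, β_cls h]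
  have e2 : ∀ v, cls M (u * v) ≠ cls M u ↔ v ∉ (pt M u).2 := fun v => by
    rw [ne_comm, Ne, cls_eq, mem_pt]
  unfold Cnt.Raw
  rw [e, run_cls h]
  constructor
  · rintro ⟨h1, h2, h3, h4, rfl⟩
    exact ⟨by simpa [Cnt.Cen, β_cls h, fl] using h1,
      by simpa [Cnt.Cen, β_cls h, fl, en] using h2,
      (e2 _).1 h3, h4, rfl⟩
  · rintro ⟨h1, h2, h3, h4, rfl⟩
    exact ⟨by simpa [Cnt.Cen, β_cls h, fl] using h1,
      by simpa [Cnt.Cen, β_cls h, fl, en] using h2,
      (e2 _).2 h3, h4, rfl⟩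

end RP

end Pool.Agent.MP_735563_an.H2
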