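import Pool.Agent.MP_735563_an.H2.Geo

set_option autoImplicit false

/-! Abstract small cancellation over a hyperbolic pseudo metric on a group: statements. -/

namespace Pool.Agent.MP_735563_an.H2

section SC

variable {G : Type} [Group G]

/-- quotient pseudo metric -/
noncomputable def qd (H : Subgroup G) (d : G → G → ℕ) (x y : G) : ℕ :=
  sInf {n | ∃ h ∈ H, d x (h * y) = n}

theorem qd_le {H : Subgroup G} (d : G → G → ℕ) (x y : G) {h : G} (hh : h ∈ H) :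
    qd H d x y ≤ d x (h * y) := Nat.sInf_le ⟨h, hh, rfl⟩

theorem exists_qd (H : Subgroup G) (d : G → G → ℕ) (x y : G) :
    ∃ h ∈ H, d x (h * y) = qd H d x y :=
  Nat.sInf_mem (s := {n | ∃ h ∈ H, d x (h * y) = n}) ⟨_, 1, H.one_mem, rfl⟩

theorem qd_eq_of_min {H : Subgroup G} {d : G → G → ℕ} {x y : G}
    (hm : ∀ h ∈ H, d x y ≤ d x (h * y)) : qd H d x y = d x y := by
  obtain ⟨h, hh, h1⟩ := exists_qd H d x y
  have := hm h hh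
  have := qd_le d x y H.one_mem
  rw [one_mul] at this
  omega

theorem qd_mul_right {H : Subgroup G} (d : G → G → ℕ) (x y : G) {h : G} (hh : h ∈ H) :
    qd H d x (h * y) = qd H d x y := by
  apply le_antisymm
  · obtain ⟨k, hk, h1⟩ := exists_qd H d x y
    have := qd_le d x (h * y) (H.mul_mem hk (H.inv_mem hh))
    rwa [mul_assoc, inv_mul_cancel_left, h1] at this
  · obtain ⟨k, hk, h1⟩ := exists_qd H d x (h * y)
    have := qd_le d x y (H.mul_mem hk hh)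
    rwa [mul_assoc, h1] at this

theorem qd_qd {K H : Subgroup G} (hK : K ≤ H) (d : G → G → ℕ) : qd H (qd K d) = qd H d := by
  funext x y
  apply le_antisymm
  · obtain ⟨h, hh, h1⟩ := exists_qd H d x y
    have h2 := qd_le (qd K d) x y hh
    have h3 := qd_le d x (h * y) K.one_mem
    rw [one_mul] at h3
    omega
  · obtain ⟨h, hh, h1⟩ := exists_qd H (qd K d) x y
    obtain ⟨k, hk, h2⟩ := exists_qd K d x (h * y)
    have := qd_le d x y (H.mul_mem (hK hk) hh)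
    rw [mul_assoc] at this
    omega

/-- conjugate subgroup `g K g⁻¹` -/
def cjs (g : G) (K : Subgroup G) : Subgroup G := K.map (MulAut.conj g).toMonoidHom

theorem mem_cjs {g u : G} {K : Subgroup G} : u ∈ cjs g K ↔ g⁻¹ * u * g ∈ K := by
  constructor
  · rintro ⟨k, hk, rfl⟩
    simpa [mul_assoc] using hk
  · intro h
    exact ⟨_, h, by simp [mul_assoc]⟩

theorem cjs_one (K : Subgroup G) : cjs 1 K = K := by
  ext u; simp [mem_cjs]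

theorem cjs_mul (g h : G) (K : Subgroup G) : cjs (g * h) K = cjs g (cjs h K) := by
  ext u; simp [mem_cjs, mul_assoc]

theorem cjs_of_mem {g : G} {K : Subgroup G} (hg : g ∈ K) : cjs g K = K := by
  ext u
  rw [mem_cjs]
  constructor
  · intro h
    have := K.mul_mem (K.mul_mem hg h) (K.inv_mem hg)
    simpa [mul_assoc] using this
  · intro h
    exact K.mul_mem (K.mul_mem (K.inv_mem hg) h) hg

/-- translate of a core with its group -/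
def cj (h : G) (T : Set G × Subgroup G) : Set G × Subgroup G :=
  ((fun c => h * c) '' T.1, cjs h T.2)

/-- small cancellation setting: `d` is a hyperbolic pseudo metric whose null classes are the
cosets `K x`, the group `G'` generated by `K` and the groups of the family acts by isometries -/
structure SC (d : G → G → ℕ) (K G' : Subgroup G) (𝒯 : Set (Set G × Subgroup G))
    (δ κ Δ g D : ℕ) : Prop where
  met : Met d δ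
  zero : ∀ x y, d x y = 0 ↔ y * x⁻¹ ∈ K
  inv : ∀ h ∈ G', ∀ x y, d (h * x) (h * y) = d x y
  le : K ≤ G'
  sub : ∀ T ∈ 𝒯, K ≤ T.2 ∧ T.2 ≤ G'
  gen : G' ≤ K ⊔ ⨆ T ∈ 𝒯, T.2
  conj : ∀ h ∈ G', ∀ T ∈ 𝒯, cj h T ∈ 𝒯
  ne : ∀ T ∈ 𝒯, T.1.Nonempty
  pres : ∀ T ∈ 𝒯, ∀ μ ∈ T.2, ∀ c ∈ T.1, μ * c ∈ T.1
  qc : ∀ T ∈ 𝒯, QC d T.1 κ
  ov : ∀ T ∈ 𝒯, ∀ T' ∈ 𝒯, T ≠ T' → ∀ a ∈ T.1, ∀ b ∈ T.1, ∀ a' ∈ T'.1, ∀ b' ∈ T'.1,
    d a a' ≤ 1000 * (δ + κ + 1) → d b b' ≤ 1000 * (δ + κ + 1) → d a b ≤ Δ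
  disp : ∀ T ∈ 𝒯, ∀ μ ∈ T.2, μ ∉ K → ∀ c ∈ T.1, g ≤ d c (μ * c)
  diam : ∀ T ∈ 𝒯, ∀ a ∈ T.1, ∀ b ∈ T.1, ∃ μ ∈ T.2, d a (μ * b) ≤ D
  big : 10 ^ 8 * (δ + κ + Δ + 1) ≤ g

/-- the projections of `x` and `y` on every core are close -/
def Red (d : G → G → ℕ) (𝒯 : Set (Set G × Subgroup G)) (R : ℕ) (x y : G) : Prop :=
  ∀ T ∈ 𝒯, ∀ a b, Prj d T.1 x a → Prj d T.1 y b → d a b ≤ R

/-- admissible side and touch predicates for the polygon lemma -/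
structure SideOK (d : G → G → ℕ) (G' : Subgroup G) (𝒯 : Set (Set G × Subgroup G)) (u : ℕ)
    (Side : G → G → Prop) (Touch : Set G × Subgroup G → Prop) : Prop where
  inv : ∀ h ∈ G', ∀ x y, Side x y → Side (h * x) (h * y)
  sub : ∀ x y m, Side x y → Btw d x m y → Side x m ∧ Side m y
  min : ∀ x y, Side x y → ∀ h ∈ G', d x y ≤ d x (h * y)
  tinv : ∀ h ∈ G', ∀ T ∈ 𝒯, Touch T → Touch (cj h T)
  touch : ∀ m, Side m m → ∀ T ∈ 𝒯, ∀ c ∈ T.1, d m c ≤ 100 * u → Touch T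

/-- degenerate side -/
def Triv (d : G → G → ℕ) (𝒯 : Set (Set G × Subgroup G)) (u : ℕ) (Side : G → G → Prop)
    (Touch : Set G × Subgroup G → Prop) (x y : G) : Prop :=
  d x y = 0 ∧ (Side x x ∨ ∃ T ∈ 𝒯, Touch T ∧ ∃ c ∈ T.1, d x c ≤ 100 * u)

/-- gap side along a touched core -/
def Gap (d : G → G → ℕ) (𝒯 : Set (Set G × Subgroup G)) (u : ℕ)
    (Touch : Set G × Subgroup G → Prop) (x y : G) : Prop :=
  ∃ T ∈ 𝒯, Touch T ∧ (∃ c ∈ T.1, d x c ≤ 100 * u) ∧ (∃ c ∈ T.1, d y c ≤ 100 * u) ∧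
    ∀ ν ∈ T.2, d x y ≤ d x (ν * y)

/-- polygonal path with 13 sides from `w` to `h * v` -/
def IsPoly (d : G → G → ℕ) (G' : Subgroup G) (𝒯 : Set (Set G × Subgroup G)) (u : ℕ)
    (Side : G → G → Prop) (Touch : Set G × Subgroup G → Prop) (X₀ v w X₁ : G)
    (x : ℕ → G) (h : G) : Prop :=
  h ∈ G' ∧ x 0 = w ∧ x 13 = h * v ∧ Btw d w (x 1) X₁ ∧ Btw d (h * X₀) (x 12) (h * v) ∧
    ∀ k, 1 ≤ k → k ≤ 11 → Triv d 𝒯 u Side Touch (x k) (x (k + 1)) ∨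
      (k % 2 = 1 ∧ Gap d 𝒯 u Touch (x k) (x (k + 1))) ∨ (k % 2 = 0 ∧ Side (x k) (x (k + 1)))

/-- strong quasi convexity of an invariant set for minimal pairs -/
def SQ (d : G → G → ℕ) (G' : Subgroup G) (P : Set G) (k u : ℕ) : Prop :=
  ∀ p ∈ P, ∀ q ∈ P, (∀ h ∈ G', d p q ≤ d p (h * q)) →
    d p q = 0 ∨ ∀ m, Btw d p m q → ∃ p' ∈ P, d m p' + 1000 * u ≤ k

end SC

/-- row Gr: Greendlinger lemma -/
def GrStmt : Prop :=
  ∀ (G : Type) [Group G] (d : G → G → ℕ) (K G' : Subgroup G) (𝒯 : Set (Set G × Subgroup G))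
    (δ κ Δ g D : ℕ), SC d K G' 𝒯 δ κ Δ g D → ∀ x, ∀ h ∈ G', h ∉ K →
    ∃ T ∈ 𝒯, ∃ μ ∈ T.2, μ ∉ K ∧ ∀ a b, Prj d T.1 x a → Prj d T.1 (h * x) b →
      d a (μ * b) ≤ 10 ^ 5 * (δ + κ + Δ + 1)

/-- row Red, first half: reduced pairs are minimal -/
def RedMinStmt : Prop :=
  ∀ (G : Type) [Group G] (d : G → G → ℕ) (K G' : Subgroup G) (𝒯 : Set (Set G × Subgroup G))
    (δ κ Δ g D : ℕ), SC d K G' 𝒯 δ κ Δ g D → ∀ x y, Red d 𝒯 (1000 * (δ + κ + Δ + 1)) x y →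
    ∀ h ∈ G', d x y ≤ d x (h * y)

/-- row Red, second half: displacement -/
def DispStmt : Prop :=
  ∀ (G : Type) [Group G] (d : G → G → ℕ) (K G' : Subgroup G) (𝒯 : Set (Set G × Subgroup G))
    (δ κ Δ g D : ℕ), SC d K G' 𝒯 δ κ Δ g D → ∀ x, ∀ h ∈ G', h ∉ K → g ≤ 2 * d x (h * x)

/-- row Poly: a polygonal path can be closed up -/
def PolyStmt : Prop :=
  ∀ (G : Type) [Group G] (d : G → G → ℕ) (K G' : Subgroup G) (𝒯 : Set (Set G × Subgroup G))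
    (δ κ Δ g D : ℕ), SC d K G' 𝒯 δ κ Δ g D →
    ∀ (Side : G → G → Prop) (Touch : Set G × Subgroup G → Prop) (X₀ v w X₁ : G),
    SideOK d G' 𝒯 (δ + κ + 1) Side Touch → d X₀ X₁ = d X₀ v + d v w + d w X₁ →
    (∀ h ∈ G', d X₀ X₁ ≤ d X₀ (h * X₁)) → Red d 𝒯 (1000 * (δ + κ + Δ + 1)) v w →
    ∀ x h, IsPoly d G' 𝒯 (δ + κ + 1) Side Touch X₀ v w X₁ x h →
    ∃ x' h', h' ∈ K ∧ IsPoly d G' 𝒯 (δ + κ + 1) Side Touch X₀ v w X₁ x' h'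

/-- row Hyp: the quotient is hyperbolic -/
def HypStmt : Prop :=
  ∀ (G : Type) [Group G] (d : G → G → ℕ) (K G' : Subgroup G) (𝒯 : Set (Set G × Subgroup G))
    (δ κ Δ g D : ℕ), SC d K G' 𝒯 δ κ Δ g D → Met (qd G' d) (10 * (D + g))

/-- row Desc: descent of quasi convexity -/
def DescStmt : Prop :=
  ∀ (G : Type) [Group G] (d : G → G → ℕ) (K G' : Subgroup G) (𝒯 : Set (Set G × Subgroup G))
    (δ κ Δ g D : ℕ), SC d K G' 𝒯 δ κ Δ g D → ∀ (P Ds : Set G) (k : ℕ),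
    (∀ h ∈ G', ∀ p ∈ P, h * p ∈ P) → SQ d G' P k (δ + κ + 1) →
    (∀ T ∈ 𝒯, ∃ c ∈ T.1, ∃ p ∈ P, d c p ≤ k + 1) →
    (∀ y, (∃ p ∈ P, d y p ≤ k) → y ∈ Ds) → (∀ y ∈ Ds, ∃ p ∈ P, d y p ≤ k + 1) →
    QC d (Ds ∪ ⋃ T ∈ 𝒯, T.1) (500 * (δ + κ + 1))

/-- row Gate: a long segment with short overlaps whose ends are near the region goes deep -/
def GateStmt : Prop :=
  ∀ (G : Type) [Group G] (d : G → G → ℕ) (K G' : Subgroup G) (𝒯 : Set (Set G × Subgroup G))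
    (δ κ Δ g D : ℕ), SC d K G' 𝒯 δ κ Δ g D → ∀ (P : Set G) (k r : ℕ) (y₁ y₂ : G),
    (∀ h ∈ G', ∀ p ∈ P, h * p ∈ P) → SQ d G' P k (δ + κ + 1) →
    (∀ T ∈ 𝒯, ∃ c ∈ T.1, ∃ p ∈ P, d c p ≤ k + 1) →
    (∃ z, d y₁ z ≤ r ∧ ((∃ p ∈ P, d z p ≤ k + 1) ∨ ∃ T ∈ 𝒯, z ∈ T.1)) →
    (∃ z, d y₂ z ≤ r ∧ ((∃ p ∈ P, d z p ≤ k + 1) ∨ ∃ T ∈ 𝒯, z ∈ T.1)) →
    (∀ T ∈ 𝒯, ∀ m m', Btw d y₁ m y₂ → Btw d y₁ m' y₂ → ∀ a ∈ T.1, ∀ a' ∈ T.1,
      d m a ≤ 500 * (δ + κ + 1) → d m' a' ≤ 500 * (δ + κ + 1) →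
      d m m' ≤ Δ + 10 * (δ + κ + 1)) →
    100 * (r + Δ + 1000 * (δ + κ + 1)) ≤ d y₁ y₂ →
    ∃ m, Btw d y₁ m y₂ ∧ ∃ p ∈ P, d m p + 900 * (δ + κ + 1) ≤ k

/-- row LTG: local to global principle and Morse lemma for quasi geodesic paths -/
def LTGStmt : Prop :=
  ∀ δ l : ℕ, ∃ κ J j₁ : ℕ, ∀ (V : Type) (d : V → V → ℕ), Met d δ → ∀ c, 1 ≤ c →
    ∀ (x : ℕ → V) (n : ℕ), (∀ t < n, d (x t) (x (t + 1)) ≤ l) →
    (∀ a b, a ≤ b → b ≤ n → b ≤ a + j₁ → c * (b - a) ≤ d (x a) (x b)) →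
    c * n ≤ 2 * d (x 0) (x n) + J ∧
    (∀ m, Btw d (x 0) m (x n) → ∃ t ≤ n, d m (x t) ≤ κ) ∧
    ∀ t ≤ n, ∃ m, Btw d (x 0) m (x n) ∧ d (x t) m ≤ κ

end Pool.Agent.MP_735563_an.H2
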