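import Pool.Agent.MP_735563_an.H2.Gam

set_option autoImplicit false

/-! Statements of the first wave of rows (no state theory). -/

open MeasureTheory Filter Topology

namespace Pool.Agent.MP_735563_an.H2

/-- row Len: block graph geometry of the syllable metric -/
def LenStmt : Prop :=
  ∀ p : ℕ, Met (d0 (p := p)) 2 ∧
    (∀ l : List (Fin 3 × ZMod p), (∀ q ∈ l, q.2 ≠ 0) → l.IsChain (fun q q' => q.1 ≠ q'.1) →
      len (lprod l) = l.length) ∧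
    (∀ x m m' y : Gam p, Btw d0 x m y → Btw d0 x m' y → d0 x m = d0 x m' → m = m') ∧
    (∀ (c : Fin 3) (x m : Gam p), x ∈ AB c → Btw d0 1 m x → m ∈ AB c) ∧
    (∀ (x x' y y' m : Gam p), Btw d0 x m y → d0 x x' < d0 x m → d0 y y' < d0 m y →
      Btw d0 x' m y') ∧
    (∀ (c i : Fin 3) (a : ZMod p), a ≠ 0 → gen i a ∈ AB c → i ≠ c)

/-- row Patch: gluing two coset spaces along a common part -/
def PatchStmt : Prop :=
  ∀ (p : ℕ) (K₁ K₂ KB : Subgroup (Gam p)) (S₁ S₂ U₁ U₂ UB : Set (Gam p)) (x₀ : Gam p),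
    KB ≤ K₁ → KB ≤ K₂ → x₀ ∈ S₁ → x₀ ∈ S₂ → x₀ ∈ UB → S₁ ⊆ U₁ → S₂ ⊆ U₂ → UB ⊆ U₁ → UB ⊆ U₂ →
    (∀ k ∈ K₁, ∀ u ∈ S₁, k * u ∈ S₁) → (∀ k ∈ K₂, ∀ u ∈ S₂, k * u ∈ S₂) →
    (∀ k ∈ K₁, ∀ u ∈ U₁, k * u ∈ U₁) → (∀ k ∈ K₂, ∀ u ∈ U₂, k * u ∈ U₂) →
    (∀ u ∈ S₁, ∀ q, Btw d0 x₀ q u → ∀ i a, q * gen i a ∈ U₁) →
    (∀ u ∈ S₂, ∀ q, Btw d0 x₀ q u → ∀ i a, q * gen i a ∈ U₂) →
    (∀ b ∈ UB, ∀ k ∈ K₁, k * b ∈ UB → k ∈ KB) → (∀ b ∈ UB, ∀ k ∈ K₂, k * b ∈ UB → k ∈ KB) →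
    (∀ b ∈ UB, ∀ i, (∀ a, b * gen i a ∈ U₁) → (∀ a, b * gen i a ∈ U₂) →
      ∀ a, b * gen i a ∈ UB) →
    (∀ h ∈ K₁ ⊔ K₂, ∀ u ∈ S₁, h * u ∈ S₁ → h ∈ K₁) ∧
    (∀ h ∈ K₁ ⊔ K₂, ∀ u ∈ S₂, h * u ∈ S₂ → h ∈ K₂) ∧
    (∀ h ∈ K₁ ⊔ K₂, ∀ u ∈ S₁, h * u ∈ S₂ →
      ∃ b ∈ UB, b * u⁻¹ ∈ K₁ ∧ b * (h * u)⁻¹ ∈ K₂)

/-- row Angle: fixed spaces of subgroups of a finite p-group of bounded length are almost
orthogonal for large p -/
def AngleStmt : Prop :=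
  ∀ (n : ℕ) (η : ℝ), 0 < η → ∃ p₀ : ℕ, ∀ p : ℕ, p.Prime → p₀ ≤ p →
    ∀ (G : Type) [Group G] [Finite G], IsPGroup p G → Nat.card G ≤ p ^ n →
    ∀ (W : Type) [NormedAddCommGroup W] [InnerProductSpace ℝ W] (ρ : G →* (W ≃ₗᵢ[ℝ] W))
      (X Y : Subgroup G) (u v : W), (∀ g ∈ X, ρ g u = u) → (∀ g ∈ Y, ρ g v = v) →
      (∀ w, (∀ g ∈ X ⊔ Y, ρ g w = w) → inner ℝ u w = 0) → inner ℝ u v ≤ η * ‖u‖ * ‖v‖

/-- row Grp: the level one groups exist -/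
def GrpStmt : Prop :=
  ∀ g : ℕ, ∃ (p : ℕ) (_ : NeZero p) (N : Fin 3 → Subgroup (Gam p)), NData p N g

/-- row EnAbs: abstract energy decay -/
def EnAbsStmt : Prop :=
  ∀ (V : Type) [AddCommGroup V] [Module ℝ V] (β : V →ₗ[ℝ] V →ₗ[ℝ] ℝ) (P : Fin 3 → V →ₗ[ℝ] V),
    (∀ x y, β x y = β y x) → (∀ x, 0 ≤ β x x) → (∀ i x y, β (P i x) y = β x (P i y)) →
    (∀ i x y, β (P i (P i x)) y = β (P i x) y) → ∀ v : V,
    (∀ i j, i ≠ j → 0 ≤ 2 * β (v - P i v) (v - P j v) +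
      (1 / 4) * (β (v - P i v) (v - P i v) + β (v - P j v) (v - P j v))) →
    ∀ w : V, w = (1 / 3 : ℝ) • ∑ i, P i v →
    ∑ i, β (w - P i w) (w - P i w) ≤ (5 / 6) * ∑ i, β (v - P i v) (v - P i v) ∧
    β (w - v) (w - v) ≤ (1 / 3) * ∑ i, β (v - P i v) (v - P i v)

/-- row En: energy decay for bounded functions -/
def EnStmt : Prop :=
  ∀ (p : ℕ) [NeZero p] (N : Fin 3 → Subgroup (Gam p)), PairIneq p N →
    ∀ (X : Type) [MeasurableSpace X] [MulAction (Gam p) X] (μ : Measure X)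
      [IsProbabilityMeasure μ], (∀ g : Gam p, MeasurePreserving (fun x : X => g • x) μ μ) →
    (∀ c, ∀ n ∈ N c, ∀ x : X, n • x = x) → ∀ (f : X → ℝ) (b : ℝ), Measurable f →
    (∀ x, |f x| ≤ b) → ∀ m : ℕ,
    (∀ i a, ∫ x, (Pw p m f ((gen i a : Gam p)⁻¹ • x) - Pw p m f x) ^ 2 ∂μ ≤
      12 * b ^ 2 * (5 / 6) ^ m) ∧
    ∫ x, (Pw p (m + 1) f x - Pw p m f x) ^ 2 ∂μ ≤ b ^ 2 * (5 / 6) ^ m

/-- property (T) of a relation: every measurable unitary cocycle on a measurable field of Hilbert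
spaces with almost invariant unit sections has an invariant unit section -/
def PropT {X : Type} [MeasurableSpace X] (μ : Measure X) (E : Set (X × X)) : Prop :=
  ∀ (H : X → Type) [∀ x, NormedAddCommGroup (H x)] [∀ x, InnerProductSpace ℂ (H x)]
    [∀ x, CompleteSpace (H x)] (e : ℕ → ∀ x, H x),
    (∀ n m, Measurable fun x => inner ℂ (e n x) (e m x)) →
    (∀ x, Dense (Submodule.span ℂ (Set.range fun n => e n x) : Set (H x))) →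
    ∀ π : ∀ x y, (x, y) ∈ E → (H y ≃ₗᵢ[ℂ] H x),
    (∀ n m, Measurable fun q : E => inner ℂ (e n q.1.1) (π q.1.1 q.1.2 q.2 (e m q.1.2))) →
    (∀ᵐ x ∂μ, ∀ y z (hxy : (x, y) ∈ E) (hyz : (y, z) ∈ E) (hxz : (x, z) ∈ E) (v : H z),
      π x y hxy (π y z hyz v) = π x z hxz v) →
    (∃ ξ : ℕ → ∀ x, H x, (∀ k n, Measurable fun x => inner ℂ (e n x) (ξ k x)) ∧
      (∀ k, ∀ᵐ x ∂μ, ‖ξ k x‖ = 1) ∧
      ∀ φ : X ≃ᵐ X, (∀ᵐ x ∂μ, (x, φ x) ∈ E) → ∀ ε : ℝ, 0 < ε →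
        Tendsto (fun k => μ {x | ∃ h : (x, φ.symm x) ∈ E,
          ε ≤ ‖π x (φ.symm x) h (ξ k (φ.symm x)) - ξ k x‖}) atTop (𝓝 0)) →
    ∃ ξ : ∀ x, H x, (∀ n, Measurable fun x => inner ℂ (e n x) (ξ x)) ∧
      (∀ᵐ x ∂μ, ‖ξ x‖ = 1) ∧ ∀ᵐ x ∂μ, ∀ y (h : (x, y) ∈ E), π x y h (ξ y) = ξ x

/-- row T: property (T) of the orbit relation -/
def TStmt : Prop :=
  ∀ (p : ℕ) [NeZero p] (N : Fin 3 → Subgroup (Gam p)), PairIneq p N →
    ∀ (X : Type) [MeasurableSpace X] [MulAction (Gam p) X] (ν : Measure X)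
      [IsProbabilityMeasure ν], (∀ g : Gam p, MeasurePreserving (fun x : X => g • x) ν ν) →
    (∀ c, ∀ n ∈ N c, ∀ x : X, n • x = x) →
    (∀ B : Set X, MeasurableSet B → (∀ (g : Gam p) x, x ∈ B → g • x ∈ B) → ν B = 0 ∨ ν B = 1) →
    PropT ν {q : X × X | ∃ g : Gam p, q.2 = g • q.1}

/-- row Gen: an ergodic invariant measure with prescribed small averages -/
def GenStmt : Prop :=
  ∀ (p : ℕ) [NeZero p] (N : Fin 3 → Subgroup (Gam p)), PairIneq p N →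
    ∀ (X : Type) [TopologicalSpace X] [CompactSpace X] [TopologicalSpace.MetrizableSpace X]
      [MeasurableSpace X] [BorelSpace X] [MulAction (Gam p) X] (μ : Measure X)
      [IsProbabilityMeasure μ], (∀ g : Gam p, Continuous fun x : X => g • x) →
    (∀ g : Gam p, MeasurePreserving (fun x : X => g • x) μ μ) →
    (∀ c, ∀ n ∈ N c, ∀ x : X, n • x = x) →
    ∀ (h : ℕ → X → ℝ) (tol : ℕ → ℝ) (m : ℕ → ℕ), (∀ j, Continuous (h j)) → (∀ j, 0 < tol j) →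
    (∀ j, ∫ x, (Pw p (m j) (h j) x) ^ 2 ∂μ ≤ tol j ^ 2 / 2 ^ (j + 2)) →
    ∃ ν : Measure X, IsProbabilityMeasure ν ∧
      (∀ g : Gam p, MeasurePreserving (fun x : X => g • x) ν ν) ∧
      (∀ B : Set X, MeasurableSet B → (∀ (g : Gam p) x, x ∈ B → g • x ∈ B) →
        ν B = 0 ∨ ν B = 1) ∧ ∀ j, |∫ x, h j x ∂ν| ≤ tol j

open Classical in
/-- row Spread: the random walk on a coset space spreads out -/
def SpreadStmt : Prop :=
  ∀ (p : ℕ) [NeZero p] (N : Fin 3 → Subgroup (Gam p)) (g : ℕ), NData p N g →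
    ∀ (K : Subgroup (Gam p)) (R m : ℕ),
    (∀ x, len x ≤ R → ∀ c, ∀ n ∈ N c, x * n * x⁻¹ ∈ K) → (∃ y, ∀ k ∈ K, R < len (k * y)) →
    m ≤ R → ∀ y : Gam p,
    ((Finset.univ.filter fun w : Fin m → Fin 3 × ZMod p => wprod w * y⁻¹ ∈ K).card : ℝ) ^ 2 ≤
      12 * (2 * m + 1) ^ 2 * (5 / 6) ^ m * ((3 * p) ^ m) ^ 2

open Classical in
/-- number of elements of the ball in the coset `K u` -/
noncomputable def ncl {p : ℕ} [NeZero p] (K : Subgroup (Gam p)) (r : ℕ) (u : Gam p) : ℕ :=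
  ((ball p r).filter fun v => v * u⁻¹ ∈ K).card

/-- sum over the cosets meeting the ball -/
noncomputable def csum {p : ℕ} [NeZero p] (K : Subgroup (Gam p)) (r : ℕ) (F : Gam p → ℝ) : ℝ :=
  ∑ u ∈ ball p r, F u / ncl K r u

/-- row MTP, first half: `csum` is the sum over a transversal -/
def CsumStmt : Prop :=
  ∀ (p : ℕ) [NeZero p] (K : Subgroup (Gam p)) (r : ℕ) (F : Gam p → ℝ) (T : Finset (Gam p)),
    (∀ k ∈ K, ∀ u, F (k * u) = F u) → (∀ t ∈ T, ∀ t' ∈ T, t' * t⁻¹ ∈ K → t = t') →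
    (∀ u, len u ≤ r → F u ≠ 0 → ∃ t ∈ T, t * u⁻¹ ∈ K) →
    (∀ t ∈ T, F t ≠ 0 → ∃ u, len u ≤ r ∧ t * u⁻¹ ∈ K) → csum K r F = ∑ t ∈ T, F t

/-- row MTP, second half: mass transport -/
def MTPStmt : Prop :=
  ∀ (p : ℕ) [NeZero p] (X : Type) [MeasurableSpace X] [MulAction (Gam p) X] (ν : Measure X)
    [IsProbabilityMeasure ν], (∀ g : Gam p, MeasurePreserving (fun x : X => g • x) ν ν) →
    ∀ 𝒦 : X → Subgroup (Gam p), (∀ (g : Gam p) x, 𝒦 (g • x) = cjs g (𝒦 x)) →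
    (∀ u, MeasurableSet {x | u ∈ 𝒦 x}) → ∀ (F : X → Gam p → ℝ) (b : ℝ) (r : ℕ),
    (∀ u, Measurable fun x => F x u) → (∀ x u, |F x u| ≤ b) →
    ∫ x, csum (𝒦 x) r (F x) ∂ν = ∫ x, csum (𝒦 x) r (fun u => F (u⁻¹ • x) u⁻¹) ∂ν

/-- run a word in a system of four maps that may be undefined -/
def run {V : Type} (st : V → Fin 4 → Option V) : V → List (Fin 4) → Option V
  | x, [] => some x
  | x, i :: w => (st x i).bind fun y => run st y w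

open Classical in
/-- row Mohar: spectral bound for a sparse symmetric system -/
def MoharStmt : Prop :=
  ∀ (V : Type) [Fintype V] (st : V → Fin 4 → Option V),
    (∀ x y i, st x i = some y → st y (i + 2) = some x) →
    (∀ S : Finset V, ((S ×ˢ (Finset.univ : Finset (Fin 4))).filter
      fun q => ∃ y ∈ S, st q.1 q.2 = some y).card ≤ 3 * S.card) →
    ∀ (n : ℕ) (x y : V),
    (Finset.univ.filter fun w : Fin n → Fin 4 => run st x (List.ofFn w) = some y).card ^ 2 ≤ 15 ^ n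

open Classical in
/-- a finite graph given by an involution of half edges, with prescribed types -/
def TypedGraph {V A Hh : Type} (w : V → ℚ) (H : V → Finset A) (ty : V → A → Hh) (bar : Hh → Hh)
    (Z : Type) [Fintype Z] (M : ℕ) (τ : Z → V) (nx : Z × A → Z × A) : Prop :=
  0 < M ∧ (∀ v, ((Finset.univ.filter fun z => τ z = v).card : ℚ) = M * w v) ∧
    ∀ e : Z × A, e.2 ∈ H (τ e.1) → (nx e).2 ∈ H (τ (nx e).1) ∧ nx (nx e) = e ∧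
      (nx e).1 ≠ e.1 ∧ ty (τ (nx e).1) (nx e).2 = bar (ty (τ e.1) e.2)

open Classical in
/-- balanced weights -/
def Balanced {V A Hh : Type} [Fintype V] (w : V → ℚ) (H : V → Finset A) (ty : V → A → Hh)
    (bar : Hh → Hh) : Prop :=
  (∀ v, 0 < w v) ∧ (∀ v, ∀ a ∈ H v, bar (bar (ty v a)) = ty v a) ∧
    ∀ v₀, ∀ a₀ ∈ H v₀, ∑ v, w v * ((H v).filter fun a => ty v a = ty v₀ a₀).card =
      ∑ v, w v * ((H v).filter fun a => ty v a = bar (ty v₀ a₀)).card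

/-- row Match: a finite graph with exact type statistics -/
def MatchStmt : Prop :=
  ∀ (V A Hh : Type) [Fintype V] (w : V → ℚ) (H : V → Finset A) (ty : V → A → Hh) (bar : Hh → Hh),
    Balanced w H ty bar → ∃ (Z : Type) (_ : Fintype Z) (M : ℕ) (τ : Z → V) (nx : Z × A → Z × A),
      TypedGraph w H ty bar Z M τ nx

/-- row Girth: the same with large girth -/
def GraphStmt : Prop :=
  ∀ (V A Hh : Type) [Fintype V] (w : V → ℚ) (H : V → Finset A) (ty : V → A → Hh) (bar : Hh → Hh)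
    (g : ℕ), Balanced w H ty bar →
    ∃ (Z : Type) (_ : Fintype Z) (M : ℕ) (τ : Z → V) (nx : Z × A → Z × A),
      TypedGraph w H ty bar Z M τ nx ∧ ∀ (l : ℕ) (e : ℕ → Z × A), l < g →
        (∀ t ≤ l, (e t).2 ∈ H (τ (e t).1)) →
        (∀ t < l, (e (t + 1)).1 = (nx (e t)).1 ∧ e (t + 1) ≠ nx (e t)) → (nx (e l)).1 ≠ (e 0).1

/-- row Forest, first part: a finite multigraph with at least as many edges as vertices has a
cycle -/
def ForestStmt : Prop :=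
  ∀ (V Ed : Type) [Fintype V] [Fintype Ed] [Nonempty V] (src tgt : Ed → V),
    Fintype.card V ≤ Fintype.card Ed → ∃ (l : ℕ) (v : ℕ → V) (e : ℕ → Ed), 1 ≤ l ∧ v l = v 0 ∧
      (∀ t < l, (src (e t) = v t ∧ tgt (e t) = v (t + 1)) ∨
        (tgt (e t) = v t ∧ src (e t) = v (t + 1))) ∧
      (∀ t < l, ∀ t' < l, v t = v t' → t = t') ∧ ∀ t < l, ∀ t' < l, e t = e t' → t = t'

/-- the four letters of the free group -/
def fg : Fin 4 → FreeGroup (Fin 2) :=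
  ![FreeGroup.of 0, FreeGroup.of 1, (FreeGroup.of 0)⁻¹, (FreeGroup.of 1)⁻¹]

/-- row Forest, second part: no long induced cycle of walks in the Cayley tree -/
def TreeStmt : Prop :=
  ∀ (l m : ℕ) (f : ℕ → ℕ → FreeGroup (Fin 2)), 4 ≤ l →
    (∀ t < l, ∀ s < m, ∃ i, f t (s + 1) = fg i * f t s) →
    (∀ t < l, ∃ s ≤ m, ∃ s' ≤ m, f t s = f ((t + 1) % l) s') →
    ∃ t < l, ∃ t' < l, t ≠ t' ∧ t' ≠ (t + 1) % l ∧ t ≠ (t' + 1) % l ∧
      ∃ s ≤ m, ∃ s' ≤ m, f t s = f t' s'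

open Classical in
/-- row Forest, third part: finite subsets of a free action span few edges -/
def FreeCntStmt : Prop :=
  ∀ (X : Type) (a : FreeGroup (Fin 2) → X → X) (N₀ : Set X), (∀ g, ∀ x ∈ N₀, a g x ∈ N₀) →
    (∀ x ∈ N₀, a 1 x = x) → (∀ g h, ∀ x ∈ N₀, a (g * h) x = a g (a h x)) →
    (∀ g, ∀ x ∈ N₀, a g x = x → g = 1) → ∀ S : Finset X, (∀ x ∈ S, x ∈ N₀) →
    ((S ×ˢ (Finset.univ : Finset (Fin 4))).filter fun q => a (fg q.2) q.1 ∈ S).card ≤ 2 * S.card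

end Pool.Agent.MP_735563_an.H2
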