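import Pool.Agent.MP_735563_an.H2.BasicC

set_option autoImplicit false

/-! Statements of the state theory rows. -/

namespace Pool.Agent.MP_735563_an.H2

section props

variable {p : ℕ} (𝔇 : ℕ → Lev p)

/-- near `b` the region of `s` comes from the region of `B` -/
def CaseA (j : ℕ) (s B : St p) (b : Gam p) : Prop :=
  ∀ u, len u ≤ (𝔇 j).δ + 30 → b * u ∈ Dm j s → b * u ∈ Sat (Kall 𝔇 s) (Dm j B)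

/-- growth of the region of level `i` by one point -/
def GLp (i : ℕ) : Prop := ∀ N, i ≤ N → Th 𝔇 N → ∀ s F k x, Good 𝔇 N s → Tow 𝔇 i s → Sup i s →
  Shape 𝔇 i s F k → x ∈ Nb (k + 1) (Sat (Kall 𝔇 s) F) →
  Reach 𝔇 N s (fun s' => Tow 𝔇 i s' ∧ Dm i s' = Sat (Kall 𝔇 s') (Dm i s ∪ {x}) ∧ Up 𝔇 i s s')
    (fun o => Comp 𝔇 i o x)

/-- growth by a finite set -/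
def GLFp (i : ℕ) : Prop := ∀ N, i ≤ N → Th 𝔇 N → ∀ s F k (X : Set (Gam p)), Good 𝔇 N s →
  Tow 𝔇 i s → Sup i s → Shape 𝔇 i s F k → X.Finite → X ⊆ Nb (k + 1) (Sat (Kall 𝔇 s) F) →
  Reach 𝔇 N s (fun s' => Tow 𝔇 i s' ∧ Sup i s' ∧ Shape 𝔇 i s' F k ∧
    Dm i s' = Sat (Kall 𝔇 s') (Dm i s ∪ X) ∧ Up 𝔇 i s s') (fun o => ∀ x ∈ X, Comp 𝔇 i o x)

/-- growth of the seed of a thick region -/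
def GBp (i : ℕ) : Prop := ∀ N, i ≤ N → Th 𝔇 N → ∀ s (P X : Set (Gam p)) θ l κ, Good 𝔇 N s →
  Tow 𝔇 i s → Sup i s → P.Nonempty → (∀ k ∈ Kall 𝔇 s, ∀ y ∈ P, k * y ∈ P) →
  QC (dj 𝔇 i s) P κ → Dm i s = Nb θ P → X.Finite → X ⊆ Nb l P →
  κ + 2 * l + 300 * ((𝔇 i).δ + 1) ≤ θ →
  Reach 𝔇 N s (fun s' => Tow 𝔇 i s' ∧ Sup i s' ∧ Up 𝔇 i s s' ∧
    Dm i s' = Nb θ (Sat (Kall 𝔇 s') (P ∪ X)) ∧ QC (dj 𝔇 i s') (Sat (Kall 𝔇 s') P) κ)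
    (fun o => ∀ y ∈ Nb θ X, Comp 𝔇 i o y)

/-- view growth along the rule graph of level `i` -/
def VGp (i : ℕ) : Prop := ∀ N, i - 1 ≤ N → Th 𝔇 N → RuleOK 𝔇 i → ConstA 𝔇 i →
  ∀ s (P : Set (Gam p)) x c t, Good 𝔇 N s → Tow 𝔇 (i - 1) s → Sup (i - 1) s → x ∈ P →
  (∀ k ∈ Kall 𝔇 s, ∀ y ∈ P, k * y ∈ P) →
  QC (dj 𝔇 (i - 1) s) P (500 * ((𝔇 (i - 1)).δ + (𝔇 i).κ + 1)) → Dm (i - 1) s = Nb (𝔇 i).θ P →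
  Reach 𝔇 N s (fun s' => Tow 𝔇 (i - 1) s' ∧ Sup (i - 1) s' ∧ Up 𝔇 (i - 1) s s' ∧
    Dm (i - 1) s' = Nb (𝔇 i).θ (Sat (Kall 𝔇 s') (P ∪ Tn 𝔇 i s' c x t)) ∧
    QC (dj 𝔇 (i - 1) s') (Sat (Kall 𝔇 s') (P ∪ Tn 𝔇 i s' c x t))
      (1000 * ((𝔇 (i - 1)).δ + (𝔇 i).κ + 1)))
    (fun o => ∀ y ∈ Nb (𝔇 i).θ (Tn 𝔇 i o c x t), Comp 𝔇 (i - 1) o y)

/-- exploration of a ball from the empty state -/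
def BALLp (i : ℕ) : Prop := Th 𝔇 i → ∀ r,
  Reach 𝔇 i (fun _ _ => 0) (fun s => IsBall 𝔇 i r s ∧ Inc s)
    (fun o => ∀ u, len u ≤ r → Comp 𝔇 i o u)

/-- passage to the next level -/
def UPp (i : ℕ) : Prop := Th 𝔇 (i + 1) → ∀ s, IsBall 𝔇 i (𝔇 (i + 1)).θ s →
  Reach 𝔇 (i + 1) s (IsBall 𝔇 (i + 1) 0) (fun o => Comp 𝔇 (i + 1) o 1)

/-- a state that is complete along the view contains a view -/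
def VXp (i : ℕ) : Prop := Th 𝔇 (i - 1) → RuleOK 𝔇 i → ConstA 𝔇 i → ∀ o c, Val 𝔇 (i - 1) o →
  cenA 𝔇 i o c 1 → (∀ y ∈ Nb (𝔇 i).θ (Tn 𝔇 i o c 1 (𝔇 i).n), Comp 𝔇 (i - 1) o y) →
  ∃ σ, IsV 𝔇 i c σ ∧ Le σ o

/-- folding the component of a centre -/
def FOLDp (i : ℕ) : Prop := ∀ N, i ≤ N → Th 𝔇 N → ∀ s F k x c, Pre 𝔇 N i s F k → x ∈ Dm i s →
  Reach 𝔇 N s (fun s' => Pre 𝔇 N i s' F k ∧ Dm i s' = Sat (Kall 𝔇 s') (Dm i s) ∧ Up 𝔇 i s s' ∧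
    (cenA 𝔇 i s' c x → s' x (i, some c) ≠ 0)) (fun o => Comp 𝔇 i o x)

/-- folding the three components of a point -/
def F3p (i : ℕ) : Prop := ∀ N, i ≤ N → Th 𝔇 N → ∀ s F k x, Pre 𝔇 N i s F k → x ∈ Dm i s →
  Reach 𝔇 N s (fun s' => Pre 𝔇 N i s' F k ∧ Dm i s' = Sat (Kall 𝔇 s') (Dm i s) ∧ Up 𝔇 i s s' ∧
    ∀ c, cenA 𝔇 i s' c x → s' x (i, some c) ≠ 0) (fun o => Comp 𝔇 i o x)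

/-- component of a folded centre -/
def cp (j : ℕ) (s : St p) (c : Fin 3) (x : Gam p) : Set (Gam p) :=
  Sat (K 𝔇 (j - 1) s) (lm x (core 𝔇 j c (s x (j, some c))))

/-- group of the component of a folded centre -/
def cgp (j : ℕ) (s : St p) (c : Fin 3) (x : Gam p) : Subgroup (Gam p) :=
  K 𝔇 (j - 1) s ⊔ cjs x ((𝔇 j).L c (s x (j, some c)))

theorem mem_fam {j : ℕ} {s : St p} {T : Set (Gam p) × Subgroup (Gam p)} : T ∈ fam 𝔇 j s ↔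
    ∃ x c, s x (j, some c) ≠ 0 ∧ T = (cp 𝔇 j s c x, cgp 𝔇 j s c x) := Iff.rfl

/-- the state after the growth of the view of an unfolded centre -/
def Cur (N i : ℕ) (s : St p) (F : Set (Gam p)) (k : ℕ) (x : Gam p) (c : Fin 3) : Prop :=
  Good 𝔇 N s ∧ Tow 𝔇 (i - 1) s ∧ ExC 𝔇 i s ∧ Shape 𝔇 i s F k ∧ Sup i s ∧
    (∀ k', k' + 1 ≤ k → ∀ y ∈ Nb k' (Sat (Kall 𝔇 s) F), ∀ c', cenA 𝔇 i s c' y →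
      s y (i, some c') ≠ 0) ∧ x ∈ Dm i s ∧ cenA 𝔇 i s c x ∧ s x (i, some c) = 0 ∧
    Dm (i - 1) s = Nb (𝔇 i).θ (Sat (Kall 𝔇 s) (Dm i s ∪ Cen i s ∪ Tn 𝔇 i s c x (𝔇 i).n)) ∧
    QC (dj 𝔇 (i - 1) s) (Sat (Kall 𝔇 s) (Dm i s ∪ Cen i s ∪ Tn 𝔇 i s c x (𝔇 i).n))
      (1000 * ((𝔇 (i - 1)).δ + (𝔇 i).κ + 1))

/-- agreement of level data up to level `j` -/
def Ag (j : ℕ) (𝔇' : ℕ → Lev p) : Prop := ∀ i ≤ j, 𝔇 i = 𝔇' i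

/-- same rule and same constants -/
def REq (A B : Lev p) : Prop := A.κ = B.κ ∧ A.J = B.J ∧ A.l = B.l ∧ A.ρ = B.ρ ∧ A.Δ = B.Δ ∧
  A.θ = B.θ ∧ A.n = B.n ∧ A.g = B.g ∧ A.nE = B.nE ∧ A.cen = B.cen ∧ A.nb = B.nb

end props

/-- row Mon -/
def MonStmt : Prop := ∀ (p : ℕ) (𝔇 : ℕ → Lev p) (j : ℕ), 1 ≤ j → OK 𝔇 j → GEOp 𝔇 (j - 1) →
  MONp 𝔇 j

/-- row CP: components of folded centres -/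
def CPStmt : Prop := ∀ (p : ℕ) (𝔇 : ℕ → Lev p) (j : ℕ), 1 ≤ j → OK 𝔇 j → GEOp 𝔇 (j - 1) →
  ∀ s, ValZ 𝔇 j s → ∀ c,
  (∀ x, s x (j, some c) ≠ 0 → x ∈ cp 𝔇 j s c x ∧
    (∀ y ∈ cp 𝔇 j s c x, s y (j, some c) ≠ 0 ∧ cenA 𝔇 j s c y ∧
      (∀ u, len u ≤ (𝔇 j).θ → Comp 𝔇 (j - 1) s (y * u)) ∧ cp 𝔇 j s c y = cp 𝔇 j s c x ∧
      cgp 𝔇 j s c y = cgp 𝔇 j s c x ∧ ∀ b, Adj 𝔇 j s c y b → b ∈ cp 𝔇 j s c x) ∧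
    (∀ t, Tn 𝔇 j s c x t ⊆ cp 𝔇 j s c x) ∧
    ∀ a ∈ cp 𝔇 j s c x, ∀ b ∈ cp 𝔇 j s c x, ∃ ξ n, Short 𝔇 j s c ξ n ∧ ξ 0 = a ∧
      ξ n * b⁻¹ ∈ K 𝔇 (j - 1) s ∧ ∀ t ≤ n, ξ t ∈ cp 𝔇 j s c x) ∧
  ∀ ξ n, RPath 𝔇 j s c ξ n → s (ξ n) (j, some c) ≠ 0 → s (ξ 0) (j, some c) ≠ 0

/-- row SCC: the folded components satisfy the small cancellation axioms -/
def SCCStmt : Prop := ∀ (p : ℕ) (𝔇 : ℕ → Lev p) (j : ℕ), 1 ≤ j → OK 𝔇 j → GEOp 𝔇 (j - 1) →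
  SCp 𝔇 j

/-- row AB -/
def ABStmt : Prop := ∀ (p : ℕ) (𝔇 : ℕ → Lev p) (j : ℕ), 1 ≤ j → OK 𝔇 j → GEOp 𝔇 (j - 1) →
  SCp 𝔇 j → MONp 𝔇 j → ABp 𝔇 j

/-- row ST -/
def STStmt : Prop := ∀ (p : ℕ) (𝔇 : ℕ → Lev p) (j : ℕ), HYp 𝔇 j → ABp 𝔇 j → STp 𝔇 j

/-- row Tow, part 1: hypotheses of the abstract descent and gate lemmas -/
def SQCStmt : Prop := ∀ (p : ℕ) (𝔇 : ℕ → Lev p) (N i : ℕ), Th 𝔇 N → 1 ≤ i → i ≤ N →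
  ∀ s F k, Good 𝔇 N s → ExC 𝔇 i s → Shape 𝔇 i s F k →
  SQ (dj 𝔇 (i - 1) s) (K 𝔇 i s) (Sat (Kall 𝔇 s) F) k ((𝔇 (i - 1)).δ + (𝔇 i).κ + 1) ∧
  (∀ T ∈ fam 𝔇 i s, ∃ c ∈ T.1, ∃ q ∈ Sat (Kall 𝔇 s) F, dj 𝔇 (i - 1) s c q ≤ k + 1) ∧
  (⋃ T ∈ fam 𝔇 i s, T.1) = Cen i s ∧
  QC (dj 𝔇 (i - 1) s) (Dm i s ∪ Cen i s) (500 * ((𝔇 (i - 1)).δ + (𝔇 i).κ + 1))

/-- row Tow, part 2: shapes descend along towers -/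
def TowStmt : Prop := ∀ (p : ℕ) (𝔇 : ℕ → Lev p) (N j : ℕ), Th 𝔇 N → j ≤ N →
  ∀ s, Good 𝔇 N s → Tow 𝔇 j s → Dm 0 s ⊆ Nb (𝔇 j).δ (Dm j s) ∧
  ∀ F k, Shape 𝔇 j s F k → QC d0 (Dm 0 s) 17 ∧
    (1 ≤ j → Shape 𝔇 (j - 1) s (Dm j s ∪ Cen j s) (𝔇 j).θ)

/-- row QCT, part 1: transfer of quasi convexity to an extension -/
def QCTStmt : Prop := ∀ (p : ℕ) (𝔇 : ℕ → Lev p) (i : ℕ), STp 𝔇 i →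
  ∀ s s' (P : Set (Gam p)) κ, ValZ 𝔇 i s → ValZ 𝔇 i s' → Le s s' →
  (∀ k ∈ K 𝔇 i s, ∀ y ∈ P, k * y ∈ P) → QC (dj 𝔇 i s) P κ →
  (∀ y ∈ Nb (κ + 200 * ((𝔇 i).δ + 1)) P, Comp 𝔇 i s y) →
  QC (dj 𝔇 i s') (Sat (K 𝔇 i s') P) κ ∧ (∀ a ∈ P, ∀ b ∈ P, dj 𝔇 i s' a b = dj 𝔇 i s a b) ∧
    ∀ a ∈ P, ∀ b ∈ P, ∀ m', Btw (dj 𝔇 i s') a m' b →
      ∃ m, Btw (dj 𝔇 i s) a m b ∧ m' * m⁻¹ ∈ K 𝔇 i s'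

/-- row QCT, part 2 -/
def RSUpStmt : Prop := ∀ (p : ℕ) (𝔇 : ℕ → Lev p) (N i : ℕ), Th 𝔇 N → i ≤ N →
  ∀ s s' F k, Good 𝔇 N s → Good 𝔇 N s' → Le s s' → Kall 𝔇 s' ≤ Kall 𝔇 s ⊔ K 𝔇 i s' →
  RS 𝔇 i s F k → RS 𝔇 i s' F k

/-- row QCT, part 3: elements with small displacement come from low levels -/
def IRStmt : Prop := ∀ (p : ℕ) (𝔇 : ℕ → Lev p) (N i : ℕ), Th 𝔇 N → 1 ≤ i → i ≤ N →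
  ∀ s, ValZ 𝔇 N s → ∀ b, ∀ k ∈ K 𝔇 N s, 2 * dj 𝔇 (i - 1) s b (k * b) < (𝔇 i).g →
  k ∈ K 𝔇 (i - 1) s

/-- row InjB: a tower injects into every valid extension, up to its boundary -/
def InjBStmt : Prop := ∀ (p : ℕ) (𝔇 : ℕ → Lev p) (N j : ℕ), Th 𝔇 N → j ≤ N →
  ∀ B s F k, Good 𝔇 N B → Tow 𝔇 j B → Shape 𝔇 j B F k → ValZ 𝔇 j s → Le B s →
  ∀ b ∈ Nb 100 (Dm 0 B), ∀ h ∈ K 𝔇 j s, h * b ∈ Nb 100 (Dm 0 B) → h ∈ K 𝔇 j B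

/-- row Uniq, part 1: towers are locally determined by their top region -/
def LUStmt : Prop := ∀ (p : ℕ) (𝔇 : ℕ → Lev p) (N j : ℕ), Th 𝔇 N → j ≤ N →
  ∀ B s o (H : Subgroup (Gam p)), ValZ 𝔇 j B → ValZ 𝔇 j s → ValZ 𝔇 j o → Le B o → Le s o →
  Tow 𝔇 j B → Tow 𝔇 j s → (∀ h ∈ H, tr h o = o) → ∀ b r,
  (∀ u, len u ≤ r + (𝔇 j).δ → b * u ∈ Dm j s → b * u ∈ Sat H (Dm j B)) →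
  ∀ u, len u ≤ r → ∀ κ, 2 ≤ rk κ → rk κ ≤ 2 * j + 2 → s (b * u) κ ≠ 0 →
    ∃ h ∈ H, B (h * (b * u)) κ ≠ 0

/-- row Uniq, part 2 -/
def UniqStmt : Prop := ∀ (p : ℕ) (𝔇 : ℕ → Lev p) (N : ℕ), Th 𝔇 N →
  ∀ B B' o F k F' k' (X : Set (Gam p)), Good 𝔇 N B → Good 𝔇 N B' → Tow 𝔇 N B → Tow 𝔇 N B' →
  Shape 𝔇 N B F k → Shape 𝔇 N B' F' k' → ValZ 𝔇 N o → Le B o → Le B' o → X.Nonempty →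
  Dm N B = Sat (Kall 𝔇 B) X → Dm N B' = Sat (Kall 𝔇 B') X → B = B'

/-- row Glue: amalgam of two states -/
def GlueStmt : Prop := ∀ (p : ℕ) (𝔇 : ℕ → Lev p) (N : ℕ) (s₁ s₂ B : St p), Good 𝔇 N s₁ →
  Good 𝔇 N s₂ → Good 𝔇 N B → Le B s₁ → Le B s₂ →
  (∀ h ∈ Kall 𝔇 s₁ ⊔ Kall 𝔇 s₂, ∀ u κ, s₁ u κ ≠ 0 → s₁ (h * u) κ ≠ 0 → h ∈ Kall 𝔇 s₁) →
  (∀ h ∈ Kall 𝔇 s₁ ⊔ Kall 𝔇 s₂, ∀ u κ, s₂ u κ ≠ 0 → s₂ (h * u) κ ≠ 0 → h ∈ Kall 𝔇 s₂) →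
  (∀ h ∈ Kall 𝔇 s₁ ⊔ Kall 𝔇 s₂, ∀ u κ, s₁ u κ ≠ 0 → s₂ (h * u) κ ≠ 0 →
    ∃ b, B b κ ≠ 0 ∧ b * u⁻¹ ∈ Kall 𝔇 s₁ ∧ b * (h * u)⁻¹ ∈ Kall 𝔇 s₂) →
  (∀ k ∈ Kall 𝔇 s₂, ∀ b κ, B b κ ≠ 0 → B (k * b) κ ≠ 0 → k ∈ Kall 𝔇 B) →
  ∃ s, Good 𝔇 N s ∧ Le s₁ s ∧ Le s₂ s ∧ Kall 𝔇 s = Kall 𝔇 s₁ ⊔ Kall 𝔇 s₂ ∧
    (∀ q κ, s q κ ≠ 0 → ∃ h ∈ Kall 𝔇 s, s₁ (h * q) κ ≠ 0 ∨ s₂ (h * q) κ ≠ 0) ∧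
    W 𝔇 s * W 𝔇 B = W 𝔇 s₁ * W 𝔇 s₂ ∧ ∀ o, Val 𝔇 N o → Le s₁ o → Le s₂ o → Le s o

/-- row BGlue: amalgam of two towers over a common tower -/
def BGlueStmt : Prop := ∀ (p : ℕ) (𝔇 : ℕ → Lev p) (N j : ℕ), Th 𝔇 N → j ≤ N →
  ∀ s₁ s₂ B : St p, Good 𝔇 N s₁ → Good 𝔇 N s₂ → Good 𝔇 j B → Le B s₁ → Le B s₂ →
  Tow 𝔇 j s₁ → Tow 𝔇 j s₂ → Tow 𝔇 j B → (∃ F k, Shape 𝔇 j s₁ F k) → (∃ F k, Shape 𝔇 j s₂ F k) →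
  (∃ F k, Shape 𝔇 j B F k) → Sup j s₁ → Sup j s₂ →
  (∀ b ∈ Nb 100 (Dm 0 B), ∀ k ∈ Kall 𝔇 s₁, k * b ∈ Nb 100 (Dm 0 B) → k ∈ K 𝔇 j s₁) →
  (∀ b ∈ Nb 100 (Dm 0 B), ∀ k ∈ Kall 𝔇 s₂, k * b ∈ Nb 100 (Dm 0 B) → k ∈ K 𝔇 j s₂) →
  (∀ b ∈ Nb 20 (Dm 0 B), CaseA 𝔇 j s₁ B b ∨ CaseA 𝔇 j s₂ B b) →
  (∀ b ∈ Nb 20 (Dm 0 B), ∀ κ, 2 * j + 2 < rk κ → s₁ b κ = 0 ∨ s₂ b κ = 0) →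
  ∃ s, Good 𝔇 N s ∧ Le s₁ s ∧ Le s₂ s ∧ Kall 𝔇 s = Kall 𝔇 s₁ ⊔ Kall 𝔇 s₂ ∧
    (∀ q κ, s q κ ≠ 0 → ∃ h ∈ Kall 𝔇 s, s₁ (h * q) κ ≠ 0 ∨ s₂ (h * q) κ ≠ 0) ∧
    W 𝔇 s * W 𝔇 B = W 𝔇 s₁ * W 𝔇 s₂ ∧ (∀ o, Val 𝔇 N o → Le s₁ o → Le s₂ o → Le s o) ∧
    Tow 𝔇 j s ∧
    (∀ q ∈ Dm 0 s₁, ∀ κ, s₁ q κ = 0 → s q κ ≠ 0 → ∃ b, B b κ = 0 ∧ s₂ b κ ≠ 0) ∧
    (∀ q ∈ Dm 0 s₂, ∀ κ, s₂ q κ = 0 → s q κ ≠ 0 → ∃ b ∈ Nb 20 (Dm 0 B), b * q⁻¹ ∈ Kall 𝔇 s₂ ∧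
      s₁ b κ ≠ 0 ∧ (rk κ ≤ 2 * j + 2 → ¬ CaseA 𝔇 j s₁ B b))

/-- row GL, part 1: adding one mark -/
def EpsStmt : Prop := ∀ (p : ℕ) (𝔇 : ℕ → Lev p) (N i : ℕ), Th 𝔇 N → i ≤ N → ∀ s x,
  Good 𝔇 N s → x ∉ Dm i s →
  Reach 𝔇 N s (fun s' => Kall 𝔇 s' = Kall 𝔇 s ∧ Dm i s' = Dm i s ∪ Sat (Kall 𝔇 s) {x} ∧
    ∀ y κ, κ ≠ (i + 1, none) → s' y κ = s y κ) (fun o => o x (i + 1, none) ≠ 0)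

/-- row GL, part 2 -/
def F3Stmt : Prop := ∀ (p : ℕ) (𝔇 : ℕ → Lev p) (i : ℕ), 1 ≤ i → FOLDp 𝔇 i → F3p 𝔇 i

/-- row GL, part 3 -/
def GLStmt : Prop := ∀ (p : ℕ) [NeZero p] (𝔇 : ℕ → Lev p), GLp 𝔇 0 ∧
  ∀ i, 1 ≤ i → GBp 𝔇 (i - 1) → F3p 𝔇 i → GLp 𝔇 i

/-- row GB -/
def GBStmt : Prop := ∀ (p : ℕ) [NeZero p] (𝔇 : ℕ → Lev p) (i : ℕ),
  (GLp 𝔇 i → GLFp 𝔇 i) ∧ (GLFp 𝔇 i → GBp 𝔇 i)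

/-- row VG -/
def VGStmt : Prop := ∀ (p : ℕ) [NeZero p] (𝔇 : ℕ → Lev p) (i : ℕ), 1 ≤ i →
  (GBp 𝔇 (i - 1) → VGp 𝔇 i) ∧ (BALLp 𝔇 (i - 1) → VGp 𝔇 i → VXp 𝔇 i)

/-- row Ball, part 1 -/
def BallStmt : Prop := ∀ (p : ℕ) [NeZero p] (𝔇 : ℕ → Lev p), (GLFp 𝔇 0 → BALLp 𝔇 0) ∧
  ∀ i, (F3p 𝔇 (i + 1) → UPp 𝔇 i) ∧
    (BALLp 𝔇 i → UPp 𝔇 i → GLFp 𝔇 (i + 1) → BALLp 𝔇 (i + 1))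

/-- row Ball, part 2: growing and recentring balls -/
def GrowStmt : Prop := ∀ (p : ℕ) [NeZero p] (𝔇 : ℕ → Lev p) (N : ℕ), Th 𝔇 N → GLFp 𝔇 N →
  ∀ s r, IsBall 𝔇 N r s →
  (∀ r', r ≤ r' → Reach 𝔇 N s (IsBall 𝔇 N r') (fun o => ∀ u, len u ≤ r' → Comp 𝔇 N o u)) ∧
  ∀ g, len g ≤ 1 → Reach 𝔇 N (tr g s) (IsBall 𝔇 N (r + 1))
    (fun o => ∀ u, len u ≤ r + 1 → Comp 𝔇 N o u)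

/-- row Dich: near the old region the component of an unfolded centre stays near the centre -/
def DichStmt : Prop := ∀ (p : ℕ) (𝔇 : ℕ → Lev p) (N i : ℕ), Th 𝔇 N → 1 ≤ i → i ≤ N →
  ∀ s F k x c, Cur 𝔇 N i s F k x c → ∀ y ∈ Tn 𝔇 i s c x (𝔇 i).n, ∀ q ∈ Dm i s ∪ Cen i s,
  dj 𝔇 (i - 1) s y q ≤ 3 * (𝔇 i).θ → dj 𝔇 (i - 1) s x y ≤ 301 * (𝔇 i).θ

/-- row FGa: the dichotomy for the fold -/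
def FGaStmt : Prop := ∀ (p : ℕ) (𝔇 : ℕ → Lev p) (N i : ℕ), Th 𝔇 N → 1 ≤ i → i ≤ N →
  ∀ s F k x c σ z, Cur 𝔇 N i s F k x c → IsV 𝔇 i c σ → Le (tr x σ) s → z ∈ (𝔇 i).Z c →
  Le σ ((𝔇 i).τ c z) → ∀ b ∈ Nb 20 (Dm 0 (tr x σ)),
  (CaseA 𝔇 (i - 1) s (tr x σ) b ∧ b ∉ Cen i s) ∨
  (CaseA 𝔇 (i - 1) (tr x ((𝔇 i).τ c z)) (tr x σ) b ∧
    dj 𝔇 (i - 1) (tr x ((𝔇 i).τ c z)) x b ≤ 303 * (𝔇 i).θ ∧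
    (b ∈ lm x (core 𝔇 i c z) → s b (i, some c) = 0))

/-- row FG: gluing one model -/
def FGStmt : Prop := ∀ (p : ℕ) (𝔇 : ℕ → Lev p) (N i : ℕ), Th 𝔇 N → 1 ≤ i → i ≤ N →
  ∀ s F k x c σ z, Cur 𝔇 N i s F k x c → IsV 𝔇 i c σ → Le (tr x σ) s → z ∈ (𝔇 i).Z c →
  Le σ ((𝔇 i).τ c z) →
  ∃ s', Good 𝔇 N s' ∧ Le s s' ∧ Le (tr x ((𝔇 i).τ c z)) s' ∧ Pre 𝔇 N i s' F k ∧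
    Dm i s' = Sat (Kall 𝔇 s') (Dm i s) ∧ Up 𝔇 i s s' ∧ (Inc s → Inc s') ∧
    W 𝔇 s' * W 𝔇 σ = W 𝔇 s * W 𝔇 ((𝔇 i).τ c z) ∧
    ∀ o, Val 𝔇 N o → Le s o → Le (tr x ((𝔇 i).τ c z)) o → Le s' o

/-- row Fold -/
def FoldStmt : Prop := ∀ (p : ℕ) [NeZero p] (𝔇 : ℕ → Lev p) (i : ℕ), 1 ≤ i →
  VGp 𝔇 i → VXp 𝔇 i → FOLDp 𝔇 i

/-- row Fam, part 1: the canonical states over a ball -/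
def FamStmt : Prop := ∀ (p : ℕ) (𝔇 : ℕ → Lev p) (N : ℕ), Th 𝔇 N → BALLp 𝔇 N → ∀ r,
  ∃ ℱ : Finset (St p), (∀ s, s ∈ ℱ ↔ IsBall 𝔇 N r s) ∧ (∀ s ∈ ℱ, Inc s) ∧
    (∀ a ∈ ℱ, ∀ b ∈ ℱ, a ≠ b → Incomp a b) ∧ ∑ s ∈ ℱ, W 𝔇 s = 1 ∧
    ∀ o, Val 𝔇 N o → (∀ u, len u ≤ r → Comp 𝔇 N o u) → ∃ s ∈ ℱ, Le s o

/-- row Fam, part 2: changing the values of the top marks -/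
def RelabStmt : Prop := ∀ (p : ℕ) (𝔇 : ℕ → Lev p) (N r : ℕ), Th 𝔇 N → ∀ s s', IsBall 𝔇 N r s →
  (∀ x κ, κ ≠ (N + 1, none) → s' x κ = s x κ) →
  (∀ x, s' x (N + 1, none) = 0 ↔ s x (N + 1, none) = 0) →
  (∀ x, s' x (N + 1, none) ≤ (𝔇 (N + 1)).nE) →
  (∀ k ∈ Kall 𝔇 s, ∀ x, s' (k * x) (N + 1, none) = s' x (N + 1, none)) →
  IsBall 𝔇 N r s' ∧ Kall 𝔇 s' = Kall 𝔇 s ∧ W 𝔇 s' = W 𝔇 s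

/-- row Fam, part 3: two views below a valid state are equal -/
def VUStmt : Prop := ∀ (p : ℕ) (𝔇 : ℕ → Lev p) (i : ℕ), 1 ≤ i → Th 𝔇 (i - 1) → RuleOK 𝔇 i →
  ConstA 𝔇 i → ∀ c σ, IsV 𝔇 i c σ → Shape 𝔇 (i - 1) σ (Tn 𝔇 i σ c 1 (𝔇 i).n) (𝔇 i).θ ∧
    (∀ y ∈ Tn 𝔇 i σ c 1 (𝔇 i).n, RC 𝔇 i σ y) ∧
    ∀ σ' o, IsV 𝔇 i c σ' → ValZ 𝔇 (i - 1) o → Le σ o → Le σ' o → σ = σ'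

/-- row Cong: all notions only depend on the relevant levels -/
def CongStmt : Prop := ∀ (p : ℕ) (𝔇 𝔇' : ℕ → Lev p) (j : ℕ), Ag 𝔇 j 𝔇' →
  (∀ i ≤ j, K 𝔇 i = K 𝔇' i ∧ ValZ 𝔇 i = ValZ 𝔇' i ∧ Comp 𝔇 i = Comp 𝔇' i ∧ Tow 𝔇 i = Tow 𝔇' i ∧
    mk 𝔇 (i + 1) = mk 𝔇' (i + 1)) ∧
  (∀ s, Lv j s → Kall 𝔇 s = Kall 𝔇' s) ∧ (∀ i, 1 ≤ i → i ≤ j → OK 𝔇 i → OK 𝔇' i) ∧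
  (REq (𝔇 (j + 1)) (𝔇' (j + 1)) → Val 𝔇 j = Val 𝔇' j ∧ Good 𝔇 j = Good 𝔇' j ∧
    (∀ s, Lv j s → W 𝔇 s = W 𝔇' s) ∧ cenA 𝔇 (j + 1) = cenA 𝔇' (j + 1) ∧
    nbA 𝔇 (j + 1) = nbA 𝔇' (j + 1) ∧ RC 𝔇 (j + 1) = RC 𝔇' (j + 1) ∧
    Adj 𝔇 (j + 1) = Adj 𝔇' (j + 1) ∧ Tn 𝔇 (j + 1) = Tn 𝔇' (j + 1) ∧
    IsV 𝔇 (j + 1) = IsV 𝔇' (j + 1) ∧ (RuleOK 𝔇 (j + 1) → RuleOK 𝔇' (j + 1)) ∧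
    (ConstA 𝔇 (j + 1) → ConstA 𝔇' (j + 1)) ∧ (Th 𝔇 j → Th 𝔇' j))

/-- row One: the first level -/
def OneStmt : Prop := ∃ g : ℕ, ∀ (p : ℕ) [NeZero p] (N : Fin 3 → Subgroup (Gam p)), NData p N g →
  ∃ A : Lev p, ∀ 𝔇 : ℕ → Lev p, (𝔇 0).δ = 2 → 𝔇 1 = A → OK 𝔇 1 ∧ L1 𝔇 N

end Pool.Agent.MP_735563_an.H2
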