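import Pool.Agent.MP_735563_an.H2.Spec2

set_option autoImplicit false

/-! Statements of the model rows. -/

namespace Pool.Agent.MP_735563_an.H2

section defs

variable {p : ℕ} (𝔇 : ℕ → Lev p)

/-- path of rule steps -/
def APath (i : ℕ) (s : St p) (c : Fin 3) (ξ : ℕ → Gam p) (n : ℕ) : Prop :=
  ∀ t < n, Adj 𝔇 i s c (ξ t) (ξ (t + 1))

/-- no backtracking -/
def NBk (i : ℕ) (s : St p) (ξ : ℕ → Gam p) (n : ℕ) : Prop :=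
  ∀ t, t + 2 ≤ n → ξ (t + 2) * (ξ t)⁻¹ ∉ K 𝔇 (i - 1) s

/-- extra properties of the rules of level at least two -/
structure RX (i : ℕ) : Prop where
  c0 : ∀ M c, (𝔇 i).cen M c → c = 0
  sym : ∀ s, ValZ 𝔇 (i - 1) s → ∀ c a b, Adj 𝔇 i s c a b → Adj 𝔇 i s c b a
  nb : ∀ s, ValZ 𝔇 (i - 1) s → ∀ c ξ n, APath 𝔇 i s c ξ n → NBk 𝔇 i s ξ n →
    1000 * n ≤ 2 * dj 𝔇 (i - 1) s (ξ 0) (ξ n) + (𝔇 i).J ∧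
    (1 ≤ n → ξ n * (ξ 0)⁻¹ ∉ K 𝔇 (i - 1) s) ∧
    ∀ m, Btw (dj 𝔇 (i - 1) s) (ξ 0) m (ξ n) → ∃ t ≤ n, dj 𝔇 (i - 1) s m (ξ t) ≤ (𝔇 i).κ
  deg : ∀ s, ValZ 𝔇 (i - 1) s → ∀ c a, ∃ F : Finset (Gam p), F.card ≤ 10000 ∧
    ∀ b, Adj 𝔇 i s c a b → ∃ f ∈ F, b * f⁻¹ ∈ K 𝔇 (i - 1) s
  J : (𝔇 i).J ≤ (𝔇 i).θ
  vol : ∃ R : ℕ, R + 4 * (𝔇 i).θ ≤ (𝔇 i).n ∧ 12 * (2 * (R : ℝ) + 1) ^ 2 * (5 / 6) ^ R *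
    ((3 * p : ℝ) ^ ((𝔇 i).θ + (𝔇 (i - 1)).δ) *
      10001 ^ ((2 * (R + (𝔇 i).θ + (𝔇 (i - 1)).δ) + (𝔇 i).J) / 1000)) ^ 2 < 1

/-- points of a core with the same label are equivalent -/
def M7 (A : Lev p) (i : ℕ) : Prop := ∀ c, ∀ z ∈ A.Z c, ∀ e e', A.τ c z e (i, some c) ≠ 0 →
  A.τ c z e' (i, some c) = A.τ c z e (i, some c) → e' * e⁻¹ ∈ A.L c z

/-- standing hypotheses for the construction of the models of level `i` -/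
structure Ctx (i : ℕ) : Prop where
  two : 2 ≤ i
  th : Th 𝔇 (i - 1)
  rule : RuleOK 𝔇 i
  const : ConstA 𝔇 i
  rx : RX 𝔇 i

/-- connected in the rule graph -/
def Con (i : ℕ) (s : St p) (c : Fin 3) (a b : Gam p) : Prop :=
  ∃ ξ n, ξ 0 = a ∧ ξ n * b⁻¹ ∈ K 𝔇 (i - 1) s ∧ APath 𝔇 i s c ξ n

/-- distance in the rule graph -/
noncomputable def rd (i : ℕ) (s : St p) (c : Fin 3) (a b : Gam p) : ℕ :=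
  sInf {n | ∃ ξ, ξ 0 = a ∧ ξ n * b⁻¹ ∈ K 𝔇 (i - 1) s ∧ APath 𝔇 i s c ξ n}

/-- the rule graph is a forest -/
structure TreeP (i : ℕ) (s : St p) (c : Fin 3) : Prop where
  eqv : ∀ a b, b * a⁻¹ ∈ K 𝔇 (i - 1) s → Con 𝔇 i s c a b ∧ rd 𝔇 i s c a b = 0
  symm : ∀ a b, Con 𝔇 i s c a b → Con 𝔇 i s c b a ∧ rd 𝔇 i s c b a = rd 𝔇 i s c a b
  tri : ∀ a b e, Con 𝔇 i s c a b → Con 𝔇 i s c b e → Con 𝔇 i s c a e ∧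
    rd 𝔇 i s c a e ≤ rd 𝔇 i s c a b + rd 𝔇 i s c b e
  zero : ∀ a b, Con 𝔇 i s c a b → rd 𝔇 i s c a b = 0 → b * a⁻¹ ∈ K 𝔇 (i - 1) s
  adj : ∀ a b, Adj 𝔇 i s c a b → Con 𝔇 i s c a b ∧ rd 𝔇 i s c a b = 1
  congr : ∀ a b a' b', a' * a⁻¹ ∈ K 𝔇 (i - 1) s → b' * b⁻¹ ∈ K 𝔇 (i - 1) s →
    rd 𝔇 i s c a' b' = rd 𝔇 i s c a b
  qi : ∀ a b, Con 𝔇 i s c a b → 1000 * rd 𝔇 i s c a b ≤ 2 * dj 𝔇 (i - 1) s a b + (𝔇 i).J ∧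
    dj 𝔇 (i - 1) s a b ≤ (𝔇 i).l * rd 𝔇 i s c a b
  side : ∀ x x' y, Adj 𝔇 i s c x x' → Con 𝔇 i s c x y →
    rd 𝔇 i s c x y = rd 𝔇 i s c x' y + 1 ∨ rd 𝔇 i s c x' y = rd 𝔇 i s c x y + 1
  cut : ∀ x x' y y', Adj 𝔇 i s c x x' → Con 𝔇 i s c x y → Con 𝔇 i s c x y' →
    rd 𝔇 i s c x y = rd 𝔇 i s c x' y + 1 → rd 𝔇 i s c x' y' = rd 𝔇 i s c x y' + 1 →
    rd 𝔇 i s c y y' = rd 𝔇 i s c x' y + 1 + rd 𝔇 i s c x y'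
  parent : ∀ o a a' b, Adj 𝔇 i s c b a → Adj 𝔇 i s c b a' → Con 𝔇 i s c b o →
    rd 𝔇 i s c a o ≤ rd 𝔇 i s c b o → rd 𝔇 i s c a' o ≤ rd 𝔇 i s c b o →
    a' * a⁻¹ ∈ K 𝔇 (i - 1) s
  tn : ∀ a b t, b ∈ Sat (K 𝔇 (i - 1) s) (Tn 𝔇 i s c a t) ↔ Con 𝔇 i s c a b ∧ rd 𝔇 i s c a b ≤ t
  qc : ∀ F : Set (Gam p), (∀ a ∈ F, ∀ b ∈ F, ∃ ξ n, ξ 0 = a ∧ ξ n * b⁻¹ ∈ K 𝔇 (i - 1) s ∧
    APath 𝔇 i s c ξ n ∧ ∀ t ≤ n, ξ t ∈ Sat (K 𝔇 (i - 1) s) F) →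
    QC (dj 𝔇 (i - 1) s) (Sat (K 𝔇 (i - 1) s) F) (𝔇 i).κ
  cnt : ∀ a t, ∃ G : Finset (Gam p), G.card ≤ 10001 ^ t ∧
    ∀ b, Con 𝔇 i s c a b → rd 𝔇 i s c a b ≤ t → ∃ f ∈ G, b * f⁻¹ ∈ K 𝔇 (i - 1) s
  geo : ∀ a b t, Con 𝔇 i s c a b → t ≤ rd 𝔇 i s c a b →
    ∃ e, Con 𝔇 i s c a e ∧ rd 𝔇 i s c a e = t

/-- the common part of two neighbouring views -/
def IsE (i : ℕ) (e : St p) (w : Gam p) : Prop :=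
  Good 𝔇 (i - 1) e ∧ Tow 𝔇 (i - 1) e ∧ Adj 𝔇 i e 0 1 w ∧
    Dm (i - 1) e = Nb (𝔇 i).θ (Sat (Kall 𝔇 e)
      (Tn 𝔇 i e 0 1 ((𝔇 i).n - 1) ∪ Tn 𝔇 i e 0 w ((𝔇 i).n - 1)))

/-- a finite graph whose vertices carry views and whose edges carry words -/
structure GD (i : ℕ) {Z : Type} (vw : Z → St p) (H : Z → Finset (Gam p))
    (nx : Z × Gam p → Z × Gam p) (wd : Z × Gam p → Gam p) : Prop where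
  view : ∀ z, IsV 𝔇 i 0 (vw z)
  mem : ∀ e, e.2 ∈ H e.1 → (nx e).2 ∈ H (nx e).1
  inv : ∀ e, e.2 ∈ H e.1 → nx (nx e) = e
  wdi : ∀ e, e.2 ∈ H e.1 → wd (nx e) = (wd e)⁻¹
  len : ∀ e, e.2 ∈ H e.1 → len (wd e) ≤ (𝔇 i).l
  edge : ∀ e, e.2 ∈ H e.1 → ∃ E, IsE 𝔇 i E (wd e) ∧ Le E (vw e.1) ∧
    Le (tr (wd e)⁻¹ E) (vw (nx e).1)
  sep : ∀ z, ∀ a ∈ H z, ∀ a' ∈ H z, wd (z, a') * (wd (z, a))⁻¹ ∈ K 𝔇 (i - 1) (vw z) → a = a'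
  all : ∀ z b, Adj 𝔇 i (vw z) 0 1 b → ∃ a ∈ H z, b * (wd (z, a))⁻¹ ∈ K 𝔇 (i - 1) (vw z)

/-- end vertex and position of a walk, the head of the list is the last step -/
def wk {Z : Type} (nx : Z × Gam p → Z × Gam p) (wd : Z × Gam p → Gam p) (z : Z) :
    List (Gam p) → Z × Gam p
  | [] => (z, 1)
  | a :: t => ((nx ((wk nx wd z t).1, a)).1, (wk nx wd z t).2 * wd ((wk nx wd z t).1, a))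

/-- walk without backtracking -/
def nbw {Z : Type} (H : Z → Finset (Gam p)) (nx : Z × Gam p → Z × Gam p)
    (wd : Z × Gam p → Gam p) (z : Z) : List (Gam p) → Prop
  | [] => True
  | [a] => a ∈ H z
  | a :: b :: t => nbw H nx wd z (b :: t) ∧ a ∈ H (wk nx wd z (b :: t)).1 ∧
      ((wk nx wd z (b :: t)).1, a) ≠ nx ((wk nx wd z t).1, b)

/-- `g` is the position of a walk from `z` to `z'` -/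
def Pos {Z : Type} (H : Z → Finset (Gam p)) (nx : Z × Gam p → Z × Gam p)
    (wd : Z × Gam p → Gam p) (z : Z) (g : Gam p) (z' : Z) : Prop :=
  ∃ t, nbw H nx wd z t ∧ wk nx wd z t = (z', g)

/-- the view at the end of a walk, placed at its position -/
def piece {Z : Type} (vw : Z → St p) (nx : Z × Gam p → Z × Gam p) (wd : Z × Gam p → Gam p)
    (z : Z) (t : List (Gam p)) : St p := tr (wk nx wd z t).2 (vw (wk nx wd z t).1)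

/-- the universal cover of the finite graph with all its views -/
structure MC (i : ℕ) {Z : Type} (vw τ : Z → St p) (P : Z → Gam p → Z → Prop) : Prop where
  view : ∀ z, IsV 𝔇 i 0 (vw z)
  le : ∀ z, Le (vw z) (τ z)
  val : ∀ z, Val 𝔇 (i - 1) (τ z)
  lv : ∀ z, Lv (i - 1) (τ z)
  tow : ∀ z, Tow 𝔇 (i - 1) (τ z)
  refl : ∀ z, P z 1 z
  trans : ∀ z g z' g' z'', P z g z' → P z' g' z'' → P z (g * g') z''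
  symm : ∀ z g z', P z g z' → P z' g⁻¹ z
  hom : ∀ z g z', P z g z' → tr g (τ z') = τ z
  supp : ∀ z q κ, τ z q κ ≠ 0 → ∃ k ∈ K 𝔇 (i - 1) (τ z), ∃ g z', P z g z' ∧
    tr g (vw z') (k * q) κ ≠ 0
  inj : ∀ z g z' g' z'', P z g z' → P z g' z'' → g' * g⁻¹ ∈ K 𝔇 (i - 1) (τ z) → z' = z''
  cl : ∀ z g z' b, P z g z' → Adj 𝔇 i (τ z) 0 g b →
    ∃ g' z'', P z g' z'' ∧ b * g'⁻¹ ∈ K 𝔇 (i - 1) (τ z)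
  conn : ∀ z g z', P z g z' → ∃ ξ n, ξ 0 = 1 ∧ ξ n = g ∧ APath 𝔇 i (τ z) 0 ξ n ∧
    ∀ t ≤ n, ∃ z'', P z (ξ t) z''
  disp : ∀ z g, P z g z → g ∉ K 𝔇 (i - 1) (τ z) → (𝔇 i).g ≤ dj 𝔇 (i - 1) (τ z) 1 g
  dm : ∀ z, Dm (i - 1) (τ z) = Nb (𝔇 i).θ (Sat (K 𝔇 (i - 1) (τ z)) {g | ∃ z', P z g z'})
  dm0 : ∀ z, Dm 0 (τ z) ⊆ Nb ((𝔇 i).θ + (𝔇 (i - 1)).δ)
    (Sat (K 𝔇 (i - 1) (τ z)) {g | ∃ z', P z g z'})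

/-- the model is a view or has a hole far from the orbit of the root -/
def HoleP (i : ℕ) {Z : Type} (τ : Z → St p) (P : Z → Gam p → Z → Prop) : Prop :=
  ∀ z, (∀ σ, IsV 𝔇 i 0 σ → Le σ (τ z) → σ = τ z) ∨
    ∃ q c', q ∈ Dm 0 (τ z) ∧ τ z q (1, some c') = 0 ∧
      ∀ l g, P z g z → l * g⁻¹ ∈ K 𝔇 (i - 1) (τ z) → 1000 * (𝔇 i).θ < len (l * q)

end defs

/-- the level axioms imply their geometric consequences -/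
def ThStmt : Prop := ∀ (p : ℕ) (𝔇 : ℕ → Lev p) (N : ℕ), OKs 𝔇 N → Th 𝔇 N

/-- all exploration lemmas at all levels -/
def AllStmt : Prop := ∀ (p : ℕ) [NeZero p] (𝔇 : ℕ → Lev p) (i : ℕ), GLFp 𝔇 i ∧ GBp 𝔇 i ∧
  BALLp 𝔇 i ∧ UPp 𝔇 i ∧ VGp 𝔇 (i + 1) ∧ VXp 𝔇 (i + 1)

/-- row Tree2 -/
def Tree2Stmt : Prop := ∀ (p : ℕ) (𝔇 : ℕ → Lev p) (i : ℕ), RuleOK 𝔇 i → RX 𝔇 i → HYp 𝔇 (i - 1) →
  ∀ s, ValZ 𝔇 (i - 1) s → ∀ c, TreeP 𝔇 i s c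

open Classical in
/-- row Edge: edge states and the family of views -/
def EdgeStmt : Prop := ∀ (p : ℕ) [NeZero p] (𝔇 : ℕ → Lev p) (i : ℕ), Ctx 𝔇 i →
  (∀ e w, IsE 𝔇 i e w → IsE 𝔇 i (tr w⁻¹ e) w⁻¹ ∧
    (∀ k ∈ K 𝔇 (i - 1) e, IsE 𝔇 i e (k * w)) ∧
    Shape 𝔇 (i - 1) e (Tn 𝔇 i e 0 1 ((𝔇 i).n - 1) ∪ Tn 𝔇 i e 0 w ((𝔇 i).n - 1)) (𝔇 i).θ ∧
    (∀ y ∈ Tn 𝔇 i e 0 1 ((𝔇 i).n - 1) ∪ Tn 𝔇 i e 0 w ((𝔇 i).n - 1), RC 𝔇 i e y) ∧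
    ∀ e' o, IsE 𝔇 i e' w → ValZ 𝔇 (i - 1) o → Le e o → Le e' o → e = e') ∧
  (∀ σ, IsV 𝔇 i 0 σ → ∀ w ∈ nbA 𝔇 i σ 0 1, ∃ e, IsE 𝔇 i e w ∧ Le e σ) ∧
  ∃ 𝒱 : Finset (St p), (∀ σ, σ ∈ 𝒱 ↔ IsV 𝔇 i 0 σ) ∧
    ∀ e w, IsE 𝔇 i e w → ∑ σ ∈ 𝒱.filter (fun σ => Le e σ), W 𝔇 σ = W 𝔇 e

open Classical in
/-- row GD: the finite graph -/
def GDStmt : Prop := ∀ (p : ℕ) [NeZero p] (𝔇 : ℕ → Lev p) (i : ℕ), Ctx 𝔇 i → ∀ g' : ℕ,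
  ∃ (Z : Type) (_ : Fintype Z) (M : ℕ) (vw : Z → St p) (H : Z → Finset (Gam p))
    (nx : Z × Gam p → Z × Gam p) (wd : Z × Gam p → Gam p), 0 < M ∧
    (∀ σ, IsV 𝔇 i 0 σ → ((Finset.univ.filter fun z => vw z = σ).card : ℚ) = M * W 𝔇 σ) ∧
    GD 𝔇 i vw H nx wd ∧ ∀ z t, nbw H nx wd z t → t ≠ [] → (wk nx wd z t).1 = z → g' ≤ t.length

/-- row Walk -/
def WalkStmt : Prop := ∀ (p : ℕ) [NeZero p] (𝔇 : ℕ → Lev p) (i : ℕ), Ctx 𝔇 i →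
  ∀ (Z : Type) (vw : Z → St p) (H : Z → Finset (Gam p)) (nx : Z × Gam p → Z × Gam p)
  (wd : Z × Gam p → Gam p), GD 𝔇 i vw H nx wd →
  (∀ z, Pos H nx wd z 1 z) ∧
  (∀ z g z', Pos H nx wd z g z' → ∀ a ∈ H z', Pos H nx wd z (g * wd (z', a)) (nx (z', a)).1) ∧
  (∀ z g z' g' z'', Pos H nx wd z g z' → Pos H nx wd z' g' z'' → Pos H nx wd z (g * g') z'') ∧
  (∀ z g z', Pos H nx wd z g z' → Pos H nx wd z' g⁻¹ z) ∧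
  (∀ z t, nbw H nx wd z t → ∀ t', t' <:+ t → nbw H nx wd z t') ∧
  (∀ z a t, nbw H nx wd z (a :: t) → a ∈ H (wk nx wd z t).1) ∧
  ∀ z o, ValZ 𝔇 (i - 1) o →
    (∀ t a, a ∈ H (wk nx wd z t).1 → Le (piece vw nx wd z t) o →
      Adj 𝔇 i o 0 (wk nx wd z t).2 (wk nx wd z (a :: t)).2) ∧
    (∀ t, nbw H nx wd z t → (∀ t', t' <:+ t → t' ≠ t → Le (piece vw nx wd z t') o) →
      Con 𝔇 i o 0 1 (wk nx wd z t).2 ∧ rd 𝔇 i o 0 1 (wk nx wd z t).2 = t.length) ∧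
    ∀ t₁ t₂, nbw H nx wd z t₁ → nbw H nx wd z t₂ →
      (∀ t', t' <:+ t₁ → t' ≠ t₁ → Le (piece vw nx wd z t') o) →
      (∀ t', t' <:+ t₂ → t' ≠ t₂ → Le (piece vw nx wd z t') o) →
      (wk nx wd z t₂).2 * ((wk nx wd z t₁).2)⁻¹ ∈ K 𝔇 (i - 1) o → t₁ = t₂

/-- row PWd: the dichotomy for adding one leaf, in coordinates centred at the tail of the edge -/
def PWdStmt : Prop := ∀ (p : ℕ) [NeZero p] (𝔇 : ℕ → Lev p) (i : ℕ), Ctx 𝔇 i →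
  ∀ (s₁ σ E : St p) (w : Gam p) (X : Set (Gam p)), Good 𝔇 (i - 1) s₁ → Tow 𝔇 (i - 1) s₁ →
  IsV 𝔇 i 0 σ → IsE 𝔇 i E w → Le E s₁ → Le E (tr w σ) →
  Dm (i - 1) s₁ ⊆ Nb (𝔇 i).θ (Sat (Kall 𝔇 s₁) (⋃ x ∈ X, Tn 𝔇 i s₁ 0 x (𝔇 i).n)) →
  (∀ x ∈ X, Con 𝔇 i s₁ 0 1 x ∧ rd 𝔇 i s₁ 0 w x = rd 𝔇 i s₁ 0 1 x + 1) →
  ∀ b ∈ Nb 20 (Dm 0 E), CaseA 𝔇 (i - 1) s₁ E b ∨ CaseA 𝔇 (i - 1) (tr w σ) E b

/-- row PW: finitely many pieces fit in one valid state -/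
def PWStmt : Prop := ∀ (p : ℕ) [NeZero p] (𝔇 : ℕ → Lev p) (i : ℕ), Ctx 𝔇 i →
  ∀ (Z : Type) (vw : Z → St p) (H : Z → Finset (Gam p)) (nx : Z × Gam p → Z × Gam p)
  (wd : Z × Gam p → Gam p), GD 𝔇 i vw H nx wd → ∀ z (S : Finset (List (Gam p))), (∀ t ∈ S, nbw H nx wd z t) →
  ∃ o, Val 𝔇 (i - 1) o ∧ ∀ t ∈ S, Le (piece vw nx wd z t) o

/-- row Core -/
def CoreStmt : Prop := ∀ (p : ℕ) [NeZero p] (𝔇 : ℕ → Lev p) (i : ℕ), Ctx 𝔇 i →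
  ∀ (Z : Type) (vw : Z → St p) (H : Z → Finset (Gam p)) (nx : Z × Gam p → Z × Gam p)
  (wd : Z × Gam p → Gam p), GD 𝔇 i vw H nx wd →
  (∀ z t, nbw H nx wd z t → t ≠ [] → (wk nx wd z t).1 = z → (𝔇 i).g + (𝔇 i).J ≤ t.length) →
  ∃ τ : Z → St p, MC 𝔇 i vw τ (Pos H nx wd)

/-- row Hole -/
def HoleStmt : Prop := ∀ (p : ℕ) [NeZero p] (N : Fin 3 → Subgroup (Gam p)) (g₁ : ℕ)
  (𝔇 : ℕ → Lev p) (i : ℕ), NData p N g₁ → L1 𝔇 N → Ctx 𝔇 i → ∀ (Z : Type) (vw τ : Z → St p)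
  (P : Z → Gam p → Z → Prop), MC 𝔇 i vw τ P → HoleP 𝔇 i τ P

open Classical in
/-- row Wrap -/
def WrapStmt : Prop := ∀ (p : ℕ) [NeZero p] (𝔇 : ℕ → Lev p) (i : ℕ), Ctx 𝔇 i →
  ∀ (Z : Type) [Fintype Z] (M : ℕ) (vw τ : Z → St p) (P : Z → Gam p → Z → Prop), 0 < M →
  (∀ σ, IsV 𝔇 i 0 σ → ((Finset.univ.filter fun z => vw z = σ).card : ℚ) = M * W 𝔇 σ) →
  MC 𝔇 i vw τ P → HoleP 𝔇 i τ P →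
  ∃ A : Lev p, REq (𝔇 i) A ∧ ModelOK (Function.update 𝔇 i A) i ∧ M7 A i

/-- the models of level `i` exist -/
def ModelStmt : Prop := ∀ (p : ℕ) [NeZero p] (N : Fin 3 → Subgroup (Gam p)) (g₁ : ℕ)
  (𝔇 : ℕ → Lev p) (i : ℕ), NData p N g₁ → L1 𝔇 N → Ctx 𝔇 i →
  ∃ A : Lev p, REq (𝔇 i) A ∧ ModelOK (Function.update 𝔇 i A) i ∧ M7 A i

theorem model_of (h1 : GDStmt) (h2 : CoreStmt) (h3 : HoleStmt) (h4 : WrapStmt) : ModelStmt := by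
  intro p _ N g₁ 𝔇 i hN hL hC
  obtain ⟨Z, _, M, vw, H, nx, wd, hM, hc, hG, hg⟩ := h1 p 𝔇 i hC ((𝔇 i).g + (𝔇 i).J)
  obtain ⟨τ, hτ⟩ := h2 p 𝔇 i hC Z vw H nx wd hG hg
  exact h4 p 𝔇 i hC Z M vw τ _ hM hc hτ (h3 p N g₁ 𝔇 i hN hL hC Z vw τ _ hτ)

end Pool.Agent.MP_735563_an.H2
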