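import Pool.Agent.MP_735563_an.H2.Rule

set_option autoImplicit false

/-! Statements of the rule rows. -/

namespace Pool.Agent.MP_735563_an.H2

/-- row RLoc: locality of the basic predicates -/
def RLocStmt : Prop := ∀ (p : ℕ) [NeZero p] (P : RP p), P.Bas →
  (∃ r, LocA P.i r P.τ ∧ LocA P.i r P.lam ∧ LocA P.i r P.col ∧ LocA P.i r P.Coll ∧
    LocA P.i r P.Pack ∧ LocA P.i r P.ok ∧ LocA P.i r P.Full ∧ LocA P.i r P.en) ∧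
  (∀ w, ∃ r, LocA P.i r (fun M => P.pos M w) ∧ LocA P.i r (fun M => P.runs M w)) ∧
  (∀ L q, ∃ r, LocA P.i r (P.Cov L) ∧ LocA P.i r (P.Act q (P.Cov L))) ∧
  ∀ ρ, LocA P.i ρ (P.Fo ρ) ∧ LocA P.i ρ (P.nfo ρ) ∧ LocA P.i ρ P.cen ∧ LocA P.i ρ (P.nb ρ)

/-- row Tr, part 1: final edges are equivariant -/
def EqvStmt : Prop := ∀ (p : ℕ) [NeZero p] (P : RP p) (M : MS p), Inv M → ∀ a u w k,
  P.FE (pt M a) (cls (pt M a) u, k) (cls (pt M a) w) ↔ P.FE M (cls M (a * u), k) (cls M (a * w))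

/-- row Tr, part 2: final edges are local -/
def TrStmt : Prop := ∀ (p : ℕ) [NeZero p] (P : RP p), P.Bas → ∃ ρ₀, ∀ ρ, ρ₀ ≤ ρ → P.TrP ρ

/-- row Tr, part 3: the rule in invariant structures -/
def AdjStmt : Prop := ∀ (p : ℕ) [NeZero p] (P : RP p) (ρ : ℕ), P.Bas → P.TrP ρ →
  ∀ M : MS p, Inv M → ∀ a,
  (∀ k, P.Fo ρ (pt M a) k ↔ P.FE M (cls M a, k) (cls M (a * P.en (pt M a) k))) ∧
  ∀ b c, (P.cen (pt M a) c ∧ ∃ w ∈ P.nb ρ (pt M a) c, b * (a * w)⁻¹ ∈ M.2) ↔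
    c = 0 ∧ ∃ e, Cnt.Step (P.FE M) (cls M a) e (cls M b)

open Classical in
/-- row Sparse: the spectral bound for admissible walks -/
def SparseStmt : Prop := ∀ (p : ℕ) [NeZero p] (P : RP p), P.Bas → ∀ M : MS p, Inv M →
  ∀ y z : Cls M, ∀ k ≤ P.k₂, dC M (cls M 1) y ≤ P.m * P.l →
  (Finset.univ.filter fun w : Fin (k * P.m) → Fin 4 =>
    run (P.st M) y (List.ofFn w) = some z).card ^ 2 ≤ 15 ^ (k * P.m)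

/-- the conclusion of the local to global principle -/
def LTGP (δ l κ J j₁ : ℕ) : Prop :=
  ∀ (V : Type) (d : V → V → ℕ), Met d δ → ∀ c, 1 ≤ c →
    ∀ (x : ℕ → V) (n : ℕ), (∀ t < n, d (x t) (x (t + 1)) ≤ l) →
    (∀ a b, a ≤ b → b ≤ n → b ≤ a + j₁ → c * (b - a) ≤ d (x a) (x b)) →
    c * n ≤ 2 * d (x 0) (x n) + J ∧
    (∀ m, Btw d (x 0) m (x n) → ∃ t ≤ n, d m (x t) ≤ κ) ∧
    ∀ t ≤ n, ∃ m, Btw d (x 0) m (x n) ∧ d (x t) m ≤ κ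

/-- the geometric constants of a rule -/
def GeoC {p : ℕ} (P : RP p) (δ κ J Δ : ℕ) : Prop :=
  (∃ j₁ ≤ P.k₂, LTGP δ (P.m * P.l) κ J j₁) ∧ J < P.k₂ ∧
    1000 * (δ + κ + 1) + 2 * κ + 8 * δ ≤ P.U ∧ 1 ≤ P.k₁ ∧ P.k₁ ≤ P.k₂ ∧
    2 * (P.k₁ * (P.m * P.l) + 2 * P.U) + J ≤ P.k₂ ∧
    P.k₁ * (P.m * P.l) + 2000 * (δ + κ + 1) ≤ Δ

/-- the level data use the rule `P` -/
def Uses {p : ℕ} [NeZero p] (A : Lev p) (P : RP p) : Prop :=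
  A.cen = P.cen ∧ A.nb = P.nb A.ρ ∧ A.l = P.m * P.l ∧ A.nE = P.nE ∧ P.TrP A.ρ

/-- row RGeo, part 1: paths without backtracking -/
def RNbStmt : Prop := ∀ (p : ℕ) [NeZero p] (𝔇 : ℕ → Lev p) (P : RP p), P.Bas → Uses (𝔇 P.i) P →
  GeoC P (𝔇 (P.i - 1)).δ (𝔇 P.i).κ (𝔇 P.i).J (𝔇 P.i).Δ → HYp 𝔇 (P.i - 1) →
  ∀ s, ValZ 𝔇 (P.i - 1) s → ∀ c,
  (∀ a b, Adj 𝔇 P.i s c a b → Adj 𝔇 P.i s c b a) ∧
  (∀ ξ n, APath 𝔇 P.i s c ξ n → NBk 𝔇 P.i s ξ n →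
    1000 * n ≤ 2 * dj 𝔇 (P.i - 1) s (ξ 0) (ξ n) + (𝔇 P.i).J ∧
    (∀ t ≤ n, ∀ t' ≤ n, ξ t' * (ξ t)⁻¹ ∈ K 𝔇 (P.i - 1) s → t = t') ∧
    (∀ m, Btw (dj 𝔇 (P.i - 1) s) (ξ 0) m (ξ n) →
      ∃ t ≤ n, dj 𝔇 (P.i - 1) s m (ξ t) ≤ (𝔇 P.i).κ) ∧
    ∀ t ≤ n, ∃ m, Btw (dj 𝔇 (P.i - 1) s) (ξ 0) m (ξ n) ∧
      dj 𝔇 (P.i - 1) s (ξ t) m ≤ (𝔇 P.i).κ) ∧
  (∀ a, ∃ F : Finset (Gam p), F.card ≤ 10000 ∧
    ∀ b, Adj 𝔇 P.i s c a b → ∃ f ∈ F, b * f⁻¹ ∈ K 𝔇 (P.i - 1) s) ∧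
  ∀ ξ n, Short 𝔇 P.i s c ξ n → NBk 𝔇 P.i s ξ n

/-- row RGeo, part 2: all rule axioms -/
def RGeoStmt : Prop := ∀ (p : ℕ) [NeZero p] (𝔇 : ℕ → Lev p) (P : RP p), P.Bas → Uses (𝔇 P.i) P →
  GeoC P (𝔇 (P.i - 1)).δ (𝔇 P.i).κ (𝔇 P.i).J (𝔇 P.i).Δ → HYp 𝔇 (P.i - 1) → RuleOK 𝔇 P.i

open Classical in
/-- row Exp: the expected number of final edges for fresh flags and words -/
def ExpStmt : Prop := ∀ (p : ℕ) [NeZero p] (P : RP p) (ρ : ℕ), P.Bas →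
  Cnt.FeStmt ((3 * p) ^ 1000) P.n P.L P.m → ((3 * p) ^ P.U) ^ 2 ≤ 2 ^ P.k₁ → 2 ≤ P.k₁ →
  1 ≤ P.k₂ → ∀ (H : Subgroup (Gam p)) (s : St p) (V : Type) [Fintype V]
    (t : (V → P.Lam) → St p) (π : Gam p → V) (e : Gam p → P.Lam ≃ P.Lam),
  Inv (s, H) → (∀ f, Inv (t f, H)) → (∀ f x κ, κ ≠ (P.i, none) → t f x κ = s x κ) →
  (∀ f x, P.colV (t f x (P.i, none)) = P.colV (s x (P.i, none))) →
  (∀ f u, len u ≤ (P.k₂ + 2) * (P.m * P.l) + P.U → P.lamV (t f u (P.i, none)) = e u (f (π u))) →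
  (∀ u v, len u ≤ (P.k₂ + 2) * (P.m * P.l) + P.U → len v ≤ (P.k₂ + 2) * (P.m * P.l) + P.U →
    π u = π v → v * u⁻¹ ∈ H) →
  (∑ f, if P.fl (t f, H) then (1 : ℝ) else 0) / Fintype.card (V → P.Lam) = 1 / P.n ∧
  (P.Full (s, H) → 2 / (P.n : ℝ) ≤ (∑ f, P.nfo ρ (t f, H)) / Fintype.card (V → P.Lam))

end Pool.Agent.MP_735563_an.H2
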