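import Mathlib

set_option autoImplicit false

/-! Measurable fields of Hilbert spaces with a fundamental sequence. -/

open MeasureTheory Filter Topology

namespace Pool.Agent.MP_735563_an.H2.T

variable {X : Type} [MeasurableSpace X] {H : X → Type} [∀ x, NormedAddCommGroup (H x)]
  [∀ x, InnerProductSpace ℂ (H x)]

/-- measurable sections -/
def Ms (e : ℕ → ∀ x, H x) (ξ : ∀ x, H x) : Prop :=
  ∀ n, Measurable fun x => inner ℂ (e n x) (ξ x)

/-- Gaussian rational combinations -/
noncomputable def wl (e : ℕ → ∀ x, H x) (l : List (ℕ × ℚ × ℚ)) (x : X) : H x :=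
  (l.map fun q => (((q.2.1 : ℝ) : ℂ) + ((q.2.2 : ℝ) : ℂ) * Complex.I) • e q.1 x).sum

variable {e : ℕ → ∀ x, H x}

theorem Ms.add {ξ η : ∀ x, H x} (h : Ms e ξ) (h' : Ms e η) : Ms e fun x => ξ x + η x := by
  intro n
  simp only [inner_add_right]
  exact (h n).add (h' n)

theorem Ms.smul {ξ : ∀ x, H x} {f : X → ℂ} (hf : Measurable f) (h : Ms e ξ) :
    Ms e fun x => f x • ξ x := by
  intro n
  simp only [inner_smul_right]
  exact hf.mul (h n)

theorem Ms.sub {ξ η : ∀ x, H x} (h : Ms e ξ) (h' : Ms e η) : Ms e fun x => ξ x - η x := by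
  intro n
  simp only [inner_sub_right]
  exact (h n).sub (h' n)

theorem Ms.zero : Ms e fun _ => 0 := by
  intro n
  simp only [inner_zero_right]
  exact measurable_const

theorem Ms.lim {ξ : ℕ → ∀ x, H x} {η : ∀ x, H x} (h : ∀ k, Ms e (ξ k))
    (hl : ∀ x, Tendsto (fun k => ξ k x) atTop (𝓝 (η x))) : Ms e η := by
  intro n
  refine measurable_of_tendsto_metrizable (fun k => h k n) ?_
  rw [tendsto_pi_nhds]
  intro x
  exact tendsto_const_nhds.inner (hl x)

theorem inner_wl {ξ : ∀ x, H x} (h : Ms e ξ) (l : List (ℕ × ℚ × ℚ)) :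
    Measurable fun x => inner ℂ (wl e l x) (ξ x) := by
  induction l with
  | nil => simp only [wl, List.map_nil, List.sum_nil, inner_zero_left]; exact measurable_const
  | cons q l ih =>
    simp only [wl, List.map_cons, List.sum_cons, inner_add_left, inner_smul_left] at ih ⊢
    exact (measurable_const.mul (h _)).add ih

theorem ms_wl (he : ∀ n, Ms e (e n)) (l : List (ℕ × ℚ × ℚ)) : Ms e (wl e l) := by
  induction l with
  | nil => exact Ms.zero
  | cons q l ih => exact (Ms.smul measurable_const (he q.1)).add ih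

omit [MeasurableSpace X] in
theorem dense_wl (x : X)
    (hd : Dense (Submodule.span ℂ (Set.range fun n => e n x) : Set (H x))) :
    Dense (Set.range fun l => wl e l x) := by
  let S : AddSubmonoid (H x) :=
    { carrier := Set.range fun l => wl e l x
      zero_mem' := ⟨[], rfl⟩
      add_mem' := by
        rintro _ _ ⟨l, rfl⟩ ⟨l', rfl⟩
        exact ⟨l ++ l', by simp [wl]⟩ }
  have h1 : ∀ (n : ℕ) (c : ℂ), c • e n x ∈ S.topologicalClosure := by
    intro n c
    have hc : Continuous fun q : ℝ × ℝ => ((q.1 : ℂ) + (q.2 : ℂ) * Complex.I) • e n x := by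
      fun_prop
    have hq : DenseRange fun q : ℚ × ℚ => ((q.1 : ℝ), (q.2 : ℝ)) :=
      Rat.denseRange_cast.prodMap Rat.denseRange_cast
    have h2 := map_mem_closure hc (hq (c.re, c.im)) (t := (S : Set (H x))) (by
      rintro _ ⟨q, rfl⟩
      exact ⟨[(n, q.1, q.2)], by simp [wl]⟩)
    simp only [Complex.re_add_im] at h2
    exact h2
  have h2 : (Submodule.span ℂ (Set.range fun n => e n x) : Set (H x)) ⊆ closure (S : Set (H x)) := by
    intro v hv
    obtain ⟨c, rfl⟩ := Finsupp.mem_span_range_iff_exists_finsupp.1 hv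
    exact S.topologicalClosure.sum_mem fun n _ => h1 n _
  exact (hd.mono h2).of_closure

theorem Ms.norm_sq (he : ∀ n, Ms e (e n))
    (hd : ∀ x, Dense (Submodule.span ℂ (Set.range fun n => e n x) : Set (H x)))
    {ξ : ∀ x, H x} (h : Ms e ξ) : Measurable fun x => ‖ξ x‖ ^ 2 := by
  refine measurable_of_Ioi fun r => ?_
  have key : ∀ (x : X) (w : H x), 2 * (inner ℂ w (ξ x)).re - (inner ℂ w w).re =
      ‖ξ x‖ ^ 2 - ‖w - ξ x‖ ^ 2 := by
    intro x w
    have h1 := norm_sub_sq (𝕜 := ℂ) w (ξ x)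
    have h2 := inner_self_eq_norm_sq (𝕜 := ℂ) w
    simp only [RCLike.re_to_complex] at h1 h2
    rw [h1, h2]; ring
  have : (fun x => ‖ξ x‖ ^ 2) ⁻¹' Set.Ioi r = ⋃ l : List (ℕ × ℚ × ℚ),
      {x | r < 2 * (inner ℂ (wl e l x) (ξ x)).re - (inner ℂ (wl e l x) (wl e l x)).re} := by
    ext x
    simp only [Set.mem_preimage, Set.mem_Ioi, Set.mem_iUnion, Set.mem_ofPred_eq, key]
    constructor
    · intro hr
      have ho : IsOpen {w : H x | r < ‖ξ x‖ ^ 2 - ‖w - ξ x‖ ^ 2} :=
        isOpen_lt continuous_const (by fun_prop)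
      obtain ⟨w, hw, l, rfl⟩ := (dense_wl x (hd x)).inter_open_nonempty _ ho ⟨ξ x, by simpa using hr⟩
      exact ⟨l, hw⟩
    · rintro ⟨l, hl⟩
      nlinarith [sq_nonneg ‖wl e l x - ξ x‖]
  rw [this]
  refine MeasurableSet.iUnion fun l => measurableSet_lt measurable_const ?_
  exact (measurable_const.mul (Complex.measurable_re.comp (inner_wl h l))).sub
    (Complex.measurable_re.comp (inner_wl (ms_wl he l) l))

theorem Ms.inn (he : ∀ n, Ms e (e n))
    (hd : ∀ x, Dense (Submodule.span ℂ (Set.range fun n => e n x) : Set (H x)))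
    {ξ η : ∀ x, H x} (h : Ms e ξ) (h' : Ms e η) : Measurable fun x => inner ℂ (ξ x) (η x) := by
  have k : ∀ {ζ : ∀ x, H x}, Ms e ζ → Measurable fun x => ((‖ζ x‖ : ℂ)) ^ 2 := by
    intro ζ hζ
    have := Complex.measurable_ofReal.comp (hζ.norm_sq he hd)
    simpa [Function.comp_def] using this
  have hI : Ms e fun x => (RCLike.I : ℂ) • η x := Ms.smul measurable_const h'
  simp only [inner_eq_sum_norm_sq_div_four]
  exact ((((k (h.add h')).sub (k (h.sub h'))).add
    (((k (h.sub hI)).sub (k (h.add hI))).mul measurable_const))).div_const _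

/-- transport along a measurable map inside the relation -/
theorem Ms.transport (he : ∀ n, Ms e (e n))
    (hd : ∀ x, Dense (Submodule.span ℂ (Set.range fun n => e n x) : Set (H x)))
    {E : Set (X × X)} (π : ∀ x y, (x, y) ∈ E → (H y ≃ₗᵢ[ℂ] H x))
    (hπ : ∀ n m, Measurable fun q : E => inner ℂ (e n q.1.1) (π q.1.1 q.1.2 q.2 (e m q.1.2)))
    {φ : X → X} (hφ : Measurable φ) (hE : ∀ x, (x, φ x) ∈ E) {ξ : ∀ x, H x} (h : Ms e ξ) :
    Ms e fun x => π x (φ x) (hE x) (ξ (φ x)) := by
  intro n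
  have hm : Measurable fun x => (⟨(x, φ x), hE x⟩ : E) :=
    (measurable_id.prodMk hφ).subtype_mk
  have h1 : Ms (H := fun x => H (φ x)) (fun m x => e m (φ x))
      fun x => (π x (φ x) (hE x)).symm (e n x) := by
    intro m
    have h2 := Complex.continuous_conj.measurable.comp ((hπ n m).comp hm)
    have : (fun x => inner ℂ (e m (φ x)) ((π x (φ x) (hE x)).symm (e n x))) =
        fun x => (starRingEnd ℂ) (inner ℂ (e n x) (π x (φ x) (hE x) (e m (φ x)))) := by
      funext x
      rw [inner_conj_symm, ← (π x (φ x) (hE x)).inner_map_map, LinearIsometryEquiv.apply_symm_apply]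
    rw [this]
    exact h2
  have h3 := Ms.inn (H := fun x => H (φ x)) (e := fun m x => e m (φ x))
    (fun m k => (he m k).comp hφ) (fun x => hd (φ x)) h1 (η := fun x => ξ (φ x))
    (fun m => (h m).comp hφ)
  have : (fun x => inner ℂ (e n x) (π x (φ x) (hE x) (ξ (φ x)))) =
      fun x => inner ℂ ((π x (φ x) (hE x)).symm (e n x)) (ξ (φ x)) := by
    funext x
    rw [← (π x (φ x) (hE x)).inner_map_map, LinearIsometryEquiv.apply_symm_apply]
  rw [this]
  exact h3

end Pool.Agent.MP_735563_an.H2.T
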