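import Pool.Agent.MP_735563_an.H2.Spec1
import Pool.Agent.MP_735563_an.H2.T1

set_option autoImplicit false

/-! Row T: property (T) of the orbit relation. -/

open MeasureTheory Filter Topology

namespace Pool.Agent.MP_735563_an.H2

namespace T

theorem ae_summ {X : Type} [MeasurableSpace X] (ν : Measure X) (f : ℕ → X → ℝ) (C : ℝ)
    (hm : ∀ m, Measurable (f m)) (h0 : ∀ m x, 0 ≤ f m x)
    (hi : ∀ m, Integrable (fun x => f m x ^ 2) ν)
    (hb : ∀ m, ∫ x, f m x ^ 2 ∂ν ≤ C * (5 / 6) ^ m) : ∀ᵐ x ∂ν, Summable fun m => f m x := by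
  have hC : 0 ≤ C := by
    have := (integral_nonneg (fun x => sq_nonneg (f 0 x))).trans (hb 0)
    simpa using this
  have hs : Summable fun m : ℕ => C * (10 / 11 : ℝ) ^ m :=
    (summable_geometric_of_lt_one (by norm_num) (by norm_num)).mul_left C
  have hg : ∀ m, Measurable fun x => ENNReal.ofReal (f m x ^ 2 * (12 / 11) ^ m) := fun m =>
    (((hm m).pow_const 2).mul_const _).ennreal_ofReal
  have h1 : ∫⁻ x, ∑' m, ENNReal.ofReal (f m x ^ 2 * (12 / 11) ^ m) ∂ν ≠ ⊤ := by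
    rw [lintegral_tsum fun m => (hg m).aemeasurable]
    refine ne_top_of_le_ne_top (b := ∑' m : ℕ, ENNReal.ofReal (C * (10 / 11 : ℝ) ^ m)) ?_
      (ENNReal.tsum_le_tsum fun m => ?_)
    · rw [← ENNReal.ofReal_tsum_of_nonneg (fun m => by positivity) hs]
      exact ENNReal.ofReal_ne_top
    · rw [← ofReal_integral_eq_lintegral_ofReal ((hi m).mul_const _)
        (Eventually.of_forall fun x => by positivity), integral_mul_const]
      refine ENNReal.ofReal_le_ofReal ?_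
      calc _ ≤ C * (5 / 6) ^ m * (12 / 11) ^ m := by gcongr; exact hb m
        _ = _ := by rw [mul_assoc, ← mul_pow]; norm_num
  filter_upwards [ae_lt_top (Measurable.tsum hg) h1] with x hx
  have h2 := ENNReal.summable_toReal hx.ne
  have h3 : Summable fun m => f m x ^ 2 * (12 / 11 : ℝ) ^ m := by
    refine h2.congr fun m => ?_
    rw [ENNReal.toReal_ofReal (by positivity)]
  refine ((summable_geometric_of_lt_one (r := 11 / 12) (by norm_num) (by norm_num)).add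
    h3).of_nonneg_of_le (fun m => h0 m x) fun m => ?_
  have h4 : (11 / 12 : ℝ) ^ m * (12 / 11) ^ m = 1 := by rw [← mul_pow]; norm_num
  have h5 : (0 : ℝ) < (12 / 11) ^ m := by positivity
  have h6 : (0 : ℝ) < (11 / 12) ^ m := by positivity
  have h7 := h0 m x
  set a : ℝ := (11 / 12) ^ m
  set b : ℝ := (12 / 11) ^ m
  by_cases h : f m x ≤ a
  · nlinarith [mul_nonneg (sq_nonneg (f m x)) h5.le]
  · have h8 : 1 ≤ f m x * b := by nlinarith
    nlinarith

variable {p : ℕ} {X : Type} [MeasurableSpace X] [MulAction (Gam p) X]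
  {H : X → Type} [∀ x, NormedAddCommGroup (H x)] [∀ x, InnerProductSpace ℝ (H x)]

/-- the abstract setting -/
structure Ctx (ν : Measure X) (M : (∀ x, H x) → Prop)
    (U : Gam p → (∀ x, H x) →ₗ[ℝ] (∀ x, H x)) : Prop where
  mp : ∀ g : Gam p, MeasurePreserving (fun x : X => g • x) ν ν
  zero : M 0
  add : ∀ ξ η, M ξ → M η → M (ξ + η)
  smul : ∀ (f : X → ℝ) ξ, Measurable f → M ξ → M fun x => f x • ξ x
  inn : ∀ ξ η, M ξ → M η → Measurable fun x => inner ℝ (ξ x) (η x)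
  lim : ∀ (ξ : ℕ → ∀ x, H x) (η : ∀ x, H x), (∀ k, M (ξ k)) →
    (∀ x, Tendsto (fun k => ξ k x) atTop (𝓝 (η x))) → M η
  iso : ∀ g ξ η x, inner ℝ (U g ξ x) (U g η x) = inner ℝ (ξ (g⁻¹ • x)) (η (g⁻¹ • x))
  ms : ∀ g ξ, M ξ → M (U g ξ)
  coc : ∀ᵐ x ∂ν, (∀ g h ξ, U g (U h ξ) x = U (g * h) ξ x) ∧ ∀ ξ, U 1 ξ x = ξ x
  pt : ∀ g h ξ x, g⁻¹ • x = h⁻¹ • x → U g ξ x = U h ξ x

variable {ν : Measure X} {M : (∀ x, H x) → Prop} {U : Gam p → (∀ x, H x) →ₗ[ℝ] (∀ x, H x)}

theorem Ctx.norm (c : Ctx ν M U) (g : Gam p) (ξ : ∀ x, H x) (x : X) :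
    ‖U g ξ x‖ = ‖ξ (g⁻¹ • x)‖ := by
  rw [norm_eq_sqrt_real_inner, c.iso, ← norm_eq_sqrt_real_inner]

theorem Ctx.dist (c : Ctx ν M U) (g : Gam p) (ξ η : ∀ x, H x) (x : X) :
    ‖U g ξ x - U g η x‖ = ‖ξ (g⁻¹ • x) - η (g⁻¹ • x)‖ := by
  have := c.norm g (ξ - η) x
  rwa [map_sub] at this

theorem Ctx.loc (c : Ctx ν M U) (g : Gam p) {ξ η : ∀ x, H x} {x : X}
    (h : ξ (g⁻¹ • x) = η (g⁻¹ • x)) : U g ξ x = U g η x := by
  rw [← sub_eq_zero, ← norm_eq_zero, c.dist, h, sub_self, norm_zero]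

theorem Ctx.mnorm (c : Ctx ν M U) {ξ : ∀ x, H x} (h : M ξ) : Measurable fun x => ‖ξ x‖ := by
  simp only [norm_eq_sqrt_real_inner]
  exact (c.inn _ _ h h).sqrt

theorem Ctx.sh (c : Ctx ν M U) (g : Gam p) {P : X → Prop} (h : ∀ᵐ x ∂ν, P x) :
    ∀ᵐ x ∂ν, P (g • x) := (c.mp g).quasiMeasurePreserving.ae h

/-- essentially bounded measurable sections -/
def Ctx.V (c : Ctx ν M U) : Submodule ℝ (∀ x, H x) where
  carrier := {ξ | M ξ ∧ ∃ b, ∀ᵐ x ∂ν, ‖ξ x‖ ≤ b}
  zero_mem' := ⟨c.zero, 0, Eventually.of_forall fun x => by simp⟩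
  add_mem' := by
    rintro ξ η ⟨h1, b, hb⟩ ⟨h2, b', hb'⟩
    refine ⟨c.add _ _ h1 h2, b + b', ?_⟩
    filter_upwards [hb, hb'] with x h3 h4
    exact (norm_add_le _ _).trans (add_le_add h3 h4)
  smul_mem' := by
    rintro r ξ ⟨h1, b, hb⟩
    refine ⟨c.smul (fun _ => r) ξ measurable_const h1, ‖r‖ * b, ?_⟩
    filter_upwards [hb] with x h3
    rw [Pi.smul_apply, norm_smul]
    gcongr

theorem Ctx.int [IsProbabilityMeasure ν] (c : Ctx ν M U) (ξ η : c.V) :
    Integrable (fun x => inner ℝ (ξ.1 x) (η.1 x)) ν := by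
  obtain ⟨h1, b, hb⟩ := ξ.2
  obtain ⟨h2, b', hb'⟩ := η.2
  refine Integrable.of_bound (c.inn _ _ h1 h2).aestronglyMeasurable (b * b') ?_
  filter_upwards [hb, hb'] with x h3 h4
  exact (norm_inner_le_norm _ _).trans
    (mul_le_mul h3 h4 (norm_nonneg _) ((norm_nonneg _).trans h3))

/-- the scalar product -/
noncomputable def Ctx.β [IsProbabilityMeasure ν] (c : Ctx ν M U) : c.V →ₗ[ℝ] c.V →ₗ[ℝ] ℝ :=
  LinearMap.mk₂ ℝ (fun ξ η => ∫ x, inner ℝ (ξ.1 x) (η.1 x) ∂ν)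
    (fun ξ ξ' η => by
      rw [← integral_add (c.int _ _) (c.int _ _)]
      simp only [Submodule.coe_add, Pi.add_apply, inner_add_left])
    (fun r ξ η => by
      simp only [Submodule.coe_smul, Pi.smul_apply, real_inner_smul_left, integral_const_mul,
        smul_eq_mul])
    (fun ξ η η' => by
      rw [← integral_add (c.int _ _) (c.int _ _)]
      simp only [Submodule.coe_add, Pi.add_apply, inner_add_right])
    (fun r ξ η => by
      simp only [Submodule.coe_smul, Pi.smul_apply, real_inner_smul_right, integral_const_mul,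
        smul_eq_mul])

theorem Ctx.β_def [IsProbabilityMeasure ν] (c : Ctx ν M U) (ξ η : c.V) :
    c.β ξ η = ∫ x, inner ℝ (ξ.1 x) (η.1 x) ∂ν := rfl

theorem Ctx.β_self [IsProbabilityMeasure ν] (c : Ctx ν M U) (ξ : c.V) :
    c.β ξ ξ = ∫ x, ‖ξ.1 x‖ ^ 2 ∂ν := by
  simp only [c.β_def, real_inner_self_eq_norm_sq]

theorem Ctx.int2 [IsProbabilityMeasure ν] (c : Ctx ν M U) (ξ : c.V) :
    Integrable (fun x => ‖ξ.1 x‖ ^ 2) ν := by
  simpa only [real_inner_self_eq_norm_sq] using c.int ξ ξ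

/-- the representation -/
def Ctx.W (c : Ctx ν M U) (g : Gam p) : c.V →ₗ[ℝ] c.V :=
  (U g).restrict (p := c.V) (q := c.V) (by
    rintro ξ ⟨h1, b, hb⟩
    refine ⟨c.ms g ξ h1, b, ?_⟩
    filter_upwards [c.sh g⁻¹ hb] with x hx
    rwa [c.norm])

theorem Ctx.W_val (c : Ctx ν M U) (g : Gam p) (ξ : c.V) : (c.W g ξ).1 = U g ξ.1 := rfl

theorem Ctx.β_W [IsProbabilityMeasure ν] (c : Ctx ν M U) (g : Gam p) (ξ η : c.V) :
    c.β (c.W g ξ) (c.W g η) = c.β ξ η := by
  simp only [c.β_def, c.W_val, c.iso]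
  have h := c.inn _ _ ξ.2.1 η.2.1
  have := integral_map (μ := ν) (c.mp g⁻¹).measurable.aemeasurable
    (f := fun x => inner ℝ (ξ.1 x) (η.1 x)) h.aestronglyMeasurable
  rw [(c.mp g⁻¹).map_eq] at this
  exact this.symm

theorem Ctx.β_adj [IsProbabilityMeasure ν] (c : Ctx ν M U) (g : Gam p) (ξ η : c.V) :
    c.β (c.W g ξ) η = c.β ξ (c.W g⁻¹ η) := by
  rw [← c.β_W g ξ (c.W g⁻¹ η)]
  simp only [c.β_def, c.W_val]
  refine integral_congr_ae ?_
  filter_upwards [c.coc] with x hx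
  rw [hx.1, mul_inv_cancel, hx.2]

variable [NeZero p]

/-- the panel averages -/
noncomputable def Ctx.P (c : Ctx ν M U) (i : Fin 3) : c.V →ₗ[ℝ] c.V :=
  (1 / (p : ℝ)) • ∑ a : ZMod p, c.W (gen i a)

theorem Ctx.P_val (c : Ctx ν M U) (i : Fin 3) (ξ : c.V) :
    (c.P i ξ).1 = (1 / (p : ℝ)) • ∑ a : ZMod p, U (gen i a) ξ.1 := by
  simp only [Ctx.P, LinearMap.smul_apply, LinearMap.sum_apply, Submodule.coe_smul,
    Submodule.coe_sum, c.W_val]

theorem Ctx.UP (c : Ctx ν M U) {x : X} (hx : ∀ g h ξ, U g (U h ξ) x = U (g * h) ξ x)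
    (g : Gam p) (i : Fin 3) (ξ : c.V) :
    U g (c.P i ξ).1 x = (1 / (p : ℝ)) • ∑ a : ZMod p, U (g * gen i a) ξ.1 x := by
  rw [c.P_val, map_smul, map_sum, Pi.smul_apply, Finset.sum_apply]
  simp only [hx]

theorem Ctx.P_app (c : Ctx ν M U) (i : Fin 3) (ξ : c.V) (x : X) :
    (c.P i ξ).1 x = (1 / (p : ℝ)) • ∑ a : ZMod p, U (gen i a) ξ.1 x := by
  rw [c.P_val, Pi.smul_apply, Finset.sum_apply]

theorem Ctx.genP (c : Ctx ν M U) {x : X} (hx : ∀ g h ξ, U g (U h ξ) x = U (g * h) ξ x)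
    (i : Fin 3) (b : ZMod p) (ξ : c.V) : U (gen i b) (c.P i ξ).1 x = (c.P i ξ).1 x := by
  rw [c.UP hx, c.P_app]
  congr 1
  refine Fintype.sum_equiv (Equiv.addLeft b) _ _ fun a => ?_
  rw [← gen_add]; rfl

theorem avg {E : Type} [AddCommGroup E] [Module ℝ E] (v : E) :
    (1 / (p : ℝ)) • ∑ _a : ZMod p, v = v := by
  have : (p : ℝ) ≠ 0 := Nat.cast_ne_zero.2 (NeZero.ne p)
  rw [Finset.sum_const, Finset.card_univ, ZMod.card, ← Nat.cast_smul_eq_nsmul ℝ, smul_smul,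
    one_div, inv_mul_cancel₀ this, one_smul]

theorem avg_le {E : Type} [NormedAddCommGroup E] [NormedSpace ℝ E] (v : ZMod p → E) {b : ℝ}
    (h : ∀ a, ‖v a‖ ≤ b) : ‖(1 / (p : ℝ)) • ∑ a, v a‖ ≤ b := by
  have h1 : (0 : ℝ) ≤ 1 / (p : ℝ) := by positivity
  rw [norm_smul, Real.norm_of_nonneg h1]
  calc _ ≤ 1 / (p : ℝ) * ∑ _a : ZMod p, b :=
        mul_le_mul_of_nonneg_left ((norm_sum_le _ _).trans (Finset.sum_le_sum fun a _ => h a)) h1
    _ = b := avg (p := p) b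

theorem Ctx.P_symm [IsProbabilityMeasure ν] (c : Ctx ν M U) (i : Fin 3) (ξ η : c.V) :
    c.β (c.P i ξ) η = c.β ξ (c.P i η) := by
  simp only [Ctx.P, LinearMap.smul_apply, LinearMap.sum_apply, map_smul, map_sum]
  congr 1
  refine Fintype.sum_equiv (Equiv.neg _) _ _ fun a => ?_
  rw [c.β_adj, ← gen_neg]; rfl

theorem Ctx.P_idem [IsProbabilityMeasure ν] (c : Ctx ν M U) (i : Fin 3) (ξ η : c.V) :
    c.β (c.P i (c.P i ξ)) η = c.β (c.P i ξ) η := by
  simp only [c.β_def]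
  refine integral_congr_ae ?_
  filter_upwards [c.coc] with x hx
  rw [c.P_app i (c.P i ξ)]
  simp only [c.genP hx.1, avg]

theorem Ctx.pair [IsProbabilityMeasure ν] (c : Ctx ν M U) {N : Fin 3 → Subgroup (Gam p)}
    (hN : PairIneq p N) (hf : ∀ k, ∀ n ∈ N k, ∀ x : X, n • x = x) (v : c.V) (i j : Fin 3)
    (hij : i ≠ j) : 0 ≤ 2 * c.β (v - c.P i v) (v - c.P j v) +
      (1 / 4) * (c.β (v - c.P i v) (v - c.P i v) + c.β (v - c.P j v) (v - c.P j v)) := by
  obtain ⟨k, hi, hj⟩ : ∃ k : Fin 3, i ≠ k ∧ j ≠ k := by revert i j; decide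
  obtain ⟨Tr, hT, -, h⟩ := hN k
  set a := v - c.P i v with ha
  set b := v - c.P j v with hb
  have h1 : ∀ᵐ x ∂ν, 0 ≤ ∑ g ∈ Tr, (2 * inner ℝ ((c.W g a).1 x) ((c.W g b).1 x) +
      (1 / 4) * (inner ℝ ((c.W g a).1 x) ((c.W g a).1 x) +
        inner ℝ ((c.W g b).1 x) ((c.W g b).1 x))) := by
    filter_upwards [c.coc] with x hx
    have h2 := h (H x) (fun g => U g v.1 x) (fun g _ n hn => c.pt _ _ _ _ (by
      rw [mul_inv_rev, mul_smul, hf k _ (inv_mem hn)])) i j hi hj hij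
    have h3 : ∀ l g, Qv l (fun g => U g v.1 x) g = (c.W g (v - c.P l v)).1 x := by
      intro l g
      rw [c.W_val, Submodule.coe_sub, map_sub, Pi.sub_apply, c.UP hx.1]; rfl
    simpa only [h3, real_inner_self_eq_norm_sq] using h2
  have h4 := integral_nonneg_of_ae h1
  have i1 : ∀ g, Integrable (fun x => (1 / 4 : ℝ) * (inner ℝ ((c.W g a).1 x) ((c.W g a).1 x) +
        inner ℝ ((c.W g b).1 x) ((c.W g b).1 x))) ν := fun g =>
    ((c.int _ _).add (c.int _ _)).const_mul _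
  have i2 : ∀ g, Integrable (fun x => 2 * inner ℝ ((c.W g a).1 x) ((c.W g b).1 x) +
      (1 / 4 : ℝ) * (inner ℝ ((c.W g a).1 x) ((c.W g a).1 x) +
        inner ℝ ((c.W g b).1 x) ((c.W g b).1 x))) ν := fun g =>
    ((c.int _ _).const_mul _).add (i1 g)
  rw [integral_finsetSum _ fun g _ => i2 g] at h4
  have h5 : ∀ g, ∫ x, (2 * inner ℝ ((c.W g a).1 x) ((c.W g b).1 x) +
      (1 / 4) * (inner ℝ ((c.W g a).1 x) ((c.W g a).1 x) +
        inner ℝ ((c.W g b).1 x) ((c.W g b).1 x))) ∂ν =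
      2 * c.β a b + (1 / 4) * (c.β a a + c.β b b) := by
    intro g
    rw [integral_add ((c.int _ _).const_mul _) (i1 g),
      integral_const_mul, integral_const_mul, integral_add (c.int _ _) (c.int _ _),
      ← c.β_def, ← c.β_def, ← c.β_def, c.β_W, c.β_W, c.β_W]
  simp only [h5, Finset.sum_const, nsmul_eq_mul] at h4
  exact (mul_nonneg_iff_of_pos_left (by exact_mod_cast hT.card_pos)).1 h4

/-- the energy -/
noncomputable def Ctx.E [IsProbabilityMeasure ν] (c : Ctx ν M U) (v : c.V) : ℝ :=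
  ∑ i, c.β (v - c.P i v) (v - c.P i v)

/-- the iterates -/
noncomputable def Ctx.it (c : Ctx ν M U) (v : c.V) : ℕ → c.V
  | 0 => v
  | m + 1 => (1 / 3 : ℝ) • ∑ i, c.P i (c.it v m)

theorem Ctx.β_nonneg [IsProbabilityMeasure ν] (c : Ctx ν M U) (ξ : c.V) : 0 ≤ c.β ξ ξ := by
  rw [c.β_self]; exact integral_nonneg fun x => sq_nonneg _

theorem Ctx.β_comm [IsProbabilityMeasure ν] (c : Ctx ν M U) (ξ η : c.V) : c.β ξ η = c.β η ξ := by
  simp only [c.β_def, real_inner_comm]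

theorem Ctx.decay [IsProbabilityMeasure ν] (c : Ctx ν M U) (hA : EnAbsStmt)
    {N : Fin 3 → Subgroup (Gam p)} (hN : PairIneq p N)
    (hf : ∀ k, ∀ n ∈ N k, ∀ x : X, n • x = x) (v : c.V) (m : ℕ) :
    c.E (c.it v m) ≤ c.E v * (5 / 6) ^ m ∧
    c.β (c.it v (m + 1) - c.it v m) (c.it v (m + 1) - c.it v m) ≤ c.E v / 3 * (5 / 6) ^ m ∧
    c.β v v - 4 * c.E v ≤ c.β (c.it v m) (c.it v m) - 4 * c.E (c.it v m) := by
  have step : ∀ u : c.V, ∀ w, w = (1 / 3 : ℝ) • ∑ i, c.P i u →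
      c.E w ≤ 5 / 6 * c.E u ∧ c.β (w - u) (w - u) ≤ 1 / 3 * c.E u ∧
      c.β u u - 2 / 3 * c.E u ≤ c.β w w := by
    intro u w hw
    obtain ⟨h1, h2⟩ := hA c.V c.β c.P c.β_comm c.β_nonneg c.P_symm c.P_idem u
      (c.pair hN hf u) w hw
    refine ⟨h1, h2, ?_⟩
    have h3 : ∀ i, c.β (u - c.P i u) (u - c.P i u) = c.β u u - c.β u (c.P i u) := by
      intro i
      have h4 := c.P_symm i (c.P i u) u
      have h5 := c.P_idem i u u
      have h6 := c.β_comm u (c.P i u)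
      simp only [map_sub, LinearMap.sub_apply]
      linarith
    have h7 : c.β u w = c.β u u - 1 / 3 * c.E u := by
      rw [hw, map_smul, map_sum, Ctx.E]
      simp only [h3, Fin.sum_univ_three, smul_eq_mul]
      ring
    have h8 := c.β_nonneg (w - u)
    have h9 := c.β_comm u w
    simp only [map_sub, LinearMap.sub_apply] at h8
    linarith
  induction m with
  | zero =>
    obtain ⟨-, h2, -⟩ := step v (c.it v 1) rfl
    refine ⟨by simp [Ctx.it], ?_, le_rfl⟩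
    simp only [pow_zero, mul_one]
    exact h2.trans (le_of_eq (by ring))
  | succ m ih =>
    obtain ⟨h1, -, h3⟩ := step (c.it v m) (c.it v (m + 1)) rfl
    obtain ⟨-, h4, -⟩ := step (c.it v (m + 1)) (c.it v (m + 1 + 1)) rfl
    obtain ⟨i1, -, i3⟩ := ih
    rw [pow_succ]
    refine ⟨by linarith, by linarith, by linarith⟩

theorem Ctx.it_le (c : Ctx ν M U) (v : c.V) (h : ∀ᵐ x ∂ν, ‖v.1 x‖ ≤ 1) (m : ℕ) :
    ∀ᵐ x ∂ν, ‖(c.it v m).1 x‖ ≤ 1 := by
  induction m with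
  | zero => exact h
  | succ m ih =>
    filter_upwards [ae_all_iff.2 fun g : Gam p => c.sh g ih] with x hx
    have h1 : ∀ i, ‖(c.P i (c.it v m)).1 x‖ ≤ 1 := fun i => by
      rw [c.P_app]
      exact avg_le _ fun a => by rw [c.norm]; exact hx _
    simp only [Ctx.it, Submodule.coe_smul, Submodule.coe_sum, Pi.smul_apply, Finset.sum_apply,
      norm_smul]
    have h2 := (norm_sum_le Finset.univ fun i => (c.P i (c.it v m)).1 x).trans
      (Finset.sum_le_sum fun i _ => h1 i)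
    simp only [Finset.sum_const, Finset.card_univ, Fintype.card_fin, nsmul_eq_mul] at h2
    rw [Real.norm_of_nonneg (by norm_num)]
    push_cast at h2
    linarith

theorem Ctx.E_small [IsProbabilityMeasure ν] (c : Ctx ν M U) (v : c.V)
    (h : ∀ᵐ x ∂ν, ‖v.1 x‖ ≤ 1)
    (hs : ν {x | ∃ i a, (1 / 100 : ℝ) ≤ ‖U (gen i a) v.1 x - v.1 x‖} ≤ ENNReal.ofReal (1 / 100)) :
    c.E v ≤ 1 / 8 := by
  have key : ∀ i, c.β (v - c.P i v) (v - c.P i v) ≤ 1 / 24 := by
    intro i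
    have hq : ∀ x, (v - c.P i v).1 x =
        (1 / (p : ℝ)) • ∑ a : ZMod p, (v.1 x - U (gen i a) v.1 x) := by
      intro x
      rw [Finset.sum_sub_distrib, smul_sub, avg, ← c.P_app]; rfl
    set A := {x | (1 / 100 : ℝ) < ‖(v - c.P i v).1 x‖} with hA
    have hAm : MeasurableSet A := measurableSet_lt measurable_const (c.mnorm (v - c.P i v).2.1)
    have hAs : ν.real A ≤ 1 / 100 := by
      refine ENNReal.toReal_le_of_le_ofReal (by norm_num) ((measure_mono fun x hx => ?_).trans hs)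
      by_contra hn
      simp only [Set.mem_ofPred_eq, not_exists, not_le] at hn
      have := avg_le (fun a => v.1 x - U (gen i a) v.1 x) (b := 1 / 100) fun a => by
        rw [norm_sub_rev]; exact (hn i a).le
      rw [← hq] at this
      exact absurd hx (not_lt.2 this)
    have hI : Integrable (A.indicator fun _ => (4 : ℝ)) ν := (integrable_const _).indicator hAm
    rw [c.β_self]
    calc _ ≤ ∫ x, ((1 / 10000 : ℝ) + A.indicator (fun _ => (4 : ℝ)) x) ∂ν := by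
          refine integral_mono_ae (c.int2 _) ((integrable_const _).add hI) ?_
          filter_upwards [h, ae_all_iff.2 fun g : Gam p => c.sh g h] with x h1 h2
          have h0 := norm_nonneg ((v - c.P i v).1 x)
          by_cases hx : x ∈ A
          · have := avg_le (fun a => v.1 x - U (gen i a) v.1 x) (b := 2) fun a => by
              have := norm_sub_le (v.1 x) (U (gen i a) v.1 x)
              rw [c.norm] at this
              linarith [h2 (gen i a)⁻¹]
            rw [← hq] at this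
            rw [Set.indicator_of_mem hx]
            nlinarith
          · rw [Set.indicator_of_notMem hx]
            have : ‖(v - c.P i v).1 x‖ ≤ 1 / 100 := not_lt.1 fun h => hx h
            nlinarith
      _ ≤ _ := by
          rw [integral_add (integrable_const _) hI, integral_indicator hAm]
          simp only [integral_const, probReal_univ, smul_eq_mul, MeasurableSet.univ,
            measureReal_restrict_apply, Set.univ_inter]
          linarith
  simp only [Ctx.E, Fin.sum_univ_three]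
  linarith [key 0, key 1, key 2]

theorem Ctx.main [IsProbabilityMeasure ν] [∀ x, CompleteSpace (H x)] (c : Ctx ν M U)
    (hA : EnAbsStmt) {N : Fin 3 → Subgroup (Gam p)} (hN : PairIneq p N)
    (hf : ∀ k, ∀ n ∈ N k, ∀ x : X, n • x = x)
    (herg : ∀ B : Set X, MeasurableSet B → (∀ (g : Gam p) x, x ∈ B → g • x ∈ B) →
      ν B = 0 ∨ ν B = 1) (ξ : ∀ x, H x) (hξ : M ξ) (h1 : ∀ᵐ x ∂ν, ‖ξ x‖ = 1)
    (hs : ν {x | ∃ i a, (1 / 100 : ℝ) ≤ ‖U (gen i a) ξ x - ξ x‖} ≤ ENNReal.ofReal (1 / 100)) :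
    ∃ η, M η ∧ (∀ᵐ x ∂ν, ‖η x‖ = 1) ∧ ∀ᵐ x ∂ν, ∀ g, U g η x = η x := by
  classical
  have h1' : ∀ᵐ x ∂ν, ‖ξ x‖ ≤ 1 := h1.mono fun x hx => hx.le
  let v : c.V := ⟨ξ, hξ, 1, h1'⟩
  have hE := c.E_small v h1' hs
  have hd := c.decay hA hN hf v
  have hb := c.it_le v h1'
  have hv : c.β v v = 1 := by
    rw [c.β_self, integral_congr_ae (g := fun _ => (1 : ℝ)) (h1.mono fun x hx => by
      simp only [v, hx, one_pow])]
    simp
  have s1 := ae_summ ν (fun m x => ‖(c.it v (m + 1) - c.it v m).1 x‖) (c.E v / 3)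
    (fun m => c.mnorm (c.it v (m + 1) - c.it v m).2.1) (fun _ _ => norm_nonneg _)
    (fun m => c.int2 _) (fun m => by rw [← c.β_self]; exact (hd m).2.1)
  have s2 : ∀ i, ∀ᵐ x ∂ν, Summable fun m => ‖(c.it v m - c.P i (c.it v m)).1 x‖ := fun i =>
    ae_summ ν (fun m x => ‖(c.it v m - c.P i (c.it v m)).1 x‖) (c.E v)
      (fun m => c.mnorm (c.it v m - c.P i (c.it v m)).2.1) (fun _ _ => norm_nonneg _)
      (fun m => c.int2 _) (fun m => by
        rw [← c.β_self]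
        exact (Finset.single_le_sum (f := fun i => c.β (c.it v m - c.P i (c.it v m))
          (c.it v m - c.P i (c.it v m))) (fun i _ => c.β_nonneg _) (Finset.mem_univ i)).trans
          (hd m).1)
  have s3 : ∀ᵐ x ∂ν, ∃ l, Tendsto (fun m => (c.it v m).1 x) atTop (𝓝 l) := by
    filter_upwards [s1] with x hx
    refine cauchySeq_tendsto_of_complete (cauchySeq_of_summable_dist ?_)
    refine hx.congr fun m => ?_
    rw [dist_comm, dist_eq_norm]; rfl
  obtain ⟨Z, hZ1, hZ2, hZ3⟩ := exists_measurable_superset_of_null (ae_iff.1 s3)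
  have hc : ∀ x, ∃ l : H x, (x ∉ Z → Tendsto (fun m => (c.it v m).1 x) atTop (𝓝 l)) ∧
      (x ∈ Z → l = 0) := by
    intro x
    by_cases hx : x ∈ Z
    · exact ⟨0, fun h => absurd hx h, fun _ => rfl⟩
    · obtain ⟨l, hl⟩ := not_not.1 fun h => hx (hZ1 h)
      exact ⟨l, fun _ => hl, fun h => absurd h hx⟩
  choose η hη hη0 using hc
  have hMη : M η := by
    refine c.lim (fun m x => (Zᶜ.indicator (fun _ => (1 : ℝ)) x) • (c.it v m).1 x) η
      (fun m => c.smul _ _ (measurable_const.indicator hZ2.compl) (c.it v m).2.1) fun x => ?_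
    by_cases hx : x ∈ Z
    · simp [hx, hη0 x hx]
    · simpa [hx] using hη x hx
  have hcv : ∀ᵐ x ∂ν, Tendsto (fun m => (c.it v m).1 x) atTop (𝓝 (η x)) :=
    (measure_eq_zero_iff_ae_notMem.1 hZ3).mono hη
  have g1 : ∀ i a, ∀ᵐ x ∂ν, U (gen i a) η x = η x := by
    intro i a
    filter_upwards [hcv, c.sh (gen i a)⁻¹ hcv, s2 i, c.sh (gen i a)⁻¹ (s2 i), c.coc]
      with x k1 k2 k3 k4 k5
    have t1 : Tendsto (fun m => U (gen i a) (c.it v m).1 x) atTop (𝓝 (U (gen i a) η x)) := by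
      rw [tendsto_iff_norm_sub_tendsto_zero] at k2 ⊢
      simpa only [c.dist] using k2
    have t2 : Tendsto (fun m => U (gen i a) (c.it v m).1 x - (c.it v m).1 x) atTop (𝓝 0) := by
      refine squeeze_zero_norm (fun m => ?_)
        (by simpa using k4.tendsto_atTop_zero.add k3.tendsto_atTop_zero)
      have e1 : U (gen i a) (c.it v m).1 x - (c.it v m).1 x =
          (U (gen i a) (c.it v m).1 x - U (gen i a) (c.P i (c.it v m)).1 x) -
            ((c.it v m).1 x - (c.P i (c.it v m)).1 x) := by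
        rw [c.genP k5.1]; abel
      rw [e1, ← c.dist]
      exact norm_sub_le _ _
    exact sub_eq_zero.1 (tendsto_nhds_unique (t1.sub k1) t2)
  have g2 : ∀ᵐ x ∂ν, ∀ g, U g η x = η x := by
    refine ae_all_iff.2 fun g => ?_
    obtain ⟨l, rfl⟩ := exists_lprod g
    induction l with
    | nil => exact c.coc.mono fun x hx => hx.2 η
    | cons q l ih =>
      filter_upwards [c.coc, c.sh (gen q.1 q.2)⁻¹ ih, g1 q.1 q.2] with x k1 k2 k3
      rw [lprod_cons, ← k1.1, c.loc _ k2, k3]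
  have g3 : ∀ᵐ x ∂ν, ∀ g : Gam p, ‖η (g • x)‖ = ‖η x‖ := by
    filter_upwards [g2] with x hx g
    rw [← hx g⁻¹, c.norm, inv_inv]
  have n1 : Tendsto (fun m => ∫ x, ‖(c.it v m).1 x‖ ^ 2 ∂ν) atTop (𝓝 (∫ x, ‖η x‖ ^ 2 ∂ν)) := by
    refine tendsto_integral_of_dominated_convergence (fun _ => 1)
      (fun m => (c.int2 _).aestronglyMeasurable) (integrable_const _) (fun m => ?_)
      (hcv.mono fun x hx => hx.norm.pow 2)
    filter_upwards [hb m] with x hx
    rw [Real.norm_of_nonneg (sq_nonneg _)]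
    exact pow_le_one₀ (norm_nonneg _) hx
  have n2 : 1 / 2 ≤ ∫ x, ‖η x‖ ^ 2 ∂ν := by
    refine ge_of_tendsto' n1 fun m => ?_
    have k1 := (hd m).2.2
    have k2 : 0 ≤ c.E (c.it v m) := Finset.sum_nonneg fun i _ => c.β_nonneg _
    rw [← c.β_self]
    linarith
  have hB : MeasurableSet {x | ∀ g : Gam p, 0 < ‖η (g • x)‖} := by
    rw [Set.ofPred_forall]
    exact MeasurableSet.iInter fun g => measurableSet_lt measurable_const
      ((c.mnorm hMη).comp (c.mp g).measurable)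
  have n3 : ∀ᵐ x ∂ν, 0 < ‖η x‖ := by
    rcases herg _ hB (fun g x hx h => by rw [← mul_smul]; exact hx _) with h | h
    · exfalso
      have : ∫ x, ‖η x‖ ^ 2 ∂ν = 0 := by
        refine integral_eq_zero_of_ae ?_
        filter_upwards [measure_eq_zero_iff_ae_notMem.1 h, g3] with x k1 k2
        simp only [k2, forall_const, not_lt] at k1
        simp [norm_le_zero_iff.1 k1]
      linarith
    · have := (mem_ae_iff_prob_eq_one hB).2 h
      filter_upwards [this] with x hx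
      have h2 := hx 1
      rwa [one_smul] at h2
  refine ⟨fun x => ‖η x‖⁻¹ • η x, c.smul _ _ (c.mnorm hMη).inv hMη, ?_, ?_⟩
  · filter_upwards [n3] with x hx
    rw [norm_smul, norm_inv, norm_norm, inv_mul_cancel₀ hx.ne']
  · filter_upwards [g2, g3] with x k1 k2 g
    rw [c.loc g (η := ‖η x‖⁻¹ • η) (by simp only [k2, Pi.smul_apply]), map_smul, Pi.smul_apply, k1]

end T

open T in
theorem propT (hA : EnAbsStmt) : TStmt := by
  intro p _ N hN X _ _ ν _ hmp hf herg H _ _ _ e he hd π hπ hcoc ⟨ξ, hξ, hξ1, hξ2⟩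
  classical
  let _ : ∀ x, InnerProductSpace ℝ (H x) := fun x => InnerProductSpace.complexToReal
  have hE : ∀ (g : Gam p) (x : X), (x, g • x) ∈ {q : X × X | ∃ g : Gam p, q.2 = g • q.1} :=
    fun g x => ⟨g, rfl⟩
  let U : Gam p → (∀ x, H x) →ₗ[ℝ] (∀ x, H x) := fun g =>
    { toFun := fun ζ x => π x (g⁻¹ • x) (hE _ _) (ζ (g⁻¹ • x))
      map_add' := fun ζ ζ' => funext fun x => map_add (π x (g⁻¹ • x) (hE _ _)) _ _
      map_smul' := fun r ζ => funext fun x => (π x (g⁻¹ • x) (hE _ _)).map_smul (r : ℂ) _ }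
  have hU : ∀ g ζ x y (h : (x, y) ∈ {q : X × X | ∃ g : Gam p, q.2 = g • q.1}), y = g⁻¹ • x →
      U g ζ x = π x y h (ζ y) := by
    rintro g ζ x y h rfl
    rfl
  have c : Ctx ν (Ms e) U :=
    { mp := hmp
      zero := Ms.zero
      add := fun _ _ h h' => h.add h'
      smul := fun f ζ h h' => Ms.smul (f := fun x => (f x : ℂ))
        (Complex.measurable_ofReal.comp h) h'
      inn := fun _ _ h h' => Complex.measurable_re.comp (Ms.inn (fun n m => he m n) hd h h')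
      lim := fun _ _ h h' => Ms.lim h h'
      iso := fun g ζ ζ' x => congrArg Complex.re ((π x (g⁻¹ • x) (hE _ _)).inner_map_map _ _)
      ms := fun g ζ h => Ms.transport (fun n m => he m n) hd π hπ (hmp g⁻¹).measurable (hE g⁻¹) h
      coc := by
        filter_upwards [hcoc] with x hx
        refine ⟨fun g h ζ => ?_, fun ζ => ?_⟩
        · have h1 : (x, h⁻¹ • g⁻¹ • x) ∈ {q : X × X | ∃ g : Gam p, q.2 = g • q.1} :=
            ⟨h⁻¹ * g⁻¹, (mul_smul _ _ _).symm⟩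
          rw [hU (g * h) ζ x _ h1 (by rw [mul_inv_rev, mul_smul])]
          exact hx _ _ _ _ _ _
        · have h1 : (x, x) ∈ {q : X × X | ∃ g : Gam p, q.2 = g • q.1} := ⟨1, (one_smul _ _).symm⟩
          rw [hU 1 ζ x x h1 (by simp)]
          exact (π x x h1).injective (hx x x h1 h1 h1 _)
      pt := fun g h ζ x hx => (hU h ζ x _ (hE g⁻¹ x) hx).symm }
  have hlim : Tendsto (fun k => ∑ q : Fin 3 × ZMod p,
      ν {x | (1 / 100 : ℝ) ≤ ‖U (gen q.1 q.2) (ξ k) x - ξ k x‖}) atTop (𝓝 0) := by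
    have : (0 : ENNReal) = ∑ _q : Fin 3 × ZMod p, 0 := by simp
    rw [this]
    refine tendsto_finsetSum _ fun q _ => ?_
    let φ : X ≃ᵐ X :=
      { toEquiv := MulAction.toPerm (gen q.1 q.2 : Gam p)
        measurable_toFun := (hmp _).measurable
        measurable_invFun := (hmp _).measurable }
    refine tendsto_of_tendsto_of_tendsto_of_le_of_le tendsto_const_nhds
      (hξ2 φ (Eventually.of_forall fun x => hE _ x) (1 / 100) (by norm_num))
      (fun _ => bot_le) fun k => measure_mono fun x hx => ⟨hE _ x, hx⟩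
  obtain ⟨k, hk⟩ := (hlim.eventually (gt_mem_nhds (a := ENNReal.ofReal (1 / 100))
    (by simp))).exists
  obtain ⟨η, h1, h2, h3⟩ := c.main hA hN hf herg (ξ k) (hξ k) (hξ1 k) (by
    refine le_trans ?_ hk.le
    refine le_trans (measure_mono fun x hx => ?_) (measure_iUnion_fintype_le _ _)
    obtain ⟨i, a, h⟩ := hx
    exact Set.mem_iUnion.2 ⟨(i, a), h⟩)
  refine ⟨η, h1, h2, h3.mono ?_⟩
  rintro x hx y ⟨g, hg⟩
  rw [← hU g⁻¹ η x y ⟨g, hg⟩ (by rw [inv_inv]; exact hg), hx]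

end Pool.Agent.MP_735563_an.H2
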