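import Pool.Agent.MP_735563_an.H2.Spec5
import Pool.Agent.MP_735563_an.H34.Spec4

set_option autoImplicit false

/-! The observable of a rule. -/

namespace Pool.Agent.MP_735563_an.H2

variable {p : ℕ} [NeZero p]

/-- the observable -/
noncomputable def RP.psi (P : RP p) (ρ : ℕ) (M : MS p) : ℝ :=
  2 / P.n * ind P.Full M - P.nfo ρ M + ind P.fl M - 1 / P.n

/-- the observables of the level -/
noncomputable def RP.obs (P : RP p) (ρ r : ℕ) : Obs p := ⟨P.psi ρ, P.Coll, r, P.L + 3, P.nE⟩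

/-- the tolerance -/
noncomputable def eta0 (n L m : ℕ) : ℝ := 1 / (100 * 5 ^ (m + 1) * (L + 3) * n)

/-- row Obs -/
def ObsStmt : Prop := ∀ (p : ℕ) [NeZero p] (P : RP p) (ρ r : ℕ) (ε : ℝ), P.Bas →
  Cnt.FeStmt ((3 * p) ^ 1000) P.n P.L P.m → ((3 * p) ^ P.U) ^ 2 ≤ 2 ^ P.k₁ → 2 ≤ P.k₁ →
  1 ≤ P.k₂ → LocA P.i r P.Full → LocA P.i r P.Coll → ρ ≤ r →
  (P.k₂ + 2) * (P.m * P.l) + P.U ≤ r → 2 * P.R ≤ r → P.i ≤ 2 * P.R →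
  (3 * p : ℝ) ^ (2 * P.R) ≤ ε * P.Q → ObsOK P.i ε (P.obs ρ r)

/-- rows Kill -/
def KillStmt : Prop := ∀ (p : ℕ) [NeZero p] (P : RP p) (ρ r : ℕ), P.Bas → P.TrP ρ → 3 ≤ P.k₂ →
  Kill P.cen (P.nb ρ) (P.obs ρ r) P.τ (eta0 P.n P.L P.m)

end Pool.Agent.MP_735563_an.H2
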