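import Pool.Agent.MP_735563_an.H2.All5
import Pool.Agent.MP_735563_an.H34.FGa2

set_option autoImplicit false

/-! The final statement without hypotheses. -/

namespace Pool.Agent.MP_735563_an.H2

theorem final : Final := final_of_fga (fga2 dichT cpS qct injBT towT vuT)

end Pool.Agent.MP_735563_an.H2
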