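import Pool.Agent.MP_735563_an.H2.Spec1

set_option autoImplicit false

/-! Property (T) for fields of Hilbert spaces in an arbitrary universe. -/

open MeasureTheory Filter Topology

namespace Pool.Agent.MP_735563_an.H2

universe u

theorem exists_small (V : Type u) [NormedAddCommGroup V] [InnerProductSpace ℂ V] [CompleteSpace V]
    (e : ℕ → V) (h : Dense (Submodule.span ℂ (Set.range e) : Set V)) :
    ∃ (W : Type) (_ : NormedAddCommGroup W) (_ : InnerProductSpace ℂ W) (_ : CompleteSpace W),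
      Nonempty (V ≃ₗᵢ[ℂ] W) := by
  have hs : Small.{0} V := by
    refine small_of_injective (f := fun (v : V) (n : ℕ) => inner ℂ (e n) v) fun v w hvw => ?_
    refine h.eq_of_inner_right (𝕜 := ℂ) fun z hz => ?_
    induction hz using Submodule.span_induction with
    | mem z hz => obtain ⟨n, rfl⟩ := hz; exact congrFun hvw n
    | zero => simp
    | add a b _ _ ha hb => simp only [inner_add_left] at ha hb ⊢; rw [ha, hb]
    | smul c a _ ha => simp only [inner_smul_left] at ha ⊢; rw [ha]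
  let f : Shrink.{0} V ≃ₗᵢ[ℂ] V := ⟨Shrink.linearEquiv ℂ V, fun _ => rfl⟩
  refine ⟨Shrink.{0} V, inferInstance,
    { inner x y := inner ℂ (f x) (f y)
      norm_sq_eq_re_inner x := norm_sq_eq_re_inner (f x)
      conj_inner_symm x y := inner_conj_symm (f x) (f y)
      add_left x y z := by rw [map_add, inner_add_left]
      smul_left x y r := by rw [map_smul, inner_smul_left] },
    f.toIsometryEquiv.completeSpace, ⟨f.symm⟩⟩

theorem PropT.univ {X : Type} [MeasurableSpace X] {μ : Measure X} {E : Set (X × X)}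
    (hT : PropT μ E) (H : X → Type u) [∀ x, NormedAddCommGroup (H x)]
    [∀ x, InnerProductSpace ℂ (H x)] [∀ x, CompleteSpace (H x)] (e : ℕ → ∀ x, H x)
    (h1 : ∀ n m, Measurable fun x => inner ℂ (e n x) (e m x))
    (h2 : ∀ x, Dense (Submodule.span ℂ (Set.range fun n => e n x) : Set (H x)))
    (π : ∀ x y, (x, y) ∈ E → (H y ≃ₗᵢ[ℂ] H x))
    (h3 : ∀ n m, Measurable fun q : E => inner ℂ (e n q.1.1) (π q.1.1 q.1.2 q.2 (e m q.1.2)))
    (h4 : ∀ᵐ x ∂μ, ∀ y z (hxy : (x, y) ∈ E) (hyz : (y, z) ∈ E) (hxz : (x, z) ∈ E) (v : H z),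
      π x y hxy (π y z hyz v) = π x z hxz v)
    (h5 : ∃ ξ : ℕ → ∀ x, H x, (∀ k n, Measurable fun x => inner ℂ (e n x) (ξ k x)) ∧
      (∀ k, ∀ᵐ x ∂μ, ‖ξ k x‖ = 1) ∧
      ∀ φ : X ≃ᵐ X, (∀ᵐ x ∂μ, (x, φ x) ∈ E) → ∀ ε : ℝ, 0 < ε →
        Tendsto (fun k => μ {x | ∃ h : (x, φ.symm x) ∈ E,
          ε ≤ ‖π x (φ.symm x) h (ξ k (φ.symm x)) - ξ k x‖}) atTop (𝓝 0)) :
    ∃ ξ : ∀ x, H x, (∀ n, Measurable fun x => inner ℂ (e n x) (ξ x)) ∧
      (∀ᵐ x ∂μ, ‖ξ x‖ = 1) ∧ ∀ᵐ x ∂μ, ∀ y (h : (x, y) ∈ E), π x y h (ξ y) = ξ x := by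
  choose W i1 i2 i3 hj using fun x => exists_small (H x) (fun n => e n x) (h2 x)
  have j := fun x => (hj x).some
  obtain ⟨ξ, g1, g2, g3⟩ := h5
  obtain ⟨ζ, k1, k2, k3⟩ := hT W (fun n x => j x (e n x))
    (fun n m => by simpa only [LinearIsometryEquiv.inner_map_map] using h1 n m)
    (fun x => by
      have e1 : (Submodule.span ℂ (Set.range fun n => j x (e n x)) : Set (W x)) =
          j x '' (Submodule.span ℂ (Set.range fun n => e n x) : Set (H x)) := by
        rw [show (Set.range fun n => j x (e n x)) =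
          (j x).toLinearEquiv.toLinearMap '' Set.range fun n => e n x from Set.range_comp _ _,
          Submodule.span_image]
        rfl
      rw [e1]
      exact (j x).surjective.denseRange.dense_image (j x).continuous (h2 x))
    (fun x y h => (j y).symm.trans ((π x y h).trans (j x)))
    (fun n m => by simpa [LinearIsometryEquiv.inner_map_map] using h3 n m)
    (h4.mono fun x hx y z hxy hyz hxz v => by simp [hx y z hxy hyz hxz])
    ⟨fun k x => j x (ξ k x),
      fun k n => by simpa only [LinearIsometryEquiv.inner_map_map] using g1 k n,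
      fun k => by simpa using g2 k, fun φ hφ ε hε => by
        simpa [← map_sub] using g3 φ hφ ε hε⟩
  refine ⟨fun x => (j x).symm (ζ x), fun n => ?_, by simpa using k2,
    k3.mono fun x hx y h => ?_⟩
  · convert k1 n using 2 with x
    rw [← (j x).inner_map_map, LinearIsometryEquiv.apply_symm_apply]
  · exact (j x).eq_symm_apply.2 (hx y h)

end Pool.Agent.MP_735563_an.H2
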